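import Pool.Agent.Lib.MP_adc574_ag_OA.N_U2

/-!
LEAF NU3: the operations on representatives of matrices.

All types are finite, so it is enough to treat every entry (`Filter.eventually_all`); an entry of a product or of `KS` is a finite sum of products:
`rp_sum`, `rp_mul`. For `mr_KS`: `KS M s s'` is a finite sum over `i` of entries of `M` or zero (`rp_zero`).
-/

set_option autoImplicit false

namespace MPadcOA

open Polynomial Matrix MPadcGM

variable {k : ℕ → Type} [∀ n, Field (k n)] {α β γ : Type} [Fintype α] [Fintype β] [Fintype γ] [DecidableEq α]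

omit [DecidableEq α] in
private theorem NU3_ent {A B : ∀ n, Matrix α β (k n)[X]} (h : ∀ i j, ∀ᶠ n in HF, A n i j = B n i j) :
    ∀ᶠ n in HF, A n = B n := by
  have h1 : ∀ᶠ n in HF, ∀ i j, A n i j = B n i j :=
    Filter.eventually_all.2 fun i => Filter.eventually_all.2 fun j => h i j
  filter_upwards [h1] with n hn
  exact Matrix.ext fun i j => hn i j

private theorem NU3_sum {ι : Type} [Fintype ι] (A B : ι → (LL k)[X]) :
    ∀ᶠ n in HF, rp (∑ l, A l * B l) n = ∑ l, rp (A l) n * rp (B l) n := by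
  have h2 : ∀ᶠ n in HF, ∀ l, rp (A l * B l) n = rp (A l) n * rp (B l) n :=
    Filter.eventually_all.2 fun l => rp_mul _ _
  filter_upwards [rp_sum Finset.univ (fun l => A l * B l), h2] with n e1 e2
  rw [e1]
  exact Finset.sum_congr rfl fun l _ => e2 l

theorem mr_mul (A : Matrix α β (LL k)[X]) (B : Matrix β γ (LL k)[X]) : ∀ᶠ n in HF, mr (A * B) n = mr A n * mr B n := by
  refine NU3_ent fun i j => ?_
  filter_upwards [NU3_sum (fun l => A i l) (fun l => B l j)] with n e1
  rw [Matrix.mul_apply]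
  unfold mr
  rw [Matrix.mul_apply]
  exact e1

theorem mr_add (A B : Matrix α β (LL k)[X]) : ∀ᶠ n in HF, mr (A + B) n = mr A n + mr B n := by
  refine NU3_ent fun i j => ?_
  filter_upwards [rp_add (A i j) (B i j)] with n e1
  exact e1

theorem mr_smul (c : (LL k)[X]) (A : Matrix α β (LL k)[X]) : ∀ᶠ n in HF, mr (c • A) n = rp c n • mr A n := by
  refine NU3_ent fun i j => ?_
  filter_upwards [rp_mul c (A i j)] with n e1
  exact e1

theorem mr_one : ∀ᶠ n in HF, mr (1 : Matrix α α (LL k)[X]) n = 1 := by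
  refine NU3_ent fun i j => ?_
  unfold mr
  by_cases h : i = j
  · subst h
    filter_upwards [rp_one (k := k)] with n e1
    rw [Matrix.one_apply_eq, Matrix.one_apply_eq, e1]
  · filter_upwards [rp_zero (k := k)] with n e1
    rw [Matrix.one_apply_ne h, Matrix.one_apply_ne h, e1]

theorem mr_zero : ∀ᶠ n in HF, mr (0 : Matrix α β (LL k)[X]) n = 0 := by
  refine NU3_ent fun i j => ?_
  filter_upwards [rp_zero (k := k)] with n e1
  exact e1

theorem mr_derivative (A : Matrix α β (LL k)[X]) : ∀ᶠ n in HF, mr (A.map derivative) n = (mr A n).map derivative := by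
  refine NU3_ent fun i j => ?_
  filter_upwards [rp_derivative (A i j)] with n e1
  exact e1

theorem mr_KS {g m : ℕ} (M : Matrix (Nx g) (Nx g) (LL k)[X]) :
    ∀ᶠ n in HF, mr (KS M : Matrix (Kx g m) (Kx g m) (LL k)[X]) n = KS (mr M n) := by
  refine NU3_ent fun s s' => ?_
  have h1 := rp_sum (k := k) Finset.univ
    (fun i : Fin m => if s' = Function.update s i ((s i).1, (s' i).2) then M (s i).2 (s' i).2 else 0)
  have h2 : ∀ᶠ n in HF, ∀ i : Fin m,
      rp (if s' = Function.update s i ((s i).1, (s' i).2) then M (s i).2 (s' i).2 else 0) n =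
        if s' = Function.update s i ((s i).1, (s' i).2) then rp (M (s i).2 (s' i).2) n else 0 := by
    refine Filter.eventually_all.2 fun i => ?_
    by_cases h : s' = Function.update s i ((s i).1, (s' i).2)
    · refine Filter.Eventually.of_forall fun n => ?_
      rw [if_pos h, if_pos h]
    · filter_upwards [rp_zero (k := k)] with n e1
      rw [if_neg h, if_neg h, e1]
  filter_upwards [h1, h2] with n e1 e2
  exact e1.trans (Finset.sum_congr rfl fun i _ => e2 i)

theorem mr_ext {A B : Matrix α β (LL k)[X]} (h : ∀ᶠ n in HF, mr A n = mr B n) : A = B := by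
  refine Matrix.ext fun i j => rp_ext ?_
  filter_upwards [h] with n hn
  exact congrFun (congrFun hn i) j

/-- (the operator `opD`) -/
theorem rp_opD {g m : ℕ} (Δ : (LL k)[X]) (G : Matrix (Nx g) (Nx g) (LL k)[X]) (φ : Kx g m → (LL k)[X]) :
    ∀ᶠ n in HF, (fun s => rp (opD Δ G φ s) n) = opD (rp Δ n) (mr G n) fun s => rp (φ s) n := by
  have h : ∀ᶠ n in HF, ∀ s, rp (opD Δ G φ s) n = opD (rp Δ n) (mr G n) (fun s => rp (φ s) n) s := by
    refine Filter.eventually_all.2 fun s => ?_
    filter_upwards [rp_add (Δ * derivative (φ s)) ((KS G *ᵥ φ) s), rp_mul Δ (derivative (φ s)), rp_derivative (φ s),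
      NU3_sum (fun s' => (KS G : Matrix (Kx g m) (Kx g m) (LL k)[X]) s s') φ, mr_KS (m := m) G] with n e1 e2 e3 e4 e5
    have e6 : rp ((KS G *ᵥ φ) s) n = ((KS (mr G n) : Matrix (Kx g m) (Kx g m) (k n)[X]) *ᵥ fun s => rp (φ s) n) s := by
      rw [← e5]
      exact e4
    calc rp (opD Δ G φ s) n = rp (Δ * derivative (φ s) + (KS G *ᵥ φ) s) n := rfl
      _ = rp Δ n * derivative (rp (φ s) n) +
          ((KS (mr G n) : Matrix (Kx g m) (Kx g m) (k n)[X]) *ᵥ fun s => rp (φ s) n) s := by
          rw [e1, e2, e3, e6]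
      _ = opD (rp Δ n) (mr G n) (fun s => rp (φ s) n) s := rfl
  filter_upwards [h] with n hn
  exact funext hn

/-- (the module `Van`) Proof. `van_int`: finitely many equations `∑ s, φ s * Γ i s = 0` with integral coefficients; `rp_sum`, `rp_mul`, `rp_intCast`. -/
theorem rp_van {g m : ℕ} {φ : Kx g m → (LL k)[X]} (h : Van φ) : ∀ᶠ n in HF, Van fun s => rp (φ s) n := by
  obtain ⟨N, Γ, hΓ⟩ := van_int g m
  rw [hΓ] at h
  have h1 : ∀ᶠ n in HF, ∀ i, ∑ s, rp (φ s) n * ((Γ i s : ℤ) : (k n)[X]) = 0 := by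
    refine Filter.eventually_all.2 fun i => ?_
    have h2 : ∀ᶠ n in HF, ∀ s, rp ((Γ i s : ℤ) : (LL k)[X]) n = ((Γ i s : ℤ) : (k n)[X]) :=
      Filter.eventually_all.2 fun s => rp_intCast _
    filter_upwards [NU3_sum φ (fun s => ((Γ i s : ℤ) : (LL k)[X])), h2, rp_zero (k := k)] with n e1 e2 e3
    rw [h i, e3] at e1
    rw [e1]
    exact Finset.sum_congr rfl fun s _ => by rw [e2 s]
  filter_upwards [h1] with n hn
  rw [hΓ]
  exact hn

end MPadcOA
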