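import Mathlib

/-!
# Ordinary reduction at almost all rational points of a pencil: definitions

`Nx g = Fin g ⊕ Fin g` are the coordinates of the symplectic space of dimension `2 g`, vectors are ROWS, `JJ g R` is the matrix of the
alternating form `u * JJ * v^T`. A frame is a `g × 2 g` matrix `U` (its rows are `g` vectors), it is isotropic if `U * JJ * U^T = 0`.

`Kx g m` are the multi-indices of degree `m` in the entries of a frame; a form `φ : Kx g m → R` of degree `m` has the value `ev U φ` at
the frame `U` (a form is not determined by its values; in particular there are many forms with the same values). `Van φ`: the form `φ`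
vanishes at the generic isotropic frame `(a | a y)`, `y` symmetric.

`Dat g k`: a symplectic differential system `Δ ∂ u = u G` over `k[X]`, `Δ = ∏ (X - a j)`, with an isotropic frame `U` of horizontal
vectors and a horizontal vector `w`; `Dat.Ok` are its properties (the residues of `G` at the `a j` are of the form
`u ↦ s ⟨u, w(a j)⟩ w(a j)`, the coordinates of `w` are linearly independent over the polynomials of small degree).
-/

set_option autoImplicit false

namespace MPadcOA

open Polynomial Matrix

/-- The coordinates of the symplectic space of dimension `2 g`. -/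
abbrev Nx (g : ℕ) := Fin g ⊕ Fin g

/-- The multi-indices of degree `m` in the entries of a frame. -/
abbrev Kx (g m : ℕ) := Fin m → Fin g × Nx g

/-- The value of the form `φ` at the frame `U`. -/
def ev {R : Type*} [CommRing R] {g m : ℕ} (U : Matrix (Fin g) (Nx g) R) (φ : Kx g m → R) : R :=
  ∑ s, φ s * ∏ i, U (s i).1 (s i).2

/-- The matrix of the alternating form. -/
def JJ (g : ℕ) (R : Type*) [CommRing R] : Matrix (Nx g) (Nx g) R :=
  Matrix.fromBlocks 0 1 (-1) 0

/-- The ring of the coefficients of the generic isotropic frame. -/
abbrev GenR (g : ℕ) (R : Type*) [CommRing R] := MvPolynomial ((Fin g × Fin g) ⊕ Sym2 (Fin g)) R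

/-- The generic matrix `a`. -/
noncomputable def genA (g : ℕ) (R : Type*) [CommRing R] : Matrix (Fin g) (Fin g) (GenR g R) :=
  fun i j => MvPolynomial.X (Sum.inl (i, j))

/-- The generic symmetric matrix `y`. -/
noncomputable def genY (g : ℕ) (R : Type*) [CommRing R] : Matrix (Fin g) (Fin g) (GenR g R) :=
  fun i j => MvPolynomial.X (Sum.inr s(i, j))

/-- The generic isotropic frame `(a | a y)`. -/
noncomputable def genU (g : ℕ) (R : Type*) [CommRing R] : Matrix (Fin g) (Nx g) (GenR g R) :=
  Matrix.fromCols (genA g R) (genA g R * genY g R)

/-- The form `φ` vanishes at the generic isotropic frame. -/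
def Van {R : Type*} [CommRing R] {g m : ℕ} (φ : Kx g m → R) : Prop :=
  ev (genU g R) (fun s => MvPolynomial.C (φ s)) = 0

/-- The first `g` columns of a frame. -/
def fst {R : Type*} {g : ℕ} (U : Matrix (Fin g) (Nx g) R) : Matrix (Fin g) (Fin g) R :=
  fun i j => U i (Sum.inl j)

/-- A symplectic system with an isotropic frame `U` of horizontal vectors and a horizontal vector `w`. -/
structure Dat (g : ℕ) (k : Type*) [Field k] where
  /-- the singular points -/
  a : Fin (2 * g) → k
  /-- the matrix of the system -/
  G : Matrix (Nx g) (Nx g) k[X]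
  /-- the frame -/
  U : Matrix (Fin g) (Nx g) k[X]
  /-- the vector -/
  w : Nx g → k[X]

/-- `Δ = ∏ (X - a j)` -/
noncomputable def Dat.Δ {g : ℕ} {k : Type*} [Field k] (D : Dat g k) : k[X] :=
  ∏ j, (X - C (D.a j))

/-- The properties of the system (`p` is the characteristic, `c` a bound which only depends on `g`). -/
structure Dat.Ok {g : ℕ} {k : Type*} [Field k] (D : Dat g k) (p c : ℕ) : Prop where
  /-- the singular points are different -/
  inj : Function.Injective D.a
  /-- the coefficients have bounded degree -/
  degG : ∀ i j, (D.G i j).natDegree ≤ c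
  /-- the system is symplectic -/
  symp : D.G * JJ g k[X] + JJ g k[X] * D.Gᵀ = 0
  /-- the residues are nilpotent -/
  nil : ∀ j, (D.G.map (eval (D.a j))) * (D.G.map (eval (D.a j))) = 0
  /-- the rows of `U` are horizontal -/
  horU : ∀ i l, D.Δ * derivative (D.U i l) = (D.U * D.G) i l
  /-- `U` is isotropic -/
  isoU : D.U * JJ g k[X] * D.Uᵀ = 0
  /-- the rows of `U` are linearly independent at every point which is not singular -/
  rkU : ∀ α : k, D.Δ.eval α ≠ 0 → LinearIndependent k fun i l => (D.U i l).eval α
  /-- `w` is horizontal -/
  horw : ∀ l, D.Δ * derivative (D.w l) = (D.w ᵥ* D.G) l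
  /-- the degree of `w` -/
  degw : ∀ l, 2 * (D.w l).natDegree ≤ (2 * g - 1) * p + c
  /-- at a singular point the endomorphism `u ↦ ⟨u, w⟩ w` is a multiple of the residue -/
  resw : ∀ j, ∃ s : k, ∀ l l', ((JJ g k) *ᵥ fun n => (D.w n).eval (D.a j)) l * (D.w l').eval (D.a j) =
    s * (D.G l l').eval (D.a j)
  /-- the coordinates of `w` are linearly independent over the polynomials of small degree -/
  irr : ∀ b : Nx g → k[X], ∑ l, D.w l * b l = 0 → (∀ l, 2 * (b l).natDegree + c < p) → b = 0

end MPadcOA
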