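import Mathlib

/-! LEAF NP1: adapted bases -/

set_option autoImplicit false

namespace MPadcOA

open Matrix

/-- Proof. The quotient `(N → A) ⧸ W` is finitely generated and torsion free (`hs`), hence free (`Module.free_of_finite_type_torsion_free'` or
`Module.Free` for torsion free modules over a principal ideal ring), with a finite basis, and `W` is free with a finite basis
(`Submodule.basisOfPid` / `Module.Free` of a submodule of a free module over a PID). The quotient map has a section (the quotient is projective: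
`Module.projective_lifting_property`), so `N → A` is the direct sum of `W` and the image of the section: the basis of `W` (`Fin r`) and the images of
the basis of the quotient (`Fin s`) form a basis `b` of `N → A` indexed by `Fin r ⊕ Fin s` (`Basis.prod` transported by the linear equivalence, or
`Module.Basis.sumQuot`/`Basis.mk`). Let `P` be the matrix whose column `j` is `b j` and `Q` the matrix with
`Q *ᵥ x = b.repr x` (`Basis.toMatrix` with `Pi.basisFun`; `Basis.toMatrix_mul_toMatrix_flip`). Then `x ∈ W` iff the coordinates of `x` at the `Sum.inr j`, which are the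
coordinates of its class in the quotient, vanish. -/
theorem adapted {A : Type} [CommRing A] [IsDomain A] [IsPrincipalIdealRing A] {N : Type} [Fintype N] [DecidableEq N]
    (W : Submodule A (N → A)) (hs : ∀ d : A, d ≠ 0 → ∀ x : N → A, d • x ∈ W → x ∈ W) :
    ∃ (r s : ℕ) (P : Matrix N (Fin r ⊕ Fin s) A) (Q : Matrix (Fin r ⊕ Fin s) N A), Q * P = 1 ∧ P * Q = 1 ∧
      ∀ x : N → A, x ∈ W ↔ ∀ j : Fin s, (Q *ᵥ x) (Sum.inr j) = 0 := by
  classical
  obtain ⟨r, bW⟩ := Submodule.basisOfPid (Pi.basisFun A N) W
  have htf : Module.IsTorsionFree A ((N → A) ⧸ W) := by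
    refine Module.IsTorsionFree.of_smul_eq_zero fun d m h => ?_
    obtain ⟨x, rfl⟩ := W.mkQ_surjective m
    by_cases hd : d = 0
    · exact Or.inl hd
    · refine Or.inr ?_
      rw [← map_smul, Submodule.mkQ_apply, Submodule.Quotient.mk_eq_zero] at h
      rw [Submodule.mkQ_apply, Submodule.Quotient.mk_eq_zero]
      exact hs d hd x h
  obtain ⟨s, bQ⟩ : Σ n : ℕ, Module.Basis (Fin n) A ((N → A) ⧸ W) := Module.basisOfFiniteTypeTorsionFree'
  obtain ⟨b, hb⟩ : ∃ b : Module.Basis (Fin r ⊕ Fin s) A (N → A), b = Module.Basis.sumQuot bW bQ := ⟨_, rfl⟩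
  refine ⟨r, s, (Pi.basisFun A N).toMatrix b, b.toMatrix (Pi.basisFun A N),
    Module.Basis.toMatrix_mul_toMatrix_flip _ _, Module.Basis.toMatrix_mul_toMatrix_flip _ _, fun x => ?_⟩
  have h1 : ∀ j, (b.toMatrix (Pi.basisFun A N) *ᵥ x) j = b.repr x j := by
    intro j
    have h2 := congrFun (Module.Basis.toMatrix_mulVec_repr (Pi.basisFun A N) b x) j
    rw [← h2]
    rfl
  have h3 : ∀ j : Fin s, (b.toMatrix (Pi.basisFun A N) *ᵥ x) (Sum.inr j) = bQ.repr (W.mkQ x) j := by
    intro j
    rw [h1, hb, Module.Basis.sumQuot_repr_inr]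
  constructor
  · intro hx j
    rw [h3]
    have h4 : W.mkQ x = 0 := by
      rw [Submodule.mkQ_apply, Submodule.Quotient.mk_eq_zero]
      exact hx
    rw [h4, map_zero]
    rfl
  · intro h
    have h4 : bQ.repr (W.mkQ x) = 0 := by
      ext j
      rw [← h3, h j]
      rfl
    rw [LinearEquiv.map_eq_zero_iff, Submodule.mkQ_apply, Submodule.Quotient.mk_eq_zero] at h4
    exact h4

end MPadcOA
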