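import Pool.Agent.Lib.MP_adc574_ag_OA.N_U4

/-! LEAF NU5: `LL k (X)` is algebraically closed in `OO k`; characteristic zero -/

set_option autoImplicit false

namespace MPadcOA

open Polynomial Matrix MPadcGM

variable {k : ℕ → Type} [∀ n, Field (k n)]

/-- (the rational root theorem) Proof. `num_dvd_of_is_root`, `den_dvd_of_is_root` of Mathlib for `A = K[X]`, `K(X) = RatFunc K`: if `x` is a root of
`P = ∑ P_i Y^i` with coefficients in `K[X]`, `P_0 ≠ 0`, of degree `≤ d` in `X`, then `x = a / b` with `b ∣` the leading coefficient and `a ∣ P_0`. -/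
theorem rat_root {K : Type} [Field K] (P : K[X][X]) (h0 : P.coeff 0 ≠ 0) (d : ℕ) (hd : ∀ i, (P.coeff i).natDegree ≤ d)
    (x : RatFunc K) (hx : P.eval₂ (algebraMap K[X] (RatFunc K)) x = 0) :
    ∃ a b : K[X], a.natDegree ≤ d ∧ b.natDegree ≤ d ∧ b ≠ 0 ∧ x * algebraMap K[X] (RatFunc K) b = algebraMap K[X] (RatFunc K) a := by
  have hP : P ≠ 0 := fun h => h0 (by rw [h, coeff_zero])
  have hr : aeval x P = 0 := hx
  refine ⟨IsFractionRing.num K[X] x, (IsFractionRing.den K[X] x : K[X]), ?_, ?_, ?_, ?_⟩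
  · exact (natDegree_le_of_dvd (num_dvd_of_is_root hr) h0).trans (hd 0)
  · exact (natDegree_le_of_dvd (den_dvd_of_is_root hr) (leadingCoeff_ne_zero.2 hP)).trans
      (hd P.natDegree)
  · exact nonZeroDivisors.ne_zero (IsFractionRing.den K[X] x).2
  · have h1 := IsFractionRing.mk'_num_den' K[X] x
    have h2 : algebraMap K[X] (RatFunc K) (IsFractionRing.den K[X] x : K[X]) ≠ 0 := by
      intro h3
      exact nonZeroDivisors.ne_zero (IsFractionRing.den K[X] x).2
        ((map_eq_zero_iff _ (IsFractionRing.injective K[X] (RatFunc K))).1 h3)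
    exact ((div_eq_iff h2).1 h1).symm

private theorem NU5_clO_eval (Q : (LL k)[X][X]) (y : ∀ n, RatFunc (k n)) :
    Q.eval₂ (th k) (clO y) = clO fun n => (∑ i ∈ Finset.range (Q.natDegree + 1),
      C (rp (Q.coeff i) n) * X ^ i : (k n)[X][X]).eval₂ (algebraMap (k n)[X] (RatFunc (k n))) (y n) := by
  have h1 : (fun n => (∑ i ∈ Finset.range (Q.natDegree + 1),
      C (rp (Q.coeff i) n) * X ^ i : (k n)[X][X]).eval₂ (algebraMap (k n)[X] (RatFunc (k n))) (y n)) =
      ∑ i ∈ Finset.range (Q.natDegree + 1),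
        (fun n => algebraMap (k n)[X] (RatFunc (k n)) (rp (Q.coeff i) n)) * y ^ i := by
    funext n
    rw [eval₂_finsetSum, Finset.sum_apply]
    refine Finset.sum_congr rfl fun i _ => ?_
    rw [eval₂_mul, eval₂_C, eval₂_X_pow]
    rfl
  rw [h1, eval₂_eq_sum_range]
  unfold clO
  rw [map_sum]
  refine Finset.sum_congr rfl fun i _ => ?_
  rw [map_mul, map_pow, th_eq]
  rfl

private theorem NU5_pos (Q : (LL k)[X][X]) (x : OO k) (hx : x ≠ 0) (hQ : Q ≠ 0)
    (h : Q.eval₂ (th k) x = 0) : ∃ R : (LL k)[X][X], R.coeff 0 ≠ 0 ∧ R.eval₂ (th k) x = 0 := by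
  obtain ⟨R, h1, h2⟩ := exists_eq_pow_rootMultiplicity_mul_and_not_dvd Q hQ 0
  rw [C_0, sub_zero] at h1 h2
  refine ⟨R, fun h3 => h2 (X_dvd_iff.2 h3), ?_⟩
  rw [h1, eval₂_mul, eval₂_X_pow] at h
  exact (mul_eq_zero.1 h).resolve_left (pow_ne_zero _ hx)

/-- Proof. If `x = 0` there is nothing to do. Let `P ≠ 0` over `KK k` with `P(x) = 0`, `x ≠ 0`; clear denominators (`IsLocalization.integerNormalization` or multiply by a common
denominator) and divide by a power of the variable, so `P` has coefficients in `(LL k)[X]`, `P.coeff 0 ≠ 0`. `x = clO y` (`ultMk_surjective`). Eventually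
`P_n := ∑ i ∈ range (deg + 1), C (rp (P.coeff i) n) * X ^ i` has the root `y n` (`th_eq`, `clO_eq`) and `P_n.coeff 0 ≠ 0` (`rp_ne_zero`), degrees bounded by `d = max` of the degrees: `rat_root`
gives `a n`, `b n ≠ 0` of degree `≤ d` with `y n * b n = a n`. `exists_rp`: `a', b'` in `(LL k)[X]` with `rp a' n = a n`, `rp b' n = b n` eventually, `b' ≠ 0`, and
`x * th b' = th a'`: `x` is the image of `a' / b'` (`algK`). -/
theorem alg_closed (x : OO k) (hx : IsAlgebraic (KK k) x) : x ∈ (algebraMap (KK k) (OO k)).range := by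
  by_cases hx0 : x = 0
  · rw [hx0]
    exact zero_mem _
  -- a polynomial with integral coefficients
  have hint : ∃ Q : (LL k)[X][X], Q ≠ 0 ∧ Q.eval₂ (th k) x = 0 := by
    let _ : Algebra (LL k)[X] (OO k) := (th k).toAlgebra
    have : IsScalarTower (LL k)[X] (KK k) (OO k) :=
      IsScalarTower.of_algebraMap_eq fun P => (algK P).symm
    obtain ⟨Q, h1, h2⟩ := (IsFractionRing.isAlgebraic_iff (LL k)[X] (KK k) (OO k)).2 hx
    exact ⟨Q, h1, h2⟩
  obtain ⟨Q₀, hQ₀, hQ₀x⟩ := hint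
  obtain ⟨Q, hQ0, hQx⟩ := NU5_pos Q₀ x hx0 hQ₀ hQ₀x
  obtain ⟨y, hy⟩ := ultMk_surjective (Filter.hyperfilter ℕ) (fun n => RatFunc (k n)) x
  have hy' : clO y = x := hy
  subst hy'
  rw [NU5_clO_eval] at hQx
  have h0 : (0 : OO k) = clO fun _ => 0 := (map_zero (ultMk _ _)).symm
  rw [h0, clO_eq] at hQx
  obtain ⟨d, hd⟩ : ∃ d : ℕ, ∀ i, (Q.coeff i).natDegree ≤ d := by
    refine ⟨∑ i ∈ Finset.range (Q.natDegree + 1), (Q.coeff i).natDegree, fun i => ?_⟩
    by_cases hi : i ∈ Finset.range (Q.natDegree + 1)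
    · exact Finset.single_le_sum (f := fun i => (Q.coeff i).natDegree)
        (fun _ _ => Nat.zero_le _) hi
    · rw [Finset.mem_range, not_lt] at hi
      rw [coeff_eq_zero_of_natDegree_lt (by omega), natDegree_zero]
      exact Nat.zero_le _
  have hco : ∀ n i, (∑ i ∈ Finset.range (Q.natDegree + 1),
      C (rp (Q.coeff i) n) * X ^ i : (k n)[X][X]).coeff i =
      if i ∈ Finset.range (Q.natDegree + 1) then rp (Q.coeff i) n else 0 := by
    intro n i
    rw [finsetSum_coeff]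
    simp only [coeff_C_mul_X_pow]
    rw [Finset.sum_ite_eq]
  have hex : ∀ n, ∃ a b : (k n)[X], a.natDegree ≤ d ∧ b.natDegree ≤ d ∧
      ((∑ i ∈ Finset.range (Q.natDegree + 1), C (rp (Q.coeff i) n) * X ^ i :
        (k n)[X][X]).eval₂ (algebraMap (k n)[X] (RatFunc (k n))) (y n) = 0 → rp (Q.coeff 0) n ≠ 0 →
        b ≠ 0 ∧ y n * algebraMap (k n)[X] (RatFunc (k n)) b =
          algebraMap (k n)[X] (RatFunc (k n)) a) := by
    intro n
    by_cases h1 : (∑ i ∈ Finset.range (Q.natDegree + 1), C (rp (Q.coeff i) n) * X ^ i :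
        (k n)[X][X]).eval₂ (algebraMap (k n)[X] (RatFunc (k n))) (y n) = 0 ∧ rp (Q.coeff 0) n ≠ 0
    · obtain ⟨a, b, h2, h3, h4, h5⟩ := rat_root _ (by
        rw [hco, if_pos (Finset.mem_range.2 (Nat.succ_pos _))]
        exact h1.2) d (fun i => by
          rw [hco]
          split_ifs
          · exact (rp_natDegree _ _).trans (hd i)
          · rw [natDegree_zero]
            exact Nat.zero_le _) (y n) h1.1
      exact ⟨a, b, h2, h3, fun _ _ => ⟨h4, h5⟩⟩
    · exact ⟨0, 0, by rw [natDegree_zero]; exact Nat.zero_le _,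
        by rw [natDegree_zero]; exact Nat.zero_le _, fun h2 h3 => absurd ⟨h2, h3⟩ h1⟩
  choose a b ha hb hab using hex
  obtain ⟨A, -, hA⟩ := exists_rp a d (Filter.Eventually.of_forall ha)
  obtain ⟨B, -, hB⟩ := exists_rp b d (Filter.Eventually.of_forall hb)
  have hgood : ∀ᶠ n in HF, b n ≠ 0 ∧ y n * algebraMap (k n)[X] (RatFunc (k n)) (b n) =
      algebraMap (k n)[X] (RatFunc (k n)) (a n) := by
    filter_upwards [hQx, rp_ne_zero hQ0] with n h1 h2
    exact hab n h1 h2
  have hB0 : B ≠ 0 := by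
    rintro rfl
    obtain ⟨n, ⟨h1, h2⟩, h3⟩ := ((hgood.and hB).and (rp_zero (k := k))).exists
    exact h1.1 (h2.symm.trans h3)
  have hthB : th k B ≠ 0 := fun h => hB0 (th_inj k (by rw [h, map_zero]))
  have hxB : clO y * th k B = th k A := by
    rw [th_eq, th_eq]
    have h1 : clO y * (clO fun n => algebraMap (k n)[X] (RatFunc (k n)) (rp B n)) =
        clO (fun n => y n * algebraMap (k n)[X] (RatFunc (k n)) (rp B n)) := by
      unfold clO
      rw [← map_mul]
      rfl
    rw [h1, clO_eq]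
    filter_upwards [hgood, hA, hB] with n h2 h3 h4
    rw [h3, h4]
    exact h2.2
  refine ⟨algebraMap (LL k)[X] (KK k) A / algebraMap (LL k)[X] (KK k) B, ?_⟩
  rw [map_div₀, algK, algK]
  exact (div_eq_iff hthB).2 hxB.symm

/-- Proof. If `(q : LL k) = 0` for a natural number `q ≠ 0` then eventually `(q : k n) = 0`, so `p n ∣ q`, `p n ≤ q`; but `n ≤ p n` and eventually `n > q`
(`Filter.hyperfilter_le_cofinite`, `Filter.eventually_cofinite`). -/
theorem charZero_LL (p : ℕ → ℕ) [∀ n, CharP (k n) (p n)] (hp : ∀ n, n ≤ p n) : CharZero (LL k) := by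
  refine charZero_of_inj_zero fun q hq => ?_
  by_contra hq0
  have h1 : ((q : ℕ) : LL k) = ultMk (Filter.hyperfilter ℕ) k ((q : ℕ) : ∀ n, k n) :=
    (map_natCast _ q).symm
  rw [h1, ultMk_eq_zero] at hq
  have h2 : ∀ᶠ n in (Filter.hyperfilter ℕ : Filter ℕ), q < n := by
    have h3 : ∀ᶠ n in (Filter.cofinite : Filter ℕ), q < n := by
      rw [Nat.cofinite_eq_atTop]
      exact Filter.eventually_gt_atTop q
    exact Filter.hyperfilter_le_cofinite h3
  obtain ⟨n, h3, h4⟩ := (hq.and h2).exists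
  have h5 : ((q : ℕ) : k n) = 0 := h3
  rw [CharP.cast_eq_zero_iff (k n) (p n)] at h5
  have h6 := Nat.le_of_dvd (Nat.pos_of_ne_zero hq0) h5
  have h7 := hp n
  omega

/-- Eventually `p n` is larger than any bound. -/
theorem ev_large (p : ℕ → ℕ) (hp : ∀ n, n ≤ p n) (b : ℕ) : ∀ᶠ n in HF, b < p n := by
  have h3 : ∀ᶠ n in (Filter.cofinite : Filter ℕ), b < p n := by
    rw [Nat.cofinite_eq_atTop]
    filter_upwards [Filter.eventually_gt_atTop b] with n hn
    exact lt_of_lt_of_le hn (hp n)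
  exact Filter.hyperfilter_le_cofinite h3

end MPadcOA
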