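import Pool.Agent.Lib.MP_adc574_ag_OA.N_T2

/-! LEAF NV1: frames with independent rows -/

set_option autoImplicit false

namespace MPadcOA

open Polynomial Matrix

/-- (rows independent = there is a right inverse) Proof. `Matrix.rank`/`LinearMap`: the map `x ↦ x ᵥ* U` is injective, so it has a left inverse
(`LinearMap.exists_leftInverse_of_injective`), whose matrix is `V`. Conversely `x ᵥ* U = 0` gives `x = x ᵥ* (U * V) = 0` (`Matrix.linearIndependent_rows_iff..` or
`Fintype.linearIndependent_iff`). -/
theorem li_iff_inv {F : Type} [Field F] {g : ℕ} (U : Matrix (Fin g) (Nx g) F) :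
    (LinearIndependent F fun i => U i) ↔ ∃ V : Matrix (Nx g) (Fin g) F, U * V = 1 := by
  classical
  constructor
  · intro h
    have hinj : Function.Injective (Matrix.vecMulLinear U) := by
      rw [injective_iff_map_eq_zero]
      intro c hc
      funext i
      refine Fintype.linearIndependent_iff.mp h c ?_ i
      rw [Matrix.vecMulLinear_apply, Matrix.vecMul_eq_sum] at hc
      exact hc
    obtain ⟨G, hG⟩ := LinearMap.exists_leftInverse_of_injective (Matrix.vecMulLinear U) (LinearMap.ker_eq_bot.mpr hinj)
    refine ⟨fun l i => G (Pi.single l 1) i, ?_⟩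
    ext i j
    have h1 : G (U i) = Pi.single i 1 := by
      have h2 := LinearMap.congr_fun hG (Pi.single i (1 : F))
      rw [LinearMap.comp_apply, Matrix.vecMulLinear_apply, Matrix.single_one_vecMul, LinearMap.id_apply] at h2
      exact h2
    have h3 : U i = ∑ l, U i l • (Pi.single l (1 : F) : Nx g → F) := by
      funext l
      rw [Finset.sum_apply, Finset.sum_eq_single l]
      · rw [Pi.smul_apply, Pi.single_eq_same, smul_eq_mul, mul_one]
      · intro l' _ hl'
        rw [Pi.smul_apply, Pi.single_eq_of_ne (Ne.symm hl'), smul_zero]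
      · intro hl
        exact absurd (Finset.mem_univ l) hl
    rw [Matrix.mul_apply, Matrix.one_apply]
    have h4 : ∑ l, U i l * G (Pi.single l 1) j = G (U i) j := by
      conv_rhs => rw [h3]
      rw [map_sum, Finset.sum_apply]
      refine Finset.sum_congr rfl fun l _ => ?_
      rw [map_smul, Pi.smul_apply, smul_eq_mul]
    rw [h4, h1, Pi.single_apply]
    simp only [eq_comm]
  · rintro ⟨V, hV⟩
    rw [Fintype.linearIndependent_iff]
    intro c hc i
    have h1 : c ᵥ* U = 0 := by
      rw [Matrix.vecMul_eq_sum]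
      exact hc
    have h2 : c = 0 := by
      rw [← Matrix.vecMul_one c, ← hV, ← Matrix.vecMul_vecMul, h1, Matrix.zero_vecMul]
    rw [h2, Pi.zero_apply]

/-- Proof. `li_iff_inv`: `U(α) * V = 1`; the determinant of `U * V.map C` has the value `1` at `α`, so it is not zero in `RatFunc k`, and
`(U.map _) * (V.map _)` is invertible over `RatFunc k`, so `U.map _` has a right inverse. -/
theorem li_of_eval {k : Type} [Field k] {g : ℕ} (U : Matrix (Fin g) (Nx g) k[X]) (α : k)
    (h : LinearIndependent k fun i l => (U i l).eval α) :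
    LinearIndependent (RatFunc k) fun i => (U.map (algebraMap k[X] (RatFunc k))) i := by
  classical
  obtain ⟨V, hV⟩ := (li_iff_inv (Matrix.of fun i l => (U i l).eval α)).mp h
  have hd : (U * V.map (C : k →+* k[X])).det ≠ 0 := by
    intro h0
    have h1 : ((U * V.map (C : k →+* k[X])).map (evalRingHom α)).det = 0 := by
      rw [← RingHom.mapMatrix_apply, ← RingHom.map_det, h0, map_zero]
    have h2 : (U * V.map (C : k →+* k[X])).map (evalRingHom α) = 1 := by
      rw [Matrix.map_mul, Matrix.map_map, ← hV]
      congr 1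
      ext l i
      simp
    rw [h2, Matrix.det_one] at h1
    exact one_ne_zero h1
  rw [li_iff_inv]
  have hd2 : ((U * V.map (C : k →+* k[X])).map (algebraMap k[X] (RatFunc k))).det ≠ 0 := by
    rw [← RingHom.mapMatrix_apply, ← RingHom.map_det]
    intro h0
    exact hd ((map_eq_zero_iff _ (IsFractionRing.injective k[X] (RatFunc k))).mp h0)
  refine ⟨(V.map (C : k →+* k[X])).map (algebraMap k[X] (RatFunc k)) *
    ((U * V.map (C : k →+* k[X])).map (algebraMap k[X] (RatFunc k)))⁻¹, ?_⟩
  rw [← Matrix.mul_assoc, ← Matrix.map_mul]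
  exact Matrix.mul_nonsing_inv _ (isUnit_iff_ne_zero.mpr hd2)

private theorem NV1_JJ {R S : Type} [CommRing R] [CommRing S] (f : R →+* S) (g : ℕ) : (JJ g R).map f = JJ g S := by
  rw [JJ, JJ, Matrix.fromBlocks_map, Matrix.map_zero _ (map_zero f), Matrix.map_one _ (map_zero f) (map_one f)]
  congr 1
  ext i j
  simp [Matrix.one_apply, apply_ite f]

/-- Proof. `ev_of_van` over `RatFunc k` with `f = algebraMap k[X] (RatFunc k)`, `li_of_eval`, `ev_map` and injectivity. -/
theorem ev_van_U {k : Type} [Field k] {g m : ℕ} (U : Matrix (Fin g) (Nx g) k[X]) (hi : U * JJ g k[X] * Uᵀ = 0) (α : k)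
    (h : LinearIndependent k fun i l => (U i l).eval α) {ψ : Kx g m → k[X]} (hψ : Van ψ) : ev U ψ = 0 := by
  have hiso : U.map (algebraMap k[X] (RatFunc k)) * JJ g (RatFunc k) * (U.map (algebraMap k[X] (RatFunc k)))ᵀ = 0 := by
    rw [← NV1_JJ (algebraMap k[X] (RatFunc k)) g, ← Matrix.transpose_map, ← Matrix.map_mul, ← Matrix.map_mul, hi,
      Matrix.map_zero _ (map_zero _)]
  have h1 := ev_of_van (algebraMap k[X] (RatFunc k)) hψ (U.map (algebraMap k[X] (RatFunc k))) hiso (li_of_eval U α h)
  rw [← ev_map] at h1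
  exact (map_eq_zero_iff _ (IsFractionRing.injective k[X] (RatFunc k))).mp h1

end MPadcOA
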