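import Pool.Agent.Lib.MP_adc574_ag_OA.N_K3
import Pool.Agent.Lib.MP_adc574_ag_OA.N_U5
import Pool.Agent.Lib.MP_adc574_ag_OA.N_V1

/-! LEAF NV4: the frame over the ultraproduct -/

set_option autoImplicit false

namespace MPadcOA

open Polynomial Matrix MPadcGM

variable {k : ℕ → Type} [∀ n, Field (k n)]

/-- The frame `U(α)` over the ultraproduct. -/
noncomputable def Ua {g : ℕ} (D : ∀ n, Dat g (k n)) (α : ∀ n, k n) : Matrix (Fin g) (Nx g) (LL k) :=
  fun i l => cl fun n => ((D n).U i l).eval (α n)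

/-- the frame over the product ring -/
private noncomputable def NV4_U {g : ℕ} (D : ∀ n, Dat g (k n)) (α : ∀ n, k n) : Matrix (Fin g) (Nx g) (∀ n, k n) :=
  fun i l n => ((D n).U i l).eval (α n)

private theorem NV4_JJ {R S : Type*} [CommRing R] [CommRing S] (g : ℕ) (f : R →+* S) : (JJ g R).map f = JJ g S := by
  unfold JJ
  rw [Matrix.fromBlocks_map]
  congr 1
  · exact Matrix.map_zero _ (map_zero f)
  · exact Matrix.map_one _ (map_zero f) (map_one f)
  · ext i j
    simp only [Matrix.map_apply, Matrix.neg_apply, map_neg]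
    rw [Matrix.one_apply, Matrix.one_apply]
    split_ifs
    · rw [map_one]
    · rw [map_zero]
  · exact Matrix.map_zero _ (map_zero f)

private theorem NV4_ua {g : ℕ} (D : ∀ n, Dat g (k n)) (α : ∀ n, k n) :
    (NV4_U D α).map (ultMk (Filter.hyperfilter ℕ) k) = Ua D α := rfl

private theorem NV4_un {g : ℕ} (D : ∀ n, Dat g (k n)) (α : ∀ n, k n) (n : ℕ) :
    (NV4_U D α).map (Pi.evalRingHom k n) = (D n).U.map (evalRingHom (α n)) := rfl

/-- Proof. Eventually `1 ≤ p n - e` (`ev_large`), so `ev (D n).U (..)` vanishes at `α n` (`dvd_iff_isRoot`, `dvd_trans (dvd_pow_self ..)`). `ev_map` with `evalRingHom (α n)`; then `ev_map` for the ring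
homomorphism `ultMk` (whose value is `cl`) from `∀ n, k n` (`ev` over the product ring is computed at every place: `ev_map` for `Pi.evalRingHom`), and `rp_eval`. -/
theorem ev_Ua {g m c : ℕ} (p : ℕ → ℕ) (hp : ∀ n, n ≤ p n) (D : ∀ n, Dat g (k n)) (hD : ∀ n, (D n).Ok (p n) c) (α : ∀ n, k n)
    (ξ : Kx g m → (LL k)[X]) (h : ∃ e : ℕ, ∀ᶠ n in HF, (X - C (α n)) ^ (p n - e) ∣ ev (D n).U (fun s => rp (ξ s) n)) :
    ev (Ua D α) (fun s => (ξ s).eval (cl α)) = 0 := by
  obtain ⟨e, he⟩ := h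
  have h1 : (fun s => (ξ s).eval (cl α)) = fun s =>
      ultMk (Filter.hyperfilter ℕ) k (fun n => (rp (ξ s) n).eval (α n)) := by
    funext s
    exact (rp_eval (ξ s) α).symm
  rw [h1, ← NV4_ua, ← ev_map (ultMk (Filter.hyperfilter ℕ) k) (NV4_U D α)
    (fun s => fun n => (rp (ξ s) n).eval (α n)), ultMk_eq_zero]
  filter_upwards [he, ev_large p hp e] with n hn hn'
  have h2 := ev_map (Pi.evalRingHom k n) (NV4_U D α) (fun s : Kx g m => fun n => (rp (ξ s) n).eval (α n))
  rw [NV4_un] at h2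
  have h3 := ev_map (evalRingHom (α n)) (D n).U (fun s => rp (ξ s) n)
  refine (h2.trans h3.symm).trans ?_
  have h4 : (X - C (α n)) ∣ ev (D n).U (fun s => rp (ξ s) n) :=
    (dvd_pow_self _ (by omega)).trans hn
  exact dvd_iff_isRoot.1 h4

/-- Proof. The entry `i, j` of the left side is `cl` of the family of the values at `α n` of the entries of `(D n).U * JJ * (D n).Uᵀ` (finite sums and products). -/
theorem iso_Ua {g c : ℕ} (p : ℕ → ℕ) (D : ∀ n, Dat g (k n)) (hD : ∀ n, (D n).Ok (p n) c) (α : ∀ n, k n) :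
    Ua D α * JJ g (LL k) * (Ua D α)ᵀ = 0 := by
  have h0 : NV4_U D α * JJ g (∀ n, k n) * (NV4_U D α)ᵀ = 0 := by
    ext i j n
    have h1 : ((NV4_U D α * JJ g (∀ n, k n) * (NV4_U D α)ᵀ).map (Pi.evalRingHom k n)) = 0 := by
      rw [Matrix.map_mul, Matrix.map_mul, NV4_JJ, Matrix.transpose_map, NV4_un, ← Matrix.transpose_map,
        ← NV4_JJ g (evalRingHom (α n)), ← Matrix.map_mul, ← Matrix.map_mul, (hD n).isoU]
      exact Matrix.map_zero _ (map_zero _)
    exact congrFun (congrFun h1 i) j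
  have h2 := congrArg (fun M => Matrix.map M (ultMk (Filter.hyperfilter ℕ) k)) h0
  beta_reduce at h2
  rw [Matrix.map_mul, Matrix.map_mul, NV4_JJ, Matrix.transpose_map, NV4_ua] at h2
  exact h2.trans (Matrix.map_zero _ (map_zero _))

/-- Proof. `li_iff_inv`: choose `V n` with `U_n(α n) * V n = 1`; then `Ua D α * (fun l i => cl (fun n => V n l i)) = 1`. -/
theorem li_Ua {g c : ℕ} (p : ℕ → ℕ) (D : ∀ n, Dat g (k n)) (hD : ∀ n, (D n).Ok (p n) c) (α : ∀ n, k n)
    (hα : ∀ n, (D n).Δ.eval (α n) ≠ 0) : LinearIndependent (LL k) fun i => Ua D α i := by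
  have h1 : ∀ n, ∃ V : Matrix (Nx g) (Fin g) (k n), (D n).U.map (evalRingHom (α n)) * V = 1 := fun n =>
    (li_iff_inv _).1 ((hD n).rkU (α n) (hα n))
  choose V hV using h1
  refine (li_iff_inv _).2 ⟨fun l i => cl fun n => V n l i, ?_⟩
  obtain ⟨W, hW⟩ : ∃ W : Matrix (Nx g) (Fin g) (∀ n, k n), W = fun l i n => V n l i := ⟨_, rfl⟩
  have h0 : NV4_U D α * W = 1 := by
    ext i j n
    have h2 : ((NV4_U D α * W).map (Pi.evalRingHom k n)) = (1 : Matrix (Fin g) (Fin g) (∀ n, k n)).map (Pi.evalRingHom k n) := by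
      rw [Matrix.map_mul, NV4_un, hW]
      refine (hV n).trans ?_
      exact (Matrix.map_one _ (map_zero _) (map_one _)).symm
    exact congrFun (congrFun h2 i) j
  have h2 := congrArg (fun M => Matrix.map M (ultMk (Filter.hyperfilter ℕ) k)) h0
  beta_reduce at h2
  rw [Matrix.map_mul, NV4_ua, hW] at h2
  exact h2.trans (Matrix.map_one _ (map_zero _) (map_one _))

end MPadcOA
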