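import Pool.Agent.Lib.MP_adc574_ag_OA.N_K3

/-! LEAF NT3: a form which vanishes at the frames `(a | a y)` -/

set_option autoImplicit false

namespace MPadcOA

open Matrix

/-- Proof. Let `Q := (genA g F).det * ev (genU g F) (C ∘ φ)` in `MvPolynomial _ F`. For every point `ξ : (Fin g × Fin g) ⊕ Sym2 (Fin g) → F` put
`a i j = ξ (inl (i, j))`, `y i j = ξ (inr s(i, j))` (symmetric); evaluation at `ξ` (`MvPolynomial.eval`) maps `genA` to `a` and `genU` to `(a | a y)`, so `Q` has the value
`det a * ev (a | a y) φ = 0` (if `det a ≠ 0` by `h`). So `Q = 0` (`MvPolynomial.funext`, `F` infinite); `det (genA g F) ≠ 0` (its value at `a = 1` is `1`), and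
`MvPolynomial _ F` is a domain. (`ev_map` for the evaluation.) -/
theorem van_of_eval {F : Type} [Field F] [Infinite F] {g m : ℕ} (φ : Kx g m → F)
    (h : ∀ a y : Matrix (Fin g) (Fin g) F, a.det ≠ 0 → yᵀ = y → ev (Matrix.fromCols a (a * y)) φ = 0) : Van φ := by
  classical
  have hQ : (genA g F).det * ev (genU g F) (fun s => MvPolynomial.C (φ s)) = 0 := by
    refine MvPolynomial.funext fun ξ => ?_
    rw [map_mul, map_zero]
    obtain ⟨a, ha⟩ : ∃ a : Matrix (Fin g) (Fin g) F, a = fun i j => ξ (Sum.inl (i, j)) := ⟨_, rfl⟩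
    obtain ⟨y, hy⟩ : ∃ y : Matrix (Fin g) (Fin g) F, y = fun i j => ξ (Sum.inr s(i, j)) := ⟨_, rfl⟩
    have hA : (genA g F).map (MvPolynomial.eval ξ) = a := by
      ext i j
      rw [Matrix.map_apply, ha]
      exact MvPolynomial.eval_X _
    have hY : (genY g F).map (MvPolynomial.eval ξ) = y := by
      ext i j
      rw [Matrix.map_apply, hy]
      exact MvPolynomial.eval_X _
    have hsym : yᵀ = y := by
      ext i j
      rw [Matrix.transpose_apply, hy]
      show ξ (Sum.inr s(j, i)) = ξ (Sum.inr s(i, j))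
      rw [Sym2.eq_swap]
    have hdet : MvPolynomial.eval ξ (genA g F).det = a.det := by
      rw [RingHom.map_det, RingHom.mapMatrix_apply, hA]
    have hU : (genU g F).map (MvPolynomial.eval ξ) = Matrix.fromCols a (a * y) := by
      ext i l
      rw [Matrix.map_apply]
      rcases l with j | j
      · rw [Matrix.fromCols_apply_inl, ← hA, Matrix.map_apply]
        rfl
      · rw [Matrix.fromCols_apply_inr, ← hA, ← hY, ← Matrix.map_mul, Matrix.map_apply]
        rfl
    have hev : MvPolynomial.eval ξ (ev (genU g F) (fun s => MvPolynomial.C (φ s))) =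
        ev (Matrix.fromCols a (a * y)) φ := by
      rw [ev_map, hU]
      refine congrArg _ (funext fun s => ?_)
      exact MvPolynomial.eval_C _
    by_cases hd : a.det = 0
    · rw [hdet, hd, zero_mul]
    · rw [hev, h a y hd hsym, mul_zero]
  rcases mul_eq_zero.mp hQ with h1 | h1
  · exfalso
    have h2 := congrArg (MvPolynomial.eval (Sum.elim (fun x : Fin g × Fin g => if x.1 = x.2 then (1 : F) else 0)
      fun _ : Sym2 (Fin g) => (0 : F))) h1
    rw [RingHom.map_det, RingHom.mapMatrix_apply, map_zero] at h2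
    have h3 : (genA g F).map (MvPolynomial.eval (Sum.elim (fun x : Fin g × Fin g => if x.1 = x.2 then (1 : F) else 0)
      fun _ : Sym2 (Fin g) => (0 : F))) = 1 := by
      ext i j
      rw [Matrix.map_apply, Matrix.one_apply]
      exact MvPolynomial.eval_X _
    rw [h3, Matrix.det_one] at h2
    exact one_ne_zero h2
  · exact h1

end MPadcOA
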