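import Pool.Agent.Lib.MP_adc574_ag_OA.N_K3

/-! LEAF NT5: the action of `1 + M` for `M² = 0` -/

set_option autoImplicit false

namespace MPadcOA

open Matrix Polynomial

private theorem NT5_V {F : Type} [Field F] {g : ℕ} (M : Matrix (Nx g) (Nx g) F)
    (U : Matrix (Fin g) (Nx g) F) :
    U.map C * (1 + (X : F[X]) • M.map C) = U.map C + (X : F[X]) • (U * M).map C := by
  rw [Matrix.mul_add, Matrix.mul_one, Matrix.mul_smul, ← Matrix.map_mul]

private theorem NT5_eval {F : Type} [Field F] {g : ℕ} (M : Matrix (Nx g) (Nx g) F)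
    (U : Matrix (Fin g) (Nx g) F) (a : F) :
    (U.map C * (1 + (X : F[X]) • M.map C)).map (evalRingHom a) = U + a • (U * M) := by
  rw [NT5_V]
  ext i j
  rw [Matrix.map_apply, Matrix.add_apply, Matrix.add_apply, Matrix.smul_apply, Matrix.smul_apply,
    Matrix.map_apply, Matrix.map_apply, map_add, smul_eq_mul, smul_eq_mul, map_mul, coe_evalRingHom,
    eval_C, eval_C, eval_X]

/-- Proof. Put `V := U.map C * (1 + X • M.map C)` over `F[X]`. As `M * M = 0`, the derivative of `V` (entrywise) is `U.map C * M.map C = V * M.map C`, so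
`ev_opD` with `Δ = 1`, `G = M.map C`, gives for a constant form: `derivative (ev V (C ∘ φ)) = ev V (C ∘ (KS M *ᵥ φ))` (`KS_map`, the derivative of a constant is zero). -/
theorem derivative_ev_exp {F : Type} [Field F] {g m : ℕ} (M : Matrix (Nx g) (Nx g) F) (hM : M * M = 0)
    (U : Matrix (Fin g) (Nx g) F) (φ : Kx g m → F) :
    derivative (ev (U.map C * (1 + (X : F[X]) • M.map C)) fun s => C (φ s)) =
      ev (U.map C * (1 + (X : F[X]) • M.map C)) fun s => C ((KS M *ᵥ φ) s) := by
  obtain ⟨V, hV⟩ : ∃ V : Matrix (Fin g) (Nx g) F[X], V = U.map C * (1 + (X : F[X]) • M.map C) := ⟨_, rfl⟩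
  rw [← hV]
  have hU : ∀ i l, (1 : F[X]) * derivative (V i l) = (V * M.map C) i l := by
    intro i l
    have h1 : V * M.map C = (U * M).map C := by
      have h2 : (U * M).map (C : F →+* F[X]) * M.map C = 0 := by
        rw [← Matrix.map_mul, Matrix.mul_assoc, hM, Matrix.mul_zero]
        exact Matrix.map_zero _ C_0
      rw [hV, NT5_V, Matrix.add_mul, Matrix.smul_mul, h2, smul_zero, add_zero, ← Matrix.map_mul]
    rw [h1, one_mul, hV, NT5_V, Matrix.add_apply, Matrix.smul_apply, Matrix.map_apply, Matrix.map_apply,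
      smul_eq_mul, derivative_add, derivative_C, zero_add, derivative_mul, derivative_X, one_mul,
      derivative_C, mul_zero, add_zero]
  have h2 := ev_opD (m := m) 1 (M.map C) V hU (fun s => C (φ s))
  rw [one_mul] at h2
  rw [h2]
  refine congrArg _ (funext fun s => ?_)
  unfold opD
  rw [derivative_C, mul_zero, zero_add, ← KS_map, RingHom.map_mulVec]
  rfl

/-- Proof. The polynomials `P φ := ev (U.map C * (1 + X • M.map C)) (C ∘ φ)`, `φ` in `W`, satisfy `derivative (P φ) = P (KS M *ᵥ φ)` and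
`(P φ).eval 0 = ev U φ = 0` (`ev_map` with `evalRingHom 0`), so all iterated derivatives of `P φ` vanish at `0`: all coefficients of `P φ` vanish
(`Polynomial.coeff_iterate_derivative`, characteristic zero), `P φ = 0`, and its value at `1` is `ev (U * (1 + M)) φ`. -/
theorem move {F : Type} [Field F] [CharZero F] {g m : ℕ} (W : Submodule F (Kx g m → F)) (M : Matrix (Nx g) (Nx g) F)
    (hM : M * M = 0) (hW : ∀ φ ∈ W, KS M *ᵥ φ ∈ W) (U : Matrix (Fin g) (Nx g) F) (h0 : ∀ φ ∈ W, ev U φ = 0) :
    ∀ φ ∈ W, ev (U * (1 + M)) φ = 0 := by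
  have hev : ∀ (a : F) (φ : Kx g m → F),
      (ev (U.map C * (1 + (X : F[X]) • M.map C)) fun s => C (φ s)).eval a = ev (U + a • (U * M)) φ := by
    intro a φ
    have h1 := ev_map (evalRingHom a) (U.map C * (1 + (X : F[X]) • M.map C)) (fun s => C (φ s))
    rw [NT5_eval] at h1
    rw [coe_evalRingHom] at h1
    rw [h1]
    refine congrArg _ (funext fun s => ?_)
    exact eval_C
  have hcoeff : ∀ (n : ℕ) (φ : Kx g m → F), φ ∈ W →
      (ev (U.map C * (1 + (X : F[X]) • M.map C)) fun s => C (φ s)).coeff n = 0 := by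
    intro n
    induction n with
    | zero =>
      intro φ hφ
      rw [coeff_zero_eq_eval_zero, hev, zero_smul, add_zero]
      exact h0 φ hφ
    | succ n ih =>
      intro φ hφ
      have h1 := ih _ (hW φ hφ)
      rw [← derivative_ev_exp M hM U φ, coeff_derivative] at h1
      refine (mul_eq_zero.1 h1).resolve_right ?_
      exact Nat.cast_add_one_ne_zero n
  intro φ hφ
  have hz : (ev (U.map C * (1 + (X : F[X]) • M.map C)) fun s => C (φ s)) = 0 :=
    Polynomial.ext fun n => by rw [hcoeff n φ hφ, coeff_zero]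
  have h3 := hev 1 φ
  rw [hz, eval_zero, one_smul] at h3
  rw [Matrix.mul_add, Matrix.mul_one]
  exact h3.symm

end MPadcOA
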