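import Pool.Agent.Lib.MP_adc574_ag_OA.N_T1
import Pool.Agent.Lib.MP_adc574_ag_OA.N_T3
import Pool.Agent.Lib.MP_adc574_ag_OA.N_T4
import Pool.Agent.Lib.MP_adc574_ag_OA.N_T5

/-! LEAF NT7: a space of forms which is stable under the symplectic Lie algebra and vanishes at one isotropic frame -/

set_option autoImplicit false

namespace MPadcOA

open Matrix Polynomial

section NT7
variable {F : Type} [Field F] {g m : ℕ}

/-- stability under the symplectic Lie algebra -/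
private theorem NT7_stab [CharZero F] (W : Submodule F (Kx g m → F))
    (hW : ∀ (u v : Nx g → F), ∀ φ ∈ W, KS (tr u v) *ᵥ φ ∈ W) (M : Matrix (Nx g) (Nx g) F)
    (hM : M * JJ g F + JJ g F * Mᵀ = 0) : ∀ φ ∈ W, KS M *ᵥ φ ∈ W := by
  have key : ∀ M ∈ Submodule.span F (Set.range fun uv : (Nx g → F) × (Nx g → F) => tr uv.1 uv.2),
      ∀ φ ∈ W, KS M *ᵥ φ ∈ W := by
    intro M h
    induction h using Submodule.span_induction with
    | mem x hx =>
      obtain ⟨uv, rfl⟩ := hx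
      exact hW uv.1 uv.2
    | zero =>
      intro φ _
      have h1 := KS_smul (g := g) (m := m) (0 : F) (0 : Matrix (Nx g) (Nx g) F)
      rw [zero_smul, zero_smul] at h1
      rw [h1, Matrix.zero_mulVec]
      exact W.zero_mem
    | add x y _ _ hx hy =>
      intro φ hφ
      rw [KS_add, Matrix.add_mulVec]
      exact W.add_mem (hx φ hφ) (hy φ hφ)
    | smul c x _ hx =>
      intro φ hφ
      rw [KS_smul, Matrix.smul_mulVec]
      exact W.smul_mem c (hx φ hφ)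
  exact key M (symp_mem M hM)

private theorem NT7_m1 [CharZero F] (W : Submodule F (Kx g m → F))
    (hW : ∀ (u v : Nx g → F), ∀ φ ∈ W, KS (tr u v) *ᵥ φ ∈ W) {S : Matrix (Fin g) (Fin g) F}
    (hS : Sᵀ = S) {b c : Matrix (Fin g) (Fin g) F} (h : ∀ φ ∈ W, ev (Matrix.fromCols b c) φ = 0) :
    ∀ φ ∈ W, ev (Matrix.fromCols b (c + b * S)) φ = 0 := by
  have h1 : (Matrix.fromBlocks 0 S 0 0 : Matrix (Nx g) (Nx g) F) * Matrix.fromBlocks 0 S 0 0 = 0 := by
    rw [Matrix.fromBlocks_multiply]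
    simp
  have h2 : (Matrix.fromBlocks 0 S 0 0 : Matrix (Nx g) (Nx g) F) * JJ g F +
      JJ g F * (Matrix.fromBlocks 0 S 0 0 : Matrix (Nx g) (Nx g) F)ᵀ = 0 := by
    unfold JJ
    rw [Matrix.fromBlocks_transpose, Matrix.fromBlocks_multiply, Matrix.fromBlocks_multiply,
      Matrix.fromBlocks_add, hS]
    simp
  have h3 := move W (Matrix.fromBlocks 0 S 0 0) h1 (NT7_stab W hW _ h2) (Matrix.fromCols b c) h
  have h4 : Matrix.fromCols b c * (1 + Matrix.fromBlocks 0 S 0 0 : Matrix (Nx g) (Nx g) F) =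
      Matrix.fromCols b (c + b * S) := by
    rw [← Matrix.fromBlocks_one, Matrix.fromBlocks_add, Matrix.fromCols_mul_fromBlocks]
    simp [add_comm]
  rw [h4] at h3
  exact h3

private theorem NT7_m2 [CharZero F] (W : Submodule F (Kx g m → F))
    (hW : ∀ (u v : Nx g → F), ∀ φ ∈ W, KS (tr u v) *ᵥ φ ∈ W) {S : Matrix (Fin g) (Fin g) F}
    (hS : Sᵀ = S) {b c : Matrix (Fin g) (Fin g) F} (h : ∀ φ ∈ W, ev (Matrix.fromCols b c) φ = 0) :
    ∀ φ ∈ W, ev (Matrix.fromCols (b + c * S) c) φ = 0 := by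
  have h1 : (Matrix.fromBlocks 0 0 S 0 : Matrix (Nx g) (Nx g) F) * Matrix.fromBlocks 0 0 S 0 = 0 := by
    rw [Matrix.fromBlocks_multiply]
    simp
  have h2 : (Matrix.fromBlocks 0 0 S 0 : Matrix (Nx g) (Nx g) F) * JJ g F +
      JJ g F * (Matrix.fromBlocks 0 0 S 0 : Matrix (Nx g) (Nx g) F)ᵀ = 0 := by
    unfold JJ
    rw [Matrix.fromBlocks_transpose, Matrix.fromBlocks_multiply, Matrix.fromBlocks_multiply,
      Matrix.fromBlocks_add, hS]
    simp
  have h3 := move W (Matrix.fromBlocks 0 0 S 0) h1 (NT7_stab W hW _ h2) (Matrix.fromCols b c) h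
  have h4 : Matrix.fromCols b c * (1 + Matrix.fromBlocks 0 0 S 0 : Matrix (Nx g) (Nx g) F) =
      Matrix.fromCols (b + c * S) c := by
    rw [← Matrix.fromBlocks_one, Matrix.fromBlocks_add, Matrix.fromCols_mul_fromBlocks]
    simp
  rw [h4] at h3
  exact h3

/-- from `(a | c)` to `(a | 0)` -/
private theorem NT7_d [CharZero F] (W : Submodule F (Kx g m → F))
    (hW : ∀ (u v : Nx g → F), ∀ φ ∈ W, KS (tr u v) *ᵥ φ ∈ W) {a c : Matrix (Fin g) (Fin g) F}
    (ha : a.det ≠ 0) (hs : a * cᵀ = c * aᵀ) (h : ∀ φ ∈ W, ev (Matrix.fromCols a c) φ = 0) :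
    ∀ φ ∈ W, ev (Matrix.fromCols a (0 : Matrix (Fin g) (Fin g) F)) φ = 0 := by
  have hu : IsUnit a.det := isUnit_iff_ne_zero.2 ha
  have hut : IsUnit (aᵀ).det := by rw [Matrix.det_transpose]; exact hu
  have h1 : (a⁻¹ * c)ᵀ = a⁻¹ * c := by
    rw [Matrix.transpose_mul, Matrix.transpose_nonsing_inv]
    calc cᵀ * (aᵀ)⁻¹ = a⁻¹ * a * cᵀ * (aᵀ)⁻¹ := by rw [Matrix.nonsing_inv_mul a hu, one_mul]
      _ = a⁻¹ * (a * cᵀ) * (aᵀ)⁻¹ := by rw [mul_assoc a⁻¹ a cᵀ]
      _ = a⁻¹ * c * (aᵀ * (aᵀ)⁻¹) := by rw [hs, ← mul_assoc, ← mul_assoc]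
      _ = a⁻¹ * c := by rw [Matrix.mul_nonsing_inv _ hut, mul_one]
  have h2 : (-(a⁻¹ * c))ᵀ = -(a⁻¹ * c) := by rw [Matrix.transpose_neg, h1]
  have h3 := NT7_m1 W hW h2 h
  have h4 : c + a * -(a⁻¹ * c) = 0 := by
    rw [mul_neg, ← mul_assoc, Matrix.mul_nonsing_inv _ hu, one_mul, add_neg_cancel]
  rw [h4] at h3
  exact h3

/-- multiplication by `1 + S T` -/
private theorem NT7_t [CharZero F] (W : Submodule F (Kx g m → F))
    (hW : ∀ (u v : Nx g → F), ∀ φ ∈ W, KS (tr u v) *ᵥ φ ∈ W) {S T h a : Matrix (Fin g) (Fin g) F}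
    (hS : Sᵀ = S) (hT : Tᵀ = T) (hh : h = 1 + S * T) (hd : h.det ≠ 0) (ha : a.det ≠ 0)
    (h0 : ∀ φ ∈ W, ev (Matrix.fromCols a (0 : Matrix (Fin g) (Fin g) F)) φ = 0) :
    ∀ φ ∈ W, ev (Matrix.fromCols (a * h) (0 : Matrix (Fin g) (Fin g) F)) φ = 0 := by
  have h1 := NT7_m2 W hW hT (NT7_m1 W hW hS h0)
  have h2 : a + (0 + a * S) * T = a * h := by
    rw [hh, zero_add, mul_add, mul_one, mul_assoc]
  rw [h2, zero_add] at h1
  refine NT7_d W hW ?_ ?_ h1
  · rw [Matrix.det_mul]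
    exact mul_ne_zero ha hd
  · rw [hh, Matrix.transpose_mul, Matrix.transpose_mul, Matrix.transpose_add, Matrix.transpose_mul,
      Matrix.transpose_one, hS, hT]
    noncomm_ring

private theorem NT7_gl [CharZero F] (W : Submodule F (Kx g m → F))
    (hW : ∀ (u v : Nx g → F), ∀ φ ∈ W, KS (tr u v) *ᵥ φ ∈ W) (h : Matrix (Fin g) (Fin g) F)
    (hd : h.det ≠ 0) : ∀ a : Matrix (Fin g) (Fin g) F, a.det ≠ 0 →
    (∀ φ ∈ W, ev (Matrix.fromCols a (0 : Matrix (Fin g) (Fin g) F)) φ = 0) →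
    ∀ φ ∈ W, ev (Matrix.fromCols (a * h) (0 : Matrix (Fin g) (Fin g) F)) φ = 0 := by
  refine Matrix.diagonal_transvection_induction_of_det_ne_zero (fun h => ∀ a : Matrix (Fin g) (Fin g) F,
    a.det ≠ 0 → (∀ φ ∈ W, ev (Matrix.fromCols a (0 : Matrix (Fin g) (Fin g) F)) φ = 0) →
    ∀ φ ∈ W, ev (Matrix.fromCols (a * h) (0 : Matrix (Fin g) (Fin g) F)) φ = 0) h hd ?_ ?_ ?_
  · intro D hD a ha h0
    refine NT7_t W hW (S := 1) (T := Matrix.diagonal D - 1) Matrix.transpose_one ?_ ?_ hD ha h0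
    · rw [Matrix.transpose_sub, Matrix.diagonal_transpose, Matrix.transpose_one]
    · rw [one_mul]
      abel
  · intro t a ha h0
    refine NT7_t W hW (S := Matrix.single t.i t.i 1) (T := Matrix.single t.i t.j t.c + Matrix.single t.j t.i t.c)
      ?_ ?_ ?_ ?_ ha h0
    · rw [Matrix.transpose_single]
    · rw [Matrix.transpose_add, Matrix.transpose_single, Matrix.transpose_single, add_comm]
    · rw [mul_add, Matrix.single_mul_single_same, Matrix.single_mul_single_of_ne _ _ _ _ t.hij, one_mul, add_zero]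
      rfl
    · rw [Matrix.TransvectionStruct.det]
      exact one_ne_zero
  · intro A B hA _ hPA hPB a ha h0
    have h1 := hPB (a * A) (by rw [Matrix.det_mul]; exact mul_ne_zero ha hA) (hPA a ha h0)
    rw [mul_assoc] at h1
    exact h1

end NT7

/-- Proof. `W` is stable under `KS M` for all `M` with `M J + J Mᵀ = 0` (`symp_mem`, linearity of `KS`). Let `Z` be the set of the frames `U` with `ev U φ = 0` for all
`φ ∈ W`. By `move`: if `U ∈ Z`, `S` symmetric, then `U * (1 + fromBlocks 0 S 0 0) ∈ Z` and `U * (1 + fromBlocks 0 0 S 0) ∈ Z` (these `M` have square zero and satisfy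
`M J + J Mᵀ = 0`), i.e. (1) `(b | c) ∈ Z → (b | c + b S) ∈ Z`, (2) `(b | c) ∈ Z → (b + c S | c) ∈ Z`. The frame `U` is in `Z`; by `exists_sym` (blocks `b`, `c` of `U`, `hi` says
`b cᵀ = c bᵀ`) and (2) some `(a | c) ∈ Z` with `det a ≠ 0` and still `a cᵀ = c aᵀ`; `c = a y`, `y = a⁻¹ c` symmetric, and (1) with `S = - y`: `(a | 0) ∈ Z`. (3) If
`(a | 0) ∈ Z`, `det a ≠ 0`, `S, T` symmetric with `det (1 + S T) ≠ 0`, then `(a (1 + S T) | 0) ∈ Z`: by (1) `(a | a S)`, by (2) `(a + a S T | a S)`; `a' := a (1 + S T)` is invertible,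
`a S = a' y'` with `y' = a'⁻¹ a S` symmetric (as `a' (a S)ᵀ = (a S) a'ᵀ`: `a (1 + S T) S aᵀ` is symmetric), and (1) with `- y'`. (4) `(a h | 0) ∈ Z` for all `h` with `det h ≠ 0`: by
`Matrix.diagonal_transvection_induction_of_det_ne_zero` (for the property: for all `a` with `det a ≠ 0`, `(a | 0) ∈ Z → (a h | 0) ∈ Z`): a diagonal matrix is
`1 + S T` with `S = 1`, `T = h - 1`; the transvection `1 + c E_ij`, `i ≠ j`, is `1 + S T` with `S = E_ii`, `T = c (E_ij + E_ji)`. So `(a | 0) ∈ Z` for all invertible `a`, by (1)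
`(a | a y) ∈ Z` for all symmetric `y`: `van_of_eval`. -/
theorem van_of_stable {F : Type} [Field F] [CharZero F] {g m : ℕ} (W : Submodule F (Kx g m → F))
    (hW : ∀ (u v : Nx g → F), ∀ φ ∈ W, KS (tr u v) *ᵥ φ ∈ W) (U : Matrix (Fin g) (Nx g) F)
    (hi : U * JJ g F * Uᵀ = 0) (hr : LinearIndependent F fun i => U i) (h0 : ∀ φ ∈ W, ev U φ = 0) :
    ∀ φ ∈ W, Van φ := by
  have : Infinite F := CharZero.infinite F
  have hUe : Matrix.fromCols U.toCols₁ U.toCols₂ = U := Matrix.fromCols_toCols U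
  set b : Matrix (Fin g) (Fin g) F := U.toCols₁ with hb
  set c : Matrix (Fin g) (Fin g) F := U.toCols₂ with hc
  have hs : b * cᵀ = c * bᵀ := by
    rw [← hUe] at hi
    unfold JJ at hi
    rw [Matrix.fromCols_mul_fromBlocks, Matrix.transpose_fromCols, Matrix.fromCols_mul_fromRows] at hi
    simp only [mul_zero, mul_one, mul_neg, zero_add, add_zero, neg_mul] at hi
    exact (neg_add_eq_zero.1 hi).symm
  obtain ⟨S, hS, hd⟩ := exists_sym b c hs (by rw [hUe]; exact hr)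
  have h1 : ∀ φ ∈ W, ev (Matrix.fromCols b c) φ = 0 := by
    rw [hUe]
    exact h0
  have h2 := NT7_m2 W hW hS h1
  have h3 := NT7_d W hW hd (by
    rw [Matrix.transpose_add, Matrix.transpose_mul, hS, add_mul, mul_add, hs, mul_assoc]) h2
  intro φ hφ
  refine van_of_eval φ fun a y ha hy => ?_
  have hu : IsUnit (b + c * S).det := isUnit_iff_ne_zero.2 hd
  have h4 := NT7_gl W hW ((b + c * S)⁻¹ * a) (by
    rw [Matrix.det_mul, Matrix.det_nonsing_inv, Ring.inverse_eq_inv']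
    exact mul_ne_zero (inv_ne_zero hd) ha) (b + c * S) hd h3
  rw [← mul_assoc, Matrix.mul_nonsing_inv _ hu, one_mul] at h4
  have h5 := NT7_m1 W hW hy h4 φ hφ
  rw [zero_add] at h5
  exact h5

end MPadcOA
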