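import Pool.Agent.Lib.MP_adc574_ag_OA.N_K4
import Pool.Agent.Lib.MP_adc574_ag_OA.N_T7

/-! LEAF NZ0: a saturated module which is stable under the symplectic Lie algebra and vanishes at one isotropic frame -/

set_option autoImplicit false

namespace MPadcOA

open Polynomial Matrix

/-- Proof. `KS_lin`: the block `₂₁` of `Q * KS M * P` vanishes, `M = tr (C ∘ u) (C ∘ v)`. For `x ∈ W`: `y := Q *ᵥ x` has `y (inr j) = 0`, `x = P *ᵥ y`, and
`Q *ᵥ (KS M *ᵥ x) = (Q * KS M * P) *ᵥ y` has the coordinates `inr j` equal to zero. -/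
theorem stab {F : Type} [Field F] {g m : ℕ} (W : Submodule F[X] (Kx g m → F[X])) {r s : ℕ}
    (P : Matrix (Kx g m) (Fin r ⊕ Fin s) F[X]) (Q : Matrix (Fin r ⊕ Fin s) (Kx g m) F[X]) (hPQ : P * Q = 1)
    (hW : ∀ x, x ∈ W ↔ ∀ j, (Q *ᵥ x) (Sum.inr j) = 0) (u v : Nx g → F)
    (h : ∀ j i, ∑ a, ∑ b, Tm P Q j i a b * tr (fun l => C (u l)) (fun l => C (v l)) a b = 0) (x : Kx g m → F[X]) (hx : x ∈ W) :
    KS (tr (fun l => C (u l)) (fun l => C (v l))) *ᵥ x ∈ W := by
  rw [hW]
  intro j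
  have hx' := (hW x).1 hx
  have h1 : P *ᵥ (Q *ᵥ x) = x := by
    rw [Matrix.mulVec_mulVec, hPQ, Matrix.one_mulVec]
  have h2 : Q *ᵥ (KS (tr (fun l => C (u l)) (fun l => C (v l))) *ᵥ x) =
      (Q * (KS (tr (fun l => C (u l)) (fun l => C (v l))) : Matrix (Kx g m) (Kx g m) F[X]) * P) *ᵥ
        (Q *ᵥ x) := by
    conv_lhs => rw [← h1]
    rw [Matrix.mulVec_mulVec, Matrix.mulVec_mulVec]
  rw [h2, Matrix.mulVec, dotProduct, Fintype.sum_sum_type]
  rw [Finset.sum_eq_zero, Finset.sum_eq_zero, add_zero]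
  · intro j' _
    rw [hx' j', mul_zero]
  · intro i _
    rw [KS_lin, h j i, zero_mul]

/-- Proof. Induction on `N`: if all `x s` have degree `< N` then `Van x`. `N = 0`: `x = 0`. Step: `y s := C ((x s).eval α)`, `Van y` (`h`, `van_map C`), so `y ∈ W` and `x - y ∈ W`;
`x s - y s = (X - C α) * z s` with `z s := (x s) /ₘ (X - C α)` or `divX`-like (`Polynomial.mul_divByMonic_eq_iff_isRoot`, `natDegree_divByMonic`), so
`(X - C α) • z ∈ W`, `z ∈ W` by `hsat`, the degrees of the `z s` are smaller: `Van z`, and `x = y + (X - C α) • z`. -/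
theorem van_of_sat {F : Type} [Field F] {g m : ℕ} (W : Submodule F[X] (Kx g m → F[X]))
    (hsat : ∀ d : F[X], d ≠ 0 → ∀ x : Kx g m → F[X], d • x ∈ W → x ∈ W) (hvan : ∀ x : Kx g m → F[X], Van x → x ∈ W) (α : F)
    (h : ∀ x ∈ W, Van fun s => (x s).eval α) : ∀ x ∈ W, Van x := by
  have key : ∀ N : ℕ, ∀ x ∈ W, (∀ s, (x s).natDegree ≤ N) → Van x := by
    intro N
    induction N with
    | zero =>
      intro x hx hd
      have h1 : x = fun s => C ((x s).eval α) := by
        funext s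
        have h2 := eq_C_of_natDegree_eq_zero (Nat.le_zero.1 (hd s))
        rw [h2, eval_C]
      rw [h1]
      exact van_map C (h x hx)
    | succ N ih =>
      intro x hx hd
      have hy : Van fun s => (C ((x s).eval α) : F[X]) := van_map C (h x hx)
      have hyW := hvan _ hy
      have hz : (X - C α) • (fun s => x s /ₘ (X - C α)) = x - fun s => C ((x s).eval α) := by
        funext s
        rw [Pi.smul_apply, Pi.sub_apply, smul_eq_mul]
        have h1 := modByMonic_add_div (x s) (X - C α)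
        rw [modByMonic_X_sub_C_eq_C_eval] at h1
        exact eq_sub_of_add_eq' h1
      have hzW : (fun s => x s /ₘ (X - C α)) ∈ W := by
        refine hsat (X - C α) (X_sub_C_ne_zero α) _ ?_
        rw [hz]
        exact W.sub_mem hx hyW
      have hzv := ih _ hzW fun s => by
        rw [natDegree_divByMonic _ (monic_X_sub_C α), natDegree_X_sub_C]
        have := hd s
        omega
      have h2 : x = (X - C α) • (fun s => x s /ₘ (X - C α)) + fun s => C ((x s).eval α) := by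
        rw [hz, sub_add_cancel]
      rw [h2]
      exact van_add (van_smul _ hzv) hy
  intro x hx
  refine key (∑ s, (x s).natDegree) x hx fun s => ?_
  exact Finset.single_le_sum (f := fun s => (x s).natDegree) (fun _ _ => Nat.zero_le _)
    (Finset.mem_univ s)

private def NZ0_W {F : Type} [Field F] {g m : ℕ} (W : Submodule F[X] (Kx g m → F[X])) (α : F) :
    Submodule F (Kx g m → F) where
  carrier := {φ | ∃ ξ ∈ W, φ = fun s => (ξ s).eval α}
  add_mem' := by
    rintro _ _ ⟨ξ, hξ, rfl⟩ ⟨ξ', hξ', rfl⟩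
    refine ⟨ξ + ξ', W.add_mem hξ hξ', ?_⟩
    funext s
    rw [Pi.add_apply, Pi.add_apply, eval_add]
  zero_mem' := ⟨0, W.zero_mem, by funext s; rw [Pi.zero_apply, Pi.zero_apply, eval_zero]⟩
  smul_mem' := by
    rintro c _ ⟨ξ, hξ, rfl⟩
    refine ⟨C c • ξ, W.smul_mem _ hξ, ?_⟩
    funext s
    rw [Pi.smul_apply, Pi.smul_apply, smul_eq_mul, smul_eq_mul, eval_mul, eval_C]

private theorem NZ0_JJ {F : Type} [Field F] {g : ℕ} (α : F) :
    (JJ g F[X]).map (evalRingHom α) = JJ g F := by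
  rw [JJ, JJ, Matrix.fromBlocks_map, Matrix.map_zero _ (map_zero _), Matrix.map_one _ (map_zero _) (map_one _)]
  congr 1
  ext i j
  rw [Matrix.map_apply, Matrix.neg_apply, Matrix.neg_apply, map_neg, Matrix.one_apply,
    Matrix.one_apply]
  split_ifs
  · rw [map_one]
  · rw [map_zero]

private theorem NZ0_tr {F : Type} [Field F] {g : ℕ} (α : F) (u v : Nx g → F) :
    (tr (fun l => C (u l)) (fun l => C (v l)) : Matrix (Nx g) (Nx g) F[X]).map (evalRingHom α) =
      tr u v := by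
  have hJ : ∀ (w : Nx g → F) a, evalRingHom α ((JJ g F[X] *ᵥ fun l => C (w l)) a) =
      (JJ g F *ᵥ w) a := by
    intro w a
    rw [RingHom.map_mulVec, NZ0_JJ]
    have h1 : (⇑(evalRingHom α) ∘ fun l => C (w l)) = w := by
      funext l
      rw [Function.comp_apply, coe_evalRingHom, eval_C]
    rw [h1]
  ext a b
  rw [Matrix.map_apply, tr, tr, Matrix.add_apply, Matrix.add_apply, vecMulVec_apply,
    vecMulVec_apply, vecMulVec_apply, vecMulVec_apply, map_add, map_mul, map_mul, hJ, hJ,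
    coe_evalRingHom, eval_C, eval_C]

/-- Proof. Let `W₀ := {ξ(α) | ξ ∈ W}`, a subspace of `Kx g m → F` (`C c • ξ` for the scalars). It is stable under `KS (tr u v)`: evaluation at `α` maps `KS (tr (C ∘ u) (C ∘ v)) *ᵥ x` to
`KS (tr u v) *ᵥ x(α)` (`KS_map` with `evalRingHom α`, `Matrix.map_mulVec`-like; `tr` and `JJ` commute with ring homomorphisms). `van_of_stable` and `van_of_sat`. -/
theorem all_van {F : Type} [Field F] [CharZero F] {g m : ℕ} (W : Submodule F[X] (Kx g m → F[X]))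
    (hsat : ∀ d : F[X], d ≠ 0 → ∀ x : Kx g m → F[X], d • x ∈ W → x ∈ W) (hvan : ∀ x : Kx g m → F[X], Van x → x ∈ W)
    (hst : ∀ (u v : Nx g → F), ∀ x ∈ W, KS (tr (fun l => C (u l)) (fun l => C (v l))) *ᵥ x ∈ W) (α : F)
    (U : Matrix (Fin g) (Nx g) F) (hi : U * JJ g F * Uᵀ = 0) (hr : LinearIndependent F fun i => U i)
    (h0 : ∀ x ∈ W, ev U (fun s => (x s).eval α) = 0) : ∀ x ∈ W, Van x := by
  refine van_of_sat W hsat hvan α ?_
  have hc : ∀ ξ ∈ W, (fun s => (ξ s).eval α) ∈ NZ0_W W α := fun ξ hξ => ⟨ξ, hξ, rfl⟩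
  have hfin := van_of_stable (NZ0_W W α) ?_ U hi hr ?_
  · exact fun ξ hξ => hfin _ (hc ξ hξ)
  · rintro u v _ ⟨ξ, hξ, rfl⟩
    refine ⟨KS (tr (fun l => C (u l)) (fun l => C (v l))) *ᵥ ξ, hst u v ξ hξ, ?_⟩
    funext s
    have h1 := RingHom.map_mulVec (evalRingHom α)
      (KS (tr (fun l => C (u l)) (fun l => C (v l))) : Matrix (Kx g m) (Kx g m) F[X]) ξ s
    rw [KS_map, NZ0_tr] at h1
    exact h1.symm
  · rintro _ ⟨ξ, hξ, rfl⟩
    exact h0 ξ hξ

end MPadcOA
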