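import Pool.Agent.Lib.MP_adc574_ag_OA.N_U3
import Pool.Agent.Lib.MP_adc574_ag_OA.N_T4

/-! LEAF NZ2: lifting of the data to the ultraproduct -/

set_option autoImplicit false

namespace MPadcOA

open Polynomial Matrix MPadcGM

variable {k : ℕ → Type} [∀ n, Field (k n)]

/-- Proof. `exists_rp` for all entries (choose), `Filter.eventually_all`. -/
theorem exists_mr {α β : Type} [Fintype α] [Fintype β] (A : ∀ n, Matrix α β (k n)[X]) (d : ℕ)
    (hd : ∀ n i j, (A n i j).natDegree ≤ d) : ∃ A' : Matrix α β (LL k)[X], ∀ᶠ n in HF, mr A' n = A n := by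
  classical
  have h1 : ∀ i j, ∃ P : (LL k)[X], P.natDegree ≤ d ∧ ∀ᶠ n in HF, rp P n = A n i j := fun i j =>
    exists_rp (fun n => A n i j) d (Filter.Eventually.of_forall fun n => hd n i j)
  choose P hP using h1
  refine ⟨fun i j => P i j, ?_⟩
  have h2 : ∀ᶠ n in HF, ∀ i j, rp (P i j) n = A n i j :=
    Filter.eventually_all.2 fun i => Filter.eventually_all.2 fun j => (hP i j).2
  filter_upwards [h2] with n hn
  funext i j
  exact hn i j

/-- Proof. `mr_ext`: `mr_add`, `mr_mul`, `mr` of a transpose (by definition), eventually `mr (JJ g (LL k)[X]) n = JJ g (k n)[X]` (entries `0`, `1`, `-1`: `rp_zero`, `rp_one`, `rp_intCast`), `mr_zero`. -/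
theorem symp_lift {g : ℕ} (G : ∀ n, Matrix (Nx g) (Nx g) (k n)[X]) (hs : ∀ n, G n * JJ g (k n)[X] + JJ g (k n)[X] * (G n)ᵀ = 0)
    (G' : Matrix (Nx g) (Nx g) (LL k)[X]) (hG : ∀ᶠ n in HF, mr G' n = G n) :
    G' * JJ g (LL k)[X] + JJ g (LL k)[X] * G'ᵀ = 0 := by
  classical
  have hJ : ∀ᶠ n in HF, mr (JJ g (LL k)[X]) n = JJ g (k n)[X] := by
    have h1 : ∀ᶠ n in HF, ∀ (i j : Nx g), rp (JJ g (LL k)[X] i j) n = JJ g (k n)[X] i j := by
      refine Filter.eventually_all.2 fun i => Filter.eventually_all.2 fun j => ?_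
      have hone : ∀ (a b : Fin g), ∀ᶠ n in HF, rp ((1 : Matrix (Fin g) (Fin g) (LL k)[X]) a b) n =
          (1 : Matrix (Fin g) (Fin g) (k n)[X]) a b := by
        intro a b
        by_cases hab : a = b
        · subst hab
          filter_upwards [rp_one (k := k)] with n hn
          rw [Matrix.one_apply_eq, Matrix.one_apply_eq]
          exact hn
        · filter_upwards [rp_zero (k := k)] with n hn
          rw [Matrix.one_apply_ne hab, Matrix.one_apply_ne hab]
          exact hn
      rcases i with a | a <;> rcases j with b | b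
      · exact rp_zero
      · exact hone a b
      · have h2 : ∀ᶠ n in HF, rp ((-1 : Matrix (Fin g) (Fin g) (LL k)[X]) a b) n =
            (-1 : Matrix (Fin g) (Fin g) (k n)[X]) a b := by
          by_cases hab : a = b
          · subst hab
            filter_upwards [rp_intCast (k := k) (-1)] with n hn
            rw [Matrix.neg_apply, Matrix.neg_apply, Matrix.one_apply_eq, Matrix.one_apply_eq]
            rw [Int.cast_neg, Int.cast_neg, Int.cast_one, Int.cast_one] at hn
            exact hn
          · filter_upwards [rp_zero (k := k)] with n hn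
            rw [Matrix.neg_apply, Matrix.neg_apply, Matrix.one_apply_ne hab, Matrix.one_apply_ne hab,
              neg_zero, neg_zero]
            exact hn
        exact h2
      · exact rp_zero
    filter_upwards [h1] with n hn
    funext i j
    exact hn i j
  refine mr_ext ?_
  filter_upwards [hJ, hG, mr_add (G' * JJ g (LL k)[X]) (JJ g (LL k)[X] * G'ᵀ), mr_mul G' (JJ g (LL k)[X]),
    mr_mul (JJ g (LL k)[X]) G'ᵀ, mr_zero (k := k) (α := Nx g) (β := Nx g)] with n h1 h2 h3 h4 h5 h6
  have h7 : mr G'ᵀ n = (mr G' n)ᵀ := rfl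
  rw [h3, h4, h5, h6, h7, h1, h2]
  exact hs n

/-- Proof. `natDegree_prod_le` and `natDegree_X_sub_C`. -/
theorem deg_Δ {K : Type} [Field K] {g : ℕ} (D : Dat g K) : D.Δ.natDegree ≤ 2 * g := by
  unfold Dat.Δ
  refine (natDegree_prod_le _ _).trans ?_
  simp only [natDegree_X_sub_C, Finset.sum_const, Finset.card_univ, Fintype.card_fin, smul_eq_mul,
    mul_one, le_refl]

end MPadcOA
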