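import Pool.Agent.Lib.MP_adc574_ag_OA.N_Defs

/-! LEAF NK1: the action of a matrix on the forms -/

set_option autoImplicit false

namespace MPadcOA

open Polynomial Matrix

variable {R : Type*} [CommRing R] {g m : ℕ}

/-- Proof. `(KS M *ᵥ φ) s = ∑ s', (∑ i, if s' = update s i ((s i).1, (s' i).2) then M (s i).2 (s' i).2 else 0) * φ s'`; exchange the sums; for
a fixed `i` the `s'` with `s' = update s i ((s i).1, (s' i).2)` are exactly the `update s i ((s i).1, l)`, `l : Nx g` (injective in `l`, as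
`(s' i).2 = l`): `Finset.sum_bij` / `Finset.sum_image` over `l ↦ update s i ((s i).1, l)`. -/
theorem KS_mulVec (M : Matrix (Nx g) (Nx g) R) (φ : Kx g m → R) (s : Kx g m) :
    (KS M *ᵥ φ) s = ∑ i, ∑ l, M (s i).2 l * φ (Function.update s i ((s i).1, l)) := by
  have h0 : (KS M *ᵥ φ) s = ∑ s' : Kx g m, (∑ i, if s' = Function.update s i ((s i).1, (s' i).2)
      then M (s i).2 (s' i).2 else 0) * φ s' := rfl
  rw [h0]
  simp only [Finset.sum_mul]
  rw [Finset.sum_comm]
  refine Finset.sum_congr rfl fun i _ => ?_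
  symm
  refine Finset.sum_of_injOn (fun l => Function.update s i ((s i).1, l)) ?_ ?_ ?_ ?_
  · intro l _ l' _ h
    have h1 := congrFun h i
    simp only [Function.update_self] at h1
    exact (Prod.mk.inj h1).2
  · intro l _
    exact Finset.mem_coe.2 (Finset.mem_univ _)
  · intro s' _ hs'
    rw [if_neg, zero_mul]
    intro h
    exact hs' ⟨(s' i).2, Finset.mem_coe.2 (Finset.mem_univ _), h.symm⟩
  · intro l _
    simp only [Function.update_self]
    rw [if_pos trivial]

theorem KS_add (M M' : Matrix (Nx g) (Nx g) R) : (KS (M + M') : Matrix (Kx g m) (Kx g m) R) = KS M + KS M' := by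
  ext s s'
  rw [Matrix.add_apply]
  unfold KS
  rw [← Finset.sum_add_distrib]
  refine Finset.sum_congr rfl fun i _ => ?_
  split_ifs
  · rfl
  · rw [add_zero]

theorem KS_smul (c : R) (M : Matrix (Nx g) (Nx g) R) : (KS (c • M) : Matrix (Kx g m) (Kx g m) R) = c • KS M := by
  ext s s'
  rw [Matrix.smul_apply]
  unfold KS
  rw [Finset.smul_sum]
  refine Finset.sum_congr rfl fun i _ => ?_
  split_ifs
  · rfl
  · rw [smul_zero]

theorem KS_sub (M M' : Matrix (Nx g) (Nx g) R) : (KS (M - M') : Matrix (Kx g m) (Kx g m) R) = KS M - KS M' := by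
  ext s s'
  rw [Matrix.sub_apply]
  unfold KS
  rw [← Finset.sum_sub_distrib]
  refine Finset.sum_congr rfl fun i _ => ?_
  split_ifs
  · rfl
  · rw [sub_zero]

theorem KS_map {S : Type*} [CommRing S] (f : R →+* S) (M : Matrix (Nx g) (Nx g) R) :
    (KS M : Matrix (Kx g m) (Kx g m) R).map f = KS (M.map f) := by
  ext s s'
  rw [Matrix.map_apply]
  unfold KS
  rw [map_sum]
  refine Finset.sum_congr rfl fun i _ => ?_
  split_ifs
  · rfl
  · rw [map_zero]

theorem KS_derivative (M : Matrix (Nx g) (Nx g) R[X]) :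
    (KS M : Matrix (Kx g m) (Kx g m) R[X]).map derivative = KS (M.map derivative) := by
  ext1 s s'
  rw [Matrix.map_apply]
  unfold KS
  rw [map_sum]
  refine Finset.sum_congr rfl fun i _ => ?_
  split_ifs
  · rfl
  · rw [map_zero]

/-- The action at one index. -/
private def NK1_a (i : Fin m) (M : Matrix (Nx g) (Nx g) R) (φ : Kx g m → R) : Kx g m → R :=
  fun s => ∑ l, M (s i).2 l * φ (Function.update s i ((s i).1, l))

private theorem NK1_KS (M : Matrix (Nx g) (Nx g) R) (φ : Kx g m → R) :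
    KS M *ᵥ φ = fun s => ∑ i, NK1_a i M φ s := by
  funext s
  exact KS_mulVec M φ s

private theorem NK1_ne {i j : Fin m} (hij : i ≠ j) (M M' : Matrix (Nx g) (Nx g) R) (φ : Kx g m → R)
    (s : Kx g m) : NK1_a i M (NK1_a j M' φ) s = NK1_a j M' (NK1_a i M φ) s := by
  unfold NK1_a
  simp only [Finset.mul_sum]
  rw [Finset.sum_comm]
  refine Finset.sum_congr rfl fun l _ => Finset.sum_congr rfl fun l' _ => ?_
  rw [Function.update_of_ne hij.symm, Function.update_of_ne hij, Function.update_comm hij]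
  ring

private theorem NK1_eq (i : Fin m) (M M' : Matrix (Nx g) (Nx g) R) (φ : Kx g m → R)
    (s : Kx g m) : NK1_a i M (NK1_a i M' φ) s = NK1_a i (M * M') φ s := by
  unfold NK1_a
  simp only [Finset.mul_sum, Function.update_self, Function.update_idem]
  rw [Finset.sum_comm]
  refine Finset.sum_congr rfl fun l _ => ?_
  rw [Matrix.mul_apply, Finset.sum_mul]
  refine Finset.sum_congr rfl fun l' _ => ?_
  ring

private theorem NK1_sum (i : Fin m) (M M' : Matrix (Nx g) (Nx g) R) (φ : Kx g m → R)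
    (s : Kx g m) : NK1_a i M (fun s' => ∑ j, NK1_a j M' φ s') s =
      ∑ j, NK1_a i M (NK1_a j M' φ) s := by
  unfold NK1_a
  simp only [Finset.mul_sum]
  rw [Finset.sum_comm]

private theorem NK1_sub (i : Fin m) (M M' : Matrix (Nx g) (Nx g) R) (φ : Kx g m → R)
    (s : Kx g m) : NK1_a i (M - M') φ s = NK1_a i M φ s - NK1_a i M' φ s := by
  unfold NK1_a
  rw [← Finset.sum_sub_distrib]
  refine Finset.sum_congr rfl fun l _ => ?_
  rw [Matrix.sub_apply]
  ring

/-- Proof. Compare the actions on all `φ` (`Matrix.ext_of_mulVec_single` or `Matrix.toLin'` injective; or `Matrix.mulVec_injective`). By `KS_mulVec`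
`KS M *ᵥ φ = ∑ i, a i M φ`, `(a i M φ) s = ∑ l, M (s i).2 l * φ (update s i ((s i).1, l))`. For `i ≠ j`: `a i M (a j M' φ) = a j M' (a i M φ)`
(`Function.update_comm`, and `(update s i x) j = s j`), and `a i M (a i M' φ) = a i (M * M') φ` (`Function.update_idem`, `Matrix.mul_apply`,
exchange of the sums over `l`). So `KS M KS M' - KS M' KS M = ∑ i, a i (M * M' - M' * M)`. -/
theorem KS_comm (M M' : Matrix (Nx g) (Nx g) R) :
    (KS M * KS M' - KS M' * KS M : Matrix (Kx g m) (Kx g m) R) = KS (M * M' - M' * M) := by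
  have key : ∀ φ : Kx g m → R, (KS M * KS M' - KS M' * KS M : Matrix (Kx g m) (Kx g m) R) *ᵥ φ =
      KS (M * M' - M' * M) *ᵥ φ := by
    intro φ
    rw [Matrix.sub_mulVec, ← Matrix.mulVec_mulVec, ← Matrix.mulVec_mulVec, NK1_KS M' φ, NK1_KS M φ,
      NK1_KS M, NK1_KS M', NK1_KS (M * M' - M' * M) φ]
    funext s
    rw [Pi.sub_apply]
    simp only [NK1_sum]
    have h2 : ∑ i, ∑ j, NK1_a i M' (NK1_a j M φ) s = ∑ i, ∑ j, NK1_a j M' (NK1_a i M φ) s :=
      Finset.sum_comm
    rw [h2, ← Finset.sum_sub_distrib]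
    refine Finset.sum_congr rfl fun i _ => ?_
    rw [← Finset.sum_sub_distrib, Finset.sum_eq_single i]
    · rw [NK1_eq, NK1_eq, NK1_sub]
    · intro j _ hj
      rw [NK1_ne hj.symm, sub_self]
    · intro h
      exact absurd (Finset.mem_univ i) h
  ext s s'
  have h3 := congrFun (key (Pi.single s' 1)) s
  rwa [Matrix.mulVec_single_one, Matrix.mulVec_single_one] at h3

end MPadcOA
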