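import Mathlib

/-!
# Leaf C7 (Mathlib only): pairs and weights
-/

set_option autoImplicit false

namespace MPadcOA

/-- PROOF. If `S` is empty: `0 ≤ _`. Let `n_c` be the number of the `t ∈ S` with `π t = c`, `c ∈ Z`: `∑ n_c = card S`, `∑ n_c ^ 2 = #{(t, t') | π t = π t'}`; Cauchy-Schwarz (`sq_sum_le_card_mul_sum_sq`): `(card S) ^ 2 ≤ card Z * ∑ n_c ^ 2 ≤ M ∑ n_c ^ 2`; remove the diagonal. -/
theorem pairs_general {α β : Type*} [DecidableEq α] [DecidableEq β] (S : Finset α) (π : α → β) (Z : Set β)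
    (hfin : Z.Finite) (M : ℝ) (hM : 0 < M) (hZ : (Z.ncard : ℝ) ≤ M) (hS : ∀ t ∈ S, π t ∈ Z) :
    (S.card : ℝ) ^ 2 / M - S.card ≤
      (((S ×ˢ S).filter fun x => x.1 ≠ x.2 ∧ π x.1 = π x.2).card : ℝ) := by
  obtain ⟨Zf, hZf⟩ : ∃ Zf : Finset β, Zf = hfin.toFinset := ⟨_, rfl⟩
  have hmem : ∀ c, c ∈ Zf ↔ c ∈ Z := fun c => by rw [hZf, Set.Finite.mem_toFinset]
  have hZc : (Zf.card : ℝ) ≤ M := by
    rw [hZf, ← Set.ncard_eq_toFinset_card Z hfin]
    exact hZ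
  obtain ⟨D, hD⟩ : ∃ D : Finset (α × α), D = (S ×ˢ S).filter fun x => π x.1 = π x.2 :=
    ⟨_, rfl⟩
  have h1 : S.card = ∑ c ∈ Zf, (S.filter fun t => π t = c).card :=
    Finset.card_eq_sum_card_fiberwise fun t ht => (hmem _).2 (hS t ht)
  have h2 : D.card = ∑ c ∈ Zf, (S.filter fun t => π t = c).card ^ 2 := by
    rw [Finset.card_eq_sum_card_fiberwise (f := fun x : α × α => π x.1) (t := Zf)
      (fun x hx => (hmem _).2 (hS x.1 ?_))]
    · refine Finset.sum_congr rfl fun c _ => ?_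
      rw [pow_two, ← Finset.card_product]
      congr 1
      ext x
      rw [hD, Finset.mem_filter, Finset.mem_filter, Finset.mem_product, Finset.mem_product,
        Finset.mem_filter, Finset.mem_filter]
      constructor
      · rintro ⟨⟨⟨a1, a2⟩, a3⟩, a4⟩
        exact ⟨⟨a1, a4⟩, a2, by rw [← a3]; exact a4⟩
      · rintro ⟨⟨a1, a2⟩, a3, a4⟩
        exact ⟨⟨⟨a1, a3⟩, by rw [a2, a4]⟩, a2⟩
    · have hx' : x ∈ D := hx
      rw [hD, Finset.mem_filter, Finset.mem_product] at hx'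
      exact hx'.1.1
  have h3 : D.card = ((S ×ˢ S).filter fun x => x.1 ≠ x.2 ∧ π x.1 = π x.2).card + S.card := by
    have h4 : ((S ×ˢ S).filter fun x => x.1 = x.2).card = S.card := by
      refine Finset.card_bij' (fun x _ => x.1) (fun t _ => (t, t)) ?_ ?_ ?_ ?_
      · intro x hx
        rw [Finset.mem_filter, Finset.mem_product] at hx
        exact hx.1.1
      · intro t ht
        rw [Finset.mem_filter, Finset.mem_product]
        exact ⟨⟨ht, ht⟩, rfl⟩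
      · intro x hx
        rw [Finset.mem_filter] at hx
        exact Prod.ext rfl hx.2
      · intro t _
        rfl
    rw [← h4, ← Finset.card_union_of_disjoint]
    · congr 1
      ext x
      rw [hD, Finset.mem_filter, Finset.mem_union, Finset.mem_filter, Finset.mem_filter]
      constructor
      · rintro ⟨a1, a2⟩
        by_cases hx : x.1 = x.2
        · exact Or.inr ⟨a1, hx⟩
        · exact Or.inl ⟨a1, hx, a2⟩
      · rintro (⟨a1, a2, a3⟩ | ⟨a1, a2⟩)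
        · exact ⟨a1, a3⟩
        · exact ⟨a1, by rw [a2]⟩
    · rw [Finset.disjoint_left]
      intro x hx hx'
      rw [Finset.mem_filter] at hx hx'
      exact hx.2.1 hx'.2
  have h6 : (S.card : ℝ) ^ 2 ≤ (Zf.card : ℝ) * (D.card : ℝ) := by
    have h7 := sq_sum_le_card_mul_sum_sq (s := Zf)
      (f := fun c => ((S.filter fun t => π t = c).card : ℝ))
    have h8 : ((S.card : ℕ) : ℝ) = ∑ c ∈ Zf, ((S.filter fun t => π t = c).card : ℝ) := by
      exact_mod_cast h1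
    have h9 : ((D.card : ℕ) : ℝ) =
        ∑ c ∈ Zf, ((S.filter fun t => π t = c).card : ℝ) ^ 2 := by
      exact_mod_cast h2
    rw [h8, h9]
    exact h7
  have h10 : (S.card : ℝ) ^ 2 ≤ (D.card : ℝ) * M := by
    calc (S.card : ℝ) ^ 2 ≤ (Zf.card : ℝ) * (D.card : ℝ) := h6
      _ ≤ M * (D.card : ℝ) := mul_le_mul_of_nonneg_right hZc (Nat.cast_nonneg _)
      _ = _ := mul_comm _ _
  have h11 : (S.card : ℝ) ^ 2 / M ≤ (D.card : ℝ) := (div_le_iff₀ hM).2 h10
  have h12 : (D.card : ℝ) = (((S ×ˢ S).filter fun x => x.1 ≠ x.2 ∧ π x.1 = π x.2).card : ℝ) +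
      S.card := by exact_mod_cast h3
  linarith

/-- PROOF. With `w i = log (N i) / N i ≥ 0`: `∑_i w i * card (S i) = ∑_(t ∈ T) ∑_(i ∈ P, t ∈ S i) w i ≥ κ card T`, and by Cauchy-Schwarz `(∑_i w i card (S i)) ^ 2 ≤ (∑ w i) (∑_i w i card (S i) ^ 2) ≤ L ∑_i w i card (S i) ^ 2`. So `κ ^ 2 (card T) ^ 2 / (ε L) ≤ ∑_i log (N i) card (S i) ^ 2 / (ε N i) ≤ (card T) ^ 2 A + ∑_i log (N i) * card (S i)`
`≤ (card T) ^ 2 A + Θ card T`. Divide by `card T` (if `T` is empty the claim is `0 ≤ Θ`). -/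
theorem weights_bound {α Λ : Type*} [DecidableEq α] [DecidableEq Λ] (T : Finset α) (P : Finset Λ) (N : Λ → ℝ)
    (hN : ∀ i ∈ P, 1 ≤ N i) (ε : ℝ) (hε : 0 < ε) (S : Λ → Finset α) (hS : ∀ i ∈ P, S i ⊆ T)
    (A κ L Θ : ℝ) (hκ : 0 ≤ κ) (hL : 0 < L)
    (h0 : ∑ i ∈ P, Real.log (N i) * (((S i).card : ℝ) ^ 2 / (ε * N i) - (S i).card) ≤
      (T.card : ℝ) ^ 2 * A)
    (h1 : ∀ t ∈ T, κ ≤ ∑ i ∈ P.filter (fun i => t ∈ S i), Real.log (N i) / N i)
    (h2 : ∑ i ∈ P, Real.log (N i) / N i ≤ L) (h3 : ∑ i ∈ P, Real.log (N i) ≤ Θ) :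
    (T.card : ℝ) * (κ ^ 2 / (ε * L) - A) ≤ Θ := by
  have hl : ∀ p ∈ P, 0 ≤ Real.log (N p) := fun p hp => Real.log_nonneg (hN p hp)
  have hp0 : ∀ p ∈ P, (0 : ℝ) < N p := fun p hp => lt_of_lt_of_le zero_lt_one (hN p hp)
  have hw : ∀ p ∈ P, 0 ≤ Real.log (N p) / N p := fun p hp =>
    div_nonneg (hl p hp) (hp0 p hp).le
  have hc0 : (0 : ℝ) ≤ T.card := Nat.cast_nonneg _
  have hΘ : 0 ≤ Θ := (Finset.sum_nonneg hl).trans h3
  have s1 : κ * T.card ≤ ∑ p ∈ P, Real.log (N p) / N p * ((S p).card : ℝ) := by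
    have e1 : ∑ t ∈ T, ∑ p ∈ P.filter (fun p => t ∈ S p), Real.log (N p) / N p =
        ∑ p ∈ P, Real.log (N p) / N p * ((S p).card : ℝ) := by
      simp only [Finset.sum_filter]
      rw [Finset.sum_comm]
      refine Finset.sum_congr rfl fun p hp => ?_
      rw [← Finset.sum_filter, Finset.sum_const, nsmul_eq_mul, mul_comm]
      have e2 : T.filter (fun t => t ∈ S p) = S p := by
        ext t
        rw [Finset.mem_filter]
        exact ⟨fun h => h.2, fun h => ⟨hS p hp h, h⟩⟩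
      rw [e2]
    rw [← e1]
    calc κ * T.card = ∑ t ∈ T, κ := by rw [Finset.sum_const, nsmul_eq_mul, mul_comm]
      _ ≤ _ := Finset.sum_le_sum h1
  have s2 : (∑ p ∈ P, Real.log (N p) / N p * ((S p).card : ℝ)) ^ 2 ≤
      (∑ p ∈ P, Real.log (N p) / N p) * ∑ p ∈ P, Real.log (N p) / N p * ((S p).card : ℝ) ^ 2 :=
    Finset.sum_sq_le_sum_mul_sum_of_sq_le_mul P hw
      (fun p hp => mul_nonneg (hw p hp) (by positivity)) fun p _ => le_of_eq (by ring)
  have hQ : 0 ≤ ∑ p ∈ P, Real.log (N p) / N p * ((S p).card : ℝ) ^ 2 :=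
    Finset.sum_nonneg fun p hp => mul_nonneg (hw p hp) (by positivity)
  have s3 : (κ * T.card) ^ 2 ≤ L * ∑ p ∈ P, Real.log (N p) / N p * ((S p).card : ℝ) ^ 2 := by
    calc (κ * T.card) ^ 2 ≤ (∑ p ∈ P, Real.log (N p) / N p * ((S p).card : ℝ)) ^ 2 :=
          pow_le_pow_left₀ (mul_nonneg hκ hc0) s1 2
      _ ≤ _ := s2
      _ ≤ _ := mul_le_mul_of_nonneg_right h2 hQ
  have e3 : ∑ p ∈ P, Real.log (N p) * (((S p).card : ℝ) ^ 2 / (ε * N p) - (S p).card) =
      (∑ p ∈ P, Real.log (N p) / N p * ((S p).card : ℝ) ^ 2) / ε -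
        ∑ p ∈ P, Real.log (N p) * ((S p).card : ℝ) := by
    rw [Finset.sum_div, ← Finset.sum_sub_distrib]
    refine Finset.sum_congr rfl fun p hp => ?_
    have h4 := (hp0 p hp).ne'
    field_simp
  have s5 : ∑ p ∈ P, Real.log (N p) * ((S p).card : ℝ) ≤ Θ * T.card := by
    calc ∑ p ∈ P, Real.log (N p) * ((S p).card : ℝ) ≤ ∑ p ∈ P, Real.log (N p) * (T.card : ℝ) :=
          Finset.sum_le_sum fun p hp => mul_le_mul_of_nonneg_left
            (by exact_mod_cast Finset.card_le_card (hS p hp)) (hl p hp)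
      _ = (∑ p ∈ P, Real.log (N p)) * T.card := by rw [Finset.sum_mul]
      _ ≤ _ := mul_le_mul_of_nonneg_right h3 hc0
  rcases eq_or_lt_of_le hc0 with h5 | h5
  · rw [← h5, zero_mul]
    exact hΘ
  · have s6 : (κ * T.card) ^ 2 / (ε * L) ≤
        (T.card : ℝ) ^ 2 * A + Θ * T.card := by
      rw [e3] at h0
      calc (κ * T.card) ^ 2 / (ε * L) ≤
            (L * ∑ p ∈ P, Real.log (N p) / N p * ((S p).card : ℝ) ^ 2) / (ε * L) :=
            div_le_div_of_nonneg_right s3 (by positivity)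
        _ = (∑ p ∈ P, Real.log (N p) / N p * ((S p).card : ℝ) ^ 2) / ε := by
            field_simp
        _ ≤ _ := by linarith
    have s7 : (T.card : ℝ) * ((T.card : ℝ) * (κ ^ 2 / (ε * L) - A)) ≤
        (T.card : ℝ) * Θ := by
      have e4 : (κ * T.card) ^ 2 / (ε * L) = (T.card : ℝ) * ((T.card : ℝ) * (κ ^ 2 / (ε * L))) := by
        ring
      rw [e4] at s6
      linarith
    exact le_of_mul_le_mul_left s7 h5

end MPadcOA
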