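import Mathlib

/-!
# Leaf G3 (Mathlib only): the Cauchy-Schwarz step and the choice of the constant
-/

set_option autoImplicit false

namespace MPadcOA

/-- PROOF. Exchange the sums: `∑_(i ∈ P) card (S i) = ∑_(t ∈ T) #{i ∈ P | t ∈ S i} ≥ κ card T`; Cauchy-Schwarz (`sq_sum_le_card_mul_sum_sq`): `(∑ card (S i)) ^ 2 ≤ card P * ∑ card (S i) ^ 2 ≤ L ∑ card (S i) ^ 2`. So
`log 2 * κ ^ 2 * (card T) ^ 2 / (B L) ≤ ∑ log 2 * card (S i) ^ 2 / B ≤ ∑ log (N i) * card (S i) ^ 2 / M i ≤ (card T) ^ 2 A + ∑ log (N i) * card (S i) ≤ (card T) ^ 2 A + Θ card T`. Divide by `card T` (if `T` is empty the claim is `0 ≤ Θ`). -/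
theorem counts_bound {α Λ : Type*} [DecidableEq α] [DecidableEq Λ] (T : Finset α) (P : Finset Λ) (N M : Λ → ℝ)
    (hN : ∀ i ∈ P, 2 ≤ N i) (hM : ∀ i ∈ P, 0 < M i) (S : Λ → Finset α) (hS : ∀ i ∈ P, S i ⊆ T)
    (A κ L Θ B : ℝ) (hκ : 0 ≤ κ) (hL : 0 < L) (hB : 0 < B)
    (h0 : ∑ i ∈ P, Real.log (N i) * (((S i).card : ℝ) ^ 2 / M i - (S i).card) ≤ (T.card : ℝ) ^ 2 * A)
    (h1 : ∀ t ∈ T, κ ≤ ((P.filter (fun i => t ∈ S i)).card : ℝ))
    (h2 : (P.card : ℝ) ≤ L) (h3 : ∑ i ∈ P, Real.log (N i) ≤ Θ) (h4 : ∀ i ∈ P, M i ≤ B) :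
    (T.card : ℝ) * (Real.log 2 * κ ^ 2 / (B * L) - A) ≤ Θ := by
  classical
  have hlog2 : 0 < Real.log 2 := Real.log_pos one_lt_two
  have hlog : ∀ i ∈ P, Real.log 2 ≤ Real.log (N i) := fun i hi => Real.log_le_log two_pos (hN i hi)
  have hΘ : 0 ≤ Θ := (Finset.sum_nonneg fun i hi => hlog2.le.trans (hlog i hi)).trans h3
  rcases T.eq_empty_or_nonempty with hT | hT
  · rw [hT, Finset.card_empty, Nat.cast_zero, zero_mul]
    exact hΘ
  obtain ⟨n, hn⟩ : ∃ n : ℝ, n = (T.card : ℝ) := ⟨_, rfl⟩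
  have hn0 : 0 < n := by
    rw [hn]
    exact_mod_cast hT.card_pos
  rw [← hn] at h0 ⊢
  obtain ⟨Q, hQ⟩ : ∃ Q : ℝ, Q = ∑ i ∈ P, ((S i).card : ℝ) ^ 2 := ⟨_, rfl⟩
  have hcard : ∀ i ∈ P, ((S i).card : ℝ) = ∑ t ∈ T, if t ∈ S i then (1 : ℝ) else 0 := by
    intro i hi
    have h : T.filter (fun t => t ∈ S i) = S i := by
      ext t
      rw [Finset.mem_filter]
      exact ⟨fun h => h.2, fun h => ⟨hS i hi h, h⟩⟩
    rw [← Finset.sum_filter, h, Finset.sum_const, nsmul_eq_mul, mul_one]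
  have e1 : κ * n ≤ ∑ i ∈ P, ((S i).card : ℝ) := by
    rw [Finset.sum_congr rfl hcard, Finset.sum_comm]
    calc κ * n = ∑ _t ∈ T, κ := by rw [Finset.sum_const, nsmul_eq_mul, hn, mul_comm]
      _ ≤ ∑ t ∈ T, ((P.filter (fun i => t ∈ S i)).card : ℝ) := Finset.sum_le_sum h1
      _ = _ := Finset.sum_congr rfl fun t _ => by
          rw [← Finset.sum_filter, Finset.sum_const, nsmul_eq_mul, mul_one]
  have e2 : (κ * n) ^ 2 ≤ L * Q := by
    have hQ0 : 0 ≤ Q := by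
      rw [hQ]
      exact Finset.sum_nonneg fun _ _ => sq_nonneg _
    calc (κ * n) ^ 2 ≤ (∑ i ∈ P, ((S i).card : ℝ)) ^ 2 :=
          pow_le_pow_left₀ (mul_nonneg hκ hn0.le) e1 2
      _ ≤ P.card * ∑ i ∈ P, ((S i).card : ℝ) ^ 2 := sq_sum_le_card_mul_sum_sq
      _ ≤ L * Q := by
          rw [← hQ]
          exact mul_le_mul_of_nonneg_right h2 hQ0
  have e3 : Real.log 2 / B * Q ≤ ∑ i ∈ P, Real.log (N i) * (((S i).card : ℝ) ^ 2 / M i) := by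
    rw [hQ, Finset.mul_sum]
    refine Finset.sum_le_sum fun i hi => ?_
    calc Real.log 2 / B * ((S i).card : ℝ) ^ 2 = Real.log 2 * (((S i).card : ℝ) ^ 2 / B) := by ring
      _ ≤ Real.log (N i) * (((S i).card : ℝ) ^ 2 / M i) :=
          mul_le_mul (hlog i hi) (div_le_div_of_nonneg_left (sq_nonneg _) (hM i hi) (h4 i hi))
            (div_nonneg (sq_nonneg _) hB.le) (hlog2.le.trans (hlog i hi))
  have e4 : ∑ i ∈ P, Real.log (N i) * ((S i).card : ℝ) ≤ n * Θ := by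
    calc ∑ i ∈ P, Real.log (N i) * ((S i).card : ℝ) ≤ ∑ i ∈ P, Real.log (N i) * n := by
          refine Finset.sum_le_sum fun i hi => ?_
          refine mul_le_mul_of_nonneg_left ?_ (hlog2.le.trans (hlog i hi))
          rw [hn]
          exact_mod_cast Finset.card_le_card (hS i hi)
      _ = n * ∑ i ∈ P, Real.log (N i) := by rw [← Finset.sum_mul, mul_comm]
      _ ≤ n * Θ := mul_le_mul_of_nonneg_left h3 hn0.le
  have e5 : ∑ i ∈ P, Real.log (N i) * (((S i).card : ℝ) ^ 2 / M i) -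
      ∑ i ∈ P, Real.log (N i) * ((S i).card : ℝ) ≤ n ^ 2 * A := by
    rw [← Finset.sum_sub_distrib]
    refine le_trans (le_of_eq (Finset.sum_congr rfl fun i _ => ?_)) h0
    ring
  have e6 : Real.log 2 / B * Q ≤ n ^ 2 * A + n * Θ := by linarith
  have e7 : Real.log 2 * κ ^ 2 / (B * L) * n ^ 2 ≤ Real.log 2 / B * Q := by
    have h : Real.log 2 * κ ^ 2 / (B * L) * n ^ 2 = Real.log 2 / B * ((κ * n) ^ 2 / L) := by
      field_simp
    rw [h]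
    refine mul_le_mul_of_nonneg_left ?_ (div_nonneg hlog2.le hB.le)
    rw [div_le_iff₀ hL, mul_comm Q L]
    exact e2
  have e8 : n * (n * (Real.log 2 * κ ^ 2 / (B * L) - A)) ≤ n * Θ := by
    have h : n * (n * (Real.log 2 * κ ^ 2 / (B * L) - A)) =
        Real.log 2 * κ ^ 2 / (B * L) * n ^ 2 - n ^ 2 * A := by ring
    rw [h]
    linarith
  exact le_of_mul_le_mul_left e8 hn0

/-- PROOF. `C = max 1 (max (1 / κ) ((max A 1) ^ (1 / κ)))`. `A ≤ ((max A 1) ^ (1 / κ)) ^ κ ≤ z ^ κ`. If `log X ≤ 1`: `z ^ κ ≥ 1`. If `log X > 1`: `z ^ κ ≥ (log X) ^ (C κ) ≥ log X` because `C κ ≥ 1` (`Real.rpow_le_rpow`, `Real.rpow_mul`, `Real.rpow_le_rpow_of_exponent_le`). -/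
theorem choose_C (κ A : ℝ) (hκ : 0 < κ) : ∃ C : ℝ, 1 ≤ C ∧ ∀ X z : ℝ, 2 ≤ X → C ≤ z →
    Real.log X ^ C ≤ z → A ≤ z ^ κ ∧ Real.log X ≤ z ^ κ := by
  obtain ⟨C, hC⟩ : ∃ C : ℝ, C = max 1 (max (1 / κ) ((max A 1) ^ (1 / κ))) := ⟨_, rfl⟩
  have h1 : 1 ≤ C := by
    rw [hC]
    exact le_max_left _ _
  have h2 : 1 / κ ≤ C := by
    rw [hC]
    exact (le_max_left _ _).trans (le_max_right _ _)
  have h3 : (max A 1) ^ (1 / κ) ≤ C := by
    rw [hC]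
    exact (le_max_right _ _).trans (le_max_right _ _)
  have hA0 : (0 : ℝ) ≤ max A 1 := zero_le_one.trans (le_max_right _ _)
  refine ⟨C, h1, fun X z hX hz hXz => ⟨?_, ?_⟩⟩
  · calc A ≤ max A 1 := le_max_left _ _
      _ = ((max A 1) ^ (1 / κ)) ^ κ := by
          rw [← Real.rpow_mul hA0, one_div_mul_cancel hκ.ne', Real.rpow_one]
      _ ≤ z ^ κ := Real.rpow_le_rpow (Real.rpow_nonneg hA0 _) (h3.trans hz) hκ.le
  · have hz1 : 1 ≤ z := h1.trans hz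
    rcases le_or_gt (Real.log X) 1 with h | h
    · exact h.trans (Real.one_le_rpow hz1 hκ.le)
    · have hl0 : 0 ≤ Real.log X := zero_le_one.trans h.le
      have h4 : 1 ≤ C * κ := by
        rw [div_le_iff₀ hκ] at h2
        exact h2
      calc Real.log X = Real.log X ^ (1 : ℝ) := (Real.rpow_one _).symm
        _ ≤ Real.log X ^ (C * κ) := Real.rpow_le_rpow_of_exponent_le h.le h4
        _ = (Real.log X ^ C) ^ κ := Real.rpow_mul hl0 _ _
        _ ≤ z ^ κ := Real.rpow_le_rpow (Real.rpow_nonneg hl0 _) hXz hκ.le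

end MPadcOA
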