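import Pool.Agent.Lib.MP_adc574_ag_OA.G1

/-!
# Leaf G5: sums over the maximal ideals
-/

set_option autoImplicit false

namespace MPadcOA

open NumberField

variable {K : Type} [Field K] [NumberField K]

private theorem G5_group (K : Type) [Field K] [NumberField K] : ∃ pr : Ideal (𝓞 K) → ℕ,
    (∀ 𝔭 : Ideal (𝓞 K), 𝔭.IsMaximal → (pr 𝔭).Prime ∧ pr 𝔭 ≤ Ideal.absNorm 𝔭) ∧
      ∀ P : Finset (Ideal (𝓞 K)), (∀ 𝔭 ∈ P, 𝔭.IsMaximal) → ∀ p : ℕ, p.Prime →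
        ∑ 𝔭 ∈ P with pr 𝔭 = p, Real.log (Ideal.absNorm 𝔭) ≤ Module.finrank ℚ K * Real.log p := by
  classical
  choose! pr h1 h2 h3 using exists_prime_mem (K := K)
  refine ⟨pr, fun 𝔭 h => ⟨h1 𝔭 h, h2 𝔭 h⟩, fun P hP p hp => ?_⟩
  refine sum_log_over _ (fun 𝔭 h => hP 𝔭 (Finset.mem_filter.1 h).1) p hp fun 𝔭 h => ?_
  rw [← (Finset.mem_filter.1 h).2]
  exact h3 𝔭 (hP 𝔭 (Finset.mem_filter.1 h).1)

private theorem G5_card (y : ℕ) (P : Finset (Ideal (𝓞 K))) (hP : ∀ 𝔭 ∈ P, 𝔭.IsMaximal ∧ Ideal.absNorm 𝔭 ≤ y) :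
    P.card ≤ Module.finrank ℚ K * y := by
  refine le_trans ?_ (nK_le (K := K) (fun _ => True) y)
  rw [nK_eq]
  refine Finset.card_le_card fun 𝔭 h => ?_
  rw [Set.Finite.mem_toFinset]
  exact ⟨(hP 𝔭 h).1, (hP 𝔭 h).2, trivial⟩

/-- PROOF. The proof of `thetaK` in `C3.lean` gives this with the explicit constant `C = n log 4`. -/
theorem thetaU (y : ℕ) (P : Finset (Ideal (𝓞 K))) (hP : ∀ 𝔭 ∈ P, 𝔭.IsMaximal ∧ Ideal.absNorm 𝔭 ≤ y) :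
    ∑ 𝔭 ∈ P, Real.log (Ideal.absNorm 𝔭) ≤ Module.finrank ℚ K * Real.log 4 * y := by
  classical
  obtain ⟨pr, h1, h2⟩ := G5_group K
  have hn : (0 : ℝ) < Module.finrank ℚ K := Nat.cast_pos.mpr Module.finrank_pos
  have hP' : ∀ 𝔭 ∈ P, 𝔭.IsMaximal := fun 𝔭 h => (hP 𝔭 h).1
  have h3 : ∀ 𝔭 ∈ P, pr 𝔭 ∈ (Finset.Icc 0 y).filter Nat.Prime := fun 𝔭 h =>
    Finset.mem_filter.2 ⟨Finset.mem_Icc.2 ⟨Nat.zero_le _, (h1 𝔭 (hP' 𝔭 h)).2.trans (hP 𝔭 h).2⟩,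
      (h1 𝔭 (hP' 𝔭 h)).1⟩
  have h4 : Chebyshev.theta (y : ℝ) = ∑ p ∈ (Finset.Icc 0 y).filter Nat.Prime, Real.log p := by
    rw [Chebyshev.theta_eq_sum_Icc, Nat.floor_natCast]
  calc ∑ 𝔭 ∈ P, Real.log (Ideal.absNorm 𝔭)
      = ∑ p ∈ (Finset.Icc 0 y).filter Nat.Prime, ∑ 𝔭 ∈ P with pr 𝔭 = p, Real.log (Ideal.absNorm 𝔭) :=
        (Finset.sum_fiberwise_of_maps_to h3 _).symm
    _ ≤ ∑ p ∈ (Finset.Icc 0 y).filter Nat.Prime, Module.finrank ℚ K * Real.log p :=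
        Finset.sum_le_sum fun p hp => h2 P hP' p (Finset.mem_filter.1 hp).2
    _ = Module.finrank ℚ K * Chebyshev.theta (y : ℝ) := by rw [h4, Finset.mul_sum]
    _ ≤ Module.finrank ℚ K * (Real.log 4 * y) :=
        mul_le_mul_of_nonneg_left (Chebyshev.theta_le_log4_mul_x (Nat.cast_nonneg y)) hn.le
    _ = Module.finrank ℚ K * Real.log 4 * y := by ring

/-- PROOF. The ideals with `N𝔭 ≤ Nat.sqrt y`: each term is at most `1`, and there are at most `n * Nat.sqrt y ≤ n y ^ (1/2) ≤ n y ^ (1 - κ / 2)` (`nK_eq`, `nK_le`). The others: `N𝔭 ≥ Nat.sqrt y + 1 ≥ y ^ (1/2)`, so the term is at most `y ^ (-κ / 2)`, and there are at most `n y`. -/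
theorem sum_rpow_le (κ : ℝ) (hκ : 0 < κ) (hκ1 : κ ≤ 1) (y : ℕ) (hy : 1 ≤ y) (P : Finset (Ideal (𝓞 K)))
    (hP : ∀ 𝔭 ∈ P, 𝔭.IsMaximal ∧ Ideal.absNorm 𝔭 ≤ y) :
    ∑ 𝔭 ∈ P, (Ideal.absNorm 𝔭 : ℝ) ^ (-κ) ≤ 2 * Module.finrank ℚ K * (y : ℝ) ^ (1 - κ / 2) := by
  classical
  have hn : (0 : ℝ) ≤ Module.finrank ℚ K := Nat.cast_nonneg _
  have hy1 : (1 : ℝ) ≤ y := by exact_mod_cast hy
  have hy0 : (0 : ℝ) < y := by linarith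
  have hN1 : ∀ 𝔭 ∈ P, (1 : ℝ) ≤ Ideal.absNorm 𝔭 := by
    intro 𝔭 h
    obtain ⟨p, hp, hpN, -⟩ := exists_prime_mem 𝔭 (hP 𝔭 h).1
    have h1 : 1 ≤ Ideal.absNorm 𝔭 := hp.one_lt.le.trans hpN
    exact_mod_cast h1
  rw [← Finset.sum_filter_add_sum_filter_not P (fun 𝔭 => Ideal.absNorm 𝔭 ≤ Nat.sqrt y)]
  have hA : ∑ 𝔭 ∈ P with Ideal.absNorm 𝔭 ≤ Nat.sqrt y, (Ideal.absNorm 𝔭 : ℝ) ^ (-κ) ≤
      Module.finrank ℚ K * (y : ℝ) ^ (1 - κ / 2) := by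
    calc ∑ 𝔭 ∈ P with Ideal.absNorm 𝔭 ≤ Nat.sqrt y, (Ideal.absNorm 𝔭 : ℝ) ^ (-κ)
        ≤ ∑ 𝔭 ∈ P with Ideal.absNorm 𝔭 ≤ Nat.sqrt y, (1 : ℝ) := by
          refine Finset.sum_le_sum fun 𝔭 h => ?_
          exact Real.rpow_le_one_of_one_le_of_nonpos (hN1 𝔭 (Finset.mem_filter.1 h).1) (by linarith)
      _ = ((P.filter fun 𝔭 => Ideal.absNorm 𝔭 ≤ Nat.sqrt y).card : ℝ) := by
          rw [Finset.sum_const, nsmul_eq_mul, mul_one]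
      _ ≤ Module.finrank ℚ K * (Nat.sqrt y : ℝ) := by
          have h := G5_card (Nat.sqrt y) (P.filter fun 𝔭 => Ideal.absNorm 𝔭 ≤ Nat.sqrt y) fun 𝔭 h =>
            ⟨(hP 𝔭 (Finset.mem_filter.1 h).1).1, (Finset.mem_filter.1 h).2⟩
          exact_mod_cast h
      _ ≤ Module.finrank ℚ K * (y : ℝ) ^ (1 - κ / 2) := by
          refine mul_le_mul_of_nonneg_left ?_ hn
          have h1 : (Nat.sqrt y : ℝ) ≤ (y : ℝ) ^ (1 / 2 : ℝ) := by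
            rw [← Real.sqrt_eq_rpow]
            exact Real.nat_sqrt_le_real_sqrt
          exact h1.trans (Real.rpow_le_rpow_of_exponent_le hy1 (by linarith))
  have hB : ∑ 𝔭 ∈ P with ¬ Ideal.absNorm 𝔭 ≤ Nat.sqrt y, (Ideal.absNorm 𝔭 : ℝ) ^ (-κ) ≤
      Module.finrank ℚ K * (y : ℝ) ^ (1 - κ / 2) := by
    calc ∑ 𝔭 ∈ P with ¬ Ideal.absNorm 𝔭 ≤ Nat.sqrt y, (Ideal.absNorm 𝔭 : ℝ) ^ (-κ)
        ≤ ∑ 𝔭 ∈ P with ¬ Ideal.absNorm 𝔭 ≤ Nat.sqrt y, (y : ℝ) ^ (-(κ / 2)) := by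
          refine Finset.sum_le_sum fun 𝔭 h => ?_
          have h1 : Nat.sqrt y < Ideal.absNorm 𝔭 := not_le.1 (Finset.mem_filter.1 h).2
          have h2 : (y : ℝ) ^ (1 / 2 : ℝ) ≤ Ideal.absNorm 𝔭 := by
            rw [← Real.sqrt_eq_rpow, Real.sqrt_le_left (Nat.cast_nonneg _)]
            have h3 : y ≤ Ideal.absNorm 𝔭 ^ 2 := by
              rw [pow_two]
              exact (Nat.sqrt_lt.1 h1).le
            exact_mod_cast h3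
          have h4 : (y : ℝ) ^ (-(κ / 2)) = ((y : ℝ) ^ (1 / 2 : ℝ)) ^ (-κ) := by
            rw [← Real.rpow_mul hy0.le]
            ring_nf
          rw [h4]
          exact Real.rpow_le_rpow_of_nonpos (Real.rpow_pos_of_pos hy0 _) h2 (by linarith)
      _ = ((P.filter fun 𝔭 => ¬ Ideal.absNorm 𝔭 ≤ Nat.sqrt y).card : ℝ) * (y : ℝ) ^ (-(κ / 2)) := by
          rw [Finset.sum_const, nsmul_eq_mul]
      _ ≤ (Module.finrank ℚ K * (y : ℝ)) * (y : ℝ) ^ (-(κ / 2)) := by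
          refine mul_le_mul_of_nonneg_right ?_ (Real.rpow_nonneg hy0.le _)
          have h := G5_card y (P.filter fun 𝔭 => ¬ Ideal.absNorm 𝔭 ≤ Nat.sqrt y) fun 𝔭 h =>
            hP 𝔭 (Finset.mem_filter.1 h).1
          exact_mod_cast h
      _ = Module.finrank ℚ K * (y : ℝ) ^ (1 - κ / 2) := by
          rw [mul_assoc]
          congr 1
          have h5 : (1 - κ / 2 : ℝ) = 1 + -(κ / 2) := by ring
          rw [h5, Real.rpow_add hy0, Real.rpow_one]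
  linarith

end MPadcOA
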