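import Pool.Agent.Lib.MP_adc574_ag_OA.CDefs

/-!
# Leaf C1: weights of sets of primes
-/

set_option autoImplicit false

namespace MPadcOA

open NumberField

variable {K : Type} [Field K] [NumberField K]

private theorem C1_nn (𝔭 : Ideal (𝓞 K)) : 0 ≤ Real.log (Ideal.absNorm 𝔭) / Ideal.absNorm 𝔭 :=
  div_nonneg (Real.log_natCast_nonneg _) (Nat.cast_nonneg _)

/-- PROOF. `Ideal.finite_setOf_absNorm_le`. -/
theorem primesK_finite (P : Ideal (𝓞 K) → Prop) (z : ℕ) :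
    {𝔭 : Ideal (𝓞 K) | 𝔭.IsMaximal ∧ Ideal.absNorm 𝔭 ≤ z ∧ P 𝔭}.Finite := by
  exact (Ideal.finite_setOfPred_absNorm_le z).subset fun 𝔭 h => h.2.1

/-- PROOF. `finsum_mem_eq_finite_toFinset_sum`, `primesK_finite`. -/
theorem wtK_eq (P : Ideal (𝓞 K) → Prop) (z : ℕ) :
    wtK K P z = ∑ 𝔭 ∈ (primesK_finite P z).toFinset, Real.log (Ideal.absNorm 𝔭) / Ideal.absNorm 𝔭 := by
  unfold wtK
  exact finsum_mem_eq_finite_toFinset_sum _ (primesK_finite P z)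

/-- PROOF. All terms are nonnegative. -/
theorem wtK_nonneg (P : Ideal (𝓞 K) → Prop) (z : ℕ) : 0 ≤ wtK K P z := by
  rw [wtK_eq]
  exact Finset.sum_nonneg fun 𝔭 _ => C1_nn 𝔭

/-- PROOF. Split the sum. -/
theorem wtK_add_not (P : Ideal (𝓞 K) → Prop) (z : ℕ) :
    wtK K P z + wtK K (fun 𝔭 => ¬ P 𝔭) z = wtK K (fun _ => True) z := by
  classical
  have h1 : (primesK_finite P z).toFinset =
      (primesK_finite (K := K) (fun _ => True) z).toFinset.filter fun 𝔭 => P 𝔭 := by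
    ext 𝔭
    simp only [Set.Finite.mem_toFinset, Set.mem_ofPred_eq, Finset.mem_filter]
    tauto
  have h2 : (primesK_finite (fun 𝔭 => ¬ P 𝔭) z).toFinset =
      (primesK_finite (K := K) (fun _ => True) z).toFinset.filter fun 𝔭 => ¬ P 𝔭 := by
    ext 𝔭
    simp only [Set.Finite.mem_toFinset, Set.mem_ofPred_eq, Finset.mem_filter]
    tauto
  rw [wtK_eq, wtK_eq, wtK_eq, h1, h2]
  exact Finset.sum_filter_add_sum_filter_not _ _ _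

/-- PROOF. All terms are nonnegative. -/
theorem wtK_mono (P Q : Ideal (𝓞 K) → Prop) (z : ℕ)
    (h : ∀ 𝔭 : Ideal (𝓞 K), 𝔭.IsMaximal → Ideal.absNorm 𝔭 ≤ z → P 𝔭 → Q 𝔭) : wtK K P z ≤ wtK K Q z := by
  rw [wtK_eq, wtK_eq]
  refine Finset.sum_le_sum_of_subset_of_nonneg ?_ fun 𝔭 _ _ => C1_nn 𝔭
  intro 𝔭 h𝔭
  rw [Set.Finite.mem_toFinset] at h𝔭 ⊢
  exact ⟨h𝔭.1, h𝔭.2.1, h 𝔭 h𝔭.1 h𝔭.2.1 h𝔭.2.2⟩

/-- PROOF. All terms are nonnegative. -/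
theorem wtK_or (P Q : Ideal (𝓞 K) → Prop) (z : ℕ) :
    wtK K (fun 𝔭 => P 𝔭 ∨ Q 𝔭) z ≤ wtK K P z + wtK K Q z := by
  classical
  rw [wtK_eq, wtK_eq, wtK_eq, ← Finset.sum_union_inter]
  have h1 : 0 ≤ ∑ 𝔭 ∈ (primesK_finite P z).toFinset ∩ (primesK_finite Q z).toFinset,
      Real.log (Ideal.absNorm 𝔭) / (Ideal.absNorm 𝔭 : ℝ) := Finset.sum_nonneg fun 𝔭 _ => C1_nn 𝔭
  have h2 : ∑ 𝔭 ∈ (primesK_finite (fun 𝔭 => P 𝔭 ∨ Q 𝔭) z).toFinset,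
      Real.log (Ideal.absNorm 𝔭) / (Ideal.absNorm 𝔭 : ℝ) ≤
      ∑ 𝔭 ∈ (primesK_finite P z).toFinset ∪ (primesK_finite Q z).toFinset,
      Real.log (Ideal.absNorm 𝔭) / (Ideal.absNorm 𝔭 : ℝ) := by
    refine Finset.sum_le_sum_of_subset_of_nonneg ?_ fun 𝔭 _ _ => C1_nn 𝔭
    intro 𝔭 h𝔭
    rw [Set.Finite.mem_toFinset] at h𝔭
    rw [Finset.mem_union, Set.Finite.mem_toFinset, Set.Finite.mem_toFinset]
    rcases h𝔭.2.2 with h | h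
    · exact Or.inl ⟨h𝔭.1, h𝔭.2.1, h⟩
    · exact Or.inr ⟨h𝔭.1, h𝔭.2.1, h⟩
  linarith

end MPadcOA
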