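import Pool.Agent.Lib.MP_adc574_ag_OA.CDefs

/-!
# Leaf C11 (Mathlib only): finiteness, residue classes
-/

set_option autoImplicit false

namespace MPadcOA

open NumberField

variable {K : Type} [Field K] [NumberField K]

private theorem C11_le_house (x : K) (σ : K →+* ℂ) : ‖σ x‖ ≤ house x := by
  rw [house_eq_sup']
  exact_mod_cast Finset.le_sup' (f := fun φ : K →+* ℂ => ‖φ x‖₊) (Finset.mem_univ σ)

/-- PROOF. `NumberField.Embeddings.finite_of_norm_le` (the elements are integral; `‖σ a‖ ≤ house a`: `house_eq_sup'`); the set is the image of a subset of a product of two such sets under `(a, b) ↦ a / b`. -/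
theorem finite_height (X : ℝ) :
    {t : K | ∃ a b : 𝓞 K, b ≠ 0 ∧ t * b = a ∧ house (a : K) ≤ X ∧ house (b : K) ≤ X}.Finite := by
  have h := NumberField.Embeddings.finite_of_norm_le K ℂ X
  refine ((h.prod h).image fun z : K × K => z.1 / z.2).subset ?_
  rintro t ⟨a, b, hb, ht, ha, hb'⟩
  refine ⟨((a : K), (b : K)), ⟨⟨RingOfIntegers.isIntegral_coe a, fun φ => (C11_le_house _ φ).trans ha⟩,
    ⟨RingOfIntegers.isIntegral_coe b, fun φ => (C11_le_house _ φ).trans hb'⟩⟩, ?_⟩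
  have hb0 : (b : K) ≠ 0 := fun h0 => hb (RingOfIntegers.coe_eq_zero_iff.1 h0)
  show (a : K) / (b : K) = t
  rw [← ht, mul_div_cancel_right₀ _ hb0]

/-- PROOF. `finite_height`-free: `𝓞 K` is not a field, so `𝔭 ≠ ⊥` (`RingOfIntegers.not_isField`), so `absNorm 𝔭 ≠ 0` and the quotient is finite (`Ideal.finiteQuotientOfFreeOfNeBot`), `absNorm 𝔭 = Nat.card (𝓞 K ⧸ 𝔭)`, and it has at least two elements. -/
theorem absNorm_facts (𝔭 : Ideal (𝓞 K)) (h : 𝔭.IsMaximal) :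
    Finite (𝓞 K ⧸ 𝔭) ∧ Ideal.absNorm 𝔭 = Nat.card (𝓞 K ⧸ 𝔭) ∧ 2 ≤ Ideal.absNorm 𝔭 := by
  have hf : Finite (𝓞 K ⧸ 𝔭) :=
    𝔭.finiteQuotientOfFreeOfNeBot (Ideal.bot_lt_of_maximal 𝔭 (RingOfIntegers.not_isField K)).ne'
  have h0 : Ideal.absNorm 𝔭 ≠ 0 := (Ideal.absNorm_ne_zero_iff 𝔭).2 hf
  have h1 : Ideal.absNorm 𝔭 ≠ 1 := fun h1 => h.ne_top (Ideal.absNorm_eq_one_iff.1 h1)
  exact ⟨hf, rfl, by omega⟩

end MPadcOA
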