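import Pool.Agent.Lib.MP_adc574_ag_OA.C2

/-!
# Leaf C2b: the primes which contain a prime number
-/

set_option autoImplicit false

namespace MPadcOA

open NumberField

variable {K : Type} [Field K] [NumberField K]

/-- PROOF. `𝔭 ∩ ℤ` is a maximal ideal `(p)`; `p = char (𝓞 K ⧸ 𝔭)` divides `card (𝓞 K ⧸ 𝔭) = absNorm 𝔭 ≠ 0`. -/
theorem exists_prime_mem (𝔭 : Ideal (𝓞 K)) (h : 𝔭.IsMaximal) :
    ∃ p : ℕ, p.Prime ∧ p ≤ Ideal.absNorm 𝔭 ∧ (p : 𝓞 K) ∈ 𝔭 := by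
  classical
  have hp𝔭 : 𝔭.IsPrime := h.isPrime
  have hbot : 𝔭 ≠ ⊥ := Ring.ne_bot_of_isMaximal_of_not_isField h (RingOfIntegers.not_isField K)
  have hN : Ideal.absNorm 𝔭 ≠ 0 := fun h1 => hbot (Ideal.absNorm_eq_zero_iff.1 h1)
  have hex : ∃ m : ℕ, 0 < m ∧ (m : 𝓞 K) ∈ 𝔭 :=
    ⟨Ideal.absNorm 𝔭, Nat.pos_of_ne_zero hN, Ideal.absNorm_mem 𝔭⟩
  obtain ⟨hpos, hmem⟩ := Nat.find_spec hex
  refine ⟨Nat.find hex, ?_, Nat.find_min' hex ⟨Nat.pos_of_ne_zero hN, Ideal.absNorm_mem 𝔭⟩, hmem⟩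
  rw [Nat.prime_def_lt]
  have h1 : Nat.find hex ≠ 1 := by
    intro h2
    rw [h2, Nat.cast_one] at hmem
    exact hp𝔭.ne_top ((Ideal.eq_top_iff_one _).2 hmem)
  refine ⟨by omega, fun m hm hdvd => ?_⟩
  obtain ⟨c, hc⟩ := hdvd
  have hm0 : 0 < m := by
    rcases Nat.eq_zero_or_pos m with h2 | h2
    · rw [h2, zero_mul] at hc
      omega
    · exact h2
  have hc0 : 0 < c := by
    rcases Nat.eq_zero_or_pos c with h2 | h2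
    · rw [h2, mul_zero] at hc
      omega
    · exact h2
  have h3 : (m : 𝓞 K) * (c : 𝓞 K) ∈ 𝔭 := by
    rw [← Nat.cast_mul, ← hc]
    exact hmem
  rcases hp𝔭.mem_or_mem h3 with h4 | h4
  · exact absurd (Nat.find_min' hex ⟨hm0, h4⟩) (by omega)
  · have h5 := Nat.find_min' hex ⟨hc0, h4⟩
    rw [hc] at h5
    have h6 : m * c ≤ 1 * c := by rw [one_mul]; exact h5
    have h7 := Nat.le_of_mul_le_mul_right h6 hc0
    omega

/-- PROOF. `sum_log_mem` with `d = p`, `absNorm (span {p}) = p ^ finrank ℚ K` (`Ideal.absNorm_span_singleton`, `Algebra.norm_natCast`-type). -/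
theorem sum_log_over (P : Finset (Ideal (𝓞 K))) (hP : ∀ 𝔭 ∈ P, 𝔭.IsMaximal) (p : ℕ) (hp : p.Prime)
    (hPd : ∀ 𝔭 ∈ P, (p : 𝓞 K) ∈ 𝔭) :
    ∑ 𝔭 ∈ P, Real.log (Ideal.absNorm 𝔭) ≤ Module.finrank ℚ K * Real.log p := by
  have hp0 : (p : 𝓞 K) ≠ 0 := Nat.cast_ne_zero.2 hp.ne_zero
  refine (sum_log_mem P hP (p : 𝓞 K) hp0 hPd).trans (le_of_eq ?_)
  have h1 : Ideal.absNorm (Ideal.span {(p : 𝓞 K)}) = p ^ Module.finrank ℚ K := by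
    rw [Ideal.absNorm_span_natCast, RingOfIntegers.rank]
  rw [h1, Nat.cast_pow, Real.log_pow]

end MPadcOA
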