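import Pool.Agent.Lib.MP_adc574_ag_OA.GDefs
import Pool.Agent.Lib.MP_adc574_ag_OA.C1
import Pool.Agent.Lib.MP_adc574_ag_OA.C2b
import Pool.Agent.Lib.MP_adc574_ag_OA.C11

/-!
# Leaf G1: numbers of maximal ideals
-/

set_option autoImplicit false

namespace MPadcOA

open NumberField

variable {K : Type} [Field K] [NumberField K]

/-- PROOF. `Set.ncard_eq_toFinset_card`. -/
theorem nK_eq (P : Ideal (𝓞 K) → Prop) (y : ℕ) :
    nK K P y = (primesK_finite P y).toFinset.card := by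
  rw [nK, Set.ncard_eq_toFinset_card _ (primesK_finite P y)]

/-- PROOF. `Set.ncard_le_ncard`, `primesK_finite`. -/
theorem nK_mono (P Q : Ideal (𝓞 K) → Prop) (y y' : ℕ) (hy : y ≤ y')
    (h : ∀ 𝔭 : Ideal (𝓞 K), 𝔭.IsMaximal → Ideal.absNorm 𝔭 ≤ y → P 𝔭 → Q 𝔭) : nK K P y ≤ nK K Q y' := by
  refine Set.ncard_le_ncard ?_ (primesK_finite Q y')
  rintro 𝔭 ⟨h1, h2, h3⟩
  exact ⟨h1, h2.trans hy, h 𝔭 h1 h2 h3⟩

/-- PROOF. `Set.ncard_union_le`. -/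
theorem nK_or (P Q : Ideal (𝓞 K) → Prop) (y : ℕ) :
    nK K (fun 𝔭 => P 𝔭 ∨ Q 𝔭) y ≤ nK K P y + nK K Q y := by
  refine le_trans (Set.ncard_le_ncard ?_ ((primesK_finite P y).union (primesK_finite Q y))) (Set.ncard_union_le _ _)
  rintro 𝔭 ⟨h1, h2, h3⟩
  rcases h3 with h3 | h3
  · exact Or.inl ⟨h1, h2, h3⟩
  · exact Or.inr ⟨h1, h2, h3⟩

/-- PROOF. `sum_log_over` for the single ideal: `log N𝔭 ≤ n log p`. -/
theorem absNorm_le_pow (𝔭 : Ideal (𝓞 K)) (h : 𝔭.IsMaximal) (p : ℕ) (hp : p.Prime) (hmem : (p : 𝓞 K) ∈ 𝔭) :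
    Ideal.absNorm 𝔭 ≤ p ^ Module.finrank ℚ K := by
  have h1 := sum_log_over {𝔭} (fun 𝔮 h𝔮 => by rw [Finset.mem_singleton.1 h𝔮]; exact h) p hp
    (fun 𝔮 h𝔮 => by rw [Finset.mem_singleton.1 h𝔮]; exact hmem)
  rw [Finset.sum_singleton] at h1
  have h2 : (0 : ℝ) < Ideal.absNorm 𝔭 := by
    have h3 := (absNorm_facts 𝔭 h).2.2
    have h4 : 0 < Ideal.absNorm 𝔭 := by omega
    exact_mod_cast h4
  have h3 : (0 : ℝ) < p := by exact_mod_cast hp.pos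
  have h4 : Real.log (Ideal.absNorm 𝔭) ≤ Real.log ((p : ℝ) ^ Module.finrank ℚ K) := by
    rw [Real.log_pow]
    exact h1
  have h5 : (Ideal.absNorm 𝔭 : ℝ) ≤ (p : ℝ) ^ Module.finrank ℚ K := (Real.log_le_log_iff h2 (pow_pos h3 _)).1 h4
  exact_mod_cast h5

/-- PROOF. Each `𝔭` contains a prime number `p ≤ N𝔭 ≤ y` (`exists_prime_mem`); for each `p` at most `n = finrank` ideals: `sum_log_over` gives `#P * log p ≤ ∑ log N𝔭 ≤ n log p` (`N𝔭 ≥ p`). Group by `p` (`Finset.card_eq_sum_card_fiberwise`); there are at most `y` prime numbers `p ≤ y`. -/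
theorem nK_le (P : Ideal (𝓞 K) → Prop) (y : ℕ) : nK K P y ≤ Module.finrank ℚ K * y := by
  classical
  rw [nK_eq]
  have hex : ∀ 𝔭 : Ideal (𝓞 K), ∃ p : ℕ, 𝔭.IsMaximal → (p.Prime ∧ p ≤ Ideal.absNorm 𝔭 ∧ (p : 𝓞 K) ∈ 𝔭) := by
    intro 𝔭
    by_cases h : 𝔭.IsMaximal
    · obtain ⟨p, hp⟩ := exists_prime_mem 𝔭 h
      exact ⟨p, fun _ => hp⟩
    · exact ⟨0, fun h' => absurd h' h⟩
  choose f hf using hex
  have hmem : ∀ 𝔭 ∈ (primesK_finite P y).toFinset, 𝔭.IsMaximal ∧ Ideal.absNorm 𝔭 ≤ y := by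
    intro 𝔭 h𝔭
    rw [Set.Finite.mem_toFinset] at h𝔭
    exact ⟨h𝔭.1, h𝔭.2.1⟩
  have hmaps : ∀ 𝔭 ∈ (primesK_finite P y).toFinset, f 𝔭 ∈ (Finset.Icc 1 y).filter Nat.Prime := by
    intro 𝔭 h𝔭
    obtain ⟨h1, h2⟩ := hmem 𝔭 h𝔭
    obtain ⟨h3, h4, h5⟩ := hf 𝔭 h1
    rw [Finset.mem_filter, Finset.mem_Icc]
    exact ⟨⟨h3.pos, h4.trans h2⟩, h3⟩
  rw [Finset.card_eq_sum_card_fiberwise hmaps]
  have hfib : ∀ p ∈ (Finset.Icc 1 y).filter Nat.Prime,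
      ((primesK_finite P y).toFinset.filter fun 𝔭 => f 𝔭 = p).card ≤ Module.finrank ℚ K := by
    intro p hp
    rw [Finset.mem_filter, Finset.mem_Icc] at hp
    have h1 := sum_log_over ((primesK_finite P y).toFinset.filter fun 𝔭 => f 𝔭 = p)
      (fun 𝔭 h𝔭 => (hmem 𝔭 (Finset.mem_filter.1 h𝔭).1).1) p hp.2
      (fun 𝔭 h𝔭 => by
        obtain ⟨h2, h3⟩ := Finset.mem_filter.1 h𝔭
        rw [← h3]
        exact (hf 𝔭 (hmem 𝔭 h2).1).2.2)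
    have h2 : ∀ 𝔭 ∈ (primesK_finite P y).toFinset.filter fun 𝔭 => f 𝔭 = p,
        Real.log p ≤ Real.log (Ideal.absNorm 𝔭) := by
      intro 𝔭 h𝔭
      obtain ⟨h2, h3⟩ := Finset.mem_filter.1 h𝔭
      refine Real.log_le_log (by exact_mod_cast hp.2.pos) ?_
      rw [← h3]
      exact_mod_cast (hf 𝔭 (hmem 𝔭 h2).1).2.1
    have h3 := (Finset.card_nsmul_le_sum _ _ _ h2).trans h1
    rw [nsmul_eq_mul] at h3
    have h4 : 0 < Real.log p := Real.log_pos (by exact_mod_cast hp.2.one_lt)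
    have h5 := le_of_mul_le_mul_right h3 h4
    exact_mod_cast h5
  calc ∑ p ∈ (Finset.Icc 1 y).filter Nat.Prime, ((primesK_finite P y).toFinset.filter fun 𝔭 => f 𝔭 = p).card
      ≤ ∑ _p ∈ (Finset.Icc 1 y).filter Nat.Prime, Module.finrank ℚ K := Finset.sum_le_sum hfib
    _ = ((Finset.Icc 1 y).filter Nat.Prime).card * Module.finrank ℚ K := by rw [Finset.sum_const, smul_eq_mul]
    _ ≤ y * Module.finrank ℚ K := by
        refine Nat.mul_le_mul_right _ ((Finset.card_filter_le _ _).trans ?_)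
        rw [Nat.card_Icc, Nat.add_sub_cancel]
    _ = _ := mul_comm _ _

/-- PROOF. `sum_log_mem`, `log N𝔭 ≥ log 2` (`absNorm_facts`). -/
theorem nK_mem (d : 𝓞 K) (hd : d ≠ 0) (y : ℕ) :
    (nK K (fun 𝔭 => d ∈ 𝔭) y : ℝ) * Real.log 2 ≤ Real.log (Ideal.absNorm (Ideal.span {d})) := by
  rw [nK_eq]
  have h1 := sum_log_mem (primesK_finite (K := K) (fun 𝔭 => d ∈ 𝔭) y).toFinset
    (fun 𝔭 h𝔭 => ((Set.Finite.mem_toFinset _).1 h𝔭).1) d hd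
    (fun 𝔭 h𝔭 => ((Set.Finite.mem_toFinset _).1 h𝔭).2.2)
  refine le_trans ?_ h1
  rw [← nsmul_eq_mul]
  refine Finset.card_nsmul_le_sum _ _ _ fun 𝔭 h𝔭 => ?_
  have h2 := (absNorm_facts 𝔭 ((Set.Finite.mem_toFinset _).1 h𝔭).1).2.2
  refine Real.log_le_log (by norm_num) ?_
  exact_mod_cast h2

end MPadcOA
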