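import Pool.Agent.Lib.MP_adc574_ag_CC.PDefs

/-!
# Theorem A (adc574), leaf O4: the Hasse-Witt determinant is invariant under translations

`hw p (g + 1) G i j = G.coeff (p (i + 1) - (j + 1))`, `i, j : Fin g` (no truncation, `g < p`), it is the coefficient of `X ^ (p (i + 1) - 1)` in
`X ^ j * G`.

(1) `coeff_translate`: Lucas. `taylor a Q = Q.comp (X + C a)` (`Polynomial.taylor_apply`), `(taylor a Q).coeff N = (hasseDeriv N Q).eval a`
(`taylor_coeff`), `hasseDeriv_coeff`: `= ∑ m, (m + N).choose N * Q.coeff (m + N) * a ^ m`, `N = p * i + (p - 1)`; by `Choose.choose_modEq_choose_mod_mul_choose_div_nat`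
the binomial coefficient is `(l + i).choose i` mod `p` if `m = p * l` and `0` if `¬ p ∣ m` (`(m + N) % p < p - 1 = N % p`).

(2) `det_hw_comp`: `X ^ j = ∑ l ≤ j, j.choose l * (-a) ^ (j - l) * (X + a) ^ l`, so with `Q = X ^ l * G` (degree `≤ (g + 1) (p - 1) + g - 1 < p (g + 1) - 1`)
`hw (G ∘ (X + a)) = A * hw G * B`, `A i i' = i'.choose i * a ^ (p (i' - i))` (zero for `i' < i`), `B l j = j.choose l * (-a) ^ (j - l)` (zero for `j < l`), both
upper triangular with `1` on the diagonal (`Matrix.det_of_upperTriangular`).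
-/

set_option autoImplicit false

namespace MPadcOA

open Polynomial Matrix MPadcCC

private theorem O4a_comp {k : Type*} [Field k] (a : k) (Q : k[X]) (T N : ℕ) (hT : Q.natDegree < T) :
    (Q.comp (X + C a)).coeff N = ∑ t ∈ Finset.range T, Q.coeff t * (a ^ (t - N) * (t.choose N : k)) := by
  rw [Polynomial.comp, eval₂_eq_sum_range' C hT, finsetSum_coeff]
  refine Finset.sum_congr rfl fun t _ => ?_
  rw [coeff_C_mul, coeff_X_add_C_pow]

private theorem O4a_zero {k : Type*} [Field k] {p : ℕ} [Fact p.Prime] [CharP k p] (i t : ℕ) (ht : t % p ≠ p - 1) :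
    ((t.choose (p * (i + 1) - 1) : ℕ) : k) = 0 := by
  have hp : 0 < p := (Fact.out : p.Prime).pos
  have hN : p * (i + 1) - 1 = p * i + (p - 1) := by
    rw [mul_add, mul_one]
    omega
  have h1 := Choose.choose_modEq_choose_mod_mul_choose_div_nat (n := t) (k := p * (i + 1) - 1) (p := p)
  have h2 : (p * (i + 1) - 1) % p = p - 1 := by
    rw [hN, Nat.mul_add_mod]
    exact Nat.mod_eq_of_lt (by omega)
  rw [h2, Nat.choose_eq_zero_of_lt (lt_of_le_of_ne (Nat.le_sub_one_of_lt (Nat.mod_lt t hp)) ht), zero_mul] at h1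
  have h3 := (CharP.natCast_eq_natCast k p).2 h1
  rw [h3, Nat.cast_zero]

private theorem O4a_one {k : Type*} [Field k] {p : ℕ} [Fact p.Prime] [CharP k p] (i i' : ℕ) :
    (((p * (i' + 1) - 1).choose (p * (i + 1) - 1) : ℕ) : k) = (i'.choose i : k) := by
  have hp : 0 < p := (Fact.out : p.Prime).pos
  have hN : ∀ i : ℕ, p * (i + 1) - 1 = p * i + (p - 1) := by
    intro i
    rw [mul_add, mul_one]
    omega
  have h1 := Choose.choose_modEq_choose_mod_mul_choose_div_nat (n := p * (i' + 1) - 1) (k := p * (i + 1) - 1) (p := p)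
  have h2 : ∀ i : ℕ, (p * (i + 1) - 1) % p = p - 1 := by
    intro i
    rw [hN, Nat.mul_add_mod]
    exact Nat.mod_eq_of_lt (by omega)
  have h4 : ∀ i : ℕ, (p * (i + 1) - 1) / p = i := by
    intro i
    rw [hN, Nat.mul_add_div hp, Nat.div_eq_of_lt (by omega), add_zero]
  rw [h2, h2, h4, h4, Nat.choose_self, one_mul] at h1
  exact (CharP.natCast_eq_natCast k p).2 h1

theorem coeff_translate {k : Type*} [Field k] {p : ℕ} [Fact p.Prime] [CharP k p] (g : ℕ) (a : k) (Q : k[X])
    (hQ : Q.natDegree < p * (g + 1) - 1) (i : ℕ) (hi : i < g) :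
    (Q.comp (X + C a)).coeff (p * (i + 1) - 1) =
      ∑ i' : Fin g, ((i' : ℕ).choose i : k) * a ^ (p * ((i' : ℕ) - i)) * Q.coeff (p * ((i' : ℕ) + 1) - 1) := by
  classical
  have hp : 0 < p := (Fact.out : p.Prime).pos
  rw [O4a_comp a Q (p * (g + 1) - 1) (p * (i + 1) - 1) hQ]
  have hinj : Function.Injective fun i' : Fin g => p * ((i' : ℕ) + 1) - 1 := by
    intro x y h
    have h1 : p * ((x : ℕ) + 1) - 1 = p * ((y : ℕ) + 1) - 1 := h
    have h2 : 0 < p * ((x : ℕ) + 1) := by positivity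
    have h3 : 0 < p * ((y : ℕ) + 1) := by positivity
    have h4 : p * ((x : ℕ) + 1) = p * ((y : ℕ) + 1) := by omega
    have h5 := Nat.eq_of_mul_eq_mul_left hp h4
    exact Fin.ext (by omega)
  have h1 : ∑ t ∈ Finset.range (p * (g + 1) - 1), Q.coeff t * (a ^ (t - (p * (i + 1) - 1)) * (t.choose (p * (i + 1) - 1) : k)) =
      ∑ t ∈ Finset.univ.image (fun i' : Fin g => p * ((i' : ℕ) + 1) - 1),
        Q.coeff t * (a ^ (t - (p * (i + 1) - 1)) * (t.choose (p * (i + 1) - 1) : k)) := by
    symm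
    refine Finset.sum_subset ?_ ?_
    · intro t ht
      obtain ⟨i', -, rfl⟩ := Finset.mem_image.1 ht
      rw [Finset.mem_range]
      have h2 : (i' : ℕ) + 1 < g + 1 := by
        have := i'.2
        omega
      have h3 : p * ((i' : ℕ) + 1) < p * (g + 1) := Nat.mul_lt_mul_of_pos_left h2 hp
      have h4 : 0 < p * ((i' : ℕ) + 1) := by positivity
      omega
    · intro t ht hn
      rw [Finset.mem_range] at ht
      have hmod : t % p ≠ p - 1 := by
        intro h2
        apply hn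
        have h3 := Nat.div_add_mod t p
        rw [h2] at h3
        have h4 : p * (t / p + 1) = t + 1 := by
          rw [mul_add, mul_one]
          omega
        have h5 : p * (t / p + 1) < p * (g + 1) := by omega
        have h6 : t / p + 1 < g + 1 := Nat.lt_of_mul_lt_mul_left h5
        refine Finset.mem_image.2 ⟨⟨t / p, by omega⟩, Finset.mem_univ _, ?_⟩
        show p * (t / p + 1) - 1 = t
        omega
      rw [O4a_zero i t hmod, mul_zero, mul_zero]
  rw [h1, Finset.sum_image fun x _ y _ h => hinj h]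
  refine Finset.sum_congr rfl fun i' _ => ?_
  rw [O4a_one]
  by_cases hii : (i' : ℕ) < i
  · rw [Nat.choose_eq_zero_of_lt hii, Nat.cast_zero, mul_zero, mul_zero, zero_mul, zero_mul]
  · have h2 : p * ((i' : ℕ) + 1) - 1 - (p * (i + 1) - 1) = p * ((i' : ℕ) - i) := by
      obtain ⟨d, hd⟩ := Nat.exists_eq_add_of_le (not_lt.1 hii)
      rw [hd, Nat.add_sub_cancel_left]
      have h3 : p * (i + d + 1) = p * (i + 1) + p * d := by ring
      have h4 : 0 < p * (i + 1) := by positivity
      omega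
    rw [h2]
    ring

private theorem O4b_upper {k : Type*} [Field k] {n : ℕ} (A : Matrix (Fin n) (Fin n) k)
    (h0 : ∀ i j, j < i → A i j = 0) (h1 : ∀ i, A i i = 1) : A.det = 1 := by
  rw [Matrix.det_of_upperTriangular (fun i j h => h0 i j h)]
  exact Finset.prod_eq_one fun i _ => h1 i

private theorem O4b_entry {k : Type*} [Field k] {p : ℕ} (g : ℕ) (hg : g < p) (G : k[X])
    (i j : Fin g) :
    G.coeff (p * (i.1 + 1) - (j.1 + 1)) = (X ^ j.1 * G).coeff (p * (i.1 + 1) - 1) := by
  have h1 : p ≤ p * (i.1 + 1) := Nat.le_mul_of_pos_right p (Nat.succ_pos _)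
  have h2 := j.2
  rw [Polynomial.coeff_X_pow_mul', if_pos (by omega)]
  congr 1
  omega

private theorem O4b_binom {k : Type*} [Field k] (g : ℕ) (a : k) (G : k[X]) (j : Fin g) (N : ℕ) :
    ((X - C a) ^ j.1 * G).coeff N =
      ∑ l : Fin g, (X ^ l.1 * G).coeff N * (((j : ℕ).choose l : k) * (-a) ^ ((j : ℕ) - l)) := by
  have h1 : ∑ l : Fin g, (X ^ l.1 * G).coeff N *
      (((j : ℕ).choose l : k) * (-a) ^ ((j : ℕ) - l)) =
      ∑ l ∈ Finset.range g, (X ^ l * G).coeff N *
        (((j : ℕ).choose l : k) * (-a) ^ ((j : ℕ) - l)) :=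
    Fin.sum_univ_eq_sum_range (fun l => (X ^ l * G).coeff N *
      (((j : ℕ).choose l : k) * (-a) ^ ((j : ℕ) - l))) g
  have h2 : ∑ l ∈ Finset.range (j.1 + 1), (X ^ l * G).coeff N *
      (((j : ℕ).choose l : k) * (-a) ^ ((j : ℕ) - l)) =
      ∑ l ∈ Finset.range g, (X ^ l * G).coeff N *
        (((j : ℕ).choose l : k) * (-a) ^ ((j : ℕ) - l)) := by
    refine Finset.sum_subset (fun l hl => ?_) fun l _ hl => ?_
    · rw [Finset.mem_range] at hl ⊢
      exact lt_of_lt_of_le hl j.2
    · rw [Finset.mem_range, not_lt] at hl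
      rw [Nat.choose_eq_zero_of_lt (by omega), Nat.cast_zero, zero_mul, mul_zero]
  rw [h1, ← h2, sub_eq_add_neg, add_pow, Finset.sum_mul, finsetSum_coeff]
  refine Finset.sum_congr rfl fun l _ => ?_
  have h3 : X ^ l * (-C a) ^ (j.1 - l) * ((j.1.choose l : ℕ) : k[X]) * G =
      C (((j : ℕ).choose l : k) * (-a) ^ ((j : ℕ) - l)) * (X ^ l * G) := by
    rw [C_mul, C_pow, C_neg, ← C_eq_natCast]
    ring
  rw [h3, coeff_C_mul, mul_comm]

theorem det_hw_comp {k : Type*} [Field k] {p : ℕ} [Fact p.Prime] [CharP k p] (g : ℕ) (hg : g < p) (a : k)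
    (G : k[X]) (hG : G.natDegree ≤ (g + 1) * (p - 1)) :
    (hw p (g + 1) (G.comp (X + C a))).det = (hw p (g + 1) G).det := by
  classical
  let M : k[X] → Matrix (Fin g) (Fin g) k :=
    fun Q i j => (X ^ j.1 * Q).coeff (p * (i.1 + 1) - 1)
  let A : Matrix (Fin g) (Fin g) k :=
    fun i i' => ((i' : ℕ).choose i : k) * a ^ (p * ((i' : ℕ) - i))
  let B : Matrix (Fin g) (Fin g) k :=
    fun l j => ((j : ℕ).choose l : k) * (-a) ^ ((j : ℕ) - l)
  have hM : ∀ Q : k[X], (hw p (g + 1) Q).det = (M Q).det := by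
    intro Q
    have h : (hw p (g + 1) Q : Matrix (Fin g) (Fin g) k) = M Q := by
      funext i j
      exact O4b_entry g hg Q i j
    exact congrArg Matrix.det h
  have hA : A.det = 1 := by
    refine O4b_upper A (fun i j h => ?_) fun i => ?_
    · show ((j : ℕ).choose i : k) * a ^ (p * ((j : ℕ) - i)) = 0
      rw [Nat.choose_eq_zero_of_lt (Fin.lt_def.1 h), Nat.cast_zero, zero_mul]
    · show ((i : ℕ).choose i : k) * a ^ (p * ((i : ℕ) - i)) = 1
      rw [Nat.choose_self, Nat.cast_one, one_mul, Nat.sub_self, mul_zero, pow_zero]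
  have hB : B.det = 1 := by
    refine O4b_upper B (fun i j h => ?_) fun i => ?_
    · show ((j : ℕ).choose i : k) * (-a) ^ ((j : ℕ) - i) = 0
      rw [Nat.choose_eq_zero_of_lt (Fin.lt_def.1 h), Nat.cast_zero, zero_mul]
    · show ((i : ℕ).choose i : k) * (-a) ^ ((i : ℕ) - i) = 1
      rw [Nat.choose_self, Nat.cast_one, one_mul, Nat.sub_self, pow_zero]
  have key : M (G.comp (X + C a)) = A * (M G * B) := by
    funext i j
    have h1 : X ^ j.1 * G.comp (X + C a) = ((X - C a) ^ j.1 * G).comp (X + C a) := by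
      rw [mul_comp, pow_comp, sub_comp, X_comp, C_comp, add_sub_cancel_right]
    have h2 : ((X - C a) ^ j.1 * G).natDegree < p * (g + 1) - 1 := by
      have h3 : ((X - C a) ^ j.1 * G).natDegree ≤ j.1 + (g + 1) * (p - 1) := by
        refine natDegree_mul_le.trans (add_le_add ?_ hG)
        refine natDegree_pow_le.trans ?_
        rw [natDegree_X_sub_C, mul_one]
      have h4 : (g + 1) * (p - 1) + (g + 1) = p * (g + 1) := by
        obtain ⟨q, rfl⟩ : ∃ q, p = q + 1 := ⟨p - 1, by omega⟩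
        rw [Nat.add_sub_cancel]
        ring
      have h5 := j.2
      omega
    show (X ^ j.1 * G.comp (X + C a)).coeff (p * (i.1 + 1) - 1) = _
    rw [h1, coeff_translate g a _ h2 i.1 i.2, Matrix.mul_apply]
    refine Finset.sum_congr rfl fun i' _ => ?_
    rw [Matrix.mul_apply, O4b_binom g a G j]
  rw [hM, hM, key, Matrix.det_mul, Matrix.det_mul, hA, hB, one_mul, mul_one]

end MPadcOA
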