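import Pool.Agent.Lib.MP_adc574_ag_OA.Act

/-!
# Theorem A (adc574), leaf S3: multiplicities

`pow_dvd_of_dd`: let `ν` be the multiplicity of `τ` in `P ≠ 0`, `P = (X - τ) ^ ν * Q`, `Q(τ) ≠ 0`. By induction on `e ≤ ν`:
`(Δ ∂) ^ e P = (X - τ) ^ (ν - e) * Q_e` with `Q_e(τ) = ν (ν - 1) .. (ν - e + 1) * Δ(τ) ^ e * Q(τ)`
(`dd Δ ((X - τ) ^ (n + 1) * Q) = (X - τ) ^ n * (Δ * ((n + 1) * Q + (X - τ) * Q'))`). If `ν < M ≤ p` then for `e = ν` the value at `τ` is
`ν! * Δ(τ) ^ ν * Q(τ) ≠ 0`: contradiction with `h ν`. So `M ≤ ν` (for `P = 0` there is nothing to prove).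

`card_mul_le`: the powers `(X - τ) ^ M` are pairwise coprime, so their product divides `P` (`Finset.prod_dvd_of_coprime`,
`pairwise_coprime_X_sub_C`), `natDegree_le_of_dvd`.
-/

set_option autoImplicit false

namespace MPadcOA

open Polynomial Matrix

private theorem S3_val {k : Type*} [Field k] (Δ : k[X]) (τ : k) (n : ℕ) :
    ∀ Q : k[X], ((dd Δ)^[n] ((X - C τ) ^ n * Q)).eval τ = (n.factorial : k) * Δ.eval τ ^ n * Q.eval τ := by
  induction n with
  | zero =>
    intro Q
    simp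
  | succ n ih =>
    intro Q
    have h : dd Δ ((X - C τ) ^ (n + 1) * Q) =
        (X - C τ) ^ n * (Δ * (((n : k[X]) + 1) * Q + (X - C τ) * derivative Q)) := by
      simp only [dd]
      rw [derivative_mul, derivative_X_sub_C_pow]
      simp only [Nat.add_sub_cancel, Nat.cast_add, Nat.cast_one, map_add, map_natCast, map_one]
      ring
    rw [Function.iterate_succ_apply, h, ih]
    simp only [eval_mul, eval_add, eval_sub, eval_X, eval_C, sub_self, zero_mul, add_zero, eval_natCast, eval_one,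
      Nat.factorial_succ]
    push_cast
    ring

theorem pow_dvd_of_dd {k : Type*} [Field k] {p : ℕ} [Fact p.Prime] [CharP k p] (Δ P : k[X]) (τ : k)
    (hΔ : Δ.eval τ ≠ 0) (M : ℕ) (hM : M ≤ p) (h : ∀ e < M, ((dd Δ)^[e] P).eval τ = 0) :
    (X - C τ) ^ M ∣ P := by
  have key : ∀ n ≤ M, (X - C τ) ^ n ∣ P := by
    intro n
    induction n with
    | zero =>
      intro _
      simp
    | succ n ih =>
      intro hn
      obtain ⟨Q, hQ⟩ := ih (by omega)
      have h1 := h n (by omega)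
      rw [hQ, S3_val] at h1
      have h2 : (n.factorial : k) ≠ 0 := by
        rw [Ne, CharP.cast_eq_zero_iff k p, (Fact.out : p.Prime).dvd_factorial]
        omega
      have h3 : Q.eval τ = 0 := by
        rcases mul_eq_zero.1 h1 with h4 | h4
        · exact absurd h4 (mul_ne_zero h2 (pow_ne_zero _ hΔ))
        · exact h4
      obtain ⟨R, hR⟩ := dvd_iff_isRoot.2 h3
      refine ⟨R, ?_⟩
      rw [hQ, hR]
      ring
  exact key M le_rfl

theorem card_mul_le {k : Type*} [Field k] (P : k[X]) (hP : P ≠ 0) (Z : Finset k) (M : ℕ)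
    (h : ∀ τ ∈ Z, (X - C τ) ^ M ∣ P) : Z.card * M ≤ P.natDegree := by
  have h1 : ∏ τ ∈ Z, (X - C τ) ^ M ∣ P := by
    refine Finset.prod_dvd_of_coprime ?_ h
    intro a _ b _ hab
    exact (pairwise_coprime_X_sub_C (K := k) (s := id) Function.injective_id hab).pow
  have h2 := natDegree_le_of_dvd h1 hP
  have h3 : (∏ τ ∈ Z, (X - C τ) ^ M).natDegree = Z.card * M := by
    rw [natDegree_prod_of_monic _ _ fun τ _ => (monic_X_sub_C τ).pow M]
    simp [natDegree_pow]
  rw [← h3]
  exact h2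

end MPadcOA
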