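import Pool.Agent.Lib.MP_adc574_ag_OA.Dim

/-!
# Theorem A (adc574), leaf S6: polynomial growth of the dimension

Every entry of the generic frame `(a | a y)` has total degree at most `2` (`MvPolynomial.totalDegree_X`, `totalDegree_mul`,
`totalDegree_finset_sum_le`), so `evg φ` has total degree at most `2 m`, hence `degreeOf i ≤ 2 m` for every variable `i`
(`MvPolynomial.degreeOf_le_totalDegree`): the range is contained in the span of the monomials with all exponents `≤ 2 m`, which are at most
`(2 m + 1) ^ (number of variables)` many (`MvPolynomial.restrictDegree`, its basis, or: the linear map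
`p ↦ (fun e : (variables → Fin (2 m + 1)) => coeff (the exponent e) p)` is injective on this range, so
`finrank ≤ finrank (functions) = (2 m + 1) ^ card`).
-/

set_option autoImplicit false

namespace MPadcOA

open Polynomial Matrix

private theorem S6_genU (g : ℕ) (k : Type*) [Field k] (i : Fin g) (l : Nx g) :
    (genU g k i l).totalDegree ≤ 2 := by
  rcases l with l | l
  · show (MvPolynomial.X (Sum.inl (i, l)) : GenR g k).totalDegree ≤ 2
    rw [MvPolynomial.totalDegree_X]
    exact Nat.le_succ 1
  · show ((genA g k * genY g k) i l).totalDegree ≤ 2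
    rw [Matrix.mul_apply]
    refine MvPolynomial.totalDegree_finsetSum_le fun c _ => ?_
    refine (MvPolynomial.totalDegree_mul _ _).trans ?_
    show (MvPolynomial.X (Sum.inl (i, c)) : GenR g k).totalDegree +
      (MvPolynomial.X (Sum.inr s(c, l)) : GenR g k).totalDegree ≤ 2
    rw [MvPolynomial.totalDegree_X, MvPolynomial.totalDegree_X]

private theorem S6_evg (g m : ℕ) (k : Type*) [Field k] (φ : Kx g m → k) :
    (evg g m k φ).totalDegree ≤ 2 * m := by
  rw [evg_apply, ev]
  refine MvPolynomial.totalDegree_finsetSum_le fun s _ => ?_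
  refine (MvPolynomial.totalDegree_mul _ _).trans ?_
  rw [MvPolynomial.totalDegree_C, zero_add]
  refine (MvPolynomial.totalDegree_finsetProd _ _).trans ?_
  refine (Finset.sum_le_sum fun i _ => S6_genU g k (s i).1 (s i).2).trans ?_
  rw [Finset.sum_const, Finset.card_univ, Fintype.card_fin, smul_eq_mul, mul_comm]

theorem sdim_le (g m : ℕ) (k : Type*) [Field k] :
    sdim g m k ≤ (2 * m + 1) ^ Fintype.card ((Fin g × Fin g) ⊕ Sym2 (Fin g)) := by
  classical
  let c : GenR g k →ₗ[k] (((Fin g × Fin g) ⊕ Sym2 (Fin g)) → Fin (2 * m + 1)) → k :=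
    { toFun := fun p e => MvPolynomial.coeff (Finsupp.equivFunOnFinite.symm fun i => (e i : ℕ)) p
      map_add' := fun p q => by
        funext e
        exact MvPolynomial.coeff_add _ _ _
      map_smul' := fun a p => by
        funext e
        exact MvPolynomial.coeff_smul _ _ _ }
  have hinj : Function.Injective (c.comp (SS g m k).subtype) := by
    refine (injective_iff_map_eq_zero _).mpr ?_
    rintro ⟨p, φ, rfl⟩ hp
    refine Subtype.ext ?_
    show evg g m k φ = 0
    ext d
    rw [MvPolynomial.coeff_zero]
    by_cases hd : ∀ i, d i ≤ 2 * m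
    · have h1 := congrFun hp fun i => ⟨d i, Nat.lt_succ_of_le (hd i)⟩
      have h2 : (Finsupp.equivFunOnFinite.symm fun i => d i) = d := Finsupp.equivFunOnFinite.symm_apply_apply d
      rw [← h2]
      exact h1
    · push Not at hd
      obtain ⟨i, hi⟩ := hd
      refine MvPolynomial.coeff_eq_zero_of_totalDegree_lt ?_
      refine lt_of_le_of_lt (S6_evg g m k φ) (lt_of_lt_of_le hi ?_)
      refine Finset.single_le_sum (f := fun i => d i) (fun _ _ => Nat.zero_le _) ?_
      rw [Finsupp.mem_support_iff]
      omega
  have h1 := LinearMap.finrank_le_finrank_of_injective hinj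
  rw [Module.finrank_fintype_fun_eq_card, Fintype.card_fun, Fintype.card_fin] at h1
  exact h1

end MPadcOA
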