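import Mathlib

/-!
# Theorem A (adc574), leaf S7: a sequence of polynomial growth has small relative increments

Let `0 < δ < 1`. If `σ j - σ (j - 1) > δ σ j` for all `1 ≤ j ≤ J` then `σ j ≥ σ (j - 1) / (1 - δ)`, so `σ J ≥ (1 / (1 - δ)) ^ J`; an exponential beats
a polynomial (`tendsto_pow_const_div_const_pow_of_one_lt`), so for `J` large (in terms of `δ`, `g`, `N`) this is larger than
`(2 g J + 1) ^ N`.
-/

set_option autoImplicit false

namespace MPadcOA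

private theorem S7_large (g N : ℕ) (r : ℝ) (hr : 1 < r) : ∃ J : ℕ, ((2 * ((g : ℝ) * (J : ℝ)) + 1) ^ N : ℝ) < r ^ J := by
  have h1 := tendsto_pow_const_div_const_pow_of_one_lt N hr
  have hc : (0 : ℝ) < 1 / ((2 * (g : ℝ) + 1) ^ N) := by positivity
  have h2 := h1.eventually (gt_mem_nhds hc)
  obtain ⟨J, hJ, hJ1⟩ := (h2.and (Filter.eventually_ge_atTop 1)).exists
  refine ⟨J, ?_⟩
  have hr0 : (0 : ℝ) < r ^ J := pow_pos (by linarith) J
  have hJ2 : (1 : ℝ) ≤ J := by exact_mod_cast hJ1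
  have hg : (0 : ℝ) ≤ g := Nat.cast_nonneg g
  rw [div_lt_div_iff₀ hr0 (by positivity), one_mul] at hJ
  refine lt_of_le_of_lt ?_ hJ
  rw [← mul_pow]
  refine pow_le_pow_left₀ (by positivity) ?_ N
  nlinarith [mul_nonneg hg (by linarith : (0 : ℝ) ≤ (J : ℝ))]

theorem exists_inc (g N : ℕ) (δ : ℝ) (hδ : 0 < δ) : ∃ J : ℕ, ∀ σ : ℕ → ℕ, 0 < σ 0 →
    (∀ j, σ j ≤ (2 * (g * j) + 1) ^ N) →
    ∃ j, j < J ∧ (σ (j + 1) : ℝ) - σ j ≤ δ * σ (j + 1) := by
  obtain ⟨e, he0, he1, heδ⟩ : ∃ e : ℝ, 0 < e ∧ e < 1 ∧ e ≤ δ :=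
    ⟨min δ (1 / 2), lt_min hδ (by norm_num), lt_of_le_of_lt (min_le_right _ _) (by norm_num), min_le_left _ _⟩
  have h1e : 0 < 1 - e := by linarith
  have hr : 1 < 1 / (1 - e) := by
    rw [lt_div_iff₀ h1e]
    linarith
  obtain ⟨J, hJ⟩ := S7_large g N (1 / (1 - e)) hr
  refine ⟨J, fun σ h0 hσ => ?_⟩
  by_contra hcon
  push Not at hcon
  have hind : ∀ j, j ≤ J → (1 / (1 - e)) ^ j ≤ (σ j : ℝ) := by
    intro j
    induction j with
    | zero =>
      intro _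
      rw [pow_zero]
      exact_mod_cast h0
    | succ j ih =>
      intro hj
      have h1 := ih (by omega)
      have h2 := hcon j (by omega)
      have h3 : e * (σ (j + 1) : ℝ) ≤ δ * σ (j + 1) := mul_le_mul_of_nonneg_right heδ (Nat.cast_nonneg _)
      have h4 : (σ j : ℝ) ≤ (1 - e) * σ (j + 1) := by linarith
      rw [pow_succ]
      calc (1 / (1 - e)) ^ j * (1 / (1 - e)) ≤ (σ j : ℝ) * (1 / (1 - e)) :=
            mul_le_mul_of_nonneg_right h1 (by positivity)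
        _ ≤ ((1 - e) * σ (j + 1)) * (1 / (1 - e)) := mul_le_mul_of_nonneg_right h4 (by positivity)
        _ = (σ (j + 1) : ℝ) := by field_simp
  have h5 := hind J le_rfl
  have h6 : (σ J : ℝ) ≤ ((2 * ((g : ℝ) * (J : ℝ)) + 1) ^ N : ℝ) := by
    have := hσ J
    exact_mod_cast this
  linarith

end MPadcOA
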