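import Pool.Agent.Lib.MP_adc574_ag_OA.Dim

/-!
# Theorem A (adc574), leaf S8: degrees

`natDegree_TT`: `natDegree_sum_le`-type bounds (`Polynomial.natDegree_sum_le_of_forall_le`), `natDegree_mul_le`.
`natDegree_nab`: `Δ * derivative (Φ s)` has degree `≤ c + A`, `TT G Φ s` too. `natDegree_nab_iterate`: induction.
`natDegree_ev`: a product of `m` factors of degree `≤ d` and one of degree `≤ A`.
-/

set_option autoImplicit false

namespace MPadcOA

open Polynomial Matrix

variable {k : Type*} [Field k] {g m : ℕ}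

private theorem S8_prod {k : Type*} [Field k] {ι : Type*} (s : Finset ι) (f : ι → k[X]) (d : ℕ)
    (h : ∀ i, (f i).natDegree ≤ d) : (∏ i ∈ s, f i).natDegree ≤ s.card * d := by
  refine (natDegree_prod_le s f).trans ?_
  refine (Finset.sum_le_card_nsmul s _ d fun i _ => h i).trans ?_
  rw [smul_eq_mul]

theorem natDegree_nab (Δ : k[X]) (G : Matrix (Nx g) (Nx g) k[X]) (c A : ℕ) (hΔ : Δ.natDegree ≤ c)
    (hG : ∀ i j, (G i j).natDegree ≤ c) (Φ : Kx g m → k[X]) (hΦ : ∀ s, (Φ s).natDegree ≤ A) (s : Kx g m) :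
    (nab Δ G Φ s).natDegree ≤ A + c := by
  have h1 : (derivative (Φ s)).natDegree ≤ A :=
    (natDegree_derivative_le (Φ s)).trans ((Nat.sub_le _ _).trans (hΦ s))
  have h2 : (Δ * derivative (Φ s)).natDegree ≤ A + c := by
    refine natDegree_mul_le.trans ?_
    omega
  have h3 : (TT G Φ s).natDegree ≤ A + c := by
    unfold TT
    refine natDegree_sum_le_of_forall_le _ _ fun i _ => ?_
    refine natDegree_sum_le_of_forall_le _ _ fun l _ => ?_
    refine natDegree_mul_le.trans ?_
    have h4 := hG (s i).2 l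
    have h5 := hΦ (Function.update s i ((s i).1, l))
    omega
  exact (natDegree_add_le _ _).trans (max_le h2 h3)

theorem natDegree_nab_iterate (Δ : k[X]) (G : Matrix (Nx g) (Nx g) k[X]) (c A : ℕ) (hΔ : Δ.natDegree ≤ c)
    (hG : ∀ i j, (G i j).natDegree ≤ c) (Φ : Kx g m → k[X]) (hΦ : ∀ s, (Φ s).natDegree ≤ A) (e : ℕ)
    (s : Kx g m) : ((nab Δ G)^[e] Φ s).natDegree ≤ A + c * e := by
  induction e generalizing s with
  | zero =>
    rw [Function.iterate_zero, id_eq, Nat.mul_zero, Nat.add_zero]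
    exact hΦ s
  | succ e ih =>
    rw [Function.iterate_succ_apply']
    refine (natDegree_nab Δ G c (A + c * e) hΔ hG _ ih s).trans (le_of_eq ?_)
    ring

theorem natDegree_ev (U : Matrix (Fin g) (Nx g) k[X]) (d A : ℕ) (hU : ∀ i l, (U i l).natDegree ≤ d)
    (Φ : Kx g m → k[X]) (hΦ : ∀ s, (Φ s).natDegree ≤ A) : (ev U Φ).natDegree ≤ A + m * d := by
  unfold ev
  refine natDegree_sum_le_of_forall_le _ _ fun s _ => ?_
  refine natDegree_mul_le.trans (Nat.add_le_add (hΦ s) ?_)
  refine (S8_prod Finset.univ (fun i => U (s i).1 (s i).2) d fun i => hU _ _).trans (le_of_eq ?_)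
  rw [Finset.card_univ, Fintype.card_fin]

end MPadcOA
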