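import Pool.Agent.Lib.MP_adc574_ag_OA.S5
import Pool.Agent.Lib.MP_adc574_ag_OA.S8

/-!
# Theorem A (adc574), leaf S11: the auxiliary forms (linear algebra)

Let `C` be a complement of the kernel of `evg g (m + g) k` in `Kx g (m + g) → k` (`Submodule.exists_isCompl`); `evg` is injective on `C` and
`finrank C = sdim g (m + g) k` (rank-nullity). The unknowns: families `c : Fin B → Fin (A + 1) → C`, a space of dimension
`B (A + 1) sdim g (m + g) k`; `Φ b s = ∑ n, c b n s X ^ n`. The conditions: the linear map which sends `c` to the classes of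
`evg (fun s => (∑ b, Q b * (nab Δ G)^[e] (Φ b) s).coeff n)` in `SS g (m + g) k ⧸ ZZ` for `e < M`, `n ≤ A + B + c' M`, a space of dimension
`M (A + B + c' M + 1) (sdim g (m + g) k - sdim g m k)` (`finrank_ZZ`, `ZZ_le`). By `hdim` the kernel is not zero
(`LinearMap.exists_ne_zero_of_finrank_lt`-type: `Submodule.ne_bot_iff`, `LinearMap.ker_ne_bot_of_finrank_lt`). A nonzero element has some
`c b n ≠ 0`, so `evg (c b n) ≠ 0`. For `n > A + B + c' M` the coefficient is zero by the degree bound (`natDegree_nab_iterate`).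
`nab`, the iterates and the coefficients are `k`-linear.
-/

set_option autoImplicit false

namespace MPadcOA

open Polynomial Matrix

/-- `nab` as a linear map. -/
private noncomputable def S11_nab {k : Type*} [Field k] {g m : ℕ} (Δ : k[X]) (G : Matrix (Nx g) (Nx g) k[X]) :
    (Kx g m → k[X]) →ₗ[k] (Kx g m → k[X]) where
  toFun := nab Δ G
  map_add' Φ Ψ := by
    funext s
    simp only [nab, TT, Pi.add_apply, derivative_add, mul_add, Finset.sum_add_distrib]
    ring
  map_smul' c Φ := by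
    funext s
    simp only [nab, TT, Pi.smul_apply, derivative_smul, mul_smul_comm, RingHom.id_apply, smul_add,
      Finset.smul_sum]

private theorem S11_nab_pow {k : Type*} [Field k] {g m : ℕ} (Δ : k[X]) (G : Matrix (Nx g) (Nx g) k[X])
    (e : ℕ) (Φ : Kx g m → k[X]) : (S11_nab Δ G ^ e) Φ = (nab Δ G)^[e] Φ := by
  rw [Module.End.pow_apply]
  rfl

/-- The complement of the kernel. -/
private theorem S11_compl {k V W : Type*} [Field k] [AddCommGroup V] [Module k V] [FiniteDimensional k V]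
    [AddCommGroup W] [Module k W] (E : V →ₗ[k] W) : ∃ C : Submodule k V, (∀ x ∈ C, E x = 0 → x = 0) ∧
      Module.finrank k C = Module.finrank k (LinearMap.range E) := by
  obtain ⟨C, hC⟩ := Submodule.exists_isCompl (LinearMap.ker E)
  refine ⟨C, fun x hx h => ?_, ?_⟩
  · exact (Submodule.disjoint_def.1 hC.disjoint) x (LinearMap.mem_ker.2 h) hx
  · have h1 := Submodule.finrank_add_eq_of_isCompl hC
    have h2 := LinearMap.finrank_range_add_finrank_ker E
    omega

/-- The dimension of the quotient. -/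
private theorem S11_quot {k V : Type*} [Field k] [AddCommGroup V] [Module k V] (Z S : Submodule k V)
    [FiniteDimensional k S] (h : Z ≤ S) : Module.finrank k (S ⧸ Z.submoduleOf S) =
      Module.finrank k S - Module.finrank k Z := by
  have h1 := Submodule.finrank_quotient_add_finrank (Z.submoduleOf S)
  have h2 := (Submodule.submoduleOfEquivOfLe h).finrank_eq
  omega

/-- Finitely many linear conditions. -/
private theorem S11_cond {k : Type*} [Field k] {C S : Type*} [AddCommGroup C] [Module k C] [FiniteDimensional k C]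
    [AddCommGroup S] [Module k S] [FiniteDimensional k S] (B A M N : ℕ) (Z : Submodule k S)
    (L : Fin M → Fin N → ((Fin B → Fin (A + 1) → C) →ₗ[k] S))
    (h : M * N * Module.finrank k (S ⧸ Z) < (A + 1) * B * Module.finrank k C) :
    ∃ c : Fin B → Fin (A + 1) → C, c ≠ 0 ∧ ∀ e n, L e n c ∈ Z := by
  obtain ⟨T, hT⟩ : ∃ T : (Fin B → Fin (A + 1) → C) →ₗ[k] (Fin M → Fin N → (S ⧸ Z)),
      T = LinearMap.pi fun e => LinearMap.pi fun n => Z.mkQ ∘ₗ L e n := ⟨_, rfl⟩
  have h1 : Module.finrank k (Fin M → Fin N → (S ⧸ Z)) < Module.finrank k (Fin B → Fin (A + 1) → C) := by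
    rw [Module.finrank_pi_fintype, Module.finrank_pi_fintype]
    simp only [Module.finrank_pi_fintype, Finset.sum_const, Finset.card_univ, Fintype.card_fin, smul_eq_mul]
    refine lt_of_eq_of_lt ?_ (lt_of_lt_of_eq h ?_)
    · ring
    · ring
  have h2 := LinearMap.ker_ne_bot_of_finrank_lt (f := T) h1
  obtain ⟨c, hc, hc0⟩ := (Submodule.ne_bot_iff _).1 h2
  refine ⟨c, hc0, fun e n => ?_⟩
  rw [LinearMap.mem_ker, hT] at hc
  have h3 := congrFun (congrFun hc e) n
  have h4 : Z.mkQ (L e n c) = 0 := h3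
  rwa [Submodule.mkQ_apply, Submodule.Quotient.mk_eq_zero] at h4

theorem exists_forms {k : Type*} [Field k] (g m B A M c' : ℕ) (Q : Fin B → k[X]) (hQ : ∀ b, (Q b).natDegree ≤ B)
    (Δ : k[X]) (G : Matrix (Nx g) (Nx g) k[X]) (hΔ : Δ.natDegree ≤ c') (hG : ∀ i j, (G i j).natDegree ≤ c')
    (hdim : M * (A + B + c' * M + 1) * (sdim g (m + g) k - sdim g m k) <
      (A + 1) * B * sdim g (m + g) k) :
    ∃ Φ : Fin B → Kx g (m + g) → k[X], (∀ b s, (Φ b s).natDegree ≤ A) ∧
      (∃ b n, evg g (m + g) k (fun s => (Φ b s).coeff n) ≠ 0) ∧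
      ∀ e < M, ∀ n, evg g (m + g) k
        (fun s => (∑ b : Fin B, Q b * (nab Δ G)^[e] (Φ b) s).coeff n) ∈ ZZ g m k := by
  obtain ⟨E, hE⟩ : ∃ E : (Kx g (m + g) → k) →ₗ[k] GenR g k, E = evg g (m + g) k := ⟨_, rfl⟩
  obtain ⟨Cc, hC0, hCd⟩ := S11_compl E
  have hSS : LinearMap.range E = SS g (m + g) k := by rw [hE]; rfl
  have hfd : FiniteDimensional k (SS g (m + g) k) := by
    rw [← hSS]
    infer_instance
  have hsd : Module.finrank k (SS g (m + g) k) = sdim g (m + g) k := rfl
  have hCd' : Module.finrank k Cc = sdim g (m + g) k := by rw [hCd, hSS]; rfl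
  have hq := S11_quot (ZZ g m k) (SS g (m + g) k) (ZZ_le g m k)
  rw [finrank_ZZ, hsd] at hq
  -- the polynomials
  obtain ⟨pol, hpol⟩ : ∃ pol : Fin B → ((Fin B → Fin (A + 1) → Cc) →ₗ[k] (Kx g (m + g) → k[X])),
      ∀ b c s, pol b c s = ∑ n : Fin (A + 1), monomial (n : ℕ) ((c b n : Kx g (m + g) → k) s) := by
    refine ⟨fun b => LinearMap.pi fun s => ∑ n : Fin (A + 1), (monomial (n : ℕ)) ∘ₗ (LinearMap.proj s) ∘ₗ
      Cc.subtype ∘ₗ (LinearMap.proj n) ∘ₗ (LinearMap.proj b), fun b c s => ?_⟩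
    rw [LinearMap.pi_apply, LinearMap.sum_apply]
    rfl
  obtain ⟨Ro, hRo⟩ : ∃ Ro : (Kx g (m + g) → k) →ₗ[k] SS g (m + g) k, ∀ φ, (Ro φ : GenR g k) = evg g (m + g) k φ :=
    ⟨(evg g (m + g) k).rangeRestrict, fun φ => rfl⟩
  obtain ⟨L, hL⟩ : ∃ L : Fin M → Fin (A + B + c' * M + 1) → ((Fin B → Fin (A + 1) → Cc) →ₗ[k] SS g (m + g) k),
      ∀ e n c, L e n c = Ro (fun s => (∑ b : Fin B, Q b * (nab Δ G)^[(e : ℕ)] (pol b c) s).coeff (n : ℕ)) := by
    refine ⟨fun e n => Ro ∘ₗ (LinearMap.pi fun s => (lcoeff k (n : ℕ)) ∘ₗ ∑ b : Fin B,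
      (LinearMap.mulLeft k (Q b)) ∘ₗ (LinearMap.proj s) ∘ₗ (S11_nab Δ G ^ (e : ℕ)) ∘ₗ pol b),
      fun e n c => ?_⟩
    rw [LinearMap.comp_apply]
    congr 1
    funext s
    rw [LinearMap.pi_apply, LinearMap.comp_apply, LinearMap.sum_apply, lcoeff_apply]
    congr 1
    refine Finset.sum_congr rfl fun b _ => ?_
    rw [← S11_nab_pow]
    rfl
  obtain ⟨c, hc0, hc⟩ := S11_cond B A M (A + B + c' * M + 1) ((ZZ g m k).submoduleOf (SS g (m + g) k)) L (by
    rw [hq, hCd']
    exact hdim)
  have hcoef : ∀ (b : Fin B) (n : Fin (A + 1)) (s : Kx g (m + g)), (pol b c s).coeff (n : ℕ) =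
      (c b n : Kx g (m + g) → k) s := by
    intro b n s
    rw [hpol, finsetSum_coeff, Finset.sum_eq_single n]
    · rw [coeff_monomial, if_pos rfl]
    · intro l _ hl
      rw [coeff_monomial, if_neg fun h => hl (Fin.ext h)]
    · intro h
      exact absurd (Finset.mem_univ n) h
  have hdeg : ∀ b s, (pol b c s).natDegree ≤ A := by
    intro b s
    rw [hpol]
    refine natDegree_sum_le_of_forall_le _ _ fun n _ => ?_
    refine (natDegree_monomial_le _).trans ?_
    have := n.2
    omega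
  refine ⟨fun b => pol b c, hdeg, ?_, fun e he n => ?_⟩
  · obtain ⟨b, n, hbn⟩ : ∃ b n, c b n ≠ 0 := by
      by_contra hcon
      push Not at hcon
      exact hc0 (funext fun b => funext fun n => hcon b n)
    refine ⟨b, n, fun h => hbn ?_⟩
    have h1 : (fun s => (pol b c s).coeff (n : ℕ)) = (c b n : Kx g (m + g) → k) := funext fun s => hcoef b n s
    have h2 : evg g (m + g) k (c b n : Kx g (m + g) → k) = 0 := by
      rw [← h1]
      exact h
    rw [← hE] at h2
    exact Subtype.ext (hC0 _ (c b n).2 h2)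
  · by_cases hn : n < A + B + c' * M + 1
    · have h1 := hc ⟨e, he⟩ ⟨n, hn⟩
      rw [hL] at h1
      have h2 : ((Ro (fun s => (∑ b : Fin B, Q b * (nab Δ G)^[e] (pol b c) s).coeff n) : SS g (m + g) k) :
          GenR g k) ∈ ZZ g m k := h1
      rw [hRo] at h2
      exact h2
    · have h1 : (fun s => (∑ b : Fin B, Q b * (nab Δ G)^[e] (pol b c) s).coeff n) = 0 := by
        funext s
        refine coeff_eq_zero_of_natDegree_lt (lt_of_le_of_lt (b := A + B + c' * M) ?_ (by omega))
        refine natDegree_sum_le_of_forall_le _ _ fun b _ => ?_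
        refine natDegree_mul_le.trans ?_
        have h2 := natDegree_nab_iterate Δ G c' A hΔ hG (pol b c) (hdeg b) e s
        have h3 := hQ b
        have h4 : c' * e ≤ c' * M := Nat.mul_le_mul_left _ he.le
        omega
      have h2 : evg g (m + g) k (fun s => (∑ b : Fin B, Q b * (nab Δ G)^[e] (pol b c) s).coeff n) = 0 := by
        rw [h1, map_zero]
      rw [h2]
      exact Submodule.zero_mem _

end MPadcOA
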