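import Pool.Agent.Lib.MP_adc574_ag_OA.Dim

/-!
# Theorem A (adc574), leaf S10: forms with polynomial coefficients which vanish on the frames

The coefficient at the monomial `e` of `ev (genU g k[X]) (C ∘ Φ)` is `∑ s, Φ s * C (q s e)` where `q s e ∈ k` is the coefficient at `e` of
the monomial product `∏ i, genU g k (s i).1 (s i).2`: `genU g k[X]` is the image of `genU g k` under `MvPolynomial.map C`. Its coefficient at
`X ^ n` is `∑ s, (Φ s).coeff n * q s e`, the coefficient at `e` of `evg (fun s => (Φ s).coeff n)`. (`MvPolynomial.ext_iff`,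
`Polynomial.ext_iff`, `MvPolynomial.coeff_C_mul`, `MvPolynomial.coeff_map`, `Polynomial.coeff_mul_C`.)
-/

set_option autoImplicit false

namespace MPadcOA

open Polynomial Matrix

private theorem S10_gen {k : Type*} [Field k] {g : ℕ} (i : Fin g) (j : Nx g) :
    genU g k[X] i j = MvPolynomial.map C (genU g k i j) := by
  cases j with
  | inl j =>
    change (MvPolynomial.X (Sum.inl (i, j)) : GenR g k[X]) =
      MvPolynomial.map C (MvPolynomial.X (Sum.inl (i, j)))
    rw [MvPolynomial.map_X]
  | inr j =>
    change (genA g k[X] * genY g k[X]) i j = MvPolynomial.map C ((genA g k * genY g k) i j)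
    rw [Matrix.mul_apply, Matrix.mul_apply, map_sum]
    refine Finset.sum_congr rfl fun l _ => ?_
    rw [map_mul]
    simp only [genA, genY, MvPolynomial.map_X]

private theorem S10_coeff {k : Type*} [Field k] {g m : ℕ} (Φ : Kx g m → k[X])
    (e : (Fin g × Fin g) ⊕ Sym2 (Fin g) →₀ ℕ) (n : ℕ) :
    (MvPolynomial.coeff e (ev (genU g k[X]) fun s => MvPolynomial.C (Φ s))).coeff n =
      MvPolynomial.coeff e (evg g m k fun s => (Φ s).coeff n) := by
  rw [evg_apply]
  unfold ev
  rw [MvPolynomial.coeff_sum, MvPolynomial.coeff_sum, Polynomial.finsetSum_coeff]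
  refine Finset.sum_congr rfl fun s _ => ?_
  have h : (∏ i, genU g k[X] (s i).1 (s i).2) =
      MvPolynomial.map C (∏ i, genU g k (s i).1 (s i).2) := by
    rw [map_prod]
    exact Finset.prod_congr rfl fun i _ => S10_gen _ _
  rw [h, MvPolynomial.coeff_C_mul, MvPolynomial.coeff_C_mul, MvPolynomial.coeff_map,
    Polynomial.coeff_mul_C]

theorem van_poly {k : Type*} [Field k] {g m : ℕ} (Φ : Kx g m → k[X]) :
    Van Φ ↔ ∀ n, evg g m k (fun s => (Φ s).coeff n) = 0 := by
  constructor
  · intro h n
    refine MvPolynomial.ext _ _ fun e => ?_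
    rw [← S10_coeff]
    unfold Van at h
    rw [h, MvPolynomial.coeff_zero, MvPolynomial.coeff_zero, Polynomial.coeff_zero]
  · intro h
    unfold Van
    refine MvPolynomial.ext _ _ fun e => ?_
    refine Polynomial.ext fun n => ?_
    rw [S10_coeff, h n, MvPolynomial.coeff_zero, MvPolynomial.coeff_zero, Polynomial.coeff_zero]

end MPadcOA
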