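import Pool.Agent.Lib.MP_adc574_ag_OA.S9
import Pool.Agent.Lib.MP_adc574_ag_OA.S8

/-!
# Theorem A (adc574), leaf S12: the auxiliary polynomial and its derivatives at the zeros of the determinant

`aux q U Φ = ∑ b, X ^ (q b) * ev U (Φ b)`. `X ^ (q b)` has derivative zero since `p ∣ q`, so
`(Δ ∂)^e (aux q U Φ) = ∑ b, X ^ (q b) * ev U ((nab Δ G)^[e] (Φ b))` (`dd_iterate_ev`, additivity of `dd`,
`dd Δ (X ^ (q b) * P) = X ^ (q b) * dd Δ P`). At `τ` with `τ ^ q * (1 + γ * τ) = τ` this is, up to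
the factor `(1 + γ * τ) ^ B`, the value at `τ` of `∑ b, tw B γ b * ev U ((nab Δ G)^[e] (Φ b)) = ev U Ψ`,
`tw B γ b = X ^ b * (1 + γ * X) ^ (B - b)`, `Ψ s = ∑ b, tw B γ b * (nab Δ G)^[e] (Φ b) s`, and
`ev U Ψ = ∑_(n ≤ N) X ^ n * ev U (fun s => C ((Ψ s).coeff n))` (`Polynomial.as_sum_range'`, `N` a bound of the degrees), a multiple of
`(fst U).det` by `ev_of_mem_ZZ` (`R = k[X]`, `algebraMap k k[X] = C`), whose value at `τ` is `0` (`hτ`; `RingHom.map_det`).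
-/

set_option autoImplicit false

namespace MPadcOA

open Polynomial Matrix

variable {k : Type*} [Field k] {g m : ℕ}

/-- The auxiliary polynomial. -/
noncomputable def aux {B : ℕ} (q : ℕ) (U : Matrix (Fin g) (Nx g) k[X]) (Φ : Fin B → Kx g m → k[X]) : k[X] :=
  ∑ b : Fin B, X ^ (q * (b : ℕ)) * ev U (Φ b)

private theorem S12_dd_sum {B : ℕ} (Δ : k[X]) (P : Fin B → k[X]) :
    dd Δ (∑ b, P b) = ∑ b, dd Δ (P b) := by
  unfold dd
  rw [Polynomial.derivative_sum, Finset.mul_sum]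

private theorem S12_dd_pow {p : ℕ} [CharP k p] (q : ℕ) (hq : p ∣ q) (Δ : k[X]) (n : ℕ)
    (P : k[X]) : dd Δ (X ^ (q * n) * P) = X ^ (q * n) * dd Δ P := by
  have h1 : ((q * n : ℕ) : k) = 0 := (CharP.cast_eq_zero_iff k p (q * n)).2 (hq.mul_right n)
  unfold dd
  rw [Polynomial.derivative_mul, Polynomial.derivative_X_pow, h1, C_0, zero_mul, zero_mul, zero_add]
  ring

private theorem S12_iter {p : ℕ} [CharP k p] (q : ℕ) (hq : p ∣ q) {B : ℕ} (Δ : k[X])
    (e : ℕ) (P : Fin B → k[X]) :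
    (dd Δ)^[e] (∑ b : Fin B, X ^ (q * (b : ℕ)) * P b) =
      ∑ b : Fin B, X ^ (q * (b : ℕ)) * (dd Δ)^[e] (P b) := by
  induction e with
  | zero => rfl
  | succ e ih =>
    rw [Function.iterate_succ_apply', ih, S12_dd_sum]
    refine Finset.sum_congr rfl fun b _ => ?_
    rw [S12_dd_pow (p := p) q hq, Function.iterate_succ_apply']

private theorem S12_ev_sum {R : Type*} [CommRing R] {ι : Type*} (S : Finset ι)
    (U : Matrix (Fin g) (Nx g) R) (c : ι → R) (φ : ι → Kx g m → R) :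
    ev U (fun s => ∑ b ∈ S, c b * φ b s) = ∑ b ∈ S, c b * ev U (φ b) := by
  unfold ev
  simp only [Finset.sum_mul, Finset.mul_sum]
  rw [Finset.sum_comm]
  refine Finset.sum_congr rfl fun b _ => Finset.sum_congr rfl fun s _ => ?_
  ring

theorem natDegree_aux {B : ℕ} (q d A : ℕ) (U : Matrix (Fin g) (Nx g) k[X]) (hU : ∀ i l, (U i l).natDegree ≤ d)
    (Φ : Fin B → Kx g m → k[X]) (hΦ : ∀ b s, (Φ b s).natDegree ≤ A) :
    (aux q U Φ).natDegree ≤ q * B + A + m * d := by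
  unfold aux
  refine Polynomial.natDegree_sum_le_of_forall_le _ _ fun b _ => ?_
  refine (Polynomial.natDegree_mul_le).trans ?_
  have h1 : (X ^ (q * (b : ℕ)) : k[X]).natDegree ≤ q * (b : ℕ) := Polynomial.natDegree_X_pow_le _
  have h2 := natDegree_ev U d A hU (Φ b) (hΦ b)
  have h3 : q * (b : ℕ) ≤ q * B := Nat.mul_le_mul_left q b.isLt.le
  omega

/-- The twisted powers of the variable. -/
noncomputable def tw {k : Type*} [Field k] (B : ℕ) (γ : k) (b : ℕ) : k[X] :=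
  X ^ b * (1 + C γ * X) ^ (B - b)

theorem natDegree_tw (B : ℕ) (γ : k) (b : ℕ) (hb : b ≤ B) : (tw B γ b).natDegree ≤ B := by
  unfold tw
  have h1 : (1 + C γ * X : k[X]).natDegree ≤ 1 := by
    refine natDegree_add_le_of_degree_le ?_ (natDegree_mul_le.trans (by rw [natDegree_C, natDegree_X]))
    rw [natDegree_one]
    exact Nat.zero_le _
  have h2 : ((1 + C γ * X : k[X]) ^ (B - b)).natDegree ≤ (B - b) * 1 := natDegree_pow_le_of_le _ h1
  have h3 : (X ^ b : k[X]).natDegree ≤ b := natDegree_X_pow_le _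
  refine natDegree_mul_le.trans ?_
  omega

theorem dd_aux_eval {p : ℕ} [Fact p.Prime] [CharP k p] {B : ℕ} (q : ℕ) (hq : p ∣ q) (Δ : k[X])
    (G : Matrix (Nx g) (Nx g) k[X]) (U : Matrix (Fin g) (Nx g) k[X])
    (hU : ∀ i l, Δ * derivative (U i l) = (U * G) i l) (hiso : U * JJ g k[X] * Uᵀ = 0)
    (hd : (fst U).det ≠ 0) (Φ : Fin B → Kx g (m + g) → k[X]) (e : ℕ) (γ : k)
    (hΦ : ∀ n, evg g (m + g) k
      (fun s => (∑ b : Fin B, tw B γ b * (nab Δ G)^[e] (Φ b) s).coeff n) ∈ ZZ g m k)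
    (τ : k) (hτq : τ ^ q * (1 + γ * τ) = τ) (hτ : (fst (U.map (eval τ))).det = 0) :
    ((dd Δ)^[e] (aux q U Φ)).eval τ = 0 := by
  classical
  have h1 : (dd Δ)^[e] (aux q U Φ) =
      ∑ b : Fin B, X ^ (q * (b : ℕ)) * ev U ((nab Δ G)^[e] (Φ b)) := by
    unfold aux
    rw [S12_iter (p := p) q hq]
    refine Finset.sum_congr rfl fun b _ => ?_
    rw [dd_iterate_ev Δ G U hU]
  have hv : 1 + γ * τ ≠ 0 := by
    intro h
    rw [h, mul_zero] at hτq
    rw [← hτq, mul_zero, add_zero] at h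
    exact one_ne_zero h
  have h2 : eval τ (∑ b : Fin B, tw B γ b * ev U ((nab Δ G)^[e] (Φ b))) =
      (1 + γ * τ) ^ B * eval τ (∑ b : Fin B, X ^ (q * (b : ℕ)) * ev U ((nab Δ G)^[e] (Φ b))) := by
    rw [Polynomial.eval_finsetSum, Polynomial.eval_finsetSum, Finset.mul_sum]
    refine Finset.sum_congr rfl fun b _ => ?_
    have h3 : eval τ (tw B γ b) = (1 + γ * τ) ^ B * τ ^ (q * (b : ℕ)) := by
      unfold tw
      rw [Polynomial.eval_mul, Polynomial.eval_pow, Polynomial.eval_pow, Polynomial.eval_X,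
        Polynomial.eval_add, Polynomial.eval_one, Polynomial.eval_mul, Polynomial.eval_C, Polynomial.eval_X]
      calc τ ^ (b : ℕ) * (1 + γ * τ) ^ (B - (b : ℕ)) =
          (τ ^ q * (1 + γ * τ)) ^ (b : ℕ) * (1 + γ * τ) ^ (B - (b : ℕ)) := by rw [hτq]
        _ = ((1 + γ * τ) ^ (b : ℕ) * (1 + γ * τ) ^ (B - (b : ℕ))) * τ ^ (q * (b : ℕ)) := by
          rw [mul_pow, ← pow_mul]
          ring
        _ = (1 + γ * τ) ^ B * τ ^ (q * (b : ℕ)) := by
          rw [← pow_add, Nat.add_sub_cancel' b.isLt.le]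
    rw [Polynomial.eval_mul, h3, Polynomial.eval_mul, Polynomial.eval_pow, Polynomial.eval_X, mul_assoc]
  have h2' : eval τ (∑ b : Fin B, tw B γ b * ev U ((nab Δ G)^[e] (Φ b))) = 0 →
      ((dd Δ)^[e] (aux q U Φ)).eval τ = 0 := by
    intro h
    rw [h2] at h
    rw [h1]
    exact (mul_eq_zero.1 h).resolve_left (pow_ne_zero _ hv)
  apply h2'
  rw [← S12_ev_sum]
  obtain ⟨Ψ, hΨ⟩ : ∃ Ψ : Kx g (m + g) → k[X],
      Ψ = fun s => ∑ b : Fin B, tw B γ b * (nab Δ G)^[e] (Φ b) s := ⟨_, rfl⟩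
  have hmem : ∀ n, evg g (m + g) k (fun s => (Ψ s).coeff n) ∈ ZZ g m k := by
    rw [hΨ]
    exact hΦ
  rw [← hΨ]
  obtain ⟨N, hN⟩ : ∃ N : ℕ, ∀ s, (Ψ s).natDegree < N :=
    ⟨Finset.univ.sup (fun s => (Ψ s).natDegree) + 1, fun s =>
      Nat.lt_succ_of_le (Finset.le_sup (f := fun s => (Ψ s).natDegree) (Finset.mem_univ s))⟩
  have h3 : Ψ = fun s => ∑ n ∈ Finset.range N, X ^ n * C ((Ψ s).coeff n) := by
    funext s
    have h4 := Polynomial.as_sum_range' (Ψ s) N (hN s)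
    conv_lhs => rw [h4]
    refine Finset.sum_congr rfl fun n _ => ?_
    rw [← Polynomial.C_mul_X_pow_eq_monomial, mul_comm]
  have h4 : ev U Ψ = ∑ n ∈ Finset.range N, X ^ n * ev U (fun s => C ((Ψ s).coeff n)) := by
    conv_lhs => rw [h3]
    exact S12_ev_sum (Finset.range N) U (fun n => X ^ n) (fun n s => C ((Ψ s).coeff n))
  have h5 : ∀ n, ∃ r : k[X], ev U (fun s => C ((Ψ s).coeff n)) = (fst U).det * r := fun n =>
    ev_of_mem_ZZ (R := k[X]) U hiso hd (fun s => (Ψ s).coeff n) (hmem n)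
  choose r hr using h5
  have h6 : eval τ (fst U).det = 0 := by
    have h7 := RingHom.map_det (evalRingHom τ) (fst U)
    rw [Polynomial.coe_evalRingHom] at h7
    rw [h7]
    exact hτ
  rw [h4, Polynomial.eval_finsetSum]
  refine Finset.sum_eq_zero fun n _ => ?_
  rw [hr, Polynomial.eval_mul, Polynomial.eval_mul, h6, zero_mul, mul_zero]

end MPadcOA
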