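import Pool.Agent.Lib.MP_adc574_ag_OA.S10
import Pool.Agent.Lib.MP_adc574_ag_OA.S12

/-!
# Theorem A (adc574), leaf S13: the auxiliary polynomial is not zero

`Hnv` is the conclusion of `nv` for the system (for forms of degree `m` and coefficients of degree `≤ A`).

`aux_ne_zero`: choose `b₀`, `n₀` with `v_(b₀) ≠ 0`, `v_b = evg (fun s => (Φ b s).coeff n₀) ∈ GenR g k`, and a monomial at which the coefficient of
`v_(b₀)` is not zero; `H(β) = ∑ b, β ^ b * coeff(v_b)` is a nonzero polynomial over `k`, so `H(α ^ q) * Δ(α) ≠ 0` for some `α ∈ k` (`k` is infinite: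
the polynomial `H.comp (X ^ q) * Δ` or `expand` is not zero, `Polynomial.exists_eval_ne_zero_of_natDegree_lt_card` or `Polynomial.funext`).
If `aux q U Φ = 0` then `ev U Φα = ∑ b, (C (α ^ (q b)) - X ^ (q b)) * ev U (Φ b)`, `Φα s = ∑ b, C (α ^ (q b)) * Φ b s`, is divisible by
`X ^ q - C (α ^ q) = (X - C α) ^ q` (`sub_pow_char_pow`, `sub_dvd_pow_sub_pow`; `q = p ^ n`), hence by `(X - C α) ^ p`; by `Hnv` the form `Φα` is `Van`,
but the coefficient of `X ^ n₀` has `evg = ∑ b, α ^ (q b) v_b ≠ 0` (`van_poly`): contradiction.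

`det_ne_zero`: if `(fst U).det = 0` then for the constant form `z = mulz 1` of degree `0 + g` (coefficients `C`) `ev U z = (fst U).det * _ = 0`
is divisible by `(X - C α) ^ p` (`α` any point with `Δ(α) ≠ 0`), so `z` is `Van`: `(genA g k[X]).det * 1 = 0` (`ev_mulz`, `fst_genU`), contradiction with
`det_genA_ne`.
-/

set_option autoImplicit false

namespace MPadcOA

open Polynomial Matrix

variable {k : Type*} [Field k] [Infinite k] {g m : ℕ}

private theorem S13_pt (P : k[X]) (hP : P ≠ 0) : ∃ α : k, P.eval α ≠ 0 := by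
  by_contra hcon
  push Not at hcon
  exact hP (Polynomial.funext fun x => by rw [hcon x, eval_zero])

theorem aux_ne_zero {p : ℕ} [Fact p.Prime] [CharP k p] {B : ℕ} (n : ℕ) (hn : 0 < n) (A : ℕ) (Δ : k[X])
    (hΔ : Δ ≠ 0) (U : Matrix (Fin g) (Nx g) k[X]) (Φ : Fin B → Kx g m → k[X])
    (hΦ : ∀ b s, (Φ b s).natDegree ≤ A)
    (hne : ∃ b n, evg g m k (fun s => (Φ b s).coeff n) ≠ 0)
    (Hnv : ∀ Ψ : Kx g m → k[X], (∀ s, (Ψ s).natDegree ≤ A) → ∀ α : k, Δ.eval α ≠ 0 →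
      (X - C α) ^ p ∣ ev U Ψ → Van Ψ) : aux (p ^ n) U Φ ≠ 0 := by
  classical
  intro haux
  obtain ⟨b₀, n₀, hb₀⟩ := hne
  obtain ⟨v, hv⟩ : ∃ v : Fin B → GenR g k, ∀ b, v b = evg g m k (fun s => (Φ b s).coeff n₀) :=
    ⟨_, fun _ => rfl⟩
  rw [← hv] at hb₀
  obtain ⟨e₀, he₀⟩ := MvPolynomial.ne_zero_iff.1 hb₀
  obtain ⟨H, hH⟩ : ∃ H : k[X], H = ∑ b : Fin B, C (MvPolynomial.coeff e₀ (v b)) * X ^ (b : ℕ) :=
    ⟨_, rfl⟩
  have hH0 : H ≠ 0 := by
    intro h0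
    have h1 := congrArg (fun P : k[X] => P.coeff (b₀ : ℕ)) h0
    simp only [hH, finsetSum_coeff, coeff_C_mul, coeff_X_pow, coeff_zero] at h1
    rw [Finset.sum_eq_single b₀] at h1
    · rw [if_pos rfl, mul_one] at h1
      exact he₀ h1
    · intro b _ hb
      rw [if_neg (fun h => hb (Fin.ext h.symm)), mul_zero]
    · intro h
      exact absurd (Finset.mem_univ _) h
  have hp : 0 < p := (Fact.out : p.Prime).pos
  have hq : 0 < p ^ n := pow_pos hp n
  have hprod : expand k (p ^ n) H * Δ ≠ 0 :=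
    mul_ne_zero (fun h => hH0 ((expand_eq_zero hq).1 h)) hΔ
  obtain ⟨α, hα⟩ := S13_pt _ hprod
  rw [eval_mul, expand_eval] at hα
  have hα1 : H.eval (α ^ p ^ n) ≠ 0 := left_ne_zero_of_mul hα
  have hα2 : Δ.eval α ≠ 0 := right_ne_zero_of_mul hα
  obtain ⟨Ψ, hΨ⟩ : ∃ Ψ : Kx g m → k[X], ∀ s, Ψ s = ∑ b : Fin B, C (α ^ (p ^ n * (b : ℕ))) * Φ b s :=
    ⟨_, fun _ => rfl⟩
  have hev : ev U Ψ = ∑ b : Fin B, C (α ^ (p ^ n * (b : ℕ))) * ev U (Φ b) := by
    unfold ev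
    simp only [hΨ, Finset.sum_mul, Finset.mul_sum]
    rw [Finset.sum_comm]
    refine Finset.sum_congr rfl fun b _ => Finset.sum_congr rfl fun s _ => ?_
    ring
  have hev2 : ev U Ψ = ∑ b : Fin B, (C (α ^ (p ^ n * (b : ℕ))) - X ^ (p ^ n * (b : ℕ))) *
      ev U (Φ b) := by
    simp only [sub_mul, Finset.sum_sub_distrib]
    unfold aux at haux
    rw [haux, sub_zero, hev]
  have hdv : (X - C α) ^ p ∣ ev U Ψ := by
    rw [hev2]
    refine Finset.dvd_sum fun b _ => Dvd.dvd.mul_right ?_ _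
    have h1 : (X - C α) ^ p ∣ (X - C α : k[X]) ^ p ^ n :=
      pow_dvd_pow _ (Nat.le_self_pow hn.ne' p)
    have h2 : (X - C α : k[X]) ^ p ^ n = X ^ p ^ n - C α ^ p ^ n := sub_pow_char_pow _ _ n
    have h3 : (C α ^ p ^ n - X ^ p ^ n : k[X]) ∣ (C α ^ p ^ n) ^ (b : ℕ) - (X ^ p ^ n) ^ (b : ℕ) :=
      sub_dvd_pow_sub_pow _ _ _
    have h4 : (X - C α : k[X]) ^ p ^ n ∣ C α ^ p ^ n - X ^ p ^ n := by
      rw [h2, ← neg_sub]
      exact neg_dvd.2 dvd_rfl
    have h5 : C (α ^ (p ^ n * (b : ℕ))) - X ^ (p ^ n * (b : ℕ)) =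
        (C α ^ p ^ n) ^ (b : ℕ) - (X ^ p ^ n : k[X]) ^ (b : ℕ) := by
      rw [← pow_mul, ← pow_mul, C_pow]
    rw [h5]
    exact h1.trans (h4.trans h3)
  have hdeg : ∀ s, (Ψ s).natDegree ≤ A := by
    intro s
    rw [hΨ]
    refine natDegree_sum_le_of_forall_le _ _ fun b _ => ?_
    exact (natDegree_C_mul_le _ _).trans (hΦ b s)
  have hvan := (van_poly Ψ).1 (Hnv Ψ hdeg α hα2 hdv) n₀
  have hlin : evg g m k (fun s => (Ψ s).coeff n₀) = ∑ b : Fin B, α ^ (p ^ n * (b : ℕ)) • v b := by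
    have h1 : (fun s => (Ψ s).coeff n₀) =
        ∑ b : Fin B, α ^ (p ^ n * (b : ℕ)) • (fun s => (Φ b s).coeff n₀) := by
      funext s
      rw [Finset.sum_apply, hΨ, finsetSum_coeff]
      refine Finset.sum_congr rfl fun b _ => ?_
      rw [coeff_C_mul]
      rfl
    rw [h1, map_sum]
    refine Finset.sum_congr rfl fun b _ => ?_
    rw [map_smul, hv]
  rw [hlin] at hvan
  have h2 := congrArg (MvPolynomial.coeff e₀) hvan
  rw [MvPolynomial.coeff_sum, MvPolynomial.coeff_zero] at h2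
  apply hα1
  rw [hH, eval_finsetSum, ← h2]
  refine Finset.sum_congr rfl fun b _ => ?_
  rw [eval_mul, eval_C, eval_pow, eval_X, MvPolynomial.coeff_smul, smul_eq_mul, ← pow_mul, mul_comm]

theorem det_ne_zero (p : ℕ) (Δ : k[X]) (hΔ : Δ ≠ 0) (U : Matrix (Fin g) (Nx g) k[X])
    (Hnv : ∀ Ψ : Kx g (0 + g) → k[X], (∀ s, (Ψ s).natDegree ≤ 0) → ∀ α : k, Δ.eval α ≠ 0 →
      (X - C α) ^ p ∣ ev U Ψ → Van Ψ) : (fst U).det ≠ 0 := by
  classical
  intro hdet
  obtain ⟨α, hα⟩ := S13_pt Δ hΔ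
  obtain ⟨z, hz⟩ : ∃ z : Kx g (0 + g) → k[X], z = mulz (m := 0) (fun _ => (1 : k[X])) := ⟨_, rfl⟩
  have hz0 : ∀ s, (z s).natDegree ≤ 0 := by
    intro s
    have h1 := mulz_map (m := 0) (C : k →+* k[X]) (fun _ => (1 : k)) s
    rw [hz]
    have h2 : (fun _ : Kx g 0 => C (1 : k)) = fun _ => (1 : k[X]) := by
      funext _
      exact C_1
    rw [h2] at h1
    rw [← h1, natDegree_C]
  have hev : ev U z = 0 := by
    rw [hz, ev_mulz, hdet, zero_mul]
  have hvan : Van z := Hnv z hz0 α hα (by rw [hev]; exact dvd_zero _)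
  unfold Van at hvan
  have h1 : (fun s => MvPolynomial.C (z s) : Kx g (0 + g) → GenR g k[X]) =
      mulz (m := 0) (fun _ => (1 : GenR g k[X])) := by
    funext s
    rw [hz]
    have h2 := mulz_map (m := 0) (MvPolynomial.C : k[X] →+* GenR g k[X]) (fun _ => (1 : k[X])) s
    have h3 : (fun _ : Kx g 0 => (MvPolynomial.C : k[X] →+* GenR g k[X]) (1 : k[X])) =
        fun _ => (1 : GenR g k[X]) := by
      funext _
      exact map_one _
    rw [h3] at h2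
    exact h2
  rw [h1, ev_mulz, fst_genU] at hvan
  have h4 : ev (genU g k[X]) (fun _ : Kx g 0 => (1 : GenR g k[X])) = 1 := by
    unfold ev
    rw [Fintype.sum_unique]
    rw [Fin.prod_univ_zero, mul_one]
  rw [h4, mul_one] at hvan
  exact det_genA_ne g k[X] hvan

end MPadcOA
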