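import Pool.Agent.Lib.MP_adc574_ag_OA.Defs

/-!
# Theorem A (adc574): the action of matrices and of the derivation on the forms

`TT A φ` is the derivative of `ev (U (1 + s A)) φ` in the direction `A`; `nab Δ G = Δ ∂ + TT G`.

Proof of `derivative_ev`: `derivative` of the sum and of the products (`Polynomial.derivative_sum`, `derivative_mul`,
`Finset.prod` rule `Polynomial.derivative_prod` or `Derivation.leibniz_prod`), `Δ * derivative (U r c) = ∑ c', U r c' * G c' c`, and the
reindexing `(s, c') ↦ Function.update s i ((s i).1, c')`: the sum over all `s` and `c'` of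
`Φ s * G c' (s i).2 * U (s i).1 c' * ∏_(j ≠ i) U (s j)` equals the sum over all `s` and `c` of
`Φ (update s i ((s i).1, c)) * G (s i).2 c * ∏_j U (s j)` (involution `(s, c) ↦ (update s i ((s i).1, c), (s i).2)`).
`ev_TT` is the same statement for a general derivation-like family: the sum over `i` of the products in which the factor `i` is replaced.
-/

set_option autoImplicit false

namespace MPadcOA

open Polynomial Matrix

/-- The action of the matrix `A` on the forms of degree `m`. -/
def TT {R : Type*} [CommRing R] {g m : ℕ} (A : Matrix (Nx g) (Nx g) R) (φ : Kx g m → R) : Kx g m → R :=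
  fun s => ∑ i, ∑ c, A (s i).2 c * φ (Function.update s i ((s i).1, c))

/-- `∇ = Δ ∂ + TT G` on the forms with polynomial coefficients. -/
noncomputable def nab {k : Type*} [CommRing k] {g m : ℕ} (Δ : k[X]) (G : Matrix (Nx g) (Nx g) k[X])
    (Φ : Kx g m → k[X]) : Kx g m → k[X] :=
  fun s => Δ * derivative (Φ s) + TT G Φ s

private theorem S1_perm {g m : ℕ} (i : Fin m) :
    Function.Involutive fun p : Kx g m × Nx g => (Function.update p.1 i ((p.1 i).1, p.2), (p.1 i).2) := by
  intro p
  refine Prod.ext ?_ ?_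
  · show Function.update (Function.update p.1 i ((p.1 i).1, p.2)) i
      ((Function.update p.1 i ((p.1 i).1, p.2) i).1, (p.1 i).2) = p.1
    rw [Function.update_self, Function.update_idem]
    exact Function.update_eq_self i p.1
  · show (Function.update p.1 i ((p.1 i).1, p.2) i).2 = p.2
    rw [Function.update_self]

private theorem S1_one {R : Type*} [CommRing R] {g m : ℕ} (U : Matrix (Fin g) (Nx g) R) (A : Matrix (Nx g) (Nx g) R)
    (φ : Kx g m → R) (i : Fin m) :
    ∑ s : Kx g m, (∑ c, A (s i).2 c * φ (Function.update s i ((s i).1, c))) * ∏ j, U (s j).1 (s j).2 =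
      ∑ s : Kx g m, φ s * ((U * A) (s i).1 (s i).2 * ∏ j ∈ Finset.univ.erase i, U (s j).1 (s j).2) := by
  have h1 : ∀ s : Kx g m, (∑ c, A (s i).2 c * φ (Function.update s i ((s i).1, c))) * ∏ j, U (s j).1 (s j).2 =
      ∑ c, A (s i).2 c * φ (Function.update s i ((s i).1, c)) * (U (s i).1 (s i).2 *
        ∏ j ∈ Finset.univ.erase i, U (s j).1 (s j).2) := by
    intro s
    rw [Finset.sum_mul, Finset.mul_prod_erase Finset.univ (fun j => U (s j).1 (s j).2) (Finset.mem_univ i)]
  have h2 : ∀ s : Kx g m, φ s * ((U * A) (s i).1 (s i).2 * ∏ j ∈ Finset.univ.erase i, U (s j).1 (s j).2) =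
      ∑ c, φ s * (U (s i).1 c * A c (s i).2 * ∏ j ∈ Finset.univ.erase i, U (s j).1 (s j).2) := by
    intro s
    rw [Matrix.mul_apply, Finset.sum_mul, Finset.mul_sum]
  rw [Finset.sum_congr rfl fun s _ => h1 s, Finset.sum_congr rfl fun s _ => h2 s,
    ← Fintype.sum_prod_type' (f := fun (s : Kx g m) (c : Nx g) =>
      A (s i).2 c * φ (Function.update s i ((s i).1, c)) * (U (s i).1 (s i).2 *
        ∏ j ∈ Finset.univ.erase i, U (s j).1 (s j).2)),
    ← Fintype.sum_prod_type' (f := fun (s : Kx g m) (c : Nx g) =>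
      φ s * (U (s i).1 c * A c (s i).2 * ∏ j ∈ Finset.univ.erase i, U (s j).1 (s j).2))]
  refine Fintype.sum_equiv (Function.Involutive.toPerm _ (S1_perm i)) _ _ fun p => ?_
  show A (p.1 i).2 p.2 * φ (Function.update p.1 i ((p.1 i).1, p.2)) * (U (p.1 i).1 (p.1 i).2 *
      ∏ j ∈ Finset.univ.erase i, U (p.1 j).1 (p.1 j).2) =
    φ (Function.update p.1 i ((p.1 i).1, p.2)) *
      (U (Function.update p.1 i ((p.1 i).1, p.2) i).1 (p.1 i).2 *
        A (p.1 i).2 (Function.update p.1 i ((p.1 i).1, p.2) i).2 *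
          ∏ j ∈ Finset.univ.erase i, U (Function.update p.1 i ((p.1 i).1, p.2) j).1
            (Function.update p.1 i ((p.1 i).1, p.2) j).2)
  have h3 : ∏ j ∈ Finset.univ.erase i, U (Function.update p.1 i ((p.1 i).1, p.2) j).1
      (Function.update p.1 i ((p.1 i).1, p.2) j).2 = ∏ j ∈ Finset.univ.erase i, U (p.1 j).1 (p.1 j).2 :=
    Finset.prod_congr rfl fun j hj => by rw [Function.update_of_ne (Finset.ne_of_mem_erase hj)]
  rw [h3, Function.update_self]
  ring

/-- The value of `TT A φ` at `U` is the sum over `i` of the values in which the factor `i` is taken from `U * A`. -/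
theorem ev_TT {R : Type*} [CommRing R] {g m : ℕ} (U : Matrix (Fin g) (Nx g) R) (A : Matrix (Nx g) (Nx g) R)
    (φ : Kx g m → R) :
    ev U (TT A φ) = ∑ s, φ s * ∑ i, (U * A) (s i).1 (s i).2 * ∏ j ∈ Finset.univ.erase i, U (s j).1 (s j).2 := by
  unfold ev TT
  have h1 : ∀ s : Kx g m, (∑ i, ∑ c, A (s i).2 c * φ (Function.update s i ((s i).1, c))) * ∏ j, U (s j).1 (s j).2 =
      ∑ i, (∑ c, A (s i).2 c * φ (Function.update s i ((s i).1, c))) * ∏ j, U (s j).1 (s j).2 := fun s =>
    Finset.sum_mul _ _ _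
  rw [Finset.sum_congr rfl fun s _ => h1 s, Finset.sum_comm, Finset.sum_congr rfl fun i _ => S1_one U A φ i,
    Finset.sum_comm]
  exact Finset.sum_congr rfl fun s _ => (Finset.mul_sum _ _ _).symm

/-- The chain rule for horizontal frames. -/
theorem derivative_ev {k : Type*} [CommRing k] {g m : ℕ} (Δ : k[X]) (G : Matrix (Nx g) (Nx g) k[X])
    (U : Matrix (Fin g) (Nx g) k[X]) (hU : ∀ i l, Δ * derivative (U i l) = (U * G) i l)
    (Φ : Kx g m → k[X]) : Δ * derivative (ev U Φ) = ev U (nab Δ G Φ) := by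
  have h1 : ev U (nab Δ G Φ) = ∑ s, Δ * derivative (Φ s) * ∏ i, U (s i).1 (s i).2 + ev U (TT G Φ) := by
    unfold ev nab
    rw [← Finset.sum_add_distrib]
    exact Finset.sum_congr rfl fun s _ => add_mul _ _ _
  rw [h1, ev_TT, ← Finset.sum_add_distrib]
  unfold ev
  rw [derivative_sum, Finset.mul_sum]
  refine Finset.sum_congr rfl fun s _ => ?_
  rw [derivative_mul, derivative_prod_finset, mul_add, ← mul_assoc]
  refine congrArg (fun z => Δ * derivative (Φ s) * ∏ i, U (s i).1 (s i).2 + z) ?_
  rw [mul_left_comm, Finset.mul_sum]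
  refine congrArg (fun z => Φ s * z) (Finset.sum_congr rfl fun i _ => ?_)
  rw [mul_left_comm, hU, mul_comm]

/-- `Δ ∂` on polynomials. -/
noncomputable def dd {k : Type*} [CommRing k] (Δ : k[X]) (P : k[X]) : k[X] := Δ * derivative P

theorem dd_iterate_ev {k : Type*} [CommRing k] {g m : ℕ} (Δ : k[X]) (G : Matrix (Nx g) (Nx g) k[X])
    (U : Matrix (Fin g) (Nx g) k[X]) (hU : ∀ i l, Δ * derivative (U i l) = (U * G) i l)
    (Φ : Kx g m → k[X]) (e : ℕ) : (dd Δ)^[e] (ev U Φ) = ev U ((nab Δ G)^[e] Φ) := by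
  induction e with
  | zero => rfl
  | succ e ih =>
    rw [Function.iterate_succ_apply', Function.iterate_succ_apply', ih]
    exact derivative_ev Δ G U hU _

end MPadcOA
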