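import Pool.Agent.Lib.MP_adc574_ag_CC.F1

/-!
# Leaf BK1: the function field of `y ^ 2 = F(x)` over `E(x)`
-/

set_option autoImplicit false

namespace MPadcOA

open Polynomial MPadcCC

universe u

variable {E L : Type u} [Field E] [Field L] [Algebra E L] {F : E[X]} {x y : L}

/-- PROOF. This is the private theorem `F6_repr` of `MP_adc574_ag_CC/F6.lean`, copy its proof. -/
theorem exists_coprime (hx : Transcendental E x) {u : L}
    (hu : u ∈ IntermediateField.adjoin E {x}) :
    ∃ A B : E[X], IsCoprime A B ∧ B ≠ 0 ∧ u * aeval x B = aeval x A := by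
  classical
  obtain ⟨r, s, h⟩ := (IntermediateField.mem_adjoin_simple_iff E u).mp hu
  by_cases hs : s = 0
  · refine ⟨0, 1, isCoprime_zero_left.mpr isUnit_one, one_ne_zero, ?_⟩
    rw [h, hs]
    simp
  · have hg : EuclideanDomain.gcd r s ≠ 0 := fun h0 =>
      hs (EuclideanDomain.gcd_eq_zero_iff.mp h0).2
    obtain ⟨A, hA⟩ := EuclideanDomain.gcd_dvd_left r s
    obtain ⟨B, hB⟩ := EuclideanDomain.gcd_dvd_right r s
    have hab := EuclideanDomain.gcd_eq_gcd_ab r s
    generalize EuclideanDomain.gcd r s = g at hg hA hB hab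
    generalize EuclideanDomain.gcdA r s = s1 at hab
    generalize EuclideanDomain.gcdB r s = t1 at hab
    refine ⟨A, B, ?_, ?_, ?_⟩
    · refine ⟨s1, t1, ?_⟩
      refine mul_left_cancel₀ hg ?_
      calc g * (s1 * A + t1 * B)
          = (g * A) * s1 + (g * B) * t1 := by ring
        _ = r * s1 + s * t1 := by rw [← hA, ← hB]
        _ = g * 1 := by rw [← hab, mul_one]
    · intro h0
      rw [h0, mul_zero] at hB
      exact hs hB
    · have hs' : aeval x s ≠ 0 := aeval_ne_zero hx hs
      have hg' : aeval x g ≠ 0 := aeval_ne_zero hx hg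
      have e1 : u * aeval x s = aeval x r := by
        rw [h, div_mul_cancel₀ _ hs']
      rw [hA, hB, map_mul, map_mul] at e1
      refine mul_left_cancel₀ hg' ?_
      calc aeval x g * (u * aeval x B) = u * (aeval x g * aeval x B) := by ring
        _ = aeval x g * aeval x A := e1

/-- PROOF. If `v ≠ 0` then `w = - u / v` is in `E(x)` and `w = y`, so `w ^ 2 = F(x)` (`hf.eq`). `exists_coprime`: `w * B(x) = A(x)`, so `A ^ 2 = F * B ^ 2` in `E[X]` (`x` is transcendental: `transcendental_iff_injective.1 hf.trans`); `B ∣ A ^ 2` and `A, B` are coprime,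
so `B` is a unit (`IsCoprime.isUnit_of_dvd'` or `(hAB.symm.pow_right).dvd_of_dvd_mul_left`), a constant `C b`, `b ≠ 0`, so `(A * C b⁻¹) * (A * C b⁻¹) ∣ F`, so `A` is a unit (`hF`), so `F` has degree zero, against `h0`. If `v = 0` then `u = 0`. -/
theorem two_unique (hf : IsFunctionField 2 F x y) (hF : Squarefree F) (h0 : F.natDegree ≠ 0)
    {u v : L} (hu : u ∈ IntermediateField.adjoin E {x}) (hv : v ∈ IntermediateField.adjoin E {x})
    (h : u + v * y = 0) : u = 0 ∧ v = 0 := by
  by_cases hv0 : v = 0
  · rw [hv0, zero_mul, add_zero] at h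
    exact ⟨h, hv0⟩
  · exfalso
    have hy : y = -u / v := by
      rw [eq_div_iff hv0]
      linear_combination h
    obtain ⟨A, B, hAB, hB, hw⟩ := exists_coprime hf.trans (div_mem (neg_mem hu) hv)
    rw [← hy] at hw
    have h1 : A * A = F * (B * B) := by
      refine (transcendental_iff_injective.mp hf.trans) ?_
      rw [map_mul, map_mul, map_mul, ← hw, ← hf.eq]
      ring
    have h2 : IsUnit B := by
      refine IsCoprime.isUnit_of_dvd' (hAB.mul_left hAB) ?_ dvd_rfl
      rw [h1]
      exact (dvd_mul_right B B).mul_left F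
    have h3 : A * A ∣ F := by
      have h4 : A * A ∣ F * (B * B) := by rw [h1]
      exact (h2.mul h2).dvd_mul_right.mp h4
    have h5 : IsUnit A := hF A h3
    have h6 : IsUnit F := by
      have h7 : IsUnit (F * (B * B)) := by
        rw [← h1]
        exact h5.mul h5
      exact isUnit_of_mul_isUnit_left h7
    exact h0 (natDegree_eq_zero_of_isUnit h6)

private theorem BK1_mem (x : L) (P : E[X]) : aeval x P ∈ IntermediateField.adjoin E {x} := by
  have h1 : aeval x P ∈ Algebra.adjoin E {x} := Polynomial.aeval_mem_adjoin_singleton E x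
  exact IntermediateField.algebra_adjoin_le_adjoin E {x} h1

private theorem BK1_root (hf : IsFunctionField 2 F x y) :
    aeval y (X ^ 2 - C ⟨aeval x F, BK1_mem x F⟩ : (IntermediateField.adjoin E {x})[X]) = 0 := by
  rw [map_sub, map_pow, aeval_X, aeval_C, hf.eq]
  exact sub_self _

private theorem BK1_int (hf : IsFunctionField 2 F x y) : IsIntegral (IntermediateField.adjoin E {x}) y :=
  ⟨X ^ 2 - C ⟨aeval x F, BK1_mem x F⟩, monic_X_pow_sub_C _ two_ne_zero, by
    rw [← aeval_def]
    exact BK1_root hf⟩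

private theorem BK1_top (hf : IsFunctionField 2 F x y) :
    Algebra.adjoin (IntermediateField.adjoin E {x}) {y} = ⊤ := by
  have h1 : IntermediateField.adjoin (IntermediateField.adjoin E {x}) {y} = ⊤ := by
    have h2 := IntermediateField.adjoin_adjoin_left E {x} ({y} : Set L)
    have h3 : ({x} : Set L) ∪ {y} = {x, y} := rfl
    rw [h3, hf.gen] at h2
    rw [eq_top_iff]
    intro z _
    have h4 : z ∈ (⊤ : IntermediateField E L) := IntermediateField.mem_top
    rw [← h2] at h4
    exact h4
  have h5 := IntermediateField.adjoin_simple_toSubalgebra_of_isAlgebraic (BK1_int hf).isAlgebraic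
  rw [h1, IntermediateField.top_toSubalgebra] at h5
  exact h5.symm

/-- PROOF. Let `K = E(x)`. As in `F3_top` of `MP_adc574_ag_CC/F3.lean`: `Algebra.adjoin K {y} = ⊤` (`y` is integral over `K`: `Y ^ 2 - F(x)`), so `f = aeval y P`, and the remainder of `P` modulo the monic polynomial `X ^ 2 - C F(x)` has degree `< 2`
(`aeval_modByMonic_eq_self_of_root`, `aeval_eq_sum_range'`), see `yy_exists` there. -/
theorem two_exists (hf : IsFunctionField 2 F x y) (f : L) :
    ∃ u v : L, u ∈ IntermediateField.adjoin E {x} ∧ v ∈ IntermediateField.adjoin E {x} ∧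
      f = u + v * y := by
  have h1 : f ∈ Algebra.adjoin (IntermediateField.adjoin E {x}) {y} := by
    rw [BK1_top hf]
    exact Algebra.mem_top
  rw [Algebra.adjoin_singleton_eq_range_aeval] at h1
  obtain ⟨P, hP⟩ := h1
  obtain ⟨m, hm⟩ : ∃ m : (IntermediateField.adjoin E {x})[X], m = X ^ 2 - C ⟨aeval x F, BK1_mem x F⟩ := ⟨_, rfl⟩
  have hmon : m.Monic := by
    rw [hm]
    exact monic_X_pow_sub_C _ two_ne_zero
  have hdeg : m.natDegree = 2 := by
    rw [hm]
    exact natDegree_X_pow_sub_C
  have hroot : aeval y m = 0 := by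
    rw [hm]
    exact BK1_root hf
  obtain ⟨r, hr⟩ : ∃ r, r = P %ₘ m := ⟨_, rfl⟩
  have h2 : aeval y r = f := by
    rw [hr, aeval_modByMonic_eq_self_of_root hroot]
    exact hP
  have h3 : r.natDegree < 2 := by
    rw [hr, ← hdeg]
    refine natDegree_modByMonic_lt _ hmon ?_
    intro h4
    rw [h4, natDegree_one] at hdeg
    omega
  refine ⟨(r.coeff 0 : L), (r.coeff 1 : L), (r.coeff 0).2, (r.coeff 1).2, ?_⟩
  rw [← h2, aeval_eq_sum_range' h3, Finset.sum_range_succ, Finset.sum_range_one, pow_zero, pow_one]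
  show (r.coeff 0 : L) * 1 + (r.coeff 1 : L) * y = _
  rw [mul_one]

/-- PROOF. Copy of `exists_aut` of `MP_adc574_ag_CC/F3.lean` for `ζ = -1`, `e = 2`: the minimal polynomial of `y` over `K = E(x)` is `X ^ 2 - C F(x)`, because a monic polynomial of degree `≤ 1` (or any non-zero polynomial of degree `< 2`) over `K` does not kill
`y` by `two_unique` (`minpoly.unique_of_degree_le_degree_minpoly`, or `minpoly.eq_of_irreducible_of_monic` with `Polynomial.irreducible_of_degree_le_three_of_not_isRoot` / `Monic.irreducible_iff_...`). -/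
theorem exists_conj (hf : IsFunctionField 2 F x y) (hF : Squarefree F) (h0 : F.natDegree ≠ 0) :
    ∃ σ : L →ₐ[E] L, (∀ f ∈ IntermediateField.adjoin E {x}, σ f = f) ∧ σ y = - y := by
  have hint := BK1_int hf
  have htop := BK1_top hf
  have hdeg : (2 : ℕ) ≤ (minpoly (IntermediateField.adjoin E {x}) y).natDegree := by
    by_contra hlt
    push Not at hlt
    have h1 := minpoly.aeval (IntermediateField.adjoin E {x}) y
    rw [aeval_eq_sum_range' hlt, Finset.sum_range_succ, Finset.sum_range_one, pow_zero, pow_one] at h1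
    have h2 : (((minpoly (IntermediateField.adjoin E {x}) y).coeff 0 : IntermediateField.adjoin E {x}) : L) +
        (((minpoly (IntermediateField.adjoin E {x}) y).coeff 1 : IntermediateField.adjoin E {x}) : L) * y = 0 := by
      rw [← h1]
      show _ = (((minpoly (IntermediateField.adjoin E {x}) y).coeff 0 : IntermediateField.adjoin E {x}) : L) * 1 +
        (((minpoly (IntermediateField.adjoin E {x}) y).coeff 1 : IntermediateField.adjoin E {x}) : L) * y
      rw [mul_one]
    obtain ⟨h3, h4⟩ := two_unique hf hF h0 (Subtype.mem _) (Subtype.mem _) h2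
    have h5 : (minpoly (IntermediateField.adjoin E {x}) y).coeff 0 = 0 := Subtype.ext h3
    have h6 : (minpoly (IntermediateField.adjoin E {x}) y).coeff 1 = 0 := Subtype.ext h4
    apply minpoly.ne_zero hint
    ext i
    rcases Nat.lt_or_ge i 2 with hi | hi
    · rcases (by omega : i = 0 ∨ i = 1) with rfl | rfl
      · rw [h5, coeff_zero]
      · rw [h6, coeff_zero]
    · rw [coeff_eq_zero_of_natDegree_lt (lt_of_lt_of_le hlt hi), coeff_zero]
  have hmem := BK1_mem x F
  obtain ⟨K, hK⟩ : ∃ K : IntermediateField E L, K = IntermediateField.adjoin E {x} := ⟨_, rfl⟩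
  rw [← hK] at hint htop hdeg hmem ⊢
  -- the minimal polynomial of `y`
  have hmp : X ^ 2 - C ⟨aeval x F, hmem⟩ = minpoly K y := by
    refine minpoly.unique_of_degree_le_degree_minpoly K y (monic_X_pow_sub_C _ two_ne_zero) ?_ ?_
    · rw [map_sub, map_pow, aeval_X, aeval_C, hf.eq]
      exact sub_self _
    · rw [degree_X_pow_sub_C (Nat.succ_pos 1), degree_eq_natDegree (minpoly.ne_zero hint)]
      exact_mod_cast hdeg
  obtain ⟨pb, hpb⟩ : ∃ pb : PowerBasis K L, pb.gen = y :=
    ⟨PowerBasis.ofAdjoinEqTop hint htop, PowerBasis.ofAdjoinEqTop_gen hint htop⟩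
  have h1 : aeval (-y) (minpoly K pb.gen) = 0 := by
    rw [hpb, ← hmp, map_sub, map_pow, aeval_X, aeval_C, neg_sq, hf.eq]
    exact sub_self _
  refine ⟨(pb.lift _ h1).restrictScalars E, fun f hf => ?_, ?_⟩
  · exact (pb.lift _ h1).commutes ⟨f, hf⟩
  · have h2 := pb.lift_gen _ h1
    rw [hpb] at h2
    exact h2

end MPadcOA
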