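import Pool.Agent.Lib.MP_adc574_ag_OA.BK1

/-!
# Leaf BK2: the components of an integral element of the function field of `y ^ 2 = F(x)`
-/

set_option autoImplicit false

namespace MPadcOA

open Polynomial MPadcCC

universe u

variable {E L : Type u} [Field E] [Field L] [Algebra E L] {F : E[X]} {x y : L}

private theorem BK2_int (S : Set L) (hS : ∀ s ∈ S, s ∈ IntermediateField.adjoin E {x}) (σ : L →ₐ[E] L)
    (h1 : ∀ f ∈ IntermediateField.adjoin E {x}, σ f = f) {f : L} (hf : f ∈ reg E S) : σ f ∈ reg E S := by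
  unfold reg at hf ⊢
  change IsIntegral _ _ at hf
  show IsIntegral _ _
  have hle : Algebra.adjoin E S ≤ (IntermediateField.adjoin E {x}).toSubalgebra :=
    Algebra.adjoin_le fun s hs => hS s hs
  refine IsIntegral.map_of_comp_eq (RingHom.id (Algebra.adjoin E S)) (σ : L →+* L) ?_ hf
  refine RingHom.ext fun a => ?_
  show (a : L) = σ (a : L)
  exact (h1 _ (hle a.2)).symm

private theorem BK2_half (h2 : (2 : E) ≠ 0) (S : Set L) {f g : L}
    (hf : IsIntegral (Algebra.adjoin E S) f) (hg : f = algebraMap E L 2 * g) : g ∈ reg E S := by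
  have hE : ∀ a : E, IsIntegral (Algebra.adjoin E S) (algebraMap E L a) := by
    intro a
    have h1 : algebraMap E L a = algebraMap (Algebra.adjoin E S) L (algebraMap E (Algebra.adjoin E S) a) := rfl
    rw [h1]
    exact isIntegral_algebraMap
  have h3 := (hE (2 : E)⁻¹).mul hf
  rw [hg, ← mul_assoc, ← map_mul, inv_mul_cancel₀ h2, map_one, one_mul] at h3
  exact h3

/-- PROOF. Let `f = u + v * y` and `σ` of `exists_conj`; `σ` fixes `E[S]` (`hS`), so `σ f = u - v * y` is also integral over `E[S]` (private theorem `F4_int` of `MP_adc574_ag_CC/F4.lean`, copy it). So `2 u = f + σ f` and `2 v y = f - σ f` are integral,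
and `2` is a unit of `E` (last lines of `reg_component` in `MP_adc574_ag_CC/F4.lean`). -/
theorem reg_two (hf : IsFunctionField 2 F x y) (hF : Squarefree F) (h0 : F.natDegree ≠ 0)
    (h2 : (2 : E) ≠ 0) (S : Set L) (hS : ∀ s ∈ S, s ∈ IntermediateField.adjoin E {x}) {u v : L}
    (hu : u ∈ IntermediateField.adjoin E {x}) (hv : v ∈ IntermediateField.adjoin E {x})
    (h : u + v * y ∈ reg E S) : u ∈ reg E S ∧ v * y ∈ reg E S := by
  obtain ⟨σ, hσ1, hσ2⟩ := exists_conj hf hF h0
  have h3 : σ (u + v * y) = u - v * y := by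
    rw [map_add, map_mul, hσ1 u hu, hσ1 v hv, hσ2]
    ring
  have h4 : σ (u + v * y) ∈ reg E S := BK2_int S hS σ hσ1 h
  rw [h3] at h4
  have h5 : IsIntegral (Algebra.adjoin E S) (u + v * y) := h
  have h6 : IsIntegral (Algebra.adjoin E S) (u - v * y) := h4
  have e2 : algebraMap E L 2 = 2 := map_ofNat _ 2
  constructor
  · refine BK2_half h2 S (h5.add h6) ?_
    rw [e2]
    ring
  · refine BK2_half h2 S (h5.sub h6) ?_
    rw [e2]
    ring

end MPadcOA
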