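import Pool.Agent.Lib.MP_adc574_ag_CC.F5
import Pool.Agent.Lib.MP_adc574_ag_OA.BK1

/-!
# Leaf BK3: the coefficient of `y` in an integral element
-/

set_option autoImplicit false

namespace MPadcOA

open Polynomial MPadcCC

universe u

variable {E L : Type u} [Field E] [Field L] [Algebra E L] {F : E[X]} {x y : L}

private theorem BK3_inj (hx : Transcendental E x) {P Q : E[X]} (h : aeval x P = aeval x Q) :
    P = Q := (transcendental_iff_injective.mp hx) h

private theorem BK3_mem_adj (P : E[X]) : aeval x P ∈ IntermediateField.adjoin E {x} :=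
  IntermediateField.algebra_adjoin_le_adjoin E {x} (aeval_mem_adjoin_singleton E x)

private theorem BK3_mono {S T : Set L} (hST : S ⊆ T) {f : L} (h : f ∈ reg E S) : f ∈ reg E T := by
  obtain ⟨p, hp, h0⟩ := h
  refine ⟨p.map (Subalgebra.inclusion (Algebra.adjoin_mono hST)).toRingHom, hp.map _, ?_⟩
  rw [eval₂_map]
  exact h0

/-- PROOF. As `eq_poly_of_pow` in `MP_adc574_ag_CC/F6.lean`: `u * B(x) = A(x)` with `A, B` coprime (`exists_coprime`), so `A ^ 2 * F = P * B ^ 2`, `B ^ 2 ∣ F` (coprime), so `B` is a unit because `F` is squarefree; `u = (A * C b⁻¹)(x)`. -/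
theorem eq_poly_of_sq (hx : Transcendental E x) (hF : Squarefree F) {u : L}
    (hu : u ∈ IntermediateField.adjoin E {x}) {P : E[X]} (h : u ^ 2 * aeval x F = aeval x P) :
    ∃ U : E[X], u = aeval x U := by
  obtain ⟨A, B, hAB, hB, hu'⟩ := exists_coprime hx hu
  have h1 : A ^ 2 * F = P * B ^ 2 := by
    refine BK3_inj hx ?_
    rw [map_mul, map_mul, map_pow, map_pow, ← hu', ← h]
    ring
  have h2 : B ^ 2 ∣ A ^ 2 * F := ⟨P, by rw [h1, mul_comm]⟩
  have h3 : B ^ 2 ∣ F := (hAB.symm.pow).dvd_of_dvd_mul_left h2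
  have h4 : IsUnit B := by
    refine hF B ?_
    rw [← sq]
    exact h3
  obtain ⟨b, hb, hbB⟩ := isUnit_iff.mp h4
  refine ⟨A * C b⁻¹, ?_⟩
  have hb0 : b ≠ 0 := hb.ne_zero
  rw [map_mul, ← hu', ← hbB, mul_assoc, ← map_mul, ← C_mul, mul_inv_cancel₀ hb0]
  simp

/-- PROOF. As `comp_x` in `MP_adc574_ag_CC/F6.lean`: `(v * y) ^ 2 = v ^ 2 * F(x)` is in `E(x)` and integral, `mem_reg_x`, `eq_poly_of_sq`. -/
theorem two_x (hf : IsFunctionField 2 F x y) (hF : Squarefree F) {v : L}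
    (hv : v ∈ IntermediateField.adjoin E {x}) (h : v * y ∈ reg E {x}) :
    ∃ U : E[X], v = aeval x U := by
  have h1 : (v * y) ^ 2 = v ^ 2 * aeval x F := by
    rw [mul_pow, hf.eq]
  have h2 : (v * y) ^ 2 ∈ IntermediateField.adjoin E {x} := by
    rw [h1]
    exact mul_mem (pow_mem hv _) (BK3_mem_adj _)
  have h3 : (v * y) ^ 2 ∈ reg E {x} := IsIntegral.pow h _
  obtain ⟨P, hP⟩ := mem_reg_x hf.trans h2 h3
  exact eq_poly_of_sq hf.trans hF hv (h1.symm.trans hP)

/-- PROOF. As `comp_both` in `MP_adc574_ag_CC/F6.lean`. -/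
theorem two_both (hf : IsFunctionField 2 F x y) (hF : Squarefree F) {v : L}
    (hv : v ∈ IntermediateField.adjoin E {x}) (h : v * y ∈ reg E {x, x⁻¹}) :
    ∃ (U : E[X]) (N : ℕ), v * x ^ N = aeval x U := by
  have h1 : (v * y) ^ 2 = v ^ 2 * aeval x F := by
    rw [mul_pow, hf.eq]
  have h2 : (v * y) ^ 2 ∈ IntermediateField.adjoin E {x} := by
    rw [h1]
    exact mul_mem (pow_mem hv _) (BK3_mem_adj _)
  have h3 : (v * y) ^ 2 ∈ reg E {x, x⁻¹} := IsIntegral.pow h _
  obtain ⟨P, N, hP⟩ := mem_reg_both hf.trans h2 h3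
  have hx : x ∈ IntermediateField.adjoin E {x} :=
    IntermediateField.subset_adjoin E {x} (Set.mem_singleton x)
  obtain ⟨U, hU⟩ := eq_poly_of_sq (P := P * X ^ N) hf.trans hF
    (mul_mem hv (pow_mem hx N)) (by
      rw [map_mul, map_pow, aeval_X, ← hP, h1]
      ring)
  exact ⟨U, N, hU⟩

/-- PROOF. As `comp_inv` in `MP_adc574_ag_CC/F6.lean` (`mm c j` is replaced by `m`): `v * x ^ N = U₀(x)` (`two_both`), `(v y) ^ 2 = v ^ 2 F(x) = P(x⁻¹)` (`mem_reg_inv`), so `U₀ ^ 2 * F * X ^ (deg P) = X ^ (2 N) * P.reverse`, so `2 deg U₀ + deg F ≤ 2 N`, and with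
`2 m - 1 ≤ deg F` (parity): `deg U₀ + m ≤ N`; `U = reflect (N - m) U₀`. -/
theorem two_inv (hf : IsFunctionField 2 F x y) (hF : Squarefree F) (m : ℕ)
    (hm : 2 * m ≤ F.natDegree + 1) {v : L} (hv : v ∈ IntermediateField.adjoin E {x})
    (h : v * y ∈ reg E {x⁻¹}) : ∃ U : E[X], v * x ^ m = aeval x⁻¹ U := by
  have hx0 : x ≠ 0 := x_ne_zero hf.trans
  have hF0 : F ≠ 0 := hF.ne_zero
  obtain ⟨U₀, N, hU⟩ := two_both hf hF hv (BK3_mono (Set.subset_insert _ _) h)
  by_cases hU0 : U₀ = 0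
  · refine ⟨0, ?_⟩
    rw [hU0, map_zero] at hU
    have : v = 0 := (mul_eq_zero.mp hU).resolve_right (pow_ne_zero _ hx0)
    rw [this, zero_mul, map_zero]
  have h1 : (v * y) ^ 2 = v ^ 2 * aeval x F := by
    rw [mul_pow, hf.eq]
  have h2 : (v * y) ^ 2 ∈ IntermediateField.adjoin E {x} := by
    rw [h1]
    exact mul_mem (pow_mem hv _) (BK3_mem_adj _)
  have h3 : (v * y) ^ 2 ∈ reg E {x⁻¹} := IsIntegral.pow h _
  obtain ⟨P, hP⟩ := mem_reg_inv hf.trans h2 h3
  let _ : Invertible x := invertibleOfNonzero hx0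
  let _ : Invertible x⁻¹ := invertibleOfNonzero (inv_ne_zero hx0)
  have hinv : ⅟(x⁻¹ : L) = x := by rw [invOf_eq_inv, inv_inv]
  have hrev : aeval x P.reverse * (x⁻¹) ^ P.natDegree = aeval x⁻¹ P := by
    have := eval₂_reverse_mul_pow (algebraMap E L) (x⁻¹) P
    rw [hinv] at this
    exact this
  have h4 : U₀ ^ 2 * F * X ^ P.natDegree = X ^ (2 * N) * P.reverse := by
    refine BK3_inj hf.trans ?_
    have e2 : aeval x P.reverse = v ^ 2 * aeval x F * x ^ P.natDegree := by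
      rw [← h1, hP, ← hrev, mul_assoc, ← mul_pow, inv_mul_cancel₀ hx0, one_pow, mul_one]
    rw [map_mul, map_mul, map_mul, map_pow, map_pow, map_pow, aeval_X, ← hU, e2, mul_pow,
      ← pow_mul, mul_comm N 2]
    ring
  have hdeg : U₀.natDegree + m ≤ N := by
    have e3 : (U₀ ^ 2 * F * X ^ P.natDegree).natDegree
        = 2 * U₀.natDegree + F.natDegree + P.natDegree := by
      rw [natDegree_mul (mul_ne_zero (pow_ne_zero _ hU0) hF0) (pow_ne_zero _ X_ne_zero),
        natDegree_mul (pow_ne_zero _ hU0) hF0, natDegree_pow, natDegree_X_pow]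
    have e4 : (X ^ (2 * N) * P.reverse).natDegree ≤ 2 * N + P.natDegree := by
      refine natDegree_mul_le.trans ?_
      rw [natDegree_X_pow]
      exact Nat.add_le_add_left (reverse_natDegree_le P) _
    rw [← h4, e3] at e4
    omega
  refine ⟨reflect (N - m) U₀, ?_⟩
  have h5 : aeval x⁻¹ (reflect (N - m) U₀) * x ^ (N - m) = aeval x U₀ := by
    have := eval₂_reflect_mul_pow (algebraMap E L) x (N - m) U₀ (by omega)
    rw [invOf_eq_inv] at this
    exact this
  refine mul_right_cancel₀ (pow_ne_zero (N - m) hx0) ?_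
  rw [h5, ← hU, mul_assoc, ← pow_add]
  refine congrArg (fun k => v * x ^ k) ?_
  omega

end MPadcOA
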