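import Pool.Agent.Lib.MP_adc574_ag_CC.F7
import Pool.Agent.Lib.MP_adc574_ag_OA.BK2
import Pool.Agent.Lib.MP_adc574_ag_OA.BK3

/-!
# Leaf BK4: normal forms of the regular functions on `y ^ 2 = F(x)`
-/

set_option autoImplicit false

namespace MPadcOA

open Polynomial MPadcCC

universe u

variable {E L : Type u} [Field E] [Field L] [Algebra E L] {F : E[X]} {x y : L}

/-- PROOF. `two_exists`, `reg_two` (with `S = {x}`), `mem_reg_x` of `MP_adc574_ag_CC/F5.lean`, `two_x`. -/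
theorem norm_x (hf : IsFunctionField 2 F x y) (hF : Squarefree F) (h0 : F.natDegree ≠ 0)
    (h2 : (2 : E) ≠ 0) {f : L} (h : f ∈ reg E {x}) :
    ∃ A C : E[X], f = aeval x A + aeval x C * y := by
  obtain ⟨u, v, hu, hv, rfl⟩ := two_exists hf f
  obtain ⟨h3, h4⟩ := reg_two hf hF h0 h2 {x} (by
    intro s hs
    rw [Set.mem_singleton_iff] at hs
    rw [hs]
    exact IntermediateField.mem_adjoin_simple_self E x) hu hv h
  obtain ⟨A, hA⟩ := mem_reg_x hf.trans hu h3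
  obtain ⟨C, hC⟩ := two_x hf hF hv h4
  exact ⟨A, C, by rw [hA, hC]⟩

/-- PROOF. The same with `mem_reg_inv`, `two_inv` (`x⁻¹ ∈ E(x)`, `x ≠ 0`: `x_ne_zero`). -/
theorem norm_inv (hf : IsFunctionField 2 F x y) (hF : Squarefree F) (h0 : F.natDegree ≠ 0)
    (h2 : (2 : E) ≠ 0) (m : ℕ) (hm : 2 * m ≤ F.natDegree + 1) {f : L} (h : f ∈ reg E {x⁻¹}) :
    ∃ A C : E[X], f = aeval x⁻¹ A + aeval x⁻¹ C * (x ^ m)⁻¹ * y := by
  have hx0 : x ≠ 0 := x_ne_zero hf.trans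
  obtain ⟨u, v, hu, hv, rfl⟩ := two_exists hf f
  obtain ⟨h3, h4⟩ := reg_two hf hF h0 h2 {x⁻¹} (by
    intro s hs
    rw [Set.mem_singleton_iff] at hs
    rw [hs]
    exact inv_mem (IntermediateField.mem_adjoin_simple_self E x)) hu hv h
  obtain ⟨A, hA⟩ := mem_reg_inv hf.trans hu h3
  obtain ⟨C, hC⟩ := two_inv hf hF m hm hv h4
  refine ⟨A, C, ?_⟩
  rw [← hA, ← hC, mul_inv_cancel_right₀ (pow_ne_zero _ hx0)]

/-- PROOF. The same with `mem_reg_both`, `two_both`; take the same `N` for both (the sum of the two). -/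
theorem norm_both (hf : IsFunctionField 2 F x y) (hF : Squarefree F) (h0 : F.natDegree ≠ 0)
    (h2 : (2 : E) ≠ 0) {f : L} (h : f ∈ reg E {x, x⁻¹}) :
    ∃ (A C : E[X]) (N : ℕ), f = aeval x A * (x ^ N)⁻¹ + aeval x C * (x ^ N)⁻¹ * y := by
  have hx0 : x ≠ 0 := x_ne_zero hf.trans
  obtain ⟨u, v, hu, hv, rfl⟩ := two_exists hf f
  obtain ⟨h3, h4⟩ := reg_two hf hF h0 h2 {x, x⁻¹} (by
    intro s hs
    have hxm : x ∈ IntermediateField.adjoin E {x} := IntermediateField.mem_adjoin_simple_self E x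
    rcases hs with rfl | hs
    · exact hxm
    · rw [Set.mem_singleton_iff] at hs
      rw [hs]
      exact inv_mem hxm) hu hv h
  obtain ⟨A, N1, hA⟩ := mem_reg_both hf.trans hu h3
  obtain ⟨C, N2, hC⟩ := two_both hf hF hv h4
  have hN : x ^ (N1 + N2) ≠ 0 := pow_ne_zero _ hx0
  have e1 : aeval x (A * X ^ N2) = u * x ^ (N1 + N2) := by
    rw [map_mul, map_pow, aeval_X, ← hA, mul_assoc, ← pow_add]
  have e2 : aeval x (C * X ^ N1) = v * x ^ (N1 + N2) := by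
    rw [map_mul, map_pow, aeval_X, ← hC, mul_assoc, ← pow_add, add_comm N2 N1]
  refine ⟨A * X ^ N2, C * X ^ N1, N1 + N2, ?_⟩
  rw [e1, e2, mul_inv_cancel_right₀ hN, mul_inv_cancel_right₀ hN]

/-- PROOF. `y ^ 2 = F(x)` is integral, `IsIntegral.of_pow`; as `mem_reg_x_of` of `MP_adc574_ag_CC/F7.lean`. -/
theorem mem_x (hf : IsFunctionField 2 F x y) (A C : E[X]) :
    aeval x A + aeval x C * y ∈ reg E {x} := by
  have h1 : ∀ Q : E[X], IsIntegral (Algebra.adjoin E {x}) (aeval x Q) := fun Q =>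
    isIntegral_algebraMap (x := (⟨aeval x Q, aeval_mem_adjoin_singleton E x⟩ : Algebra.adjoin E {x}))
  have h2 : IsIntegral (Algebra.adjoin E {x}) y := by
    refine IsIntegral.of_pow two_pos ?_
    rw [hf.eq]
    exact h1 _
  exact (h1 A).add ((h1 C).mul h2)

/-- PROOF. `((x ^ m)⁻¹ * y) ^ 2 = F(x) / x ^ (2 m)` is a polynomial in `x⁻¹` because `deg F ≤ 2 m`: `exists_reflect` for `x⁻¹`, as `mem_reg_inv_of` of `MP_adc574_ag_CC/F7.lean`. -/
theorem mem_inv (hf : IsFunctionField 2 F x y) (m : ℕ) (hm : F.natDegree ≤ 2 * m) (A C : E[X]) :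
    aeval x⁻¹ A + aeval x⁻¹ C * (x ^ m)⁻¹ * y ∈ reg E {x⁻¹} := by
  have h1 : ∀ Q : E[X], IsIntegral (Algebra.adjoin E {x⁻¹}) (aeval x⁻¹ Q) := fun Q =>
    isIntegral_algebraMap
      (x := (⟨aeval x⁻¹ Q, aeval_mem_adjoin_singleton E x⁻¹⟩ : Algebra.adjoin E {x⁻¹}))
  have hx : x ≠ 0 := x_ne_zero hf.trans
  obtain ⟨B, _, hB⟩ := exists_reflect (inv_ne_zero hx) F 0 (2 * m) (by rw [add_zero]; exact hm)
  rw [inv_inv, pow_zero, inv_one, mul_one] at hB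
  have h2 : IsIntegral (Algebra.adjoin E {x⁻¹}) ((x ^ m)⁻¹ * y) := by
    refine IsIntegral.of_pow two_pos ?_
    have h3 : ((x ^ m)⁻¹ * y) ^ 2 = aeval x⁻¹ B := by
      rw [hB, mul_pow, hf.eq, inv_pow, inv_pow, ← pow_mul, mul_comm m 2]
    rw [h3]
    exact h1 _
  rw [mul_assoc]
  exact (h1 A).add ((h1 C).mul h2)

end MPadcOA
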