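import Pool.Agent.Lib.MP_adc574_ag_CC.F9
import Pool.Agent.Lib.MP_adc574_ag_OA.BK1

/-!
# Leaf BK6: the differential of `u(x) + v(x) y`
-/

set_option autoImplicit false

namespace MPadcOA

open Polynomial MPadcCC

universe u

variable {E L : Type u} [Field E] [Field L] [Algebra E L] {F : E[X]} {x y : L}

/-- PROOF. `y ^ 2 = F(x) ≠ 0`. -/
theorem y_ne_zero_two (hf : IsFunctionField 2 F x y) (hF : F ≠ 0) : y ≠ 0 := by
  intro h
  have h1 := hf.eq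
  rw [h, zero_pow two_ne_zero] at h1
  exact aeval_ne_zero hf.trans hF h1.symm

/-- PROOF. `y ^ (2 M + 1) = (y ^ 2) ^ M * y`. -/
theorem y_pow_two (hf : IsFunctionField 2 F x y) (M : ℕ) :
    y ^ (2 * M + 1) = aeval x (F ^ M) * y := by
  rw [pow_succ, pow_mul, hf.eq, map_pow]

/-- PROOF. `(x ^ (p N))⁻¹ * P(x) = ((x ^ N)⁻¹) ^ p * P(x)`: `Derivation.leibniz`, `D_pow_p`, `Derivation.map_aeval`, as `D_term` in `MP_adc574_ag_CC/F9.lean`. -/
theorem D_one_term {p : ℕ} [Fact p.Prime] [CharP E p] (P : E[X]) (N : ℕ) (x : L) :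
    KaehlerDifferential.D E L ((x ^ (p * N))⁻¹ * aeval x P) =
      ((x ^ (p * N))⁻¹ * aeval x (derivative P)) • KaehlerDifferential.D E L x := by
  have h1 : (x ^ (p * N))⁻¹ * aeval x P = ((x ^ N)⁻¹) ^ p * aeval x P := by
    rw [inv_pow, ← pow_mul, mul_comm N p]
  rw [h1, Derivation.leibniz, D_pow_p, smul_zero, add_zero, Derivation.map_aeval, smul_smul, inv_pow, ← pow_mul,
    mul_comm N p]

/-- PROOF. `y * y ^ p = y ^ (2 (M + 1)) = F(x) ^ (M + 1)`, so `y = (y ^ p)⁻¹ * (F ^ (M + 1))(x)`, and `(x ^ (p N))⁻¹ * P(x) * y = ((x ^ N * y)⁻¹) ^ p * (P * F ^ (M + 1))(x)`; then as `D_term` in `MP_adc574_ag_CC/F9.lean`. -/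
theorem D_two_term {p : ℕ} [Fact p.Prime] [CharP E p] (hf : IsFunctionField 2 F x y)
    (hF : F ≠ 0) {M : ℕ} (hp : p = 2 * M + 1) (P : E[X]) (N : ℕ) :
    KaehlerDifferential.D E L ((x ^ (p * N))⁻¹ * aeval x P * y) =
      ((x ^ (p * N))⁻¹ * ((y ^ p)⁻¹ * aeval x (derivative (P * F ^ (M + 1))))) •
        KaehlerDifferential.D E L x := by
  have hy : y ≠ 0 := y_ne_zero_two hf hF
  have h0 : y * y ^ p = aeval x (F ^ (M + 1)) := by
    rw [← pow_succ', hp, map_pow, ← hf.eq, ← pow_mul]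
    congr 1
  have h1 : (x ^ (p * N))⁻¹ * aeval x P * y = ((x ^ N * y)⁻¹) ^ p * aeval x (P * F ^ (M + 1)) := by
    rw [map_mul, ← h0, inv_pow, mul_pow, ← pow_mul, mul_comm N p, mul_inv]
    have h2 : y ^ p ≠ 0 := pow_ne_zero p hy
    calc (x ^ (p * N))⁻¹ * aeval x P * y = (x ^ (p * N))⁻¹ * aeval x P * y * ((y ^ p)⁻¹ * y ^ p) := by
          rw [inv_mul_cancel₀ h2, mul_one]
      _ = (x ^ (p * N))⁻¹ * (y ^ p)⁻¹ * (aeval x P * (y * y ^ p)) := by ring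
  rw [h1, Derivation.leibniz, D_pow_p, smul_zero, add_zero, Derivation.map_aeval, smul_smul]
  congr 1
  rw [inv_pow, mul_pow, ← pow_mul, mul_comm N p, mul_inv, mul_assoc]

/-- PROOF. `(y ^ (2 M + 1))⁻¹ = (F(x) ^ (M + 1))⁻¹ * y`, so `T(x) + (S(x) / F(x) ^ (M + 1)) * y = 0`: `two_unique`, and `aeval_ne_zero` of `MP_adc574_ag_CC/F1.lean`. -/
theorem indep_two (hf : IsFunctionField 2 F x y) (hF : Squarefree F) (h0 : F.natDegree ≠ 0)
    (M : ℕ) (T S : E[X]) (h : aeval x T + (y ^ (2 * M + 1))⁻¹ * aeval x S = 0) :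
    T = 0 ∧ S = 0 := by
  have hF0 : F ≠ 0 := hF.ne_zero
  have hy : y ≠ 0 := y_ne_zero_two hf hF0
  have hmem : ∀ P : E[X], aeval x P ∈ IntermediateField.adjoin E {x} := fun P =>
    IntermediateField.algebra_adjoin_le_adjoin E {x} (aeval_mem_adjoin_singleton E x)
  have hFx : aeval x (F ^ (M + 1)) ≠ 0 := aeval_ne_zero hf.trans (pow_ne_zero _ hF0)
  have h1 : (y ^ (2 * M + 1))⁻¹ = (aeval x (F ^ (M + 1)))⁻¹ * y := by
    have h2 : y * y ^ (2 * M + 1) = aeval x (F ^ (M + 1)) := by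
      rw [← pow_succ', map_pow, ← hf.eq, ← pow_mul]
      congr 1
    rw [← h2, mul_inv]
    calc (y ^ (2 * M + 1))⁻¹ = (y⁻¹ * y) * (y ^ (2 * M + 1))⁻¹ := by rw [inv_mul_cancel₀ hy, one_mul]
      _ = y⁻¹ * (y ^ (2 * M + 1))⁻¹ * y := by ring
  have h3 : aeval x T + (aeval x S * (aeval x (F ^ (M + 1)))⁻¹) * y = 0 := by
    rw [← h, h1]
    ring
  obtain ⟨h4, h5⟩ := two_unique hf hF h0 (hmem T) (mul_mem (hmem S) (inv_mem (hmem _))) h3
  constructor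
  · by_contra hT
    exact aeval_ne_zero hf.trans hT h4
  · by_contra hS
    exact mul_ne_zero (aeval_ne_zero hf.trans hS) (inv_ne_zero hFx) h5

end MPadcOA
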