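import Pool.Agent.Lib.MP_adc574_ag_CC.F11
import Pool.Agent.Lib.MP_adc574_ag_OA.BK4
import Pool.Agent.Lib.MP_adc574_ag_OA.BK6

/-!
# Leaf BK8: `H ^ 1 (X, B) = 0` for `y ^ 2 = F(x)`
-/

set_option autoImplicit false

namespace MPadcOA

open Polynomial MPadcCC

universe u

/-- PROOF. As `H1_of` in `MP_adc574_ag_CC/F13.lean`. `f = A₀(x) x ^ (-N) + C₀(x) x ^ (-N) y` (`norm_both`). `span_core` (`MP_adc574_ag_CC/F11.lean`) with `m = 0`, `G = 1` (the determinant of an empty matrix is `1`) for the first term: `A₀(x) x ^ (-N) = A₁(x) + A₂(x⁻¹) + s(x⁻¹) ^ p`,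
and with `m = g + 1`, `G = F ^ M` for the second: `C₀(x) x ^ (-N) = C₁(x) + C₂(x⁻¹) (x ^ (g + 1))⁻¹ + t(x⁻¹) ^ p F(x) ^ M`, where `t(x⁻¹) ^ p F(x) ^ M y = (t(x⁻¹) y) ^ p` (`y_pow_two`). The differentials of `p`-th powers are zero (`D_pow_p`). The two parts are regular by `mem_x`, `mem_inv`
(`m = g + 1`). -/
theorem H1_two {E L : Type u} [Field E] [Field L] [Algebra E L] {F : E[X]} {x y : L} {p : ℕ}
    [Fact p.Prime] [CharP E p] (hE : ∀ a : E, ∃ b : E, b ^ p = a)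
    (hf : IsFunctionField 2 F x y) (hF : Squarefree F) (h0 : F.natDegree ≠ 0)
    (h2 : (2 : E) ≠ 0) {M g : ℕ} (hp : p = 2 * M + 1) (hg : g + 1 ≤ p)
    (hdeg : F.natDegree ≤ 2 * (g + 1)) (hd : (hw p (g + 1) (F ^ M)).det ≠ 0) {f : L}
    (h : f ∈ reg E {x, x⁻¹}) :
    ∃ g' ∈ reg E {x}, ∃ h' ∈ reg E {x⁻¹}, KaehlerDifferential.D E L f =
      KaehlerDifferential.D E L g' + KaehlerDifferential.D E L h' := by
  have hx : x ≠ 0 := x_ne_zero hf.trans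
  obtain ⟨A0, C0, N, hAC⟩ := norm_both hf hF h0 h2 h
  obtain ⟨A1, A2, s, hA⟩ := span_core hE hx 0 (Nat.zero_le p) 1 (by
    have : IsEmpty (Fin (0 - 1)) := by
      rw [Nat.zero_sub]
      exact Fin.isEmpty
    rw [Matrix.det_isEmpty]
    exact one_ne_zero) A0 N
  obtain ⟨C1, C2, t, hC⟩ := span_core hE hx (g + 1) hg (F ^ M) hd C0 N
  rw [pow_zero, inv_one, mul_one, map_one, mul_one] at hA
  have hy : y ^ p = aeval x (F ^ M) * y := by
    rw [hp]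
    exact y_pow_two hf M
  refine ⟨aeval x A1 + aeval x C1 * y, mem_x hf A1 C1,
    aeval x⁻¹ A2 + aeval x⁻¹ C2 * (x ^ (g + 1))⁻¹ * y, mem_inv hf (g + 1) hdeg A2 C2, ?_⟩
  have hsum : f = (aeval x A1 + aeval x C1 * y) +
      (aeval x⁻¹ A2 + aeval x⁻¹ C2 * (x ^ (g + 1))⁻¹ * y) +
      ((aeval x⁻¹ s) ^ p + (aeval x⁻¹ t * y) ^ p) := by
    rw [hAC, hA, hC, mul_pow, hy]
    ring
  rw [hsum, map_add, map_add, map_add (KaehlerDifferential.D E L) ((aeval x⁻¹ s) ^ p), D_pow_p, D_pow_p,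
    add_zero, add_zero]

end MPadcOA
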