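import Pool.Agent.Lib.MP_adc574_ag_LP.Primes
import Pool.Agent.Lib.MP_adc574_ag_CC.F3

/-!
# Leaf BK5: `d x ≠ 0` on `y ^ 2 = F(x)`
-/

set_option autoImplicit false

namespace MPadcOA

open Polynomial MPadcCC

universe u

/-- PROOF. Copy of `D_x_ne_zero` of `MP_adc574_ag_CC/F8.lean` with `c.e = 2`, `c.poly = F` (the only fact on `c.poly` used there is that it is not zero: `hw`). -/
theorem D_x_ne_zero_two {E L : Type u} [Field E] [Field L] [Algebra E L] {F : E[X]} {x y : L}
    (hf : IsFunctionField 2 F x y) (hF : F ≠ 0) (h2 : (2 : E) ≠ 0) :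
    KaehlerDifferential.D E L x ≠ 0 := by
  classical
  let _ : Algebra E[X] L := (aeval x : E[X] →ₐ[E] L).toRingHom.toAlgebra
  have hXL : ∀ P : E[X], algebraMap E[X] L P = aeval x P := fun _ => rfl
  have : IsScalarTower E E[X] L := IsScalarTower.of_algebraMap_eq fun a => by
    rw [hXL]
    exact (aeval_C x a).symm
  have hinj : Function.Injective (algebraMap E[X] L) := transcendental_iff_injective.1 hf.trans
  let g : FractionRing E[X] →+* L := IsFractionRing.lift hinj
  let _ : Algebra (FractionRing E[X]) L := g.toAlgebra
  have : IsScalarTower E[X] (FractionRing E[X]) L :=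
    IsScalarTower.of_algebraMap_eq fun P => (IsFractionRing.lift_algebraMap hinj P).symm
  have : IsScalarTower E (FractionRing E[X]) L := IsScalarTower.of_algebraMap_eq fun a => by
    rw [IsScalarTower.algebraMap_apply E E[X] (FractionRing E[X]),
      ← IsScalarTower.algebraMap_apply E[X] (FractionRing E[X]) L, ← IsScalarTower.algebraMap_apply E E[X] L]
  have hw : algebraMap E[X] (FractionRing E[X]) F ≠ 0 := by
    rw [Ne, IsFractionRing.to_map_eq_zero_iff]
    exact hF
  have heK : ((2 : ℕ) : FractionRing E[X]) ≠ 0 := by
    intro h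
    apply h2
    have h1 : algebraMap E (FractionRing E[X]) ((2 : ℕ) : E) = 0 := by rw [map_natCast, h]
    have h3 := (map_eq_zero _).1 h1
    rwa [Nat.cast_ofNat] at h3
  have hy : (minpoly (FractionRing E[X]) y).Separable := by
    refine (separable_X_pow_sub_C (algebraMap E[X] (FractionRing E[X]) F) heK hw).of_dvd (minpoly.dvd _ _ ?_)
    rw [map_sub, map_pow, aeval_X, aeval_C, ← IsScalarTower.algebraMap_apply E[X] (FractionRing E[X]) L, hXL,
      ← hf.eq, sub_self]
  have htop : IntermediateField.adjoin (FractionRing E[X]) {y} = ⊤ := by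
    have h1 : IntermediateField.adjoin E {x, y} ≤
        (IntermediateField.adjoin (FractionRing E[X]) {y}).restrictScalars E := by
      rw [IntermediateField.adjoin_le_iff]
      rintro z (rfl | rfl)
      · have h2 : algebraMap (FractionRing E[X]) L (algebraMap E[X] (FractionRing E[X]) X) = z := by
          rw [← IsScalarTower.algebraMap_apply E[X] (FractionRing E[X]) L, hXL, aeval_X]
        rw [SetLike.mem_coe, IntermediateField.mem_restrictScalars, ← h2]
        exact IntermediateField.algebraMap_mem _ _
      · rw [SetLike.mem_coe, IntermediateField.mem_restrictScalars]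
        exact IntermediateField.mem_adjoin_simple_self _ _
    rw [hf.gen] at h1
    rw [eq_top_iff]
    intro z _
    have h5 := h1 (IntermediateField.mem_top (x := z))
    rw [IntermediateField.mem_restrictScalars] at h5
    exact h5
  have : Algebra.IsSeparable (FractionRing E[X]) L := by
    have h1 : Algebra.IsSeparable (FractionRing E[X]) (IntermediateField.adjoin (FractionRing E[X]) {y}) :=
      (IntermediateField.isSeparable_adjoin_simple_iff_isSeparable _ _).2 hy
    rw [htop] at h1
    exact AlgEquiv.Algebra.isSeparable IntermediateField.topEquiv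
  have : Algebra.FormallyEtale (FractionRing E[X]) L := Algebra.FormallyEtale.of_isSeparable _ _
  have : Algebra.FormallyEtale E[X] (FractionRing E[X]) :=
    Algebra.FormallyEtale.of_isLocalization (nonZeroDivisors E[X])
  have : Algebra.FormallyEtale E[X] L := Algebra.FormallyEtale.comp E[X] (FractionRing E[X]) L
  intro h0
  have h1 := KaehlerDifferential.tensorKaehlerEquivOfFormallyEtale_symm_D_algebraMap E E[X] L (X : E[X])
  have h2 : algebraMap E[X] L X = x := by rw [hXL, aeval_X]
  rw [h2, h0, map_zero] at h1
  have h3 := congrArg (fun t => TensorProduct.rid E[X] L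
    (TensorProduct.map LinearMap.id (KaehlerDifferential.polynomialEquiv E).toLinearMap t)) h1
  simp only [map_zero, TensorProduct.map_tmul, LinearMap.id_apply, LinearEquiv.coe_coe,
    KaehlerDifferential.polynomialEquiv_D, derivative_X, TensorProduct.rid_tmul, one_smul] at h3
  exact zero_ne_one h3

end MPadcOA
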