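import Pool.Agent.Lib.MP_adc574_ag_CC.P2

/-!
# Leaf BK7 (polynomials only): the polynomial part of `H ^ 0 = 0` for `y ^ 2 = F(x)`
-/

set_option autoImplicit false

namespace MPadcOA

open Polynomial MPadcCC

variable {K : Type*} [Field K] {p : ℕ} [Fact p.Prime] [CharP K p]

/-- PROOF. `degree_derivative_lt` of `MP_adc574_ag_CC/P2.lean` (with `T = N`): `derivative B` has degree `< p N - 1`, so `X ^ (p N) * derivative A = derivative B` gives `derivative A = 0`. -/
theorem H0_one (A B : K[X]) (N : ℕ) (hB : B.natDegree ≤ p * N)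
    (h : X ^ (p * N) * derivative A = derivative B) : derivative A = 0 := by
  by_contra hD
  have h2 := degree_derivative_lt (p := p) B N hB
  have hne : X ^ (p * N) * derivative A ≠ 0 := mul_ne_zero (pow_ne_zero _ X_ne_zero) hD
  rw [← h, degree_eq_natDegree hne, natDegree_mul (pow_ne_zero _ X_ne_zero) hD,
    natDegree_X_pow] at h2
  have h3 : p * N + (derivative A).natDegree < p * N - 1 := by exact_mod_cast h2
  omega

/-- PROOF. `derivative (A * F ^ (M + 1)) = F ^ M * f` with `f = derivative A * F + C (M + 1) * A * derivative F`. Suppose it is not zero. CASE `deg F = 2 g + 2`: `deg (B F ^ (M + 1)) ≤ p N - (g + 1) + (M + 1) (2 g + 2) = p (N + g + 1)`, so its derivative has degree `< p (N + g + 1) - 1`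
(`degree_derivative_lt`), so `deg (F ^ M f) < p (g + 1) - 1`, `deg f < p (g + 1) - 1 - M (2 g + 2) = g`. CASE `deg F = 2 g + 1`: `deg (B F ^ (M + 1)) ≤ p N - (g + 1) + (M + 1) (2 g + 1) = p (N + g + 1) - (M + 1)`, the derivative has degree
`≤ p (N + g + 1) - (M + 1) - 1`, so `deg f ≤ p (g + 1) - M - 2 - M (2 g + 1) = g - 1`. In both cases `f = 0` by `hI` (`m - 1 = g`): a contradiction. -/
theorem H0_two {g M : ℕ} (hp : p = 2 * M + 1) (F : K[X])
    (hdeg : F.natDegree = 2 * g + 1 ∨ F.natDegree = 2 * g + 2) (hI : Inj (g + 1) (F ^ M))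
    (A B : K[X]) (N : ℕ) (hB : B.natDegree + (g + 1) ≤ p * N)
    (h : X ^ (p * N) * derivative (A * F ^ (M + 1)) = derivative (B * F ^ (M + 1))) :
    derivative (A * F ^ (M + 1)) = 0 := by
  by_contra hD
  apply hD
  have hF0 : F ≠ 0 := by
    rintro rfl
    rw [natDegree_zero] at hdeg
    omega
  obtain ⟨f, hf⟩ : ∃ f : K[X], derivative (A * F ^ (M + 1)) = f * F ^ M := by
    refine ⟨derivative A * F + A * (C ((M + 1 : ℕ) : K) * derivative F), ?_⟩
    rw [derivative_mul, derivative_pow, Nat.add_sub_cancel, pow_succ]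
    ring
  have hf0 : f ≠ 0 := by
    rintro rfl
    rw [zero_mul] at hf
    exact hD hf
  have hne : X ^ (p * N) * derivative (A * F ^ (M + 1)) ≠ 0 :=
    mul_ne_zero (pow_ne_zero _ X_ne_zero) hD
  have hnd : (X ^ (p * N) * derivative (A * F ^ (M + 1))).natDegree =
      p * N + (f.natDegree + M * F.natDegree) := by
    rw [natDegree_mul (pow_ne_zero _ X_ne_zero) hD, natDegree_X_pow, hf,
      natDegree_mul hf0 (pow_ne_zero _ hF0), natDegree_pow]
  have hBd : (B * F ^ (M + 1)).natDegree ≤ B.natDegree + (M + 1) * F.natDegree := by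
    refine natDegree_mul_le.trans ?_
    rw [natDegree_pow]
  have h4 : f.natDegree < g := by
    rcases hdeg with hd | hd
    · have h5 : (derivative (B * F ^ (M + 1))).natDegree ≤ (B * F ^ (M + 1)).natDegree - 1 :=
        natDegree_derivative_le _
      rw [← h, hnd] at h5
      rw [hd] at h5 hBd
      have e1 : (M + 1) * (2 * g + 1) = M * (2 * g + 1) + 2 * g + 1 := by ring
      rw [e1] at hBd
      omega
    · have h6 : (B * F ^ (M + 1)).natDegree ≤ p * (N + (g + 1)) := by
        rw [hd] at hBd
        have e1 : (M + 1) * (2 * g + 2) + (p * N) = p * (N + (g + 1)) + (g + 1) := by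
          rw [hp]
          ring
        omega
      have h2 := degree_derivative_lt (p := p) (B * F ^ (M + 1)) (N + (g + 1)) h6
      rw [← h, degree_eq_natDegree hne, hnd, hd] at h2
      have h3 : p * N + (f.natDegree + M * (2 * g + 2)) < p * (N + (g + 1)) - 1 := by
        exact_mod_cast h2
      have e2 : p * (N + (g + 1)) = p * N + M * (2 * g + 2) + (g + 1) := by
        rw [hp]
        ring
      omega
  refine absurd (hI f ?_ ⟨_, hf⟩) hf0
  rw [degree_eq_natDegree hf0]
  exact_mod_cast h4

end MPadcOA
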