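import Pool.Agent.Lib.MP_adc574_ag_OA.BK4
import Pool.Agent.Lib.MP_adc574_ag_OA.BK5
import Pool.Agent.Lib.MP_adc574_ag_OA.BK6
import Pool.Agent.Lib.MP_adc574_ag_OA.BK7

/-!
# Leaf BK9: `H ^ 0 (X, B) = 0` for `y ^ 2 = F(x)`
-/

set_option autoImplicit false

namespace MPadcOA

open Polynomial MPadcCC

universe u

private theorem BK9_deriv {E : Type u} [Field E] {p : ℕ} [Fact p.Prime] [CharP E p] (N : ℕ) (S : E[X]) :
    derivative (X ^ (p * N) * S) = X ^ (p * N) * derivative S := by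
  rw [derivative_mul, derivative_X_pow]
  have h : ((p * N : ℕ) : E) = 0 := by
    rw [Nat.cast_mul, CharP.cast_eq_zero, zero_mul]
  rw [h, C_0, zero_mul, zero_mul, zero_add]

/-- PROOF. As `H0_of` in `MP_adc574_ag_CC/F14.lean`. `f₁ = A(x) + C(x) y` (`norm_x`), `f₂ = B(x⁻¹) + D(x⁻¹) x ^ (-(g + 1)) y` (`norm_inv` with `m = g + 1`). Choose `N` with `deg B ≤ p N` and `deg D + g + 1 ≤ p N` and polynomials `B'`, `D'` with `B'(x) = x ^ (p N) B(x⁻¹)`, `deg B' ≤ p N`,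
`D'(x) = x ^ (p N) (D(x⁻¹) (x ^ (g + 1))⁻¹)`, `deg D' + g + 1 ≤ p N` (`exists_reflect` of `MP_adc574_ag_CC/F7.lean`, with `m = 0` and `m = g + 1`). By `D_one_term`, `D_two_term` (for `P = X ^ (p N) * A`, `B'` and `X ^ (p N) * C`, `D'`) `d f₁ = d f₂` reads
`((x ^ (p N))⁻¹ * (T(x) + (y ^ p)⁻¹ * S(x))) • D x = 0` with `T = (X ^ (p N) A)' - B''`, `S = (X ^ (p N) C F ^ (M + 1))' - (D' F ^ (M + 1))'`; `D x ≠ 0` (`D_x_ne_zero_two`), so `T = S = 0` (`indep_two`); the derivative of `X ^ (p N) * S` is `X ^ (p N)` times the derivative of `S`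
(private theorem `F14_deriv` there). `H0_one`, `H0_two`: `A' = 0` and `(C F ^ (M + 1))' = 0`, so `d f₁ = 0` by `D_one_term`, `D_two_term` with `N = 0`. -/
theorem H0_two_of {E L : Type u} [Field E] [Field L] [Algebra E L] {F : E[X]} {x y : L} {p : ℕ}
    [Fact p.Prime] [CharP E p] (hf : IsFunctionField 2 F x y) (hF : Squarefree F)
    (h0 : F.natDegree ≠ 0) (h2 : (2 : E) ≠ 0) {M g : ℕ} (hp : p = 2 * M + 1)
    (hdeg : F.natDegree = 2 * g + 1 ∨ F.natDegree = 2 * g + 2) (hI : Inj (g + 1) (F ^ M))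
    {f₁ f₂ : L} (h₁ : f₁ ∈ reg E {x}) (h₂ : f₂ ∈ reg E {x⁻¹})
    (h : KaehlerDifferential.D E L f₁ = KaehlerDifferential.D E L f₂) :
    KaehlerDifferential.D E L f₁ = 0 := by
  have hFne : F ≠ 0 := fun h => h0 (by rw [h, natDegree_zero])
  have hx : x ≠ 0 := x_ne_zero hf.trans
  obtain ⟨A, C₁, hA⟩ := norm_x hf hF h0 h2 h₁
  obtain ⟨B, D₁, hB⟩ := norm_inv hf hF h0 h2 (g + 1) (by omega) h₂
  have hp1 : 1 ≤ p := (Fact.out : p.Prime).one_lt.le
  set N : ℕ := B.natDegree + D₁.natDegree + (g + 1) with hN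
  have hNp : N ≤ p * N := Nat.le_mul_of_pos_left N hp1
  obtain ⟨B', hB'd, hB'⟩ := exists_reflect hx B 0 (p * N) (by omega)
  obtain ⟨D', hD'd, hD'⟩ := exists_reflect hx D₁ (g + 1) (p * N) (by omega)
  have hxN : x ^ (p * N) ≠ 0 := pow_ne_zero _ hx
  have hf1 : KaehlerDifferential.D E L f₁ =
      ((x ^ (p * N))⁻¹ * aeval x (derivative (X ^ (p * N) * A))) • KaehlerDifferential.D E L x +
      ((x ^ (p * N))⁻¹ * ((y ^ p)⁻¹ * aeval x (derivative (X ^ (p * N) * C₁ * F ^ (M + 1))))) •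
        KaehlerDifferential.D E L x := by
    have h7 : ∀ P : E[X], (x ^ (p * N))⁻¹ * aeval x (X ^ (p * N) * P) = aeval x P := by
      intro P
      rw [aeval_mul, aeval_X_pow, inv_mul_cancel_left₀ hxN]
    rw [hA, map_add, ← D_one_term (X ^ (p * N) * A) N x, ← D_two_term hf hFne hp (X ^ (p * N) * C₁) N,
      h7, h7]
  have hf2 : KaehlerDifferential.D E L f₂ =
      ((x ^ (p * N))⁻¹ * aeval x (derivative B')) • KaehlerDifferential.D E L x +
      ((x ^ (p * N))⁻¹ * ((y ^ p)⁻¹ * aeval x (derivative (D' * F ^ (M + 1))))) •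
        KaehlerDifferential.D E L x := by
    rw [hB, map_add, ← D_one_term B' N x, ← D_two_term hf hFne hp D' N, hB', hD',
      inv_mul_cancel_left₀ hxN, inv_mul_cancel_left₀ hxN, pow_zero, inv_one, mul_one]
  set T : E[X] := derivative (X ^ (p * N) * A) - derivative B' with hT
  set S : E[X] := derivative (X ^ (p * N) * C₁ * F ^ (M + 1)) - derivative (D' * F ^ (M + 1)) with hS
  have hsum : ((x ^ (p * N))⁻¹ * (aeval x T + (y ^ (2 * M + 1))⁻¹ * aeval x S)) •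
      KaehlerDifferential.D E L x = 0 := by
    have h3 : KaehlerDifferential.D E L f₁ - KaehlerDifferential.D E L f₂ = 0 := sub_eq_zero.2 h
    rw [← hp, ← h3, hf1, hf2, ← add_smul, ← add_smul, ← sub_smul, hT, hS, map_sub, map_sub]
    ring_nf
  have hsum' := (smul_eq_zero.1 hsum).resolve_right (D_x_ne_zero_two hf hFne h2)
  obtain ⟨hT0, hS0⟩ := indep_two hf hF h0 M T S
    ((mul_eq_zero.1 hsum').resolve_left (inv_ne_zero hxN))
  have hA0 : derivative A = 0 := by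
    refine H0_one (p := p) A B' N (by omega) ?_
    rw [← BK9_deriv (p := p) N A]
    exact sub_eq_zero.1 hT0
  have hC0 : derivative (C₁ * F ^ (M + 1)) = 0 := by
    refine H0_two hp F hdeg hI C₁ D' N hD'd ?_
    rw [← BK9_deriv (p := p) N (C₁ * F ^ (M + 1)), ← mul_assoc]
    exact sub_eq_zero.1 hS0
  have h5 := D_one_term (E := E) (p := p) A 0 x
  have h6 := D_two_term hf hFne hp C₁ 0
  rw [hA0, map_zero, Nat.mul_zero, pow_zero, inv_one, one_mul, mul_zero, zero_smul] at h5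
  rw [hC0, map_zero, Nat.mul_zero, pow_zero, inv_one, one_mul, one_mul, mul_zero, zero_smul] at h6
  rw [hA, map_add, h5, h6, add_zero]

end MPadcOA
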