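import Pool.Agent.Lib.MP_adc574_ag_CC.Defs

/-!
# Ordinary hyperelliptic curves: definition
-/

set_option autoImplicit false

namespace MPadcOA

open Polynomial MPadcCC

universe u

/-- The smooth projective curve `y² = F(x)` over `E` is ordinary in the sense of Bloch and Kato. -/
def HyperIsOrdinary {E : Type u} [Field E] (F : E[X]) : Prop :=
  (∃ (L : Type u) (_ : Field L) (_ : Algebra E L) (x y : L), IsFunctionField 2 F x y) ∧
    ∀ (L : Type u) [Field L] [Algebra E L] (x y : L), IsFunctionField 2 F x y →
      MPadcCC.IsOrdinary E x

end MPadcOA
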