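import Pool.Agent.Lib.MP_adc574_ag_CC.F15
import Pool.Agent.Lib.MP_adc574_ag_CC.P6
import Pool.Agent.Lib.MP_adc574_ag_OA.HDefs
import Pool.Agent.Lib.MP_adc574_ag_OA.BK8
import Pool.Agent.Lib.MP_adc574_ag_OA.BK9

/-!
# Block BK: the criterion for `y ^ 2 = F(x)`
-/

set_option autoImplicit false

namespace MPadcOA

open Polynomial Matrix MPadcCC

universe u

/-- Block BK: the curve `y² = F(x)`, `F` squarefree of degree `2 g + 1` or `2 g + 2` over a finite field of characteristic `p > 2 g + 2`, is ordinary if its Hasse-Witt matrix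
(the coefficients of degree `p (i + 1) - (j + 1)` of `F ^ ((p - 1) / 2)`) is invertible. -/
theorem isOrdinary_hyper {E : Type u} [Field E] [Finite E] {p : ℕ} [Fact p.Prime] [CharP E p]
    (g : ℕ) (hp : 2 * g + 2 < p) (F : E[X]) (hF : Squarefree F)
    (hdeg : F.natDegree = 2 * g + 1 ∨ F.natDegree = 2 * g + 2)
    (hd : (hw p (g + 1) (F ^ ((p - 1) / 2))).det ≠ 0) : HyperIsOrdinary F := by
  have hpp : p.Prime := Fact.out
  obtain ⟨M, hM⟩ : ∃ M : ℕ, p = 2 * M + 1 := hpp.odd_of_ne_two (by omega)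
  have hM2 : (p - 1) / 2 = M := by omega
  rw [hM2] at hd
  have hE : ∀ a : E, ∃ b : E, b ^ p = a := by
    intro a
    have hinj : Function.Injective (frobenius E p) := RingHom.injective _
    have hsurj : Function.Surjective (frobenius E p) := Finite.surjective_of_injective hinj
    obtain ⟨b, hb⟩ := hsurj a
    exact ⟨b, by simpa [frobenius_def] using hb⟩
  have h0 : F.natDegree ≠ 0 := by omega
  have h2 : (2 : E) ≠ 0 := by
    intro h
    have h1 : ((2 : ℕ) : E) = 0 := by exact_mod_cast h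
    have h3 : p ∣ 2 := (CharP.cast_eq_zero_iff E p 2).1 h1
    exact absurd (Nat.le_of_dvd (by omega) h3) (by omega)
  refine ⟨exists_functionField 2 (by omega) F, ?_⟩
  intro L _ _ x y hf
  refine ⟨?_, ?_⟩
  · intro f₁ h₁ f₂ h₂ h
    exact H0_two_of hf hF h0 h2 hM hdeg (inj_of_det (by omega) _ hd) h₁ h₂ h
  · intro f h
    exact H1_two hE hf hF h0 h2 hM (g := g) (by omega) (by omega) hd h

end MPadcOA
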