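import Pool.Agent.Lib.MP_adc574_ag_OA.CDefs

/-!
# Leaf C2 (Mathlib only): the primes which contain an element
-/

set_option autoImplicit false

namespace MPadcOA

open NumberField

variable {K : Type} [Field K] [NumberField K]

/-- PROOF. The product of the `𝔭 ∈ P` with `d ∈ 𝔭` (different maximal ideals, pairwise coprime) divides `span {d}` (`Finset.prod_dvd_of_coprime` or `Finset.prod_primes_dvd`), so its norm (`map_prod`) divides `absNorm (span {d}) ≠ 0`; `Real.log_prod`, monotonicity. -/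
theorem sum_log_mem (P : Finset (Ideal (𝓞 K))) (hP : ∀ 𝔭 ∈ P, 𝔭.IsMaximal) (d : 𝓞 K) (hd : d ≠ 0)
    (hPd : ∀ 𝔭 ∈ P, d ∈ 𝔭) :
    ∑ 𝔭 ∈ P, Real.log (Ideal.absNorm 𝔭) ≤ Real.log (Ideal.absNorm (Ideal.span {d})) := by
  have hd0 : Ideal.absNorm (Ideal.span {d}) ≠ 0 := by
    rw [Ne, Ideal.absNorm_eq_zero_iff, Ideal.span_singleton_eq_bot]
    exact hd
  have h1 : ∏ 𝔭 ∈ P, 𝔭 ∣ Ideal.span {d} := by
    refine Finset.prod_dvd_of_coprime (fun 𝔭 h𝔭 𝔮 h𝔮 hne => ?_) fun 𝔭 h𝔭 => ?_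
    · have := hP 𝔭 h𝔭
      have := hP 𝔮 h𝔮
      exact Ideal.isCoprime_of_isMaximal hne
    · rw [Ideal.dvd_span_singleton]
      exact hPd 𝔭 h𝔭
  have h2 : ∏ 𝔭 ∈ P, Ideal.absNorm 𝔭 ∣ Ideal.absNorm (Ideal.span {d}) := by
    rw [← map_prod]
    exact Ideal.absNorm_dvd_absNorm_of_le (Ideal.le_of_dvd h1)
  have h3 : ∏ 𝔭 ∈ P, Ideal.absNorm 𝔭 ≤ Ideal.absNorm (Ideal.span {d}) :=
    Nat.le_of_dvd (Nat.pos_of_ne_zero hd0) h2
  have h4 : ∏ 𝔭 ∈ P, Ideal.absNorm 𝔭 ≠ 0 := fun h => hd0 (Nat.eq_zero_of_zero_dvd (h ▸ h2))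
  have h5 : ∀ 𝔭 ∈ P, (Ideal.absNorm 𝔭 : ℝ) ≠ 0 := fun 𝔭 h𝔭 =>
    Nat.cast_ne_zero.2 (Finset.prod_ne_zero_iff.1 h4 𝔭 h𝔭)
  rw [← Real.log_prod h5]
  refine Real.log_le_log ?_ ?_
  · rw [← Nat.cast_prod]
    exact_mod_cast Nat.pos_of_ne_zero h4
  · rw [← Nat.cast_prod]
    exact_mod_cast h3

/-- PROOF. `absNorm (span {d}) = |N(d)|` (`Ideal.absNorm_span_singleton`) is the product of the absolute values of the `finrank ℚ K` conjugates of `d` (`Algebra.norm_eq_prod_embeddings` for `ℂ`), each at most `house d`. -/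
theorem absNorm_le_house (d : 𝓞 K) :
    (Ideal.absNorm (Ideal.span {d}) : ℝ) ≤ house (d : K) ^ Module.finrank ℚ K := by
  obtain ⟨σ⟩ : Nonempty (K →+* ℂ) := inferInstance
  have h1 := norm_norm_le_norm_mul_house_pow (d : K) σ
  have h2 : (Ideal.absNorm (Ideal.span {d}) : ℝ) = ‖Algebra.norm ℚ (d : K)‖ := by
    rw [Ideal.absNorm_span_singleton, ← Algebra.coe_norm_int d, Nat.cast_natAbs, Int.norm_cast_rat,
      Int.norm_eq_abs]
    exact Int.cast_abs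
  have h3 : 0 < Module.finrank ℚ K := Module.finrank_pos
  have h4 : house (d : K) ^ Module.finrank ℚ K = house (d : K) * house (d : K) ^ (Module.finrank ℚ K - 1) := by
    rw [← pow_succ', Nat.sub_add_cancel h3]
  rw [h2, h4]
  refine h1.trans ?_
  exact mul_le_mul_of_nonneg_right (norm_embedding_le_house _ σ) (pow_nonneg (house_nonneg _) _)

end MPadcOA
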