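import Pool.Agent.Lib.MP_adc574_ag_OA.C1
import Pool.Agent.Lib.MP_adc574_ag_OA.C2

/-!
# Leaf C12: the weight of the primes which contain an element
-/

set_option autoImplicit false

namespace MPadcOA

open NumberField

/-- PROOF. The primes with `N𝔭 ≤ Y` contribute at most `wtK True Y`; for `N𝔭 > Y`: `log N𝔭 / N𝔭 ≤ log N𝔭 / Y` and `sum_log_mem`. -/
theorem wtK_mem {K : Type} [Field K] [NumberField K] (d : 𝓞 K) (hd : d ≠ 0) (Y z : ℕ) (hY : 1 ≤ Y) :
    wtK K (fun 𝔭 => d ∈ 𝔭) z ≤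
      wtK K (fun _ => True) Y + Real.log (Ideal.absNorm (Ideal.span {d})) / Y := by
  classical
  have hY0 : (0 : ℝ) < Y := by exact_mod_cast hY
  rw [wtK_eq, wtK_eq, ← Finset.sum_filter_add_sum_filter_not _ (fun 𝔭 => Ideal.absNorm 𝔭 ≤ Y)]
  refine add_le_add ?_ ?_
  · refine Finset.sum_le_sum_of_subset_of_nonneg ?_ ?_
    · intro 𝔭 h
      rw [Finset.mem_filter, Set.Finite.mem_toFinset] at h
      rw [Set.Finite.mem_toFinset]
      exact ⟨h.1.1, h.2, trivial⟩
    · intro 𝔭 _ _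
      exact div_nonneg (Real.log_natCast_nonneg _) (Nat.cast_nonneg _)
  · have h1 : ∀ 𝔭 ∈ ((primesK_finite (K := K) (fun 𝔭 => d ∈ 𝔭) z).toFinset.filter
        fun 𝔭 => ¬ Ideal.absNorm 𝔭 ≤ Y),
        Real.log (Ideal.absNorm 𝔭) / Ideal.absNorm 𝔭 ≤ Real.log (Ideal.absNorm 𝔭) / Y := by
      intro 𝔭 h
      rw [Finset.mem_filter] at h
      have h2 : (Y : ℝ) ≤ Ideal.absNorm 𝔭 := by
        exact_mod_cast (not_le.1 h.2).le
      exact div_le_div_of_nonneg_left (Real.log_natCast_nonneg _) hY0 h2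
    refine (Finset.sum_le_sum h1).trans ?_
    rw [← Finset.sum_div]
    refine div_le_div_of_nonneg_right ?_ hY0.le
    refine sum_log_mem _ ?_ d hd ?_
    · intro 𝔭 h
      rw [Finset.mem_filter, Set.Finite.mem_toFinset] at h
      exact h.1.1
    · intro 𝔭 h
      rw [Finset.mem_filter, Set.Finite.mem_toFinset] at h
      exact h.1.2.2

end MPadcOA
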