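import Pool.Agent.Lib.MP_adc574_ag_OA.C2
import Pool.Agent.Lib.MP_adc574_ag_OA.C7

/-!
# Leaf C8: the larger sieve over a number field
-/

set_option autoImplicit false

namespace MPadcOA

open NumberField

/-- PROOF. `∑_𝔭 log N𝔭 * (card (S 𝔭) ^ 2 / (ε N𝔭) - card (S 𝔭)) ≤ ∑_𝔭 log N𝔭 * #{(t, t') ∈ S 𝔭 × S 𝔭 | t ≠ t', π 𝔭 t = π 𝔭 t'}` (`pairs_general` with `M = ε N𝔭`; `log N𝔭 ≥ 0`) `≤ ∑_((t, t') ∈ T × T, t ≠ t') ∑_(𝔭 ∈ P, d ∈ 𝔭) log N𝔭`, `d = a t * b t' - a t' * b t ≠ 0` (`t b = a`, `b ≠ 0`, `t ≠ t'`),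
`≤ ∑ log absNorm (span {d})` (`sum_log_mem`) `≤ (card T) ^ 2 * n log (2 X ^ 2)` (`absNorm_le_house`, `house d ≤ 2 X ^ 2`: `house_mul_le`, `house_add_le` for the difference; `2 X ^ 2 ≥ 1`). -/
theorem larger_sieveK {K : Type} [Field K] [NumberField K] [DecidableEq K] (T : Finset K) (a b : K → 𝓞 K)
    (X : ℝ) (hX : 1 ≤ X)
    (hT : ∀ t ∈ T, b t ≠ 0 ∧ t * (b t : K) = a t ∧ house (a t : K) ≤ X ∧ house (b t : K) ≤ X)
    (P : Finset (Ideal (𝓞 K))) (hP : ∀ 𝔭 ∈ P, 𝔭.IsMaximal) (ε : ℝ) (hε : 0 < ε)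
    (S : Ideal (𝓞 K) → Finset K) (hS : ∀ 𝔭 ∈ P, S 𝔭 ⊆ T) (π : ∀ 𝔭 : Ideal (𝓞 K), K → 𝓞 K ⧸ 𝔭)
    (Z : ∀ 𝔭 : Ideal (𝓞 K), Set (𝓞 K ⧸ 𝔭))
    (hZ : ∀ 𝔭 ∈ P, ((Z 𝔭).ncard : ℝ) ≤ ε * Ideal.absNorm 𝔭) (hSZ : ∀ 𝔭 ∈ P, ∀ t ∈ S 𝔭, π 𝔭 t ∈ Z 𝔭)
    (hπ : ∀ 𝔭 ∈ P, ∀ t ∈ S 𝔭, ∀ t' ∈ S 𝔭, π 𝔭 t = π 𝔭 t' → a t * b t' - a t' * b t ∈ 𝔭) :
    ∑ 𝔭 ∈ P, Real.log (Ideal.absNorm 𝔭) *
        (((S 𝔭).card : ℝ) ^ 2 / (ε * Ideal.absNorm 𝔭) - (S 𝔭).card) ≤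
      (T.card : ℝ) ^ 2 * (Module.finrank ℚ K * Real.log (2 * X ^ 2)) := by
  classical
  have hX2 : (1 : ℝ) ≤ 2 * X ^ 2 := by nlinarith
  have hlX : 0 ≤ (Module.finrank ℚ K : ℝ) * Real.log (2 * X ^ 2) :=
    mul_nonneg (Nat.cast_nonneg _) (Real.log_nonneg hX2)
  -- the difference of two elements of `T`
  obtain ⟨d, hd⟩ : ∃ d : K × K → 𝓞 K, ∀ x, d x = a x.1 * b x.2 - a x.2 * b x.1 := ⟨_, fun _ => rfl⟩
  have hneg : ∀ α : K, house (-α) = house α := by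
    intro α
    unfold house
    rw [map_neg, norm_neg]
  have h1 : ∀ 𝔭 ∈ P, Real.log (Ideal.absNorm 𝔭) * (((S 𝔭).card : ℝ) ^ 2 / (ε * Ideal.absNorm 𝔭) - (S 𝔭).card) ≤
      ∑ x ∈ (T ×ˢ T).filter (fun x => x.1 ≠ x.2), if d x ∈ 𝔭 then Real.log (Ideal.absNorm 𝔭) else 0 := by
    intro 𝔭 hp
    have hmax := hP 𝔭 hp
    have hbot : 𝔭 ≠ ⊥ := (Ideal.bot_lt_of_maximal 𝔭 (RingOfIntegers.not_isField K)).ne'
    have hN0 : Ideal.absNorm 𝔭 ≠ 0 := fun h => hbot (Ideal.absNorm_eq_zero_iff.1 h)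
    have hfin : Finite (𝓞 K ⧸ 𝔭) := (Ideal.absNorm_ne_zero_iff 𝔭).1 hN0
    have hlp : 0 ≤ Real.log (Ideal.absNorm 𝔭 : ℝ) := Real.log_natCast_nonneg _
    have hM : 0 < ε * (Ideal.absNorm 𝔭 : ℝ) := mul_pos hε (by exact_mod_cast Nat.pos_of_ne_zero hN0)
    have h2 := pairs_general (S 𝔭) (π 𝔭) (Z 𝔭) (Set.toFinite _) (ε * (Ideal.absNorm 𝔭 : ℝ)) hM (hZ 𝔭 hp) (hSZ 𝔭 hp)
    have h3 : ((S 𝔭 ×ˢ S 𝔭).filter fun x => x.1 ≠ x.2 ∧ π 𝔭 x.1 = π 𝔭 x.2) ⊆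
        ((T ×ˢ T).filter (fun x => x.1 ≠ x.2)).filter (fun x => d x ∈ 𝔭) := by
      intro x hx
      rw [Finset.mem_filter, Finset.mem_product] at hx
      rw [Finset.mem_filter, Finset.mem_filter, Finset.mem_product]
      refine ⟨⟨⟨hS 𝔭 hp hx.1.1, hS 𝔭 hp hx.1.2⟩, hx.2.1⟩, ?_⟩
      rw [hd]
      exact hπ 𝔭 hp _ hx.1.1 _ hx.1.2 hx.2.2
    have h4 : (((S 𝔭 ×ˢ S 𝔭).filter fun x => x.1 ≠ x.2 ∧ π 𝔭 x.1 = π 𝔭 x.2).card : ℝ) ≤
        ((((T ×ˢ T).filter (fun x => x.1 ≠ x.2)).filter (fun x => d x ∈ 𝔭)).card : ℝ) := by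
      exact_mod_cast Finset.card_le_card h3
    calc Real.log (Ideal.absNorm 𝔭) * (((S 𝔭).card : ℝ) ^ 2 / (ε * Ideal.absNorm 𝔭) - (S 𝔭).card) ≤
          Real.log (Ideal.absNorm 𝔭) *
            ((((T ×ˢ T).filter (fun x => x.1 ≠ x.2)).filter (fun x => d x ∈ 𝔭)).card : ℝ) :=
          mul_le_mul_of_nonneg_left (h2.trans h4) hlp
      _ = ∑ x ∈ (T ×ˢ T).filter (fun x => x.1 ≠ x.2), if d x ∈ 𝔭 then Real.log (Ideal.absNorm 𝔭) else 0 := by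
          rw [← Finset.sum_filter, Finset.sum_const, nsmul_eq_mul, mul_comm]
  calc ∑ 𝔭 ∈ P, Real.log (Ideal.absNorm 𝔭) * (((S 𝔭).card : ℝ) ^ 2 / (ε * Ideal.absNorm 𝔭) - (S 𝔭).card) ≤
        ∑ 𝔭 ∈ P, ∑ x ∈ (T ×ˢ T).filter (fun x => x.1 ≠ x.2), (if d x ∈ 𝔭 then Real.log (Ideal.absNorm 𝔭) else 0) :=
        Finset.sum_le_sum h1
    _ = ∑ x ∈ (T ×ˢ T).filter (fun x => x.1 ≠ x.2), ∑ 𝔭 ∈ P.filter (fun 𝔭 => d x ∈ 𝔭),
          Real.log (Ideal.absNorm 𝔭) := by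
        rw [Finset.sum_comm]
        exact Finset.sum_congr rfl fun x _ => (Finset.sum_filter _ _).symm
    _ ≤ ∑ _x ∈ (T ×ˢ T).filter (fun x => x.1 ≠ x.2), (Module.finrank ℚ K : ℝ) * Real.log (2 * X ^ 2) := by
        refine Finset.sum_le_sum fun x hx => ?_
        rw [Finset.mem_filter, Finset.mem_product] at hx
        obtain ⟨hb1, hab1, hA1, hB1⟩ := hT _ hx.1.1
        obtain ⟨hb2, hab2, hA2, hB2⟩ := hT _ hx.1.2
        have hdK : ((d x : 𝓞 K) : K) = (a x.1 : K) * (b x.2 : K) - (a x.2 : K) * (b x.1 : K) := by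
          rw [hd]
          push_cast
          rfl
        have hne : d x ≠ 0 := by
          intro h0
          rw [h0] at hdK
          have h5 : (x.1 - x.2) * ((b x.1 : K) * (b x.2 : K)) = 0 := by
            have h6 : (x.1 - x.2) * ((b x.1 : K) * (b x.2 : K)) =
                (x.1 * (b x.1 : K)) * (b x.2 : K) - (x.2 * (b x.2 : K)) * (b x.1 : K) := by ring
            rw [h6, hab1, hab2, ← hdK]
            rfl
          rcases mul_eq_zero.1 h5 with h7 | h7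
          · exact hx.2 (sub_eq_zero.1 h7)
          · rcases mul_eq_zero.1 h7 with h8 | h8
            · exact hb1 (RingOfIntegers.ext h8)
            · exact hb2 (RingOfIntegers.ext h8)
        have hh : house ((d x : 𝓞 K) : K) ≤ 2 * X ^ 2 := by
          rw [hdK, sub_eq_add_neg]
          refine (house_add_le _ _).trans ?_
          rw [hneg]
          have h9 : house ((a x.1 : K) * (b x.2 : K)) ≤ X * X :=
            (house_mul_le _ _).trans (mul_le_mul hA1 hB2 (house_nonneg _) (by linarith))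
          have h10 : house ((a x.2 : K) * (b x.1 : K)) ≤ X * X :=
            (house_mul_le _ _).trans (mul_le_mul hA2 hB1 (house_nonneg _) (by linarith))
          nlinarith
        have hN : Ideal.absNorm (Ideal.span {d x}) ≠ 0 := by
          intro h0
          rw [Ideal.absNorm_eq_zero_iff, Ideal.span_singleton_eq_bot] at h0
          exact hne h0
        have hNpos : (0 : ℝ) < (Ideal.absNorm (Ideal.span {d x}) : ℝ) := by
          exact_mod_cast Nat.pos_of_ne_zero hN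
        refine (sum_log_mem (P.filter fun 𝔭 => d x ∈ 𝔭) (fun 𝔭 h => hP 𝔭 (Finset.mem_filter.1 h).1) (d x) hne
          (fun 𝔭 h => (Finset.mem_filter.1 h).2)).trans ?_
        refine (Real.log_le_log hNpos (absNorm_le_house (d x))).trans ?_
        rw [Real.log_pow]
        rcases (house_nonneg ((d x : 𝓞 K) : K)).eq_or_lt with h11 | h11
        · rw [← h11, Real.log_zero, mul_zero]
          exact hlX
        · exact mul_le_mul_of_nonneg_left (Real.log_le_log h11 hh) (Nat.cast_nonneg _)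
    _ = (((T ×ˢ T).filter (fun x => x.1 ≠ x.2)).card : ℝ) * ((Module.finrank ℚ K : ℝ) * Real.log (2 * X ^ 2)) := by
        rw [Finset.sum_const, nsmul_eq_mul]
    _ ≤ (T.card : ℝ) ^ 2 * ((Module.finrank ℚ K : ℝ) * Real.log (2 * X ^ 2)) := by
        refine mul_le_mul_of_nonneg_right ?_ hlX
        have h8 : ((T ×ˢ T).filter (fun x => x.1 ≠ x.2)).card ≤ T.card * T.card := by
          rw [← Finset.card_product]
          exact Finset.card_filter_le _ _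
        rw [pow_two]
        exact_mod_cast h8

end MPadcOA
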