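import Pool.Agent.Lib.MP_adc574_ag_OA.C2

/-!
# Leaf C9 (model: B1): the bad primes of a polynomial
-/

set_option autoImplicit false

namespace MPadcOA

open Polynomial NumberField

private theorem C9_entry {R : Type*} [CommRing R] (τ : R →+* ℂ) {d : ℕ} {M : ℝ} (hd : 0 < d)
    (hM : 1 ≤ M) {f : R[X]} (hf : f.natDegree = d) (hc : ∀ i, ‖τ (f.coeff i)‖ ≤ M)
    (i j : Fin (d + (d - 1))) :
    ‖τ (sylvester f (derivative f) d (d - 1) i j)‖ ≤ d * M := by
  have hM0 : (0 : ℝ) ≤ d * M := by positivity
  have hd1 : (1 : ℝ) ≤ d := by exact_mod_cast hd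
  have h1 : ∀ l, ‖τ (f.coeff l)‖ ≤ d * M :=
    fun l => (hc l).trans (le_mul_of_one_le_left (by linarith) hd1)
  have h2 : ∀ l, ‖τ ((derivative f).coeff l)‖ ≤ d * M := by
    intro l
    rw [coeff_derivative]
    rcases le_or_gt (l + 1) d with h3 | h3
    · rw [map_mul, norm_mul]
      have h4 : ‖τ ((l : R) + 1)‖ = (l : ℝ) + 1 := by
        rw [map_add, map_natCast, map_one]
        have h6 : ((l : ℂ) + 1) = ((l + 1 : ℕ) : ℂ) := by push_cast; rfl
        rw [h6, Complex.norm_natCast]
        push_cast
        rfl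
      rw [h4]
      have h5 : (l : ℝ) + 1 ≤ d := by exact_mod_cast h3
      calc ‖τ (f.coeff (l + 1))‖ * ((l : ℝ) + 1) ≤ M * d :=
            mul_le_mul (hc _) h5 (by positivity) (by linarith)
        _ = d * M := mul_comm _ _
    · rw [coeff_eq_zero_of_natDegree_lt (by omega), zero_mul, map_zero, norm_zero]
      exact hM0
  rw [sylvester, Matrix.of_apply]
  induction j using Fin.addCases with
  | left j₁ =>
    rw [Fin.addCases_left]
    split_ifs
    · exact h2 _
    · rw [map_zero, norm_zero]; exact hM0
  | right j₁ =>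
    rw [Fin.addCases_right]
    split_ifs
    · exact h1 _
    · rw [map_zero, norm_zero]; exact hM0

private theorem C9_size {R : Type*} [CommRing R] (τ : R →+* ℂ) {d : ℕ} {M : ℝ} (hd : 0 < d)
    (hM : 1 ≤ M) {f : R[X]} (hf : f.natDegree = d) (hc : ∀ i, ‖τ (f.coeff i)‖ ≤ M) :
    ‖τ (f.leadingCoeff * resultant f (derivative f) d (d - 1))‖ ≤
      (2 * d).factorial * (d * M) ^ (2 * d) := by
  have hd1 : (1 : ℝ) ≤ d := by exact_mod_cast hd
  have hdM : 1 ≤ d * M := by nlinarith
  have h1 := Matrix.det_le (abv := NormedField.toAbsoluteValue ℂ)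
    (A := τ.mapMatrix (sylvester f (derivative f) d (d - 1))) (x := d * M)
    (C9_entry τ hd hM hf hc)
  rw [← RingHom.map_det, Fintype.card_fin, nsmul_eq_mul] at h1
  have h2 : ‖τ (resultant f (derivative f) d (d - 1))‖ ≤
      (d + (d - 1)).factorial * (d * M) ^ (d + (d - 1)) := h1
  have h3 : ‖τ f.leadingCoeff‖ ≤ d * M :=
    (hc _).trans (le_mul_of_one_le_left (by linarith) hd1)
  rw [map_mul, norm_mul]
  calc ‖τ f.leadingCoeff‖ * ‖τ (resultant f (derivative f) d (d - 1))‖
      ≤ (d * M) * ((d + (d - 1)).factorial * (d * M) ^ (d + (d - 1))) :=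
        mul_le_mul h3 h2 (norm_nonneg _) (by positivity)
    _ = (d + (d - 1)).factorial * (d * M) ^ (d + (d - 1) + 1) := by
        rw [pow_succ]; ring
    _ ≤ (2 * d).factorial * (d * M) ^ (2 * d) := by
        have h6 : d + (d - 1) + 1 = 2 * d := by omega
        rw [h6]
        refine mul_le_mul_of_nonneg_right ?_ (by positivity)
        exact_mod_cast Nat.factorial_le (by omega)

/-- PROOF. As `exists_discr` in `B1.lean`: `D = leadingCoeff f * resultant f (derivative f) d (d - 1)`. Not zero: `f` squarefree over `K` is separable (characteristic zero), so coprime to its derivative: `Polynomial.resultant_map_map`, `Polynomial.resultant_eq_zero_iff`. Size: for every embedding `σ : K →+* ℂ` the image of the resultant is the determinant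
of a matrix of size `2 d - 1` with entries of absolute value at most `d M` (`|σ a| ≤ house a`), so `|σ D| ≤ (2 d)! (d M) ^ (2 d)` (`Matrix.det_le` or the sum over permutations), so `house D` is at most this (`house_eq_sup'`). If `φ D ≠ 0`: the leading coefficient of `f` is not killed, so the degree is `d`, and the resultant of the
images with the formal degrees `d, d - 1` is not zero, so `f.map φ` and its derivative are coprime (`Polynomial.exists_mul_add_mul_eq_C_resultant`), so `f.map φ` is separable, so squarefree (`Polynomial.Separable.squarefree`). -/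
theorem exists_discrK {K : Type} [Field K] [NumberField K] (d : ℕ) (M : ℝ) (hd : 0 < d) (hM : 1 ≤ M)
    (f : (𝓞 K)[X]) (hf : f.natDegree = d) (hs : Squarefree (f.map (algebraMap (𝓞 K) K)))
    (hc : ∀ i, house (f.coeff i : K) ≤ M) :
    ∃ D : 𝓞 K, D ≠ 0 ∧ house (D : K) ≤ (2 * d).factorial * (d * M) ^ (2 * d) ∧
      ∀ (E : Type) [Field E] (φ : 𝓞 K →+* E), φ D ≠ 0 → Squarefree (f.map φ) ∧
        (f.map φ).natDegree = d := by
  set R : 𝓞 K := resultant f (derivative f) d (d - 1) with hR
  have hinj : Function.Injective (algebraMap (𝓞 K) K) := RingOfIntegers.coe_injective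
  have hlc : f.leadingCoeff ≠ 0 := by
    intro h1
    rw [leadingCoeff_eq_zero] at h1
    rw [h1, natDegree_zero] at hf
    omega
  have hRne : R ≠ 0 := by
    intro h1
    have h2 := resultant_map_map f (derivative f) d (d - 1) (algebraMap (𝓞 K) K)
    rw [← hR, h1, map_zero, ← derivative_map] at h2
    have h3 : (f.map (algebraMap (𝓞 K) K)).natDegree = d := by
      rw [natDegree_map_eq_of_injective hinj, hf]
    have h4 : (derivative (f.map (algebraMap (𝓞 K) K))).natDegree = d - 1 := by
      refine le_antisymm ?_ ?_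
      · rw [← h3]; exact natDegree_derivative_le _
      · refine le_natDegree_of_ne_zero ?_
        rw [coeff_derivative]
        have h5 : d - 1 + 1 = (f.map (algebraMap (𝓞 K) K)).natDegree := by omega
        rw [h5, coeff_natDegree]
        refine mul_ne_zero ?_ (by exact_mod_cast Nat.succ_ne_zero (d - 1))
        rw [leadingCoeff_ne_zero]
        intro h6
        rw [h6, natDegree_zero] at h3
        omega
    have h5 : resultant (f.map (algebraMap (𝓞 K) K))
        (derivative (f.map (algebraMap (𝓞 K) K))) = 0 := by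
      rw [h3, h4]
      exact h2
    exact (resultant_eq_zero_iff.1 h5).2 (PerfectField.separable_iff_squarefree.2 hs)
  refine ⟨f.leadingCoeff * R, mul_ne_zero hlc hRne, ?_, ?_⟩
  · rw [house, canonicalEmbedding.norm_le_iff]
    intro σ
    have h1 := C9_size (σ.comp (algebraMap (𝓞 K) K)) hd hM hf fun i =>
      (norm_embedding_le_house (f.coeff i : K) σ).trans (hc i)
    exact h1
  · intro E _ φ hφ
    rw [map_mul] at hφ
    have h1 : φ f.leadingCoeff ≠ 0 := left_ne_zero_of_mul hφ
    have h2 : φ R ≠ 0 := right_ne_zero_of_mul hφ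
    have h3 : (f.map φ).natDegree = d := by
      rw [natDegree_map_of_leadingCoeff_ne_zero _ h1, hf]
    refine ⟨?_, h3⟩
    have h4 := resultant_map_map f (derivative f) d (d - 1) φ
    rw [← hR, ← derivative_map] at h4
    obtain ⟨a, b, -, -, hab⟩ := exists_mul_add_mul_eq_C_resultant (m := d) (n := d - 1)
      (f.map φ) (derivative (f.map φ))
      h3.le (by rw [← h3]; exact natDegree_derivative_le _) (Or.inl (by omega))
    rw [h4] at hab
    refine Separable.squarefree ?_
    rw [separable_def]
    refine ⟨C (φ R)⁻¹ * a, C (φ R)⁻¹ * b, ?_⟩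
    have h5 : C (φ R)⁻¹ * C (φ R) = (1 : E[X]) := by
      rw [← C_mul, inv_mul_cancel₀ h2, C_1]
    rw [← h5, ← hab]
    ring

end MPadcOA
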