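import Pool.Agent.Lib.MP_adc574_ag_OA.C6
import Pool.Agent.Lib.MP_adc574_ag_OA.C8
import Pool.Agent.Lib.MP_adc574_ag_OA.C9
import Pool.Agent.Lib.MP_adc574_ag_OA.C11
import Pool.Agent.Lib.MP_adc574_ag_OA.C12

/-!
# Leaf C10: curves over number fields
-/

set_option autoImplicit false

namespace MPadcOA

open Polynomial NumberField

variable {K : Type} [Field K] [NumberField K]

/-- The bad classes. -/
private def C10_bad {E : Type} [Field E] (F : E[X]) : Set E :=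
  {s | ¬ (Squarefree ((X - C s) * F) ∧ HyperIsOrdinary ((X - C s) * F))}

/-- The bad residue classes. -/
private noncomputable def C10_Z (f : (𝓞 K)[X]) (𝔭 : Ideal (𝓞 K)) : Set (𝓞 K ⧸ 𝔭) :=
  open Classical in
  if h : 𝔭.IsMaximal then
    @C10_bad (𝓞 K ⧸ 𝔭) (@Ideal.Quotient.field _ _ 𝔭 h) (f.map (Ideal.Quotient.mk 𝔭))
  else ∅

/-- The residue class of `a / b`. -/
private noncomputable def C10_π (a b : K → 𝓞 K) (𝔭 : Ideal (𝓞 K)) (t : K) : 𝓞 K ⧸ 𝔭 :=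
  open Classical in
  if h : 𝔭.IsMaximal then
    letI : Field (𝓞 K ⧸ 𝔭) := @Ideal.Quotient.field _ _ 𝔭 h
    Ideal.Quotient.mk 𝔭 (a t) / Ideal.Quotient.mk 𝔭 (b t)
  else 0

private theorem C10_small (q p : ℕ) (𝔭 : Ideal (𝓞 K)) (hq : ((q.factorial : ℕ) : 𝓞 K) ∉ 𝔭) (hp : p.Prime)
    (h : (p : 𝓞 K) ∈ 𝔭) : q < p := by
  by_contra hcon
  apply hq
  obtain ⟨m, hm⟩ := Nat.dvd_factorial hp.pos (not_lt.1 hcon)
  rw [hm, Nat.cast_mul]
  exact Ideal.mul_mem_right _ _ h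

private theorem C10_card (f : (𝓞 K)[X]) (d : ℕ) (ε : ℝ) (p₀ q : ℕ)
    (hp₀ : ∀ p : ℕ, p.Prime → p₀ ≤ p →
      ∀ (E : Type) [Field E] [Finite E] [CharP E p] (f : E[X]), Squarefree f → f.natDegree = d →
      (Nat.card {t : E // ¬ (Squarefree ((X - C t) * f) ∧ HyperIsOrdinary ((X - C t) * f))} : ℝ) ≤
        ε * Nat.card E) (hq : p₀ ≤ q) (𝔭 : Ideal (𝓞 K)) (h𝔭 : 𝔭.IsMaximal)
    (hq𝔭 : ((q.factorial : ℕ) : 𝓞 K) ∉ 𝔭)
    (hf : ∀ (E : Type) [Field E] (φ : 𝓞 K →+* E), RingHom.ker φ = 𝔭 → Squarefree (f.map φ) ∧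
        (f.map φ).natDegree = d) :
    ((C10_Z f 𝔭).ncard : ℝ) ≤ ε * Ideal.absNorm 𝔭 := by
  classical
  obtain ⟨hfin, hcard, _⟩ := absNorm_facts 𝔭 h𝔭
  unfold C10_Z
  rw [dif_pos h𝔭]
  let _ : Field (𝓞 K ⧸ 𝔭) := @Ideal.Quotient.field _ _ 𝔭 h𝔭
  obtain ⟨p, hp⟩ := CharP.exists (𝓞 K ⧸ 𝔭)
  have hpp : p.Prime := by
    rcases CharP.char_is_prime_or_zero (𝓞 K ⧸ 𝔭) p with h | h
    · exact h
    · subst h
      have h0 : CharZero (𝓞 K ⧸ 𝔭) := CharP.charP_to_charZero _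
      exact absurd hfin (not_finite_iff_infinite.2 (CharZero.infinite _))
  have hpm : (p : 𝓞 K) ∈ 𝔭 := by
    rw [← Ideal.Quotient.eq_zero_iff_mem, map_natCast]
    exact CharP.cast_eq_zero _ p
  have hpq := C10_small q p 𝔭 hq𝔭 hpp hpm
  obtain ⟨h1, h2⟩ := hf (𝓞 K ⧸ 𝔭) (Ideal.Quotient.mk 𝔭) Ideal.mk_ker
  have h3 := hp₀ p hpp (by omega) (𝓞 K ⧸ 𝔭) (f.map (Ideal.Quotient.mk 𝔭)) h1 h2
  rw [hcard]
  exact h3

private theorem C10_π_eq (a b : K → 𝓞 K) (𝔭 : Ideal (𝓞 K)) (h𝔭 : 𝔭.IsMaximal) (t t' : K)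
    (hb : b t ∉ 𝔭) (hb' : b t' ∉ 𝔭) (h : C10_π a b 𝔭 t = C10_π a b 𝔭 t') :
    a t * b t' - a t' * b t ∈ 𝔭 := by
  unfold C10_π at h
  rw [dif_pos h𝔭, dif_pos h𝔭] at h
  let _ : Field (𝓞 K ⧸ 𝔭) := @Ideal.Quotient.field _ _ 𝔭 h𝔭
  have h1 : Ideal.Quotient.mk 𝔭 (b t) ≠ 0 := fun h1 => hb (Ideal.Quotient.eq_zero_iff_mem.1 h1)
  have h2 : Ideal.Quotient.mk 𝔭 (b t') ≠ 0 := fun h1 => hb' (Ideal.Quotient.eq_zero_iff_mem.1 h1)
  have h3 := (div_eq_div_iff h1 h2).1 h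
  rw [← Ideal.Quotient.eq_zero_iff_mem, map_sub, map_mul, map_mul, h3, sub_self]

private theorem C10_ord (f : (𝓞 K)[X]) (d q : ℕ) (hfd : f.natDegree = d) (a b : K → 𝓞 K)
    (hq : 2 ≤ q) (𝔭 : Ideal (𝓞 K)) (h𝔭 : 𝔭.IsMaximal) (hq𝔭 : ((q.factorial : ℕ) : 𝓞 K) ∉ 𝔭)
    (hf : ∀ (E : Type) [Field E] (φ : 𝓞 K →+* E), RingHom.ker φ = 𝔭 → Squarefree (f.map φ) ∧
        (f.map φ).natDegree = d) (t : K) (hab : t * (b t : K) = a t) (hb : b t ∉ 𝔭)
    (hgood : C10_π a b 𝔭 t ∉ C10_Z f 𝔭) : OrdinaryReduction f t 𝔭 := by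
  classical
  unfold C10_π C10_Z at hgood
  rw [dif_pos h𝔭, dif_pos h𝔭] at hgood
  let _ : Field (𝓞 K ⧸ 𝔭) := @Ideal.Quotient.field _ _ 𝔭 h𝔭
  have h1 := not_not.1 hgood
  refine ⟨𝓞 K ⧸ 𝔭, inferInstance, Ideal.Quotient.mk 𝔭, a t, b t, Ideal.Quotient.mk_surjective,
    Ideal.mk_ker, fun h1 => hb (Ideal.Quotient.eq_zero_iff_mem.1 h1), hab, ?_, ?_, h1.1, h1.2⟩
  · intro h2
    have h3 : ((2 : ℕ) : 𝓞 K) ∈ 𝔭 := by
      rw [← Ideal.Quotient.eq_zero_iff_mem, map_natCast]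
      exact_mod_cast h2
    have h4 := C10_small q 2 𝔭 hq𝔭 Nat.prime_two h3
    omega
  · rw [hfd]
    exact (hf (𝓞 K ⧸ 𝔭) (Ideal.Quotient.mk 𝔭) Ideal.mk_ker).2

private theorem C10_log (d q B z n : ℕ) (hd : 0 < d) (hz : 1 ≤ z) (N : ℝ) (hN : 0 < N)
    (h : N ≤ ((q.factorial : ℝ) * ((2 * d).factorial * (d * (z : ℝ) ^ B) ^ (2 * d)) * (z : ℝ) ^ B) ^ n) :
    Real.log N ≤ n * (Real.log q.factorial + Real.log (2 * d).factorial + 2 * d * Real.log d) +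
      n * ((2 * d + 1) * B) * Real.log z := by
  have hz0 : (0 : ℝ) < z := by exact_mod_cast hz
  have hd0 : (0 : ℝ) < d := by exact_mod_cast hd
  have h3 : (0 : ℝ) < ((2 * d).factorial : ℝ) := by exact_mod_cast Nat.factorial_pos _
  have h4 : (0 : ℝ) < (q.factorial : ℝ) := by exact_mod_cast Nat.factorial_pos _
  have h5 := Real.log_le_log hN h
  rw [Real.log_pow, Real.log_mul (by positivity) (by positivity), Real.log_mul (by positivity) (by positivity),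
    Real.log_mul (by positivity) (by positivity), Real.log_pow, Real.log_mul (by positivity) (by positivity),
    Real.log_pow] at h5
  push_cast at h5 ⊢
  refine h5.trans (le_of_eq ?_)
  ring

/-- Theorem B over a number field. -/
theorem thmBK (d : ℕ) (hd : 0 < d) (hA : Few d) (K : Type) [Field K] [NumberField K] (δ : ℝ) (hδ : 0 < δ)
    (B : ℕ) : ∃ z₀ : ℕ, ∀ z : ℕ, z₀ ≤ z → ∀ f : (𝓞 K)[X], f.natDegree = d →
      Squarefree (f.map (algebraMap (𝓞 K) K)) → (∀ i, house (f.coeff i : K) ≤ (z : ℝ) ^ B) →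
        {t : K | (∃ a b : 𝓞 K, b ≠ 0 ∧ t * b = a ∧ house (a : K) ≤ (z : ℝ) ^ B ∧
            house (b : K) ≤ (z : ℝ) ^ B) ∧
          wtK K (OrdinaryReduction f t) z < (1 - δ) * wtK K (fun _ => True) z}.encard ≤ z := by
  classical
  obtain ⟨c, hc0, z₁, hc⟩ := mertensK K
  obtain ⟨Θ, hΘ0, hΘ⟩ := thetaK K
  set n : ℕ := Module.finrank ℚ K with hn
  have hn1 : 1 ≤ n := Module.finrank_pos
  set ε : ℝ := δ ^ 2 * c / (4 * (n + 2 * n * B + Θ)) with hε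
  have hε0 : 0 < ε := by positivity
  obtain ⟨p₀, hp₀⟩ := hA ε hε0
  set q : ℕ := max p₀ 3 with hq
  set Y : ℕ := ⌈4 * n * ((2 * d + 1) * B) / (δ * c)⌉₊ + 1 with hY
  have hY1 : 1 ≤ Y := by omega
  have hY0 : (0 : ℝ) < Y := by exact_mod_cast hY1
  have hδc : 0 < δ * c := by positivity
  have hYδ : n * ((2 * d + 1) * B) / Y ≤ δ * c / 4 := by
    have h1 : (4 * n * ((2 * d + 1) * B) / (δ * c) : ℝ) ≤ Y := by
      have := Nat.le_ceil (4 * n * ((2 * d + 1) * B) / (δ * c) : ℝ)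
      rw [hY]
      push_cast
      linarith
    rw [div_le_iff₀ hδc] at h1
    rw [div_le_iff₀ hY0]
    linarith
  set K₁ : ℝ := n * (Real.log q.factorial + Real.log (2 * d).factorial + 2 * d * Real.log d) with hK₁
  have hK₁0 : 0 ≤ K₁ := by
    have h1 : 0 ≤ Real.log q.factorial := Real.log_natCast_nonneg _
    have h2 : 0 ≤ Real.log (2 * d).factorial := Real.log_natCast_nonneg _
    have h3 : 0 ≤ Real.log d := Real.log_natCast_nonneg _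
    positivity
  set K₀ : ℝ := wtK K (fun _ => True) Y + K₁ with hK₀
  obtain ⟨z₀, hz₀⟩ := exists_nat_gt (Real.exp (max (4 * K₀ / (δ * c)) 1))
  refine ⟨z₀ + z₁, fun z hz f hf hs hco => ?_⟩
  have hzr : Real.exp (max (4 * K₀ / (δ * c)) 1) < z :=
    hz₀.trans_le (by exact_mod_cast (by omega : z₀ ≤ z))
  have hz0 : (0 : ℝ) < z := (Real.exp_pos _).trans hzr
  have hz1 : 1 ≤ z := by exact_mod_cast hz0
  have hlog : max (4 * K₀ / (δ * c)) 1 < Real.log z := (Real.lt_log_iff_exp_lt hz0).2 hzr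
  have hl2 : 4 * K₀ / (δ * c) < Real.log z := (le_max_left _ _).trans_lt hlog
  have hl3 : 1 < Real.log z := (le_max_right _ _).trans_lt hlog
  set L : ℝ := wtK K (fun _ => True) z with hL
  have hLlog : c * Real.log z ≤ L := hc z (by omega)
  have hL0 : 0 < L := by
    have : 0 < c * Real.log z := by positivity
    linarith
  set X : ℝ := (z : ℝ) ^ B with hX
  have hX1 : 1 ≤ X := by
    rw [hX]
    exact one_le_pow₀ (by exact_mod_cast hz1)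
  obtain ⟨D, hD0, hDle, hDp⟩ := exists_discrK d X hd hX1 f hf hs hco
  -- the exceptional set
  set Tset : Set K := {t : K | (∃ a b : 𝓞 K, b ≠ 0 ∧ t * b = a ∧ house (a : K) ≤ X ∧ house (b : K) ≤ X) ∧
          wtK K (OrdinaryReduction f t) z < (1 - δ) * L} with hTset
  have hfin : Tset.Finite := (finite_height (K := K) X).subset fun t ht => ht.1
  set T : Finset K := hfin.toFinset with hT
  have hTmem : ∀ t, t ∈ T ↔ t ∈ Tset := fun t => hfin.mem_toFinset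
  have hex : ∀ t : K, ∃ ab : 𝓞 K × 𝓞 K, t ∈ T → ab.2 ≠ 0 ∧ t * ab.2 = ab.1 ∧
      house (ab.1 : K) ≤ X ∧ house (ab.2 : K) ≤ X := by
    intro t
    by_cases ht : t ∈ T
    · obtain ⟨⟨a, b, h1, h2, h3, h4⟩, _⟩ := (hTmem t).1 ht
      exact ⟨(a, b), fun _ => ⟨h1, h2, h3, h4⟩⟩
    · exact ⟨(0, 0), fun h => absurd h ht⟩
  choose ab hab using hex
  set a : K → 𝓞 K := fun t => (ab t).1 with ha
  set b : K → 𝓞 K := fun t => (ab t).2 with hb
  -- the primes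
  have hPfin := primesK_finite (K := K) (fun 𝔭 => ((q.factorial : ℕ) : 𝓞 K) * D ∉ 𝔭) z
  set P : Finset (Ideal (𝓞 K)) := hPfin.toFinset with hP
  have hPmem : ∀ 𝔭, 𝔭 ∈ P ↔ 𝔭.IsMaximal ∧ Ideal.absNorm 𝔭 ≤ z ∧ ((q.factorial : ℕ) : 𝓞 K) * D ∉ 𝔭 :=
    fun 𝔭 => hPfin.mem_toFinset
  have hPq : ∀ 𝔭 ∈ P, ((q.factorial : ℕ) : 𝓞 K) ∉ 𝔭 := fun 𝔭 h𝔭 h =>
    ((hPmem 𝔭).1 h𝔭).2.2 (Ideal.mul_mem_right _ _ h)
  have hPD : ∀ 𝔭 ∈ P, ∀ (E : Type) [Field E] (φ : 𝓞 K →+* E), RingHom.ker φ = 𝔭 →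
      Squarefree (f.map φ) ∧ (f.map φ).natDegree = d := by
    intro 𝔭 h𝔭 E _ φ hφ
    refine hDp E φ fun h => ((hPmem 𝔭).1 h𝔭).2.2 (Ideal.mul_mem_left _ _ ?_)
    rw [← hφ]
    exact h
  set S : Ideal (𝓞 K) → Finset K := fun 𝔭 => T.filter fun t => b t ∉ 𝔭 ∧ C10_π a b 𝔭 t ∈ C10_Z f 𝔭 with hS
  have hsieve := larger_sieveK T a b X hX1 (fun t ht => hab t ht) P (fun 𝔭 h𝔭 => ((hPmem 𝔭).1 h𝔭).1)
    ε hε0 S (fun 𝔭 _ => Finset.filter_subset _ _) (C10_π a b) (C10_Z f)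
    (fun 𝔭 h𝔭 => C10_card f d ε p₀ q hp₀ (le_max_left _ _) 𝔭 ((hPmem 𝔭).1 h𝔭).1 (hPq 𝔭 h𝔭) (hPD 𝔭 h𝔭))
    (fun 𝔭 _ t ht => (Finset.mem_filter.1 ht).2.2)
    (fun 𝔭 h𝔭 t ht t' ht' h => C10_π_eq a b 𝔭 ((hPmem 𝔭).1 h𝔭).1 t t' (Finset.mem_filter.1 ht).2.1
      (Finset.mem_filter.1 ht').2.1 h)
  have hbound := weights_bound T P (fun 𝔭 => (Ideal.absNorm 𝔭 : ℝ)) (by
      intro 𝔭 h𝔭
      have := (absNorm_facts 𝔭 ((hPmem 𝔭).1 h𝔭).1).2.2
      exact_mod_cast (by omega : 1 ≤ Ideal.absNorm 𝔭)) ε hε0 S (fun 𝔭 _ => Finset.filter_subset _ _)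
    (n * Real.log (2 * X ^ 2)) (δ * L / 2) L (Θ * z) (by positivity) hL0 hsieve (by
      intro t ht
      have ht' := (hTmem t).1 ht
      obtain ⟨hb0, htab, hha, hhb⟩ := hab t ht
      have h1 : wtK K (OrdinaryReduction f t) z < (1 - δ) * L := ht'.2
      have h2 := wtK_add_not (K := K) (OrdinaryReduction f t) z
      rw [← hL] at h2
      set dt : 𝓞 K := ((q.factorial : ℕ) : 𝓞 K) * D * b t with hdt
      have hdt0 : dt ≠ 0 := by
        rw [hdt]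
        refine mul_ne_zero (mul_ne_zero ?_ hD0) hb0
        exact_mod_cast (Nat.factorial_pos q).ne'
      have h3 : wtK K (fun 𝔭 => ¬ OrdinaryReduction f t 𝔭) z ≤
          wtK K (fun 𝔭 => dt ∈ 𝔭 ∨ (((q.factorial : ℕ) : 𝓞 K) * D ∉ 𝔭 ∧ b t ∉ 𝔭 ∧
            C10_π a b 𝔭 t ∈ C10_Z f 𝔭)) z := by
        refine wtK_mono _ _ z fun 𝔭 hm hz' hno => ?_
        by_cases h4 : dt ∈ 𝔭
        · exact Or.inl h4
        have h5 : ((q.factorial : ℕ) : 𝓞 K) * D ∉ 𝔭 := fun h => h4 (Ideal.mul_mem_right _ _ h)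
        have h6 : b t ∉ 𝔭 := fun h => h4 (Ideal.mul_mem_left _ _ h)
        refine Or.inr ⟨h5, h6, ?_⟩
        by_contra h7
        have h8 : 𝔭 ∈ P := (hPmem 𝔭).2 ⟨hm, hz', h5⟩
        exact hno (C10_ord f d q hf a b (le_trans (by norm_num) (le_max_right _ _)) 𝔭 hm (hPq 𝔭 h8)
          (hPD 𝔭 h8) t htab h6 h7)
      have h4 := wtK_or (K := K) (fun 𝔭 => dt ∈ 𝔭) (fun 𝔭 => ((q.factorial : ℕ) : 𝓞 K) * D ∉ 𝔭 ∧ b t ∉ 𝔭 ∧
            C10_π a b 𝔭 t ∈ C10_Z f 𝔭) z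
      have h7 := wtK_mem dt hdt0 Y z hY1
      have h8 : wtK K (fun 𝔭 => ((q.factorial : ℕ) : 𝓞 K) * D ∉ 𝔭 ∧ b t ∉ 𝔭 ∧
            C10_π a b 𝔭 t ∈ C10_Z f 𝔭) z ≤
          ∑ 𝔭 ∈ P.filter (fun 𝔭 => t ∈ S 𝔭), Real.log (Ideal.absNorm 𝔭) / Ideal.absNorm 𝔭 := by
        rw [wtK_eq]
        refine Finset.sum_le_sum_of_subset_of_nonneg ?_ ?_
        · intro 𝔭 h𝔭
          have h9 := (Set.Finite.mem_toFinset _).1 h𝔭
          exact Finset.mem_filter.2 ⟨(hPmem 𝔭).2 ⟨h9.1, h9.2.1, h9.2.2.1⟩,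
            Finset.mem_filter.2 ⟨ht, h9.2.2.2⟩⟩
        · intro 𝔭 _ _
          exact div_nonneg (Real.log_natCast_nonneg _) (Nat.cast_nonneg _)
      have hnorm : (Ideal.absNorm (Ideal.span {dt}) : ℝ) ≤
          ((q.factorial : ℝ) * ((2 * d).factorial * (d * (z : ℝ) ^ B) ^ (2 * d)) * (z : ℝ) ^ B) ^ n := by
        refine (absNorm_le_house dt).trans ?_
        refine pow_le_pow_left₀ (house_nonneg _) ?_ n
        have h9 : ((dt : 𝓞 K) : K) = (((q.factorial : ℕ) : K) * (D : K)) * (b t : K) := by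
          rw [hdt]
          push_cast
          ring
        rw [h9]
        refine (house_mul_le _ _).trans ?_
        refine mul_le_mul ?_ hhb (house_nonneg _) (by positivity)
        rw [house_nat_mul]
        exact mul_le_mul_of_nonneg_left hDle (Nat.cast_nonneg _)
      have hpos : (0 : ℝ) < (Ideal.absNorm (Ideal.span {dt}) : ℝ) := by
        have : Ideal.absNorm (Ideal.span {dt}) ≠ 0 := by
          rw [Ne, Ideal.absNorm_eq_zero_iff, Ideal.span_singleton_eq_bot]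
          exact hdt0
        exact_mod_cast Nat.pos_of_ne_zero this
      have h10 := C10_log d q B z n hd hz1 _ hpos hnorm
      rw [← hK₁] at h10
      have h11 : Real.log (Ideal.absNorm (Ideal.span {dt})) / Y ≤ K₁ + δ * c / 4 * Real.log z := by
        have h12 : Real.log (Ideal.absNorm (Ideal.span {dt})) / Y ≤
            K₁ / Y + n * ((2 * d + 1) * B) / Y * Real.log z := by
          rw [div_mul_eq_mul_div, ← add_div]
          exact div_le_div_of_nonneg_right h10 hY0.le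
        have h13 : K₁ / Y ≤ K₁ := div_le_self hK₁0 (by exact_mod_cast hY1)
        have h14 : n * ((2 * d + 1) * B) / Y * Real.log z ≤ δ * c / 4 * Real.log z :=
          mul_le_mul_of_nonneg_right hYδ (by linarith)
        linarith
      have h15 : K₀ ≤ δ * c / 4 * Real.log z := by
        rw [div_lt_iff₀ hδc] at hl2
        linarith
      have h16 : δ * (c * Real.log z) ≤ δ * L := mul_le_mul_of_nonneg_left hLlog hδ.le
      rw [hK₀] at h15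
      linarith) (by
      rw [hL, wtK_eq]
      refine Finset.sum_le_sum_of_subset_of_nonneg ?_ ?_
      · intro 𝔭 h𝔭
        have h9 := (hPmem 𝔭).1 h𝔭
        exact (Set.Finite.mem_toFinset _).2 ⟨h9.1, h9.2.1, trivial⟩
      · intro 𝔭 _ _
        exact div_nonneg (Real.log_natCast_nonneg _) (Nat.cast_nonneg _))
    (hΘ z P fun 𝔭 h𝔭 => ⟨((hPmem 𝔭).1 h𝔭).1, ((hPmem 𝔭).1 h𝔭).2.1⟩)
  have hlogX : Real.log (2 * X ^ 2) = Real.log 2 + 2 * (B * Real.log z) := by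
    rw [Real.log_mul (by norm_num) (by positivity), Real.log_pow, hX, Real.log_pow]
    norm_num
  have hκ : (δ * L / 2) ^ 2 / (ε * L) = (n + 2 * n * B + Θ) / c * L := by
    rw [hε]
    have : (n : ℝ) + 2 * n * B + Θ ≠ 0 := by positivity
    field_simp
    ring
  rw [hlogX, hκ] at hbound
  have hM0 : (0 : ℝ) < n + 2 * n * B + Θ := by positivity
  have h1 : (n + 2 * n * B + Θ) * Real.log z ≤ (n + 2 * n * B + Θ) / c * L := by
    have h2 : (n + 2 * n * B + Θ) / c * (c * Real.log z) ≤ (n + 2 * n * B + Θ) / c * L :=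
      mul_le_mul_of_nonneg_left hLlog (by positivity)
    have h3 : (n + 2 * n * B + Θ) / c * (c * Real.log z) = (n + 2 * n * B + Θ) * Real.log z := by
      field_simp
    linarith
  have h2 : Θ ≤ (n + 2 * n * B + Θ) / c * L - n * (Real.log 2 + 2 * (B * Real.log z)) := by
    have h3 : Real.log 2 < 1 := by
      have := Real.log_two_lt_d9
      linarith
    have h4 : (n : ℝ) * Real.log 2 ≤ n * Real.log z :=
      mul_le_mul_of_nonneg_left (by linarith) (Nat.cast_nonneg _)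
    have h5 : Θ * 1 ≤ Θ * Real.log z := mul_le_mul_of_nonneg_left hl3.le hΘ0.le
    nlinarith [h1, h4, h5]
  have h3 : (T.card : ℝ) * Θ ≤ (z : ℝ) * Θ := by
    calc (T.card : ℝ) * Θ ≤ T.card * ((n + 2 * n * B + Θ) / c * L -
          n * (Real.log 2 + 2 * (B * Real.log z))) := mul_le_mul_of_nonneg_left h2 (Nat.cast_nonneg _)
      _ ≤ Θ * z := hbound
      _ = z * Θ := mul_comm _ _
  have h4 : (T.card : ℝ) ≤ z := le_of_mul_le_mul_right h3 hΘ0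
  have h5 : T.card ≤ z := by exact_mod_cast h4
  rw [hfin.encard_eq_coe_toFinset_card, ← hT]
  exact_mod_cast h5

end MPadcOA
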