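import Pool.Agent.Lib.MP_adc574_ag_OA.C2b

/-!
# Leaf C3: upper bounds for sums over primes
-/

set_option autoImplicit false

namespace MPadcOA

open NumberField

private theorem C3_group (K : Type) [Field K] [NumberField K] : ∃ pr : Ideal (𝓞 K) → ℕ,
    (∀ 𝔭 : Ideal (𝓞 K), 𝔭.IsMaximal → (pr 𝔭).Prime ∧ pr 𝔭 ≤ Ideal.absNorm 𝔭) ∧
      ∀ P : Finset (Ideal (𝓞 K)), (∀ 𝔭 ∈ P, 𝔭.IsMaximal) → ∀ p : ℕ, p.Prime →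
        ∑ 𝔭 ∈ P with pr 𝔭 = p, Real.log (Ideal.absNorm 𝔭) ≤ Module.finrank ℚ K * Real.log p := by
  classical
  choose! pr h1 h2 h3 using exists_prime_mem (K := K)
  refine ⟨pr, fun 𝔭 h => ⟨h1 𝔭 h, h2 𝔭 h⟩, fun P hP p hp => ?_⟩
  refine sum_log_over _ (fun 𝔭 h => hP 𝔭 (Finset.mem_filter.1 h).1) p hp fun 𝔭 h => ?_
  rw [← (Finset.mem_filter.1 h).2]
  exact h3 𝔭 (hP 𝔭 (Finset.mem_filter.1 h).1)

private theorem C3_log {p : ℕ} (hp : p.Prime) :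
    Real.log p / (p : ℝ) ^ 2 ≤ 2 * ((p : ℝ) ^ (3 / 2 : ℝ))⁻¹ := by
  have hp0 : (0 : ℝ) < p := Nat.cast_pos.mpr hp.pos
  have h1 : Real.log p ≤ (p : ℝ) ^ (1 / 2 : ℝ) / (1 / 2) := Real.log_le_rpow_div hp0.le (by norm_num)
  have h2 : (p : ℝ) ^ (1 / 2 : ℝ) * (p : ℝ) ^ (3 / 2 : ℝ) = (p : ℝ) ^ 2 := by
    rw [← Real.rpow_add hp0, ← Real.rpow_natCast]
    norm_num
  have h3 : 0 < (p : ℝ) ^ (3 / 2 : ℝ) := Real.rpow_pos_of_pos hp0 _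
  have h4 : 0 < (p : ℝ) ^ (1 / 2 : ℝ) := Real.rpow_pos_of_pos hp0 _
  rw [← h2, div_le_iff₀ (mul_pos h4 h3)]
  calc Real.log p ≤ (p : ℝ) ^ (1 / 2 : ℝ) / (1 / 2) := h1
    _ = 2 * ((p : ℝ) ^ (3 / 2 : ℝ))⁻¹ * ((p : ℝ) ^ (1 / 2 : ℝ) * (p : ℝ) ^ (3 / 2 : ℝ)) := by
      field_simp

/-- PROOF. Each `𝔭 ∈ P` contains a prime number `p(𝔭) ≤ absNorm 𝔭 ≤ z` (`exists_prime_mem`); group by `p` (`Finset.sum_fiberwise_of_maps_to`): the sum over the `𝔭` with `p(𝔭) = p` is at most `n log p` (`sum_log_over`), and `∑_(p ≤ z) log p ≤ log 4 * z` (`Chebyshev.theta_le_log4_mul_x`, `Chebyshev.theta_eq_sum_Icc`): `C = n log 4`. -/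
theorem thetaK (K : Type) [Field K] [NumberField K] : ∃ C : ℝ, 0 < C ∧ ∀ (z : ℕ) (P : Finset (Ideal (𝓞 K))),
    (∀ 𝔭 ∈ P, 𝔭.IsMaximal ∧ Ideal.absNorm 𝔭 ≤ z) → ∑ 𝔭 ∈ P, Real.log (Ideal.absNorm 𝔭) ≤ C * z := by
  classical
  obtain ⟨pr, h1, h2⟩ := C3_group K
  have hn : (0 : ℝ) < Module.finrank ℚ K := Nat.cast_pos.mpr Module.finrank_pos
  refine ⟨Module.finrank ℚ K * Real.log 4, mul_pos hn (Real.log_pos (by norm_num)), fun z P hP => ?_⟩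
  have hP' : ∀ 𝔭 ∈ P, 𝔭.IsMaximal := fun 𝔭 h => (hP 𝔭 h).1
  have h3 : ∀ 𝔭 ∈ P, pr 𝔭 ∈ (Finset.Icc 0 z).filter Nat.Prime := fun 𝔭 h =>
    Finset.mem_filter.2 ⟨Finset.mem_Icc.2 ⟨Nat.zero_le _, (h1 𝔭 (hP' 𝔭 h)).2.trans (hP 𝔭 h).2⟩,
      (h1 𝔭 (hP' 𝔭 h)).1⟩
  have h4 : Chebyshev.theta (z : ℝ) = ∑ p ∈ (Finset.Icc 0 z).filter Nat.Prime, Real.log p := by
    rw [Chebyshev.theta_eq_sum_Icc, Nat.floor_natCast]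
  calc ∑ 𝔭 ∈ P, Real.log (Ideal.absNorm 𝔭)
      = ∑ p ∈ (Finset.Icc 0 z).filter Nat.Prime, ∑ 𝔭 ∈ P with pr 𝔭 = p, Real.log (Ideal.absNorm 𝔭) :=
        (Finset.sum_fiberwise_of_maps_to h3 _).symm
    _ ≤ ∑ p ∈ (Finset.Icc 0 z).filter Nat.Prime, Module.finrank ℚ K * Real.log p :=
        Finset.sum_le_sum fun p hp => h2 P hP' p (Finset.mem_filter.1 hp).2
    _ = Module.finrank ℚ K * Chebyshev.theta (z : ℝ) := by rw [h4, Finset.mul_sum]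
    _ ≤ Module.finrank ℚ K * (Real.log 4 * z) :=
        mul_le_mul_of_nonneg_left (Chebyshev.theta_le_log4_mul_x (Nat.cast_nonneg z)) hn.le
    _ = Module.finrank ℚ K * Real.log 4 * z := by ring

/-- PROOF. Group as in `thetaK`: `log N𝔭 / N𝔭 ^ 2 ≤ log N𝔭 / p ^ 2`, so the sum over the `𝔭` with `p(𝔭) = p` is at most `n log p / p ^ 2 ≤ 2 n p ^ (-3/2)` (`Real.log_le_rpow_div`: `log p ≤ 2 √p`), and `∑ p ^ (-3/2)` converges (`Real.summable_nat_rpow_inv`). -/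
theorem sum_sq (K : Type) [Field K] [NumberField K] : ∃ C : ℝ, 0 ≤ C ∧ ∀ P : Finset (Ideal (𝓞 K)),
    (∀ 𝔭 ∈ P, 𝔭.IsMaximal) → ∑ 𝔭 ∈ P, Real.log (Ideal.absNorm 𝔭) / (Ideal.absNorm 𝔭 : ℝ) ^ 2 ≤ C := by
  classical
  obtain ⟨pr, h1, h2⟩ := C3_group K
  have hn : (0 : ℝ) ≤ Module.finrank ℚ K := Nat.cast_nonneg _
  have hg : Summable fun p : ℕ => (Module.finrank ℚ K : ℝ) * (2 * ((p : ℝ) ^ (3 / 2 : ℝ))⁻¹) :=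
    ((Real.summable_nat_rpow_inv.mpr (by norm_num)).mul_left 2).mul_left _
  have hg0 : ∀ p : ℕ, 0 ≤ (Module.finrank ℚ K : ℝ) * (2 * ((p : ℝ) ^ (3 / 2 : ℝ))⁻¹) := fun p => by
    positivity
  refine ⟨∑' p : ℕ, (Module.finrank ℚ K : ℝ) * (2 * ((p : ℝ) ^ (3 / 2 : ℝ))⁻¹), tsum_nonneg hg0, fun P hP => ?_⟩
  have h3 : ∀ 𝔭 ∈ P, pr 𝔭 ∈ P.image pr := fun 𝔭 h => Finset.mem_image_of_mem pr h
  refine le_trans ?_ (hg.sum_le_tsum (P.image pr) fun p _ => hg0 p)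
  rw [← Finset.sum_fiberwise_of_maps_to h3]
  refine Finset.sum_le_sum fun p hp => ?_
  obtain ⟨𝔮, hq, rfl⟩ := Finset.mem_image.1 hp
  have hpp := (h1 𝔮 (hP 𝔮 hq)).1
  obtain ⟨p, hpdef⟩ : ∃ p, p = pr 𝔮 := ⟨_, rfl⟩
  rw [← hpdef] at hpp ⊢
  have hp0 : (0 : ℝ) < p := Nat.cast_pos.mpr hpp.pos
  calc ∑ 𝔭 ∈ P with pr 𝔭 = p, Real.log (Ideal.absNorm 𝔭) / (Ideal.absNorm 𝔭 : ℝ) ^ 2
      ≤ ∑ 𝔭 ∈ P with pr 𝔭 = p, Real.log (Ideal.absNorm 𝔭) / (p : ℝ) ^ 2 := by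
        refine Finset.sum_le_sum fun 𝔭 h => ?_
        obtain ⟨h5, h6⟩ := Finset.mem_filter.1 h
        have h7 : (p : ℝ) ≤ Ideal.absNorm 𝔭 := by
          rw [← h6]
          exact Nat.cast_le.2 (h1 𝔭 (hP 𝔭 h5)).2
        exact div_le_div_of_nonneg_left (Real.log_natCast_nonneg _) (pow_pos hp0 2)
          (pow_le_pow_left₀ hp0.le h7 2)
    _ = (∑ 𝔭 ∈ P with pr 𝔭 = p, Real.log (Ideal.absNorm 𝔭)) / (p : ℝ) ^ 2 := by rw [Finset.sum_div]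
    _ ≤ Module.finrank ℚ K * Real.log p / (p : ℝ) ^ 2 :=
        div_le_div_of_nonneg_right (h2 P hP p hpp) (pow_nonneg hp0.le 2)
    _ = Module.finrank ℚ K * (Real.log p / (p : ℝ) ^ 2) := by rw [mul_div_assoc]
    _ ≤ Module.finrank ℚ K * (2 * ((p : ℝ) ^ (3 / 2 : ℝ))⁻¹) :=
        mul_le_mul_of_nonneg_left (C3_log hpp) hn

end MPadcOA
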