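import Pool.Agent.Lib.MP_adc574_ag_OA.CDefs

/-!
# Leaf C4 (Mathlib only): the number of ideals
-/

set_option autoImplicit false

namespace MPadcOA

open NumberField

private theorem C4_card (K : Type) [Field K] [NumberField K] (x : ℕ) :
    (icount K x : ℝ) = (Nat.card {I : nonZeroDivisors (Ideal (𝓞 K)) //
      (Ideal.absNorm (I : Ideal (𝓞 K)) : ℝ) ≤ (x : ℝ)} : ℝ) := by
  congr 1
  unfold icount
  rw [← Nat.card_coe_set_eq]
  refine Nat.card_congr ⟨fun I => ⟨⟨I.1, mem_nonZeroDivisors_iff_ne_zero.2 I.2.1⟩, by exact_mod_cast I.2.2⟩,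
    fun I => ⟨I.1.1, mem_nonZeroDivisors_iff_ne_zero.1 I.1.2, by exact_mod_cast I.2⟩, fun _ => rfl, fun _ => rfl⟩

private theorem C4_lim (K : Type) [Field K] [NumberField K] :
    ∃ ρ : ℝ, 0 < ρ ∧ Filter.Tendsto (fun x : ℕ => (icount K x : ℝ) / x) Filter.atTop (nhds ρ) := by
  refine ⟨_, dedekindZeta_residue_pos K, ?_⟩
  rw [dedekindZeta_residue_def]
  have h := (Ideal.tendsto_norm_le_div_atTop₀ K).comp tendsto_natCast_atTop_atTop
  refine h.congr fun x => ?_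
  simp only [Function.comp_apply]
  rw [C4_card]

private theorem C4_mono (K : Type) [Field K] [NumberField K] {x y : ℕ} (h : x ≤ y) : icount K x ≤ icount K y := by
  unfold icount
  refine Set.ncard_le_ncard (fun I hI => ⟨hI.1, hI.2.trans h⟩) ?_
  exact (Ideal.finite_setOfPred_absNorm_le (S := 𝓞 K) y).subset fun I hI => hI.2

private theorem C4_zero (K : Type) [Field K] [NumberField K] : icount K 0 = 0 := by
  unfold icount
  have : {I : Ideal (𝓞 K) | I ≠ ⊥ ∧ Ideal.absNorm I ≤ 0} = ∅ := by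
    ext I
    simp only [Set.mem_ofPred_eq, Set.mem_empty_iff_false, iff_false]
    rintro ⟨h1, h2⟩
    exact h1 (Ideal.absNorm_eq_zero_iff.1 (Nat.le_zero.1 h2))
  rw [this, Set.ncard_empty]

/-- PROOF. `NumberField.Ideal.tendsto_norm_le_div_atTop₀`: `icount K x / x` converges to a number `ρ > 0` (`nonZeroDivisors` of the domain = the ideals `≠ ⊥`; the constant is positive). So it is at most `2 ρ` for `x ≥ x₁`, and for `x < x₁` it is at most `icount K x₁` (monotone; `1 ≤ x`). -/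
theorem icount_le (K : Type) [Field K] [NumberField K] :
    ∃ C : ℝ, 0 < C ∧ ∀ x : ℕ, (icount K x : ℝ) ≤ C * x := by
  obtain ⟨ρ, hρ, hlim⟩ := C4_lim K
  obtain ⟨x₁, hx₁⟩ := Filter.eventually_atTop.1 (hlim.eventually (gt_mem_nhds (show ρ < 2 * ρ by linarith)))
  refine ⟨2 * ρ + icount K x₁, by positivity, fun x => ?_⟩
  rcases Nat.eq_zero_or_pos x with rfl | hx
  · rw [C4_zero]
    simp
  have hx0 : (0 : ℝ) < x := by exact_mod_cast hx
  have hx1 : (1 : ℝ) ≤ x := by exact_mod_cast hx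
  have hi : (0 : ℝ) ≤ icount K x₁ := Nat.cast_nonneg _
  rcases le_or_gt x₁ x with h | h
  · have h1 := hx₁ x h
    rw [div_lt_iff₀ hx0] at h1
    nlinarith [mul_nonneg hi hx0.le]
  · have h1 : (icount K x : ℝ) ≤ icount K x₁ := by exact_mod_cast C4_mono K h.le
    nlinarith [mul_nonneg hρ.le hx0.le, mul_le_mul_of_nonneg_left hx1 hi]

/-- PROOF. With `ρ` as in `icount_le`: `icount K x ≥ ρ x / 2` for large `x`, `icount K (sqrt x) ≤ C √x ≤ ρ x / 4` for large `x`. -/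
theorem icount_sub (K : Type) [Field K] [NumberField K] :
    ∃ c : ℝ, 0 < c ∧ ∃ x₀ : ℕ, ∀ x : ℕ, x₀ ≤ x → c * x ≤ (icount K x : ℝ) - icount K (Nat.sqrt x) := by
  obtain ⟨ρ, hρ, hlim⟩ := C4_lim K
  obtain ⟨x₁, hx₁⟩ := Filter.eventually_atTop.1 (hlim.eventually (lt_mem_nhds (show ρ / 2 < ρ by linarith)))
  obtain ⟨C, hC, hCx⟩ := icount_le K
  obtain ⟨m, hm⟩ := exists_nat_ge (4 * C / ρ)
  refine ⟨ρ / 4, by positivity, x₁ + m * m + 1, fun x hx => ?_⟩
  have hx0 : (0 : ℝ) < x := by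
    have : 0 < x := by omega
    exact_mod_cast this
  have h1 := hx₁ x (by omega)
  rw [lt_div_iff₀ hx0] at h1
  have h2 : m ≤ Nat.sqrt x := Nat.le_sqrt.2 (by omega)
  have h2' : (m : ℝ) ≤ Nat.sqrt x := by exact_mod_cast h2
  have h3 : ((Nat.sqrt x : ℕ) : ℝ) * Nat.sqrt x ≤ x := by exact_mod_cast Nat.sqrt_le x
  have h4 := hCx (Nat.sqrt x)
  have h5 : 4 * C ≤ ρ * Nat.sqrt x := by
    have h6 := hm.trans h2'
    rw [div_le_iff₀ hρ] at h6
    linarith
  have h7 : (0 : ℝ) ≤ Nat.sqrt x := Nat.cast_nonneg _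
  nlinarith [mul_le_mul_of_nonneg_right h5 h7, mul_le_mul_of_nonneg_left h3 hρ.le]

end MPadcOA
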