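import Pool.Agent.Lib.MP_adc574_ag_OA.C1

/-!
# Leaf C5: factorization of ideals
-/

set_option autoImplicit false

namespace MPadcOA

open NumberField

variable {K : Type} [Field K] [NumberField K]

private theorem C5_fin (x : ℕ) (P : ℕ → Prop) : {k : ℕ | 1 ≤ k ∧ k ≤ x ∧ P k}.Finite :=
  (Set.finite_Iic x).subset fun _ hk => hk.2.1

omit [NumberField K] in
private theorem C5_mono (J I 𝔭 : Ideal (𝓞 K)) (h : J ∣ I) (x : ℕ) :
    {k : ℕ | 1 ≤ k ∧ k ≤ x ∧ 𝔭 ^ k ∣ J}.ncard ≤ {k : ℕ | 1 ≤ k ∧ k ≤ x ∧ 𝔭 ^ k ∣ I}.ncard :=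
  Set.ncard_le_ncard (fun _ hk => ⟨hk.1, hk.2.1, hk.2.2.trans h⟩) (C5_fin x _)

private theorem C5_pos {I : Ideal (𝓞 K)} (hI : I ≠ ⊥) : 0 < Ideal.absNorm I := by
  refine Nat.pos_of_ne_zero fun h => hI ?_
  exact Ideal.absNorm_eq_zero_iff.1 h

private theorem C5_step (q J : Ideal (𝓞 K)) (hJ : J ≠ ⊥) (hq0 : q ≠ ⊥) (hq : 2 ≤ Ideal.absNorm q)
    (x : ℕ) (hx : Ideal.absNorm (q * J) ≤ x) :
    {k : ℕ | 1 ≤ k ∧ k ≤ x ∧ q ^ k ∣ J}.ncard + 1 ≤
      {k : ℕ | 1 ≤ k ∧ k ≤ x ∧ q ^ k ∣ q * J}.ncard := by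
  have hN : 0 < Ideal.absNorm (q * J) := C5_pos (mul_ne_zero hq0 hJ)
  have hle : ∀ k : ℕ, q ^ k ∣ q * J → k < Ideal.absNorm (q * J) := by
    intro k hk
    have h1 : Ideal.absNorm (q ^ k) ∣ Ideal.absNorm (q * J) := map_dvd Ideal.absNorm hk
    rw [map_pow] at h1
    have h2 : (Ideal.absNorm q) ^ k ≤ Ideal.absNorm (q * J) := Nat.le_of_dvd hN h1
    have h3 : 2 ^ k ≤ (Ideal.absNorm q) ^ k := Nat.pow_le_pow_left hq k
    have h4 : k < 2 ^ k := Nat.lt_two_pow_self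
    omega
  have h1 : insert 1 ((fun k : ℕ => k + 1) '' {k : ℕ | 1 ≤ k ∧ k ≤ x ∧ q ^ k ∣ J}) ⊆
      {k : ℕ | 1 ≤ k ∧ k ≤ x ∧ q ^ k ∣ q * J} := by
    intro k hk
    rcases Set.mem_insert_iff.1 hk with rfl | hk
    · have h2 : q ^ 1 ∣ q * J := by
        rw [pow_one]
        exact Dvd.intro J rfl
      have h3 := hle 1 h2
      exact ⟨le_refl 1, by omega, h2⟩
    · obtain ⟨m, hm, rfl⟩ := hk
      have h2 : q ^ (m + 1) ∣ q * J := by
        rw [pow_succ']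
        exact mul_dvd_mul_left q hm.2.2
      have h3 := hle (m + 1) h2
      refine ⟨by simp, ?_, h2⟩
      show m + 1 ≤ x
      omega
  have h2 := Set.ncard_le_ncard h1 (C5_fin x _)
  rw [Set.ncard_insert_of_notMem ?_ ((C5_fin x _).image _),
    Set.ncard_image_of_injective _ (fun a b hab => Nat.succ_injective hab)] at h2
  · exact h2
  · rintro ⟨m, hm, hm1⟩
    have h3 := hm.1
    have h4 : m + 1 = 1 := hm1
    omega

private theorem C5_log_nonneg (I : Ideal (𝓞 K)) : 0 ≤ Real.log (Ideal.absNorm I) :=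
  Real.log_natCast_nonneg _

/-- PROOF. `I = ∏ 𝔭 ^ v_𝔭` (unique factorization into maximal ideals, `UniqueFactorizationMonoid.normalizedFactors`, `Ideal.prod_normalizedFactors_eq_self`), so `log N I = ∑_𝔭 v_𝔭 log N𝔭`; only `𝔭` with `N𝔭 ≤ N I ≤ x` occur, and `v_𝔭 = #{k ≥ 1 | 𝔭 ^ k ∣ I}`, `v_𝔭 ≤ log_2 (N I) ≤ x`
(`N𝔭 ≥ 2`). (Induction over the factorization is also possible: `UniqueFactorizationMonoid.induction_on_prime`.) -/
theorem log_absNorm_le (I : Ideal (𝓞 K)) (hI : I ≠ ⊥) (x : ℕ) (hx : Ideal.absNorm I ≤ x) :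
    Real.log (Ideal.absNorm I) ≤ ∑ 𝔭 ∈ (primesK_finite (K := K) (fun _ => True) x).toFinset,
      ({k : ℕ | 1 ≤ k ∧ k ≤ x ∧ 𝔭 ^ k ∣ I}.ncard : ℝ) * Real.log (Ideal.absNorm 𝔭) := by
  classical
  have key : ∀ I : Ideal (𝓞 K), I ≠ ⊥ → Ideal.absNorm I ≤ x →
      Real.log (Ideal.absNorm I) ≤ ∑ 𝔭 ∈ (primesK_finite (K := K) (fun _ => True) x).toFinset,
        ({k : ℕ | 1 ≤ k ∧ k ≤ x ∧ 𝔭 ^ k ∣ I}.ncard : ℝ) * Real.log (Ideal.absNorm 𝔭) := by
    intro I
    refine UniqueFactorizationMonoid.induction_on_prime I ?_ ?_ ?_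
    · intro h
      exact absurd rfl h
    · intro J hJ _ _
      have h1 : J = ⊤ := Ideal.isUnit_iff.1 hJ
      rw [h1, Ideal.absNorm_top, Nat.cast_one, Real.log_one]
      exact Finset.sum_nonneg fun 𝔭 _ => mul_nonneg (Nat.cast_nonneg _) (C5_log_nonneg 𝔭)
    · intro J q hJ0 hq ih hqJ hN
      have hJ : J ≠ ⊥ := hJ0
      have hq0 : q ≠ ⊥ := hq.ne_zero
      have hqp : q.IsPrime := Ideal.isPrime_of_prime hq
      have hqm : q.IsMaximal := hqp.isMaximal hq0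
      have hqpos := C5_pos hq0
      have hJpos := C5_pos hJ
      have hq1 : Ideal.absNorm q ≠ 1 := fun h => hqp.ne_top (Ideal.absNorm_eq_one_iff.1 h)
      have hq2 : 2 ≤ Ideal.absNorm q := by omega
      have hmul : Ideal.absNorm (q * J) = Ideal.absNorm q * Ideal.absNorm J := map_mul _ _ _
      have hJx : Ideal.absNorm J ≤ x := by
        have h1 : Ideal.absNorm J ≤ Ideal.absNorm q * Ideal.absNorm J :=
          Nat.le_mul_of_pos_left _ hqpos
        omega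
      have hqx : Ideal.absNorm q ≤ x := by
        have h1 : Ideal.absNorm q ≤ Ideal.absNorm q * Ideal.absNorm J :=
          Nat.le_mul_of_pos_right _ hJpos
        omega
      have h1 := ih hJ hJx
      have hqS : q ∈ (primesK_finite (K := K) (fun _ => True) x).toFinset := by
        rw [Set.Finite.mem_toFinset]
        exact ⟨hqm, hqx, trivial⟩
      have h2 : Real.log (Ideal.absNorm (q * J)) =
          Real.log (Ideal.absNorm q) + Real.log (Ideal.absNorm J) := by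
        rw [hmul, Nat.cast_mul, Real.log_mul (by exact_mod_cast hqpos.ne')
          (by exact_mod_cast hJpos.ne')]
      have h3 : ∑ 𝔭 ∈ (primesK_finite (K := K) (fun _ => True) x).toFinset,
          (if 𝔭 = q then Real.log (Ideal.absNorm q) else 0) = Real.log (Ideal.absNorm q) := by
        rw [Finset.sum_ite_eq', if_pos hqS]
      rw [h2]
      calc Real.log (Ideal.absNorm q) + Real.log (Ideal.absNorm J)
          ≤ ∑ 𝔭 ∈ (primesK_finite (K := K) (fun _ => True) x).toFinset,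
              (if 𝔭 = q then Real.log (Ideal.absNorm q) else 0) +
            ∑ 𝔭 ∈ (primesK_finite (K := K) (fun _ => True) x).toFinset,
              ({k : ℕ | 1 ≤ k ∧ k ≤ x ∧ 𝔭 ^ k ∣ J}.ncard : ℝ) * Real.log (Ideal.absNorm 𝔭) := by
            rw [h3]
            linarith
        _ = ∑ 𝔭 ∈ (primesK_finite (K := K) (fun _ => True) x).toFinset,
              ((if 𝔭 = q then Real.log (Ideal.absNorm q) else 0) +
              ({k : ℕ | 1 ≤ k ∧ k ≤ x ∧ 𝔭 ^ k ∣ J}.ncard : ℝ) * Real.log (Ideal.absNorm 𝔭)) :=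
            Finset.sum_add_distrib.symm
        _ ≤ _ := by
            refine Finset.sum_le_sum fun 𝔭 _ => ?_
            split_ifs with hpq
            · subst hpq
              have h4 : (({k : ℕ | 1 ≤ k ∧ k ≤ x ∧ 𝔭 ^ k ∣ J}.ncard : ℕ) : ℝ) + 1 ≤
                  ({k : ℕ | 1 ≤ k ∧ k ≤ x ∧ 𝔭 ^ k ∣ 𝔭 * J}.ncard : ℝ) := by
                exact_mod_cast C5_step 𝔭 J hJ hq0 hq2 x hN
              have h5 := mul_le_mul_of_nonneg_right h4 (C5_log_nonneg 𝔭)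
              rw [add_mul, one_mul] at h5
              linarith
            · rw [zero_add]
              refine mul_le_mul_of_nonneg_right ?_ (C5_log_nonneg 𝔭)
              exact_mod_cast C5_mono J (q * J) 𝔭 (Dvd.intro_left q rfl) x
  exact key I hI hx

/-- PROOF. `I = J * I'` with `I' ≠ ⊥`, `N I' = N I / N J ≤ x / N J`; `I' ↦ J * I'` is a surjection from the ideals `≠ ⊥` of norm `≤ x / N J` to this set (`Set.ncard_le_ncard_of_injOn` / `Set.ncard_image_le`). -/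
theorem icount_dvd (J : Ideal (𝓞 K)) (hJ : J ≠ ⊥) (x : ℕ) :
    {I : Ideal (𝓞 K) | I ≠ ⊥ ∧ Ideal.absNorm I ≤ x ∧ J ∣ I}.ncard ≤ icount K (x / Ideal.absNorm J) := by
  have hJpos := C5_pos hJ
  have hfin : {I : Ideal (𝓞 K) | I ≠ ⊥ ∧ Ideal.absNorm I ≤ x / Ideal.absNorm J}.Finite :=
    (Ideal.finite_setOfPred_absNorm_le (S := 𝓞 K) (x / Ideal.absNorm J)).subset fun _ h => h.2
  have h1 : {I : Ideal (𝓞 K) | I ≠ ⊥ ∧ Ideal.absNorm I ≤ x ∧ J ∣ I} ⊆
      (fun I' : Ideal (𝓞 K) => J * I') ''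
        {I : Ideal (𝓞 K) | I ≠ ⊥ ∧ Ideal.absNorm I ≤ x / Ideal.absNorm J} := by
    rintro I ⟨hI, hIx, I', rfl⟩
    have hI' : I' ≠ ⊥ := fun h => hI (by rw [h, Ideal.mul_bot])
    refine ⟨I', ⟨hI', ?_⟩, rfl⟩
    rw [Nat.le_div_iff_mul_le hJpos, mul_comm, ← map_mul]
    exact hIx
  exact (Set.ncard_le_ncard h1 (hfin.image _)).trans (Set.ncard_image_le hfin)

end MPadcOA
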