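import Pool.Agent.Lib.MP_adc574_ag_OA.C3
import Pool.Agent.Lib.MP_adc574_ag_OA.C4
import Pool.Agent.Lib.MP_adc574_ag_OA.C5

/-!
# Leaf C6: a lower bound of Mertens type
-/

set_option autoImplicit false

namespace MPadcOA

open NumberField

private theorem C6_geo (N : ℝ) (hN : 2 ≤ N) (m : ℕ) : ∑ k ∈ Finset.Icc 1 m, 1 / N ^ k ≤ 1 / N + 2 / N ^ 2 := by
  have hN0 : 0 < N := by linarith
  have hN1 : 0 < N - 1 := by linarith
  have h1 : ∀ m : ℕ, ∑ k ∈ Finset.Icc 1 m, 1 / N ^ k = 1 / (N - 1) - 1 / ((N - 1) * N ^ m) := by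
    intro m
    induction m with
    | zero => simp
    | succ m ih =>
      rw [Finset.sum_Icc_succ_top (by omega), ih]
      have := hN0.ne'
      have := hN1.ne'
      field_simp
      ring
  rw [h1]
  have h2 : 0 ≤ 1 / ((N - 1) * N ^ m) := by positivity
  have h3 : 1 / (N - 1) ≤ 1 / N + 2 / N ^ 2 := by
    have h4 : 1 / N + 2 / N ^ 2 = (N + 2) / N ^ 2 := by
      have := hN0.ne'
      field_simp
    rw [h4, div_le_div_iff₀ hN1 (by positivity)]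
    nlinarith
  linarith

private theorem C6_two {K : Type} [Field K] [NumberField K] (𝔭 : Ideal (𝓞 K)) (h : 𝔭.IsMaximal) :
    2 ≤ Ideal.absNorm 𝔭 := by
  obtain ⟨p, hp, hle, -⟩ := exists_prime_mem 𝔭 h
  exact hp.two_le.trans hle

private theorem C6_fin (K : Type) [Field K] [NumberField K] (y : ℕ) :
    {I : Ideal (𝓞 K) | I ≠ ⊥ ∧ Ideal.absNorm I ≤ y}.Finite :=
  (Ideal.finite_setOfPred_absNorm_le y).subset fun _ h => h.2

private theorem C6_one {K : Type} [Field K] [NumberField K] {C₁ : ℝ} (hC₁ : 0 < C₁)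
    (hic : ∀ x : ℕ, (icount K x : ℝ) ≤ C₁ * x) (x : ℕ) (𝔭 : Ideal (𝓞 K)) (h : 𝔭.IsMaximal) :
    ∑ I ∈ (C6_fin K x).toFinset, ({k : ℕ | 1 ≤ k ∧ k ≤ x ∧ 𝔭 ^ k ∣ I}.ncard : ℝ) ≤
      C₁ * x * (1 / (Ideal.absNorm 𝔭 : ℝ) + 2 / (Ideal.absNorm 𝔭 : ℝ) ^ 2) := by
  classical
  have hN2 := C6_two 𝔭 h
  have hN2' : (2 : ℝ) ≤ (Ideal.absNorm 𝔭 : ℝ) := by exact_mod_cast hN2
  have h𝔭 : 𝔭 ≠ ⊥ := by
    intro h0
    rw [← Ideal.absNorm_eq_zero_iff] at h0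
    omega
  have h1 : ∀ I : Ideal (𝓞 K), ({k : ℕ | 1 ≤ k ∧ k ≤ x ∧ 𝔭 ^ k ∣ I}.ncard : ℝ) =
      ∑ k ∈ Finset.Icc 1 x, if 𝔭 ^ k ∣ I then (1 : ℝ) else 0 := by
    intro I
    have h2 : {k : ℕ | 1 ≤ k ∧ k ≤ x ∧ 𝔭 ^ k ∣ I} = ((Finset.Icc 1 x).filter fun k => 𝔭 ^ k ∣ I : Finset ℕ) := by
      ext k
      simp only [Set.mem_ofPred_eq, Finset.coe_filter, Finset.mem_Icc, and_assoc]
    rw [h2, Set.ncard_coe_finset, Finset.card_filter]
    push_cast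
    rfl
  rw [Finset.sum_congr rfl fun I _ => h1 I, Finset.sum_comm]
  have h3 : ∀ k ∈ Finset.Icc 1 x, ∑ I ∈ (C6_fin K x).toFinset, (if 𝔭 ^ k ∣ I then (1 : ℝ) else 0) ≤
      C₁ * x * (1 / (Ideal.absNorm 𝔭 : ℝ) ^ k) := by
    intro k _
    have h4 := icount_dvd (𝔭 ^ k) (pow_ne_zero k h𝔭) x
    have h5 : {I : Ideal (𝓞 K) | I ≠ ⊥ ∧ Ideal.absNorm I ≤ x ∧ 𝔭 ^ k ∣ I} =
        ((C6_fin K x).toFinset.filter fun I => 𝔭 ^ k ∣ I : Finset (Ideal (𝓞 K))) := by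
      ext I
      simp only [Set.mem_ofPred_eq, Finset.coe_filter, Set.Finite.mem_toFinset, and_assoc]
    rw [h5, Set.ncard_coe_finset, Finset.card_filter, map_pow] at h4
    have h6 : ∑ I ∈ (C6_fin K x).toFinset, (if 𝔭 ^ k ∣ I then (1 : ℝ) else 0) ≤
        (icount K (x / Ideal.absNorm 𝔭 ^ k) : ℝ) := by
      have h7 : ((∑ I ∈ (C6_fin K x).toFinset, (if 𝔭 ^ k ∣ I then 1 else 0) : ℕ) : ℝ) ≤
        (icount K (x / Ideal.absNorm 𝔭 ^ k) : ℝ) := by exact_mod_cast h4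
      push_cast at h7
      exact h7
    refine h6.trans ((hic _).trans ?_)
    have h8 : ((x / Ideal.absNorm 𝔭 ^ k : ℕ) : ℝ) ≤ (x : ℝ) / (Ideal.absNorm 𝔭 : ℝ) ^ k := by
      have h9 := Nat.cast_div_le (α := ℝ) (m := x) (n := Ideal.absNorm 𝔭 ^ k)
      push_cast at h9
      exact h9
    calc C₁ * ((x / Ideal.absNorm 𝔭 ^ k : ℕ) : ℝ) ≤ C₁ * ((x : ℝ) / (Ideal.absNorm 𝔭 : ℝ) ^ k) :=
          mul_le_mul_of_nonneg_left h8 hC₁.le
      _ = C₁ * x * (1 / (Ideal.absNorm 𝔭 : ℝ) ^ k) := by ring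
  refine (Finset.sum_le_sum h3).trans ?_
  rw [← Finset.mul_sum]
  exact mul_le_mul_of_nonneg_left (C6_geo _ hN2' x) (by positivity)

private theorem C6_log {N x : ℕ} (hx : 1 ≤ x) (h : Nat.sqrt x < N) : Real.log x / 2 ≤ Real.log N := by
  have h1 : x ≤ N ^ 2 := by
    have h2 := Nat.lt_succ_sqrt x
    have h3 : Nat.sqrt x + 1 ≤ N := h
    calc x ≤ (Nat.sqrt x + 1) * (Nat.sqrt x + 1) := h2.le
      _ ≤ N * N := Nat.mul_le_mul h3 h3
      _ = N ^ 2 := by ring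
  have h4 : Real.log x ≤ Real.log ((N : ℝ) ^ 2) := by
    apply Real.log_le_log
    · exact_mod_cast hx
    · exact_mod_cast h1
  rw [Real.log_pow] at h4
  push_cast at h4
  linarith

private theorem C6_low {K : Type} [Field K] [NumberField K] {c₂ : ℝ} (x : ℕ) (hx : 1 ≤ x)
    (h : c₂ * x ≤ (icount K x : ℝ) - icount K (Nat.sqrt x)) :
    c₂ * x * (Real.log x / 2) ≤ ∑ I ∈ (C6_fin K x).toFinset, Real.log (Ideal.absNorm I) := by
  classical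
  have hA : ∀ y : ℕ, (icount K y : ℝ) = ((C6_fin K y).toFinset.card : ℝ) := by
    intro y
    unfold icount
    rw [Set.ncard_eq_toFinset_card _ (C6_fin K y)]
  rw [hA, hA] at h
  have hsub : (C6_fin K (Nat.sqrt x)).toFinset ⊆ (C6_fin K x).toFinset := by
    intro I hI
    rw [Set.Finite.mem_toFinset] at hI ⊢
    exact ⟨hI.1, hI.2.trans (Nat.sqrt_le_self x)⟩
  have hlog : 0 ≤ Real.log x / 2 := by
    have : (1 : ℝ) ≤ x := by exact_mod_cast hx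
    have := Real.log_nonneg this
    positivity
  have hc := Finset.card_sdiff_add_card_eq_card hsub
  have hc' : (((C6_fin K x).toFinset \ (C6_fin K (Nat.sqrt x)).toFinset).card : ℝ) =
      ((C6_fin K x).toFinset.card : ℝ) - ((C6_fin K (Nat.sqrt x)).toFinset.card : ℝ) := by
    rw [eq_sub_iff_add_eq]
    exact_mod_cast hc
  calc c₂ * x * (Real.log x / 2) ≤
      (((C6_fin K x).toFinset \ (C6_fin K (Nat.sqrt x)).toFinset).card : ℝ) * (Real.log x / 2) := by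
        rw [hc']
        exact mul_le_mul_of_nonneg_right h hlog
    _ ≤ ∑ I ∈ (C6_fin K x).toFinset \ (C6_fin K (Nat.sqrt x)).toFinset, Real.log (Ideal.absNorm I) := by
        rw [← nsmul_eq_mul]
        refine Finset.card_nsmul_le_sum _ _ _ fun I hI => ?_
        rw [Finset.mem_sdiff, Set.Finite.mem_toFinset, Set.Finite.mem_toFinset] at hI
        refine C6_log hx ?_
        by_contra hcon
        exact hI.2 ⟨hI.1.1, by omega⟩
    _ ≤ ∑ I ∈ (C6_fin K x).toFinset, Real.log (Ideal.absNorm I) := by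
        refine Finset.sum_le_sum_of_subset_of_nonneg Finset.sdiff_subset fun I _ _ => ?_
        exact Real.log_natCast_nonneg _

private theorem C6_up {K : Type} [Field K] [NumberField K] {C₁ C₃ : ℝ} (hC₁ : 0 < C₁)
    (hic : ∀ x : ℕ, (icount K x : ℝ) ≤ C₁ * x)
    (hsq : ∀ P : Finset (Ideal (𝓞 K)), (∀ 𝔭 ∈ P, 𝔭.IsMaximal) →
      ∑ 𝔭 ∈ P, Real.log (Ideal.absNorm 𝔭) / (Ideal.absNorm 𝔭 : ℝ) ^ 2 ≤ C₃) (x : ℕ) :
    ∑ I ∈ (C6_fin K x).toFinset, Real.log (Ideal.absNorm I) ≤ C₁ * x * (wtK K (fun _ => True) x + 2 * C₃) := by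
  classical
  have hP : ∀ 𝔭 ∈ (primesK_finite (K := K) (fun _ => True) x).toFinset, 𝔭.IsMaximal := by
    intro 𝔭 h𝔭
    rw [Set.Finite.mem_toFinset] at h𝔭
    exact h𝔭.1
  calc ∑ I ∈ (C6_fin K x).toFinset, Real.log (Ideal.absNorm I) ≤
      ∑ I ∈ (C6_fin K x).toFinset, ∑ 𝔭 ∈ (primesK_finite (K := K) (fun _ => True) x).toFinset,
        ({k : ℕ | 1 ≤ k ∧ k ≤ x ∧ 𝔭 ^ k ∣ I}.ncard : ℝ) * Real.log (Ideal.absNorm 𝔭) := by
        refine Finset.sum_le_sum fun I hI => ?_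
        rw [Set.Finite.mem_toFinset] at hI
        exact log_absNorm_le I hI.1 x hI.2
    _ = ∑ 𝔭 ∈ (primesK_finite (K := K) (fun _ => True) x).toFinset,
        (∑ I ∈ (C6_fin K x).toFinset, ({k : ℕ | 1 ≤ k ∧ k ≤ x ∧ 𝔭 ^ k ∣ I}.ncard : ℝ)) *
          Real.log (Ideal.absNorm 𝔭) := by
        rw [Finset.sum_comm]
        refine Finset.sum_congr rfl fun 𝔭 _ => ?_
        rw [Finset.sum_mul]
    _ ≤ ∑ 𝔭 ∈ (primesK_finite (K := K) (fun _ => True) x).toFinset,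
        (C₁ * x * (1 / (Ideal.absNorm 𝔭 : ℝ) + 2 / (Ideal.absNorm 𝔭 : ℝ) ^ 2)) *
          Real.log (Ideal.absNorm 𝔭) := by
        refine Finset.sum_le_sum fun 𝔭 h𝔭 => ?_
        exact mul_le_mul_of_nonneg_right (C6_one hC₁ hic x 𝔭 (hP 𝔭 h𝔭)) (Real.log_natCast_nonneg _)
    _ = C₁ * x * (∑ 𝔭 ∈ (primesK_finite (K := K) (fun _ => True) x).toFinset,
          Real.log (Ideal.absNorm 𝔭) / Ideal.absNorm 𝔭 +
        2 * ∑ 𝔭 ∈ (primesK_finite (K := K) (fun _ => True) x).toFinset,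
          Real.log (Ideal.absNorm 𝔭) / (Ideal.absNorm 𝔭 : ℝ) ^ 2) := by
        rw [Finset.mul_sum, ← Finset.sum_add_distrib, Finset.mul_sum]
        refine Finset.sum_congr rfl fun 𝔭 _ => ?_
        ring
    _ ≤ C₁ * x * (wtK K (fun _ => True) x + 2 * C₃) := by
        rw [wtK_eq]
        have h1 := hsq _ hP
        have h2 : 0 ≤ C₁ * (x : ℝ) := by positivity
        exact mul_le_mul_of_nonneg_left (by linarith) h2

/-- PROOF. `A` = the finite set of the ideals `I ≠ ⊥`, `N I ≤ x`. Lower bound: `∑_(I ∈ A) log N I ≥ (icount x - icount (sqrt x)) * log (sqrt x + 1) ≥ c x * (1/2) log x` for large `x` (`icount_sub`; `N I ≥ sqrt x + 1` and `(sqrt x + 1) ^ 2 > x`; the other terms are `≥ 0`). Upper bound: `log_absNorm_le`, exchange the sums, `icount_dvd` with `J = 𝔭 ^ k`, `icount_le`: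
`∑_(I ∈ A) log N I ≤ ∑_𝔭 ∑_(1 ≤ k ≤ x) log N𝔭 * icount (x / N𝔭 ^ k) ≤ C x ∑_𝔭 log N𝔭 ∑_(k ≥ 1) N𝔭 ^ (-k) ≤ C x ∑_𝔭 log N𝔭 (1 / N𝔭 + 2 / N𝔭 ^ 2)` (`∑_(k ≥ 2) N ^ (-k) = 1 / (N (N - 1)) ≤ 2 / N ^ 2` for `N ≥ 2`; natural division is at most real division) `≤ C x (wtK True x + 2 C')` (`wtK_eq`, `sum_sq`). So `wtK True x ≥ (c / (2 C)) log x - 2 C'`,
which is at least `(c / (4 C)) log x` for large `x`. -/
theorem mertensK (K : Type) [Field K] [NumberField K] :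
    ∃ c : ℝ, 0 < c ∧ ∃ z₁ : ℕ, ∀ z : ℕ, z₁ ≤ z → c * Real.log z ≤ wtK K (fun _ => True) z := by
  obtain ⟨C₁, hC₁, hic⟩ := icount_le K
  obtain ⟨c₂, hc₂, x₀, hsub⟩ := icount_sub K
  obtain ⟨C₃, hC₃, hsq⟩ := sum_sq K
  have hc : 0 < c₂ / (4 * C₁) := by positivity
  refine ⟨c₂ / (4 * C₁), hc, max (max x₀ 1) ⌈Real.exp (2 * C₃ / (c₂ / (4 * C₁)))⌉₊, fun x hx => ?_⟩
  have hx0 : x₀ ≤ x := ((le_max_left _ _).trans (le_max_left _ _)).trans hx
  have hx1 : 1 ≤ x := ((le_max_right _ _).trans (le_max_left _ _)).trans hx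
  have hxe : Real.exp (2 * C₃ / (c₂ / (4 * C₁))) ≤ x :=
    (Nat.le_ceil _).trans (by exact_mod_cast (le_max_right _ _).trans hx)
  have hx1' : (0 : ℝ) < x := by exact_mod_cast hx1
  have hlog : 2 * C₃ ≤ c₂ / (4 * C₁) * Real.log x := by
    have h1 := (Real.le_log_iff_exp_le hx1').2 hxe
    rw [div_le_iff₀ hc] at h1
    linarith
  have h1 := (C6_low x hx1 (hsub x hx0)).trans (C6_up hC₁ hic hsq x)
  have h2 : c₂ * (Real.log x / 2) ≤ C₁ * (wtK K (fun _ => True) x + 2 * C₃) := by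
    refine le_of_mul_le_mul_right ?_ hx1'
    calc c₂ * (Real.log x / 2) * x = c₂ * x * (Real.log x / 2) := by ring
      _ ≤ C₁ * x * (wtK K (fun _ => True) x + 2 * C₃) := h1
      _ = C₁ * (wtK K (fun _ => True) x + 2 * C₃) * x := by ring
  have h3 : c₂ * (Real.log x / 2) = C₁ * (2 * (c₂ / (4 * C₁) * Real.log x)) := by
    field_simp
    ring
  rw [h3] at h2
  have h4 := le_of_mul_le_mul_left h2 hC₁
  linarith

end MPadcOA
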