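import Pool.Agent.Lib.MP_adc574_ag_OA.BK10

/-!
# Block C (curves over number fields): definitions
-/

set_option autoImplicit false

namespace MPadcOA

open Polynomial NumberField

/-- `K` is a number field, `f` a polynomial with coefficients in the ring of integers, `t ∈ K`, `𝔭` a maximal ideal
of the ring of integers. The hyperelliptic curve `y ^ 2 = (x - t) * f(x)` has good reduction at `𝔭`: `t` is integral
at `𝔭` (`t * b = a` with `b ∉ 𝔭`; its residue class is `a / b`), the residue field `E` has characteristic different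
from `2` and the reduction of `(x - t) * f(x)` is squarefree of the same degree; and the reduction is ordinary in
the sense of Bloch and Kato. -/
def OrdinaryReduction {K : Type} [Field K] [NumberField K] (f : (𝓞 K)[X]) (t : K)
    (𝔭 : Ideal (𝓞 K)) : Prop :=
  ∃ (E : Type) (_ : Field E) (φ : 𝓞 K →+* E) (a b : 𝓞 K), Function.Surjective φ ∧ RingHom.ker φ = 𝔭 ∧
    φ b ≠ 0 ∧ t * b = a ∧ (2 : E) ≠ 0 ∧ (f.map φ).natDegree = f.natDegree ∧
    Squarefree ((X - C (φ a / φ b)) * f.map φ) ∧ HyperIsOrdinary ((X - C (φ a / φ b)) * f.map φ)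

/-- The sum of `log N𝔭 / N𝔭` over the maximal ideals `𝔭` of the ring of integers with `N𝔭 ≤ z` and with the
property `P`. -/
noncomputable def wtK (K : Type) [Field K] [NumberField K] (P : Ideal (𝓞 K) → Prop) (z : ℕ) : ℝ :=
  ∑ᶠ 𝔭 ∈ {𝔭 : Ideal (𝓞 K) | 𝔭.IsMaximal ∧ Ideal.absNorm 𝔭 ≤ z ∧ P 𝔭},
    Real.log (Ideal.absNorm 𝔭) / Ideal.absNorm 𝔭

/-- Theorem A for the polynomials of degree `d`. -/
def Few (d : ℕ) : Prop :=
  ∀ ε : ℝ, 0 < ε → ∃ p₀ : ℕ, ∀ p : ℕ, p.Prime → p₀ ≤ p →
    ∀ (E : Type) [Field E] [Finite E] [CharP E p] (f : E[X]), Squarefree f → f.natDegree = d →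
    (Nat.card {t : E // ¬ (Squarefree ((X - C t) * f) ∧ HyperIsOrdinary ((X - C t) * f))} : ℝ) ≤
      ε * Nat.card E

/-- The number of the ideals `≠ 0` of norm at most `x`. -/
noncomputable def icount (K : Type) [Field K] [NumberField K] (x : ℕ) : ℕ :=
  {I : Ideal (𝓞 K) | I ≠ ⊥ ∧ Ideal.absNorm I ≤ x}.ncard

end MPadcOA
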