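import Pool.Agent.Lib.MP_adc574_ag_OA.Nv
import Pool.Agent.Lib.MP_adc574_ag_OA.S3
import Pool.Agent.Lib.MP_adc574_ag_OA.S6
import Pool.Agent.Lib.MP_adc574_ag_OA.S7
import Pool.Agent.Lib.MP_adc574_ag_OA.S11
import Pool.Agent.Lib.MP_adc574_ag_OA.S13

/-!
# Theorem A (adc574), block S: Stepanov's method for the horizontal frame
-/

set_option autoImplicit false

namespace MPadcOA

open Polynomial Matrix

private theorem Cnt_natDegree_Δ {g : ℕ} {k : Type*} [Field k] (D : Dat g k) :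
    D.Δ.natDegree = 2 * g ∧ D.Δ ≠ 0 := by
  have h : D.Δ.Monic := monic_prod_of_monic _ _ fun j _ => monic_X_sub_C _
  refine ⟨?_, h.ne_zero⟩
  rw [Dat.Δ, natDegree_prod_of_monic _ _ fun j _ => monic_X_sub_C _]
  simp

private theorem Cnt_dim (A B M c' s s0 : ℕ) (δ : ℝ) (hδ : 0 < δ) (hs : 0 < s) (hB : 0 < B)
    (hA : A = B + c' * M) (hM : (M : ℝ) ≤ B / (2 * δ)) (h0 : s0 ≤ s)
    (hinc : (s : ℝ) - s0 ≤ δ * s) :
    M * (A + B + c' * M + 1) * (s - s0) < (A + 1) * B * s := by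
  have hs' : (0 : ℝ) < s := by exact_mod_cast hs
  have hB' : (0 : ℝ) < B := by exact_mod_cast hB
  have h1 : (M : ℝ) * δ ≤ B / 2 := by
    have := mul_le_mul_of_nonneg_right hM hδ.le
    calc (M : ℝ) * δ ≤ B / (2 * δ) * δ := this
      _ = B / 2 := by field_simp
  have h2 : (M : ℝ) * ((s : ℝ) - s0) ≤ B / 2 * s := by
    calc (M : ℝ) * ((s : ℝ) - s0) ≤ M * (δ * s) :=
          mul_le_mul_of_nonneg_left hinc (Nat.cast_nonneg M)
      _ = M * δ * s := by ring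
      _ ≤ B / 2 * s := mul_le_mul_of_nonneg_right h1 hs'.le
  have h3 : (((M * (A + B + c' * M + 1) * (s - s0) : ℕ)) : ℝ) < (((A + 1) * B * s : ℕ) : ℝ) := by
    have e1 : (((M * (A + B + c' * M + 1) * (s - s0) : ℕ)) : ℝ) =
        (2 * A + 1) * (M * ((s : ℝ) - s0)) := by
      have e2 : A + B + c' * M + 1 = 2 * A + 1 := by omega
      rw [e2]
      push_cast [Nat.cast_sub h0]
      ring
    rw [e1]
    have hA0 : (0 : ℝ) ≤ A := Nat.cast_nonneg A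
    calc (2 * (A : ℝ) + 1) * (M * ((s : ℝ) - s0)) ≤ (2 * A + 1) * (B / 2 * s) :=
          mul_le_mul_of_nonneg_left h2 (by positivity)
      _ < (2 * A + 2) * (B / 2 * s) := by
          apply mul_lt_mul_of_pos_right _ (by positivity)
          linarith
      _ = (((A + 1) * B * s : ℕ) : ℝ) := by push_cast; ring
  exact_mod_cast h3

theorem count (g c : ℕ) (hg : 0 < g) (ε : ℝ) (hε : 0 < ε) : ∃ p₀ : ℕ, ∀ p : ℕ, p.Prime → p₀ ≤ p →
    ∀ (k : Type) [Field k] [CharP k p] [Infinite k] (D : Dat g k), D.Ok p c →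
    (∀ i l, (D.U i l).natDegree ≤ p) → ∀ n : ℕ, 0 < n → ∀ (γ : k) (Z : Finset k),
    (∀ τ ∈ Z, τ ^ p ^ n * (1 + γ * τ) = τ ∧ D.Δ.eval τ ≠ 0 ∧ (fst (D.U.map (eval τ))).det = 0) →
    (Z.card : ℝ) ≤ ε * (p : ℝ) ^ n := by
  obtain ⟨δ, hδdef⟩ : ∃ δ : ℝ, δ = min (ε / 8) (1 / 4) := ⟨_, rfl⟩
  have hδ : 0 < δ := by rw [hδdef]; exact lt_min (by positivity) (by norm_num)
  have hδε : 8 * δ ≤ ε := by
    have := min_le_left (ε / 8) (1 / 4 : ℝ)
    rw [← hδdef] at this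
    linarith
  have hδ4 : δ ≤ 1 / 4 := by rw [hδdef]; exact min_le_right _ _
  obtain ⟨J, hJ⟩ := exists_inc g (Fintype.card ((Fin g × Fin g) ⊕ Sym2 (Fin g))) δ hδ
  obtain ⟨B, hBdef⟩ : ∃ B : ℕ, B = g * J + 1 := ⟨_, rfl⟩
  obtain ⟨M, hMdef⟩ : ∃ M : ℕ, M = ⌊(B : ℝ) / (2 * δ)⌋₊ := ⟨_, rfl⟩
  obtain ⟨c', hc'def⟩ : ∃ c' : ℕ, c' = c + 2 * g := ⟨_, rfl⟩
  obtain ⟨A, hAdef⟩ : ∃ A : ℕ, A = B + c' * M := ⟨_, rfl⟩
  have hB0 : 0 < B := by omega
  have hB1 : (1 : ℝ) ≤ B := by exact_mod_cast hB0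
  choose P hP using fun j : ℕ => nv g (g * j + g) A c hg
  obtain ⟨P0, hP0⟩ := nv g (0 + g) 0 c hg
  refine ⟨P0 + A + M + ∑ j ∈ Finset.range J, P j, fun p hp hp₀ k _ _ _ D hD hU n hn γ Z hZ => ?_⟩
  have : Fact p.Prime := ⟨hp⟩
  have hPj : ∀ j < J, P j ≤ p := by
    intro j hj
    have := Finset.single_le_sum (f := P) (fun i _ => Nat.zero_le _) (Finset.mem_range.2 hj)
    omega
  obtain ⟨hΔ1, hΔ0⟩ := Cnt_natDegree_Δ D
  -- the degree
  obtain ⟨j, hj, hinc⟩ := hJ (fun j => sdim g (g * j) k) (by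
      show 0 < sdim g (g * 0) k
      rw [Nat.mul_zero, sdim_zero]
      exact one_pos) (fun j => sdim_le g (g * j) k)
  obtain ⟨m, hm⟩ : ∃ m, m = g * j := ⟨_, rfl⟩
  have hmg : g * (j + 1) = m + g := by rw [hm, Nat.mul_succ]
  have hinc' : (sdim g (m + g) k : ℝ) - sdim g m k ≤ δ * sdim g (m + g) k := by
    have h := hinc
    simp only [hmg] at h
    rw [← hm] at h
    exact h
  have hmono : sdim g m k ≤ sdim g (m + g) k := sdim_le_succ g m k
  have hpos : 0 < sdim g (m + g) k := by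
    have h1 : ∀ i : ℕ, 0 < sdim g (g * i) k := by
      intro i
      induction i with
      | zero => rw [Nat.mul_zero, sdim_zero]; exact one_pos
      | succ i ih => rw [Nat.mul_succ]; exact ih.trans_le (sdim_le_succ g _ k)
    have h2 := h1 (j + 1)
    rwa [hmg] at h2
  have hMle : (M : ℝ) ≤ B / (2 * δ) := by
    rw [hMdef]
    exact Nat.floor_le (by positivity)
  have hdim := Cnt_dim A B M c' (sdim g (m + g) k) (sdim g m k) δ hδ hpos hB0 hAdef hMle hmono hinc'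
  obtain ⟨Φ, hΦ1, hΦ2, hΦ3⟩ := exists_forms g m B A M c' (fun b => tw B γ b)
    (fun b => natDegree_tw B γ b b.isLt.le) D.Δ D.G (by omega)
    (fun i j => (hD.degG i j).trans (by omega)) hdim
  have hmgJ : m + g ≤ g * J := by
    rw [← hmg]
    exact Nat.mul_le_mul_left g hj
  -- the auxiliary polynomial
  have hdet : (fst D.U).det ≠ 0 := det_ne_zero p D.Δ hΔ0 D.U fun Ψ h1 α h2 h3 =>
    hP0 p hp (by omega) k D hD Ψ h1 α h2 h3
  have hne : aux (p ^ n) D.U Φ ≠ 0 := by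
    refine aux_ne_zero (p := p) n hn A D.Δ hΔ0 D.U Φ hΦ1 hΦ2 fun Ψ h1 α h2 h3 => ?_
    have h := hP j p hp (hPj j hj) k D hD
    rw [← hm] at h
    exact h Ψ h1 α h2 h3
  have hq : p ∣ p ^ n := dvd_pow_self p hn.ne'
  have hdvd : ∀ τ ∈ Z, (X - C τ) ^ M ∣ aux (p ^ n) D.U Φ := by
    intro τ hτ
    obtain ⟨h1, h2, h3⟩ := hZ τ hτ
    refine pow_dvd_of_dd (p := p) D.Δ _ τ h2 M (by omega) fun e he => ?_
    exact dd_aux_eval (p := p) (p ^ n) hq D.Δ D.G D.U hD.horU hD.isoU hdet Φ e γ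
      (hΦ3 e he) τ h1 h3
  have hcard := card_mul_le _ hne Z M hdvd
  have hdeg := natDegree_aux (p ^ n) p A D.U hU Φ hΦ1
  -- the inequality
  have hpq : p ≤ p ^ n := Nat.le_self_pow hn.ne' p
  have h1 : Z.card * M ≤ 2 * B * p ^ n := by
    have h2 : (m + g) * p ≤ g * J * p ^ n := Nat.mul_le_mul hmgJ hpq
    have h3 : A ≤ p ^ n := by omega
    calc Z.card * M ≤ p ^ n * B + A + (m + g) * p := hcard.trans hdeg
      _ ≤ p ^ n * B + p ^ n + g * J * p ^ n := by omega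
      _ = 2 * B * p ^ n := by rw [hBdef]; ring
  have hM1 : (B : ℝ) / (4 * δ) ≤ M := by
    have h2 : (B : ℝ) / (2 * δ) < M + 1 := by
      rw [hMdef]
      exact Nat.lt_floor_add_one _
    have h3 : (1 : ℝ) ≤ B / (4 * δ) := by
      rw [le_div_iff₀ (by positivity)]
      linarith
    have h4 : (B : ℝ) / (2 * δ) = B / (4 * δ) + B / (4 * δ) := by
      field_simp
      ring
    linarith
  have h5 : (Z.card : ℝ) * M ≤ 2 * B * (p : ℝ) ^ n := by exact_mod_cast h1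
  have h6 : (Z.card : ℝ) * (B / (4 * δ)) ≤ 2 * B * (p : ℝ) ^ n :=
    (mul_le_mul_of_nonneg_left hM1 (Nat.cast_nonneg _)).trans h5
  have hB' : (0 : ℝ) < B := by linarith
  have h7 : (Z.card : ℝ) ≤ 8 * δ * (p : ℝ) ^ n := by
    have h8 : (Z.card : ℝ) * (B / (4 * δ)) * (4 * δ / B) = Z.card := by
      field_simp
    rw [← h8]
    calc (Z.card : ℝ) * (B / (4 * δ)) * (4 * δ / B) ≤ 2 * B * (p : ℝ) ^ n * (4 * δ / B) :=
          mul_le_mul_of_nonneg_right h6 (by positivity)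
      _ = 8 * δ * (p : ℝ) ^ n := by
          field_simp
          ring
  exact h7.trans (mul_le_mul_of_nonneg_right hδε (by positivity))

end MPadcOA
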