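import Pool.Agent.Lib.MP_adc574_ag_OA.Act

/-!
# Theorem A (adc574): the spaces of functions on the generic isotropic frame

`evg g m k` is the evaluation of the forms of degree `m` at the generic isotropic frame, `SS g m k` its image, `sdim` the dimension,
`mulz φ` is the form `φ * det (first g columns)` of degree `m + g`, `ZZ g m k = det(a) * SS g m k`, a subspace of `SS g (m + g) k`.
-/

set_option autoImplicit false

namespace MPadcOA

open Polynomial Matrix

/-- The value of a form at the generic isotropic frame. -/
noncomputable def evg (g m : ℕ) (k : Type*) [Field k] : (Kx g m → k) →ₗ[k] GenR g k where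
  toFun φ := ev (genU g k) fun s => MvPolynomial.C (φ s)
  map_add' φ ψ := by
    simp only [ev, Pi.add_apply, MvPolynomial.C_add, add_mul, Finset.sum_add_distrib]
  map_smul' c φ := by
    simp only [ev, Pi.smul_apply, smul_eq_mul, MvPolynomial.C_mul, RingHom.id_apply, mul_assoc,
      Finset.smul_sum, MvPolynomial.smul_eq_C_mul]

theorem evg_apply (g m : ℕ) (k : Type*) [Field k] (φ : Kx g m → k) :
    evg g m k φ = ev (genU g k) fun s => MvPolynomial.C (φ s) := rfl

/-- The functions of degree `m` on the isotropic frames. -/
noncomputable def SS (g m : ℕ) (k : Type*) [Field k] : Submodule k (GenR g k) :=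
  LinearMap.range (evg g m k)

/-- The dimension of the space of the functions of degree `m` on the isotropic frames. -/
noncomputable def sdim (g m : ℕ) (k : Type*) [Field k] : ℕ := Module.finrank k (SS g m k)

/-- The product of the form `φ` and the determinant of the first `g` columns. -/
def mulz {R : Type*} [CommRing R] {g m : ℕ} (φ : Kx g m → R) : Kx g (m + g) → R :=
  fun s => φ (fun i => s (Fin.castAdd g i)) * ∑ σ : Equiv.Perm (Fin g), ((Equiv.Perm.sign σ : ℤ) : R) *
    ∏ i, if s (Fin.natAdd m i) = (σ i, Sum.inl i) then 1 else 0

/-- The products of the determinant and the functions of degree `m`. -/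
noncomputable def ZZ (g m : ℕ) (k : Type*) [Field k] : Submodule k (GenR g k) :=
  (SS g m k).map (LinearMap.mulLeft k (genA g k).det)

end MPadcOA
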