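import Pool.Agent.Lib.MP_adc574_ag_OA.CDefs

/-!
# Block E (all curves over number fields): definitions
-/

set_option autoImplicit false

namespace MPadcOA

open Polynomial NumberField

/-- The monic polynomial `x ^ n + c (n - 1) x ^ (n - 1) + … + c 0`. -/
noncomputable def monicOf {R : Type*} [CommRing R] {n : ℕ} (c : Fin n → R) : R[X] :=
  X ^ n + ∑ i : Fin n, C (c i) * X ^ (i : ℕ)

/-- The hyperelliptic curve `y ^ 2 = F(x)` over the number field `K` has good reduction at the maximal ideal `𝔭`
(the residue field `E` has characteristic different from `2`, the reduction of `F` is squarefree of the same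
degree), and the reduction is ordinary in the sense of Bloch and Kato. -/
def OrdinaryAtPrime {K : Type} [Field K] [NumberField K] (F : (𝓞 K)[X]) (𝔭 : Ideal (𝓞 K)) : Prop :=
  ∃ (E : Type) (_ : Field E) (φ : 𝓞 K →+* E), Function.Surjective φ ∧ RingHom.ker φ = 𝔭 ∧ (2 : E) ≠ 0 ∧
    (F.map φ).natDegree = F.natDegree ∧ Squarefree (F.map φ) ∧ HyperIsOrdinary (F.map φ)

/-- Theorem A+ for the monic polynomials of degree `n`. -/
def FewAll (n : ℕ) : Prop :=
  ∀ ε : ℝ, 0 < ε → ∃ p₀ : ℕ, ∀ p : ℕ, p.Prime → p₀ ≤ p →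
    ∀ (E : Type) [Field E] [Finite E] [CharP E p],
    (Nat.card {c : Fin n → E // ¬ (Squarefree (monicOf c) ∧ HyperIsOrdinary (monicOf c))} : ℝ) ≤
      ε * (Nat.card E : ℝ) ^ n

/-- The coefficients with the coordinates `c` in the basis `ω`. -/
noncomputable def tot {R ι : Type*} [CommRing R] [Fintype ι] (ω : Module.Basis ι ℤ R) (n : ℕ)
    (c : Fin n × ι → ℤ) : Fin n → R := fun i => ∑ j, c (i, j) • ω j

/-- The coefficients modulo the ideal `I`. -/
noncomputable def red {R ι : Type*} [CommRing R] [Fintype ι] (ω : Module.Basis ι ℤ R) (n : ℕ) (I : Ideal R) :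
    (Fin n × ι → ℤ) →+ (Fin n → R ⧸ I) where
  toFun c := fun i => Ideal.Quotient.mk I (tot ω n c i)
  map_zero' := by
    funext i
    simp [tot]
  map_add' c d := by
    funext i
    simp [tot, add_smul, Finset.sum_add_distrib]

/-- The box `|c j| ≤ H`. -/
noncomputable def box (J : Type*) [Fintype J] [DecidableEq J] (H : ℕ) : Finset (J → ℤ) :=
  Fintype.piFinset fun _ => Finset.Icc (-(H : ℤ)) H

end MPadcOA
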