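import Pool.Agent.Lib.MP_adc574_ag_OA.Defs
import Pool.Agent.Lib.MP_adc574_ag_CC.P1

/-!
# Block F, definitions: the system of the pencil `y² = (x - t) f(x)`, `f = ∏ (x - a j)`

The outer variable of `k[X][X]` is `x`, the inner one `t`. The coordinates `Nx g` stand for the exponents `0, …, 2 g - 1` of `x` (`nu`).
-/

set_option autoImplicit false

namespace MPadcOA

open Polynomial Matrix

/-- The exponent of `x` of a coordinate. -/
def nu {g : ℕ} (s : Nx g) : ℕ := Sum.elim (fun i : Fin g => (i : ℕ)) (fun i : Fin g => g + (i : ℕ)) s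

section

variable {k : Type*} [Field k] {g : ℕ} (p : ℕ) (a : Fin (2 * g) → k)

/-- `f = ∏ (x - a j)` -/
noncomputable def ff : k[X] := ∏ j, (X - C (a j))

/-- `f(x)` in `k[t][x]` -/
noncomputable def fx : k[X][X] := (ff a).map C

/-- `F = (x - t) f(x)` -/
noncomputable def FF : k[X][X] := (X - C X) * fx a

/-- `A = F ^ ((p - 1) / 2)` -/
noncomputable def AA : k[X][X] := FF a ^ ((p - 1) / 2)

/-- The horizontal frame in the basis `x ^ j`. -/
noncomputable def Ux : Matrix (Fin g) (Nx g) k[X] :=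
  fun κ s => (AA p a).coeff (p * ((κ : ℕ) + 1) - (nu s + 1))

/-- `(f(t) x ^ j - t ^ j f(x)) / (x - t)` -/
noncomputable def qq (j : ℕ) : k[X][X] :=
  (C (ff a) * X ^ j - C (X ^ j) * fx a) /ₘ (X - C X)

/-- The matrix of the system in the basis `x ^ j`. -/
noncomputable def Gx : Matrix (Nx g) (Nx g) k[X] :=
  fun l j => C (1 / 2 : k) * (C (X ^ nu j) * derivative (fx a) + qq a (nu j)).coeff (nu l)

/-- The matrix of the alternating form in the basis `x ^ j`. -/
noncomputable def Bx : Matrix (Nx g) (Nx g) k[X] :=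
  fun i j => C (((nu i : k) - (nu j : k)) / 2) * (FF a).coeff (nu i + nu j + 2)

/-- The symplectic basis. -/
noncomputable def Px : Matrix (Nx g) (Nx g) k[X] :=
  fromBlocks 1 (Matrix.of fun j i => C (1 / 2 : k) * Bx a (Sum.inl i) (Sum.inl j)) 0
    (Matrix.of fun j i => Bx a (Sum.inl i) (Sum.inr j))

/-- The horizontal vector in the basis `x ^ j`. -/
noncomputable def wx (s : Nx g) : k[X] := ∑ κ : Fin g, X ^ (p * (κ : ℕ)) * Ux p a κ s

/-- `r = (f' - f / (x - a j)) / 2` -/
noncomputable def rr (j : Fin (2 * g)) : k[X] :=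
  C (1 / 2 : k) * (derivative (ff a) - ff a /ₘ (X - C (a j)))

end

end MPadcOA
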