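import Pool.Agent.Lib.MP_adc574_ag_OA.F0

/-!
# Block F, leaf F1: the exponents
-/

set_option autoImplicit false

namespace MPadcOA

open Polynomial Matrix

theorem nu_inl {g : ℕ} (i : Fin g) : nu (Sum.inl i : Nx g) = i := rfl

theorem nu_inr {g : ℕ} (i : Fin g) : nu (Sum.inr i : Nx g) = g + i := rfl

/-- PROOF. Two cases. -/
theorem nu_lt {g : ℕ} (s : Nx g) : nu s < 2 * g := by
  rcases s with i | i
  · have h := i.2
    rw [nu_inl]
    omega
  · have h := i.2
    rw [nu_inr]
    omega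

/-- PROOF. Four cases, `omega`. -/
theorem nu_injective {g : ℕ} : Function.Injective (nu : Nx g → ℕ) := by
  intro s t h
  rcases s with i | i <;> rcases t with j | j
  · rw [nu_inl, nu_inl] at h
    rw [Fin.ext h]
  · rw [nu_inl, nu_inr] at h
    have hi := i.2
    omega
  · rw [nu_inr, nu_inl] at h
    have hj := j.2
    omega
  · rw [nu_inr, nu_inr] at h
    have h1 : i = j := Fin.ext (by omega)
    rw [h1]

/-- PROOF. `j < g`: `inl`; else `inr ⟨j - g, _⟩`. -/
theorem exists_nu {g j : ℕ} (hj : j < 2 * g) : ∃ s : Nx g, nu s = j := by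
  by_cases h : j < g
  · exact ⟨Sum.inl ⟨j, h⟩, rfl⟩
  · refine ⟨Sum.inr ⟨j - g, by omega⟩, ?_⟩
    rw [nu_inr]
    show g + (j - g) = j
    omega

/-- PROOF. `Fintype.sum_sum_type`, `Finset.sum_range`, `two_mul`, `Finset.sum_range_add` (or `Finset.sum_bij` with the two theorems above). -/
theorem nu_sum {M : Type*} [AddCommMonoid M] {g : ℕ} (φ : ℕ → M) :
    ∑ s : Nx g, φ (nu s) = ∑ j ∈ Finset.range (2 * g), φ j := by
  refine Finset.sum_bij (fun s _ => nu s) (fun s _ => Finset.mem_range.2 (nu_lt s))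
    (fun s _ t _ h => nu_injective h) (fun j hj => ?_) (fun s _ => rfl)
  obtain ⟨s, hs⟩ := exists_nu (Finset.mem_range.1 hj)
  exact ⟨s, Finset.mem_univ _, hs⟩

end MPadcOA
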