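import Pool.Agent.Lib.MP_adc574_ag_OA.F10b

/-!
# Block F, leaf F10: the coordinates of w are linearly independent over the polynomials of small degree
-/

set_option autoImplicit false

namespace MPadcOA

open Polynomial Matrix

variable {k : Type*} [Field k] {g : ℕ} (p : ℕ) (a : Fin (2 * g) → k)

/-- IRREDUCIBILITY. PROOF. Induction on `d`. `nn b l` vanishes at all `a j` (`nn_eval`), so `nn b l = ff a * b'' l` (`ff_dvd`), `∑ wx s * b'' s = 0` (cancel `ff a ≠ 0`: `nn_sol`) and
`(b'' l).natDegree ≤ d - 1`, and `b'' = 0` if `d = 0` (`nn_natDegree`, `ff_monic`, `Monic.natDegree_mul'`). By induction `b'' = 0` (for `d = 0` directly), so `nn b = 0`, and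
`nn_zero` gives `(b l).coeff d = 0`, so the degrees are at most `d - 1` (then induction) or, for `d = 0`, `b = 0`. -/
theorem irr_x [CharP k p] (hp : p.Prime) (hg : 0 < g) (hpg : 2 * g < p) (hp2 : 2 < p)
    (ha : Function.Injective a) (d : ℕ) : 2 * d + 2 * g ≤ p → ∀ b : Nx g → k[X],
      ∑ s, wx p a s * b s = 0 → (∀ s, (b s).natDegree ≤ d) → b = 0 := by
  have key : ∀ d : ℕ, 2 * d + 2 * g ≤ p → ∀ b : Nx g → k[X], ∑ s, wx p a s * b s = 0 →
      (∀ s, (b s).natDegree ≤ d) → ∃ c : Nx g → k[X], ∑ s, wx p a s * c s = 0 ∧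
        (∀ s, c s ≠ 0 → (c s).natDegree + 1 ≤ d) ∧ (c = 0 → ∀ s, (b s).coeff d = 0) := by
    intro d hd b hb hdeg
    have h1 : ∀ l, ∃ c : k[X], nn a b l = ff a * c := fun l =>
      ff_dvd a ha _ fun j => nn_eval p a hp hg hpg hp2 ha b hb l j
    choose c hc using h1
    have hff : ff a ≠ 0 := (ff_monic a).ne_zero
    refine ⟨c, ?_, ?_, ?_⟩
    · have h2 := nn_sol p a hp hg hpg b hb
      have h3 : ff a * ∑ s, wx p a s * c s = 0 := by
        rw [← h2, Finset.mul_sum]
        refine Finset.sum_congr rfl fun s _ => ?_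
        rw [hc s]
        ring
      exact (mul_eq_zero.1 h3).resolve_left hff
    · intro s hs
      have h2 := nn_natDegree a hg b hdeg s
      rw [hc s, (ff_monic a).natDegree_mul' hs, ff_natDegree] at h2
      omega
    · intro h0 s
      refine nn_zero p a hp hp2 hg b hd hdeg (fun l => ?_) s
      rw [hc l, h0, Pi.zero_apply, mul_zero]
  induction d with
  | zero =>
    intro hd b hb hdeg
    obtain ⟨c, -, h2, h3⟩ := key 0 hd b hb hdeg
    have hc0 : c = 0 := by
      funext s
      by_contra hs
      have := h2 s hs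
      omega
    funext s
    rw [Pi.zero_apply, eq_C_of_natDegree_le_zero (hdeg s), h3 hc0 s, C_0]
  | succ d ih =>
    intro hd b hb hdeg
    obtain ⟨c, h1, h2, h3⟩ := key (d + 1) hd b hb hdeg
    have hc0 : c = 0 := by
      refine ih (by omega) c h1 fun s => ?_
      by_cases hs : c s = 0
      · rw [hs, natDegree_zero]
        exact Nat.zero_le _
      · have := h2 s hs
        omega
    refine ih (by omega) b hb fun s => ?_
    have h4 := h3 hc0 s
    have h5 := hdeg s
    by_contra hlt
    have h6 : (b s).natDegree = d + 1 := by omega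
    have h7 : (b s).leadingCoeff = 0 := by
      rw [leadingCoeff, h6, h4]
    rw [leadingCoeff_eq_zero] at h7
    rw [h7, natDegree_zero] at h6
    omega

end MPadcOA
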