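import Pool.Agent.Lib.MP_adc574_ag_OA.F3

/-!
# Block F, leaf F10a: the connection on the column vectors, degrees
-/

set_option autoImplicit false

namespace MPadcOA

open Polynomial Matrix

variable {k : Type*} [Field k] {g : ℕ} (a : Fin (2 * g) → k)

/-- The connection on the column vectors. -/
noncomputable def nn (b : Nx g → k[X]) (l : Nx g) : k[X] := ff a * derivative (b l) + (Gx a *ᵥ b) l

/-- PROOF. `ff_natDegree`, `Gx_natDegree`, `natDegree_derivative_le`, `natDegree_mul_le`, `natDegree_sum_le_of_forall_le`. -/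
theorem nn_natDegree (hg : 0 < g) (b : Nx g → k[X]) {d : ℕ} (hb : ∀ s, (b s).natDegree ≤ d) (l : Nx g) :
    (nn a b l).natDegree ≤ d + 2 * g - 1 := by
  unfold nn
  refine (natDegree_add_le _ _).trans (max_le ?_ ?_)
  · rcases Nat.eq_zero_or_pos d with rfl | hd
    · rw [derivative_of_natDegree_zero (Nat.le_zero.1 (hb l)), mul_zero, natDegree_zero]
      exact Nat.zero_le _
    · refine natDegree_mul_le.trans ?_
      have h1 := natDegree_derivative_le (b l)
      have h2 := hb l
      rw [ff_natDegree]
      omega
  · show (∑ j, Gx a l j * b j).natDegree ≤ _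
    refine natDegree_sum_le_of_forall_le _ _ fun j _ => natDegree_mul_le.trans ?_
    have h1 := Gx_natDegree a l j
    have h2 := hb j
    omega

/-- The coefficient of degree `d + 2 g - 1`; `s₁` is the coordinate with `nu s₁ = 2 g - 1`. PROOF. `ff * b_l'`: `ff` is monic of degree `2 g`, the degree of `b_l'` is at most `d - 1` and its
coefficient there `d * (b l).coeff d` (`coeff_mul_degree_add_degree`-type lemma `Polynomial.coeff_mul_of_natDegree_le`, `coeff_derivative`; for `d = 0` it is zero).
`Gx * b`: `Polynomial.coeff_mul_of_natDegree_le` with `Gx_natDegree`, `Gx_top`, `∑_s (.. if nu s = 2 g - 1 ..)`, `nu_injective`. -/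
theorem nn_top (hg : 0 < g) (b : Nx g → k[X]) {d : ℕ} (hb : ∀ s, (b s).natDegree ≤ d) (l s₁ : Nx g)
    (hs : nu s₁ = 2 * g - 1) :
    (nn a b l).coeff (d + 2 * g - 1) = ((d : k) - 1 / 2) * (b l).coeff d +
      1 / 2 * (derivative (ff a)).coeff (nu l) * (b s₁).coeff d := by
  classical
  have h1 : (ff a * derivative (b l)).coeff (d + 2 * g - 1) = (d : k) * (b l).coeff d := by
    rcases Nat.eq_zero_or_pos d with rfl | hd
    · rw [derivative_of_natDegree_zero (Nat.le_zero.1 (hb l)), mul_zero, coeff_zero, Nat.cast_zero, zero_mul]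
    · have h2 : d + 2 * g - 1 = 2 * g + (d - 1) := by omega
      have h3 : (derivative (b l)).natDegree ≤ d - 1 := by
        have h4 := natDegree_derivative_le (b l)
        have h5 := hb l
        omega
      have h6 : (ff a).coeff (2 * g) = 1 := by
        rw [← ff_natDegree a]
        exact ff_monic a
      rw [h2, coeff_mul_add_eq_of_natDegree_le (le_of_eq (ff_natDegree a)) h3, h6, one_mul, coeff_derivative]
      have h7 : d - 1 + 1 = d := by omega
      have h8 : ((d - 1 : ℕ) : k) + 1 = (d : k) := by
        rw [← Nat.cast_succ, Nat.succ_eq_add_one, h7]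
      rw [h7, h8, mul_comm]
  have h9 : ((Gx a *ᵥ b) l).coeff (d + 2 * g - 1) =
      1 / 2 * (derivative (ff a)).coeff (nu l) * (b s₁).coeff d - 1 / 2 * (b l).coeff d := by
    show (∑ j, Gx a l j * b j).coeff (d + 2 * g - 1) = _
    have h10 : d + 2 * g - 1 = (2 * g - 1) + d := by omega
    rw [h10, finsetSum_coeff]
    have h11 : ∀ j : Nx g, (Gx a l j * b j).coeff ((2 * g - 1) + d) =
        (if j = s₁ then 1 / 2 * (derivative (ff a)).coeff (nu l) * (b j).coeff d else 0) -
          (if l = j then 1 / 2 * (b j).coeff d else 0) := by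
      intro j
      rw [coeff_mul_add_eq_of_natDegree_le (Gx_natDegree a l j) (hb j), Gx_top]
      by_cases hj : j = s₁
      · rw [if_pos hj, if_pos (by rw [hj, hs])]
        split_ifs
        · ring
        · ring
      · rw [if_neg hj, if_neg (fun h => hj (nu_injective (h.trans hs.symm)))]
        split_ifs
        · ring
        · ring
    rw [Finset.sum_congr rfl fun j _ => h11 j, Finset.sum_sub_distrib, Finset.sum_ite_eq' Finset.univ s₁,
      Finset.sum_ite_eq Finset.univ l, if_pos (Finset.mem_univ _), if_pos (Finset.mem_univ _)]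
  unfold nn
  rw [coeff_add, h1, h9]
  ring

end MPadcOA
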