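import Pool.Agent.Lib.MP_adc574_ag_OA.F1

/-!
# Block F, leaf F5a: coefficients of a product
-/

set_option autoImplicit false

namespace MPadcOA

open Polynomial Matrix

/-- General. PROOF. `coeff_mul`, `Finset.Nat.sum_antidiagonal_eq_sum_range_succ_mk`, the coefficients of `G` of index at least `2 g` are zero; `nu_sum`. -/
theorem coeff_mul_nu {g : ℕ} {R : Type*} [CommRing R] {G A : R[X]} (hG : G.natDegree < 2 * g) {n : ℕ}
    (hn : 2 * g ≤ n + 1) :
    (A * G).coeff n = ∑ s : Nx g, A.coeff (n - nu s) * G.coeff (nu s) := by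
  rw [nu_sum (fun j => A.coeff (n - j) * G.coeff j), mul_comm A G, coeff_mul,
    Finset.Nat.sum_antidiagonal_eq_sum_range_succ_mk]
  symm
  refine (Finset.sum_congr rfl fun j _ => mul_comm _ _).trans ?_
  refine Finset.sum_subset (fun j hj => ?_) fun j _ hj => ?_
  · rw [Finset.mem_range] at hj ⊢
    omega
  · rw [Finset.mem_range, not_lt] at hj
    rw [coeff_eq_zero_of_natDegree_lt (lt_of_lt_of_le hG hj), zero_mul]

end MPadcOA
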