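import Pool.Agent.Lib.MP_adc574_ag_OA.F4
import Pool.Agent.Lib.MP_adc574_ag_OA.F5a

/-!
# Block F, leaf F5: the frame is horizontal
-/

set_option autoImplicit false

namespace MPadcOA

open Polynomial Matrix

variable {k : Type*} [Field k] {g : ℕ} (p : ℕ) (a : Fin (2 * g) → k)

private theorem F5_two [CharP k p] (hp2 : 2 < p) : (2 : k) ≠ 0 := by
  intro h
  have h1 : ((2 : ℕ) : k) = 0 := by
    rw [← h]
    norm_num
  have h2 := (CharP.cast_eq_zero_iff k p 2).1 h1
  have h3 := Nat.le_of_dvd (by norm_num) h2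
  omega

private theorem F5_cast [CharP k p] (m : ℕ) : ((p * m : ℕ) : k[X]) = 0 := by
  rw [Nat.cast_mul, CharP.cast_eq_zero k[X] p, zero_mul]

private theorem F5_deg (hg : 0 < g) {j : ℕ} (hj : j < 2 * g) :
    (C (X ^ j) * derivative (fx a) + qq a j).natDegree < 2 * g := by
  have h1 := qq_natDegree a hg hj
  have h2 : (fx a).natDegree ≠ 0 := by
    rw [(fx_monic a).2]
    omega
  have h3 := natDegree_derivative_lt h2
  rw [(fx_monic a).2] at h3
  have h4 := natDegree_C_mul_le (X ^ j : k[X]) (derivative (fx a))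
  have h5 := natDegree_add_le (C (X ^ j) * derivative (fx a)) (qq a j)
  refine lt_of_le_of_lt h5 (max_lt (lt_of_le_of_lt h4 h3) h1)

/-- THE FRAME IS HORIZONTAL. PROOF. Take in `hor_id` with `j = nu s` the coefficient of `x ^ n`, `n = p (κ + 1) - 1`. Left: the coefficient of
`X ^ j * dc A` at `n` is `dt (A_(n - j))`, `n - j = p (κ + 1) - (nu s + 1)` (`coeff_X_pow_mul'`, `2 * g < p`, `nu_lt`, `MPadcCC.coeff_dc`). Right: the
derivative of a polynomial has at `n` the coefficient `.. * (n + 1)` and `n + 1 = p (κ + 1)` is zero in `k[t]`; `coeff_mul_nu` for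
`G = C (X ^ j) * derivative (fx a) + qq a j` (degree `< 2 g`: `qq_natDegree`, `natDegree_derivative_lt`; note `C (2 : k)` is a unit). -/
theorem hor_Ux [CharP k p] (hp : p.Prime) (hg : 0 < g) (hpg : 2 * g < p) (κ : Fin g) (s : Nx g) :
    ff a * derivative (Ux p a κ s) = (Ux p a * Gx a) κ s := by
  have hp2 : 2 < p := by omega
  have hpk : p ≤ p * ((κ : ℕ) + 1) := Nat.le_mul_of_pos_right _ (Nat.succ_pos _)
  have hs := nu_lt s
  have h0 := congrArg (fun P : k[X][X] => P.coeff (p * ((κ : ℕ) + 1) - 1)) (hor_id p a hp hp2 (nu s))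
  have hl : (C (C 2) * C (ff a) * X ^ nu s * MPadcCC.dc (dt k) (AA p a)).coeff
      (p * ((κ : ℕ) + 1) - 1) = C 2 * (ff a * derivative (Ux p a κ s)) := by
    have h1 : (MPadcCC.dc (dt k) (AA p a)).coeff (p * ((κ : ℕ) + 1) - 1 - nu s) =
        derivative (Ux p a κ s) := by
      refine (MPadcCC.coeff_dc (dt k) (AA p a) _).trans ((dt_apply _).trans ?_)
      rw [Nat.sub_sub, add_comm 1 (nu s)]
      rfl
    rw [mul_assoc, mul_assoc, coeff_C_mul, coeff_C_mul, coeff_X_pow_mul', if_pos (by omega), h1]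
  have hd : (C (C 2) * C (X ^ nu s) * derivative (fx a * AA p a)).coeff
      (p * ((κ : ℕ) + 1) - 1) = 0 := by
    rw [mul_assoc, coeff_C_mul, coeff_C_mul, coeff_derivative]
    have h1 : (((p * ((κ : ℕ) + 1) - 1 : ℕ) : k[X]) + 1) = 0 := by
      have h2 : p * ((κ : ℕ) + 1) - 1 + 1 = p * ((κ : ℕ) + 1) := by omega
      have h3 := F5_cast (k := k) p ((κ : ℕ) + 1)
      rw [← h2, Nat.cast_add, Nat.cast_one] at h3
      exact h3
    rw [h1, mul_zero, mul_zero, mul_zero]
  have hr := coeff_mul_nu (A := AA p a) (F5_deg a hg hs)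
    (n := p * ((κ : ℕ) + 1) - 1) (by omega)
  have h1 : C 2 * (ff a * derivative (Ux p a κ s)) =
      (AA p a * (C (X ^ nu s) * derivative (fx a) + qq a (nu s))).coeff
        (p * ((κ : ℕ) + 1) - 1) := by
    rw [← hl]
    have h2 := h0
    simp only [coeff_sub] at h2
    rw [h2, hd, sub_zero]
  have hm : (Ux p a * Gx a) κ s = C (1 / 2 : k) *
      (AA p a * (C (X ^ nu s) * derivative (fx a) + qq a (nu s))).coeff
        (p * ((κ : ℕ) + 1) - 1) := by
    rw [hr, Finset.mul_sum, Matrix.mul_apply]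
    refine Finset.sum_congr rfl fun l _ => ?_
    have h3 : Ux p a κ l = (AA p a).coeff (p * ((κ : ℕ) + 1) - 1 - nu l) := by
      rw [Nat.sub_sub, add_comm 1 (nu l)]
      rfl
    have h4 : Gx a l s =
        C (1 / 2 : k) * (C (X ^ nu s) * derivative (fx a) + qq a (nu s)).coeff (nu l) := rfl
    rw [h3, h4]
    exact mul_left_comm _ _ _
  rw [hm, ← h1, ← mul_assoc, ← C_mul, one_div, inv_mul_cancel₀ (F5_two p hp2), C_1, one_mul]

/-- PROOF. `t ^ (p κ)` is constant (its derivative is `p κ t ^ (..) = 0`), `hor_Ux`, sums. -/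
theorem hor_wx [CharP k p] (hp : p.Prime) (hg : 0 < g) (hpg : 2 * g < p) (s : Nx g) :
    ff a * derivative (wx p a s) = (wx p a ᵥ* Gx a) s := by
  have h1 : derivative (wx p a s) = ∑ κ : Fin g, X ^ (p * (κ : ℕ)) * derivative (Ux p a κ s) := by
    unfold wx
    rw [derivative_sum]
    refine Finset.sum_congr rfl fun κ _ => ?_
    rw [derivative_mul, derivative_X_pow]
    have h2 : (C ((p * (κ : ℕ) : ℕ) : k)) = 0 := by
      rw [Nat.cast_mul, CharP.cast_eq_zero k p, zero_mul, C_0]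
    rw [h2, zero_mul, zero_mul, zero_add]
  have h2 : (wx p a ᵥ* Gx a) s = ∑ l, wx p a l * Gx a l s := rfl
  rw [h1, h2, Finset.mul_sum]
  have h3 : ∀ κ : Fin g, ff a * (X ^ (p * (κ : ℕ)) * derivative (Ux p a κ s)) =
      ∑ l, X ^ (p * (κ : ℕ)) * Ux p a κ l * Gx a l s := by
    intro κ
    rw [mul_left_comm, hor_Ux p a hp hg hpg κ s, Matrix.mul_apply, Finset.mul_sum]
    exact Finset.sum_congr rfl fun l _ => (mul_assoc _ _ _).symm
  rw [Finset.sum_congr rfl fun κ _ => h3 κ, Finset.sum_comm]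
  refine Finset.sum_congr rfl fun l _ => ?_
  unfold wx
  rw [Finset.sum_mul]

/-- PROOF. `AA_coeff_natDegree`, `natDegree_sum_le_of_forall_le`, `natDegree_X_pow`; `κ ≤ g - 1`. -/
theorem wx_natDegree (s : Nx g) : (wx p a s).natDegree ≤ p * (g - 1) + (p - 1) / 2 := by
  unfold wx
  refine natDegree_sum_le_of_forall_le _ _ fun κ _ => ?_
  refine natDegree_mul_le.trans ?_
  rw [natDegree_X_pow]
  refine add_le_add (Nat.mul_le_mul_left _ ?_) (AA_coeff_natDegree p a _)
  have := κ.2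
  omega

end MPadcOA
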