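import Pool.Agent.Lib.MP_adc574_ag_OA.F2a

/-!
# Block F, leaf F2b: the polynomials F and A
-/

set_option autoImplicit false

namespace MPadcOA

open Polynomial Matrix

variable {k : Type*} [Field k] {g : ℕ} (p : ℕ) (a : Fin (2 * g) → k)

/-- PROOF. `monic_X_sub_C`, `Monic.mul`, `Monic.natDegree_mul`. -/
theorem FF_monic : (FF a).Monic ∧ (FF a).natDegree = 2 * g + 1 := by
  obtain ⟨h2, h3⟩ := fx_monic a
  refine ⟨(monic_X_sub_C _).mul h2, ?_⟩
  unfold FF
  rw [(monic_X_sub_C _).natDegree_mul h2, natDegree_X_sub_C, h3, add_comm]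

/-- PROOF. `Monic.pow`, `Monic.natDegree_pow`. -/
theorem AA_monic : (AA p a).Monic ∧ (AA p a).natDegree = (2 * g + 1) * ((p - 1) / 2) := by
  refine ⟨(FF_monic a).1.pow _, ?_⟩
  unfold AA
  rw [(FF_monic a).1.natDegree_pow, (FF_monic a).2, mul_comm]

/-- PROOF. The maps of a power, of a product; `(ff a).map C` mapped by the evaluation at `τ` is `ff a` (`Polynomial.map_map`, `eval_C`, `map_id`). -/
theorem AA_map (τ : k) : (AA p a).map (evalRingHom τ) =
    ((X - C τ) * ∏ j, (X - C (a j))) ^ ((p - 1) / 2) := by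
  have h1 : (evalRingHom τ).comp (C : k →+* k[X]) = RingHom.id k := by
    ext x
    simp
  unfold AA FF fx
  rw [Polynomial.map_pow, Polynomial.map_mul, Polynomial.map_sub, Polynomial.map_X, Polynomial.map_C,
    Polynomial.map_map, h1, Polynomial.map_id, coe_evalRingHom, eval_X]
  rfl

/-- The coefficients of `F`. PROOF. `sub_mul`, `coeff_X_mul`, `coeff_C_mul`, `coeff_map`. -/
theorem FF_coeff (n : ℕ) : (FF a).coeff (n + 1) = C ((ff a).coeff n) - X * C ((ff a).coeff (n + 1)) := by
  unfold FF fx
  rw [sub_mul, coeff_sub, coeff_X_mul, coeff_C_mul, coeff_map, coeff_map]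

/-- PROOF. `FF_coeff` for `n + 1`, and `coeff_zero` of the product for `0`. -/
theorem FF_coeff_natDegree (n : ℕ) : ((FF a).coeff n).natDegree ≤ 1 := by
  cases n with
  | zero =>
    unfold FF fx
    rw [sub_mul, coeff_sub, coeff_X_mul_zero, coeff_C_mul, coeff_map, zero_sub, natDegree_neg]
    refine natDegree_mul_le.trans ?_
    rw [natDegree_C, add_zero]
    exact natDegree_X_le
  | succ n =>
    rw [FF_coeff]
    refine (natDegree_sub_le _ _).trans (max_le ?_ ?_)
    · rw [natDegree_C]
      exact Nat.zero_le _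
    · refine natDegree_mul_le.trans ?_
      rw [natDegree_C, add_zero]
      exact natDegree_X_le

/-- General: if all coefficients of `P` have degree at most `d`, those of `P ^ n` have degree at most `n d`. PROOF. Induction on `n`, `coeff_mul`,
`natDegree_sum_le_of_forall_le`, `natDegree_mul_le`. -/
theorem coeff_pow_natDegree {P : k[X][X]} {d : ℕ} (h : ∀ n, (P.coeff n).natDegree ≤ d) (m n : ℕ) :
    ((P ^ m).coeff n).natDegree ≤ m * d := by
  induction m generalizing n with
  | zero =>
    rw [pow_zero, coeff_one]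
    split_ifs
    · rw [natDegree_one]
      exact Nat.zero_le _
    · rw [natDegree_zero]
      exact Nat.zero_le _
  | succ m ih =>
    rw [pow_succ, coeff_mul]
    refine natDegree_sum_le_of_forall_le _ _ fun x _ => ?_
    refine natDegree_mul_le.trans ?_
    have h1 := ih x.1
    have h2 := h x.2
    rw [Nat.succ_mul]
    omega

/-- PROOF. `FF_coeff_natDegree`, `coeff_pow_natDegree`. -/
theorem AA_coeff_natDegree (n : ℕ) : ((AA p a).coeff n).natDegree ≤ (p - 1) / 2 := by
  have h1 := coeff_pow_natDegree (FF_coeff_natDegree a) ((p - 1) / 2) n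
  rw [mul_one] at h1
  exact h1

end MPadcOA
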