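import Pool.Agent.Lib.MP_adc574_ag_OA.F7
import Pool.Agent.Lib.MP_adc574_ag_OA.F2b

/-!
# Block F, leaf F9: the residue
-/

set_option autoImplicit false

namespace MPadcOA

open Polynomial Matrix

variable {k : Type*} [Field k] {g : ℕ} (a : Fin (2 * g) → k)

private theorem F9_fx (τ : k) : (fx a).map (evalRingHom τ) = ff a := by
  unfold fx
  rw [Polynomial.map_map]
  have h : (evalRingHom τ).comp (C : k →+* k[X]) = RingHom.id k := by
    ext x
    rw [RingHom.comp_apply, coe_evalRingHom, eval_C, RingHom.id_apply]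
  rw [h, Polynomial.map_id]

private theorem F9_FF (τ : k) : (FF a).map (evalRingHom τ) = (X - C τ) * ff a := by
  unfold FF
  rw [Polynomial.map_mul, F9_fx, Polynomial.map_sub, Polynomial.map_X, Polynomial.map_C, coe_evalRingHom,
    eval_X]

private theorem F9_rr (j : Fin (2 * g)) (n : ℕ) : (rr a j).coeff n =
    1 / 2 * (derivative (ff a) - ff a /ₘ (X - C (a j))).coeff n := by
  unfold rr
  rw [coeff_C_mul]

/-- PROOF. `ff_div`: `f' (a j) = h (a j)`. -/
theorem rr_eval (j : Fin (2 * g)) : (rr a j).eval (a j) = 0 := by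
  unfold rr
  rw [eval_mul, eval_sub, (ff_div a j).2.1, sub_self, mul_zero]

/-- PROOF. `ff_div`, `ff_natDegree`, `natDegree_derivative_lt`. -/
theorem rr_natDegree (hg : 0 < g) (j : Fin (2 * g)) : (rr a j).natDegree < 2 * g := by
  unfold rr
  have hf := ff_natDegree a
  have h1 : (derivative (ff a)).natDegree < 2 * g := by
    have h2 := natDegree_derivative_lt (p := ff a) (by omega)
    omega
  have h2 : (ff a /ₘ (X - C (a j))).natDegree < 2 * g := by
    rw [(ff_div a j).2.2]
    omega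
  refine lt_of_le_of_lt (natDegree_C_mul_le _ _) ?_
  exact lt_of_le_of_lt (natDegree_sub_le _ _) (max_lt h1 h2)

/-- PROOF. The value at `τ = a j` of a coefficient is the coefficient of `(C (X ^ n) * derivative (fx a) + qq a n).map (evalRingHom τ)`, `n = nu s`
`= C (τ ^ n) * f' + (C 0 * X ^ n - C (τ ^ n) * f) /ₘ (X - C τ)` (`Polynomial.map_divByMonic`, `derivative_map`, `ff_eval`; `(fx a).map (evalRingHom τ) = ff a`), and
`(-(C c * f)) /ₘ q = -(C c * (f /ₘ q))` (`smul`-lemmas for `divByMonic`, or multiply by `X - C τ` and cancel: `ff_div`). -/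
theorem Gx_eval (j : Fin (2 * g)) (l s : Nx g) :
    (Gx a l s).eval (a j) = (rr a j).coeff (nu l) * a j ^ nu s := by
  have hq : (qq a (nu s)).map (evalRingHom (a j)) = -(C (a j ^ nu s) * (ff a /ₘ (X - C (a j)))) := by
    unfold qq
    rw [Polynomial.map_divByMonic _ (monic_X_sub_C (X : k[X]))]
    simp only [Polynomial.map_sub, Polynomial.map_mul, Polynomial.map_C, Polynomial.map_pow, Polynomial.map_X,
      F9_fx, coe_evalRingHom, eval_X, eval_pow, ff_eval, map_zero, zero_mul, zero_sub]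
    have h1 : -(C (a j ^ nu s) * ff a) = (X - C (a j)) * -(C (a j ^ nu s) * (ff a /ₘ (X - C (a j)))) := by
      conv_lhs => rw [← (ff_div a j).1]
      ring
    rw [h1, mul_divByMonic_cancel_left _ (monic_X_sub_C (a j))]
  have h1 : ((C (X ^ nu s) * derivative (fx a) + qq a (nu s)).coeff (nu l)).eval (a j) =
      ((C (X ^ nu s) * derivative (fx a) + qq a (nu s)).map (evalRingHom (a j))).coeff (nu l) := by
    rw [coeff_map]
    rfl
  unfold Gx
  rw [eval_mul, eval_C, h1, Polynomial.map_add, hq, Polynomial.map_mul, Polynomial.map_C, ← derivative_map, F9_fx,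
    coe_evalRingHom, eval_pow, eval_X, F9_rr]
  have h2 : C (a j ^ nu s) * derivative (ff a) + -(C (a j ^ nu s) * (ff a /ₘ (X - C (a j)))) =
      C (a j ^ nu s) * (derivative (ff a) - ff a /ₘ (X - C (a j))) := by ring
  rw [h2, coeff_C_mul]
  ring

/-- PROOF. `gen_B` for `P = FF a`, `φ = C.comp (evalRingHom τ) : k[X] →+* k[X]`, `τ = a j`, `x = X`, `z = C τ`: the values are `F(x) = (X - C τ) * f`,
`F'(x) = f + (X - C τ) * f'`, `F(z) = 0`, `F'(z) = 0` (`ff_eval`). So `2 (X - C τ) ^ 2 ∑_i C (∑_s Bx i s (τ) τ ^ s) X ^ i = (X - C τ) ^ 2 f' - (X - C τ) f = (X - C τ) ^ 2 (f' - h)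
= 2 (X - C τ) ^ 2 r` (`ff_div`). Cancel and compare the coefficients of `X ^ (nu i)` (`nu_injective`). -/
theorem Bx_eval (h2 : (2 : k) ≠ 0) (j : Fin (2 * g)) (i : Nx g) :
    ∑ s : Nx g, (Bx a i s).eval (a j) * a j ^ nu s = (rr a j).coeff (nu i) := by
  have hg := gen_B ((C : k →+* k[X]).comp (evalRingHom (a j))) (FF a) (FF_monic a).2.le (X : k[X]) (C (a j))
  have e1 : (FF a).eval₂ ((C : k →+* k[X]).comp (evalRingHom (a j))) X = (X - C (a j)) * ff a := by
    rw [← Polynomial.eval₂_map, F9_FF, Polynomial.eval₂_C_X]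
  have e2 : (FF a).eval₂ ((C : k →+* k[X]).comp (evalRingHom (a j))) (C (a j)) = 0 := by
    rw [← Polynomial.eval₂_map, F9_FF, Polynomial.eval₂_at_apply, eval_mul, ff_eval, mul_zero, map_zero]
  have e3 : (derivative (FF a)).eval₂ ((C : k →+* k[X]).comp (evalRingHom (a j))) X =
      ff a + (X - C (a j)) * derivative (ff a) := by
    rw [← Polynomial.eval₂_map, ← derivative_map, F9_FF, Polynomial.eval₂_C_X, derivative_mul, derivative_sub,
      derivative_X, derivative_C, sub_zero, one_mul]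
  have e4 : (derivative (FF a)).eval₂ ((C : k →+* k[X]).comp (evalRingHom (a j))) (C (a j)) = 0 := by
    rw [← Polynomial.eval₂_map, ← derivative_map, F9_FF, Polynomial.eval₂_at_apply, derivative_mul, derivative_sub,
      derivative_X, derivative_C, sub_zero, one_mul, eval_add, eval_mul, ff_eval, eval_sub, eval_X, eval_C, sub_self,
      zero_mul, add_zero, map_zero]
  rw [e1, e2, e3, e4] at hg
  have hne : ((X - C (a j)) ^ 2 : k[X]) ≠ 0 := pow_ne_zero _ (X_sub_C_ne_zero _)
  have h3 : (ff a + (X - C (a j)) * derivative (ff a) + 0) * (X - C (a j)) - 2 * ((X - C (a j)) * ff a - 0) =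
      (X - C (a j)) ^ 2 * (derivative (ff a) - ff a /ₘ (X - C (a j))) := by
    have h4 := (ff_div a j).1
    linear_combination (X - C (a j)) * h4
  rw [h3] at hg
  have h5 := mul_left_cancel₀ hne hg
  have h6 := congrArg (fun q : k[X] => q.coeff (nu i)) h5
  simp only [finsetSum_coeff] at h6
  have h7 : ∀ i' s : Nx g, ((((nu i' : ℕ) : k[X]) - ((nu s : ℕ) : k[X])) *
      ((C : k →+* k[X]).comp (evalRingHom (a j))) ((FF a).coeff (nu i' + nu s + 2)) * (X ^ nu i' * C (a j) ^ nu s)).coeff (nu i) =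
      if i' = i then ((nu i : k) - (nu s : k)) * ((FF a).coeff (nu i + nu s + 2)).eval (a j) * a j ^ nu s else 0 := by
    intro i' s
    have h8 : (((nu i' : ℕ) : k[X]) - ((nu s : ℕ) : k[X])) *
        ((C : k →+* k[X]).comp (evalRingHom (a j))) ((FF a).coeff (nu i' + nu s + 2)) * (X ^ nu i' * C (a j) ^ nu s) =
        C (((nu i' : k) - (nu s : k)) * ((FF a).coeff (nu i' + nu s + 2)).eval (a j) * a j ^ nu s) * X ^ nu i' := by
      rw [RingHom.comp_apply, coe_evalRingHom, map_mul, map_mul, map_sub, map_natCast, map_natCast, map_pow]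
      ring
    rw [h8, coeff_C_mul, coeff_X_pow]
    by_cases hi : i' = i
    · rw [if_pos hi, hi, if_pos rfl, mul_one]
    · rw [if_neg hi, if_neg (fun h => hi (nu_injective h.symm)), mul_zero]
  simp only [h7] at h6
  rw [F9_rr, ← h6, Finset.sum_comm, Finset.mul_sum]
  refine Finset.sum_congr rfl fun s _ => ?_
  rw [Finset.sum_ite_eq' Finset.univ i, if_pos (Finset.mem_univ i)]
  unfold Bx
  rw [eval_mul, eval_C]
  ring

end MPadcOA
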