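import Pool.Agent.Lib.MP_adc574_ag_OA.F9a
import Pool.Agent.Lib.MP_adc574_ag_OA.F2b

/-!
# Block F, leaf F9b: the value of w at a singular point
-/

set_option autoImplicit false

namespace MPadcOA

open Polynomial Matrix

variable {k : Type*} [Field k] {g : ℕ} (p : ℕ) (a : Fin (2 * g) → k)

/-- PROOF. `eval_finset_sum`; the value at `τ = a j` of the coefficient of `A` at `p (κ + 1) - (nu s + 1)` is the coefficient of `((X - C τ) * ff a) ^ H` (`AA_map`,
`coeff_map`) `= (X - C τ) ^ (p - 1) * h ^ H`, `h = ff a /ₘ (X - C τ)` (`ff_div`, `2 H = p - 1`), that is the coefficient of `x ^ (nu s) *` it at `p (κ + 1) - 1`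
(`coeff_X_pow_mul'`). `eval_block` with `Q = x ^ (nu s) h ^ H`, of degree at most `(2 g - 1) (p + 1) / 2 < p g`. -/
theorem wx_eval [CharP k p] (hp : p.Prime) (hg : 0 < g) (hpg : 2 * g < p) (hp2 : 2 < p) (j : Fin (2 * g))
    (s : Nx g) : (wx p a s).eval (a j) =
      a j ^ nu s * (derivative (ff a)).eval (a j) ^ ((p - 1) / 2) := by
  obtain ⟨hd1, hd2, hd3⟩ := ff_div a j
  obtain ⟨h, hh⟩ : ∃ h : k[X], h = ff a /ₘ (X - C (a j)) := ⟨_, rfl⟩
  rw [← hh] at hd1 hd2 hd3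
  have hodd : 2 * ((p - 1) / 2) = p - 1 := by
    obtain ⟨m, hm⟩ := hp.odd_of_ne_two (by omega)
    omega
  obtain ⟨H, hH⟩ : ∃ H : ℕ, H = (p - 1) / 2 := ⟨_, rfl⟩
  rw [← hH] at hodd ⊢
  have hs : nu s < 2 * g := nu_lt s
  have hmap : (AA p a).map (evalRingHom (a j)) = (X - C (a j)) ^ (p - 1) * h ^ H := by
    rw [AA_map p a (a j), ← hH]
    have h1 : ∏ i, (X - C (a i)) = (X - C (a j)) * h := hd1.symm
    rw [h1, ← hodd, pow_mul, ← mul_pow]
    congr 1
    ring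
  have hterm : ∀ κ : Fin g, (X ^ (p * (κ : ℕ)) * Ux p a κ s).eval (a j) =
      a j ^ (p * (κ : ℕ)) * ((X - C (a j)) ^ (p - 1) * (X ^ nu s * h ^ H)).coeff
        (p * ((κ : ℕ) + 1) - 1) := by
    intro κ
    rw [eval_mul, eval_pow, eval_X]
    congr 1
    have h1 : (Ux p a κ s).eval (a j) =
        ((AA p a).map (evalRingHom (a j))).coeff (p * ((κ : ℕ) + 1) - (nu s + 1)) := by
      rw [coeff_map]
      rfl
    have h2 : p ≤ p * ((κ : ℕ) + 1) := Nat.le_mul_of_pos_right _ (Nat.succ_pos _)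
    have h3 : nu s ≤ p * ((κ : ℕ) + 1) - 1 := by omega
    have h4 : (X - C (a j)) ^ (p - 1) * (X ^ nu s * h ^ H) =
        X ^ nu s * ((X - C (a j)) ^ (p - 1) * h ^ H) := by ring
    have h5 : p * ((κ : ℕ) + 1) - (nu s + 1) = p * ((κ : ℕ) + 1) - 1 - nu s := by omega
    rw [h1, hmap, h4, coeff_X_pow_mul', if_pos h3, h5]
  have hdeg : (X ^ nu s * h ^ H).natDegree < p * g := by
    have h1 : (X ^ nu s * h ^ H).natDegree ≤ nu s + H * (2 * g - 1) := by
      refine natDegree_mul_le.trans ?_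
      refine add_le_add (natDegree_X_pow_le _) ?_
      refine natDegree_pow_le.trans ?_
      rw [hd3]
    refine lt_of_le_of_lt h1 ?_
    obtain ⟨g', rfl⟩ : ∃ g', g = g' + 1 := ⟨g - 1, by omega⟩
    have h2 : 2 * (g' + 1) - 1 = 2 * g' + 1 := by omega
    have h3 : p = 2 * H + 1 := by omega
    rw [h2, h3]
    rw [h3] at hpg
    have h4 : nu s ≤ 2 * g' + 1 := by omega
    nlinarith
  unfold wx
  rw [eval_finsetSum, Finset.sum_congr rfl fun κ _ => hterm κ,
    eval_block hp (a j) g (X ^ nu s * h ^ H) hdeg, eval_mul, eval_pow, eval_pow, eval_X, hd2]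

end MPadcOA
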