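import Pool.Agent.Lib.MP_adc574_ag_OA.F10a
import Pool.Agent.Lib.MP_adc574_ag_OA.F5
import Pool.Agent.Lib.MP_adc574_ag_OA.F9
import Pool.Agent.Lib.MP_adc574_ag_OA.F9b

/-!
# Block F, leaf F10b: the connection on the column vectors
-/

set_option autoImplicit false

namespace MPadcOA

open Polynomial Matrix

private theorem F10b_cast {k : Type*} [Field k] {p : ℕ} [CharP k p] {n : ℕ} (h0 : 0 < n) (hn : n < p) : (n : k) ≠ 0 := by
  intro h
  have h1 := (CharP.cast_eq_zero_iff k p n).mp h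
  exact absurd (Nat.le_of_dvd h0 h1) (by omega)

variable {k : Type*} [Field k] {g : ℕ} (p : ℕ) (a : Fin (2 * g) → k)

/-- PROOF. `0 = ff * (∑ wx s * b s)' = ∑ (ff * (wx s)') * b s + ∑ wx s * (ff * (b s)')` and `hor_wx`; `Finset.sum_comm` for `(wx ᵥ* Gx) ⬝ b = wx ⬝ (Gx *ᵥ b)`
(`Matrix.dotProduct_mulVec`). -/
theorem nn_sol [CharP k p] (hp : p.Prime) (hg : 0 < g) (hpg : 2 * g < p) (b : Nx g → k[X])
    (hb : ∑ s, wx p a s * b s = 0) : ∑ s, wx p a s * nn a b s = 0 := by
  have h1 := congrArg (fun q : k[X] => ff a * derivative q) hb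
  rw [derivative_zero, mul_zero, derivative_sum, Finset.mul_sum] at h1
  have h2 : ∀ s ∈ (Finset.univ : Finset (Nx g)), ff a * derivative (wx p a s * b s) =
      (wx p a ᵥ* Gx a) s * b s + wx p a s * (ff a * derivative (b s)) := by
    intro s _
    rw [derivative_mul, mul_add, ← mul_assoc, hor_wx p a hp hg hpg]
    ring
  rw [Finset.sum_congr rfl h2, Finset.sum_add_distrib] at h1
  have h3 : ∑ s, (wx p a ᵥ* Gx a) s * b s = ∑ s, wx p a s * (Gx a *ᵥ b) s := by
    have h4 := Matrix.dotProduct_mulVec (wx p a) (Gx a) b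
    exact h4.symm
  rw [h3, ← Finset.sum_add_distrib] at h1
  rw [← h1]
  refine Finset.sum_congr rfl fun s _ => ?_
  unfold nn
  ring

/-- PROOF. The value at `a j` of the equation `∑ wx s * b s = 0` is `f'(a j) ^ H ∑ a_j ^ (nu s) b_s(a j) = 0` (`wx_eval`, `ff_deriv`), and
`nn b l (a j) = r_l ∑ a_j ^ (nu s) b_s(a j)` (`ff_eval`, `Gx_eval`). -/
theorem nn_eval [CharP k p] (hp : p.Prime) (hg : 0 < g) (hpg : 2 * g < p) (hp2 : 2 < p)
    (ha : Function.Injective a) (b : Nx g → k[X]) (hb : ∑ s, wx p a s * b s = 0) (l : Nx g)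
    (j : Fin (2 * g)) : (nn a b l).eval (a j) = 0 := by
  have h1 := congrArg (fun q : k[X] => q.eval (a j)) hb
  rw [eval_finsetSum, eval_zero] at h1
  have h2 : ∀ s ∈ (Finset.univ : Finset (Nx g)), (wx p a s * b s).eval (a j) =
      (derivative (ff a)).eval (a j) ^ ((p - 1) / 2) * (a j ^ nu s * (b s).eval (a j)) := by
    intro s _
    rw [eval_mul, wx_eval p a hp hg hpg hp2]
    ring
  rw [Finset.sum_congr rfl h2, ← Finset.mul_sum] at h1
  have h3 : ∑ s : Nx g, a j ^ nu s * (b s).eval (a j) = 0 :=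
    (mul_eq_zero.mp h1).resolve_left (pow_ne_zero _ (ff_deriv a ha j))
  unfold nn
  rw [eval_add, eval_mul, ff_eval, zero_mul, zero_add]
  show (∑ s, Gx a l s * b s).eval (a j) = 0
  rw [eval_finsetSum]
  have h4 : ∀ s ∈ (Finset.univ : Finset (Nx g)), (Gx a l s * b s).eval (a j) =
      (rr a j).coeff (nu l) * (a j ^ nu s * (b s).eval (a j)) := by
    intro s _
    rw [eval_mul, Gx_eval]
    ring
  rw [Finset.sum_congr rfl h4, ← Finset.mul_sum, h3, mul_zero]

/-- PROOF. If all `nn a b l = 0`: `nn_top` for `l = s₁` (the coefficient of `f'` at `2 g - 1` is `2 g`): `(2 d + 2 g - 1) b_(s₁, d) = 0`; `0 < 2 d + 2 g - 1 < p`, so it is not zero in `k`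
(`CharP.cast_eq_zero_iff`). Then `(2 d - 1) b_(l, d) = 0`, `2 d - 1` odd between `- 1` and `p`. -/
theorem nn_zero [CharP k p] (hp : p.Prime) (hp2 : 2 < p) (hg : 0 < g) (b : Nx g → k[X]) {d : ℕ}
    (hd : 2 * d + 2 * g ≤ p) (hb : ∀ s, (b s).natDegree ≤ d) (h : ∀ l, nn a b l = 0) (l : Nx g) :
    (b l).coeff d = 0 := by
  obtain ⟨s₁, hs₁⟩ := exists_nu (g := g) (j := 2 * g - 1) (by omega)
  have h2 : (2 : k) ≠ 0 := by
    have := F10b_cast (k := k) (p := p) (n := 2) (by norm_num) hp2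
    exact_mod_cast this
  have hf : (derivative (ff a)).coeff (2 * g - 1) = 2 * (g : k) := by
    rw [coeff_derivative]
    have h3 : 2 * g - 1 + 1 = (ff a).natDegree := by
      rw [ff_natDegree]
      omega
    rw [h3, (ff_monic a).coeff_natDegree, one_mul]
    have h4 : ((2 * g - 1 + 1 : ℕ) : k) = 2 * (g : k) := by
      have : 2 * g - 1 + 1 = 2 * g := by omega
      rw [this]
      push_cast
      ring
    rw [← h4]
    push_cast
    ring
  have h3 := nn_top a hg b hb s₁ s₁ hs₁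
  rw [h s₁, coeff_zero, hs₁, hf] at h3
  have h4 : ((2 * d + 2 * g - 1 : ℕ) : k) * (b s₁).coeff d = 0 := by
    have h5 : ((2 * d + 2 * g - 1 : ℕ) : k) = 2 * (d : k) + 2 * g - 1 := by
      rw [Nat.cast_sub (by omega)]
      push_cast
      ring
    rw [h5]
    have h6 : (1 / 2 : k) * 2 = 1 := by
      rw [one_div, inv_mul_cancel₀ h2]
    linear_combination (-2 : k) * h3 + ((b s₁).coeff d - 2 * (g : k) * (b s₁).coeff d) * h6
  have h5 : (b s₁).coeff d = 0 :=
    (mul_eq_zero.mp h4).resolve_left (F10b_cast (by omega) (by omega))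
  have h6 := nn_top a hg b hb l s₁ hs₁
  rw [h l, coeff_zero, h5, mul_zero, add_zero] at h6
  have h7 : (d : k) - 1 / 2 ≠ 0 := by
    intro h8
    have h9 : (1 / 2 : k) * 2 = 1 := by
      rw [one_div, inv_mul_cancel₀ h2]
    have h10 : 2 * (d : k) - 1 = 0 := by linear_combination 2 * h8 + h9
    rcases Nat.eq_zero_or_pos d with hd0 | hd0
    · rw [hd0] at h10
      norm_num at h10
    · have h11 : ((2 * d - 1 : ℕ) : k) = 0 := by
        rw [Nat.cast_sub (by omega)]
        push_cast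
        exact h10
      exact F10b_cast (by omega) (by omega) h11
  exact (mul_eq_zero.mp h6.symm).resolve_left h7

end MPadcOA
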