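import Mathlib

/-!
# Block F, leaf F11b: the section
-/

set_option autoImplicit false

namespace MPadcOA

open Polynomial Matrix

variable {k : Type*} [Field k] {p : ℕ}

/-- The section with the coefficients `Y_n = ∑_κ λ_κ A_(p (κ + 1) + n)`. -/
noncomputable def YY {g : ℕ} (p : ℕ) (lam : Fin g → k) (A : k[X]) : k[X] :=
  ∑ n ∈ Finset.range (A.natDegree + 1), monomial n (∑ κ : Fin g, lam κ * A.coeff (p * ((κ : ℕ) + 1) + n))

/-- PROOF. `finsetSum_coeff`, `coeff_monomial`; both sides are zero for `n > natDegree A`. -/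
theorem YY_coeff {g : ℕ} (lam : Fin g → k) (A : k[X]) (n : ℕ) :
    (YY p lam A).coeff n = ∑ κ : Fin g, lam κ * A.coeff (p * ((κ : ℕ) + 1) + n) := by
  unfold YY
  rw [finsetSum_coeff]
  simp only [coeff_monomial]
  rw [Finset.sum_ite_eq' (Finset.range (A.natDegree + 1)) n]
  split_ifs with hn
  · rfl
  · rw [Finset.mem_range, not_lt] at hn
    symm
    refine Finset.sum_eq_zero fun κ _ => ?_
    rw [coeff_eq_zero_of_natDegree_lt (by omega), mul_zero]

private theorem f11b_L (F P : k[X]) (n : ℕ) :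
    (X * (C 2 * F * derivative P + derivative F * P)).coeff n =
      ∑ i ∈ Finset.range (n + 1), (2 * ((n - i : ℕ) : k) + (i : k)) * F.coeff i * P.coeff (n - i) := by
  have hX : ∀ Q : k[X], ∀ m : ℕ, (X * derivative Q).coeff m = (m : k) * Q.coeff m := by
    intro Q m
    cases m with
    | zero => simp
    | succ m =>
      rw [coeff_X_mul, coeff_derivative]
      push_cast
      ring
  have h1 : X * (C 2 * F * derivative P + derivative F * P) =
      C 2 * (F * (X * derivative P)) + (X * derivative F) * P := by ring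
  rw [h1, coeff_add, coeff_C_mul, coeff_mul, coeff_mul, Finset.Nat.sum_antidiagonal_eq_sum_range_succ_mk,
    Finset.Nat.sum_antidiagonal_eq_sum_range_succ_mk, Finset.mul_sum, ← Finset.sum_add_distrib]
  refine Finset.sum_congr rfl fun i _ => ?_
  simp only [hX]
  ring

/-- THE DIFFERENTIAL EQUATION OF THE SECTION. `F` of degree at most `2 g + 1`, `2 F A' + F' A = 0`, and the window: the numbers `∑_κ λ_κ A_(p (κ + 1) - (j + 1))`, `j < 2 g`, are zero. PROOF. Compare the
coefficients of `x ^ n` of `x (2 F Y' + F' Y)` (`mul_left_cancel₀ X_ne_zero`, or the coefficient at `n - 1`, `n ≥ 1`): it is `∑_{i + m = n} (2 m + i) F_i Y_m`. The equation for `A` at `N = p (κ + 1) + n` is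
`∑_{i + m' = N} (2 m' + i) F_i A_(m') = 0`; with `m' = p (κ + 1) + m` and `2 m' + i = 2 m + i` in `k` the terms with `i ≤ n` are those of `Y`, the terms with `i > n`, `i ≤ 2 g + 1`, `n ≥ 1`, have
`m' = p (κ + 1) - (i - n)`, `1 ≤ i - n ≤ 2 g`: after multiplication with `λ_κ` and summation over `κ` they vanish by the window (and `2 m' + i = 2 n - i` does not depend on `κ`). -/
theorem YY_ode [CharP k p] {g : ℕ} (hpg : 2 * g < p) (F A : k[X]) (hF : F.natDegree ≤ 2 * g + 1)
    (h : C 2 * F * derivative A + derivative F * A = 0) (lam : Fin g → k)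
    (hw : ∀ j < 2 * g, ∑ κ : Fin g, lam κ * A.coeff (p * ((κ : ℕ) + 1) - (j + 1)) = 0) :
    C 2 * F * derivative (YY p lam A) + derivative F * YY p lam A = 0 := by
  have hp0 : (p : k) = 0 := CharP.cast_eq_zero k p
  have hA : ∀ N, ∑ i ∈ Finset.range (N + 1), (2 * ((N - i : ℕ) : k) + (i : k)) * F.coeff i * A.coeff (N - i) = 0 := by
    intro N
    rw [← f11b_L, h, mul_zero, coeff_zero]
  refine mul_left_cancel₀ (X_ne_zero (R := k)) ?_
  rw [mul_zero]
  ext n
  rw [coeff_zero]
  rcases Nat.eq_zero_or_pos n with hn | hn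
  · subst hn
    rw [mul_coeff_zero, coeff_X_zero, zero_mul]
  · rw [f11b_L]
    have hκ : ∀ κ : Fin g, ∑ i ∈ Finset.range (n + 1), (2 * ((n - i : ℕ) : k) + (i : k)) * F.coeff i *
        A.coeff (p * ((κ : ℕ) + 1) + (n - i)) = - ∑ j ∈ Finset.range (2 * g),
          ((n : k) - ((j : k) + 1)) * F.coeff (n + 1 + j) * A.coeff (p * ((κ : ℕ) + 1) - (j + 1)) := by
      intro κ
      have h1 := hA (p * ((κ : ℕ) + 1) + n)
      have h2 : p * ((κ : ℕ) + 1) + n + 1 = (n + 1) + p * ((κ : ℕ) + 1) := by ring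
      rw [h2, Finset.sum_range_add] at h1
      have h3 : ∑ i ∈ Finset.range (n + 1), (2 * ((p * ((κ : ℕ) + 1) + n - i : ℕ) : k) + (i : k)) * F.coeff i *
          A.coeff (p * ((κ : ℕ) + 1) + n - i) = ∑ i ∈ Finset.range (n + 1), (2 * ((n - i : ℕ) : k) + (i : k)) *
            F.coeff i * A.coeff (p * ((κ : ℕ) + 1) + (n - i)) := by
        refine Finset.sum_congr rfl fun i hi => ?_
        rw [Finset.mem_range] at hi
        have h4 : p * ((κ : ℕ) + 1) + n - i = p * ((κ : ℕ) + 1) + (n - i) := by omega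
        rw [h4, Nat.cast_add, Nat.cast_mul, hp0, zero_mul, zero_add]
      have hpk : 2 * g ≤ p * ((κ : ℕ) + 1) := by
        have h5 : p * 1 ≤ p * ((κ : ℕ) + 1) := Nat.mul_le_mul_left p (by omega)
        omega
      have h6 : ∑ j ∈ Finset.range (p * ((κ : ℕ) + 1)), (2 * ((p * ((κ : ℕ) + 1) + n - (n + 1 + j) : ℕ) : k) +
          ((n + 1 + j : ℕ) : k)) * F.coeff (n + 1 + j) * A.coeff (p * ((κ : ℕ) + 1) + n - (n + 1 + j)) =
          ∑ j ∈ Finset.range (2 * g), ((n : k) - ((j : k) + 1)) * F.coeff (n + 1 + j) *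
            A.coeff (p * ((κ : ℕ) + 1) - (j + 1)) := by
        rw [← Finset.sum_subset (Finset.range_subset_range.mpr hpk)]
        · refine Finset.sum_congr rfl fun j hj => ?_
          rw [Finset.mem_range] at hj
          have h7 : p * ((κ : ℕ) + 1) + n - (n + 1 + j) = p * ((κ : ℕ) + 1) - (j + 1) := by omega
          have h8 : ((p * ((κ : ℕ) + 1) - (j + 1) : ℕ) : k) = - ((j : k) + 1) := by
            rw [Nat.cast_sub (by omega), Nat.cast_mul, hp0, zero_mul, zero_sub]
            push_cast
            rfl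
          rw [h7, h8]
          congr 2
          push_cast
          ring
        · intro j _ hj
          rw [Finset.mem_range, not_lt] at hj
          rw [coeff_eq_zero_of_natDegree_lt (p := F) (by omega), mul_zero, zero_mul]
      rw [h3, h6] at h1
      exact eq_neg_of_add_eq_zero_left h1
    calc ∑ i ∈ Finset.range (n + 1), (2 * ((n - i : ℕ) : k) + (i : k)) * F.coeff i * (YY p lam A).coeff (n - i) =
        ∑ κ : Fin g, lam κ * ∑ i ∈ Finset.range (n + 1), (2 * ((n - i : ℕ) : k) + (i : k)) * F.coeff i *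
          A.coeff (p * ((κ : ℕ) + 1) + (n - i)) := by
          simp only [YY_coeff, Finset.mul_sum]
          rw [Finset.sum_comm]
          refine Finset.sum_congr rfl fun κ _ => Finset.sum_congr rfl fun i _ => ?_
          ring
      _ = - ∑ j ∈ Finset.range (2 * g), ((n : k) - ((j : k) + 1)) * F.coeff (n + 1 + j) *
          ∑ κ : Fin g, lam κ * A.coeff (p * ((κ : ℕ) + 1) - (j + 1)) := by
          simp only [hκ, mul_neg, Finset.sum_neg_distrib, Finset.mul_sum]
          rw [Finset.sum_comm]
          congr 1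
          refine Finset.sum_congr rfl fun j _ => Finset.sum_congr rfl fun κ _ => ?_
          ring
      _ = 0 := by
          rw [neg_eq_zero]
          refine Finset.sum_eq_zero fun j hj => ?_
          rw [hw j (Finset.mem_range.mp hj), mul_zero]

end MPadcOA
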