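import Pool.Agent.Lib.MP_adc574_ag_OA.F11a
import Pool.Agent.Lib.MP_adc574_ag_OA.F11b
import Pool.Agent.Lib.MP_adc574_ag_OA.F2b

/-!
# Block F, leaf F11: the rank of the frame
-/

set_option autoImplicit false

namespace MPadcOA

open Polynomial Matrix

variable {k : Type*} [Field k] {p : ℕ}

private theorem F11_prod (k : Type*) [Field k] {g : ℕ} (b : Fin (2 * g + 1) → k) :
    (∏ i, (X - C (b i))).Monic ∧ (∏ i, (X - C (b i))).natDegree = 2 * g + 1 := by
  have h1 : ∀ i ∈ (Finset.univ : Finset (Fin (2 * g + 1))), (X - C (b i)).Monic :=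
    fun i _ => monic_X_sub_C _
  refine ⟨monic_prod_of_monic _ _ h1, ?_⟩
  rw [natDegree_prod_of_monic _ _ h1, Finset.sum_congr rfl fun i _ => natDegree_X_sub_C (b i),
    Finset.sum_const, Finset.card_univ, Fintype.card_fin, smul_eq_mul, mul_one]

private theorem F11_ode [CharP k p] (hp : p.Prime) (hp2 : 2 < p) (F : k[X]) :
    C 2 * F * derivative (F ^ ((p - 1) / 2)) + derivative F * F ^ ((p - 1) / 2) = 0 := by
  obtain ⟨m, hm⟩ := hp.odd_of_ne_two (by omega)
  obtain ⟨q, hq⟩ : ∃ q, m = q + 1 := ⟨m - 1, by omega⟩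
  have h1 : (p - 1) / 2 = q + 1 := by omega
  have h2 : (p : k) = 0 := CharP.cast_eq_zero k p
  rw [h1, derivative_pow, Nat.add_sub_cancel]
  have h3 : (C (2 : k)) * C ((q + 1 : ℕ) : k) + 1 = 0 := by
    rw [← C_mul, ← C_1, ← C_add, ← C_0]
    congr 1
    rw [← h2, hm, hq]
    push_cast
    ring
  calc C 2 * F * (C ((q + 1 : ℕ) : k) * F ^ q * derivative F) + derivative F * F ^ (q + 1)
      = (C (2 : k) * C ((q + 1 : ℕ) : k) + 1) * (F ^ (q + 1) * derivative F) := by ring
    _ = 0 := by rw [h3, zero_mul]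

/-- PROOF. Suppose `lam ≠ 0` and let `κ₀` be the smallest index with `lam κ₀ ≠ 0`. `F = ∏ (X - C (b i))` is monic of degree `2 g + 1`, `A = F ^ H` monic of degree `(2 g + 1) H`, `H = (p - 1) / 2`, and satisfies the equation
(`derivative_pow`, `2 H = - 1`). By `YY_ode`, `pow_dvd_of_ode` `A ∣ Y`, and the degree of `Y` is smaller than the degree of `A` (`YY_coeff`, all indices `n ≥ (2 g + 1) H` give `0`), so `Y = 0`. But for
`n = (2 g + 1) H - p (κ₀ + 1) ≥ 0` (`p ≥ 2 g + 1`, `κ₀ + 1 ≤ g`) the coefficient of `Y` is `lam κ₀` (leading coefficient of `A`; the other terms vanish). -/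
theorem rank_window [CharP k p] (hp : p.Prime) (hp2 : 2 < p) {g : ℕ} (hpg : 2 * g < p) (b : Fin (2 * g + 1) → k)
    (hb : Function.Injective b) (lam : Fin g → k)
    (hw : ∀ j < 2 * g, ∑ κ : Fin g, lam κ *
      ((∏ i, (X - C (b i))) ^ ((p - 1) / 2)).coeff (p * ((κ : ℕ) + 1) - (j + 1)) = 0) : lam = 0 := by
  obtain ⟨F, hFd⟩ : ∃ F : k[X], F = ∏ i, (X - C (b i)) := ⟨_, rfl⟩
  obtain ⟨m, hm⟩ := hp.odd_of_ne_two (by omega)
  have hH : (p - 1) / 2 = m := by omega
  obtain ⟨hmon, hdeg⟩ := F11_prod k b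
  have hode := F11_ode hp hp2 F
  have hY := YY_ode hpg F (F ^ ((p - 1) / 2)) (by rw [hFd, hdeg]) hode lam (by
    intro j hj
    rw [hFd]
    exact hw j hj)
  obtain ⟨Y, hYd⟩ : ∃ Y : k[X], Y = YY p lam (F ^ ((p - 1) / 2)) := ⟨_, rfl⟩
  rw [← hYd, hFd] at hY
  have hdvd := pow_dvd_of_ode hp hp2 b hb Y hY
  have hAm : (F ^ m).Monic := by
    rw [hFd]
    exact hmon.pow m
  have hAd : (F ^ m).natDegree = m * (2 * g + 1) := by
    rw [hFd, hmon.natDegree_pow, hdeg]
  have hYc : ∀ n, Y.coeff n = ∑ κ : Fin g, lam κ * (F ^ m).coeff (p * ((κ : ℕ) + 1) + n) := by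
    intro n
    rw [hYd, YY_coeff, hH]
  have hY0 : Y = 0 := by
    by_contra hne
    have h1 := natDegree_le_of_dvd hdvd hne
    rw [← hFd, hH, hAd] at h1
    have h2 : Y.coeff Y.natDegree = 0 := by
      rw [hYc]
      refine Finset.sum_eq_zero fun κ _ => ?_
      rw [coeff_eq_zero_of_natDegree_lt, mul_zero]
      rw [hAd]
      have h3 : 0 < p * ((κ : ℕ) + 1) := Nat.mul_pos hp.pos (Nat.succ_pos _)
      omega
    exact hne (leadingCoeff_eq_zero.1 h2)
  have key : ∀ (n : ℕ) (κ : Fin g), (κ : ℕ) = n → lam κ = 0 := by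
    intro n
    induction n using Nat.strong_induction_on with
    | _ n ih =>
      intro κ hκ
      have hle : p * ((κ : ℕ) + 1) ≤ m * (2 * g + 1) := by
        have h4 : (κ : ℕ) + 1 ≤ g := κ.2
        calc p * ((κ : ℕ) + 1) ≤ p * g := Nat.mul_le_mul_left p h4
          _ = m * (2 * g) + g := by rw [hm]; ring
          _ ≤ m * (2 * g) + m := by omega
          _ = m * (2 * g + 1) := by ring
      have h1 := hYc (m * (2 * g + 1) - p * ((κ : ℕ) + 1))
      rw [hY0, coeff_zero, Finset.sum_eq_single κ] at h1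
      · have h2 : p * ((κ : ℕ) + 1) + (m * (2 * g + 1) - p * ((κ : ℕ) + 1)) = (F ^ m).natDegree := by
          rw [hAd]
          omega
        rw [h2, hAm.coeff_natDegree, mul_one] at h1
        exact h1.symm
      · intro κ' _ hne
        rcases lt_or_gt_of_ne (fun h => hne (Fin.ext h) : (κ' : ℕ) ≠ κ) with h3 | h3
        · rw [ih κ' (by omega) κ' rfl, zero_mul]
        · rw [coeff_eq_zero_of_natDegree_lt, mul_zero]
          rw [hAd]
          have h4 : p * ((κ : ℕ) + 1) < p * ((κ' : ℕ) + 1) :=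
            Nat.mul_lt_mul_of_pos_left (by omega) hp.pos
          omega
      · intro h
        exact absurd (Finset.mem_univ κ) h
  funext κ
  exact key κ κ rfl

/-- THE RANK. PROOF. `Fintype.linearIndependent_iff`; `b = Fin.cons α a` is injective (`ff a` does not vanish at `α`), `Fin.prod_univ_succ`; the value at `α` of `Ux p a κ s` is the coefficient (`AA_map`, `coeff_map`);
`exists_nu` for the window, `rank_window`. -/
theorem rank_Ux [CharP k p] (hp : p.Prime) (hp2 : 2 < p) {g : ℕ} (hpg : 2 * g < p) (a : Fin (2 * g) → k)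
    (ha : Function.Injective a) (α : k) (hα : (ff a).eval α ≠ 0) :
    LinearIndependent k fun κ s => (Ux p a κ s).eval α := by
  rw [Fintype.linearIndependent_iff]
  intro lam hlam κ
  have hinj : Function.Injective (Fin.cons α a : Fin (2 * g + 1) → k) := by
    rw [Fin.cons_injective_iff]
    refine ⟨?_, ha⟩
    rintro ⟨j, hj⟩
    apply hα
    unfold ff
    rw [eval_prod]
    refine Finset.prod_eq_zero (Finset.mem_univ j) ?_
    rw [eval_sub, eval_X, eval_C, hj, sub_self]
  have h1 := rank_window hp hp2 hpg (Fin.cons α a) hinj lam (by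
    intro j hj
    obtain ⟨s, hs⟩ := exists_nu hj
    have h2 := congrFun hlam s
    rw [Finset.sum_apply] at h2
    refine Eq.trans ?_ h2
    refine Finset.sum_congr rfl fun κ _ => ?_
    show _ = lam κ * (Ux p a κ s).eval α
    congr 1
    rw [Fin.prod_univ_succ]
    simp only [Fin.cons_zero, Fin.cons_succ]
    rw [← AA_map, coeff_map, coe_evalRingHom]
    unfold Ux
    rw [hs])
  rw [h1]
  rfl

end MPadcOA
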