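import Mathlib

/-!
# Block F, leaf F11a: the order at a zero of F
-/

set_option autoImplicit false

namespace MPadcOA

open Polynomial Matrix

variable {k : Type*} [Field k] {p : ℕ}

/-- Mathlib only. PROOF. `Y = 0` is clear. `Y = (X - C ρ) ^ m * Z`, `Z(ρ) ≠ 0` (`exists_eq_pow_rootMultiplicity_mul_and_not_dvd`), `F = (X - C ρ) * F₁`. Insert, cancel `(X - C ρ) ^ m` (for `m = 0` look at the
value at `ρ` directly: `F'(ρ) Y(ρ) = F₁(ρ) Z(ρ) = 0` is impossible): `2 F₁ (m Z + (x - ρ) Z') + (F₁ + (x - ρ) F₁') Z = 0`, at `ρ`: `(2 m + 1) F₁(ρ) Z(ρ) = 0`, so `p ∣ 2 m + 1`, `m ≥ (p - 1) / 2`. -/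
theorem order_ge [CharP k p] (hp : p.Prime) (hp2 : 2 < p) (F₁ Y : k[X]) (ρ : k) (hF : F₁.eval ρ ≠ 0)
    (h : C 2 * ((X - C ρ) * F₁) * derivative Y + derivative ((X - C ρ) * F₁) * Y = 0) :
    (X - C ρ) ^ ((p - 1) / 2) ∣ Y := by
  rcases eq_or_ne Y 0 with hY | hY
  · rw [hY]
    exact dvd_zero _
  obtain ⟨m, hm⟩ : ∃ m, m = rootMultiplicity ρ Y := ⟨_, rfl⟩
  obtain ⟨Z, hZ, hZd⟩ := exists_eq_pow_rootMultiplicity_mul_and_not_dvd Y hY ρ
  rw [← hm] at hZ
  have hZρ : Z.eval ρ ≠ 0 := fun h0 => hZd (dvd_iff_isRoot.2 h0)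
  have hder : (X - C ρ) * derivative Y =
      (X - C ρ) ^ m * (C (m : k) * Z + (X - C ρ) * derivative Z) := by
    rw [hZ, derivative_mul, derivative_X_sub_C_pow]
    rcases m with _ | m
    · rw [Nat.cast_zero, C_0]
      ring
    · rw [Nat.add_sub_cancel]
      ring
  have hW : (X - C ρ) ^ m * (C 2 * F₁ * (C (m : k) * Z + (X - C ρ) * derivative Z) +
      (F₁ + (X - C ρ) * derivative F₁) * Z) = 0 := by
    rw [← h, derivative_mul, derivative_X_sub_C, one_mul]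
    have e1 : C 2 * ((X - C ρ) * F₁) * derivative Y = C 2 * F₁ * ((X - C ρ) * derivative Y) := by
      ring
    rw [e1, hder]
    conv_rhs => rw [hZ]
    ring
  have hW0 := (mul_eq_zero.1 hW).resolve_left (pow_ne_zero m (X_sub_C_ne_zero ρ))
  have hev := congrArg (eval ρ) hW0
  simp only [eval_add, eval_mul, eval_C, eval_sub, eval_X, sub_self, zero_mul, add_zero,
    eval_zero] at hev
  have hm1 : ((2 * m + 1 : ℕ) : k) * (F₁.eval ρ * Z.eval ρ) = 0 := by
    rw [← hev]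
    push_cast
    ring
  have hm2 : ((2 * m + 1 : ℕ) : k) = 0 :=
    (mul_eq_zero.1 hm1).resolve_right (mul_ne_zero hF hZρ)
  have hdvd : p ∣ 2 * m + 1 := (CharP.cast_eq_zero_iff k p (2 * m + 1)).1 hm2
  have hle : p ≤ 2 * m + 1 := Nat.le_of_dvd (Nat.succ_pos _) hdvd
  have hmle : (p - 1) / 2 ≤ m := by omega
  rw [hZ]
  exact Dvd.dvd.mul_right (pow_dvd_pow _ hmle) Z

/-- Mathlib only. PROOF. For every `i` apply `order_ge` with `F₁ = ∏_{j ≠ i} (X - C (b j))` (`Finset.mul_prod_erase`); then `Finset.prod_dvd_of_coprime` for the powers (`IsCoprime.pow`,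
`pairwise_coprime_X_sub_C`), `Finset.prod_pow`. -/
theorem pow_dvd_of_ode [CharP k p] (hp : p.Prime) (hp2 : 2 < p) {ι : Type*} [Fintype ι] [DecidableEq ι] (b : ι → k)
    (hb : Function.Injective b) (Y : k[X])
    (h : C 2 * (∏ i, (X - C (b i))) * derivative Y + derivative (∏ i, (X - C (b i))) * Y = 0) :
    (∏ i, (X - C (b i))) ^ ((p - 1) / 2) ∣ Y := by
  rw [← Finset.prod_pow]
  refine Finset.prod_dvd_of_coprime ?_ fun i _ => ?_
  · intro i _ j _ hij
    exact (pairwise_coprime_X_sub_C hb hij).pow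
  · refine order_ge hp hp2 (∏ j ∈ Finset.univ.erase i, (X - C (b j))) Y (b i) ?_ ?_
    · rw [eval_prod]
      refine Finset.prod_ne_zero_iff.2 fun j hj => ?_
      rw [eval_sub, eval_X, eval_C, sub_ne_zero]
      exact fun h1 => (Finset.mem_erase.1 hj).1 (hb h1.symm)
    · rw [Finset.mul_prod_erase Finset.univ (fun j => X - C (b j)) (Finset.mem_univ i)]
      exact h

end MPadcOA
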