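import Pool.Agent.Lib.MP_adc574_ag_OA.F12a
import Pool.Agent.Lib.MP_adc574_ag_OA.F2b

/-!
# Block F, leaf F12: symplectic coordinates
-/

set_option autoImplicit false

namespace MPadcOA

open Polynomial Matrix

variable {k : Type*} [Field k] {g : ℕ} (a : Fin (2 * g) → k)

/-- PROOF. `nu j - nu i = -(nu i - nu j)`, `add_comm`. -/
theorem Bx_anti (i j : Nx g) : Bx a j i = -Bx a i j := by
  unfold Bx
  have h : ((nu j : k) - (nu i : k)) / 2 = -(((nu i : k) - (nu j : k)) / 2) := by ring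
  rw [add_comm (nu j) (nu i), h, C_neg, neg_mul]

/-- PROOF. `F` has degree `2 g + 1 < nu i + nu j + 2`. -/
theorem Bx_zero {i j : Nx g} (h : 2 * g ≤ nu i + nu j) : Bx a i j = 0 := by
  unfold Bx
  rw [coeff_eq_zero_of_natDegree_lt, mul_zero]
  rw [(FF_monic a).2]
  omega

/-- PROOF. The coefficient of `F` at `2 g + 1` is `1`; `nu i - nu j = 2 nu i - 2 g + 1`, odd, between `- p` and `p`, so not zero in `k`; times `1 / 2`, a nonzero constant. -/
theorem Bx_unit {p : ℕ} [CharP k p] (hp : p.Prime) (hp2 : 2 < p) (hpg : 2 * g < p) {i j : Nx g} (h : nu i + nu j + 1 = 2 * g) :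
    IsUnit (Bx a i j) := by
  have h1 : (FF a).coeff (nu i + nu j + 2) = 1 := by
    have h2 : nu i + nu j + 2 = (FF a).natDegree := by
      rw [(FF_monic a).2]
      omega
    rw [h2]
    exact (FF_monic a).1.coeff_natDegree
  have h3 : (2 : k) ≠ 0 := by
    intro h0
    have h4 : ((2 : ℕ) : k) = 0 := by exact_mod_cast h0
    have h5 := (CharP.cast_eq_zero_iff k p 2).1 h4
    have h6 := Nat.le_of_dvd (by norm_num) h5
    omega
  have h7 : (nu i : k) - (nu j : k) ≠ 0 := by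
    intro h0
    have h8 : (nu i : k) = (nu j : k) := sub_eq_zero.1 h0
    have h9 : nu i = nu j := CharP.natCast_injOn_Iio k p (Set.mem_Iio.2 (by omega)) (Set.mem_Iio.2 (by omega)) h8
    omega
  unfold Bx
  rw [h1, mul_one]
  exact Polynomial.isUnit_C.2 (isUnit_iff_ne_zero.2 (div_ne_zero h7 h3))

/-- PROOF. `FF_coeff_natDegree`. -/
theorem Bx_natDegree (i j : Nx g) : (Bx a i j).natDegree ≤ 1 := by
  unfold Bx
  exact (natDegree_C_mul_le _ _).trans (FF_coeff_natDegree a _)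

/-- PROOF. Four blocks. -/
theorem Px_natDegree (i j : Nx g) : (Px a i j).natDegree ≤ 1 := by
  rcases i with i | i <;> rcases j with j | j
  · show ((1 : Matrix (Fin g) (Fin g) k[X]) i j).natDegree ≤ 1
    rw [Matrix.one_apply]
    split_ifs
    · rw [natDegree_one]
      exact Nat.zero_le _
    · rw [natDegree_zero]
      exact Nat.zero_le _
  · show (C (1 / 2 : k) * Bx a (Sum.inl j) (Sum.inl i)).natDegree ≤ 1
    exact (natDegree_C_mul_le _ _).trans (Bx_natDegree a _ _)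
  · show ((0 : Matrix (Fin g) (Fin g) k[X]) i j).natDegree ≤ 1
    rw [Matrix.zero_apply, natDegree_zero]
    exact Nat.zero_le _
  · show (Bx a (Sum.inl j) (Sum.inr i)).natDegree ≤ 1
    exact Bx_natDegree a _ _

/-- PROOF. `Matrix.det_fromBlocks_zero₂₁`, `isUnit_antitri` for the lower right block (`Bx_zero`, `Bx_unit`; `nu (inl i) + nu (inr j) = g + i + j`). -/
theorem Px_unit {p : ℕ} [CharP k p] (hp : p.Prime) (hp2 : 2 < p) (hpg : 2 * g < p) : IsUnit (Px a).det := by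
  unfold Px
  rw [Matrix.det_fromBlocks_zero₂₁, Matrix.det_one, one_mul]
  refine isUnit_antitri _ (fun i j hij => ?_) (fun i j hij => ?_)
  · show Bx a (Sum.inl j) (Sum.inr i) = 0
    apply Bx_zero
    show 2 * g ≤ (j : ℕ) + (g + (i : ℕ))
    omega
  · show IsUnit (Bx a (Sum.inl j) (Sum.inr i))
    apply Bx_unit a hp hp2 hpg
    show (j : ℕ) + (g + (i : ℕ)) + 1 = 2 * g
    omega

/-- PROOF. Blocks: `P = [[1, b], [0, c]]`, `b_(j, i) = B_(i, j) / 2`, `c_(j, i) = B_(i, g + j)`; `P * JJ = [[-b, 1], [-c, 0]]`, `P * JJ * Pᵀ = [[bᵀ - b, cᵀ], [-c, 0]]`. `(bᵀ - b)_(i, j) = (B_(i, j) - B_(j, i)) / 2 = B_(i, j)`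
(`Bx_anti`), `cᵀ_(i, j) = B_(i, g + j)`, `-c_(j, i) = B_(g + j, i)`, and the lower right block of `B` is zero (`Bx_zero`). `Matrix.ext` + cases, `fromBlocks_multiply`, `fromBlocks_transpose`. -/
theorem Px_JJ (h2 : (2 : k) ≠ 0) : Px a * JJ g k[X] * (Px a)ᵀ = Bx a := by
  have h4 : C (1 / 2 : k) + C (1 / 2 : k) = (1 : k[X]) := by
    rw [← C_add, ← C_1]
    congr 1
    field_simp
    norm_num
  unfold Px JJ
  rw [Matrix.fromBlocks_multiply, Matrix.fromBlocks_transpose, Matrix.fromBlocks_multiply]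
  simp only [Matrix.mul_zero, Matrix.zero_mul, Matrix.mul_one, Matrix.one_mul, Matrix.mul_neg,
    Matrix.transpose_one, Matrix.transpose_zero, zero_add, add_zero]
  refine Matrix.ext fun i j => ?_
  rcases i with i | i <;> rcases j with j | j
  · show -(C (1 / 2 : k) * Bx a (Sum.inl j) (Sum.inl i)) + C (1 / 2 : k) * Bx a (Sum.inl i) (Sum.inl j) =
      Bx a (Sum.inl i) (Sum.inl j)
    rw [Bx_anti a (Sum.inl i) (Sum.inl j), mul_neg, neg_neg, ← add_mul, h4, one_mul]
  · show Bx a (Sum.inl i) (Sum.inr j) = Bx a (Sum.inl i) (Sum.inr j)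
    rfl
  · show -(Bx a (Sum.inl j) (Sum.inr i)) = Bx a (Sum.inr i) (Sum.inl j)
    exact (Bx_anti a (Sum.inl j) (Sum.inr i)).symm
  · show (0 : k[X]) = Bx a (Sum.inr i) (Sum.inr j)
    refine (Bx_zero a ?_).symm
    show 2 * g ≤ (g + (i : ℕ)) + (g + (j : ℕ))
    omega

end MPadcOA
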