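import Mathlib

/-!
# Block F, leaf F12a: determinants
-/

set_option autoImplicit false

namespace MPadcOA

open Polynomial Matrix

variable {k : Type*} [Field k]

/-- Mathlib only. PROOF. `Matrix.det_apply`, `natDegree_sum_le_of_forall_le`, `natDegree_smul_le`, `natDegree_prod_le`. -/
theorem natDegree_det {n : Type*} [Fintype n] [DecidableEq n] (P : Matrix n n k[X]) {d : ℕ}
    (h : ∀ i j, (P i j).natDegree ≤ d) : P.det.natDegree ≤ Fintype.card n * d := by
  rw [Matrix.det_apply]
  refine natDegree_sum_le_of_forall_le _ _ fun σ _ => ?_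
  have h1 : (∏ i, P (σ i) i).natDegree ≤ Fintype.card n * d := by
    refine (natDegree_prod_le _ _).trans ?_
    refine (Finset.sum_le_sum fun i _ => h (σ i) i).trans ?_
    simp
  rcases Int.units_eq_one_or (Equiv.Perm.sign σ) with hs | hs
  · rw [hs, one_smul]
    exact h1
  · rw [hs, Units.neg_smul, one_smul, natDegree_neg]
    exact h1

/-- Mathlib only. PROOF. `Q = P⁻¹ = (det P)⁻¹ • adjugate P`; `det P` is a unit, so a constant (`Polynomial.isUnit_iff`), the entries of the adjugate are determinants of matrices whose entries have degree at most `d`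
(`Matrix.adjugate_apply`, `updateRow`, `Pi.single`), `natDegree_det`. -/
theorem exists_inv {n : Type*} [Fintype n] [DecidableEq n] (P : Matrix n n k[X]) {d : ℕ}
    (h : ∀ i j, (P i j).natDegree ≤ d) (hu : IsUnit P.det) :
    ∃ Q : Matrix n n k[X], P * Q = 1 ∧ Q * P = 1 ∧ ∀ i j, (Q i j).natDegree ≤ Fintype.card n * d := by
  refine ⟨P⁻¹, Matrix.mul_nonsing_inv P hu, Matrix.nonsing_inv_mul P hu, fun i j => ?_⟩
  have h1 : (P.adjugate i j).natDegree ≤ Fintype.card n * d := by
    rw [Matrix.adjugate_apply]
    refine natDegree_det _ fun a b => ?_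
    rw [Matrix.updateRow_apply]
    split_ifs with hab
    · rw [Pi.single_apply]
      split_ifs <;> simp
    · exact h a b
  rw [Matrix.inv_def, Matrix.smul_apply, smul_eq_mul]
  obtain ⟨u, hu1⟩ := hu
  have h2 : (Ring.inverse P.det).natDegree = 0 := by
    rw [← hu1, Ring.inverse_unit]
    exact natDegree_eq_zero_of_isUnit u⁻¹.isUnit
  refine natDegree_mul_le.trans ?_
  rw [h2, zero_add]
  exact h1

/-- Mathlib only: an antitriangular matrix with units on the antidiagonal. PROOF. `M.submatrix Fin.rev id` is lower triangular (`Matrix.det_of_lowerTriangular`), its determinant is a product of units; the determinants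
differ by a sign (`Matrix.det_permute'`/`det_permute` for `Fin.revPerm`). -/
theorem isUnit_antitri {R : Type*} [CommRing R] {g : ℕ} (M : Matrix (Fin g) (Fin g) R)
    (h0 : ∀ i j : Fin g, g ≤ (i : ℕ) + j → M i j = 0)
    (h1 : ∀ i j : Fin g, (i : ℕ) + j + 1 = g → IsUnit (M i j)) : IsUnit M.det := by
  have h2 : (M.submatrix (Fin.revPerm : Equiv.Perm (Fin g)) id).det = ∏ i, M (Fin.rev i) i := by
    rw [Matrix.det_of_lowerTriangular]
    · rfl
    · intro i j hij
      have hij' : i < j := OrderDual.toDual_lt_toDual.1 hij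
      have h3 : (i : ℕ) < j := hij'
      show M (Fin.rev i) j = 0
      apply h0
      rw [Fin.val_rev]
      omega
  have h3 : IsUnit (M.submatrix (Fin.revPerm : Equiv.Perm (Fin g)) id).det := by
    rw [h2]
    refine IsUnit.prod_univ_iff.2 fun i => h1 _ _ ?_
    rw [Fin.val_rev]
    have := i.2
    omega
  rw [Matrix.det_permute] at h3
  exact isUnit_of_mul_isUnit_right h3

end MPadcOA
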