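import Pool.Agent.Lib.MP_adc574_ag_OA.F1

/-!
# Block F, leaf F8a: the rational identity; generating functions
-/

set_option autoImplicit false

namespace MPadcOA

open Polynomial Matrix

/-- THE RATIONAL IDENTITY. -/
theorem rat_id {S : Type*} [CommRing S] [IsDomain S] {t x z ft fX fz dfx dfz b btz bxt b' gx gz : S}
    (h20 : (2 : S) ≠ 0) (hxt : x ≠ t) (hzt : z ≠ t) (hxz : x ≠ z)
    (h1 : (x - z) ^ 2 * b = ((fX + (x - t) * dfx) + (fz + (z - t) * dfz)) * (x - z) -
      2 * ((x - t) * fX - (z - t) * fz))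
    (h2 : (x - z) ^ 2 * b' = -((dfx + dfz) * (x - z) - 2 * (fX - fz)))
    (h3 : (t - z) ^ 2 * btz = (ft + (fz + (z - t) * dfz)) * (t - z) + 2 * ((z - t) * fz))
    (h4 : (x - t) ^ 2 * bxt = ((fX + (x - t) * dfx) + ft) * (x - t) - 2 * ((x - t) * fX))
    (hgx : 2 * (x - t) * gx = (x - t) * btz * dfx + ft * b - btz * fX)
    (hgz : 2 * (z - t) * gz = (z - t) * bxt * dfz + ft * b - bxt * fz) :
    ft * b' + gx + gz = 0 := by
  have hD : 2 * (x - z) ^ 2 * (x - t) ^ 3 * (z - t) ^ 3 ≠ 0 := by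
    have e1 := sub_ne_zero.mpr hxt
    have e2 := sub_ne_zero.mpr hzt
    have e3 := sub_ne_zero.mpr hxz
    positivity
  refine mul_left_cancel₀ hD ?_
  rw [mul_zero]
  linear_combination 2 * ft * (x - t) ^ 3 * (z - t) ^ 3 * h2 + (x - z) ^ 2 * (x - t) ^ 2 * (z - t) ^ 3 * hgx +
    (x - z) ^ 2 * (x - t) ^ 3 * (z - t) ^ 2 * hgz +
    ft * ((x - t) ^ 2 * (z - t) ^ 3 + (x - t) ^ 3 * (z - t) ^ 2) * h1 +
    ((x - t) * dfx - fX) * (x - z) ^ 2 * (x - t) ^ 2 * (z - t) * h3 +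
    ((z - t) * dfz - fz) * (x - z) ^ 2 * (x - t) * (z - t) ^ 2 * h4

/-- A matrix is zero if its generating function is zero. PROOF. The coefficient of `X ^ nu j` of `∑ ..` and then the coefficient of `X ^ nu i`; `nu_injective`.
(`Polynomial.finsetSum_coeff`, `coeff_C_mul`, `coeff_X_pow`; `C` of a power.) -/
theorem gen_zero {R : Type*} [CommRing R] {g : ℕ} (M : Matrix (Nx g) (Nx g) R)
    (h : ∑ i : Nx g, ∑ j : Nx g, (C (C (M i j)) : R[X][X]) * (C X ^ nu i * X ^ nu j) = 0) :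
    M = 0 := by
  classical
  ext i₀ j₀
  have h1 : ∑ i : Nx g, C (M i j₀) * (X : R[X]) ^ nu i = 0 := by
    have h2 := congrArg (fun q : R[X][X] => q.coeff (nu j₀)) h
    simp only [finsetSum_coeff, coeff_zero] at h2
    rw [← h2]
    refine Finset.sum_congr rfl fun i _ => ?_
    rw [Finset.sum_eq_single j₀]
    · rw [← C_pow, ← mul_assoc, ← C_mul, coeff_C_mul, coeff_X_pow, if_pos rfl, mul_one]
    · intro j _ hj
      rw [← C_pow, ← mul_assoc, ← C_mul, coeff_C_mul, coeff_X_pow, if_neg fun h3 => hj (nu_injective h3).symm, mul_zero]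
    · intro h3
      exact absurd (Finset.mem_univ _) h3
  have h4 := congrArg (fun q : R[X] => q.coeff (nu i₀)) h1
  simp only [finsetSum_coeff, coeff_zero] at h4
  rw [Finset.sum_eq_single i₀] at h4
  · rw [coeff_C_mul, coeff_X_pow, if_pos rfl, mul_one] at h4
    exact h4
  · intro i _ hi
    rw [coeff_C_mul, coeff_X_pow, if_neg fun h3 => hi (nu_injective h3).symm, mul_zero]
  · intro h3
    exact absurd (Finset.mem_univ _) h3

end MPadcOA
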