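import Pool.Agent.Lib.MP_adc574_ag_OA.F3a

/-!
# Block F, leaf F8b: the generating function of the columns of Gx
-/

set_option autoImplicit false

namespace MPadcOA

open Polynomial Matrix

variable {k : Type*} [Field k] {g : ℕ} (a : Fin (2 * g) → k)

/-- The generating function of the column `s` of `Gx`. PROOF. `φ` of a coefficient of `G = C (X ^ j) * derivative (fx a) + qq a j`, `j = nu s`, degree `< 2 g`
(`qq_natDegree`, `natDegree_derivative_lt`), so `2 ∑ φ (Gx l s) x ^ (nu l) = G.eval₂ φ x` (`eval₂_eq_sum_range'`, `nu_sum`; `φ (C (1 / 2)) * 2 = 1`), and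
`(x - φ X) * (qq a j).eval₂ φ x = φ (ff a) x ^ j - φ (X ^ j) * (fx a).eval₂ φ x` is `mul_qq` under `eval₂RingHom`. -/
theorem gen_G {S : Type*} [CommRing S] (hg : 0 < g) (h2 : (2 : k) ≠ 0) (φ : k[X] →+* S) (x : S) (s : Nx g) :
    2 * (x - φ X) * ∑ l : Nx g, φ (Gx a l s) * x ^ nu l =
      (x - φ X) * φ X ^ nu s * (derivative (fx a)).eval₂ φ x + φ (ff a) * x ^ nu s -
        φ X ^ nu s * (fx a).eval₂ φ x := by
  obtain ⟨P, hP⟩ : ∃ P : k[X][X], P = C (X ^ nu s) * derivative (fx a) + qq a (nu s) := ⟨_, rfl⟩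
  have hdeg : P.natDegree < 2 * g := by
    rw [hP]
    refine lt_of_le_of_lt (natDegree_add_le _ _) (max_lt ?_ (qq_natDegree a hg (nu_lt s)))
    refine lt_of_le_of_lt (natDegree_C_mul_le _ _) ?_
    refine lt_of_le_of_lt (natDegree_derivative_le _) ?_
    rw [(fx_monic a).2]
    omega
  have hhalf : φ (C (1 / 2 : k)) * 2 = 1 := by
    have h1 : (C (1 / 2 : k)) * (2 : k[X]) = 1 := by
      have h3 : (2 : k[X]) = C (2 : k) := by rw [map_ofNat]
      rw [h3, ← C_mul, one_div, inv_mul_cancel₀ h2, C_1]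
    have h3 := congrArg φ h1
    rwa [map_mul, map_ofNat, map_one] at h3
  have hsum : ∑ l : Nx g, φ (Gx a l s) * x ^ nu l = φ (C (1 / 2 : k)) * P.eval₂ φ x := by
    rw [eval₂_eq_sum_range' φ hdeg x, ← nu_sum (fun i => φ (P.coeff i) * x ^ i), Finset.mul_sum]
    refine Finset.sum_congr rfl fun l _ => ?_
    have h1 : Gx a l s = C (1 / 2 : k) * P.coeff (nu l) := by rw [hP]; rfl
    rw [h1, map_mul, mul_assoc]
  have hq : (x - φ X) * (qq a (nu s)).eval₂ φ x =
      φ (ff a) * x ^ nu s - φ X ^ nu s * (fx a).eval₂ φ x := by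
    have h1 := congrArg (fun Q : k[X][X] => Q.eval₂ φ x) (mul_qq a (nu s))
    simp only [eval₂_mul, eval₂_sub, eval₂_X, eval₂_C, eval₂_pow, map_pow] at h1
    exact h1
  have hPe : P.eval₂ φ x = φ X ^ nu s * (derivative (fx a)).eval₂ φ x + (qq a (nu s)).eval₂ φ x := by
    rw [hP, eval₂_add, eval₂_mul, eval₂_C, map_pow]
  rw [hsum, hPe]
  linear_combination (x - φ X) * (φ X ^ nu s * (derivative (fx a)).eval₂ φ x + (qq a (nu s)).eval₂ φ x) * hhalf + hq

end MPadcOA
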