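import Pool.Agent.Lib.MP_adc574_ag_OA.F7
import Pool.Agent.Lib.MP_adc574_ag_OA.F8a
import Pool.Agent.Lib.MP_adc574_ag_OA.F8b

/-!
# Block F, leaf F8: the alternating form is horizontal
-/

set_option autoImplicit false

namespace MPadcOA

open Polynomial Matrix

variable {k : Type*} [Field k] {g : ℕ} (a : Fin (2 * g) → k)

private theorem F8_two {S : Type*} [CommRing S] (h2 : (2 : k) ≠ 0) (φ : k[X] →+* S) (c : k) :
    2 * φ (C (c / 2)) = φ (C c) := by
  have h1 : (2 : S) = φ (C (2 : k)) := by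
    rw [show (C (2 : k) : k[X]) = 2 from map_ofNat C 2, map_ofNat]
  rw [h1, ← map_mul, ← C_mul, mul_div_cancel₀ c h2]

private theorem F8_nat {S : Type*} [CommRing S] (φ : k[X] →+* S) (m n : ℕ) :
    φ (C ((m : k) - (n : k))) = (m : S) - n := by
  rw [C_sub, map_sub, C_eq_natCast, C_eq_natCast, map_natCast, map_natCast]

private theorem F8_B {S : Type*} [CommRing S] (h2 : (2 : k) ≠ 0) (φ : k[X] →+* S) (i j : Nx g) :
    2 * φ (Bx a i j) = ((nu i : S) - nu j) * φ ((FF a).coeff (nu i + nu j + 2)) := by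
  unfold Bx
  rw [map_mul, ← mul_assoc, F8_two h2, F8_nat]

private theorem F8_dB {S : Type*} [CommRing S] (h2 : (2 : k) ≠ 0) (φ : k[X] →+* S) (i j : Nx g) :
    2 * φ (derivative (Bx a i j)) =
      ((nu i : S) - nu j) * φ ((-fx a).coeff (nu i + nu j + 2)) := by
  have h3 : derivative ((FF a).coeff (nu i + nu j + 2)) = (-fx a).coeff (nu i + nu j + 2) := by
    have h4 : (FF a).coeff (nu i + nu j + 2) = C ((ff a).coeff (nu i + nu j + 1)) -
        X * C ((ff a).coeff (nu i + nu j + 2)) := FF_coeff a (nu i + nu j + 1)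
    rw [h4, coeff_neg, fx, coeff_map, derivative_sub, derivative_C, derivative_mul, derivative_X,
      derivative_C, one_mul, mul_zero, add_zero, zero_sub]
  unfold Bx
  rw [derivative_C_mul, map_mul, ← mul_assoc, F8_two h2, F8_nat, h3]

private theorem F8_gx {S : Type*} [CommRing S] (φ : k[X] →+* S) (x z : S) :
    ∑ i : Nx g, ∑ j : Nx g, 2 * φ ((Gx a * Bx a) i j) * (x ^ nu i * z ^ nu j) =
      ∑ s : Nx g, (∑ l : Nx g, φ (Gx a l s) * x ^ nu l) *
        ∑ m : Nx g, (2 * φ (Bx a s m)) * z ^ nu m := by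
  simp only [Finset.sum_mul_sum]
  rw [Finset.sum_comm]
  have h1 : ∀ l : Nx g, ∑ s : Nx g, ∑ m : Nx g,
      φ (Gx a l s) * x ^ nu l * (2 * φ (Bx a s m) * z ^ nu m) =
      ∑ m : Nx g, ∑ s : Nx g, φ (Gx a l s) * x ^ nu l * (2 * φ (Bx a s m) * z ^ nu m) :=
    fun l => Finset.sum_comm
  rw [Finset.sum_comm, eq_comm, Finset.sum_comm]
  refine Finset.sum_congr rfl fun l _ => ?_
  rw [h1 l]
  refine Finset.sum_congr rfl fun m _ => ?_
  rw [Matrix.mul_apply, map_sum, Finset.mul_sum, Finset.sum_mul]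
  refine Finset.sum_congr rfl fun s _ => ?_
  rw [map_mul]
  ring

private theorem F8_gz {S : Type*} [CommRing S] (φ : k[X] →+* S) (x z : S) :
    ∑ i : Nx g, ∑ j : Nx g, 2 * φ ((Bx a * (Gx a)ᵀ) i j) * (x ^ nu i * z ^ nu j) =
      ∑ s : Nx g, (∑ l : Nx g, φ (Gx a l s) * z ^ nu l) *
        ∑ m : Nx g, (2 * φ (Bx a m s)) * x ^ nu m := by
  simp only [Finset.sum_mul_sum]
  have h1 : ∑ s : Nx g, ∑ l : Nx g, ∑ m : Nx g,
      φ (Gx a l s) * z ^ nu l * (2 * φ (Bx a m s) * x ^ nu m) =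
      ∑ m : Nx g, ∑ l : Nx g, ∑ s : Nx g,
        φ (Gx a l s) * z ^ nu l * (2 * φ (Bx a m s) * x ^ nu m) := by
    rw [Finset.sum_comm]
    have h2 : ∀ l : Nx g, ∑ s : Nx g, ∑ m : Nx g,
        φ (Gx a l s) * z ^ nu l * (2 * φ (Bx a m s) * x ^ nu m) =
        ∑ m : Nx g, ∑ s : Nx g, φ (Gx a l s) * z ^ nu l * (2 * φ (Bx a m s) * x ^ nu m) :=
      fun l => Finset.sum_comm
    rw [Finset.sum_congr rfl fun l _ => h2 l, Finset.sum_comm]
  rw [h1]
  refine Finset.sum_congr rfl fun i _ => Finset.sum_congr rfl fun j _ => ?_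
  rw [Matrix.mul_apply, map_sum, Finset.mul_sum, Finset.sum_mul]
  refine Finset.sum_congr rfl fun s _ => ?_
  rw [map_mul, Matrix.transpose_apply]
  ring

private theorem F8_main {S : Type*} [CommRing S] [IsDomain S] (hg : 0 < g) (h2 : (2 : k) ≠ 0)
    (φ : k[X] →+* S) (x z : S) (h20 : (2 : S) ≠ 0) (hxt : x ≠ φ X) (hzt : z ≠ φ X)
    (hxz : x ≠ z) :
    ∑ i : Nx g, ∑ j : Nx g, φ ((ff a • (Bx a).map derivative + Gx a * Bx a +
      Bx a * (Gx a)ᵀ) i j) * (x ^ nu i * z ^ nu j) = 0 := by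
  have hdeg : (FF a).natDegree ≤ 2 * g + 1 := (FF_monic a).2.le
  have hdegf : (-fx a).natDegree ≤ 2 * g + 1 := by
    rw [natDegree_neg, (fx_monic a).2]
    omega
  have eFF : ∀ u : S, (FF a).eval₂ φ u = (u - φ X) * (fx a).eval₂ φ u := by
    intro u
    rw [FF, eval₂_mul, eval₂_sub, eval₂_X, eval₂_C]
  have edFF : ∀ u : S, (derivative (FF a)).eval₂ φ u =
      (fx a).eval₂ φ u + (u - φ X) * (derivative (fx a)).eval₂ φ u := by
    intro u
    rw [FF, derivative_mul, derivative_sub, derivative_X, derivative_C, sub_zero, one_mul,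
      eval₂_add, eval₂_mul, eval₂_sub, eval₂_X, eval₂_C]
  have eft : (fx a).eval₂ φ (φ X) = φ (ff a) := by
    rw [fx, eval₂_map]
    rw [← Polynomial.hom_eval₂, eval₂_C_X]
  have hB : ∀ u v : S, ∑ i : Nx g, ∑ j : Nx g, 2 * φ (Bx a i j) * (u ^ nu i * v ^ nu j) =
      ∑ i : Nx g, ∑ j : Nx g, ((nu i : S) - nu j) * φ ((FF a).coeff (nu i + nu j + 2)) *
        (u ^ nu i * v ^ nu j) := fun u v =>
    Finset.sum_congr rfl fun i _ => Finset.sum_congr rfl fun j _ => by rw [F8_B a h2]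
  have hdB : ∑ i : Nx g, ∑ j : Nx g, 2 * φ (derivative (Bx a i j)) * (x ^ nu i * z ^ nu j) =
      ∑ i : Nx g, ∑ j : Nx g, ((nu i : S) - nu j) * φ ((-fx a).coeff (nu i + nu j + 2)) *
        (x ^ nu i * z ^ nu j) :=
    Finset.sum_congr rfl fun i _ => Finset.sum_congr rfl fun j _ => by rw [F8_dB a h2]
  have key := rat_id (S := S) (t := φ X) (x := x) (z := z) (ft := φ (ff a))
    (fX := (fx a).eval₂ φ x) (fz := (fx a).eval₂ φ z)
    (dfx := (derivative (fx a)).eval₂ φ x) (dfz := (derivative (fx a)).eval₂ φ z)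
    (b := ∑ i : Nx g, ∑ j : Nx g, 2 * φ (Bx a i j) * (x ^ nu i * z ^ nu j))
    (btz := ∑ i : Nx g, ∑ j : Nx g, 2 * φ (Bx a i j) * (φ X ^ nu i * z ^ nu j))
    (bxt := ∑ i : Nx g, ∑ j : Nx g, 2 * φ (Bx a i j) * (x ^ nu i * φ X ^ nu j))
    (b' := ∑ i : Nx g, ∑ j : Nx g, 2 * φ (derivative (Bx a i j)) * (x ^ nu i * z ^ nu j))
    (gx := ∑ i : Nx g, ∑ j : Nx g, 2 * φ ((Gx a * Bx a) i j) * (x ^ nu i * z ^ nu j))
    (gz := ∑ i : Nx g, ∑ j : Nx g, 2 * φ ((Bx a * (Gx a)ᵀ) i j) * (x ^ nu i * z ^ nu j))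
    h20 hxt hzt hxz
    (by rw [hB, gen_B φ (FF a) hdeg x z, edFF, edFF, eFF, eFF])
    (by
      rw [hdB, gen_B φ (-fx a) hdegf x z, derivative_neg, eval₂_neg, eval₂_neg, eval₂_neg,
        eval₂_neg]
      ring)
    (by
      rw [hB, gen_B φ (FF a) hdeg (φ X) z, edFF, edFF, eFF, eFF, eft]
      ring)
    (by
      rw [hB, gen_B φ (FF a) hdeg x (φ X), edFF, edFF, eFF, eFF, eft]
      ring)
    (by
      rw [F8_gx, Finset.mul_sum, Finset.mul_sum, Finset.sum_mul, Finset.mul_sum,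
        Finset.sum_mul, ← Finset.sum_add_distrib, ← Finset.sum_sub_distrib]
      refine Finset.sum_congr rfl fun s _ => ?_
      rw [← mul_assoc, gen_G a hg h2 φ x s]
      have e1 : ∀ u : S, ∑ j : Nx g, 2 * φ (Bx a s j) * (u ^ nu s * z ^ nu j) =
          u ^ nu s * ∑ m : Nx g, (2 * φ (Bx a s m)) * z ^ nu m := by
        intro u
        rw [Finset.mul_sum]
        refine Finset.sum_congr rfl fun m _ => ?_
        ring
      rw [e1, e1]
      ring)
    (by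
      have e0 : ∀ u v : S, ∑ i : Nx g, ∑ j : Nx g, 2 * φ (Bx a i j) * (u ^ nu i * v ^ nu j) =
          ∑ s : Nx g, v ^ nu s * ∑ m : Nx g, (2 * φ (Bx a m s)) * u ^ nu m := by
        intro u v
        rw [Finset.sum_comm]
        refine Finset.sum_congr rfl fun s _ => ?_
        rw [Finset.mul_sum]
        refine Finset.sum_congr rfl fun m _ => ?_
        ring
      rw [F8_gz, e0, e0, Finset.mul_sum, Finset.mul_sum, Finset.sum_mul, Finset.mul_sum,
        Finset.sum_mul, ← Finset.sum_add_distrib, ← Finset.sum_sub_distrib]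
      refine Finset.sum_congr rfl fun s _ => ?_
      rw [← mul_assoc, gen_G a hg h2 φ z s]
      ring)
  refine mul_left_cancel₀ h20 ?_
  rw [mul_zero, ← key, Finset.mul_sum, Finset.mul_sum, ← Finset.sum_add_distrib,
    ← Finset.sum_add_distrib]
  refine Finset.sum_congr rfl fun i _ => ?_
  rw [Finset.mul_sum, Finset.mul_sum, ← Finset.sum_add_distrib, ← Finset.sum_add_distrib]
  refine Finset.sum_congr rfl fun j _ => ?_
  rw [Matrix.add_apply, Matrix.add_apply, map_add, map_add, Matrix.smul_apply, Matrix.map_apply,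
    smul_eq_mul, map_mul]
  ring

/-- THE FORM IS HORIZONTAL. PROOF. `gen_zero` for the matrix; `S = k[X][X][X]`, `φ = C.comp C`, `x = C X`, `z = X`, `t = C (C X) = φ X`. Put
`fX = (fx a).eval₂ φ x`, `dfx = (derivative (fx a)).eval₂ φ x`, `fz`, `dfz` the same at `z`, `ft = φ (ff a)`,
`b = 2 ∑∑ φ (Bx i j) x ^ i z ^ j`, `b' = 2 ∑∑ φ (derivative (Bx i j)) x ^ i z ^ j`, `btz`, `bxt` = `b` with `x`, resp. `z`, replaced by `t`,
`gx = 2 ∑∑ φ ((Gx * Bx) l m) x ^ l z ^ m = ∑_j (∑_l φ (Gx l j) x ^ l) (2 ∑_m φ (Bx j m) z ^ m)`, `gz` = the same for `Bx * (Gx)ᵀ`. Then `rat_id` gives the result (times `2`):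
`h1`, `h3`, `h4` = `gen_B` for `P = FF a` at `(x, z)`, `(t, z)`, `(x, t)` (`2 φ (Bx i j) = (nu i - nu j) φ (F_(..))`, `FF = (X - C X) * fx`, its derivative is
`fx + (X - C X) * derivative fx`, `(fx a).eval₂ φ (φ X) = φ (ff a)`); `h2` = `gen_B` for `P = -fx a` (`FF_coeff`: the derivative of `F_(n + 1)` is `- f_(n + 1)`);
`hgx`, `hgz` = `gen_G` at `x` and at `z`, multiplied by `2 ∑_m φ (Bx j m) z ^ m`, resp. `2 ∑_i φ (Bx i m) x ^ i`, and summed. -/
theorem hor_Bx (hg : 0 < g) (h2 : (2 : k) ≠ 0) :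
    ff a • (Bx a).map derivative + Gx a * Bx a + Bx a * (Gx a)ᵀ = 0 := by
  refine gen_zero _ ?_
  have h4 : (2 : k[X][X][X]) ≠ 0 := by
    have h5 : (2 : k[X][X][X]) = C (C (C (2 : k))) := by
      rw [show (C (2 : k) : k[X]) = 2 from map_ofNat C 2,
        show (C (2 : k[X]) : k[X][X]) = 2 from map_ofNat C 2,
        show (C (2 : k[X][X]) : k[X][X][X]) = 2 from map_ofNat C 2]
    rw [h5]
    exact C_ne_zero.mpr (C_ne_zero.mpr (C_ne_zero.mpr h2))
  have h6 : (C X : k[X][X][X]) ≠ C (C X) := fun h => X_ne_C (X : k[X]) (C_injective h)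
  have h7 : (X : k[X][X][X]) ≠ C (C X) := X_ne_C _
  have h8 : (C X : k[X][X][X]) ≠ X := (X_ne_C _).symm
  have hφ : ∀ q : k[X], ((C : k[X][X] →+* k[X][X][X]).comp (C : k[X] →+* k[X][X])) q =
      C (C q) := fun q => RingHom.comp_apply _ _ _
  have h9 := F8_main (S := k[X][X][X]) a hg h2
    ((C : k[X][X] →+* k[X][X][X]).comp (C : k[X] →+* k[X][X])) (C X) X h4
    (by rw [hφ]; exact h6) (by rw [hφ]; exact h7) h8
  simp only [hφ] at h9
  exact h9

end MPadcOA
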