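import Pool.Agent.Lib.MP_adc574_ag_OA.F6
import Pool.Agent.Lib.MP_adc574_ag_OA.F8
import Pool.Agent.Lib.MP_adc574_ag_OA.F10
import Pool.Agent.Lib.MP_adc574_ag_OA.F11
import Pool.Agent.Lib.MP_adc574_ag_OA.F12

/-!
# Block F, assembly: the symplectic system of the pencil `y² = (x - t) ∏ (x - a j)`
-/

set_option autoImplicit false

namespace MPadcOA

open Polynomial Matrix

section general

variable {k : Type*} [Field k]

private theorem der_mul {m n o : Type*} [Fintype n] (M : Matrix m n k[X]) (N : Matrix n o k[X]) :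
    (M * N).map derivative = M.map derivative * N + M * N.map derivative := by
  refine Matrix.ext fun i j => ?_
  rw [Matrix.map_apply, Matrix.mul_apply, Matrix.add_apply, Matrix.mul_apply, Matrix.mul_apply,
    derivative_sum, ← Finset.sum_add_distrib]
  refine Finset.sum_congr rfl fun s _ => ?_
  rw [derivative_mul, Matrix.map_apply, Matrix.map_apply]

private theorem der_vecMul {n o : Type*} [Fintype n] (v : n → k[X]) (N : Matrix n o k[X]) (l : o) :
    derivative ((v ᵥ* N) l) = ((fun s => derivative (v s)) ᵥ* N) l + (v ᵥ* N.map derivative) l := by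
  show derivative (∑ s, v s * N s l) = ∑ s, derivative (v s) * N s l + ∑ s, v s * N.map derivative s l
  rw [derivative_sum, ← Finset.sum_add_distrib]
  refine Finset.sum_congr rfl fun s _ => ?_
  rw [derivative_mul, Matrix.map_apply]

private theorem natDegree_mul {m n o : Type*} [Fintype n] (M : Matrix m n k[X]) (N : Matrix n o k[X]) {d e : ℕ}
    (hM : ∀ i j, (M i j).natDegree ≤ d) (hN : ∀ i j, (N i j).natDegree ≤ e) (i : m) (j : o) :
    ((M * N) i j).natDegree ≤ d + e := by
  rw [Matrix.mul_apply]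
  exact natDegree_sum_le_of_forall_le _ _ fun s _ =>
    natDegree_mul_le.trans (add_le_add (hM i s) (hN s j))

private theorem symp_aux {R n : Type*} [CommRing R] [Fintype n] [DecidableEq n] (P Q G B J P' M : Matrix n n R) (f : R)
    (hQP : Q * P = 1) (hM : M = G * P + f • P') (hB : P * J * Pᵀ = B)
    (h : f • (P' * J * Pᵀ + P * J * P'ᵀ) + G * B + B * Gᵀ = 0) :
    Q * M * J + J * (Q * M)ᵀ = 0 := by
  have e1 : M * J * Pᵀ + P * J * Mᵀ = 0 := by
    rw [← h, hM, ← hB, Matrix.transpose_add, Matrix.transpose_mul, Matrix.transpose_smul]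
    simp only [Matrix.add_mul, Matrix.mul_add, smul_add, Matrix.smul_mul, Matrix.mul_smul, Matrix.mul_assoc]
    abel
  have e5 : Pᵀ * Qᵀ = 1 := by
    rw [← Matrix.transpose_mul, hQP, Matrix.transpose_one]
  have e4 : Q * M * J + J * (Q * M)ᵀ = Q * (M * J * Pᵀ + P * J * Mᵀ) * Qᵀ := by
    have e6 : Q * (M * J * Pᵀ) * Qᵀ = Q * M * J := by
      simp only [Matrix.mul_assoc]
      rw [e5, Matrix.mul_one]
    have e7 : Q * (P * J * Mᵀ) * Qᵀ = J * (Q * M)ᵀ := by
      rw [Matrix.transpose_mul, ← Matrix.mul_assoc Q, ← Matrix.mul_assoc Q, hQP, Matrix.one_mul, Matrix.mul_assoc]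
    rw [Matrix.mul_add, Matrix.add_mul, e6, e7]
  rw [e4, e1, Matrix.mul_zero, Matrix.zero_mul]

private theorem nil_aux {R n : Type*} [CommRing R] [Fintype n] [DecidableEq n] (P Q : Matrix n n R) (r v : n → R)
    (hPQ : P * Q = 1) (h : v ⬝ᵥ r = 0) :
    Q * (vecMulVec r v * P) * (Q * (vecMulVec r v * P)) = 0 := by
  have e1 : vecMulVec r v * P * (Q * (vecMulVec r v * P)) = 0 := by
    rw [Matrix.mul_assoc, ← Matrix.mul_assoc P Q, hPQ, Matrix.one_mul, ← Matrix.mul_assoc,
      Matrix.vecMulVec_mul_vecMulVec, h]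
    simp
  rw [Matrix.mul_assoc, e1, Matrix.mul_zero]

end general

variable {k : Type*} [Field k] {g : ℕ} (p : ℕ) (a : Fin (2 * g) → k)

/-- The values of a polynomial of degree `< 2 g` as a sum over the coordinates. -/
theorem eval_nu (q : k[X]) (hq : q.natDegree < 2 * g) (α : k) :
    ∑ s : Nx g, q.coeff (nu s) * α ^ nu s = q.eval α := by
  rw [eval_eq_sum_range' hq, nu_sum (fun j => q.coeff j * α ^ j)]

/-- The inverse of the symplectic basis. -/
noncomputable def Qx : Matrix (Nx g) (Nx g) k[X] := (Px a)⁻¹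

/-- The symplectic system of the pencil. -/
noncomputable def famD : Dat g k where
  a := a
  G := Qx a * (Gx a * Px a + ff a • (Px a).map derivative)
  U := Ux p a * Px a
  w := wx p a ᵥ* Px a

theorem Qx_spec {p : ℕ} [CharP k p] (hp : p.Prime) (hp2 : 2 < p) (hpg : 2 * g < p) :
    Px a * Qx a = 1 ∧ Qx a * Px a = 1 ∧ ∀ i j, (Qx a i j).natDegree ≤ Fintype.card (Nx g) * 1 := by
  obtain ⟨Q, h1, h2, h3⟩ := exists_inv (Px a) (Px_natDegree a) (Px_unit a hp hp2 hpg)
  have e1 : Qx a = Q := Matrix.inv_eq_right_inv h1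
  rw [e1]
  exact ⟨h1, h2, h3⟩

/-- The properties of the system. -/
theorem famD_spec [CharP k p] (hg : 0 < g) (hp : p.Prime) (hpp : 4 * g + 5 ≤ p) (ha : Function.Injective a) :
    (famD p a).Ok p (4 * g + 4) ∧ (∀ i l, ((famD p a).U i l).natDegree ≤ p) ∧
      ∀ τ : k, fst ((famD p a).U.map (eval τ)) =
        MPadcCC.hw p (g + 1) (((X - C τ) * ∏ j, (X - C (a j))) ^ ((p - 1) / 2)) := by
  have hp2 : 2 < p := by omega
  have hpg : 2 * g < p := by omega
  have hodd : p % 2 = 1 := by
    rcases hp.eq_two_or_odd with h | h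
    · omega
    · exact h
  have h2 : (2 : k) ≠ 0 := by
    intro h
    have h1 : ((2 : ℕ) : k) = 0 := by exact_mod_cast h
    rw [CharP.cast_eq_zero_iff k p] at h1
    exact absurd (Nat.le_of_dvd two_pos h1) (by omega)
  obtain ⟨Q, hQ⟩ : ∃ Q, Q = Qx a := ⟨_, rfl⟩
  obtain ⟨hPQ, hQP, hQd⟩ := Qx_spec a hp hp2 hpg
  rw [← hQ] at hPQ hQP hQd
  have hcard : Fintype.card (Nx g) = 2 * g := by
    rw [Fintype.card_sum, Fintype.card_fin, two_mul]
  rw [hcard, mul_one] at hQd
  obtain ⟨P, hP⟩ : ∃ P, P = Px a := ⟨_, rfl⟩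
  obtain ⟨M, hM⟩ : ∃ M, M = Gx a * P + ff a • P.map derivative := ⟨_, rfl⟩
  have hPd : ∀ i j, (P i j).natDegree ≤ 1 := fun i j => by
    rw [hP]
    exact Px_natDegree a i j
  rw [← hP] at hPQ hQP
  have hB : P * JJ g k[X] * Pᵀ = Bx a := by
    rw [hP]
    exact Px_JJ a h2
  have hUd : ∀ i s, (Ux p a i s).natDegree ≤ (p - 1) / 2 := fun i s => AA_coeff_natDegree p a _
  have hUx : ff a • (Ux p a).map derivative = Ux p a * Gx a := by
    ext1 i s
    exact hor_Ux p a hp hg hpg i s
  have hUM : ff a • (Ux p a * P).map derivative = Ux p a * P * (Q * M) := by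
    rw [der_mul, smul_add, ← Matrix.smul_mul, hUx, ← Matrix.mul_smul, Matrix.mul_assoc, ← Matrix.mul_add,
      ← hM, Matrix.mul_assoc, ← Matrix.mul_assoc P Q M, hPQ, Matrix.one_mul]
  have hwM : ∀ l, ff a * derivative ((wx p a ᵥ* P) l) = ((wx p a ᵥ* P) ᵥ* (Q * M)) l := by
    intro l
    have e1 : (wx p a ᵥ* P) ᵥ* (Q * M) = (wx p a ᵥ* Gx a) ᵥ* P + wx p a ᵥ* (ff a • P.map derivative) := by
      rw [Matrix.vecMul_vecMul, ← Matrix.mul_assoc, hPQ, Matrix.one_mul, hM, Matrix.vecMul_add,
        Matrix.vecMul_vecMul]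
    rw [e1, der_vecMul, mul_add, Pi.add_apply]
    congr 1
    · show ff a * ∑ s, derivative (wx p a s) * P s l = ∑ s, (wx p a ᵥ* Gx a) s * P s l
      rw [Finset.mul_sum]
      refine Finset.sum_congr rfl fun s _ => ?_
      rw [← mul_assoc, hor_wx p a hp hg hpg]
    · show ff a * ∑ s, wx p a s * P.map derivative s l = ∑ s, wx p a s * (ff a • P.map derivative) s l
      rw [Finset.mul_sum]
      refine Finset.sum_congr rfl fun s _ => ?_
      rw [Matrix.smul_apply, smul_eq_mul, mul_left_comm]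
  have hder1 : ∀ i j, ((P.map derivative) i j).natDegree ≤ 1 := fun i j => by
    rw [Matrix.map_apply]
    exact (natDegree_derivative_le _).trans (by have := hPd i j; omega)
  have hMd : ∀ i j, (M i j).natDegree ≤ 2 * g + 1 := by
    intro i j
    rw [hM, Matrix.add_apply]
    refine natDegree_add_le_of_degree_le ?_ ?_
    · refine (natDegree_mul (Gx a) P (d := 2 * g - 1) (e := 1) (Gx_natDegree a) hPd i j).trans (by omega)
    · rw [Matrix.smul_apply, smul_eq_mul]
      refine natDegree_mul_le.trans (add_le_add (ff_natDegree a).le (hder1 i j))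
  have hGd : ∀ i j, ((Q * M) i j).natDegree ≤ 4 * g + 4 := fun i j =>
    (natDegree_mul Q M hQd hMd i j).trans (by omega)
  -- the values at a singular point
  have hmapQM : ∀ j, (Q * M).map (eval (a j)) =
      Q.map (eval (a j)) * (vecMulVec (fun l => (rr a j).coeff (nu l)) (fun s => a j ^ nu s) *
        P.map (eval (a j))) := by
    intro j
    have e1 : ∀ {m n o : Type} [Fintype n] (X Y : Matrix m n k[X]) (Z : Matrix n o k[X]),
        (X * Z).map (eval (a j)) = X.map (eval (a j)) * Z.map (eval (a j)) := by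
      intro m n o _ X _ Z
      exact Matrix.map_mul (f := evalRingHom (a j))
    rw [e1 Q Q M]
    congr 1
    ext l s
    rw [Matrix.map_apply, hM, Matrix.add_apply, Matrix.smul_apply, smul_eq_mul, eval_add, eval_mul,
      ff_eval, zero_mul, add_zero, Matrix.mul_apply, Matrix.mul_apply, eval_finsetSum]
    refine Finset.sum_congr rfl fun m _ => ?_
    rw [eval_mul, Gx_eval, Matrix.map_apply]
    rfl
  have hPQe : ∀ α : k, P.map (eval α) * Q.map (eval α) = 1 := by
    intro α
    have e1 : (P * Q).map (evalRingHom α) = P.map (evalRingHom α) * Q.map (evalRingHom α) :=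
      Matrix.map_mul
    rw [hPQ, Matrix.map_one _ (map_zero _) (map_one _)] at e1
    exact e1.symm
  have hQPe : ∀ α : k, Q.map (eval α) * P.map (eval α) = 1 := by
    intro α
    have e1 : (Q * P).map (evalRingHom α) = Q.map (evalRingHom α) * P.map (evalRingHom α) :=
      Matrix.map_mul
    rw [hQP, Matrix.map_one _ (map_zero _) (map_one _)] at e1
    exact e1.symm
  have hD : famD p a = ⟨a, Q * M, Ux p a * P, wx p a ᵥ* P⟩ := by
    rw [hM, hP, hQ]
    rfl
  rw [hD]
  refine ⟨⟨ha, hGd, ?_, ?_, ?_, ?_, ?_, hwM, ?_, ?_, ?_⟩, ?_, ?_⟩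
  · -- symplectic
    have e0 : (JJ g k[X]).map derivative = 0 := by
      ext i j
      rcases i with i | i <;> rcases j with j | j <;>
        simp [JJ, Matrix.fromBlocks, Matrix.one_apply, apply_ite]
    have e2 := hor_Bx a hg h2
    have e3 : (Bx a).map derivative = P.map derivative * JJ g k[X] * Pᵀ + P * JJ g k[X] * (P.map derivative)ᵀ := by
      rw [← hB, der_mul, der_mul, e0, Matrix.mul_zero, add_zero]
      rfl
    rw [e3] at e2
    exact symp_aux P Q (Gx a) (Bx a) (JJ g k[X]) (P.map derivative) M (ff a) hQP hM hB e2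
  · -- nilpotent
    intro j
    show (Q * M).map (eval (a j)) * (Q * M).map (eval (a j)) = 0
    have e2 : (fun s : Nx g => a j ^ nu s) ⬝ᵥ (fun l => (rr a j).coeff (nu l)) = 0 := by
      rw [← rr_eval a j, ← eval_nu (rr a j) (rr_natDegree a hg j)]
      exact Finset.sum_congr rfl fun s _ => mul_comm _ _
    rw [hmapQM]
    exact nil_aux _ _ _ _ (hPQe (a j)) e2
  · -- horU
    intro i l
    have e1 := congrFun (congrFun hUM i) l
    exact e1
  · -- isotropic
    show Ux p a * P * JJ g k[X] * (Ux p a * P)ᵀ = 0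
    rw [Matrix.transpose_mul, Matrix.mul_assoc (Ux p a), Matrix.mul_assoc (Ux p a), ← Matrix.mul_assoc (P * JJ g k[X]),
      hB, ← Matrix.mul_assoc, iso_Ux p a hp hg hpg]
  · -- rank
    intro α hα
    have e1 := rank_Ux hp hp2 hpg a ha α hα
    have e2 : (fun i l => ((Ux p a * P) i l).eval α) =
        (Matrix.vecMulLinear (P.map (eval α))) ∘ fun κ s => (Ux p a κ s).eval α := by
      funext i l
      show ((Ux p a * P) i l).eval α = ∑ s, (Ux p a i s).eval α * (P.map (eval α)) s l
      rw [Matrix.mul_apply, eval_finsetSum]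
      exact Finset.sum_congr rfl fun s _ => eval_mul
    show LinearIndependent k fun i l => ((Ux p a * P) i l).eval α
    rw [e2]
    refine e1.map' _ ?_
    rw [LinearMap.ker_eq_bot]
    intro u v huv
    have e3 : u ᵥ* P.map (eval α) = v ᵥ* P.map (eval α) := huv
    have e4 := congrArg (fun q => q ᵥ* Q.map (eval α)) e3
    simp only [Matrix.vecMul_vecMul, hPQe, Matrix.vecMul_one] at e4
    exact e4
  · -- degree of w
    intro l
    show 2 * ((wx p a ᵥ* P) l).natDegree ≤ (2 * g - 1) * p + (4 * g + 4)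
    have e1 : ((wx p a ᵥ* P) l).natDegree ≤ p * (g - 1) + (p - 1) / 2 + 1 := by
      show (∑ s, wx p a s * P s l).natDegree ≤ _
      exact natDegree_sum_le_of_forall_le _ _ fun s _ =>
        natDegree_mul_le.trans (add_le_add (wx_natDegree p a s) (hPd s l))
    obtain ⟨q, rfl⟩ : ∃ q, g = q + 1 := ⟨g - 1, by omega⟩
    have e2 : 2 * (q + 1) - 1 = 2 * q + 1 := by omega
    rw [e2]
    rw [Nat.add_sub_cancel] at e1
    have e3 : (2 * q + 1) * p = 2 * (p * q) + p := by ring
    rw [e3]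
    omega
  · -- residue
    intro j
    show ∃ s : k, ∀ l l', ((JJ g k) *ᵥ fun n => ((wx p a ᵥ* P) n).eval (a j)) l *
      ((wx p a ᵥ* P) l').eval (a j) = s * (((Q * M) l l').eval (a j))
    obtain ⟨σ, hσ⟩ : ∃ σ, σ = (derivative (ff a)).eval (a j) ^ ((p - 1) / 2) := ⟨_, rfl⟩
    obtain ⟨v, hv⟩ : ∃ v : Nx g → k, v = fun s => a j ^ nu s := ⟨_, rfl⟩
    obtain ⟨r, hr⟩ : ∃ r : Nx g → k, r = fun l => (rr a j).coeff (nu l) := ⟨_, rfl⟩
    have hw : (fun n => ((wx p a ᵥ* P) n).eval (a j)) = σ • (v ᵥ* P.map (eval (a j))) := by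
      funext n
      show (∑ s, wx p a s * P s n).eval (a j) = σ • ∑ s, v s * (P.map (eval (a j))) s n
      rw [eval_finsetSum, Finset.smul_sum]
      refine Finset.sum_congr rfl fun s _ => ?_
      rw [eval_mul, wx_eval p a hp hg hpg hp2, ← hσ, hv, smul_eq_mul, Matrix.map_apply]
      ring
    have hJ : JJ g k * (P.map (eval (a j)))ᵀ = Q.map (eval (a j)) * (Bx a).map (eval (a j)) := by
      have e1 : (P * JJ g k[X] * Pᵀ).map (evalRingHom (a j)) =
          P.map (evalRingHom (a j)) * (JJ g k[X]).map (evalRingHom (a j)) * (P.map (evalRingHom (a j)))ᵀ := by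
        rw [Matrix.map_mul, Matrix.map_mul]
        rfl
      have e2 : (JJ g k[X]).map (evalRingHom (a j)) = JJ g k := by
        ext i l
        rcases i with i | i <;> rcases l with l | l <;>
          simp [JJ, Matrix.fromBlocks, Matrix.one_apply, apply_ite]
      rw [hB, e2] at e1
      have e3 : (Bx a).map (eval (a j)) = P.map (eval (a j)) * JJ g k * (P.map (eval (a j)))ᵀ := e1
      rw [e3, ← Matrix.mul_assoc, ← Matrix.mul_assoc, hQPe, Matrix.one_mul]
    have hBv : (Bx a).map (eval (a j)) *ᵥ v = r := by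
      funext i
      rw [hv, hr]
      exact Bx_eval a h2 j i
    refine ⟨σ * σ, fun l l' => ?_⟩
    have e1 : (JJ g k) *ᵥ (σ • (v ᵥ* P.map (eval (a j)))) = σ • (Q.map (eval (a j)) *ᵥ r) := by
      rw [Matrix.mulVec_smul, ← Matrix.mulVec_transpose, Matrix.mulVec_mulVec, hJ, ← Matrix.mulVec_mulVec, hBv]
    have e2 : ((wx p a ᵥ* P) l').eval (a j) = σ * (v ᵥ* P.map (eval (a j))) l' := congrFun hw l'
    have e3 : ((Q * M) l l').eval (a j) = (Q.map (eval (a j)) *ᵥ r) l * (v ᵥ* P.map (eval (a j))) l' := by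
      have e4 := congrFun (congrFun (hmapQM j) l) l'
      rw [← hv, ← hr, Matrix.vecMulVec_mul, Matrix.mul_vecMulVec] at e4
      exact e4
    rw [hw, e1, e2, e3, Pi.smul_apply, smul_eq_mul]
    ring
  · -- independence
    intro b hb hbd
    have hb' : ∑ l, (wx p a ᵥ* P) l * b l = 0 := hb
    have e1 : ∑ s, wx p a s * (P *ᵥ b) s = 0 := by
      have e2 : wx p a ⬝ᵥ (P *ᵥ b) = (wx p a ᵥ* P) ⬝ᵥ b := Matrix.dotProduct_mulVec _ _ _
      exact e2.trans hb'
    have e3 : ∀ s, ((P *ᵥ b) s).natDegree ≤ (p - (4 * g + 4)) / 2 + 1 := by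
      intro s
      show (∑ l, P s l * b l).natDegree ≤ _
      refine natDegree_sum_le_of_forall_le _ _ fun l _ => ?_
      refine natDegree_mul_le.trans ?_
      have h3 := hPd s l
      have h4 := hbd l
      omega
    have e4 := irr_x p a hp hg hpg hp2 ha ((p - (4 * g + 4)) / 2 + 1) (by omega) (P *ᵥ b) e1 e3
    have e5 := congrArg (fun q => Q *ᵥ q) e4
    simp only [Matrix.mulVec_mulVec, hQP, Matrix.one_mulVec, Matrix.mulVec_zero] at e5
    exact e5
  · -- degree of U
    intro i l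
    exact (natDegree_mul (Ux p a) P hUd hPd i l).trans (by omega)
  · -- Hasse-Witt
    intro τ
    ext i j
    show ((Ux p a * P) i (Sum.inl j)).eval τ = _
    have e1 : (Ux p a * P) i (Sum.inl j) = Ux p a i (Sum.inl j) := by
      have e2 : ∀ s, P s (Sum.inl j) = if s = Sum.inl j then 1 else 0 := by
        intro s
        rw [hP]
        rcases s with s | s
        · simp [Px, Matrix.one_apply]
        · simp [Px]
      rw [Matrix.mul_apply, Finset.sum_eq_single (Sum.inl j)]
      · rw [e2, if_pos rfl, mul_one]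
      · intro s _ hs
        rw [e2, if_neg hs, mul_zero]
      · intro h
        exact absurd (Finset.mem_univ _) h
    rw [e1, ← AA_map p a τ]
    show ((AA p a).coeff _).eval τ = ((AA p a).map (evalRingHom τ)).coeff _
    rw [coeff_map]
    rfl

/-- Block F. -/
theorem fam (g : ℕ) (hg : 0 < g) : ∃ c p₀ : ℕ, ∀ p : ℕ, p.Prime → p₀ ≤ p →
    ∀ (k : Type) [Field k] [CharP k p] (a : Fin (2 * g) → k), Function.Injective a →
    ∃ D : Dat g k, D.a = a ∧ D.Ok p c ∧ (∀ i l, (D.U i l).natDegree ≤ p) ∧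
      ∀ τ : k, fst (D.U.map (eval τ)) =
        MPadcCC.hw p (g + 1) (((X - C τ) * ∏ j, (X - C (a j))) ^ ((p - 1) / 2)) :=
  ⟨4 * g + 4, 4 * g + 5, fun p hp hpp _ _ _ a ha =>
    ⟨famD p a, rfl, famD_spec p a hg hp hpp ha⟩⟩

end MPadcOA
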