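import Pool.Agent.Lib.MP_adc574_ag_OA.F1

/-!
# Block F, leaf F2a: the polynomial f
-/

set_option autoImplicit false

namespace MPadcOA

open Polynomial Matrix

variable {k : Type*} [Field k] {g : ℕ} (a : Fin (2 * g) → k)

/-- PROOF. `monic_prod_of_monic`, `monic_X_sub_C`. -/
theorem ff_monic : (ff a).Monic := by
  exact monic_prod_of_monic _ _ fun j _ => monic_X_sub_C (a j)

/-- PROOF. `natDegree_prod_of_monic`, `natDegree_X_sub_C`. -/
theorem ff_natDegree : (ff a).natDegree = 2 * g := by
  unfold ff
  rw [natDegree_prod_of_monic _ _ fun j _ => monic_X_sub_C (a j)]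
  simp

/-- PROOF. `eval_prod`, `Finset.prod_eq_zero`. -/
theorem ff_eval (j : Fin (2 * g)) : (ff a).eval (a j) = 0 := by
  unfold ff
  rw [eval_prod]
  exact Finset.prod_eq_zero (Finset.mem_univ j) (by simp)

/-- PROOF. `Polynomial.derivative_prod` evaluated at `a j`: only one term stays, a product of `a j - a i ≠ 0`; or `Separable.eval₂_derivative_ne_zero`
with `separable_prod_X_sub_C_iff`. -/
theorem ff_deriv (ha : Function.Injective a) (j : Fin (2 * g)) :
    (derivative (ff a)).eval (a j) ≠ 0 := by
  have hs : (ff a).Separable := separable_prod_X_sub_C_iff.mpr ha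
  have h1 := hs.eval₂_derivative_ne_zero (RingHom.id k) (x := a j)
    (by simpa using ff_eval a j)
  simpa using h1

/-- PROOF. `f = (x - a j) h`, the derivative at `a j` is `h (a j)` (`mul_divByMonic_eq_iff_isRoot`, `ff_eval`). -/
theorem ff_div (j : Fin (2 * g)) :
    (X - C (a j)) * (ff a /ₘ (X - C (a j))) = ff a ∧
      (ff a /ₘ (X - C (a j))).eval (a j) = (derivative (ff a)).eval (a j) ∧
      (ff a /ₘ (X - C (a j))).natDegree = 2 * g - 1 := by
  have h1 : (X - C (a j)) * (ff a /ₘ (X - C (a j))) = ff a :=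
    mul_divByMonic_eq_iff_isRoot.mpr (ff_eval a j)
  refine ⟨h1, ?_, ?_⟩
  · have h2 := congrArg (fun q => (derivative q).eval (a j)) h1
    simp only [derivative_mul, derivative_sub, derivative_X, derivative_C, sub_zero, one_mul,
      eval_add, eval_mul, eval_sub, eval_X, eval_C, sub_self, zero_mul, add_zero] at h2
    exact h2
  · rw [natDegree_divByMonic _ (monic_X_sub_C _), ff_natDegree, natDegree_X_sub_C]

/-- PROOF. A polynomial with the `2 g` different zeros `a j` is divisible by the product: `Finset.prod_dvd_of_coprime`,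
`pairwise_coprime_X_sub_C`, `dvd_iff_isRoot`. -/
theorem ff_dvd (ha : Function.Injective a) (q : k[X]) (hq : ∀ j, q.eval (a j) = 0) : ff a ∣ q := by
  unfold ff
  exact Finset.prod_dvd_of_coprime (fun i _ j _ hij => pairwise_coprime_X_sub_C ha hij)
    fun j _ => dvd_iff_isRoot.mpr (hq j)

/-- PROOF. `ff_monic`, `Monic.map`, `natDegree_map_eq_of_injective`. -/
theorem fx_monic : (fx a).Monic ∧ (fx a).natDegree = 2 * g := by
  refine ⟨(ff_monic a).map C, ?_⟩
  rw [fx, natDegree_map_eq_of_injective C_injective, ff_natDegree]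

end MPadcOA
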