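import Pool.Agent.Lib.MP_adc574_ag_OA.F3a

/-!
# Block F, leaf F3: degrees in t
-/

set_option autoImplicit false

namespace MPadcOA

open Polynomial Matrix

variable {k : Type*} [Field k] {g : ℕ} (a : Fin (2 * g) → k)

/-- PROOF. From `qq_coeff`: for `l < j` the degree is at most `j - 1`; for `l ≥ j` at most `j + 2 g - l - 1 ≤ 2 g - 1`. -/
theorem qq_coeff_natDegree {j : ℕ} (hj : j < 2 * g) (l : ℕ) :
    ((qq a j).coeff l).natDegree ≤ 2 * g - 1 := by
  rw [qq_coeff]
  split_ifs with h
  · refine le_trans natDegree_mul_le ?_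
    have h1 : (X ^ (j - l - 1) : k[X]).natDegree ≤ j - l - 1 := natDegree_X_pow_le _
    have h2 : (∑ i ∈ Finset.range (l + 1), C ((ff a).coeff i) * X ^ i).natDegree ≤ l := by
      refine natDegree_sum_le_of_forall_le _ _ fun i hi => ?_
      rw [Finset.mem_range] at hi
      exact le_trans (natDegree_C_mul_X_pow_le _ _) (by omega)
    omega
  · rw [natDegree_neg]
    refine le_trans natDegree_mul_le ?_
    have h1 : (X ^ j : k[X]).natDegree ≤ j := natDegree_X_pow_le _
    have h2 : (∑ i ∈ Finset.Icc (l + 1) (2 * g), C ((ff a).coeff i) * X ^ (i - l - 1)).natDegree ≤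
        2 * g - l - 1 := by
      refine natDegree_sum_le_of_forall_le _ _ fun i hi => ?_
      rw [Finset.mem_Icc] at hi
      exact le_trans (natDegree_C_mul_X_pow_le _ _) (by omega)
    omega

/-- PROOF. From `qq_coeff`: the degree `2 g - 1` occurs only for `l = j`, `i = 2 g`, with the coefficient `- f_(2 g) = - 1`. -/
theorem qq_coeff_top {j l : ℕ} (hj : j < 2 * g) (hl : l < 2 * g) :
    ((qq a j).coeff l).coeff (2 * g - 1) = if l = j then -1 else 0 := by
  rw [qq_coeff]
  split_ifs with h h' h'
  · omega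
  · refine coeff_eq_zero_of_natDegree_lt ?_
    have h0 : (X ^ (j - l - 1) * ∑ i ∈ Finset.range (l + 1), C ((ff a).coeff i) * X ^ i).natDegree ≤
        j - l - 1 + l := by
      refine le_trans natDegree_mul_le (Nat.add_le_add (natDegree_X_pow_le _) ?_)
      refine natDegree_sum_le_of_forall_le _ _ fun i hi => ?_
      rw [Finset.mem_range] at hi
      exact le_trans (natDegree_C_mul_X_pow_le _ _) (by omega)
    omega
  · subst h'
    rw [coeff_neg, coeff_X_pow_mul', if_pos (by omega), finsetSum_coeff,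
      Finset.sum_eq_single (2 * g)]
    · rw [coeff_C_mul, coeff_X_pow, if_pos (by omega), mul_one]
      have h1 : (ff a).coeff (2 * g) = 1 := by
        have h2 := (ff_monic a).coeff_natDegree
        rwa [ff_natDegree] at h2
      rw [h1]
    · intro i hi hne
      rw [Finset.mem_Icc] at hi
      rw [coeff_C_mul, coeff_X_pow, if_neg (by omega), mul_zero]
    · intro hi
      exact absurd (Finset.mem_Icc.mpr ⟨by omega, le_rfl⟩) hi
  · rw [coeff_neg, coeff_X_pow_mul', if_pos (by omega), finsetSum_coeff,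
      Finset.sum_eq_zero, neg_zero]
    intro i hi
    rw [Finset.mem_Icc] at hi
    rw [coeff_C_mul, coeff_X_pow, if_neg (by omega), mul_zero]

private theorem F3_coeff (l j : ℕ) :
    (C (X ^ j) * derivative (fx a) + qq a j).coeff l =
      X ^ j * C ((derivative (ff a)).coeff l) + (qq a j).coeff l := by
  rw [coeff_add, coeff_C_mul, fx, derivative_map, coeff_map]

/-- PROOF. `coeff_derivative`, `coeff_map`: a constant times `X ^ j`, and `qq_coeff_natDegree`. -/
theorem Gx_natDegree (l j : Nx g) : (Gx a l j).natDegree ≤ 2 * g - 1 := by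
  unfold Gx
  refine le_trans (natDegree_C_mul_le _ _) ?_
  rw [F3_coeff]
  refine le_trans (natDegree_add_le _ _) (max_le ?_ (qq_coeff_natDegree a (nu_lt j) _))
  refine le_trans (natDegree_mul_C_le _ _) (le_trans (natDegree_X_pow_le _) ?_)
  have h := nu_lt j
  omega

/-- The coefficient of degree `2 g - 1`. PROOF. `qq_coeff_top` and `coeff_X_pow`. -/
theorem Gx_top (l j : Nx g) : (Gx a l j).coeff (2 * g - 1) =
    (1 / 2 : k) * ((if nu j = 2 * g - 1 then (derivative (ff a)).coeff (nu l) else 0) -
      if l = j then 1 else 0) := by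
  unfold Gx
  have hj := nu_lt j
  have hl := nu_lt l
  rw [coeff_C_mul, F3_coeff, coeff_add, qq_coeff_top a hj hl, coeff_mul_C, coeff_X_pow]
  have h1 : (nu l = nu j) ↔ l = j := ⟨fun h => nu_injective h, fun h => h ▸ rfl⟩
  have h2 : (2 * g - 1 = nu j) ↔ nu j = 2 * g - 1 := eq_comm
  simp only [h1, h2]
  split_ifs <;> ring

end MPadcOA
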