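import Pool.Agent.Lib.MP_adc574_ag_OA.F2b

/-!
# Block F, leaf F3a: the quotient (f(t) x ^ j - t ^ j f(x)) / (x - t)
-/

set_option autoImplicit false

namespace MPadcOA

open Polynomial Matrix

variable {k : Type*} [Field k] {g : ℕ} (a : Fin (2 * g) → k)

/-- PROOF. `mul_divByMonic_eq_iff_isRoot`: the value at `x = t` of the numerator is `f(t) t ^ j - t ^ j f(t)`; the value of `(ff a).map C` at `X` is
`ff a` (`eval_map`, `eval₂_C_X`). -/
theorem mul_qq (j : ℕ) :
    (X - C X) * qq a j = C (ff a) * X ^ j - C (X ^ j) * fx a := by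
  rw [qq, mul_divByMonic_eq_iff_isRoot, IsRoot.def, eval_sub, eval_mul, eval_mul, eval_C, eval_C,
    eval_pow, eval_X, fx, eval_map, eval₂_C_X]
  ring

/-- PROOF. `natDegree_divByMonic`: the numerator has degree at most `2 g`. -/
theorem qq_natDegree (hg : 0 < g) {j : ℕ} (hj : j < 2 * g) : (qq a j).natDegree < 2 * g := by
  have h1 : (C (ff a) * X ^ j - C (X ^ j) * fx a : k[X][X]).natDegree ≤ 2 * g := by
    refine (natDegree_sub_le _ _).trans (max_le ?_ ?_)
    · exact (natDegree_C_mul_X_pow_le _ _).trans hj.le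
    · exact (natDegree_C_mul_le _ _).trans (fx_monic a).2.le
  have h2 : (qq a j).natDegree = (C (ff a) * X ^ j - C (X ^ j) * fx a : k[X][X]).natDegree - 1 := by
    rw [qq, natDegree_divByMonic _ (monic_X_sub_C _), natDegree_X_sub_C]
  omega

/-- THE COEFFICIENTS. PROOF. `coeff_divByMonic_X_sub_C` or directly: for `l < j` the coefficient `q_l` is
`t ^ (j - l - 1) ∑_{i ≤ l} f_i t ^ i`, for `l ≥ j` it is `- t ^ j ∑_{i > l} f_i t ^ (i - l - 1)`. By decreasing induction on `l` from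
`q_l = (numerator)_(l + 1) + t q_(l + 1)` (`coeff_divByMonic_X_sub_C_rec`); for `l < j` use `∑_{i ≤ 2 g} f_i t ^ i = f(t)`. -/
theorem qq_coeff (j l : ℕ) : (qq a j).coeff l =
    if l < j then X ^ (j - l - 1) * ∑ i ∈ Finset.range (l + 1), C ((ff a).coeff i) * X ^ i
    else -(X ^ j * ∑ i ∈ Finset.Icc (l + 1) (2 * g), C ((ff a).coeff i) * X ^ (i - l - 1)) := by
  obtain ⟨M, hM⟩ : ∃ M, M = j + 2 * g := ⟨_, rfl⟩
  obtain ⟨N, hN⟩ : ∃ N : k[X][X], N = C (ff a) * X ^ j - C (X ^ j) * fx a := ⟨_, rfl⟩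
  have hNd : N.natDegree ≤ M := by
    rw [hN]
    refine (natDegree_sub_le _ _).trans (max_le ?_ ?_)
    · exact (natDegree_C_mul_X_pow_le _ _).trans (by omega)
    · exact (natDegree_C_mul_le _ _).trans ((fx_monic a).2.le.trans (by omega))
  have hNc : ∀ i, N.coeff i = (if i = j then ff a else 0) - X ^ j * C ((ff a).coeff i) := by
    intro i
    rw [hN, coeff_sub, coeff_C_mul, coeff_C_mul, coeff_X_pow, fx, coeff_map]
    split_ifs
    · rw [mul_one]
    · rw [mul_zero]
  have h1 : (qq a j).coeff l = ∑ i ∈ Finset.Icc (l + 1) M, X ^ (i - (l + 1)) * N.coeff i := by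
    rw [qq, ← hN, coeff_divByMonic_X_sub_C]
    refine Finset.sum_subset (Finset.Icc_subset_Icc_right hNd) ?_
    intro i hi hi'
    rw [Finset.mem_Icc] at hi hi'
    rw [coeff_eq_zero_of_natDegree_lt (by omega), mul_zero]
  have h2 : ∑ i ∈ Finset.Icc (l + 1) M, (X : k[X]) ^ (i - (l + 1)) * N.coeff i =
      (if j ∈ Finset.Icc (l + 1) M then X ^ (j - (l + 1)) * ff a else 0) -
        X ^ j * ∑ i ∈ Finset.Icc (l + 1) M, C ((ff a).coeff i) * X ^ (i - l - 1) := by
    rw [← Finset.sum_ite_eq' (Finset.Icc (l + 1) M) j fun i => X ^ (i - (l + 1)) * ff a,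
      Finset.mul_sum, ← Finset.sum_sub_distrib]
    refine Finset.sum_congr rfl fun i _ => ?_
    rw [hNc, Nat.sub_sub]
    split_ifs
    · ring
    · ring
  rw [h1, h2]
  split_ifs with hj hl hl
  · have hlj : j - (l + 1) = j - l - 1 := by omega
    have h3 : ff a = ∑ i ∈ Finset.range (M + 1), C ((ff a).coeff i) * X ^ i :=
      as_sum_range_C_mul_X_pow' (ff a) (by rw [ff_natDegree]; omega)
    have h4 : Finset.Icc (l + 1) M = Finset.Ico (l + 1) (M + 1) := by
      ext i
      rw [Finset.mem_Icc, Finset.mem_Ico]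
      omega
    have h5 : ∑ i ∈ Finset.range (M + 1), C ((ff a).coeff i) * X ^ i =
        ∑ i ∈ Finset.range (l + 1), C ((ff a).coeff i) * X ^ i +
          ∑ i ∈ Finset.Ico (l + 1) (M + 1), C ((ff a).coeff i) * X ^ i :=
      (Finset.sum_range_add_sum_Ico _ (by omega)).symm
    have h6 : (X : k[X]) ^ j * ∑ i ∈ Finset.Icc (l + 1) M, C ((ff a).coeff i) * X ^ (i - l - 1) =
        X ^ (j - l - 1) * ∑ i ∈ Finset.Ico (l + 1) (M + 1), C ((ff a).coeff i) * X ^ i := by
      rw [h4, Finset.mul_sum, Finset.mul_sum]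
      refine Finset.sum_congr rfl fun i hi => ?_
      rw [Finset.mem_Ico] at hi
      have h7 : (X : k[X]) ^ j * X ^ (i - l - 1) = X ^ (j - l - 1) * X ^ i := by
        rw [← pow_add, ← pow_add]
        congr 1
        omega
      calc (X : k[X]) ^ j * (C ((ff a).coeff i) * X ^ (i - l - 1)) =
          C ((ff a).coeff i) * (X ^ j * X ^ (i - l - 1)) := by ring
        _ = C ((ff a).coeff i) * (X ^ (j - l - 1) * X ^ i) := by rw [h7]
        _ = _ := by ring
    rw [h6, hlj]
    have h8 : (X : k[X]) ^ (j - l - 1) * ff a = X ^ (j - l - 1) *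
        (∑ i ∈ Finset.range (l + 1), C ((ff a).coeff i) * X ^ i +
          ∑ i ∈ Finset.Ico (l + 1) (M + 1), C ((ff a).coeff i) * X ^ i) := by
      rw [← h5, ← h3]
    rw [h8]
    ring
  · rw [Finset.mem_Icc] at hj
    omega
  · rw [Finset.mem_Icc] at hj
    omega
  · have h3 : ∑ i ∈ Finset.Icc (l + 1) (2 * g), C ((ff a).coeff i) * X ^ (i - l - 1) =
        ∑ i ∈ Finset.Icc (l + 1) M, C ((ff a).coeff i) * X ^ (i - l - 1) := by
      refine Finset.sum_subset (Finset.Icc_subset_Icc_right (by omega)) ?_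
      intro i hi hi'
      rw [Finset.mem_Icc] at hi hi'
      rw [coeff_eq_zero_of_natDegree_lt (by rw [ff_natDegree]; omega), C_0, zero_mul]
    rw [h3, zero_sub]

end MPadcOA
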