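import Pool.Agent.Lib.MP_adc574_ag_OA.F4a
import Pool.Agent.Lib.MP_adc574_ag_OA.F3a

/-!
# Block F, leaf F4: the identity behind the horizontality
-/

set_option autoImplicit false

namespace MPadcOA

open Polynomial Matrix

variable {k : Type*} [Field k] {g : ℕ} (p : ℕ) (a : Fin (2 * g) → k)

/-- THE IDENTITY. `2 f(t) x ^ j dA/dt = A (t ^ j f' + q_j) - 2 t ^ j d/dx (f A)`. PROOF. Multiply both sides by `x - t` (monic, so not a zero divisor:
`mul_left_cancel₀`, `X_sub_C_ne_zero`). By `dc_AA` the left side becomes `f(t) x ^ j A`. On the right side `(x - t) q_j A = (f(t) x ^ j - t ^ j f) A`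
(`mul_qq`), and `2 (x - t) d/dx (f A) = 2 (x - t) f' A + 2 (x - t) f A' = 2 (x - t) f' A + 2 F A' = 2 (x - t) f' A - (f + (x - t) f') A`
(`deriv_AA`, `F' = f + (x - t) f'`) `= (x - t) f' A - f A`. So the right side is `(x - t) t ^ j f' A + f(t) x ^ j A - t ^ j f A - t ^ j (x - t) f' A + t ^ j f A`.
`linear_combination`. -/
theorem hor_id [CharP k p] (hp : p.Prime) (hp2 : 2 < p) (j : ℕ) :
    C (C 2) * C (ff a) * X ^ j * MPadcCC.dc (dt k) (AA p a) =
      AA p a * (C (X ^ j) * derivative (fx a) + qq a j) -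
        C (C 2) * C (X ^ j) * derivative (fx a * AA p a) := by
  have e1 := dc_AA p a hp hp2
  have e2 := mul_qq a j
  have e3 := deriv_AA p a hp hp2
  have hF : derivative (FF a) = fx a + (X - C X) * derivative (fx a) := by
    unfold FF
    rw [derivative_mul, derivative_sub, derivative_X, derivative_C, sub_zero, one_mul]
  have hF0 : FF a = (X - C X) * fx a := rfl
  have hc : (C (C 2) : k[X][X]) = 2 := by
    rw [map_ofNat, map_ofNat]
  rw [hF, hF0] at e3
  rw [derivative_mul]
  refine mul_left_cancel₀ (X_sub_C_ne_zero (X : k[X])) ?_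
  linear_combination (C (ff a) * X ^ j) * e1 - AA p a * e2 + C (X ^ j) * e3 +
    (C (X ^ j) * (X - C X) * derivative (fx a) * AA p a) * hc

end MPadcOA
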