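import Pool.Agent.Lib.MP_adc574_ag_OA.F2b

/-!
# Block F, leaf F4a: the derivatives of A
-/

set_option autoImplicit false

namespace MPadcOA

open Polynomial Matrix

variable {k : Type*} [Field k] {g : ℕ} (p : ℕ) (a : Fin (2 * g) → k)

/-- The derivative of `k[t]` as a derivation over the integers. -/
noncomputable def dt (k : Type*) [Field k] : Derivation ℤ k[X] k[X] :=
  (derivative' (R := k)).restrictScalars ℤ

theorem dt_apply (q : k[X]) : dt k q = derivative q := rfl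

private theorem F4a_coeff (P : k[X][X]) (i : ℕ) :
    (MPadcCC.dc (dt k) P).coeff i = derivative (P.coeff i) := MPadcCC.coeff_dc (dt k) P i

private theorem F4a_C (c : k[X]) : MPadcCC.dc (dt k) (C c) = C (derivative c) := MPadcCC.dc_C (dt k) c

private theorem F4a_pow (n : ℕ) : MPadcCC.dc (dt k) ((X - C X) ^ n) =
    -(C (n : k[X]) * (X - C X) ^ (n - 1)) := by
  have h : MPadcCC.dc (dt k) ((X - C X) ^ n) =
      -(C ((n : k[X]) * derivative X) * (X - C X) ^ (n - 1)) := MPadcCC.dc_pow (dt k) X n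
  rw [derivative_X, mul_one] at h
  exact h

private theorem F4a_H {p : ℕ} [CharP k p] (hp : p.Prime) (hp2 : 2 < p) :
    0 < (p - 1) / 2 ∧ (C (C 2) : k[X][X]) * C ((((p - 1) / 2 : ℕ) : k[X])) = -1 := by
  have hodd : p % 2 = 1 := by
    rcases hp.eq_two_or_odd with h | h
    · omega
    · exact h
  have h2 : 2 * ((p - 1) / 2) + 1 = p := by omega
  refine ⟨by omega, ?_⟩
  have h3 : ((2 * ((p - 1) / 2) + 1 : ℕ) : k[X][X]) = 0 := by
    rw [h2, ← C_eq_natCast, ← C_eq_natCast, CharP.cast_eq_zero, C_0, C_0]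
  have h4 : (C (C (2 : k)) : k[X][X]) = 2 := by
    rw [show (2 : k) = ((2 : ℕ) : k) by norm_num, C_eq_natCast, C_eq_natCast]
    norm_num
  rw [h4, C_eq_natCast]
  push_cast at h3
  exact eq_neg_of_add_eq_zero_left h3

/-- PROOF. Coefficients: `coeff_dc`, `coeff_map`, `derivative_C`. -/
theorem dc_fx : MPadcCC.dc (dt k) (fx a) = 0 := by
  refine Polynomial.ext fun i => ?_
  rw [F4a_coeff, fx, coeff_map, derivative_C, coeff_zero]

/-- The derivative in the direction of `t` of `A`: `2 (x - t) dA/dt = A` (`H = (p - 1) / 2` is `- 1 / 2` in `k`; only the factor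
`(x - t) ^ H` of `A` depends on `t`). PROOF. `AA = (X - C X) ^ H * fx ^ H` (`mul_pow`), `MPadcCC.dc_mul`, `MPadcCC.dc_pow` for `(X - C X) ^ H`,
`dc (fx ^ H) = 0` (induction, `dc_fx`), `(X - C X) * (X - C X) ^ (H - 1) = (X - C X) ^ H` for `0 < H`, `2 * H = p - 1`, `(p : k) = 0`. -/
theorem dc_AA [CharP k p] (hp : p.Prime) (hp2 : 2 < p) :
    C (C 2) * (X - C X) * MPadcCC.dc (dt k) (AA p a) = AA p a := by
  obtain ⟨hH, hc⟩ := F4a_H (k := k) hp hp2
  have h0 : ∀ n : ℕ, MPadcCC.dc (dt k) (fx a ^ n) = 0 := by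
    intro n
    induction n with
    | zero => rw [pow_zero, ← C_1, F4a_C, derivative_one, C_0]
    | succ n ih => rw [pow_succ, MPadcCC.dc_mul, ih, dc_fx, zero_mul, mul_zero, add_zero]
  have h1 : AA p a = (X - C X) ^ ((p - 1) / 2) * fx a ^ ((p - 1) / 2) := by
    rw [AA, FF, mul_pow]
  have h2 : (X - C X : k[X][X]) ^ ((p - 1) / 2) = (X - C X) * (X - C X) ^ ((p - 1) / 2 - 1) := by
    rw [← pow_succ', Nat.sub_add_cancel hH]
  rw [h1, MPadcCC.dc_mul, h0, mul_zero, add_zero, F4a_pow]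
  calc C (C 2) * (X - C X) * (-(C (((p - 1) / 2 : ℕ) : k[X]) * (X - C X) ^ ((p - 1) / 2 - 1)) *
        fx a ^ ((p - 1) / 2))
      = -(C (C 2) * C (((p - 1) / 2 : ℕ) : k[X])) * ((X - C X) * (X - C X) ^ ((p - 1) / 2 - 1)) *
        fx a ^ ((p - 1) / 2) := by ring
    _ = (X - C X) ^ ((p - 1) / 2) * fx a ^ ((p - 1) / 2) := by
      rw [hc, ← h2]
      ring

/-- The derivative in the direction of `x`: `2 F dA/dx = - F' A`. PROOF. `derivative_pow`, `F * F ^ (H - 1) = F ^ H`, `2 H = - 1`. -/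
theorem deriv_AA [CharP k p] (hp : p.Prime) (hp2 : 2 < p) :
    C (C 2) * FF a * derivative (AA p a) = -(derivative (FF a) * AA p a) := by
  obtain ⟨hH, hc⟩ := F4a_H (k := k) hp hp2
  have h2 : FF a ^ ((p - 1) / 2) = FF a * FF a ^ ((p - 1) / 2 - 1) := by
    rw [← pow_succ', Nat.sub_add_cancel hH]
  rw [AA, derivative_pow]
  calc C (C 2) * FF a * (C (((p - 1) / 2 : ℕ) : k[X]) * FF a ^ ((p - 1) / 2 - 1) * derivative (FF a))
      = (C (C 2) * C (((p - 1) / 2 : ℕ) : k[X])) * (FF a * FF a ^ ((p - 1) / 2 - 1)) *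
        derivative (FF a) := by ring
    _ = -(derivative (FF a) * FF a ^ ((p - 1) / 2)) := by
      rw [hc, ← h2]
      ring

end MPadcOA
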