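import Pool.Agent.Lib.MP_adc574_ag_OA.F4a

/-!
# Block F, leaf F6b: the recurrence
-/

set_option autoImplicit false

namespace MPadcOA

open Polynomial Matrix

variable {k : Type*} [Field k] {g : ℕ} (p : ℕ) (a : Fin (2 * g) → k)

private theorem F6b_X (q : k[X][X]) (n : ℕ) : (X * derivative q).coeff n = (n : k[X]) * q.coeff n := by
  cases n with
  | zero => rw [coeff_X_mul_zero, Nat.cast_zero, zero_mul]
  | succ n =>
    rw [coeff_X_mul, coeff_derivative]
    push_cast
    ring

/-- THE RECURRENCE. PROOF. The coefficient of `x ^ n` of `x * (2 F A' + F' A) = 0` (`deriv_AA`): `coeff_X_mul`-type lemmas, `coeff_mul`,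
`Finset.Nat.sum_antidiagonal_eq_sum_range_succ_mk`; the coefficient of `x A'` at `b` is `b A_b`, that of `x F'` at `i` is `i F_i`, and `2 b + i = n + b` for
`i + b = n`. (For example: `x (F A)' `.. or write `x * derivative A` coefficientwise: `(X * derivative A).coeff b = b * A.coeff b`.) -/
theorem recur [CharP k p] (hp : p.Prime) (hp2 : 2 < p) (n : ℕ) :
    ∑ x ∈ Finset.range (n + 1), ((n + x : ℕ) : k[X]) * (FF a).coeff (n - x) * (AA p a).coeff x = 0 := by
  have h1 := deriv_AA p a hp hp2
  have h2 : C (C 2) * ((X * derivative (AA p a)) * FF a) + (AA p a) * (X * derivative (FF a)) = 0 := by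
    linear_combination X * h1
  have h3 : (C (C 2) * ((X * derivative (AA p a)) * FF a) + (AA p a) * (X * derivative (FF a))).coeff n = 0 := by
    rw [h2, coeff_zero]
  rw [coeff_add, coeff_C_mul, coeff_mul, coeff_mul, Finset.Nat.sum_antidiagonal_eq_sum_range_succ_mk,
    Finset.Nat.sum_antidiagonal_eq_sum_range_succ_mk, Finset.mul_sum, ← Finset.sum_add_distrib] at h3
  rw [← h3]
  refine Finset.sum_congr rfl fun x hx => ?_
  have h4 : ((n - x : ℕ) : k[X]) = (n : k[X]) - (x : k[X]) :=
    Nat.cast_sub (Nat.le_of_lt_succ (Finset.mem_range.mp hx))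
  have h5 : (C (2 : k) : k[X]) = 2 := map_ofNat C 2
  rw [F6b_X, F6b_X, h4, h5, Nat.cast_add]
  ring

end MPadcOA
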