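import Pool.Agent.Lib.MP_adc574_ag_OA.F6a
import Pool.Agent.Lib.MP_adc574_ag_OA.F6b

/-!
# Block F, leaf F6: the frame is isotropic
-/

set_option autoImplicit false

namespace MPadcOA

open Polynomial Matrix

variable {k : Type*} [Field k] {g : ℕ} (p : ℕ) (a : Fin (2 * g) → k)

/-- The terms of the double sum. -/
private noncomputable def F6_t (K L x y : ℕ) : k[X] :=
  if x + y ≤ K + L then ((y : k[X]) - (x : k[X])) * (FF a).coeff (K + L - x - y) *
    ((AA p a).coeff x * (AA p a).coeff y) else 0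

private theorem F6_row [CharP k p] (hp : p.Prime) (hp2 : 2 < p) {K L : ℕ} (hK : (K : k[X]) = 0)
    (hL : (L : k[X]) = 0) (y : ℕ) :
    ∑ x ∈ Finset.range (K + L + 1), F6_t p a K L x y = 0 := by
  rcases le_or_gt y (K + L) with hy | hy
  · have hsub : Finset.range (K + L - y + 1) ⊆ Finset.range (K + L + 1) :=
      Finset.range_subset_range.2 (by omega)
    rw [← Finset.sum_subset hsub]
    · have h := recur p a hp hp2 (K + L - y)
      have h1 : ∀ x ∈ Finset.range (K + L - y + 1), F6_t p a K L x y =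
          -((AA p a).coeff y) * (((K + L - y + x : ℕ) : k[X]) * (FF a).coeff (K + L - y - x) *
            (AA p a).coeff x) := by
        intro x hx
        rw [Finset.mem_range] at hx
        rw [F6_t, if_pos (by omega)]
        have h2 : ((K + L - y + x : ℕ) : k[X]) = (x : k[X]) - y := by
          rw [Nat.cast_add, Nat.cast_sub hy, Nat.cast_add, hK, hL]
          ring
        have h3 : K + L - x - y = K + L - y - x := by omega
        rw [h2, h3]
        ring
      rw [Finset.sum_congr rfl h1, ← Finset.mul_sum, h, mul_zero]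
    · intro x hx hx'
      rw [Finset.mem_range] at hx hx'
      rw [F6_t, if_neg (by omega)]
  · refine Finset.sum_eq_zero fun x _ => ?_
    rw [F6_t, if_neg (by omega)]

private theorem F6_anti (K L x y : ℕ) : F6_t p a K L x y = -F6_t p a K L y x := by
  rw [F6_t, F6_t]
  have h3 : K + L - x - y = K + L - y - x := by omega
  rw [h3, add_comm y x]
  split_ifs
  · ring
  · rw [neg_zero]

/-- THE FRAME IS ISOTROPIC. PROOF. Fix `κ`, `λ`, `K = p (κ + 1)`, `L = p (λ + 1)` and let
`t x y = if x + y ≤ K + L then (y - x) F_(K + L - x - y) A_x A_y else 0` (in `k[X]`, `x`, `y` cast). `h2`: for `y ≤ K + L` this is `- A_y` times `recur` for `n = K + L - y`,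
since `n + x = x - y` modulo `p` (and for `y > K + L` all terms are zero); `h3`: the same with the roles exchanged; `h4`: `L - K = 0` in `k`. So `region` gives
`∑_{x < K, y < L} t x y = 0`. Substituting `x = K - 1 - i`, `y = L - 1 - j` (`Finset.sum_range_reflect`), `F_(i + j + 2) = 0` if `i ≥ 2 g` or `j ≥ 2 g`
(`FF_monic`, degree `2 g + 1`; `2 * g < p ≤ K, L`, so `Finset.sum_subset`) and `y - x = i - j` in `k`, the sum is `2` times the entry: `nu_sum` twice. -/
theorem iso_Ux [CharP k p] (hp : p.Prime) (hg : 0 < g) (hpg : 2 * g < p) :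
    Ux p a * Bx a * (Ux p a)ᵀ = 0 := by
  have hp2 : 2 < p := by omega
  have hpk : (p : k[X]) = 0 := CharP.cast_eq_zero k[X] p
  have h2k : (2 : k) ≠ 0 := by
    intro h
    have h1 : ((2 : ℕ) : k) = 0 := by exact_mod_cast h
    rw [CharP.cast_eq_zero_iff k p] at h1
    exact absurd (Nat.le_of_dvd two_pos h1) (by omega)
  ext1 κ l
  rw [Matrix.zero_apply]
  obtain ⟨K, hKdef⟩ : ∃ K, K = p * ((κ : ℕ) + 1) := ⟨_, rfl⟩
  obtain ⟨L, hLdef⟩ : ∃ L, L = p * ((l : ℕ) + 1) := ⟨_, rfl⟩
  have hK : (K : k[X]) = 0 := by rw [hKdef, Nat.cast_mul, hpk, zero_mul]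
  have hL : (L : k[X]) = 0 := by rw [hLdef, Nat.cast_mul, hpk, zero_mul]
  have hKp : p ≤ K := by rw [hKdef]; exact Nat.le_mul_of_pos_right p (Nat.succ_pos _)
  have hLp : p ≤ L := by rw [hLdef]; exact Nat.le_mul_of_pos_right p (Nat.succ_pos _)
  have hreg := region (F6_t p a K L) K L (fun x y h => by rw [F6_t, if_neg (by omega)])
    (fun y => F6_row p a hp hp2 hK hL y)
    (fun x => by
      rw [Finset.sum_congr rfl fun y _ => F6_anti p a K L x y, Finset.sum_neg_distrib,
        F6_row p a hp hp2 hK hL x, neg_zero])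
    (by rw [F6_t, if_pos le_rfl, hK, hL, sub_zero, zero_mul, zero_mul])
  -- the terms after the substitution
  obtain ⟨φ, hφ⟩ : ∃ φ : ℕ → ℕ → k[X], φ = fun (i j : ℕ) => ((i : k[X]) - (j : k[X])) *
    (FF a).coeff (i + j + 2) * ((AA p a).coeff (K - (i + 1)) * (AA p a).coeff (L - (j + 1))) :=
    ⟨_, rfl⟩
  have hφ0 : ∀ i j, (2 * g ≤ i ∨ 2 * g ≤ j) → φ i j = 0 := by
    intro i j hij
    rw [hφ]
    dsimp only
    rw [coeff_eq_zero_of_natDegree_lt (n := i + j + 2) (by rw [(FF_monic a).2]; omega), mul_zero,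
      zero_mul]
  have hsum : ∑ i ∈ Finset.range (2 * g), ∑ j ∈ Finset.range (2 * g), φ i j = 0 := by
    rw [← hreg, ← Finset.sum_range_reflect (n := K)]
    have h1 : ∀ i ∈ Finset.range K, ∑ y ∈ Finset.range L, F6_t p a K L (K - 1 - i) y =
        ∑ j ∈ Finset.range (2 * g), φ i j := by
      intro i hi
      rw [Finset.mem_range] at hi
      rw [← Finset.sum_range_reflect (n := L)]
      have h2 : Finset.range (2 * g) ⊆ Finset.range L := Finset.range_subset_range.2 (by omega)
      rw [Finset.sum_subset h2 fun j _ hj => hφ0 i j (Or.inr (by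
        rw [Finset.mem_range] at hj; omega))]
      refine Finset.sum_congr rfl fun j hj => ?_
      rw [Finset.mem_range] at hj
      rw [F6_t, if_pos (by omega), hφ]
      dsimp only
      have h3 : K + L - (K - 1 - i) - (L - 1 - j) = i + j + 2 := by omega
      have h4 : ((K - 1 - i : ℕ) : k[X]) = -1 - i := by
        rw [Nat.sub_sub, Nat.cast_sub (by omega), hK, Nat.cast_add, Nat.cast_one]
        ring
      have h5 : ((L - 1 - j : ℕ) : k[X]) = -1 - j := by
        rw [Nat.sub_sub, Nat.cast_sub (by omega), hL, Nat.cast_add, Nat.cast_one]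
        ring
      have h6 : K - 1 - i = K - (i + 1) := by omega
      have h7 : L - 1 - j = L - (j + 1) := by omega
      rw [h3, h4, h5, h6, h7]
      ring
    rw [Finset.sum_congr rfl h1]
    have h2 : Finset.range (2 * g) ⊆ Finset.range K := Finset.range_subset_range.2 (by omega)
    refine Finset.sum_subset h2 fun i _ hi => Finset.sum_eq_zero fun j _ => hφ0 i j (Or.inl ?_)
    rw [Finset.mem_range] at hi
    omega
  -- the entry
  have hent : C 2 * (Ux p a * Bx a * (Ux p a)ᵀ) κ l = ∑ s : Nx g, ∑ s' : Nx g, φ (nu s) (nu s') := by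
    rw [Matrix.mul_apply, Finset.mul_sum, Finset.sum_comm]
    refine Finset.sum_congr rfl fun s' _ => ?_
    rw [Matrix.mul_apply, Matrix.transpose_apply, Finset.sum_mul, Finset.mul_sum]
    refine Finset.sum_congr rfl fun s _ => ?_
    rw [hφ, hKdef, hLdef]
    dsimp only [Ux, Bx]
    have h1 : (C (((nu s : k) - (nu s' : k)) / 2) : k[X]) * C 2 = (nu s : k[X]) - (nu s' : k[X]) := by
      rw [← C_mul, div_mul_cancel₀ _ h2k, C_sub, C_eq_natCast, C_eq_natCast]
    rw [← h1]
    ring
  have h3 : ∑ s : Nx g, ∑ s' : Nx g, φ (nu s) (nu s') = 0 := by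
    rw [← hsum, ← nu_sum fun i => ∑ j ∈ Finset.range (2 * g), φ i j]
    exact Finset.sum_congr rfl fun s _ => nu_sum fun j => φ (nu s) j
  rw [h3] at hent
  exact (mul_eq_zero.1 hent).resolve_left (C_ne_zero.2 h2k)

end MPadcOA
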