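import Mathlib

/-!
# Block F, leaf F6a: regions
-/

set_option autoImplicit false

namespace MPadcOA

open Polynomial Matrix

/-- REGIONS. PROOF. The sum over the region `x ≥ K`, all `y`, is zero by (3) (sum over `x ∈ Finset.Ico K (N + 1)`). The region `x ≥ K`, `y ≥ L` contributes only
`t K L = 0` (if `x ≥ K`, `y ≥ L`, `(x, y) ≠ (K, L)`, then `x + y > K + L`). So the region `x ≥ K`, `y < L` has sum zero. By (2) the region all `x`, `y < L` has sum zero;
subtract. (`Finset.sum_comm`, `Finset.range_eq_Ico`, `Finset.sum_Ico_consecutive`.) -/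
theorem region {M : Type*} [AddCommGroup M] (t : ℕ → ℕ → M) (K L : ℕ)
    (h1 : ∀ x y, K + L < x + y → t x y = 0)
    (h2 : ∀ y, ∑ x ∈ Finset.range (K + L + 1), t x y = 0)
    (h3 : ∀ x, ∑ y ∈ Finset.range (K + L + 1), t x y = 0) (h4 : t K L = 0) :
    ∑ x ∈ Finset.range K, ∑ y ∈ Finset.range L, t x y = 0 := by
  have e1 : ∀ x, K ≤ x → ∑ y ∈ Finset.range L, t x y = 0 := by
    intro x hx
    have h5 := Finset.sum_range_add_sum_Ico (t x) (show L ≤ K + L + 1 by omega)
    rw [h3 x] at h5
    have h6 : ∑ y ∈ Finset.Ico L (K + L + 1), t x y = 0 := by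
      refine Finset.sum_eq_zero fun y hy => ?_
      rw [Finset.mem_Ico] at hy
      by_cases h : x = K ∧ y = L
      · rw [h.1, h.2, h4]
      · exact h1 x y (by omega)
    rw [h6, add_zero] at h5
    exact h5
  have e2 : ∑ x ∈ Finset.range (K + L + 1), ∑ y ∈ Finset.range L, t x y = 0 := by
    rw [Finset.sum_comm]
    exact Finset.sum_eq_zero fun y _ => h2 y
  have e3 := Finset.sum_range_add_sum_Ico (fun x => ∑ y ∈ Finset.range L, t x y) (show K ≤ K + L + 1 by omega)
  rw [e2] at e3
  have e4 : ∑ x ∈ Finset.Ico K (K + L + 1), ∑ y ∈ Finset.range L, t x y = 0 := by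
    refine Finset.sum_eq_zero fun x hx => ?_
    rw [Finset.mem_Ico] at hx
    exact e1 x hx.1
  rw [e4, add_zero] at e3
  exact e3

end MPadcOA
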