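import Pool.Agent.Lib.MP_adc574_ag_OA.F7a
import Pool.Agent.Lib.MP_adc574_ag_OA.F1

/-!
# Block F, leaf F7: the alternating form as a function of two variables
-/

set_option autoImplicit false

namespace MPadcOA

open Polynomial Matrix

/-- THE GENERATING FUNCTION. `R → S` a homomorphism of rings, `P` a polynomial over `R` of degree at most `2 g + 1`. PROOF. Both sides are linear in `P`; write
`P = ∑_{n ≤ 2 g + 1} P_n x ^ n` (`eval₂_eq_sum_range'`, derivative the same with `coeff_derivative`): the left side is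
`∑_{m < 2 g} P_(m + 2) (x - z) ^ 2 ∑_{i + j = m} (i - j) x ^ i z ^ j` (the pairs with `i, j < 2 g` and `i + j ≥ 2 g` have `P_(i + j + 2) = 0`; `nu_sum` twice,
`Finset.sum_sigma'` or `Finset.Nat.sum_antidiagonal..`), the right side is the sum over `n` of `P_n (n (x ^ (n - 1) + z ^ (n - 1)) (x - z) - 2 (x ^ n - z ^ n))`, whose
terms for `n = 0, 1` are zero; `E_mono`. -/
theorem gen_B {R S : Type*} [CommRing R] [CommRing S] (φ : R →+* S) {g : ℕ} (P : R[X])
    (hP : P.natDegree ≤ 2 * g + 1) (x z : S) :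
    (x - z) ^ 2 * ∑ i : Nx g, ∑ j : Nx g,
        ((nu i : S) - nu j) * φ (P.coeff (nu i + nu j + 2)) * (x ^ nu i * z ^ nu j) =
      ((derivative P).eval₂ φ x + (derivative P).eval₂ φ z) * (x - z) -
        2 * (P.eval₂ φ x - P.eval₂ φ z) := by
  obtain ⟨c, hcd⟩ : ∃ c : ℕ → S, ∀ n, c n = φ (P.coeff n) := ⟨_, fun _ => rfl⟩
  have hc0 : ∀ n, 2 * g + 1 < n → c n = 0 := fun n hn => by
    rw [hcd, coeff_eq_zero_of_natDegree_lt (lt_of_le_of_lt hP hn), map_zero]
  obtain ⟨F, hF⟩ : ∃ F : ℕ → ℕ → S, ∀ i j, F i j = ((i : S) - j) * c (i + j + 2) * (x ^ i * z ^ j) :=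
    ⟨_, fun _ _ => rfl⟩
  obtain ⟨E, hE⟩ : ∃ E : ℕ → S, ∀ m, E m = ∑ q ∈ Finset.HasAntidiagonal.antidiagonal m,
      ((q.1 : S) - q.2) * (x ^ q.1 * z ^ q.2) := ⟨_, fun _ => rfl⟩
  have h1 : ∑ i : Nx g, ∑ j : Nx g,
      ((nu i : S) - nu j) * φ (P.coeff (nu i + nu j + 2)) * (x ^ nu i * z ^ nu j) =
      ∑ i ∈ Finset.range (2 * g), ∑ j ∈ Finset.range (2 * g), F i j := by
    rw [← nu_sum (fun i => ∑ j ∈ Finset.range (2 * g), F i j)]
    refine Finset.sum_congr rfl fun i _ => ?_
    rw [← nu_sum (fun j => F (nu i) j)]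
    refine Finset.sum_congr rfl fun j _ => ?_
    rw [hF, hcd]
  have h2 : ∑ i ∈ Finset.range (2 * g), ∑ j ∈ Finset.range (2 * g), F i j =
      ∑ m ∈ Finset.range (2 * g), c (m + 2) * E m := by
    have h3 : ∑ m ∈ Finset.range (2 * g), c (m + 2) * E m =
        ∑ m ∈ Finset.range (2 * g), ∑ k ∈ Finset.range (m + 1), F k (m - k) := by
      refine Finset.sum_congr rfl fun m _ => ?_
      rw [hE, Finset.mul_sum, ← Finset.Nat.sum_antidiagonal_eq_sum_range_succ F]
      refine Finset.sum_congr rfl fun q hq => ?_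
      have h4 : q.1 + q.2 = m := Finset.HasAntidiagonal.mem_antidiagonal.mp hq
      rw [hF, h4]
      ring
    rw [h3, Finset.sum_range_diag_flip]
    refine Finset.sum_congr rfl fun m hm => ?_
    symm
    apply Finset.sum_subset (Finset.range_mono (Nat.sub_le _ _))
    intro k hk hk'
    rw [Finset.mem_range] at hk hk' hm
    rw [hF, hc0 _ (by omega), mul_zero, zero_mul]
  have e1 : ∀ y : S, P.eval₂ φ y =
      ∑ m ∈ Finset.range (2 * g), c (m + 2) * y ^ (m + 2) + c 1 * y + c 0 := fun y => by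
    rw [eval₂_eq_sum_range' φ (show P.natDegree < 2 * g + 1 + 1 by omega) y, Finset.sum_range_succ',
      Finset.sum_range_succ']
    simp only [← hcd, pow_zero, mul_one, zero_add, pow_one]
  have e2 : ∀ y : S, (derivative P).eval₂ φ y =
      ∑ m ∈ Finset.range (2 * g), c (m + 2) * (m + 2) * y ^ (m + 1) + c 1 := fun y => by
    have h3 : (derivative P).natDegree < 2 * g + 1 := by
      have h4 := natDegree_derivative_le P
      omega
    rw [eval₂_eq_sum_range' φ h3 y, Finset.sum_range_succ']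
    refine congrArg₂ (· + ·) (Finset.sum_congr rfl fun m _ => ?_) ?_
    · rw [coeff_derivative, map_mul, ← hcd]
      push_cast
      rw [map_add, map_add, map_one, map_natCast]
      ring
    · rw [coeff_derivative, map_mul, ← hcd]
      simp
  rw [h1, h2, Finset.mul_sum]
  calc ∑ m ∈ Finset.range (2 * g), (x - z) ^ 2 * (c (m + 2) * E m)
      = ∑ m ∈ Finset.range (2 * g), ((c (m + 2) * (m + 2) * x ^ (m + 1) + c (m + 2) * (m + 2) * z ^ (m + 1)) *
          (x - z) - 2 * (c (m + 2) * x ^ (m + 2) - c (m + 2) * z ^ (m + 2))) := by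
        refine Finset.sum_congr rfl fun m _ => ?_
        have h3 := E_mono x z m
        rw [← hE] at h3
        calc (x - z) ^ 2 * (c (m + 2) * E m) = c (m + 2) * ((x - z) ^ 2 * E m) := by ring
          _ = _ := by
            rw [h3]
            ring
    _ = (∑ m ∈ Finset.range (2 * g), c (m + 2) * (m + 2) * x ^ (m + 1) +
          ∑ m ∈ Finset.range (2 * g), c (m + 2) * (m + 2) * z ^ (m + 1)) * (x - z) -
        2 * (∑ m ∈ Finset.range (2 * g), c (m + 2) * x ^ (m + 2) -
          ∑ m ∈ Finset.range (2 * g), c (m + 2) * z ^ (m + 2)) := by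
        rw [Finset.sum_sub_distrib, ← Finset.sum_mul, ← Finset.mul_sum, Finset.sum_add_distrib,
          Finset.sum_sub_distrib]
    _ = _ := by
        rw [e1, e1, e2, e2]
        ring

end MPadcOA
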