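import Mathlib

/-!
# Block F, leaf F7a: monomials
-/

set_option autoImplicit false

namespace MPadcOA

open Polynomial Matrix

private theorem F7a_h {S : Type*} [CommRing S] (x z : S) (m : ℕ) :
    (x - z) * ∑ q ∈ Finset.HasAntidiagonal.antidiagonal m, (x ^ q.1 * z ^ q.2) =
      x ^ (m + 1) - z ^ (m + 1) := by
  induction m with
  | zero => simp
  | succ m ih =>
    rw [Finset.Nat.sum_antidiagonal_succ]
    have h1 : ∑ q ∈ Finset.HasAntidiagonal.antidiagonal m, (x ^ (q.1 + 1) * z ^ q.2) =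
        x * ∑ q ∈ Finset.HasAntidiagonal.antidiagonal m, (x ^ q.1 * z ^ q.2) := by
      rw [Finset.mul_sum]
      refine Finset.sum_congr rfl fun q _ => ?_
      ring
    rw [h1]
    simp only [pow_zero, one_mul]
    linear_combination x * ih

/-- PROOF. Induction on `m`: let `h_m = ∑_{i + j = m} x ^ i z ^ j`, `E_m = ∑_{i + j = m} (i - j) x ^ i z ^ j`. `h_(m+1) = x h_m + z ^ (m + 1)`,
`E_(m+1) = x E_m + x h_m - (m + 1) z ^ (m + 1)` (`Finset.Nat.sum_antidiagonal_succ'`, or sums over `range`), `(x - z) h_m = x ^ (m + 1) - z ^ (m + 1)`,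
`(x - z) ^ 2 E_m = (m + 2) (x ^ (m + 1) + z ^ (m + 1)) (x - z) - 2 (x ^ (m + 2) - z ^ (m + 2))`. -/
theorem E_mono {S : Type*} [CommRing S] (x z : S) (m : ℕ) :
    (x - z) ^ 2 * ∑ q ∈ Finset.HasAntidiagonal.antidiagonal m, ((q.1 : S) - q.2) * (x ^ q.1 * z ^ q.2) =
      ((m : S) + 2) * (x ^ (m + 1) + z ^ (m + 1)) * (x - z) - 2 * (x ^ (m + 2) - z ^ (m + 2)) := by
  induction m with
  | zero =>
    simp
    ring
  | succ m ih =>
    rw [Finset.Nat.sum_antidiagonal_succ]
    have h1 : ∑ q ∈ Finset.HasAntidiagonal.antidiagonal m,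
        (((q.1 + 1 : ℕ) : S) - (q.2 : S)) * (x ^ (q.1 + 1) * z ^ q.2) =
        x * ∑ q ∈ Finset.HasAntidiagonal.antidiagonal m, ((q.1 : S) - q.2) * (x ^ q.1 * z ^ q.2) +
          x * ∑ q ∈ Finset.HasAntidiagonal.antidiagonal m, (x ^ q.1 * z ^ q.2) := by
      rw [Finset.mul_sum, Finset.mul_sum, ← Finset.sum_add_distrib]
      refine Finset.sum_congr rfl fun q _ => ?_
      push_cast
      ring
    rw [h1]
    have h2 := F7a_h x z m
    simp only [pow_zero, one_mul]
    push_cast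
    linear_combination x * ih + x * (x - z) * h2

end MPadcOA
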