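import Mathlib

/-!
# Block F, leaf F9a: evaluation by blocks of coefficients
-/

set_option autoImplicit false

namespace MPadcOA

open Polynomial Matrix

private theorem F9a_pow {k : Type*} [Field k] {p : ℕ} (hp : p.Prime) [CharP k p] (α : k) :
    (X - C α : k[X]) ^ (p - 1) = ∑ i ∈ Finset.range p, X ^ i * C α ^ (p - 1 - i) := by
  have : Fact p.Prime := ⟨hp⟩
  have h1 : (X - C α : k[X]) ^ (p - 1) * (X - C α) = X ^ p - C α ^ p := by
    rw [← pow_succ, Nat.sub_add_cancel hp.one_le]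
    exact sub_pow_char (X : k[X]) (C α)
  have h2 := (Commute.all (X : k[X]) (C α)).geom_sum₂_mul p
  exact mul_right_cancel₀ (X_sub_C_ne_zero α) (h1.trans h2.symm)

private theorem F9a_coeff {k : Type*} [Field k] {p : ℕ} (hp : p.Prime) [CharP k p] (α : k)
    (Q : k[X]) (κ : ℕ) :
    ((X - C α) ^ (p - 1) * Q).coeff (p * (κ + 1) - 1) =
      ∑ m ∈ Finset.range p, α ^ m * Q.coeff (p * κ + m) := by
  have hp1 := hp.one_le
  rw [F9a_pow hp α, Finset.sum_mul, finsetSum_coeff,
    ← Finset.sum_range_reflect (fun m => α ^ m * Q.coeff (p * κ + m)) p]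
  refine Finset.sum_congr rfl fun i hi => ?_
  rw [Finset.mem_range] at hi
  have h1 : i ≤ p * (κ + 1) - 1 := by
    have h2 : p * (κ + 1) = p * κ + p := by ring
    omega
  have h3 : p * (κ + 1) - 1 - i = p * κ + (p - 1 - i) := by
    have h2 : p * (κ + 1) = p * κ + p := by ring
    omega
  rw [mul_assoc, coeff_X_pow_mul', if_pos h1, ← C_pow, coeff_C_mul, h3]

/-- Mathlib only. PROOF. `(x - α) ^ (p - 1) = ∑_{i < p} α ^ (p - 1 - i) x ^ i`: multiply by `x - α` (`sub_pow_char` or `sub_pow_expChar`, `Commute.geom_sum₂_mul`, cancel).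
So the coefficient of `(x - α) ^ (p - 1) Q` at `p (κ + 1) - 1` is `∑_{i < p} α ^ (p - 1 - i) Q_(p (κ + 1) - 1 - i)`, with `n = p (κ + 1) - 1 - i = p κ + m`, `m < p`:
`∑_{m < p} α ^ m Q_(p κ + m)` (`Finset.sum_range_reflect`). Times `α ^ (p κ)` and summed over `κ < g`: `∑_{n < p g} Q_n α ^ n` (`Finset.sum_range`, `Nat` division:
`Finset.sum_nat_mod`/`Finset.range_mul..` or induction on `g`) `= Q.eval α` (`eval_eq_sum_range'`). -/
theorem eval_block {k : Type*} [Field k] {p : ℕ} (hp : p.Prime) [CharP k p] (α : k) (g : ℕ) (Q : k[X])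
    (hQ : Q.natDegree < p * g) :
    ∑ κ : Fin g, α ^ (p * (κ : ℕ)) * ((X - C α) ^ (p - 1) * Q).coeff (p * ((κ : ℕ) + 1) - 1) =
      Q.eval α := by
  rw [eval_eq_sum_range' hQ α]
  have key : ∀ g : ℕ, ∑ κ ∈ Finset.range g,
      α ^ (p * κ) * ((X - C α) ^ (p - 1) * Q).coeff (p * (κ + 1) - 1) =
        ∑ i ∈ Finset.range (p * g), Q.coeff i * α ^ i := by
    intro g
    induction g with
    | zero => simp
    | succ g ih =>
      rw [Finset.sum_range_succ, ih, F9a_coeff hp, Finset.mul_sum, Nat.mul_succ,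
        Finset.sum_range_add]
      congr 1
      refine Finset.sum_congr rfl fun m _ => ?_
      rw [pow_add]
      ring
  rw [← key g]
  exact (Finset.sum_range (fun κ : ℕ =>
    α ^ (p * κ) * ((X - C α) ^ (p - 1) * Q).coeff (p * (κ + 1) - 1))).symm

end MPadcOA
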