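import Pool.Agent.Lib.MP_adc574_ag_OA.EDefs

/-!
# Block G (power savings over number fields): definitions
-/

set_option autoImplicit false

namespace MPadcOA

open Polynomial NumberField

/-- Theorem A with a power saving for the polynomials of degree `d`. -/
def FewPow (d : ℕ) : Prop :=
  ∃ A κ : ℝ, 0 < κ ∧ ∀ p : ℕ, p.Prime →
    ∀ (E : Type) [Field E] [Finite E] [CharP E p] (f : E[X]), Squarefree f → f.natDegree = d →
    (Nat.card {t : E // ¬ (Squarefree ((X - C t) * f) ∧ HyperIsOrdinary ((X - C t) * f))} : ℝ) ≤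
      A * Nat.card E * (p : ℝ) ^ (-κ)

/-- Theorem A+ with a power saving for the monic polynomials of degree `n`. -/
def FewAllPow (n : ℕ) : Prop :=
  ∃ A κ : ℝ, 0 < κ ∧ ∀ p : ℕ, p.Prime →
    ∀ (E : Type) [Field E] [Finite E] [CharP E p],
    (Nat.card {c : Fin n → E // ¬ (Squarefree (monicOf c) ∧ HyperIsOrdinary (monicOf c))} : ℝ) ≤
      A * (Nat.card E : ℝ) ^ n * (p : ℝ) ^ (-κ)

/-- The number of the maximal ideals of the ring of integers of norm at most `y` with the property `P`. -/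
noncomputable def nK (K : Type) [Field K] [NumberField K] (P : Ideal (𝓞 K) → Prop) (y : ℕ) : ℕ :=
  {𝔭 : Ideal (𝓞 K) | 𝔭.IsMaximal ∧ Ideal.absNorm 𝔭 ≤ y ∧ P 𝔭}.ncard

end MPadcOA
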