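import Pool.Agent.Lib.MP_adc574_ag_CC.PDefs

/-!
# Theorem A (adc574), leaf O5: the Hasse-Witt determinant and `x ↦ 1 / x`

(1) `det_hw_reflect`: `N = (g + 1) (p - 1)`; the index `p (i + 1) - (j + 1)` is `≤ N` and `N - (p (i + 1) - (j + 1)) = p ((g - 1 - i) + 1) - ((g - 1 - j) + 1)`
(`g < p`), so `hw (reflect N G) i j = hw G (Fin.rev i) (Fin.rev j)` (`Polynomial.coeff_reflect`, `revAt`), `Matrix.det_submatrix_equiv_self Fin.revPerm`.

(2) `det_hw_inv`: `reflect (2 g + 2)` of `(X - s) * (X * ∏ (X - b j))` is `C c * ((X - 1/s) * ∏ (X - 1/b j))`, `c ≠ 0` (`Polynomial.reflect_mul`, `reflect 1 X = 1`,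
`reflect 1 (X - s) = 1 - s X = C (- s) * (X - 1/s)`, induction on the product), and `reflect ((2 g + 2) h) (F ^ h) = (reflect (2 g + 2) F) ^ h`, `(2 g + 2) h = (g + 1) (p - 1)`,
`hw (C c * G) = c • hw G`.
-/

set_option autoImplicit false

namespace MPadcOA

open Polynomial Matrix MPadcCC

theorem det_hw_reflect {k : Type*} [Field k] {p : ℕ} (g : ℕ) (hg : g < p) (G : k[X]) :
    (hw p (g + 1) (reflect ((g + 1) * (p - 1)) G)).det = (hw p (g + 1) G).det := by
  rw [← Matrix.det_submatrix_equiv_self Fin.revPerm (hw p (g + 1) G)]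
  congr 1
  ext i j
  show (reflect ((g + 1) * (p - 1)) G).coeff (p * (i.1 + 1) - (j.1 + 1)) =
    G.coeff (p * ((Fin.rev i).1 + 1) - ((Fin.rev j).1 + 1))
  obtain ⟨q, rfl⟩ : ∃ q, p = q + 1 := ⟨p - 1, by omega⟩
  have hi := i.2
  have hj := j.2
  have hi' : (Fin.rev i).1 + i.1 + 1 = g := by
    rw [Fin.val_rev]
    omega
  have hj' : (Fin.rev j).1 + j.1 + 1 = g := by
    rw [Fin.val_rev]
    omega
  have hsum : (q + 1) * (i.1 + 1) + (q + 1) * ((Fin.rev i).1 + 1) = (g + 1) * q + g + 1 := by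
    rw [← Nat.mul_add]
    have h1 : i.1 + 1 + ((Fin.rev i).1 + 1) = g + 1 := by omega
    rw [h1]
    ring
  have hA : q + 1 ≤ (q + 1) * (i.1 + 1) := Nat.le_mul_of_pos_right _ (Nat.succ_pos _)
  have hB : q + 1 ≤ (q + 1) * ((Fin.rev i).1 + 1) := Nat.le_mul_of_pos_right _ (Nat.succ_pos _)
  have hN : q + 1 - 1 = q := rfl
  rw [hN]
  generalize (q + 1) * (i.1 + 1) = A at hsum hA ⊢
  generalize (q + 1) * ((Fin.rev i).1 + 1) = B at hsum hB ⊢
  generalize (g + 1) * q = N at hsum ⊢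
  rw [coeff_reflect, revAt_le (by omega)]
  congr 1
  omega

private theorem O5b_lin {k : Type*} [Field k] (a : k) : reflect 1 (X - C a : k[X]) = 1 - C a * X := by
  have h1 : reflect 1 (X : k[X]) = 1 := by
    have h2 := reflect_monomial (R := k) 1 1
    rw [pow_one, revAt_le le_rfl, Nat.sub_self, pow_zero] at h2
    exact h2
  rw [sub_eq_add_neg, reflect_add, h1, reflect_neg, reflect_C, pow_one, sub_eq_add_neg]

private theorem O5b_inv {k : Type*} [Field k] {a : k} (ha : a ≠ 0) :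
    (1 - C a * X : k[X]) = C (-a) * (X - C a⁻¹) := by
  rw [mul_sub, ← C_mul, neg_mul, mul_inv_cancel₀ ha, C_neg, C_neg, C_1]
  ring

private theorem O5b_prod {k : Type*} [Field k] {ι : Type*} (b : ι → k) (t : Finset ι) :
    (∏ j ∈ t, (X - C (b j))).natDegree ≤ t.card ∧
      reflect t.card (∏ j ∈ t, (X - C (b j))) = ∏ j ∈ t, (1 - C (b j) * X) := by
  classical
  induction t using Finset.induction_on with
  | empty =>
    rw [Finset.prod_empty, Finset.prod_empty, Finset.card_empty]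
    refine ⟨natDegree_one.le, ?_⟩
    have h := reflect_C (1 : k) 0
    rw [C_1, pow_zero, one_mul] at h
    exact h
  | insert a t ha ih =>
    have h1 : (X - C (b a)).natDegree ≤ 1 := (natDegree_X_sub_C (b a)).le
    rw [Finset.prod_insert ha, Finset.prod_insert ha, Finset.card_insert_of_notMem ha, add_comm t.card 1]
    refine ⟨natDegree_mul_le.trans (add_le_add h1 ih.1), ?_⟩
    rw [reflect_mul _ _ h1 ih.1, O5b_lin, ih.2]

private theorem O5b_pow {k : Type*} [Field k] {N : ℕ} (f : k[X]) (hf : f.natDegree ≤ N) (n : ℕ) :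
    (f ^ n).natDegree ≤ N * n ∧ reflect (N * n) (f ^ n) = (reflect N f) ^ n := by
  induction n with
  | zero =>
    rw [pow_zero, pow_zero, mul_zero]
    refine ⟨natDegree_one.le, ?_⟩
    have h := reflect_C (1 : k) 0
    rw [C_1, pow_zero, one_mul] at h
    exact h
  | succ n ih =>
    rw [pow_succ, pow_succ, mul_add, mul_one]
    refine ⟨natDegree_mul_le.trans (add_le_add ih.1 hf), ?_⟩
    rw [reflect_mul _ _ ih.1 hf, ih.2]

private theorem O5b_hw {k : Type*} [Field k] (p m : ℕ) (c : k) (G : k[X]) :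
    hw p m (C c * G) = c • hw p m G := by
  ext i j
  show (C c * G).coeff _ = c * G.coeff _
  rw [coeff_C_mul]

theorem det_hw_inv {k : Type*} [Field k] {p : ℕ} (g : ℕ) (hg : g < p) (hp : Odd p) (s : k) (hs : s ≠ 0)
    (b : Fin (2 * g) → k) (hb : ∀ j, b j ≠ 0)
    (h : (hw p (g + 1) (((X - C s) * (X * ∏ j, (X - C (b j)))) ^ ((p - 1) / 2))).det = 0) :
    (hw p (g + 1) (((X - C s⁻¹) * ∏ j, (X - C (b j)⁻¹)) ^ ((p - 1) / 2))).det = 0 := by
  set n := (p - 1) / 2 with hn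
  set F : k[X] := (X - C s) * (X * ∏ j, (X - C (b j))) with hF
  set R : k[X] := (X - C s⁻¹) * ∏ j, (X - C (b j)⁻¹) with hR
  have hN : (g + 1) * (p - 1) = (1 + (1 + 2 * g)) * n := by
    obtain ⟨m, hm⟩ := hp
    have h1 : n = m := by omega
    have h2 : p - 1 = 2 * m := by omega
    rw [h1, h2]
    ring
  have hP := O5b_prod b (Finset.univ : Finset (Fin (2 * g)))
  rw [Finset.card_univ, Fintype.card_fin] at hP
  have hX : reflect 1 (X : k[X]) = 1 := by
    have h2 := reflect_monomial (R := k) 1 1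
    rw [pow_one, revAt_le le_rfl, Nat.sub_self, pow_zero] at h2
    exact h2
  have d1 : (X - C s).natDegree ≤ 1 := (natDegree_X_sub_C s).le
  have d2 : (X : k[X]).natDegree ≤ 1 := natDegree_X.le
  have d3 : (X * ∏ j, (X - C (b j))).natDegree ≤ 1 + 2 * g :=
    natDegree_mul_le.trans (add_le_add d2 hP.1)
  have d4 : F.natDegree ≤ 1 + (1 + 2 * g) := natDegree_mul_le.trans (add_le_add d1 d3)
  have hc : -s * ∏ j, (-(b j)) ≠ 0 :=
    mul_ne_zero (neg_ne_zero.2 hs) (Finset.prod_ne_zero_iff.2 fun j _ => neg_ne_zero.2 (hb j))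
  have hrF : reflect (1 + (1 + 2 * g)) F = C (-s * ∏ j, (-(b j))) * R := by
    rw [hF, reflect_mul _ _ d1 d3, reflect_mul _ _ d2 hP.1, hX, one_mul, hP.2, O5b_lin, O5b_inv hs,
      Finset.prod_congr rfl fun j _ => O5b_inv (hb j), Finset.prod_mul_distrib, hR, C_mul, map_prod]
    ring
  have hrG : reflect ((g + 1) * (p - 1)) (F ^ n) = C ((-s * ∏ j, (-(b j))) ^ n) * R ^ n := by
    rw [hN, (O5b_pow F d4 n).2, hrF, mul_pow, C_pow]
  have h1 := det_hw_reflect g hg (F ^ n)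
  rw [hrG, O5b_hw, Matrix.det_smul, h] at h1
  exact (mul_eq_zero.1 h1).resolve_left (pow_ne_zero _ (pow_ne_zero _ hc))

end MPadcOA
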