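import Pool.Agent.Lib.MP_adc574_ag_OA.Cnt
import Pool.Agent.Lib.MP_adc574_ag_OA.F13
import Pool.Agent.Lib.MP_adc574_ag_OA.BK10
import Pool.Agent.Lib.MP_adc574_ag_OA.O4
import Pool.Agent.Lib.MP_adc574_ag_OA.O5

/-!
# Theorem A (adc574): almost all rational points of a pencil of hyperelliptic curves are ordinary
-/

set_option autoImplicit false

namespace MPadcOA

open Polynomial Matrix MPadcCC

/-- The Hasse-Witt matrix of a multiple. -/
private theorem MainA_hw_smul {K : Type*} [Field K] (p m : ℕ) (c : K) (G : K[X]) :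
    hw p m (C c * G) = c • hw p m G := by
  ext i j
  simp [hw]

private theorem MainA_hw_map {K K' : Type*} [Field K] [Field K'] (φ : K →+* K') (p m : ℕ) (G : K[X]) :
    hw p m (G.map φ) = (hw p m G).map φ := by
  ext i j
  simp [hw]

/-- The roots of a separable polynomial. -/
private theorem MainA_roots {k : Type*} [Field k] [IsAlgClosed k] (n : ℕ) (f : k[X]) (hf : f.Monic)
    (hn : f.roots.Nodup) (hd : f.natDegree = n) :
    ∃ a : Fin n → k, Function.Injective a ∧ ∏ j, (X - C (a j)) = f := by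
  classical
  have hsplit : f.Splits := IsAlgClosed.splits f
  have hcard : f.roots.card = n := by
    rw [← hd]
    exact splits_iff_card_roots.1 hsplit
  obtain ⟨e⟩ : Nonempty (Fin n ≃ {x // x ∈ f.roots.toFinset}) := by
    refine ⟨Fintype.equivOfCardEq ?_⟩
    rw [Fintype.card_fin, Fintype.card_coe, Multiset.toFinset_card_of_nodup hn, hcard]
  refine ⟨fun j => (e j : k), Subtype.val_injective.comp e.injective, ?_⟩
  have h1 : ∏ j, (X - C ((e j : k))) = ∏ x ∈ f.roots.toFinset, (X - C x) := by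
    rw [← Finset.prod_coe_sort f.roots.toFinset fun x => X - C x]
    exact Fintype.prod_equiv e (fun j => X - C ((e j : k))) (fun x => X - C (x : k)) fun _ => rfl
  rw [h1]
  have h2 : (f.roots.map fun x => X - C x).prod = f :=
    (hsplit.eq_prod_roots_of_monic hf).symm
  rw [Finset.prod, Multiset.toFinset_val, Multiset.dedup_eq_self.2 hn]
  exact h2

private theorem MainA_det {E k : Type*} [Field E] [Field k] [Algebra E k] (p g : ℕ) (f : E[X]) (t : E)
    (h : (hw p (g + 1) (((X - C t) * f) ^ ((p - 1) / 2))).det = 0) :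
    (hw p (g + 1) (((X - C (algebraMap E k t)) * f.map (algebraMap E k)) ^ ((p - 1) / 2))).det = 0 := by
  have h4 : ((X - C (algebraMap E k t)) * f.map (algebraMap E k)) ^ ((p - 1) / 2) =
      (((X - C t) * f) ^ ((p - 1) / 2)).map (algebraMap E k) := by
    rw [Polynomial.map_pow, Polynomial.map_mul, Polynomial.map_sub, map_X, map_C]
  rw [h4, MainA_hw_map]
  have h5 := RingHom.map_det (algebraMap E k) (hw p (g + 1) (((X - C t) * f) ^ ((p - 1) / 2)))
  rw [h, map_zero] at h5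
  exact h5.symm

/-- Almost all rational points: `f` monic of even degree. -/
private theorem MainA_even (g : ℕ) (hg : 0 < g) (ε : ℝ) (hε : 0 < ε) : ∃ p₀ : ℕ, ∀ p : ℕ, p.Prime → p₀ ≤ p →
    ∀ (E : Type) [Field E] [Finite E] [CharP E p] (f : E[X]), f.Monic → Squarefree f →
    f.natDegree = 2 * g → ∀ Z : Finset E,
    (∀ t ∈ Z, f.eval t ≠ 0 ∧ (hw p (g + 1) (((X - C t) * f) ^ ((p - 1) / 2))).det = 0) →
    (Z.card : ℝ) ≤ ε * Nat.card E := by
  classical
  obtain ⟨c, p₁, hfam⟩ := fam g hg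
  obtain ⟨p₂, hcount⟩ := count g c hg ε hε
  refine ⟨p₁ + p₂, fun p hp hp₀ E _ _ _ f hf hsq hdeg Z hZ => ?_⟩
  have : Fact p.Prime := ⟨hp⟩
  have := Fintype.ofFinite E
  obtain ⟨n, hn, hcard⟩ := FiniteField.card E p
  let k : Type := AlgebraicClosure E
  have hk : CharP k p := charP_of_injective_algebraMap (algebraMap E k).injective p
  have hinf : Infinite k := IsAlgClosed.instInfinite
  obtain ⟨f', hf'⟩ : ∃ f' : k[X], f' = f.map (algebraMap E k) := ⟨_, rfl⟩
  obtain ⟨a, ha, hprod⟩ := MainA_roots (2 * g) f' (by rw [hf']; exact hf.map _) (by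
    apply nodup_roots
    rw [hf']
    exact (PerfectField.separable_iff_squarefree.2 hsq).map) (by rw [hf', natDegree_map, hdeg])
  obtain ⟨D, hDa, hD, hDU, hDhw⟩ := hfam p hp (by omega) k a ha
  have hΔ : D.Δ = f' := by rw [Dat.Δ, hDa, hprod]
  have h1 := hcount p hp (by omega) k D hD hDU n n.pos 0
    (Z.map ⟨algebraMap E k, (algebraMap E k).injective⟩) (by
    intro τ hτ
    obtain ⟨t, ht, rfl⟩ := Finset.mem_map.1 hτ
    obtain ⟨h2, h3⟩ := hZ t ht
    refine ⟨?_, ?_, ?_⟩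
    · show (algebraMap E k t) ^ p ^ (n : ℕ) * (1 + 0 * algebraMap E k t) = algebraMap E k t
      rw [zero_mul, add_zero, mul_one, ← map_pow, ← hcard, FiniteField.pow_card]
    · show D.Δ.eval (algebraMap E k t) ≠ 0
      rw [hΔ, hf', eval_map_algebraMap, aeval_algebraMap_apply_eq_algebraMap_eval]
      exact fun h => h2 ((algebraMap E k).injective (by rw [h, map_zero]))
    · show (fst (D.U.map (eval (algebraMap E k t)))).det = 0
      rw [hDhw, hprod, hf']
      exact MainA_det p g f t h3)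
  rw [Finset.card_map] at h1
  have h2 : (Nat.card E : ℝ) = (p : ℝ) ^ (n : ℕ) := by
    rw [Nat.card_eq_fintype_card, hcard]
    push_cast
    rfl
  rw [h2]
  exact h1

/-- Almost all rational points: `f` monic of odd degree. A root `α` of `f` is moved to infinity, the points `t`
with `t ^ q = t` become the points `τ = 1 / (t - α)` with `τ ^ q * (1 + (α - α ^ q) * τ) = τ`. -/
private theorem MainA_odd (g : ℕ) (hg : 0 < g) (ε : ℝ) (hε : 0 < ε) : ∃ p₀ : ℕ, ∀ p : ℕ, p.Prime → p₀ ≤ p →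
    ∀ (E : Type) [Field E] [Finite E] [CharP E p] (f : E[X]), f.Monic → Squarefree f →
    f.natDegree = 2 * g + 1 → ∀ Z : Finset E,
    (∀ t ∈ Z, f.eval t ≠ 0 ∧ (hw p (g + 1) (((X - C t) * f) ^ ((p - 1) / 2))).det = 0) →
    (Z.card : ℝ) ≤ ε * Nat.card E := by
  classical
  obtain ⟨c, p₁, hfam⟩ := fam g hg
  obtain ⟨p₂, hcount⟩ := count g c hg ε hε
  refine ⟨p₁ + p₂ + g + 3, fun p hp hp₀ E _ _ _ f hf hsq hdeg Z hZ => ?_⟩
  have : Fact p.Prime := ⟨hp⟩
  have := Fintype.ofFinite E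
  obtain ⟨n, hn, hcard⟩ := FiniteField.card E p
  have hodd : Odd p := hp.odd_of_ne_two (by omega)
  let k : Type := AlgebraicClosure E
  have hk : CharP k p := charP_of_injective_algebraMap (algebraMap E k).injective p
  have hinf : Infinite k := IsAlgClosed.instInfinite
  obtain ⟨f', hf'⟩ : ∃ f' : k[X], f' = f.map (algebraMap E k) := ⟨_, rfl⟩
  have hf'd : f'.natDegree = 2 * g + 1 := by rw [hf', natDegree_map, hdeg]
  obtain ⟨a, ha, hprod⟩ := MainA_roots (2 * g + 1) f' (by rw [hf']; exact hf.map _) (by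
    apply nodup_roots
    rw [hf']
    exact (PerfectField.separable_iff_squarefree.2 hsq).map) hf'd
  obtain ⟨α, hα⟩ : ∃ α, α = a 0 := ⟨_, rfl⟩
  obtain ⟨b, hb⟩ : ∃ b : Fin (2 * g) → k, ∀ j, b j = a j.succ - α := ⟨_, fun _ => rfl⟩
  have hb0 : ∀ j, b j ≠ 0 := by
    intro j h
    rw [hb, sub_eq_zero, hα] at h
    exact (Fin.succ_ne_zero j) (ha h)
  have hbinj : Function.Injective fun j => (b j)⁻¹ := by
    intro i j h
    have h1 : b i = b j := inv_injective h
    rw [hb, hb] at h1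
    exact Fin.succ_injective _ (ha (sub_left_injective h1))
  obtain ⟨D, hDa, hD, hDU, hDhw⟩ := hfam p hp (by omega) k (fun j => (b j)⁻¹) hbinj
  have hcomp : ∀ t : k, ((X - C t) * f').comp (X + C α) =
      (X - C (t - α)) * (X * ∏ j, (X - C (b j))) := by
    intro t
    have h0 : ∀ x : k, (X - C x : k[X]).comp (X + C α) = X - C (x - α) := by
      intro x
      rw [sub_comp, X_comp, C_comp, C_sub]
      ring
    rw [mul_comp, h0, ← hprod, Polynomial.prod_comp, Fin.prod_univ_succ, h0, ← hα, sub_self, C_0, sub_zero]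
    congr 2
    refine Finset.prod_congr rfl fun j _ => ?_
    rw [h0, hb]
  obtain ⟨γ, hγ⟩ : ∃ γ : k, γ = α - α ^ p ^ (n : ℕ) := ⟨_, rfl⟩
  have hinjτ : Function.Injective fun t : E => (algebraMap E k t - α)⁻¹ := by
    intro s t h
    exact (algebraMap E k).injective (sub_left_injective (inv_injective h))
  have h1 := hcount p hp (by omega) k D hD hDU n n.pos γ
    (Z.map ⟨fun t : E => (algebraMap E k t - α)⁻¹, hinjτ⟩) (by
    intro τ hτ
    obtain ⟨t, ht, rfl⟩ := Finset.mem_map.1 hτ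
    obtain ⟨h2, h3⟩ := hZ t ht
    have hne : ∀ j, algebraMap E k t - a j ≠ 0 := by
      intro j h
      apply h2
      apply (algebraMap E k).injective
      rw [map_zero, ← aeval_algebraMap_apply_eq_algebraMap_eval, ← eval_map_algebraMap, ← hf', ← hprod,
        eval_prod]
      refine Finset.prod_eq_zero (Finset.mem_univ j) ?_
      rw [eval_sub, eval_X, eval_C]
      exact h
    obtain ⟨s, hs⟩ : ∃ s, s = algebraMap E k t - α := ⟨_, rfl⟩
    have hs0 : s ≠ 0 := by
      rw [hs, hα]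
      exact hne 0
    have hsq : s ^ p ^ (n : ℕ) = s + γ := by
      rw [hs, hγ, sub_pow_char_pow, ← map_pow, ← hcard, FiniteField.pow_card]
      ring
    have hsγ : s + γ ≠ 0 := by
      rw [← hsq]
      exact pow_ne_zero _ hs0
    refine ⟨?_, ?_, ?_⟩
    · show ((algebraMap E k t - α)⁻¹) ^ p ^ (n : ℕ) * (1 + γ * (algebraMap E k t - α)⁻¹) =
        (algebraMap E k t - α)⁻¹
      have h4 : 1 + γ * s⁻¹ = (s + γ) * s⁻¹ := by rw [add_mul, mul_inv_cancel₀ hs0]
      rw [← hs, inv_pow, hsq, h4, ← mul_assoc, inv_mul_cancel₀ hsγ, one_mul]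
    · show D.Δ.eval (algebraMap E k t - α)⁻¹ ≠ 0
      rw [← hs, Dat.Δ, hDa, eval_prod]
      refine Finset.prod_ne_zero_iff.2 fun j _ h => ?_
      rw [eval_sub, eval_X, eval_C, sub_eq_zero] at h
      have h4 := inv_injective h
      rw [hs, hb] at h4
      exact hne j.succ (sub_eq_zero.2 (sub_left_injective h4))
    · show (fst (D.U.map (eval (algebraMap E k t - α)⁻¹))).det = 0
      rw [← hs, hDhw]
      refine det_hw_inv g (by omega) hodd s hs0 b hb0 ?_
      rw [hs, ← hcomp, ← pow_comp, det_hw_comp g (by omega) α, hf']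
      · exact MainA_det p g f t h3
      · have h4 : ((X - C (algebraMap E k t)) * f').natDegree ≤ 2 * g + 2 := by
          refine natDegree_mul_le.trans ?_
          rw [natDegree_X_sub_C, hf'd]
          omega
        refine (natDegree_pow_le_of_le _ h4).trans ?_
        obtain ⟨M, hM⟩ := hodd
        have h5 : (p - 1) / 2 = M := by omega
        have h6 : p - 1 = 2 * M := by omega
        rw [h5, h6]
        exact le_of_eq (by ring))
  rw [Finset.card_map] at h1
  have h2 : (Nat.card E : ℝ) = (p : ℝ) ^ (n : ℕ) := by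
    rw [Nat.card_eq_fintype_card, hcard]
    push_cast
    rfl
  rw [h2]
  exact h1

/-- Almost all rational points: `f` monic. -/
private theorem MainA_monic (g : ℕ) (hg : 0 < g) (ε : ℝ) (hε : 0 < ε) : ∃ p₀ : ℕ, ∀ p : ℕ, p.Prime → p₀ ≤ p →
    ∀ (E : Type) [Field E] [Finite E] [CharP E p] (f : E[X]), f.Monic → Squarefree f →
    (f.natDegree = 2 * g ∨ f.natDegree = 2 * g + 1) → ∀ Z : Finset E,
    (∀ t ∈ Z, f.eval t ≠ 0 ∧ (hw p (g + 1) (((X - C t) * f) ^ ((p - 1) / 2))).det = 0) →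
    (Z.card : ℝ) ≤ ε * Nat.card E := by
  obtain ⟨p₁, h₁⟩ := MainA_even g hg ε hε
  obtain ⟨p₂, h₂⟩ := MainA_odd g hg ε hε
  refine ⟨p₁ + p₂, fun p hp hp₀ E _ _ _ f hf hsq hdeg Z hZ => ?_⟩
  rcases hdeg with hdeg | hdeg
  · exact h₁ p hp (by omega) E f hf hsq hdeg Z hZ
  · exact h₂ p hp (by omega) E f hf hsq hdeg Z hZ

/-- **Theorem A**: the pencil `y² = (x - t) f(x)`, `f` squarefree of degree `2 g` or `2 g + 1`. -/
theorem almost_all (g : ℕ) (hg : 0 < g) (ε : ℝ) (hε : 0 < ε) : ∃ p₀ : ℕ, ∀ p : ℕ, p.Prime → p₀ ≤ p →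
    ∀ (E : Type) [Field E] [Finite E] [CharP E p] (f : E[X]), Squarefree f →
    (f.natDegree = 2 * g ∨ f.natDegree = 2 * g + 1) →
    (Nat.card {t : E // ¬ (Squarefree ((X - C t) * f) ∧ HyperIsOrdinary ((X - C t) * f))} : ℝ) ≤
      ε * Nat.card E := by
  classical
  obtain ⟨p₁, h1⟩ := MainA_monic g hg (ε / 2) (by positivity)
  obtain ⟨N, hN⟩ := exists_nat_gt (2 * (2 * g + 1 : ℝ) / ε)
  refine ⟨p₁ + N + (2 * g + 3), fun p hp hp₀ E _ _ _ f hsq hdeg => ?_⟩
  have : Fact p.Prime := ⟨hp⟩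
  have := Fintype.ofFinite E
  have hf0 : f ≠ 0 := hsq.ne_zero
  have hlc : f.leadingCoeff ≠ 0 := leadingCoeff_ne_zero.2 hf0
  obtain ⟨f₁, hf₁⟩ : ∃ f₁ : E[X], f₁ = C f.leadingCoeff⁻¹ * f := ⟨_, rfl⟩
  have hff : f = C f.leadingCoeff * f₁ := by
    rw [hf₁, ← mul_assoc, ← C_mul, mul_inv_cancel₀ hlc, C_1, one_mul]
  have hm : f₁.Monic := by
    rw [hf₁, Monic, leadingCoeff_mul, leadingCoeff_C, inv_mul_cancel₀ hlc]
  have hsq₁ : Squarefree f₁ := hsq.squarefree_of_dvd ⟨C f.leadingCoeff, by rw [mul_comm]; exact hff⟩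
  have hdeg₁ : f₁.natDegree = f.natDegree := by
    rw [hf₁, natDegree_C_mul (inv_ne_zero hlc)]
  -- the exceptional points
  obtain ⟨Z₁, hZ₁⟩ : ∃ Z₁ : Finset E, Z₁ = f₁.roots.toFinset := ⟨_, rfl⟩
  obtain ⟨Z₂, hZ₂⟩ : ∃ Z₂ : Finset E, Z₂ = Finset.univ.filter fun t => f₁.eval t ≠ 0 ∧
      (hw p (g + 1) (((X - C t) * f₁) ^ ((p - 1) / 2))).det = 0 := ⟨_, rfl⟩
  have hc₁ : Z₁.card ≤ 2 * g + 1 := by
    have h2 : Z₁.card ≤ f₁.natDegree := by
      rw [hZ₁]
      exact (Multiset.toFinset_card_le _).trans (card_roots' f₁)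
    omega
  have hc₂ := h1 p hp (by omega) E f₁ hm hsq₁ (by rw [hdeg₁]; exact hdeg) Z₂ (by
    intro t ht
    rw [hZ₂, Finset.mem_filter] at ht
    exact ht.2)
  have hbad : ∀ t : E, ¬ (Squarefree ((X - C t) * f) ∧ HyperIsOrdinary ((X - C t) * f)) →
      t ∈ Z₁ ∪ Z₂ := by
    intro t ht
    by_contra hcon
    apply ht
    rw [Finset.mem_union, not_or] at hcon
    obtain ⟨hn₁, hn₂⟩ := hcon
    have he : f₁.eval t ≠ 0 := by
      intro h
      apply hn₁
      rw [hZ₁, Multiset.mem_toFinset, mem_roots hm.ne_zero]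
      exact h
    have hdet : (hw p (g + 1) (((X - C t) * f₁) ^ ((p - 1) / 2))).det ≠ 0 := by
      intro h
      apply hn₂
      rw [hZ₂, Finset.mem_filter]
      exact ⟨Finset.mem_univ _, he, h⟩
    have he' : f.eval t ≠ 0 := by
      rw [hff, eval_mul, eval_C]
      exact mul_ne_zero hlc he
    have hsqF : Squarefree ((X - C t) * f) := by
      rw [squarefree_mul_iff]
      refine ⟨?_, (irreducible_X_sub_C t).squarefree, hsq⟩
      apply IsCoprime.isRelPrime
      rw [(irreducible_X_sub_C t).coprime_iff_not_dvd, dvd_iff_isRoot]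
      exact he'
    refine ⟨hsqF, ?_⟩
    have hdF : ((X - C t) * f).natDegree = 2 * g + 1 ∨ ((X - C t) * f).natDegree = 2 * g + 2 := by
      rw [natDegree_mul (X_sub_C_ne_zero t) hf0, natDegree_X_sub_C]
      omega
    refine isOrdinary_hyper g (by omega) _ hsqF hdF ?_
    have h2 : ((X - C t) * f) ^ ((p - 1) / 2) =
        C (f.leadingCoeff ^ ((p - 1) / 2)) * ((X - C t) * f₁) ^ ((p - 1) / 2) := by
      conv_lhs => rw [hff]
      rw [C_pow, ← mul_pow]
      congr 1
      ring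
    rw [h2, MainA_hw_smul, det_smul]
    exact mul_ne_zero (pow_ne_zero _ (pow_ne_zero _ hlc)) hdet
  have hle : Nat.card {t : E // ¬ (Squarefree ((X - C t) * f) ∧ HyperIsOrdinary ((X - C t) * f))} ≤
      (Z₁ ∪ Z₂).card := by
    rw [Nat.card_eq_fintype_card, Fintype.card_subtype]
    refine Finset.card_le_card fun t ht => ?_
    rw [Finset.mem_filter] at ht
    exact hbad t ht.2
  have hpE : (p : ℝ) ≤ Nat.card E := by
    obtain ⟨n, hn, hcard⟩ := FiniteField.card E p
    rw [Nat.card_eq_fintype_card, hcard]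
    exact_mod_cast Nat.le_self_pow n.pos.ne' p
  have hpN : (N : ℝ) ≤ p := by exact_mod_cast (by omega : N ≤ p)
  have h3 : (2 * g + 1 : ℝ) ≤ ε / 2 * Nat.card E := by
    have h4 : 2 * (2 * g + 1 : ℝ) / ε ≤ Nat.card E := hN.le.trans (hpN.trans hpE)
    rw [div_le_iff₀ hε] at h4
    linarith
  calc (Nat.card {t : E // ¬ (Squarefree ((X - C t) * f) ∧ HyperIsOrdinary ((X - C t) * f))} : ℝ) ≤
        ((Z₁ ∪ Z₂).card : ℝ) := by exact_mod_cast hle
    _ ≤ (Z₁.card : ℝ) + Z₂.card := by exact_mod_cast Finset.card_union_le Z₁ Z₂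
    _ ≤ (2 * g + 1) + ε / 2 * Nat.card E := by
        have : (Z₁.card : ℝ) ≤ 2 * g + 1 := by exact_mod_cast hc₁
        linarith
    _ ≤ ε * Nat.card E := by linarith

end MPadcOA
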