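import Mathlib

/-! LEAF NC1 -/

set_option autoImplicit false

namespace MPadcOA

open Matrix

private def NC1_L {k : Type} [Field k] {r s : ℕ} (A : Matrix (Fin s) (Fin s) k) :
    Module.End k (Matrix (Fin s) (Fin r) k) where
  toFun X := A * X
  map_add' := Matrix.mul_add A
  map_smul' c X := Matrix.mul_smul A c X

private def NC1_R {k : Type} [Field k] {r s : ℕ} (B : Matrix (Fin r) (Fin r) k) :
    Module.End k (Matrix (Fin s) (Fin r) k) where
  toFun X := X * B
  map_add' X Y := Matrix.add_mul X Y B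
  map_smul' c X := Matrix.smul_mul c X B

private theorem NC1_Lpow {k : Type} [Field k] {r s : ℕ} (A : Matrix (Fin s) (Fin s) k) (n : ℕ)
    (X : Matrix (Fin s) (Fin r) k) : (NC1_L A ^ n) X = A ^ n * X := by
  induction n with
  | zero =>
    rw [pow_zero, pow_zero, Matrix.one_mul]
    rfl
  | succ n ih =>
    rw [pow_succ', pow_succ', Module.End.mul_apply, ih, Matrix.mul_assoc]
    rfl

private theorem NC1_Rpow {k : Type} [Field k] {r s : ℕ} (B : Matrix (Fin r) (Fin r) k) (n : ℕ)
    (X : Matrix (Fin s) (Fin r) k) : (NC1_R B ^ n) X = X * B ^ n := by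
  induction n with
  | zero =>
    rw [pow_zero, pow_zero, Matrix.mul_one]
    rfl
  | succ n ih =>
    rw [pow_succ', pow_succ, Module.End.mul_apply, ih, ← Matrix.mul_assoc]
    rfl

private theorem NC1_nil {k : Type} [Field k] {r s : ℕ} (A : Matrix (Fin s) (Fin s) k)
    (B : Matrix (Fin r) (Fin r) k) (hA : IsNilpotent A) (hB : IsNilpotent B) :
    IsNilpotent ((NC1_L A : Module.End k (Matrix (Fin s) (Fin r) k)) - NC1_R B) := by
  have h1 : IsNilpotent (NC1_L A : Module.End k (Matrix (Fin s) (Fin r) k)) := by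
    obtain ⟨n, hn⟩ := hA
    refine ⟨n, LinearMap.ext fun X => ?_⟩
    rw [NC1_Lpow, hn, Matrix.zero_mul, LinearMap.zero_apply]
  have h2 : IsNilpotent (NC1_R B : Module.End k (Matrix (Fin s) (Fin r) k)) := by
    obtain ⟨n, hn⟩ := hB
    refine ⟨n, LinearMap.ext fun X => ?_⟩
    rw [NC1_Rpow, hn, Matrix.mul_zero, LinearMap.zero_apply]
  have hc : Commute (NC1_L A : Module.End k (Matrix (Fin s) (Fin r) k)) (NC1_R B) := by
    refine LinearMap.ext fun X => ?_
    exact (Matrix.mul_assoc A X B).symm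
  exact hc.isNilpotent_sub h1 h2

/-- Proof. The endomorphisms `X ↦ A * X` and `X ↦ X * B` of the space of the matrices commute and are nilpotent (`A ^ n * X = 0` for large `n`), so
`T X := A * X - X * B` is nilpotent (`Commute.isNilpotent_sub` or `Commute.isNilpotent_sum`). From `c • X + T X = 0`: `X = (-c⁻¹) • T X`, so
`X = (-c⁻¹) ^ n • T ^ n X = 0` for large `n` (induction). -/
theorem nilp_inj {k : Type} [Field k] {r s : ℕ} (A : Matrix (Fin s) (Fin s) k) (B : Matrix (Fin r) (Fin r) k) (hA : IsNilpotent A)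
    (hB : IsNilpotent B) (c : k) (hc : c ≠ 0) (Y : Matrix (Fin s) (Fin r) k) (h : c • Y + A * Y - Y * B = 0) : Y = 0 := by
  obtain ⟨T, hTd⟩ : ∃ T : Module.End k (Matrix (Fin s) (Fin r) k), T = NC1_L A - NC1_R B := ⟨_, rfl⟩
  obtain ⟨n, hn⟩ : IsNilpotent T := hTd ▸ NC1_nil A B hA hB
  have hT : T Y = (-c) • Y := by
    have h1 : T Y = A * Y - Y * B := by
      rw [hTd]
      rfl
    rw [h1, neg_smul, eq_neg_iff_add_eq_zero, ← h]
    abel
  have hTn : ∀ m : ℕ, (T ^ m) Y = (-c) ^ m • Y := by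
    intro m
    induction m with
    | zero =>
      rw [pow_zero, pow_zero, one_smul]
      rfl
    | succ m ih =>
      rw [pow_succ', Module.End.mul_apply, ih, map_smul, hT, smul_smul, pow_succ]
  have h0 := hTn n
  rw [hn, LinearMap.zero_apply] at h0
  exact (smul_eq_zero.1 h0.symm).resolve_left (pow_ne_zero n (neg_ne_zero.2 hc))

end MPadcOA
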