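import Pool.Agent.Lib.MP_adc574_ag_OA.N_C1

/-! LEAF NC2: the local argument at a singular point -/

set_option autoImplicit false

namespace MPadcOA

open Matrix Polynomial

/-- Proof. Show by induction on `n ≤ p`, `1 ≤ n`, that `(X - C a) ^ n` divides all entries of `e`; `n = 1`: `h0` (`dvd_iff_isRoot`). Step from `n` to `n + 1`,
`n < p`: write `e i j = (X - C a) ^ n * e' i j` (choose). Write `Δ = (X - C a) * Δ'` (`hΔ`), so `Δ'.eval a = (derivative Δ).eval a ≠ 0`. Insert into `he`:
`Δ * (n (X - C a) ^ (n - 1) * e' + (X - C a) ^ n * derivative e') = (X - C a) ^ n * (e' * B - A * e')`, i.e. after cancelling `(X - C a) ^ n`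
(domain): `n Δ' e' + (X - C a) Δ' derivative e' = e' B - A e'`. Evaluate at `a`: `(n Δ'(a)) • e'(a) + A(a) e'(a) - e'(a) B(a) = 0` with
`n Δ'(a) ≠ 0` in `k` (`0 < n < p`, `CharP.cast_eq_zero_iff`): `nilp_inj` gives `e'(a) = 0`, so `(X - C a) ∣ e' i j`. -/
theorem loc_dvd {k : Type} [Field k] {p : ℕ} [CharP k p] (hp : p.Prime) (a : k) (Δ : k[X]) (hΔ : Δ.eval a = 0)
    (hΔ' : (derivative Δ).eval a ≠ 0) {r s : ℕ} (A : Matrix (Fin s) (Fin s) k[X]) (B : Matrix (Fin r) (Fin r) k[X])
    (hA : IsNilpotent (A.map (eval a))) (hB : IsNilpotent (B.map (eval a))) (e : Matrix (Fin s) (Fin r) k[X])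
    (he : ∀ i j, Δ * derivative (e i j) = (e * B - A * e) i j) (h0 : ∀ i j, (e i j).eval a = 0) (i : Fin s) (j : Fin r) :
    (X - C a) ^ p ∣ e i j := by
  obtain ⟨Δ', hΔ1⟩ := dvd_iff_isRoot.mpr hΔ
  have hΔ2 : Δ'.eval a = (derivative Δ).eval a := by
    rw [hΔ1, derivative_mul, derivative_sub, derivative_X, derivative_C, sub_zero, one_mul, eval_add, eval_mul,
      eval_sub, eval_X, eval_C, sub_self, zero_mul, add_zero]
  have key : ∀ n : ℕ, n + 1 ≤ p → ∀ i j, (X - C a) ^ (n + 1) ∣ e i j := by
    intro n
    induction n with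
    | zero =>
      intro _ i j
      rw [zero_add, pow_one]
      exact dvd_iff_isRoot.mpr (h0 i j)
    | succ n ih =>
      intro hn
      choose e' he' using ih (by omega)
      obtain ⟨E', hE'⟩ : ∃ E' : Matrix (Fin s) (Fin r) k[X], E' = Matrix.of e' := ⟨_, rfl⟩
      have hE1 : ∀ i j, E' i j = e' i j := fun i j => by rw [hE']; rfl
      have hq : ((X : k[X]) - C a) ^ (n + 1) ≠ 0 := pow_ne_zero _ (X_sub_C_ne_zero a)
      have h1 : ∀ i j, ((n + 1 : ℕ) : k[X]) * Δ' * E' i j + (X - C a) * Δ' * derivative (E' i j) =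
          (E' * B) i j - (A * E') i j := by
        intro i j
        have h2 := he i j
        have h3 : (e * B) i j = (X - C a) ^ (n + 1) * (E' * B) i j := by
          rw [Matrix.mul_apply, Matrix.mul_apply, Finset.mul_sum]
          refine Finset.sum_congr rfl fun l _ => ?_
          rw [he', hE1, mul_assoc]
        have h4 : (A * e) i j = (X - C a) ^ (n + 1) * (A * E') i j := by
          rw [Matrix.mul_apply, Matrix.mul_apply, Finset.mul_sum]
          refine Finset.sum_congr rfl fun l _ => ?_
          rw [he', hE1]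
          ring
        have h5 : derivative (e i j) = ((n + 1 : ℕ) : k[X]) * (X - C a) ^ n * E' i j +
            (X - C a) ^ (n + 1) * derivative (E' i j) := by
          rw [he', ← hE1, derivative_mul, derivative_pow, derivative_sub, derivative_X, derivative_C, sub_zero,
            mul_one, Nat.add_sub_cancel, map_natCast]
        rw [Matrix.sub_apply, h3, h4, h5] at h2
        apply mul_left_cancel₀ hq
        rw [mul_sub, ← h2]
        conv_rhs => rw [hΔ1]
        ring
      obtain ⟨Y, hY⟩ : ∃ Y : Matrix (Fin s) (Fin r) k, Y = E'.map (eval a) := ⟨_, rfl⟩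
      have hY1 : ∀ i j, Y i j = (E' i j).eval a := fun i j => by rw [hY]; rfl
      have hc : ((n + 1 : ℕ) : k) * Δ'.eval a ≠ 0 := by
        refine mul_ne_zero ?_ (by rwa [hΔ2])
        rw [Ne, CharP.cast_eq_zero_iff k p]
        intro hd
        have := Nat.le_of_dvd (Nat.succ_pos n) hd
        omega
      have h6 : Y = 0 := by
        refine nilp_inj (A.map (eval a)) (B.map (eval a)) hA hB _ hc Y ?_
        ext i j
        have h7 := congrArg (eval a) (h1 i j)
        rw [eval_sub, eval_add, eval_mul, eval_mul, eval_mul, eval_mul, eval_natCast, eval_sub, eval_X, eval_C,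
          sub_self, zero_mul, zero_mul, add_zero] at h7
        have h8 : ((E' * B) i j).eval a = (Y * B.map (eval a)) i j := by
          rw [Matrix.mul_apply, Matrix.mul_apply, eval_finsetSum]
          refine Finset.sum_congr rfl fun l _ => ?_
          rw [eval_mul, hY1, Matrix.map_apply]
        have h9 : ((A * E') i j).eval a = (A.map (eval a) * Y) i j := by
          rw [Matrix.mul_apply, Matrix.mul_apply, eval_finsetSum]
          refine Finset.sum_congr rfl fun l _ => ?_
          rw [eval_mul, hY1, Matrix.map_apply]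
        rw [h8, h9, ← hY1] at h7
        rw [Matrix.sub_apply, Matrix.add_apply, Matrix.smul_apply, smul_eq_mul, Matrix.zero_apply, h7]
        ring
      intro i j
      have h7 : (E' i j).eval a = 0 := by
        rw [← hY1, h6, Matrix.zero_apply]
      rw [he', ← hE1, pow_succ _ (n + 1)]
      exact mul_dvd_mul_left _ (dvd_iff_isRoot.mpr h7)
  have h1 := key (p - 1) (by have := hp.one_lt; omega) i j
  rwa [Nat.sub_add_cancel hp.one_lt.le] at h1

end MPadcOA
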