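import Pool.Agent.Lib.MP_adc574_ag_OA.N_C2

/-! LEAF NC3: an invariant subspace of the differential system is invariant under the horizontal endomorphism -/

set_option autoImplicit false

namespace MPadcOA

open Matrix Polynomial

private theorem NC3_leib {k : Type} [Field k] {L M N : Type} [Fintype M] (U : Matrix L M k[X]) (V : Matrix M N k[X]) :
    (U * V).map derivative = U.map derivative * V + U * V.map derivative := by
  ext1 i j
  simp only [Matrix.map_apply, Matrix.mul_apply, Matrix.add_apply, derivative_sum, derivative_mul,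
    Finset.sum_add_distrib]

private theorem NC3_21 {S : Type} [CommRing S] {r s : ℕ} (U V : Matrix (Fin r ⊕ Fin s) (Fin r ⊕ Fin s) S) :
    (U * V).toBlocks₂₁ = U.toBlocks₂₁ * V.toBlocks₁₁ + U.toBlocks₂₂ * V.toBlocks₂₁ := by
  ext1 i j
  simp only [Matrix.toBlocks₂₁, Matrix.toBlocks₂₂, Matrix.toBlocks₁₁, Matrix.of_apply, Matrix.mul_apply,
    Matrix.add_apply, Fintype.sum_sum_type]

private theorem NC3_11 {S : Type} [CommRing S] {r s : ℕ} (U V : Matrix (Fin r ⊕ Fin s) (Fin r ⊕ Fin s) S) :
    (U * V).toBlocks₁₁ = U.toBlocks₁₁ * V.toBlocks₁₁ + U.toBlocks₁₂ * V.toBlocks₂₁ := by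
  ext1 i j
  simp only [Matrix.toBlocks₂₁, Matrix.toBlocks₁₂, Matrix.toBlocks₁₁, Matrix.of_apply, Matrix.mul_apply,
    Matrix.add_apply, Fintype.sum_sum_type]

private theorem NC3_22 {S : Type} [CommRing S] {r s : ℕ} (U V : Matrix (Fin r ⊕ Fin s) (Fin r ⊕ Fin s) S) :
    (U * V).toBlocks₂₂ = U.toBlocks₂₁ * V.toBlocks₁₂ + U.toBlocks₂₂ * V.toBlocks₂₂ := by
  ext1 i j
  simp only [Matrix.toBlocks₂₁, Matrix.toBlocks₁₂, Matrix.toBlocks₂₂, Matrix.of_apply, Matrix.mul_apply,
    Matrix.add_apply, Fintype.sum_sum_type]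

private theorem NC3_pow {S : Type} [CommRing S] {r s : ℕ} (U : Matrix (Fin r ⊕ Fin s) (Fin r ⊕ Fin s) S)
    (hU : U.toBlocks₂₁ = 0) (n : ℕ) :
    (U ^ n).toBlocks₂₁ = 0 ∧ (U ^ n).toBlocks₁₁ = U.toBlocks₁₁ ^ n ∧ (U ^ n).toBlocks₂₂ = U.toBlocks₂₂ ^ n := by
  induction n with
  | zero =>
    refine ⟨?_, ?_, ?_⟩
    · ext1 i j
      simp [Matrix.toBlocks₂₁]
    · ext1 i j
      simp [Matrix.toBlocks₁₁, Matrix.one_apply]
    · ext1 i j
      simp [Matrix.toBlocks₂₂, Matrix.one_apply]
  | succ n ih =>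
    obtain ⟨h1, h2, h3⟩ := ih
    refine ⟨?_, ?_, ?_⟩
    · rw [pow_succ, NC3_21, h1, hU, Matrix.zero_mul, Matrix.mul_zero, add_zero]
    · rw [pow_succ, NC3_11, h2, hU, Matrix.mul_zero, add_zero, pow_succ]
    · rw [pow_succ, NC3_22, h1, h3, Matrix.zero_mul, zero_add, pow_succ]

private theorem NC3_blk_nil {S : Type} [CommRing S] {r s : ℕ} (U : Matrix (Fin r ⊕ Fin s) (Fin r ⊕ Fin s) S)
    (hU : U.toBlocks₂₁ = 0) (hn : IsNilpotent U) : IsNilpotent U.toBlocks₁₁ ∧ IsNilpotent U.toBlocks₂₂ := by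
  obtain ⟨n, hn⟩ := hn
  obtain ⟨_, h2, h3⟩ := NC3_pow U hU n
  rw [hn] at h2 h3
  refine ⟨⟨n, ?_⟩, ⟨n, ?_⟩⟩
  · rw [← h2]
    rfl
  · rw [← h3]
    rfl

private theorem NC3_conj {S : Type} [CommRing S] {M N : Type} [Fintype M] [DecidableEq M] [Fintype N] [DecidableEq N]
    (B : Matrix N N S) (P : Matrix N M S) (Q : Matrix M N S) (hQP : Q * P = 1) (hPQ : P * Q = 1)
    (hB : IsNilpotent B) : IsNilpotent (Q * (B * P)) := by
  obtain ⟨n, hn⟩ := hB
  have h1 : ∀ n : ℕ, (Q * (B * P)) ^ n = Q * (B ^ n * P) := by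
    intro n
    induction n with
    | zero => rw [pow_zero, pow_zero, Matrix.one_mul, hQP]
    | succ n ih =>
      rw [pow_succ, ih, pow_succ]
      calc Q * (B ^ n * P) * (Q * (B * P)) = Q * (B ^ n * (P * Q) * (B * P)) := by
            simp only [Matrix.mul_assoc]
        _ = Q * (B ^ n * B * P) := by rw [hPQ, Matrix.mul_one, Matrix.mul_assoc]
  refine ⟨n, ?_⟩
  rw [h1, hn, Matrix.zero_mul, Matrix.mul_zero]

private theorem NC3_hor {k : Type} [Field k] {M N : Type} [Fintype M] [DecidableEq M] [Fintype N] [DecidableEq N]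
    (Δ : k[X]) (B R : Matrix N N k[X]) (hor : Δ • R.map derivative = R * B - B * R)
    (P : Matrix N M k[X]) (Q : Matrix M N k[X]) (hQP : Q * P = 1) (hPQ : P * Q = 1) :
    Δ • (Q * R * P).map derivative =
      (Q * R * P) * (Q * (Δ • P.map derivative + B * P)) - (Q * (Δ • P.map derivative + B * P)) * (Q * R * P) := by
  have h0 : Q.map derivative * P + Q * P.map derivative = 0 := by
    rw [← NC3_leib, hQP]
    ext1 i j
    rw [Matrix.map_apply, Matrix.zero_apply, Matrix.one_apply]
    split_ifs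
    · exact derivative_one
    · exact derivative_zero
  have h1 : Q.map derivative = -(Q * P.map derivative * Q) := by
    have h2 : (Q.map derivative * P + Q * P.map derivative) * Q = 0 := by rw [h0, Matrix.zero_mul]
    rw [Matrix.add_mul, Matrix.mul_assoc, hPQ, Matrix.mul_one] at h2
    exact eq_neg_of_add_eq_zero_left h2
  have h3 : (Q * R * P) * (Q * (Δ • P.map derivative + B * P)) =
      Δ • (Q * R * P.map derivative) + Q * (R * B) * P := by
    calc (Q * R * P) * (Q * (Δ • P.map derivative + B * P)) = Q * R * (P * Q) * (Δ • P.map derivative + B * P) := by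
          simp only [Matrix.mul_assoc]
      _ = Δ • (Q * R * P.map derivative) + Q * (R * B) * P := by
          rw [hPQ, Matrix.mul_one, Matrix.mul_add, Matrix.mul_smul]
          simp only [Matrix.mul_assoc]
  have h4 : (Q * (Δ • P.map derivative + B * P)) * (Q * R * P) =
      Δ • (Q * P.map derivative * Q * R * P) + Q * (B * R) * P := by
    calc (Q * (Δ • P.map derivative + B * P)) * (Q * R * P)
        = Δ • (Q * P.map derivative * Q * R * P) + Q * B * (P * Q) * (R * P) := by
          rw [Matrix.mul_add, Matrix.add_mul, Matrix.mul_smul, Matrix.smul_mul]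
          simp only [Matrix.mul_assoc]
      _ = Δ • (Q * P.map derivative * Q * R * P) + Q * (B * R) * P := by
          rw [hPQ, Matrix.mul_one]
          simp only [Matrix.mul_assoc]
  have h5 : (Q * R * P).map derivative =
      Q.map derivative * R * P + Q * R.map derivative * P + Q * R * P.map derivative := by
    rw [NC3_leib, NC3_leib, Matrix.add_mul]
  have h6 : Δ • (Q * R.map derivative * P) = Q * (R * B) * P - Q * (B * R) * P := by
    rw [← Matrix.smul_mul, ← Matrix.mul_smul, hor, Matrix.mul_sub, Matrix.sub_mul]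
  rw [h3, h4, h5, smul_add, smul_add, h6, h1, Matrix.neg_mul, Matrix.neg_mul, smul_neg]
  abel

/-- Proof. Put `B' := Q * (Δ • P.map derivative + B * P)`, `R' := Q * R * P`. From `Q * P = 1`: `(Q.map derivative) * P + Q * P.map derivative = 0`, so (Leibniz
for products of matrices) `Δ • R'.map derivative = R' * B' - B' * R'` (use `P * Q = 1` to insert `P * Q` in the middle). The block `B'.toBlocks₂₁` is zero (`htri`), so
with `e := R'.toBlocks₂₁`, `A := B'.toBlocks₂₂`, `B₁ := B'.toBlocks₁₁`: `Δ * derivative (e i j) = (e * B₁ - A * e) i j` (`Matrix.fromBlocks_multiply`). At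
`α = a j`: `Δ(α) = 0`, so `B'(α) = Q(α) B(α) P(α)` is nilpotent (conjugate of the nilpotent matrix `B(α)`, `Q(α) P(α) = 1`, `P(α) Q(α) = 1`) and block
triangular, so its diagonal blocks are nilpotent (the powers of a block triangular matrix are block triangular with the powers of the diagonal blocks);
`R'(α) = s • B'(α)`, so `e(α) = 0`. `derivative Δ` at `a j` is not zero as the `a j` are different (`Polynomial.derivative_prod`, or: `Δ` is separable,
`Polynomial.separable_prod_X_sub_C_iff`; write `Δ = (X - C (a j)) * ∏ ..`). `loc_dvd`: `(X - C (a j)) ^ p ∣ e i l` for all `j`; these are pairwise coprime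
(`Polynomial.isCoprime_X_sub_C_of_isUnit_sub`, `IsCoprime.pow`), so the product, of degree `d * p`, divides `e i l`
(`Finset.prod_dvd_of_coprime`), which has smaller degree: `e i l = 0`. (`0 < d` is not needed: for `d = 0` the hypothesis `hdeg` is empty.) -/
theorem tri {k : Type} [Field k] {p : ℕ} [CharP k p] (hp : p.Prime) {d : ℕ} (a : Fin d → k) (ha : Function.Injective a)
    {N : Type} [Fintype N] [DecidableEq N] (B R : Matrix N N k[X])
    (hor : ∀ i j, (∏ l, (X - C (a l))) * derivative (R i j) = (R * B - B * R) i j)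
    (nil : ∀ j, IsNilpotent (B.map (eval (a j)))) (res : ∀ j, ∃ s : k, R.map (eval (a j)) = s • B.map (eval (a j)))
    {r s : ℕ} (P : Matrix N (Fin r ⊕ Fin s) k[X]) (Q : Matrix (Fin r ⊕ Fin s) N k[X]) (hQP : Q * P = 1) (hPQ : P * Q = 1)
    (htri : (Q * ((∏ l, (X - C (a l))) • P.map derivative + B * P)).toBlocks₂₁ = 0)
    (hdeg : ∀ i j, ((Q * R * P) i j).natDegree < d * p) : (Q * R * P).toBlocks₂₁ = 0 := by
  classical
  set Δ : k[X] := ∏ l, (X - C (a l)) with hΔdef
  have horM : Δ • R.map derivative = R * B - B * R := by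
    ext1 i j
    rw [Matrix.smul_apply, Matrix.map_apply, smul_eq_mul]
    exact hor i j
  set B' := Q * (Δ • P.map derivative + B * P) with hB'
  set R' := Q * R * P with hR'
  have hhor : Δ • R'.map derivative = R' * B' - B' * R' := NC3_hor Δ B R horM P Q hQP hPQ
  have he : ∀ i j, Δ * derivative (R'.toBlocks₂₁ i j) =
      (R'.toBlocks₂₁ * B'.toBlocks₁₁ - B'.toBlocks₂₂ * R'.toBlocks₂₁) i j := by
    intro i j
    have h1 := congrFun (congrFun hhor (Sum.inr i)) (Sum.inl j)
    have h2 : (R' * B').toBlocks₂₁ i j = (R'.toBlocks₂₁ * B'.toBlocks₁₁) i j := by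
      rw [NC3_21, htri, Matrix.mul_zero, add_zero]
    have h3 : (B' * R').toBlocks₂₁ i j = (B'.toBlocks₂₂ * R'.toBlocks₂₁) i j := by
      rw [NC3_21, htri, Matrix.zero_mul, zero_add]
    rw [Matrix.sub_apply, ← h2, ← h3]
    exact h1
  have hev : ∀ (α : k), Δ.eval α = 0 → B'.map (eval α) = Q.map (eval α) * (B.map (eval α) * P.map (eval α)) := by
    intro α hα
    have h1 : B'.map (evalRingHom α) =
        Q.map (evalRingHom α) * (Δ.eval α • (P.map derivative).map (evalRingHom α) +
          B.map (evalRingHom α) * P.map (evalRingHom α)) := by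
      rw [hB', Matrix.map_mul]
      refine congrArg _ ?_
      rw [← Matrix.map_mul]
      ext1 i j
      simp [Matrix.map_apply]
    rw [hα, zero_smul, zero_add] at h1
    exact h1
  have hevR : ∀ (α : k), R'.map (eval α) = Q.map (eval α) * R.map (eval α) * P.map (eval α) := by
    intro α
    have h1 : R'.map (evalRingHom α) = Q.map (evalRingHom α) * R.map (evalRingHom α) * P.map (evalRingHom α) := by
      rw [hR', Matrix.map_mul, Matrix.map_mul]
    exact h1
  have hmap1 : ∀ α : k, Q.map (eval α) * P.map (eval α) = 1 := by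
    intro α
    have h1 : Q.map (evalRingHom α) * P.map (evalRingHom α) = 1 := by
      rw [← Matrix.map_mul, hQP, Matrix.map_one _ (map_zero _) (map_one _)]
    exact h1
  have hmap2 : ∀ α : k, P.map (eval α) * Q.map (eval α) = 1 := by
    intro α
    have h1 : P.map (evalRingHom α) * Q.map (evalRingHom α) = 1 := by
      rw [← Matrix.map_mul, hPQ, Matrix.map_one _ (map_zero _) (map_one _)]
    exact h1
  have hΔ0 : ∀ j, Δ.eval (a j) = 0 := by
    intro j
    rw [hΔdef, Polynomial.eval_prod]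
    exact Finset.prod_eq_zero (Finset.mem_univ j) (by rw [eval_sub, eval_X, eval_C, sub_self])
  have hΔ1 : ∀ j, (derivative Δ).eval (a j) ≠ 0 := by
    intro j
    rw [hΔdef, ← Finset.mul_prod_erase Finset.univ _ (Finset.mem_univ j), derivative_mul, derivative_sub, derivative_X,
      derivative_C, sub_zero, one_mul, eval_add, eval_mul, eval_sub, eval_X, eval_C, sub_self, zero_mul, add_zero,
      Polynomial.eval_prod]
    refine Finset.prod_ne_zero_iff.mpr fun l hl => ?_
    rw [eval_sub, eval_X, eval_C, sub_ne_zero]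
    exact fun h => Finset.ne_of_mem_erase hl (ha h.symm)
  have hloc : ∀ j i l, (X - C (a j)) ^ p ∣ R'.toBlocks₂₁ i l := by
    intro j i l
    have hb21 : (B'.map (eval (a j))).toBlocks₂₁ = 0 := by
      have h1 : (B'.map (eval (a j))).toBlocks₂₁ = (B'.toBlocks₂₁).map (eval (a j)) := rfl
      rw [h1, htri]
      ext1 x y
      simp
    have hnil : IsNilpotent (B'.map (eval (a j))) := by
      rw [hev _ (hΔ0 j)]
      exact NC3_conj _ _ _ (hmap1 _) (hmap2 _) (nil j)
    obtain ⟨hn1, hn2⟩ := NC3_blk_nil _ hb21 hnil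
    refine loc_dvd hp (a j) Δ (hΔ0 j) (hΔ1 j) B'.toBlocks₂₂ B'.toBlocks₁₁ hn2 hn1 R'.toBlocks₂₁ he (fun x y => ?_) i l
    obtain ⟨σ, hσ⟩ := res j
    have h1 : R'.map (eval (a j)) = σ • B'.map (eval (a j)) := by
      rw [hevR, hσ, hev _ (hΔ0 j), Matrix.mul_smul, Matrix.smul_mul, Matrix.mul_assoc]
    have h2 := congrFun (congrFun h1 (Sum.inr x)) (Sum.inl y)
    have h3 := congrFun (congrFun hb21 x) y
    change (R' (Sum.inr x) (Sum.inl y)).eval (a j) = 0
    rw [Matrix.map_apply, Matrix.smul_apply] at h2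
    rw [h2]
    change σ • ((B'.map (eval (a j))).toBlocks₂₁ x y) = 0
    rw [h3, Matrix.zero_apply, smul_zero]
  ext1 i l
  rw [Matrix.zero_apply]
  by_contra hne
  have hdvd : ∏ j, (X - C (a j)) ^ p ∣ R'.toBlocks₂₁ i l := by
    refine Finset.prod_dvd_of_coprime (fun x _ y _ hxy => ?_) (fun j _ => hloc j i l)
    exact (Polynomial.pairwise_coprime_X_sub_C ha hxy).pow
  have h1 := Polynomial.natDegree_le_of_dvd hdvd hne
  have h2 : (∏ j, (X - C (a j)) ^ p : k[X]).natDegree = d * p := by
    rw [Polynomial.natDegree_prod_of_monic _ _ fun j _ => (monic_X_sub_C (a j)).pow p]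
    simp [Polynomial.natDegree_pow]
  rw [h2] at h1
  exact absurd (hdeg (Sum.inr i) (Sum.inl l)) (not_lt.mpr h1)

end MPadcOA
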