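import Pool.Agent.Lib.MP_adc574_ag_OA.Defs
import Pool.Agent.Lib.MP_adc574_ag_GM.Ultra

/-!
# Block N: definitions

`KS X` is the matrix of the action of a matrix `X` on the forms of degree `m` (a Kronecker sum), `tr u v` the element
`x ↦ ⟨x, u⟩ v + ⟨x, v⟩ u` of the symplectic Lie algebra, `opD Δ G` the differential operator `φ ↦ Δ φ' + KS G φ`.
`LL k` and `OO k` are the ultraproducts of the fields `k n` and `k n (X)`, `rp P n` is the polynomial over `k n` which represents the
polynomial `P` over `LL k` at the place `n`, and `th : (LL k)[X] → OO k` the natural homomorphism.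
-/

set_option autoImplicit false

namespace MPadcOA

open Polynomial Matrix MPadcGM

/-- The matrix of the action of `X` on the forms of degree `m`. -/
def KS {R : Type*} [CommRing R] {g m : ℕ} (X : Matrix (Nx g) (Nx g) R) : Matrix (Kx g m) (Kx g m) R :=
  fun s s' => ∑ i, if s' = Function.update s i ((s i).1, (s' i).2) then X (s i).2 (s' i).2 else 0

/-- The element `x ↦ ⟨x, u⟩ v + ⟨x, v⟩ u` of the symplectic Lie algebra. -/
def tr {R : Type*} [CommRing R] {g : ℕ} (u v : Nx g → R) : Matrix (Nx g) (Nx g) R :=
  vecMulVec (JJ g R *ᵥ u) v + vecMulVec (JJ g R *ᵥ v) u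

/-- The differential operator on the forms. -/
noncomputable def opD {R : Type*} [CommRing R] {g m : ℕ} (Δ : R[X]) (G : Matrix (Nx g) (Nx g) R[X]) (φ : Kx g m → R[X]) :
    Kx g m → R[X] :=
  fun s => Δ * derivative (φ s) + (KS G *ᵥ φ) s

section ult

variable (k : ℕ → Type) [∀ n, Field (k n)]

/-- The ultraproduct of the fields `k n`. -/
abbrev LL : Type := Ult (Filter.hyperfilter ℕ) k

/-- The ultraproduct of the fields `k n (X)`. -/
abbrev OO : Type := Ult (Filter.hyperfilter ℕ) (fun n => RatFunc (k n))

variable {k}

/-- The class of a family. -/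
noncomputable def cl (x : ∀ n, k n) : LL k := ultMk (Filter.hyperfilter ℕ) k x

/-- The class of a family of rational functions. -/
noncomputable def clO (x : ∀ n, RatFunc (k n)) : OO k := ultMk (Filter.hyperfilter ℕ) (fun n => RatFunc (k n)) x

/-- A representative of an element of the ultraproduct. -/
noncomputable def sg (x : LL k) : ∀ n, k n := Function.surjInv (ultMk_surjective (Filter.hyperfilter ℕ) k) x

/-- The polynomial over `k n` which represents `P` at the place `n`. -/
noncomputable def rp (P : (LL k)[X]) (n : ℕ) : (k n)[X] :=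
  ∑ j ∈ Finset.range (P.natDegree + 1), C (sg (P.coeff j) n) * X ^ j

variable (k) in
/-- The constants. -/
noncomputable def cst : LL k →+* OO k :=
  Ideal.Quotient.lift (ultI (Filter.hyperfilter ℕ : Ultrafilter ℕ) k)
    ((ultMk (Filter.hyperfilter ℕ) (fun n => RatFunc (k n))).comp
      (RingHom.pi fun n => (algebraMap (k n) (RatFunc (k n))).comp (Pi.evalRingHom k n)))
    (by
      intro x hx
      have h : ∀ᶠ n in (Filter.hyperfilter ℕ : Filter ℕ), x n = 0 := hx
      rw [RingHom.comp_apply, ultMk_eq_zero]
      filter_upwards [h] with n hn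
      change algebraMap (k n) (RatFunc (k n)) (x n) = 0
      rw [hn, map_zero])

variable (k) in
/-- The natural homomorphism from the polynomials over `LL k` to `OO k`. -/
noncomputable def th : (LL k)[X] →+* OO k :=
  eval₂RingHom (cst k) (clO fun _ => RatFunc.X)

end ult

end MPadcOA
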