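import Pool.Agent.Lib.MP_adc574_ag_OA.N_K1

/-! LEAF NK2: the action of a matrix of square zero is nilpotent -/

set_option autoImplicit false

namespace MPadcOA

open Polynomial Matrix

/-- the action on the factor `i` -/
private def NK2_a {R : Type*} [CommRing R] {g m : ℕ} (M : Matrix (Nx g) (Nx g) R) (i : Fin m) :
    Module.End R (Kx g m → R) where
  toFun φ := fun s => ∑ l, M (s i).2 l * φ (Function.update s i ((s i).1, l))
  map_add' φ ψ := by
    funext s
    simp only [Pi.add_apply, mul_add, Finset.sum_add_distrib]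
  map_smul' c φ := by
    funext s
    simp only [Pi.smul_apply, smul_eq_mul, RingHom.id_apply, Finset.mul_sum]
    exact Finset.sum_congr rfl fun l _ => by ring

private theorem NK2_apply {R : Type*} [CommRing R] {g m : ℕ} (M : Matrix (Nx g) (Nx g) R)
    (i : Fin m) (φ : Kx g m → R) (s : Kx g m) :
    NK2_a M i φ s = ∑ l, M (s i).2 l * φ (Function.update s i ((s i).1, l)) := rfl

private theorem NK2_sq {R : Type*} [CommRing R] {g m : ℕ} (M : Matrix (Nx g) (Nx g) R)
    (h : M * M = 0) (i : Fin m) : NK2_a M i * NK2_a M i = 0 := by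
  refine LinearMap.ext fun φ => funext fun s => ?_
  rw [Module.End.mul_apply, NK2_apply]
  have h1 : ∀ l, NK2_a M i φ (Function.update s i ((s i).1, l)) =
      ∑ l', M l l' * φ (Function.update s i ((s i).1, l')) := by
    intro l
    rw [NK2_apply]
    refine Finset.sum_congr rfl fun l' _ => ?_
    rw [Function.update_self, Function.update_idem]
  have h2 : ∀ l', ∑ l, M (s i).2 l * M l l' = 0 := by
    intro l'
    rw [← Matrix.mul_apply, h]
    rfl
  simp only [h1, Finset.mul_sum]
  rw [Finset.sum_comm]
  refine Finset.sum_eq_zero fun l' _ => ?_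
  rw [← zero_mul (φ (Function.update s i ((s i).1, l'))), ← h2 l', Finset.sum_mul]
  exact Finset.sum_congr rfl fun l _ => by ring

private theorem NK2_comm {R : Type*} [CommRing R] {g m : ℕ} (M : Matrix (Nx g) (Nx g) R)
    (i j : Fin m) : NK2_a M i * NK2_a M j = NK2_a M j * NK2_a M i := by
  by_cases hij : i = j
  · rw [hij]
  refine LinearMap.ext fun φ => funext fun s => ?_
  rw [Module.End.mul_apply, Module.End.mul_apply, NK2_apply, NK2_apply]
  have h1 : ∀ l, NK2_a M j φ (Function.update s i ((s i).1, l)) =
      ∑ l', M (s j).2 l' * φ (Function.update (Function.update s i ((s i).1, l)) j ((s j).1, l')) := by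
    intro l
    rw [NK2_apply, Function.update_of_ne (Ne.symm hij)]
  have h2 : ∀ l', NK2_a M i φ (Function.update s j ((s j).1, l')) =
      ∑ l, M (s i).2 l * φ (Function.update (Function.update s i ((s i).1, l)) j ((s j).1, l')) := by
    intro l'
    rw [NK2_apply, Function.update_of_ne hij]
    refine Finset.sum_congr rfl fun l _ => ?_
    rw [Function.update_comm hij]
  simp only [h1, h2, Finset.mul_sum]
  rw [Finset.sum_comm]
  exact Finset.sum_congr rfl fun l' _ => Finset.sum_congr rfl fun l _ => by ring

/-- Proof. By `KS_mulVec` the endomorphism `φ ↦ KS M *ᵥ φ` of `Kx g m → R` is the sum over `i : Fin m` of the endomorphisms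
`(a i φ) s = ∑ l, M (s i).2 l * φ (update s i ((s i).1, l))`, which commute (`Function.update_comm`) and have square zero
(`a i (a i φ)` is the same with `M * M = 0`, `Function.update_idem`). `Commute.isNilpotent_sum` in `Module.End R (Kx g m → R)`, then go back to matrices
(`Matrix.toLinAlgEquiv'` or `Matrix.toLin'`, an algebra isomorphism: `IsNilpotent.map`). -/
theorem KS_nil {R : Type*} [CommRing R] {g m : ℕ} (M : Matrix (Nx g) (Nx g) R) (h : M * M = 0) :
    IsNilpotent (KS M : Matrix (Kx g m) (Kx g m) R) := by
  have h1 : Matrix.toLinAlgEquiv' (KS M : Matrix (Kx g m) (Kx g m) R) = ∑ i, NK2_a M i := by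
    refine LinearMap.ext fun φ => funext fun s => ?_
    rw [Matrix.toLinAlgEquiv'_apply, KS_mulVec, LinearMap.sum_apply, Finset.sum_apply]
    rfl
  have h2 : IsNilpotent (∑ i : Fin m, NK2_a M i) :=
    Commute.isNilpotent_sum (fun i _ => ⟨2, by rw [pow_two, NK2_sq M h i]⟩)
      fun i j _ _ => NK2_comm M i j
  rw [← h1] at h2
  have h3 := h2.map (Matrix.toLinAlgEquiv' (R := R) (n := Kx g m)).symm
  rwa [AlgEquiv.symm_apply_apply] at h3

end MPadcOA
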