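import Pool.Agent.Lib.MP_adc574_ag_OA.N_K1
import Pool.Agent.Lib.MP_adc574_ag_OA.N_K2
import Pool.Agent.Lib.MP_adc574_ag_OA.N_C3
import Pool.Agent.Lib.MP_adc574_ag_OA.N_Defs

/-! LEAF NC4: the horizontal endomorphism `w²` is block triangular -/

set_option autoImplicit false

namespace MPadcOA

open Polynomial Matrix

private theorem NC4_J {k : Type} [Field k] {g : ℕ} (i j : Nx g) : JJ g k[X] i j = C (JJ g k i j) := by
  unfold JJ
  rcases i with i | i <;> rcases j with j | j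
  · rw [fromBlocks_apply₁₁, fromBlocks_apply₁₁, Matrix.zero_apply, Matrix.zero_apply, C_0]
  · rw [fromBlocks_apply₁₂, fromBlocks_apply₁₂, Matrix.one_apply, Matrix.one_apply]
    split_ifs
    · rw [C_1]
    · rw [C_0]
  · rw [fromBlocks_apply₂₁, fromBlocks_apply₂₁, Matrix.neg_apply, Matrix.neg_apply, Matrix.one_apply, Matrix.one_apply]
    split_ifs
    · rw [C_neg, C_1]
    · rw [C_neg, C_0]
  · rw [fromBlocks_apply₂₂, fromBlocks_apply₂₂, Matrix.zero_apply, Matrix.zero_apply, C_0]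

private theorem NC4_mv {k : Type} [Field k] {g : ℕ} (w : Nx g → k[X]) (i : Nx g) :
    (JJ g k[X] *ᵥ w) i = ∑ l, C (JJ g k i l) * w l := by
  rw [Matrix.mulVec, dotProduct]
  exact Finset.sum_congr rfl fun l _ => by rw [NC4_J]

private theorem NC4_der {k : Type} [Field k] {g : ℕ} (w : Nx g → k[X]) (i : Nx g) :
    derivative ((JJ g k[X] *ᵥ w) i) = (JJ g k[X] *ᵥ fun l => derivative (w l)) i := by
  rw [NC4_mv, NC4_mv, derivative_sum]
  exact Finset.sum_congr rfl fun l _ => derivative_C_mul _ _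

/-- Proof. `Y = (J w) wᵀ`, `Δ w'ᵀ = wᵀ G` (`horw`), so `Δ Y' = (J Gᵀ w) wᵀ + (J w)(wᵀ G) = - G Y + Y G` by `symp` (entrywise, or with `vecMulVec` lemmas:
`Matrix.mul_vecMulVec`, `Matrix.vecMulVec_mul`, `Matrix.mulVec_transpose`). -/
theorem hor_sq {k : Type} [Field k] {g p c : ℕ} (D : Dat g k) (hD : D.Ok p c) :
    D.Δ • (vecMulVec (JJ g k[X] *ᵥ D.w) D.w).map derivative =
      vecMulVec (JJ g k[X] *ᵥ D.w) D.w * D.G - D.G * vecMulVec (JJ g k[X] *ᵥ D.w) D.w := by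
  have hwd : D.Δ • (fun l => derivative (D.w l)) = D.w ᵥ* D.G := by
    funext l
    exact hD.horw l
  have hJ : JJ g k[X] *ᵥ (D.w ᵥ* D.G) = - (D.G *ᵥ (JJ g k[X] *ᵥ D.w)) := by
    rw [← Matrix.mulVec_transpose, Matrix.mulVec_mulVec, Matrix.mulVec_mulVec, ← Matrix.neg_mulVec]
    congr 1
    exact eq_neg_of_add_eq_zero_right hD.symp
  ext1 i j
  have h1 : (JJ g k[X] *ᵥ (D.w ᵥ* D.G)) i = D.Δ * (JJ g k[X] *ᵥ fun l => derivative (D.w l)) i := by
    rw [← hwd, Matrix.mulVec_smul]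
    rfl
  have h2 : (vecMulVec (JJ g k[X] *ᵥ D.w) D.w * D.G) i j = (JJ g k[X] *ᵥ D.w) i * (D.w ᵥ* D.G) j := by
    rw [Matrix.vecMulVec_mul]
    rfl
  have h3 : (D.G * vecMulVec (JJ g k[X] *ᵥ D.w) D.w) i j = (D.G *ᵥ (JJ g k[X] *ᵥ D.w)) i * D.w j := by
    rw [Matrix.mul_vecMulVec]
    rfl
  rw [Matrix.sub_apply, h2, h3, Matrix.smul_apply, Matrix.map_apply, vecMulVec_apply, derivative_mul, NC4_der,
    smul_eq_mul, mul_add]
  have h4 : (D.G *ᵥ (JJ g k[X] *ᵥ D.w)) i = - (D.Δ * (JJ g k[X] *ᵥ fun l => derivative (D.w l)) i) := by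
    rw [← h1, hJ, Pi.neg_apply, neg_neg]
  rw [h4, ← hD.horw j]
  ring

/-- Proof. The entries of `vecMulVec (JJ *ᵥ w) w` are `± w l * w l'`, of degree `≤ (2 g - 1) p + c` (`degw` for `l` and `l'`); the entries of `KS` are sums of such entries
(`natDegree_sum_le_of_forall_le`), and those of `Q * KS _ * P` sums of products with entries of degree `≤ d₀`. -/
theorem deg_sq {k : Type} [Field k] {g m p c : ℕ} (D : Dat g k) (hD : D.Ok p c) {r s : ℕ} (P : Matrix (Kx g m) (Fin r ⊕ Fin s) k[X])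
    (Q : Matrix (Fin r ⊕ Fin s) (Kx g m) k[X]) (d₀ : ℕ) (hP : ∀ i j, (P i j).natDegree ≤ d₀) (hQ : ∀ i j, (Q i j).natDegree ≤ d₀)
    (i j : Fin r ⊕ Fin s) :
    ((Q * (KS (vecMulVec (JJ g k[X] *ᵥ D.w) D.w) : Matrix (Kx g m) (Kx g m) k[X]) * P) i j).natDegree ≤
      2 * d₀ + ((2 * g - 1) * p + c) := by
  obtain ⟨E, hE⟩ : ∃ E, E = ((2 * g - 1) * p + c) / 2 := ⟨_, rfl⟩
  have hw : ∀ l, (D.w l).natDegree ≤ E := by
    intro l
    have h1 := hD.degw l
    rw [hE]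
    omega
  have hJw : ∀ l, ((JJ g k[X] *ᵥ D.w) l).natDegree ≤ E := by
    intro l
    rw [NC4_mv]
    refine natDegree_sum_le_of_forall_le _ _ fun n _ => ?_
    exact (natDegree_C_mul_le _ _).trans (hw n)
  have hE2 : E + E ≤ (2 * g - 1) * p + c := by
    rw [hE]
    omega
  have hY : ∀ l l', (vecMulVec (JJ g k[X] *ᵥ D.w) D.w l l').natDegree ≤ (2 * g - 1) * p + c := by
    intro l l'
    rw [vecMulVec_apply]
    exact (natDegree_mul_le_of_le (hJw l) (hw l')).trans hE2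
  have hK : ∀ s s', ((KS (vecMulVec (JJ g k[X] *ᵥ D.w) D.w) : Matrix (Kx g m) (Kx g m) k[X]) s s').natDegree ≤
      (2 * g - 1) * p + c := by
    intro s s'
    refine natDegree_sum_le_of_forall_le _ _ fun n _ => ?_
    split_ifs
    · exact hY _ _
    · rw [natDegree_zero]
      exact Nat.zero_le _
  rw [Matrix.mul_apply]
  refine natDegree_sum_le_of_forall_le _ _ fun n _ => ?_
  have h3 : ((Q * (KS (vecMulVec (JJ g k[X] *ᵥ D.w) D.w) : Matrix (Kx g m) (Kx g m) k[X])) i n).natDegree ≤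
      d₀ + ((2 * g - 1) * p + c) := by
    rw [Matrix.mul_apply]
    refine natDegree_sum_le_of_forall_le _ _ fun n' _ => ?_
    exact natDegree_mul_le_of_le (hQ _ _) (hK _ _)
  refine (natDegree_mul_le_of_le h3 (hP n j)).trans ?_
  omega

/-- Proof. `tri` with `a = D.a`, `B = KS D.G`, `R = KS (vecMulVec (J w) w)`. `hor`: `KS_derivative`, `KS_smul`, `KS_comm` and `hor_sq` (compare entries). `nil`: `KS_map` with `evalRingHom`, `KS_nil`
and `hD.nil`. `res`: `KS_map`, `KS_smul` and `hD.resw`. `htri`: `h`. `hdeg`: `deg_sq`, `2 d₀ + (2 g - 1) p + c < 2 g * p`. -/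
theorem tri_level {k : Type} [Field k] {g m p c : ℕ} [CharP k p] (hp : p.Prime) (hg : 0 < g) (D : Dat g k) (hD : D.Ok p c)
    {r s : ℕ} (P : Matrix (Kx g m) (Fin r ⊕ Fin s) k[X]) (Q : Matrix (Fin r ⊕ Fin s) (Kx g m) k[X]) (hQP : Q * P = 1) (hPQ : P * Q = 1)
    (d₀ : ℕ) (hP : ∀ i j, (P i j).natDegree ≤ d₀) (hQ : ∀ i j, (Q i j).natDegree ≤ d₀) (hd : 2 * d₀ + c < p)
    (h : (Q * (D.Δ • P.map derivative + (KS D.G : Matrix (Kx g m) (Kx g m) k[X]) * P)).toBlocks₂₁ = 0) :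
    (Q * (KS (vecMulVec (JJ g k[X] *ᵥ D.w) D.w) : Matrix (Kx g m) (Kx g m) k[X]) * P).toBlocks₂₁ = 0 := by
  have hn : ((D.Δ) : k[X]) = ∏ l, (X - C (D.a l)) := rfl
  refine tri hp D.a hD.inj (KS D.G) (KS (vecMulVec (JJ g k[X] *ᵥ D.w) D.w)) ?_ ?_ ?_ P Q hQP hPQ h ?_
  · intro i j
    rw [KS_comm, ← hor_sq D hD, KS_smul, ← KS_derivative, ← hn, Matrix.smul_apply, Matrix.map_apply, smul_eq_mul]
  · intro j
    have h1 := KS_map (m := m) (evalRingHom (D.a j)) D.G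
    rw [coe_evalRingHom] at h1
    rw [h1]
    exact KS_nil _ (hD.nil j)
  · intro j
    obtain ⟨s, hs⟩ := hD.resw j
    refine ⟨s, ?_⟩
    have h1 := KS_map (m := m) (evalRingHom (D.a j)) D.G
    have h2 := KS_map (m := m) (evalRingHom (D.a j)) (vecMulVec (JJ g k[X] *ᵥ D.w) D.w)
    rw [coe_evalRingHom] at h1 h2
    rw [h1, h2, ← KS_smul]
    congr 1
    ext1 l l'
    rw [Matrix.map_apply, vecMulVec_apply, eval_mul, Matrix.smul_apply, Matrix.map_apply, smul_eq_mul, ← hs l l']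
    congr 1
    rw [NC4_mv, eval_finsetSum, Matrix.mulVec, dotProduct]
    refine Finset.sum_congr rfl fun n _ => ?_
    rw [eval_mul, eval_C]
  · intro i j
    refine lt_of_le_of_lt (deg_sq D hD P Q d₀ hP hQ i j) ?_
    have h5 : 2 * g * p = (2 * g - 1) * p + p := by
      have h6 : 2 * g = (2 * g - 1) + 1 := by omega
      calc 2 * g * p = ((2 * g - 1) + 1) * p := by rw [← h6]
        _ = (2 * g - 1) * p + p := by ring
    rw [h5]
    omega

end MPadcOA
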