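import Pool.Agent.Lib.MP_adc574_ag_OA.N_U5

/-! LEAF NI1: the coordinates of `w` are linearly independent over the field `LL k (X)` -/

set_option autoImplicit false

namespace MPadcOA

open Polynomial Matrix MPadcGM

variable {k : ℕ → Type} [∀ n, Field (k n)]

/-- The vector `w` over `OO k`. -/
noncomputable def wO {g : ℕ} (D : ∀ n, Dat g (k n)) : Nx g → OO k :=
  fun l => clO fun n => algebraMap (k n)[X] (RatFunc (k n)) ((D n).w l)

/-- Proof. `Fintype.linearIndependent_iff`: let `∑ c l • wO D l = 0`. Multiply by a common denominator (`IsLocalization.exist_integer_multiples_of_finite` for the localization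
`KK k` of `(LL k)[X]`): `c l * alg d = alg (b l)`, `d ≠ 0`. By `algK` (`Algebra.smul_def`) `∑ th (b l) * wO D l = 0`, by `th_eq` and `clO_eq` eventually `∑ (D n).w l * rp (b l) n = 0` in `(k n)[X]` (injectivity of
`(k n)[X] → RatFunc (k n)`; sums and products of classes: `clO` is the value of the ring homomorphism `ultMk`). Eventually `2 * (rp (b l) n).natDegree + c < p n` (`rp_natDegree`, `ev_large`), so `(hD n).irr`: `rp (b l) n = 0`, and
`b l = 0` by `rp_ext`, `rp_zero`; so `c l = 0`. -/
theorem w_indep {g c : ℕ} (p : ℕ → ℕ) (hp : ∀ n, n ≤ p n) (D : ∀ n, Dat g (k n)) (hD : ∀ n, (D n).Ok (p n) c) :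
    LinearIndependent (KK k) (wO D) := by
  rw [Fintype.linearIndependent_iff]
  intro f hf
  obtain ⟨b, hb⟩ := IsLocalization.exist_integer_multiples_of_finite (nonZeroDivisors (LL k)[X]) f
  choose B hB using hb
  have hb0 : (b : (LL k)[X]) ≠ 0 := nonZeroDivisors.coe_ne_zero b
  -- the relation over the polynomials
  have h1 : ∑ l, th k (B l) * wO D l = 0 := by
    have h2 : ∀ l, th k (B l) * wO D l =
        algebraMap (LL k)[X] (KK k) b • (f l • wO D l) := by
      intro l
      rw [← algK, hB l, ← Algebra.smul_def, Algebra.smul_def (b : (LL k)[X]) (f l), mul_smul]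
    rw [Finset.sum_congr rfl fun l _ => h2 l, ← Finset.smul_sum, hf, smul_zero]
  have h3 : ∑ l, th k (B l) * wO D l =
      clO fun n => ∑ l, algebraMap (k n)[X] (RatFunc (k n)) (rp (B l) n)
        * algebraMap (k n)[X] (RatFunc (k n)) ((D n).w l) := by
    have h4 : ∀ l, th k (B l) * wO D l = ultMk (Filter.hyperfilter ℕ) (fun n => RatFunc (k n))
        ((fun n => algebraMap (k n)[X] (RatFunc (k n)) (rp (B l) n)) *
          fun n => algebraMap (k n)[X] (RatFunc (k n)) ((D n).w l)) := by
      intro l
      rw [map_mul, th_eq]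
      rfl
    rw [Finset.sum_congr rfl fun l _ => h4 l, ← map_sum]
    unfold clO
    congr 1
    funext n
    rw [Finset.sum_apply]
    rfl
  have h5 : (0 : OO k) = clO fun n => 0 := by
    unfold clO
    exact (map_zero (ultMk (Filter.hyperfilter ℕ) (fun n => RatFunc (k n)))).symm
  rw [h3, h5, clO_eq] at h1
  -- the degrees
  have h6 : ∀ᶠ n in HF, 2 * (∑ l, (B l).natDegree) + c < p n := ev_large p hp _
  have h7 : ∀ᶠ n in HF, ∀ l, rp (B l) n = 0 := by
    filter_upwards [h1, h6] with n h8 h9
    have h10 : ∑ l, (D n).w l * rp (B l) n = 0 := by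
      apply RatFunc.algebraMap_injective (k n)
      rw [map_sum, map_zero, ← h8]
      refine Finset.sum_congr rfl fun l _ => ?_
      rw [map_mul, mul_comm]
    have h11 := (hD n).irr (fun l => rp (B l) n) h10 fun l => by
      have h12 := rp_natDegree (B l) n
      have h13 : (B l).natDegree ≤ ∑ l, (B l).natDegree :=
        Finset.single_le_sum (f := fun l => (B l).natDegree) (fun _ _ => Nat.zero_le _) (Finset.mem_univ l)
      have h14 : 2 * (rp (B l) n).natDegree + c < p n := by omega
      exact h14
    intro l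
    exact congrFun h11 l
  intro l
  have h8 : B l = 0 := by
    apply rp_ext
    filter_upwards [h7, rp_zero (k := k)] with n h9 h10
    rw [h9 l, h10]
  have h9 := hB l
  rw [h8, map_zero, Algebra.smul_def] at h9
  have h10 : algebraMap (LL k)[X] (KK k) b ≠ 0 := by
    intro h11
    apply hb0
    apply IsFractionRing.injective (LL k)[X] (KK k)
    rw [h11, map_zero]
  exact (mul_eq_zero.1 h9.symm).resolve_left h10

end MPadcOA
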