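import Pool.Agent.Lib.MP_adc574_ag_OA.N_K4
import Pool.Agent.Lib.MP_adc574_ag_OA.N_C4
import Pool.Agent.Lib.MP_adc574_ag_OA.N_U3
import Pool.Agent.Lib.MP_adc574_ag_OA.N_I1

/-! LEAF NC5: the horizontal endomorphism `w²` over the ultraproduct -/

set_option autoImplicit false

namespace MPadcOA

open Polynomial Matrix MPadcGM

/-- Proof. The columns `P (inl i)` are in `W` (`Q * P = 1` and `hW`), so `hop` and `hW` give
`(Q * (Δ • P.map derivative + KS G * P)).toBlocks₂₁ = 0`. -/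
theorem blk_inf {F : Type} [Field F] {g m : ℕ} (Δ : F[X]) (G : Matrix (Nx g) (Nx g) F[X]) (W : Submodule F[X] (Kx g m → F[X]))
    (hop : ∀ x ∈ W, opD Δ G x ∈ W) {r s : ℕ} (P : Matrix (Kx g m) (Fin r ⊕ Fin s) F[X]) (Q : Matrix (Fin r ⊕ Fin s) (Kx g m) F[X])
    (hQP : Q * P = 1) (hW : ∀ x, x ∈ W ↔ ∀ j, (Q *ᵥ x) (Sum.inr j) = 0) :
    (Q * (Δ • P.map derivative + (KS G : Matrix (Kx g m) (Kx g m) F[X]) * P)).toBlocks₂₁ = 0 := by
  ext j i : 1
  have hx : (fun s => P s (Sum.inl i)) ∈ W := by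
    rw [hW]
    intro j'
    have h1 : (Q *ᵥ fun s => P s (Sum.inl i)) (Sum.inr j') = (Q * P) (Sum.inr j') (Sum.inl i) := by
      rw [Matrix.mul_apply]
      rfl
    rw [h1, hQP, Matrix.one_apply_ne (by simp)]
  have h2 := (hW _).1 (hop _ hx) j
  have h3 : (Q * (Δ • P.map derivative + (KS G : Matrix (Kx g m) (Kx g m) F[X]) * P)) (Sum.inr j) (Sum.inl i) =
      (Q *ᵥ opD Δ G fun s => P s (Sum.inl i)) (Sum.inr j) := by
    rw [Matrix.mul_apply]
    refine Finset.sum_congr rfl fun s _ => ?_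
    congr 1
  rw [Matrix.zero_apply]
  change (Q * (Δ • P.map derivative + (KS G : Matrix (Kx g m) (Kx g m) F[X]) * P)) (Sum.inr j) (Sum.inl i) = 0
  rw [h3, h2]

section NC5

variable {k : ℕ → Type} [∀ n, Field (k n)]

/-- the ring homomorphism to `OO k` -/
private noncomputable def NC5_psi (k : ℕ → Type) [∀ n, Field (k n)] : (∀ n, (k n)[X]) →+* OO k :=
  (ultMk (Filter.hyperfilter ℕ) (fun n => RatFunc (k n))).comp
    (RingHom.pi fun n => (algebraMap (k n)[X] (RatFunc (k n))).comp (Pi.evalRingHom (fun n => (k n)[X]) n))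

private theorem NC5_psi_apply (y : ∀ n, (k n)[X]) : NC5_psi k y = clO fun n => algebraMap (k n)[X] (RatFunc (k n)) (y n) :=
  rfl

private theorem NC5_psi_zero (y : ∀ n, (k n)[X]) (h : ∀ᶠ n in HF, y n = 0) : NC5_psi k y = 0 := by
  have h0 : NC5_psi k y = NC5_psi k (fun _ => 0) := by
    rw [NC5_psi_apply, NC5_psi_apply, clO_eq]
    filter_upwards [h] with n hn
    rw [hn]
  rw [h0]
  exact map_zero (NC5_psi k)

private theorem NC5_single {g : ℕ} (a b : Nx g) :
    ∀ᶠ n in HF, mr (Matrix.single a b (1 : (LL k)[X])) n = Matrix.single a b (1 : (k n)[X]) := by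
  filter_upwards [rp_one (k := k), rp_zero (k := k)] with n h1 h0
  ext i j : 1
  change rp (Matrix.single a b (1 : (LL k)[X]) i j) n = _
  by_cases h : a = i ∧ b = j
  · obtain ⟨rfl, rfl⟩ := h
    rw [Matrix.single_apply_same, Matrix.single_apply_same, h1]
  · rw [Matrix.single_apply_of_ne _ _ _ _ _ h, Matrix.single_apply_of_ne _ _ _ _ _ h, h0]

private theorem NC5_Tm {g m r s : ℕ} (P : Matrix (Kx g m) (Fin r ⊕ Fin s) (LL k)[X])
    (Q : Matrix (Fin r ⊕ Fin s) (Kx g m) (LL k)[X]) (j : Fin s) (i : Fin r) (a b : Nx g) :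
    ∀ᶠ n in HF, Tm (mr P n) (mr Q n) j i a b = rp (Tm P Q j i a b) n := by
  filter_upwards [NC5_single (k := k) a b, mr_KS (k := k) (m := m) (Matrix.single a b (1 : (LL k)[X])),
    mr_mul (Q * (KS (Matrix.single a b (1 : (LL k)[X])) : Matrix (Kx g m) (Kx g m) (LL k)[X])) P,
    mr_mul Q (KS (Matrix.single a b (1 : (LL k)[X])) : Matrix (Kx g m) (Kx g m) (LL k)[X])] with n h1 h2 h3 h4
  change _ = mr (Q * (KS (Matrix.single a b (1 : (LL k)[X])) : Matrix (Kx g m) (Kx g m) (LL k)[X]) * P) n (Sum.inr j) (Sum.inl i)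
  rw [h3, h4, h2, h1]
  rfl

private theorem NC5_JJ {g : ℕ} (a l : Nx g) : JJ g (OO k) a l = NC5_psi k (fun n => JJ g (k n)[X] a l) := by
  rcases a with a | a <;> rcases l with l | l
  · change (0 : OO k) = NC5_psi k (fun _ => 0)
    exact (map_zero (NC5_psi k)).symm
  · change (1 : Matrix (Fin g) (Fin g) (OO k)) a l = NC5_psi k (fun n => (1 : Matrix (Fin g) (Fin g) (k n)[X]) a l)
    by_cases h : a = l
    · subst h
      simp only [Matrix.one_apply_eq]
      exact (map_one (NC5_psi k)).symm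
    · simp only [Matrix.one_apply_ne h]
      exact (map_zero (NC5_psi k)).symm
  · change (-(1 : Matrix (Fin g) (Fin g) (OO k))) a l = NC5_psi k (fun n => (-(1 : Matrix (Fin g) (Fin g) (k n)[X])) a l)
    simp only [Matrix.neg_apply]
    by_cases h : a = l
    · subst h
      simp only [Matrix.one_apply_eq]
      have h1 := map_neg (NC5_psi k) 1
      rw [map_one] at h1
      exact h1.symm
    · simp only [Matrix.one_apply_ne h, neg_zero]
      exact (map_zero (NC5_psi k)).symm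
  · change (0 : OO k) = NC5_psi k (fun _ => 0)
    exact (map_zero (NC5_psi k)).symm

private theorem NC5_Y {g : ℕ} (D : ∀ n, Dat g (k n)) (a b : Nx g) :
    vecMulVec (JJ g (OO k) *ᵥ wO D) (wO D) a b =
      NC5_psi k (fun n => vecMulVec (JJ g (k n)[X] *ᵥ (D n).w) (D n).w a b) := by
  have hw : ∀ l, wO D l = NC5_psi k (fun n => (D n).w l) := fun l => rfl
  have h1 : vecMulVec (JJ g (OO k) *ᵥ wO D) (wO D) a b =
      (∑ l, NC5_psi k (fun n => JJ g (k n)[X] a l) * NC5_psi k (fun n => (D n).w l)) * NC5_psi k (fun n => (D n).w b) := by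
    rw [Matrix.vecMulVec_apply]
    refine congrArg₂ (· * ·) ?_ (hw b)
    change (∑ l, JJ g (OO k) a l * wO D l) = _
    refine Finset.sum_congr rfl fun l _ => ?_
    rw [NC5_JJ, hw]
  rw [h1]
  have h2 : (fun n => vecMulVec (JJ g (k n)[X] *ᵥ (D n).w) (D n).w a b) =
      (∑ l : Nx g, ((fun n => JJ g (k n)[X] a l : ∀ n, (k n)[X]) * fun n => (D n).w l)) * fun n => (D n).w b := by
    funext n
    rw [Matrix.vecMulVec_apply, Pi.mul_apply, Finset.sum_apply]
    rfl
  rw [h2, map_mul, map_sum]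
  refine congrArg₂ (· * ·) (Finset.sum_congr rfl fun l _ => ?_) rfl
  rw [map_mul]

end NC5

/-- Proof. `blk_inf`; apply `mr` at the place `n` (`mr_mul`, `mr_add`, `mr_smul`, `mr_derivative`, `mr_KS`, `mr_one`, `mr_zero`, `hΔ`, `hG`): eventually the hypotheses of `tri_level` hold for `mr P n`, `mr Q n` with
`d₀` the maximum of the degrees of the entries of `P` and `Q` (`rp_natDegree`), `2 d₀ + c < p n` eventually (`ev_large`). So, by `KS_lin`,
`∑ a, ∑ b, Tm (mr P n) (mr Q n) j i a b * Y n a b = 0`, `Y n = vecMulVec (J w_n) w_n`, and eventually `Tm (mr P n) (mr Q n) j i a b = rp (Tm P Q j i a b) n` (`mr_mul`, `mr_KS`; the matrix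
`Matrix.single a b 1`: `rp_one`, `rp_zero`). Go to `RatFunc (k n)` and to the ultraproduct: `th_eq`, `clO_eq`, `vecMulVec (JJ *ᵥ wO D) (wO D) a b = clO (fun n => algebraMap _ _ (Y n a b))`
(`clO` is the value of the ring homomorphism `ultMk`). -/
theorem c_step {k : ℕ → Type} [∀ n, Field (k n)] {g m c : ℕ} (p : ℕ → ℕ) [∀ n, CharP (k n) (p n)] (hpr : ∀ n, (p n).Prime)
    (hp : ∀ n, n ≤ p n) (hg : 0 < g) (D : ∀ n, Dat g (k n)) (hD : ∀ n, (D n).Ok (p n) c) (Δ' : (LL k)[X])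
    (G' : Matrix (Nx g) (Nx g) (LL k)[X]) (hΔ : ∀ᶠ n in HF, rp Δ' n = (D n).Δ) (hG : ∀ᶠ n in HF, mr G' n = (D n).G)
    (W : Submodule (LL k)[X] (Kx g m → (LL k)[X])) (hop : ∀ x ∈ W, opD Δ' G' x ∈ W) {r s : ℕ}
    (P : Matrix (Kx g m) (Fin r ⊕ Fin s) (LL k)[X]) (Q : Matrix (Fin r ⊕ Fin s) (Kx g m) (LL k)[X]) (hQP : Q * P = 1)
    (hPQ : P * Q = 1) (hW : ∀ x, x ∈ W ↔ ∀ j, (Q *ᵥ x) (Sum.inr j) = 0) (j : Fin s) (i : Fin r) :
    ∑ a, ∑ b, th k (Tm P Q j i a b) * vecMulVec (JJ g (OO k) *ᵥ wO D) (wO D) a b = 0 := by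
  have hB := blk_inf Δ' G' W hop P Q hQP hW
  obtain ⟨d₀, hd₀P, hd₀Q⟩ : ∃ d₀ : ℕ, (∀ i j, (P i j).natDegree ≤ d₀) ∧ ∀ i j, (Q i j).natDegree ≤ d₀ := by
    refine ⟨(∑ i, ∑ j, (P i j).natDegree) + ∑ i, ∑ j, (Q i j).natDegree, fun i j => ?_, fun i j => ?_⟩
    · refine le_trans ?_ (Nat.le_add_right _ _)
      exact le_trans (Finset.single_le_sum (f := fun j => (P i j).natDegree) (fun _ _ => Nat.zero_le _) (Finset.mem_univ j))
        (Finset.single_le_sum (f := fun i => ∑ j, (P i j).natDegree) (fun _ _ => Nat.zero_le _) (Finset.mem_univ i))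
    · refine le_trans ?_ (Nat.le_add_left _ _)
      exact le_trans (Finset.single_le_sum (f := fun j => (Q i j).natDegree) (fun _ _ => Nat.zero_le _) (Finset.mem_univ j))
        (Finset.single_le_sum (f := fun i => ∑ j, (Q i j).natDegree) (fun _ _ => Nat.zero_le _) (Finset.mem_univ i))
  have hKey : ∀ᶠ n in HF, ∑ a, ∑ b, rp (Tm P Q j i a b) n * vecMulVec (JJ g (k n)[X] *ᵥ (D n).w) (D n).w a b = 0 := by
    have hT : ∀ᶠ n in HF, ∀ a b, Tm (mr P n) (mr Q n) j i a b = rp (Tm P Q j i a b) n := by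
      rw [Filter.eventually_all]
      intro a
      rw [Filter.eventually_all]
      intro b
      exact NC5_Tm P Q j i a b
    filter_upwards [hT, hΔ, hG, ev_large p hp (2 * d₀ + c), mr_mul Q P, mr_mul P Q, mr_one (k := k) (α := Fin r ⊕ Fin s),
      mr_one (k := k) (α := Kx g m), rp_zero (k := k),
      mr_mul Q (Δ' • P.map derivative + (KS G' : Matrix (Kx g m) (Kx g m) (LL k)[X]) * P),
      mr_add (Δ' • P.map derivative) ((KS G' : Matrix (Kx g m) (Kx g m) (LL k)[X]) * P),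
      mr_smul Δ' (P.map derivative), mr_derivative P, mr_mul (KS G' : Matrix (Kx g m) (Kx g m) (LL k)[X]) P,
      mr_KS (k := k) (m := m) G'] with n hT hΔ hG hlarge hQPn hPQn h1 h1' h0 e1 e2 e3 e4 e5 e6
    have hlev := tri_level (hpr n) hg (D n) (hD n) (mr P n) (mr Q n) (by rw [← hQPn, hQP, h1]) (by rw [← hPQn, hPQ, h1'])
      d₀ (fun i j => (rp_natDegree _ n).trans (hd₀P i j)) (fun i j => (rp_natDegree _ n).trans (hd₀Q i j)) hlarge (by
        have e7 : mr (Q * (Δ' • P.map derivative + (KS G' : Matrix (Kx g m) (Kx g m) (LL k)[X]) * P)) n =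
            mr Q n * ((D n).Δ • (mr P n).map derivative + (KS (D n).G : Matrix (Kx g m) (Kx g m) (k n)[X]) * mr P n) := by
          rw [e1, e2, e3, e4, e5, e6, hΔ, hG]
        rw [← e7]
        ext j' i' : 1
        have h9 := congrFun (congrFun hB j') i'
        change (Q * (Δ' • P.map derivative + (KS G' : Matrix (Kx g m) (Kx g m) (LL k)[X]) * P)) (Sum.inr j') (Sum.inl i') = 0 at h9
        change rp ((Q * (Δ' • P.map derivative + (KS G' : Matrix (Kx g m) (Kx g m) (LL k)[X]) * P)) (Sum.inr j') (Sum.inl i')) n = 0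
        rw [h9, h0])
    have h10 := congrFun (congrFun hlev j) i
    change (mr Q n * (KS (vecMulVec (JJ g (k n)[X] *ᵥ (D n).w) (D n).w) : Matrix (Kx g m) (Kx g m) (k n)[X]) * mr P n)
      (Sum.inr j) (Sum.inl i) = 0 at h10
    rw [KS_lin] at h10
    rw [← h10]
    refine Finset.sum_congr rfl fun a _ => Finset.sum_congr rfl fun b _ => ?_
    rw [hT]
  have hfin : ∑ a, ∑ b, th k (Tm P Q j i a b) * vecMulVec (JJ g (OO k) *ᵥ wO D) (wO D) a b =
      NC5_psi k (fun n => ∑ a, ∑ b, rp (Tm P Q j i a b) n * vecMulVec (JJ g (k n)[X] *ᵥ (D n).w) (D n).w a b) := by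
    have h11 : (fun n => ∑ a, ∑ b, rp (Tm P Q j i a b) n * vecMulVec (JJ g (k n)[X] *ᵥ (D n).w) (D n).w a b) =
        ∑ a, ∑ b, (fun n => rp (Tm P Q j i a b) n) * fun n => vecMulVec (JJ g (k n)[X] *ᵥ (D n).w) (D n).w a b := by
      funext n
      rw [Finset.sum_apply]
      refine Finset.sum_congr rfl fun a _ => ?_
      rw [Finset.sum_apply]
      rfl
    rw [h11, map_sum]
    refine Finset.sum_congr rfl fun a _ => ?_
    rw [map_sum]
    refine Finset.sum_congr rfl fun b _ => ?_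
    rw [map_mul, NC5_Y, th_eq, ← NC5_psi_apply]
  rw [hfin]
  exact NC5_psi_zero _ hKey

end MPadcOA
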