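import Mathlib

/-! LEAF NE1: the solutions of a linear system over a larger field -/

set_option autoImplicit false

namespace MPadcOA

open Matrix

/-- Proof. Choose a basis `ω` of `Ω` over `K` (`Module.Free.chooseBasis`, or `Basis.ofVectorSpace`), and write `x i = ∑ t ∈ T', y t i • ω t` with
`y t i = ω.repr (x i) t ∈ K`, `T'` a finite set containing the supports of the `ω.repr (x i)`. For every row `j`: `∑ i, T j i • x i = 0`, i.e.
`∑ t, (∑ i, T j i * y t i) • ω t = 0`, so `∑ i, T j i * y t i = 0` for all `t` (apply `ω.repr` and evaluate at `t`): each `y t` is in the kernel, and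
`x = ∑ t ∈ T', (ω t) • (algebraMap K Ω ∘ y t)` is in the span. -/
theorem ker_base {K Ω : Type} [Field K] [Field Ω] [Algebra K Ω] {α β : Type} [Fintype α] [Fintype β] (T : Matrix β α K) (x : α → Ω)
    (hx : T.map (algebraMap K Ω) *ᵥ x = 0) :
    x ∈ Submodule.span Ω ((fun (y : α → K) (i : α) => algebraMap K Ω (y i)) '' {y | T *ᵥ y = 0}) := by
  classical
  obtain ⟨ω, hω⟩ : ∃ ω : Module.Basis (Module.Basis.ofVectorSpaceIndex K Ω) K Ω, ω = Module.Basis.ofVectorSpace K Ω :=
    ⟨_, rfl⟩
  have hker : ∀ t, T *ᵥ (fun i => ω.repr (x i) t) = 0 := by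
    intro t
    funext j
    have h1 : ∑ i, T j i • x i = 0 := by
      have h2 := congrFun hx j
      rw [Matrix.mulVec, dotProduct] at h2
      refine Eq.trans (Finset.sum_congr rfl fun i _ => ?_) h2
      rw [Matrix.map_apply, Algebra.smul_def]
    have h3 := congrArg (fun z => ω.repr z t) h1
    simp only [map_sum, map_smul, Finsupp.coe_finsetSum, Finset.sum_apply, Finsupp.smul_apply, smul_eq_mul,
      map_zero, Finsupp.coe_zero, Pi.zero_apply] at h3
    rw [Matrix.mulVec, dotProduct]
    exact h3
  obtain ⟨S, hS⟩ : ∃ S : Finset (Module.Basis.ofVectorSpaceIndex K Ω),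
      S = Finset.univ.biUnion fun i : α => (ω.repr (x i)).support := ⟨_, rfl⟩
  have hx2 : x = ∑ t ∈ S, ω t • (fun i : α => algebraMap K Ω (ω.repr (x i) t)) := by
    funext i
    rw [Finset.sum_apply]
    have h1 : x i = (ω.repr (x i)).sum fun t c => c • ω t := (ω.linearCombination_repr (x i)).symm
    have h2 : (ω.repr (x i)).support ⊆ S := by
      rw [hS]
      exact Finset.subset_biUnion_of_mem (fun i : α => (ω.repr (x i)).support) (Finset.mem_univ i)
    rw [Finsupp.sum_of_support_subset _ h2 (fun t c => c • ω t) (fun t _ => zero_smul K (ω t))] at h1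
    refine h1.trans (Finset.sum_congr rfl fun t _ => ?_)
    rw [Pi.smul_apply, smul_eq_mul, Algebra.smul_def, mul_comm]
  rw [hx2]
  refine Submodule.sum_mem _ fun t _ => Submodule.smul_mem _ _ (Submodule.subset_span ?_)
  exact ⟨fun i => ω.repr (x i) t, hker t, rfl⟩

end MPadcOA
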