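import Pool.Agent.Lib.MP_adc574_ag_OA.N_K1

/-! LEAF NK3: the derivative of the value of a form at a horizontal frame -/

set_option autoImplicit false

namespace MPadcOA

open Polynomial Matrix

theorem ev_map {R S : Type*} [CommRing R] [CommRing S] {g m : ℕ} (f : R →+* S) (U : Matrix (Fin g) (Nx g) R) (φ : Kx g m → R) :
    f (ev U φ) = ev (U.map f) fun s => f (φ s) := by
  unfold ev
  rw [map_sum]
  refine Finset.sum_congr rfl fun s _ => ?_
  rw [map_mul, map_prod]
  rfl

theorem ev_add {R : Type*} [CommRing R] {g m : ℕ} (U : Matrix (Fin g) (Nx g) R) (φ ψ : Kx g m → R) :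
    ev U (φ + ψ) = ev U φ + ev U ψ := by
  unfold ev
  rw [← Finset.sum_add_distrib]
  refine Finset.sum_congr rfl fun s _ => ?_
  rw [Pi.add_apply, add_mul]

theorem ev_smul {R : Type*} [CommRing R] {g m : ℕ} (U : Matrix (Fin g) (Nx g) R) (c : R) (φ : Kx g m → R) :
    ev U (c • φ) = c * ev U φ := by
  unfold ev
  rw [Finset.mul_sum]
  refine Finset.sum_congr rfl fun s _ => ?_
  rw [Pi.smul_apply, smul_eq_mul, mul_assoc]

private theorem NK3_up {g m : ℕ} (s : Kx g m) (i : Fin m) (l : Nx g) :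
    Function.update (Function.update s i ((s i).1, l)) i
      (((Function.update s i ((s i).1, l)) i).1, (s i).2) = s := by
  rw [Function.update_self, Function.update_idem]
  exact Function.update_eq_self i s

private theorem NK3_inv {g m : ℕ} (i : Fin m) (q : Kx g m × Nx g) :
    (Function.update (Function.update q.1 i ((q.1 i).1, q.2)) i
      (((Function.update q.1 i ((q.1 i).1, q.2)) i).1, (q.1 i).2),
      ((Function.update q.1 i ((q.1 i).1, q.2)) i).2) = q := by
  refine Prod.ext ?_ ?_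
  · exact NK3_up q.1 i q.2
  · simp only [Function.update_self]

/-- Proof. `derivative (φ s * ∏ i, U (s i).1 (s i).2) = derivative (φ s) * ∏ .. + φ s * ∑ i, (∏ j ∈ univ.erase i, ..) * derivative (U (s i).1 (s i).2)`
(`Polynomial.derivative_prod`); multiply by `Δ`, use `hU`: `Δ * derivative (U (s i).1 (s i).2) = ∑ l, U (s i).1 l * G l (s i).2`. So the second part is
`∑ s, ∑ i, ∑ l, φ s * U (s i).1 l * G l (s i).2 * ∏ j ≠ i, ..`. On the other side, by `KS_mulVec`,
`ev U (KS G *ᵥ φ) = ∑ s', ∑ i, ∑ l', G (s' i).2 l' * φ (update s' i ((s' i).1, l')) * ∏ j, U (s' j).1 (s' j).2`: for fixed `i` the map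
`(s, l) ↦ (update s i ((s i).1, l), (s i).2)` is a bijection (an involution) of `Kx g m × Nx g` which exchanges the two sums (`Finset.sum_bij'` or
`Equiv.sum_comp` with this involution), `∏ j, U (s' j).1 (s' j).2 = U (s i).1 l * ∏ j ≠ i, ..` for `s' = update s i ((s i).1, l)`. -/
theorem ev_opD {R : Type*} [CommRing R] {g m : ℕ} (Δ : R[X]) (G : Matrix (Nx g) (Nx g) R[X]) (U : Matrix (Fin g) (Nx g) R[X])
    (hU : ∀ i l, Δ * derivative (U i l) = (U * G) i l) (φ : Kx g m → R[X]) :
    Δ * derivative (ev U φ) = ev U (opD Δ G φ) := by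
  classical
  have hd : ∀ s : Kx g m, Δ * derivative (φ s * ∏ i, U (s i).1 (s i).2) =
      Δ * derivative (φ s) * ∏ i, U (s i).1 (s i).2 +
        ∑ i, ∑ l, φ s * (U (s i).1 l * G l (s i).2 * ∏ j ∈ Finset.univ.erase i, U (s j).1 (s j).2) := by
    intro s
    rw [derivative_mul, derivative_prod_finset, mul_add, ← mul_assoc]
    congr 1
    rw [Finset.mul_sum, Finset.mul_sum]
    refine Finset.sum_congr rfl fun i _ => ?_
    have h1 : Δ * (φ s * ((∏ j ∈ Finset.univ.erase i, U (s j).1 (s j).2) * derivative (U (s i).1 (s i).2))) =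
        φ s * ((Δ * derivative (U (s i).1 (s i).2)) * ∏ j ∈ Finset.univ.erase i, U (s j).1 (s j).2) := by
      ring
    rw [h1, hU, Matrix.mul_apply, Finset.sum_mul, Finset.mul_sum]
  have hk : ∀ s : Kx g m, (KS G *ᵥ φ) s * ∏ j, U (s j).1 (s j).2 =
      ∑ i, ∑ l, G (s i).2 l * φ (Function.update s i ((s i).1, l)) * ∏ j, U (s j).1 (s j).2 := by
    intro s
    rw [KS_mulVec, Finset.sum_mul]
    refine Finset.sum_congr rfl fun i _ => ?_
    rw [Finset.sum_mul]
  have hex : ∀ i : Fin m, ∑ s : Kx g m, ∑ l, φ s * (U (s i).1 l * G l (s i).2 *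
      ∏ j ∈ Finset.univ.erase i, U (s j).1 (s j).2) =
      ∑ s : Kx g m, ∑ l, G (s i).2 l * φ (Function.update s i ((s i).1, l)) *
        ∏ j, U (s j).1 (s j).2 := by
    intro i
    rw [← Fintype.sum_prod_type' (f := fun (s : Kx g m) (l : Nx g) => φ s * (U (s i).1 l * G l (s i).2 *
      ∏ j ∈ Finset.univ.erase i, U (s j).1 (s j).2)),
      ← Fintype.sum_prod_type' (f := fun (s : Kx g m) (l : Nx g) =>
        G (s i).2 l * φ (Function.update s i ((s i).1, l)) * ∏ j, U (s j).1 (s j).2)]
    refine Finset.sum_bij' (fun q _ => (Function.update q.1 i ((q.1 i).1, q.2), (q.1 i).2))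
      (fun q _ => (Function.update q.1 i ((q.1 i).1, q.2), (q.1 i).2)) (fun _ _ => Finset.mem_univ _)
      (fun _ _ => Finset.mem_univ _) (fun q _ => NK3_inv i q) (fun q _ => NK3_inv i q) ?_
    rintro ⟨s, l⟩ -
    have h2 := NK3_up s i l
    rw [Function.update_self] at h2
    simp only [Function.update_self, h2]
    have h3 : ∏ j, U ((Function.update s i ((s i).1, l)) j).1 ((Function.update s i ((s i).1, l)) j).2 =
        U (s i).1 l * ∏ j ∈ Finset.univ.erase i, U (s j).1 (s j).2 := by
      rw [← Finset.mul_prod_erase Finset.univ _ (Finset.mem_univ i), Function.update_self]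
      congr 1
      refine Finset.prod_congr rfl fun j hj => ?_
      rw [Function.update_of_ne (Finset.ne_of_mem_erase hj)]
    rw [h3]
    ring
  unfold ev opD
  rw [derivative_sum, Finset.mul_sum, Finset.sum_congr rfl fun s _ => hd s, Finset.sum_add_distrib]
  have hr : ∀ s : Kx g m, (Δ * derivative (φ s) + (KS G *ᵥ φ) s) * ∏ i, U (s i).1 (s i).2 =
      Δ * derivative (φ s) * ∏ i, U (s i).1 (s i).2 +
      ∑ i, ∑ l, G (s i).2 l * φ (Function.update s i ((s i).1, l)) * ∏ j, U (s j).1 (s j).2 := by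
    intro s
    rw [add_mul, hk]
  rw [Finset.sum_congr rfl fun s _ => hr s, Finset.sum_add_distrib]
  congr 1
  rw [Finset.sum_comm]
  rw [Finset.sum_comm (f := fun (s : Kx g m) (i : Fin m) => ∑ l, G (s i).2 l * φ (Function.update s i ((s i).1, l)) *
    ∏ j, U (s j).1 (s j).2)]
  exact Finset.sum_congr rfl fun i _ => hex i

end MPadcOA
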