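import Pool.Agent.Lib.MP_adc574_ag_OA.N_T0

/-!
# Block N: more definitions

`HF` is the ultrafilter, `mr A n` the matrix over `k n` which represents the matrix `A` at the place `n`, `Tm P Q j i a b` the coefficients of the
linear form `M ↦ (Q * KS M * P) (inr j) (inl i)`, `vanS` the module of the forms which vanish at the generic isotropic frame, `WA` the module
generated by the iterated derivatives of `Φ` and `vanS`, `WS` its saturation.
-/

set_option autoImplicit false

namespace MPadcOA

open Polynomial Matrix MPadcGM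

/-- The ultrafilter on `ℕ`. -/
noncomputable abbrev HF : Filter ℕ := (Filter.hyperfilter ℕ : Filter ℕ)

/-- The matrix over `k n` which represents `A`. -/
noncomputable def mr {k : ℕ → Type} [∀ n, Field (k n)] {α β : Type} (A : Matrix α β (LL k)[X]) (n : ℕ) : Matrix α β (k n)[X] :=
  fun i j => rp (A i j) n

/-- The coefficients of the linear form `M ↦ (Q * KS M * P) (inr j) (inl i)`. -/
noncomputable def Tm {R : Type*} [CommRing R] {g m r s : ℕ} (P : Matrix (Kx g m) (Fin r ⊕ Fin s) R)
    (Q : Matrix (Fin r ⊕ Fin s) (Kx g m) R) (j : Fin s) (i : Fin r) : Matrix (Nx g) (Nx g) R :=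
  fun a b => (Q * (KS (Matrix.single a b (1 : R)) : Matrix (Kx g m) (Kx g m) R) * P : Matrix (Fin r ⊕ Fin s) (Fin r ⊕ Fin s) R)
    (Sum.inr j) (Sum.inl i)

/-- The forms which vanish at the generic isotropic frame. -/
def vanS (g m : ℕ) (R : Type) [CommRing R] : Submodule R (Kx g m → R) where
  carrier := {φ | Van φ}
  add_mem' := fun h h' => van_add h h'
  zero_mem' := van_zero
  smul_mem' := fun c _ h => van_smul c h

/-- The module generated by the iterated derivatives of `Φ` and `vanS`. -/
noncomputable def WA {F : Type} [Field F] {g m : ℕ} (Δ : F[X]) (G : Matrix (Nx g) (Nx g) F[X]) (Φ : Kx g m → F[X]) :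
    Submodule F[X] (Kx g m → F[X]) :=
  Submodule.span F[X] (Set.range fun e : ℕ => (opD Δ G)^[e] Φ) ⊔ vanS g m F[X]

/-- Its saturation. -/
noncomputable def WS {F : Type} [Field F] {g m : ℕ} (Δ : F[X]) (G : Matrix (Nx g) (Nx g) F[X]) (Φ : Kx g m → F[X]) :
    Submodule F[X] (Kx g m → F[X]) where
  carrier := {x | ∃ d : F[X], d ≠ 0 ∧ d • x ∈ WA Δ G Φ}
  add_mem' := by
    rintro x y ⟨d, hd, hx⟩ ⟨d', hd', hy⟩
    refine ⟨d * d', mul_ne_zero hd hd', ?_⟩
    rw [smul_add]
    refine add_mem ?_ ?_
    · rw [mul_comm, mul_smul]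
      exact Submodule.smul_mem _ _ hx
    · rw [mul_smul]
      exact Submodule.smul_mem _ _ hy
  zero_mem' := ⟨1, one_ne_zero, by rw [smul_zero]; exact zero_mem _⟩
  smul_mem' := by
    rintro c x ⟨d, hd, hx⟩
    refine ⟨d, hd, ?_⟩
    rw [smul_comm]
    exact Submodule.smul_mem _ _ hx

end MPadcOA
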