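import Pool.Agent.Lib.MP_adc574_ag_OA.N_K1
import Pool.Agent.Lib.MP_adc574_ag_OA.N_U0

/-! LEAF NK4: the linear form `M ↦ (Q * KS M * P) (inr j) (inl i)` -/

set_option autoImplicit false

namespace MPadcOA

open Polynomial Matrix

private theorem NK4_tri {R : Type} [CommRing R] {r s : ℕ} (A B : Matrix (Fin r ⊕ Fin s) (Fin r ⊕ Fin s) R)
    (hA : ∀ j i, A (Sum.inr j) (Sum.inl i) = 0) (hB : ∀ j i, B (Sum.inr j) (Sum.inl i) = 0)
    (j : Fin s) (i : Fin r) : (A * B) (Sum.inr j) (Sum.inl i) = 0 := by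
  rw [Matrix.mul_apply, Fintype.sum_sum_type]
  have h1 : ∑ x, A (Sum.inr j) (Sum.inl x) * B (Sum.inl x) (Sum.inl i) = 0 :=
    Finset.sum_eq_zero fun x _ => by rw [hA, zero_mul]
  have h2 : ∑ x, A (Sum.inr j) (Sum.inr x) * B (Sum.inr x) (Sum.inl i) = 0 :=
    Finset.sum_eq_zero fun x _ => by rw [hB, mul_zero]
  rw [h1, h2, add_zero]

/-- Proof. `Matrix.map` commutes with products (`Matrix.map_mul`) and `KS_map`, and `Matrix.single a b 1` is mapped to `Matrix.single a b 1`. -/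
theorem Tm_map {R S : Type} [CommRing R] [CommRing S] {g m r s : ℕ} (f : R →+* S) (P : Matrix (Kx g m) (Fin r ⊕ Fin s) R)
    (Q : Matrix (Fin r ⊕ Fin s) (Kx g m) R) (j : Fin s) (i : Fin r) : (Tm P Q j i).map f = Tm (P.map f) (Q.map f) j i := by
  ext a b
  have h1 : (Matrix.single a b (1 : R)).map f = Matrix.single a b (1 : S) := by
    ext x y
    rw [Matrix.map_apply, Matrix.single_apply, Matrix.single_apply]
    split_ifs
    · exact map_one f
    · exact map_zero f
  have h2 : (Q * (KS (Matrix.single a b (1 : R)) : Matrix (Kx g m) (Kx g m) R) * P).map f =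
      Q.map f * (KS (Matrix.single a b (1 : S)) : Matrix (Kx g m) (Kx g m) S) * P.map f := by
    rw [Matrix.map_mul, Matrix.map_mul, KS_map, h1]
  exact congrFun (congrFun h2 (Sum.inr j)) (Sum.inl i)

/-- Proof. `M = ∑ a, ∑ b, M a b • Matrix.single a b 1` (`Matrix.matrix_eq_sum_single`), `KS` is linear (`KS_add`, `KS_smul`; for the finite sums make it an additive
homomorphism or use induction), products of matrices are linear. -/
theorem KS_lin {R : Type} [CommRing R] {g m r s : ℕ} (P : Matrix (Kx g m) (Fin r ⊕ Fin s) R) (Q : Matrix (Fin r ⊕ Fin s) (Kx g m) R)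
    (M : Matrix (Nx g) (Nx g) R) (j : Fin s) (i : Fin r) :
    (Q * (KS M : Matrix (Kx g m) (Kx g m) R) * P) (Sum.inr j) (Sum.inl i) = ∑ a, ∑ b, Tm P Q j i a b * M a b := by
  obtain ⟨L, hL⟩ : ∃ L : Matrix (Nx g) (Nx g) R →ₗ[R] R, ∀ M, L M =
      (Q * (KS M : Matrix (Kx g m) (Kx g m) R) * P) (Sum.inr j) (Sum.inl i) := by
    refine ⟨{ toFun := fun M => (Q * (KS M : Matrix (Kx g m) (Kx g m) R) * P) (Sum.inr j) (Sum.inl i)
              map_add' := fun M M' => ?_
              map_smul' := fun c M => ?_ }, fun M => rfl⟩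
    · rw [KS_add, Matrix.mul_add, Matrix.add_mul, Matrix.add_apply]
    · rw [KS_smul, Matrix.mul_smul, Matrix.smul_mul, Matrix.smul_apply, RingHom.id_apply]
  have hT : ∀ a b, L (Matrix.single a b 1) = Tm P Q j i a b := fun a b => hL _
  rw [← hL]
  conv_lhs => rw [Matrix.matrix_eq_sum_single M]
  rw [map_sum]
  refine Finset.sum_congr rfl fun a _ => ?_
  rw [map_sum]
  refine Finset.sum_congr rfl fun b _ => ?_
  have h1 : Matrix.single a b (M a b) = M a b • (Matrix.single a b 1 : Matrix (Nx g) (Nx g) R) := by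
    rw [Matrix.smul_single, smul_eq_mul, mul_one]
  rw [h1, map_smul, hT, smul_eq_mul, mul_comm]

/-- (The matrices `M` for which `Q * KS M * P` is block triangular are a Lie algebra.) Proof. By `KS_lin` the hypotheses say that the blocks `₂₁` of `Q KS(M) P` and
`Q KS(M') P` vanish; the product of two such matrices has the block `₂₁` zero (`Matrix.fromBlocks_toBlocks`, or sums over `Fin r ⊕ Fin s`), and
`Q KS(M) P * Q KS(M') P = Q KS(M) KS(M') P` (`P * Q = 1`); `KS_comm`. -/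
theorem Tm_lie {R : Type} [CommRing R] {g m r s : ℕ} (P : Matrix (Kx g m) (Fin r ⊕ Fin s) R) (Q : Matrix (Fin r ⊕ Fin s) (Kx g m) R)
    (hPQ : P * Q = 1) (M M' : Matrix (Nx g) (Nx g) R) (h : ∀ j i, ∑ a, ∑ b, Tm P Q j i a b * M a b = 0)
    (h' : ∀ j i, ∑ a, ∑ b, Tm P Q j i a b * M' a b = 0) (j : Fin s) (i : Fin r) :
    ∑ a, ∑ b, Tm P Q j i a b * (M * M' - M' * M) a b = 0 := by
  have h1 : ∀ j i, (Q * (KS M : Matrix (Kx g m) (Kx g m) R) * P) (Sum.inr j) (Sum.inl i) = 0 :=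
    fun j i => (KS_lin P Q M j i).trans (h j i)
  have h2 : ∀ j i, (Q * (KS M' : Matrix (Kx g m) (Kx g m) R) * P) (Sum.inr j) (Sum.inl i) = 0 :=
    fun j i => (KS_lin P Q M' j i).trans (h' j i)
  have e1 : ∀ N N' : Matrix (Nx g) (Nx g) R,
      Q * ((KS N : Matrix (Kx g m) (Kx g m) R) * KS N') * P =
        (Q * (KS N : Matrix (Kx g m) (Kx g m) R) * P) * (Q * (KS N' : Matrix (Kx g m) (Kx g m) R) * P) := by
    intro N N'
    have e2 : (Q * (KS N : Matrix (Kx g m) (Kx g m) R) * P) *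
        (Q * (KS N' : Matrix (Kx g m) (Kx g m) R) * P) =
        Q * (KS N : Matrix (Kx g m) (Kx g m) R) * (P * Q) * (KS N' : Matrix (Kx g m) (Kx g m) R) * P := by
      simp only [Matrix.mul_assoc]
    rw [e2, hPQ, Matrix.mul_one, ← Matrix.mul_assoc Q]
  rw [← KS_lin, ← KS_comm, Matrix.mul_sub, Matrix.sub_mul, e1, e1, Matrix.sub_apply,
    NK4_tri _ _ h1 h2, NK4_tri _ _ h2 h1, sub_self]

end MPadcOA
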