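import Mathlib

/-! LEAF NS1: `K` algebraically closed in `Ω`, `K'` a finite extension of `K`: a field which contains both, linearly disjoint -/

set_option autoImplicit false

namespace MPadcOA

open Polynomial

private theorem NS1_irr {K Ω : Type} [Field K] [Field Ω] [Algebra K Ω]
    (hac : ∀ x : Ω, IsAlgebraic K x → x ∈ (algebraMap K Ω).range) {P : K[X]} (hP : P.Monic) (hi : Irreducible P) :
    Irreducible (P.map (algebraMap K Ω)) := by
  have hnu : ¬ IsUnit (P.map (algebraMap K Ω)) := by
    intro h
    have h1 := natDegree_eq_zero_of_isUnit h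
    rw [natDegree_map] at h1
    exact hi.not_isUnit (by rw [eq_one_of_monic_natDegree_zero hP h1]; exact isUnit_one)
  obtain ⟨Q, hQm, hQi, hQd⟩ := exists_monic_irreducible_factor _ hnu
  have h1 := integralClosure.mem_lifts_of_monic_of_dvd_map Ω hP hQm hQd
  rw [lifts_iff_coeff_lifts] at h1
  have h2 : Q ∈ lifts (algebraMap K Ω) := by
    rw [lifts_iff_coeff_lifts]
    intro n
    obtain ⟨y, hy⟩ := h1 n
    have h3 : IsAlgebraic K (Q.coeff n) := by
      rw [← hy]
      exact (y.2 : IsIntegral K (y : Ω)).isAlgebraic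
    exact hac _ h3
  obtain ⟨Q0, hQ0⟩ := (mem_lifts _).1 h2
  rw [← hQ0] at hQd hQi
  have h4 : Q0 ∣ P := (map_dvd_map' _).1 hQd
  have h5 : ¬ IsUnit Q0 := fun h => hQi.not_isUnit (h.map (mapRingHom (algebraMap K Ω)))
  have h6 : Associated Q0 P := (hi.dvd_iff.1 h4).resolve_left h5 |>.symm
  exact (h6.map (mapRingHom (algebraMap K Ω))).irreducible hQi

/-- Proof. `K' = K(x)` (`Field.exists_primitive_element`, characteristic zero), `P` the minimal polynomial of `x` over `K`, irreducible of degree `n`. `P` is irreducible over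
`Ω`: let `Q` be a monic irreducible factor over `Ω` of `P.map (algebraMap K Ω)`; over the algebraic closure `E` of `Ω` all roots of `Q` are roots of `P`, hence algebraic
over `K`, and the coefficients of `Q` are polynomials in the roots (`Q` splits over `E`: `Q.map = ∏ (X - root)`), so they are algebraic over `K`
(`Subalgebra`/`integralClosure K E`: the polynomial `∏ (X - root)` has coefficients in the algebraic elements; for instance `Polynomial.Splits` with
`coeff_mem_of..`/`IsIntegral` of coefficients of a monic factor: `IsIntegrallyClosed`-style `Polynomial.Monic ... integralClosure.coeff`), so by `hac` the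
coefficients of `Q` come from `K`: `Q = Q₀.map`, `Q₀ ∣ P` over `K` (`Polynomial.map_dvd_map'`), so `Q₀ = P` up to a unit. Let `F := AdjoinRoot (P.map (algebraMap K Ω))`, a field
(`Fact (Irreducible _)`), `K' → F`: `K' ≅ AdjoinRoot P → F` (`IntermediateField.adjoin.powerBasis`/`AdjoinRoot.lift`, or `Algebra.adjoin.powerBasis`,
`PowerBasis.lift` with `x ↦ root`). `1, x, .., x^(n-1)` is a basis of `K'` over `K` and the powers of the root are a basis of `F` over `Ω`
(`AdjoinRoot.powerBasis`). If `∑ i, c i • w i = 0` in `F` with `c i = ∑ j, c i j x^j`, `c i j ∈ K`, then for every `j`: `∑ i, c i j • w i = 0` in `Ω`, so `c i j = 0`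
by `hw`. (`Fintype.linearIndependent_iff`.) -/
theorem lin_disj {K Ω K' : Type} [Field K] [Field Ω] [Field K'] [Algebra K Ω] [Algebra K K'] [CharZero K] [FiniteDimensional K K']
    (hac : ∀ x : Ω, IsAlgebraic K x → x ∈ (algebraMap K Ω).range) {n : Type} [Fintype n] (w : n → Ω)
    (hw : LinearIndependent K w) :
    ∃ (F : Type) (_ : Field F) (_ : Algebra K F) (_ : Algebra K' F) (_ : Algebra Ω F) (_ : IsScalarTower K K' F)
      (_ : IsScalarTower K Ω F), LinearIndependent K' fun i => algebraMap Ω F (w i) := by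
  classical
  obtain ⟨pb⟩ : Nonempty (PowerBasis K K') := ⟨Field.powerBasisOfFiniteOfSeparable K K'⟩
  have hint : IsIntegral K pb.gen := pb.isIntegral_gen
  have hm : (minpoly K pb.gen).Monic := minpoly.monic hint
  obtain ⟨f, hf⟩ : ∃ f : Polynomial Ω, f = (minpoly K pb.gen).map (algebraMap K Ω) := ⟨_, rfl⟩
  have hfi : Irreducible f := by
    rw [hf]
    exact NS1_irr hac hm (minpoly.irreducible hint)
  have hdeg : f.natDegree = pb.dim := by
    rw [hf, natDegree_map, pb.natDegree_minpoly]
  have : Fact (Irreducible f) := ⟨hfi⟩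
  have hroot : aeval (AdjoinRoot.root f) (minpoly K pb.gen) = 0 := by
    rw [← aeval_map_algebraMap Ω, ← hf, AdjoinRoot.aeval_eq, AdjoinRoot.mk_self]
  obtain ⟨φ, hφ⟩ : ∃ φ : K' →ₐ[K] AdjoinRoot f, φ pb.gen = AdjoinRoot.root f :=
    ⟨pb.lift _ hroot, pb.lift_gen _ hroot⟩
  let _ : Algebra K' (AdjoinRoot f) := φ.toRingHom.toAlgebra
  have hst : IsScalarTower K K' (AdjoinRoot f) := IsScalarTower.of_algebraMap_eq fun a => (φ.commutes a).symm
  refine ⟨AdjoinRoot f, inferInstance, inferInstance, φ.toRingHom.toAlgebra, inferInstance, hst, inferInstance, ?_⟩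
  rw [Fintype.linearIndependent_iff]
  intro c hc
  choose r hr1 hr2 using fun i => pb.exists_eq_aeval (c i)
  have h1 : ∀ i, c i • algebraMap Ω (AdjoinRoot f) (w i) =
      AdjoinRoot.mk f ((r i).map (algebraMap K Ω) * C (w i)) := by
    intro i
    have h2 : c i • algebraMap Ω (AdjoinRoot f) (w i) = φ (c i) * algebraMap Ω (AdjoinRoot f) (w i) := rfl
    rw [h2, hr2 i, ← aeval_algHom_apply, hφ, ← aeval_map_algebraMap Ω, AdjoinRoot.aeval_eq, map_mul]
    rfl
  rw [Finset.sum_congr rfl fun i _ => h1 i, ← map_sum, AdjoinRoot.mk_eq_zero] at hc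
  have h3 : ∑ i, (r i).map (algebraMap K Ω) * C (w i) = 0 := by
    refine eq_zero_of_dvd_of_natDegree_lt hc ?_
    rw [hdeg]
    have hpos : 0 < pb.dim := pb.dim_pos
    refine lt_of_le_of_lt (natDegree_sum_le_of_forall_le (n := pb.dim - 1) _ _ fun i _ => ?_) (by omega)
    refine (natDegree_mul_C_le _ _).trans ?_
    rw [natDegree_map]
    have := hr1 i
    omega
  have h4 : ∀ i, r i = 0 := by
    have h5 : ∀ j i, (r i).coeff j = 0 := by
      intro j
      have h6 := congrArg (fun q : Polynomial Ω => q.coeff j) h3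
      rw [coeff_zero, finsetSum_coeff] at h6
      refine Fintype.linearIndependent_iff.1 hw (fun i => (r i).coeff j) ?_
      rw [← h6]
      refine Finset.sum_congr rfl fun i _ => ?_
      rw [coeff_mul_C, coeff_map, Algebra.smul_def]
    intro i
    ext j
    rw [h5 j i, coeff_zero]
  intro i
  rw [hr2 i, h4 i, map_zero]

end MPadcOA
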