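import Mathlib

/-! LEAF NS2: a specialization with values in a finite extension -/

set_option autoImplicit false

namespace MPadcOA

/-- Proof. Choose `i₀` with `w i₀ ≠ 0` and let `S := Algebra.adjoin K (Set.range w ∪ {(w i₀)⁻¹}) ⊆ Ω`, a nonzero `K`-algebra of finite type. Let `𝔪` be a maximal ideal of
`S` and `K' := S ⧸ 𝔪`, a field which is a finitely generated `K`-algebra, so it is finite over `K` (Zariski's lemma:
`finite_of_finite_type_of_isJacobsonRing`, `Module.Finite` for `Algebra.FiniteType K K'` with `K'` a field). Put `v i := class of w i`; `v i₀` is invertible (the class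
of `(w i₀)⁻¹` is its inverse), so `v ≠ 0`. If `aeval w P = 0` in `Ω` then `aeval (w as elements of S) P = 0` in `S` (`S → Ω` is injective,
`MvPolynomial.aeval` commutes with algebra homomorphisms), so `aeval v P = 0` in `K'`. -/
theorem specialize {K Ω : Type} [Field K] [Field Ω] [Algebra K Ω] {n : Type} [Finite n] (w : n → Ω) (hw : w ≠ 0) :
    ∃ (K' : Type) (_ : Field K') (_ : Algebra K K') (_ : FiniteDimensional K K') (v : n → K'), v ≠ 0 ∧
      ∀ P : MvPolynomial n K, MvPolynomial.aeval w P = 0 → MvPolynomial.aeval v P = 0 := by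
  classical
  obtain ⟨i₀, hi₀⟩ : ∃ i, w i ≠ 0 := by
    by_contra h
    push Not at h
    exact hw (funext h)
  obtain ⟨S, hS⟩ : ∃ S : Subalgebra K Ω, S = Algebra.adjoin K (Set.range w ∪ {(w i₀)⁻¹}) := ⟨_, rfl⟩
  have hfin : (Set.range w ∪ {(w i₀)⁻¹}).Finite := (Set.finite_range w).union (Set.finite_singleton _)
  have hfg : S.FG := ⟨hfin.toFinset, by rw [Set.Finite.coe_toFinset, hS]⟩
  have hft : Algebra.FiniteType K S := S.fg_iff_finiteType.mp hfg
  have hwS : ∀ i, w i ∈ S := fun i => hS ▸ Algebra.subset_adjoin (Or.inl ⟨i, rfl⟩)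
  have hwi : (w i₀)⁻¹ ∈ S := hS ▸ Algebra.subset_adjoin (Or.inr rfl)
  obtain ⟨𝔪, h𝔪⟩ := Ideal.exists_maximal S
  let _inst : Field (S ⧸ 𝔪) := Ideal.Quotient.field 𝔪
  have hft' : Algebra.FiniteType K (S ⧸ 𝔪) :=
    Algebra.FiniteType.of_surjective (Ideal.Quotient.mkₐ K 𝔪) (Ideal.Quotient.mkₐ_surjective K 𝔪)
  have hmf : Module.Finite K (S ⧸ 𝔪) := finite_of_finite_type_of_isJacobsonRing K (S ⧸ 𝔪)
  refine ⟨S ⧸ 𝔪, inferInstance, inferInstance, hmf, fun i => Ideal.Quotient.mkₐ K 𝔪 ⟨w i, hwS i⟩, ?_, ?_⟩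
  · intro h0
    have h1 : Ideal.Quotient.mkₐ K 𝔪 ⟨w i₀, hwS i₀⟩ = 0 := congrFun h0 i₀
    have h2 : (⟨w i₀, hwS i₀⟩ : S) * ⟨(w i₀)⁻¹, hwi⟩ = 1 := Subtype.ext (mul_inv_cancel₀ hi₀)
    have h3 : Ideal.Quotient.mkₐ K 𝔪 (⟨w i₀, hwS i₀⟩ * ⟨(w i₀)⁻¹, hwi⟩) = 1 := by
      rw [h2, map_one]
    rw [map_mul, h1, zero_mul] at h3
    exact zero_ne_one h3
  · intro P hP
    have h1 : MvPolynomial.aeval (fun i => (⟨w i, hwS i⟩ : S)) P = 0 := by
      apply Subtype.val_injective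
      have h2 : ((MvPolynomial.aeval (fun i => (⟨w i, hwS i⟩ : S)) P : S) : Ω) = MvPolynomial.aeval w P := by
        have h3 := MvPolynomial.map_aeval (fun i => (⟨w i, hwS i⟩ : S)) (S.val : S →+* Ω) P
        rw [MvPolynomial.aeval_def]
        exact h3
      rw [h2, hP]
      rfl
    have h4 : MvPolynomial.aeval (fun i => Ideal.Quotient.mkₐ K 𝔪 (⟨w i, hwS i⟩ : S)) P =
        Ideal.Quotient.mkₐ K 𝔪 (MvPolynomial.aeval (fun i => (⟨w i, hwS i⟩ : S)) P) := by
      rw [← MvPolynomial.comp_aeval_apply]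
    rw [h4, h1, map_zero]

end MPadcOA
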