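import Pool.Agent.Lib.MP_adc574_ag_OA.N_Defs

/-! LEAF NS3: the brackets in the symplectic Lie algebra (the algebra of the argument) -/

set_option autoImplicit false

namespace MPadcOA

open Matrix

/-- the form -/
def om {R : Type*} [CommRing R] {g : ℕ} (u v : Nx g → R) : R := u ⬝ᵥ (JJ g R *ᵥ v)

theorem om_anti {R : Type*} [CommRing R] {g : ℕ} (u v : Nx g → R) : om v u = - om u v := by
  have hJ : (JJ g R)ᵀ = - JJ g R := by
    unfold JJ
    rw [Matrix.fromBlocks_transpose, Matrix.fromBlocks_neg, Matrix.transpose_zero, Matrix.transpose_neg,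
      Matrix.transpose_one, neg_zero, neg_neg]
  unfold om
  rw [Matrix.dotProduct_mulVec, ← Matrix.mulVec_transpose, hJ, Matrix.neg_mulVec, neg_dotProduct,
    dotProduct_comm]

private theorem NS3_mul {R : Type*} [CommRing R] {g : ℕ} (a b c d : Nx g → R) :
    vecMulVec a b * vecMulVec c d = (b ⬝ᵥ c) • vecMulVec a d := by
  ext i l
  rw [Matrix.mul_apply, Matrix.smul_apply, smul_eq_mul, vecMulVec_apply, dotProduct, Finset.sum_mul]
  refine Finset.sum_congr rfl fun j _ => ?_
  rw [vecMulVec_apply, vecMulVec_apply]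
  ring

/-- Proof. `vecMulVec (J v) v * vecMulVec (J w) w = (v ⬝ᵥ J w) • vecMulVec (J v) w` (`Matrix.vecMulVec_mul_vecMulVec` or entrywise), and `om w v = - om v w`. -/
theorem brack1 {R : Type*} [CommRing R] {g : ℕ} (v w : Nx g → R) :
    vecMulVec (JJ g R *ᵥ v) v * vecMulVec (JJ g R *ᵥ w) w - vecMulVec (JJ g R *ᵥ w) w * vecMulVec (JJ g R *ᵥ v) v =
      om v w • tr v w := by
  have h := om_anti v w
  unfold om at h
  unfold om tr
  rw [NS3_mul, NS3_mul, h, neg_smul, sub_neg_eq_add, smul_add]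

/-- Proof. The same: `[(Jv)b, (Jw)w] = om b w (Jv)w + om v w (Jw)b` and `[(Jb)v, (Jw)w] = om v w (Jb)w + om b w (Jw)v`. -/
theorem brack2 {R : Type*} [CommRing R] {g : ℕ} (v b w : Nx g → R) :
    tr v b * vecMulVec (JJ g R *ᵥ w) w - vecMulVec (JJ g R *ᵥ w) w * tr v b = om b w • tr v w + om v w • tr b w := by
  have h := om_anti v w
  have h' := om_anti b w
  unfold om at h h'
  unfold om tr
  rw [add_mul, mul_add, NS3_mul, NS3_mul, NS3_mul, NS3_mul, h, h', neg_smul, neg_smul, smul_add, smul_add]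
  abel

end MPadcOA
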