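import Pool.Agent.Lib.MP_adc574_ag_OA.N_S3
import Pool.Agent.Lib.MP_adc574_ag_OA.N_E1

/-! LEAF NS4: two vectors `v`, `w` with `w` linearly independent over the field of `v` -/

set_option autoImplicit false

namespace MPadcOA

open Matrix

/-- The matrices over `F` which satisfy the equations. -/
private def NS4_G {K : Type} [Field K] {g N : ℕ} (T : Fin N → Matrix (Nx g) (Nx g) K) (F : Type) [Field F] [Algebra K F] :
    Submodule F (Matrix (Nx g) (Nx g) F) where
  carrier := {M | ∀ c, ∑ i, ∑ j, algebraMap K F (T c i j) * M i j = 0}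
  add_mem' := by
    intro a b ha hb c
    have h : ∑ i, ∑ j, algebraMap K F (T c i j) * (a + b) i j =
        (∑ i, ∑ j, algebraMap K F (T c i j) * a i j) + ∑ i, ∑ j, algebraMap K F (T c i j) * b i j := by
      simp only [Matrix.add_apply, mul_add, Finset.sum_add_distrib]
    rw [h, ha c, hb c, add_zero]
  zero_mem' := by
    intro c
    simp
  smul_mem' := by
    intro r a ha c
    have h : ∑ i, ∑ j, algebraMap K F (T c i j) * (r • a) i j = r * ∑ i, ∑ j, algebraMap K F (T c i j) * a i j := by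
      simp only [Matrix.smul_apply, smul_eq_mul, Finset.mul_sum]
      exact Finset.sum_congr rfl fun i _ => Finset.sum_congr rfl fun j _ => by ring
    rw [h, ha c, mul_zero]

private theorem NS4_mem {K F : Type} [Field K] [Field F] [Algebra K F] {g N : ℕ} {T : Fin N → Matrix (Nx g) (Nx g) K}
    {M : Matrix (Nx g) (Nx g) F} :
    M ∈ NS4_G T F ↔ ∀ c, ∑ i, ∑ j, algebraMap K F (T c i j) * M i j = 0 := Iff.rfl

private theorem NS4_map {K K1 F : Type} [Field K] [Field K1] [Field F] [Algebra K K1] [Algebra K1 F] [Algebra K F]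
    [IsScalarTower K K1 F] {g N : ℕ} (T : Fin N → Matrix (Nx g) (Nx g) K) (M : Matrix (Nx g) (Nx g) K1) (c : Fin N) :
    ∑ i, ∑ j, algebraMap K F (T c i j) * M.map (algebraMap K1 F) i j =
      algebraMap K1 F (∑ i, ∑ j, algebraMap K K1 (T c i j) * M i j) := by
  rw [map_sum]
  refine Finset.sum_congr rfl fun i _ => ?_
  rw [map_sum]
  refine Finset.sum_congr rfl fun j _ => ?_
  rw [map_mul, ← IsScalarTower.algebraMap_apply, Matrix.map_apply]

private theorem NS4_span {K F : Type} [Field K] [Field F] [Algebra K F] {g N : ℕ} (T : Fin N → Matrix (Nx g) (Nx g) K)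
    {M : Matrix (Nx g) (Nx g) F} (hM : M ∈ NS4_G T F) :
    M ∈ Submodule.span F ((fun Y : Matrix (Nx g) (Nx g) K => Y.map (algebraMap K F)) ''
      {Y | ∀ c, ∑ i, ∑ j, T c i j * Y i j = 0}) := by
  have h1 := ker_base (K := K) (Ω := F) (Matrix.of fun (c : Fin N) (q : Nx g × Nx g) => T c q.1 q.2)
    (fun q => M q.1 q.2) (by
      funext c
      have h2 := hM c
      rw [Pi.zero_apply, ← h2, Matrix.mulVec, dotProduct, Fintype.sum_prod_type]
      rfl)
  let e : ((Nx g × Nx g) → F) →ₗ[F] Matrix (Nx g) (Nx g) F :=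
    { toFun := fun x => Matrix.of fun i j => x (i, j)
      map_add' := fun _ _ => rfl
      map_smul' := fun _ _ => rfl }
  have h3 : e (fun q => M q.1 q.2) = M := rfl
  rw [← h3]
  have h4 := Submodule.mem_map_of_mem (f := e) h1
  rw [Submodule.map_span] at h4
  refine Submodule.span_mono ?_ h4
  rintro _ ⟨_, ⟨y, hy, rfl⟩, rfl⟩
  refine ⟨Matrix.of fun i j => y (i, j), fun c => ?_, rfl⟩
  have h5 := congrFun hy c
  rw [Matrix.mulVec, dotProduct, Fintype.sum_prod_type] at h5
  exact h5

private theorem NS4_lie {K F : Type} [Field K] [Field F] [Algebra K F] {g N : ℕ} (T : Fin N → Matrix (Nx g) (Nx g) K)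
    (hlie : ∀ M M' : Matrix (Nx g) (Nx g) K, (∀ c, ∑ i, ∑ j, T c i j * M i j = 0) → (∀ c, ∑ i, ∑ j, T c i j * M' i j = 0) →
      ∀ c, ∑ i, ∑ j, T c i j * (M * M' - M' * M) i j = 0)
    {M M' : Matrix (Nx g) (Nx g) F} (hM : M ∈ NS4_G T F) (hM' : M' ∈ NS4_G T F) : M * M' - M' * M ∈ NS4_G T F := by
  have h1 := NS4_span T hM
  have h1' := NS4_span T hM'
  clear hM hM'
  induction h1 using Submodule.span_induction with
  | mem M hM =>
    induction h1' using Submodule.span_induction with
    | mem M' hM' =>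
      obtain ⟨Y, hY, rfl⟩ := hM
      obtain ⟨Y', hY', rfl⟩ := hM'
      show Y.map (algebraMap K F) * Y'.map (algebraMap K F) - Y'.map (algebraMap K F) * Y.map (algebraMap K F) ∈ NS4_G T F
      have h2 : Y.map (algebraMap K F) * Y'.map (algebraMap K F) - Y'.map (algebraMap K F) * Y.map (algebraMap K F) =
          (Y * Y' - Y' * Y).map (algebraMap K F) := by
        ext i j
        rw [Matrix.sub_apply, Matrix.map_apply, Matrix.sub_apply, map_sub, Matrix.mul_apply, Matrix.mul_apply,
          Matrix.mul_apply, Matrix.mul_apply, map_sum, map_sum]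
        simp only [Matrix.map_apply, map_mul]
      rw [h2, NS4_mem]
      intro c
      rw [NS4_map (K1 := K)]
      have h3 := hlie Y Y' hY hY' c
      have h4 : ∑ i, ∑ j, algebraMap K K (T c i j) * (Y * Y' - Y' * Y) i j = 0 := h3
      rw [h4, map_zero]
    | zero =>
      rw [mul_zero, zero_mul, sub_self]
      exact Submodule.zero_mem _
    | add X Y _ _ hX hY =>
      have h2 : M * (X + Y) - (X + Y) * M = (M * X - X * M) + (M * Y - Y * M) := by
        rw [mul_add, add_mul]
        abel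
      rw [h2]
      exact Submodule.add_mem _ hX hY
    | smul r X _ hX =>
      have h2 : M * (r • X) - (r • X) * M = r • (M * X - X * M) := by
        rw [Matrix.mul_smul, Matrix.smul_mul, smul_sub]
      rw [h2]
      exact Submodule.smul_mem _ _ hX
  | zero =>
    rw [mul_zero, zero_mul, sub_self]
    exact Submodule.zero_mem _
  | add X Y _ _ hX hY =>
    have h2 : (X + Y) * M' - M' * (X + Y) = (X * M' - M' * X) + (Y * M' - M' * Y) := by
      rw [mul_add, add_mul]
      abel
    rw [h2]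
    exact Submodule.add_mem _ hX hY
  | smul r X _ hX =>
    have h2 : (r • X) * M' - M' * (r • X) = r • (X * M' - M' * X) := by
      rw [Matrix.mul_smul, Matrix.smul_mul, smul_sub]
    rw [h2]
    exact Submodule.smul_mem _ _ hX

private theorem NS4_JJ {R S : Type} [CommRing R] [CommRing S] (φ : R →+* S) (g : ℕ) : (JJ g R).map φ = JJ g S := by
  ext i j
  unfold JJ
  rw [Matrix.map_apply]
  rcases i with i | i <;> rcases j with j | j <;> by_cases h : i = j <;> simp [h]

private theorem NS4_Jv {R S : Type} [CommRing R] [CommRing S] (φ : R →+* S) {g : ℕ} (v : Nx g → R) :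
    JJ g S *ᵥ (φ ∘ v) = φ ∘ (JJ g R *ᵥ v) := by
  rw [← NS4_JJ φ g]
  funext i
  exact (RingHom.map_mulVec φ (JJ g R) v i).symm

private theorem NS4_tr_apply {R : Type} [CommRing R] {g : ℕ} (u v : Nx g → R) (i j : Nx g) :
    tr u v i j = (JJ g R *ᵥ u) i * v j + (JJ g R *ᵥ v) i * u j := by
  unfold tr
  rw [Matrix.add_apply, Matrix.vecMulVec_apply, Matrix.vecMulVec_apply]

private theorem NS4_tr_map {R S : Type} [CommRing R] [CommRing S] (φ : R →+* S) {g : ℕ} (u v : Nx g → R) :
    (tr u v).map φ = tr (φ ∘ u) (φ ∘ v) := by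
  ext i j
  rw [Matrix.map_apply, NS4_tr_apply, NS4_tr_apply, NS4_Jv, NS4_Jv, map_add, map_mul, map_mul]
  rfl

private theorem NS4_vm_map {R S : Type} [CommRing R] [CommRing S] (φ : R →+* S) {g : ℕ} (v : Nx g → R) :
    (vecMulVec (JJ g R *ᵥ v) v).map φ = vecMulVec (JJ g S *ᵥ (φ ∘ v)) (φ ∘ v) := by
  ext i j
  rw [Matrix.map_apply, Matrix.vecMulVec_apply, Matrix.vecMulVec_apply, NS4_Jv, map_mul]
  rfl

private theorem NS4_lin {K F : Type} [Field K] [Field F] [Algebra K F] {g N : ℕ} (T : Fin N → Matrix (Nx g) (Nx g) K)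
    (u v : Nx g → F) (c : Fin N) :
    ∑ i, ∑ j, algebraMap K F (T c i j) * tr u v i j =
      ∑ l, v l * ∑ i, ∑ j, algebraMap K F (T c i j) * tr u (fun n => if l = n then 1 else 0) i j := by
  let f : (Nx g → F) →ₗ[F] F :=
    { toFun := fun v => ∑ i, ∑ j, algebraMap K F (T c i j) * tr u v i j
      map_add' := by
        intro x y
        rw [← Finset.sum_add_distrib]
        refine Finset.sum_congr rfl fun i _ => ?_
        rw [← Finset.sum_add_distrib]
        refine Finset.sum_congr rfl fun j _ => ?_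
        rw [NS4_tr_apply, NS4_tr_apply, NS4_tr_apply, Matrix.mulVec_add, Pi.add_apply, Pi.add_apply]
        ring
      map_smul' := by
        intro r x
        rw [RingHom.id_apply, smul_eq_mul, Finset.mul_sum]
        refine Finset.sum_congr rfl fun i _ => ?_
        rw [Finset.mul_sum]
        refine Finset.sum_congr rfl fun j _ => ?_
        rw [NS4_tr_apply, NS4_tr_apply, Matrix.mulVec_smul, Pi.smul_apply, Pi.smul_apply, smul_eq_mul, smul_eq_mul]
        ring }
  exact f.pi_apply_eq_sum_univ v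

private theorem NS4_descend {K K1 F : Type} [Field K] [Field K1] [Field F] [Algebra K K1] [Algebra K1 F] [Algebra K F]
    [IsScalarTower K K1 F] {g N : ℕ} (T : Fin N → Matrix (Nx g) (Nx g) K) (a : Nx g → K1) (w : Nx g → F)
    (hli : LinearIndependent K1 w) (h : tr (algebraMap K1 F ∘ a) w ∈ NS4_G T F) (e : Nx g → K1) :
    tr a e ∈ NS4_G T K1 := by
  rw [NS4_mem]
  intro c
  have h1 : ∀ l, algebraMap K1 F (∑ i, ∑ j, algebraMap K K1 (T c i j) * tr a (fun n => if l = n then 1 else 0) i j) =
      ∑ i, ∑ j, algebraMap K F (T c i j) * tr (algebraMap K1 F ∘ a) (fun n => if l = n then 1 else 0) i j := by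
    intro l
    rw [← NS4_map, NS4_tr_map]
    have h2 : (algebraMap K1 F ∘ fun n : Nx g => if l = n then (1 : K1) else 0) = fun n => if l = n then 1 else 0 := by
      funext n
      rw [Function.comp_apply, apply_ite (algebraMap K1 F), map_one, map_zero]
    rw [h2]
  have h3 := h c
  rw [NS4_lin] at h3
  have h4 : ∑ l, (∑ i, ∑ j, algebraMap K K1 (T c i j) * tr a (fun n => if l = n then 1 else 0) i j) • w l = 0 := by
    rw [← h3]
    refine Finset.sum_congr rfl fun l _ => ?_
    rw [Algebra.smul_def, h1 l, mul_comm]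
  have h5 := Fintype.linearIndependent_iff.mp hli _ h4
  rw [NS4_lin]
  refine Finset.sum_eq_zero fun l _ => ?_
  rw [h5 l, mul_zero]

private theorem NS4_JJ_mul {R : Type} [CommRing R] (g : ℕ) : JJ g R * JJ g R = -1 := by
  unfold JJ
  rw [Matrix.fromBlocks_multiply]
  ext i j
  cases i <;> cases j <;> simp [Matrix.one_apply]

/-- (Equations with coefficients in `K`: for a `K`-linear system of equations on the matrices given by `T c : Matrix (Nx g) (Nx g) K`, `c : Fin N`, the equations
`∑ i j, T c i j * M i j = 0`.) Proof. Let `𝔤 F' := {M : Matrix .. F' | ∀ c, ∑ i j, T c i j * M i j = 0}` for `F' = K, K', F`. By `ker_base` (for `α = Nx g × Nx g`)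
the elements of `𝔤 F` are the `F`-linear combinations of the elements of `𝔤 K`, so (bilinearity of the bracket) `𝔤 F` is closed under `M M' - M' M` (`hlie`).
`v' := algebraMap K' F ∘ v`. (1) `(J v')v'` and `(J w)w` are in `𝔤 F` (`hv`, mapped to `F`; `hw`), so `om v' w • tr v' w ∈ 𝔤 F` (`brack1`);
`om v' w = v' ⬝ᵥ (J w)` is `± ∑` of the coordinates of `w` with the coordinates of `v` as coefficients, not all zero, so it is not zero by `hli`: `tr v' w ∈ 𝔤 F`. (2) The equation
`∑ T c i j (tr v' w) i j = 0` is a linear relation between the coordinates of `w` with coefficients in `K'`, so by `hli` all coefficients vanish: `tr v e ∈ 𝔤 K'`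
for all standard vectors `e`, so `tr v' b ∈ 𝔤 F` for all `b : Nx g → F`. (3) `brack2` with `b : Nx g → K` (mapped to `F`): `om b w • tr v' w + om v' w • tr b w ∈ 𝔤 F`, so
`tr b w ∈ 𝔤 F`. (4) As in (2), now with coefficients in `K` (the coordinates of `w` are linearly independent over `K`, `hli` restricted to `K`):
`tr b e ∈ 𝔤 K` for all standard vectors `e`, so `tr b c ∈ 𝔤 K`. -/
theorem two_vectors {K K' F : Type} [Field K] [Field K'] [Field F] [Algebra K K'] [Algebra K' F] [Algebra K F] [IsScalarTower K K' F]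
    {g N : ℕ} (T : Fin N → Matrix (Nx g) (Nx g) K)
    (hlie : ∀ M M' : Matrix (Nx g) (Nx g) K, (∀ c, ∑ i, ∑ j, T c i j * M i j = 0) → (∀ c, ∑ i, ∑ j, T c i j * M' i j = 0) →
      ∀ c, ∑ i, ∑ j, T c i j * (M * M' - M' * M) i j = 0)
    (v : Nx g → K') (hv0 : v ≠ 0)
    (hv : ∀ c, ∑ i, ∑ j, algebraMap K K' (T c i j) * vecMulVec (JJ g K' *ᵥ v) v i j = 0)
    (w : Nx g → F) (hli : LinearIndependent K' w)
    (hw : ∀ c, ∑ i, ∑ j, algebraMap K F (T c i j) * vecMulVec (JJ g F *ᵥ w) w i j = 0) (b b' : Nx g → K) (c : Fin N) :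
    ∑ i, ∑ j, T c i j * tr b b' i j = 0 := by
  have hv' : vecMulVec (JJ g F *ᵥ (algebraMap K' F ∘ v)) (algebraMap K' F ∘ v) ∈ NS4_G T F := by
    rw [← NS4_vm_map, NS4_mem]
    intro c
    rw [NS4_map, hv c, map_zero]
  have hw' : vecMulVec (JJ g F *ᵥ w) w ∈ NS4_G T F := hw
  have h1 := NS4_lie T hlie hv' hw'
  rw [brack1] at h1
  have hom : om (algebraMap K' F ∘ v) w ≠ 0 := by
    intro h0
    rw [om_anti, neg_eq_zero] at h0
    unfold om at h0
    rw [NS4_Jv, dotProduct] at h0
    have h2 : ∑ l, (JJ g K' *ᵥ v) l • w l = 0 := by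
      rw [← h0]
      refine Finset.sum_congr rfl fun l _ => ?_
      rw [Algebra.smul_def, mul_comm]
      rfl
    have h3 : JJ g K' *ᵥ v = 0 := funext fun l => Fintype.linearIndependent_iff.mp hli _ h2 l
    have h4 : JJ g K' *ᵥ (JJ g K' *ᵥ v) = - v := by
      rw [Matrix.mulVec_mulVec, NS4_JJ_mul, Matrix.neg_mulVec, Matrix.one_mulVec]
    rw [h3, Matrix.mulVec_zero] at h4
    exact hv0 (neg_eq_zero.mp h4.symm)
  have hdiv : ∀ M : Matrix (Nx g) (Nx g) F, om (algebraMap K' F ∘ v) w • M ∈ NS4_G T F → M ∈ NS4_G T F := by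
    intro M hM
    have h2 := Submodule.smul_mem _ (om (algebraMap K' F ∘ v) w)⁻¹ hM
    rw [smul_smul, inv_mul_cancel₀ hom, one_smul] at h2
    exact h2
  have h2 : tr (algebraMap K' F ∘ v) w ∈ NS4_G T F := hdiv _ h1
  have h3 : tr (algebraMap K' F ∘ v) (algebraMap K F ∘ b) ∈ NS4_G T F := by
    have h4 := NS4_descend T v w hli h2 (algebraMap K K' ∘ b)
    have h5 : (tr v (algebraMap K K' ∘ b)).map (algebraMap K' F) ∈ NS4_G T F := by
      rw [NS4_mem]
      intro c
      rw [NS4_map, h4 c, map_zero]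
    rw [NS4_tr_map] at h5
    have h6 : algebraMap K' F ∘ algebraMap K K' ∘ b = algebraMap K F ∘ b := by
      funext n
      exact (IsScalarTower.algebraMap_apply K K' F (b n)).symm
    rw [h6] at h5
    exact h5
  have h4 := NS4_lie T hlie h3 hw'
  rw [brack2] at h4
  have h5 : om (algebraMap K' F ∘ v) w • tr (algebraMap K F ∘ b) w ∈ NS4_G T F := by
    have h6 := Submodule.sub_mem _ h4 (Submodule.smul_mem _ (om (algebraMap K F ∘ b) w) h2)
    rw [add_sub_cancel_left] at h6
    exact h6
  have h6 : tr (algebraMap K F ∘ b) w ∈ NS4_G T F := hdiv _ h5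
  have hliK : LinearIndependent K w := by
    refine hli.restrict_scalars fun x y hxy => ?_
    have h7 : x • (1 : K') = y • (1 : K') := hxy
    rw [← Algebra.algebraMap_eq_smul_one, ← Algebra.algebraMap_eq_smul_one] at h7
    exact (algebraMap K K').injective h7
  exact NS4_descend (K1 := K) T b w hliK h6 b' c

end MPadcOA
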