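import Pool.Agent.Lib.MP_adc574_ag_OA.N_S1
import Pool.Agent.Lib.MP_adc574_ag_OA.N_S2
import Pool.Agent.Lib.MP_adc574_ag_OA.N_S4

/-! LEAF NS5: a Lie algebra over `K` which contains a generic `w²` contains the symplectic Lie algebra -/

set_option autoImplicit false

namespace MPadcOA

open Matrix

private theorem NS5_JJ {R S : Type*} [CommRing R] [CommRing S] (f : R →+* S) (g : ℕ) (i l : Nx g) :
    f (JJ g R i l) = JJ g S i l := by
  have h1 : (JJ g R).map f = JJ g S := by
    unfold JJ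
    rw [Matrix.fromBlocks_map, Matrix.map_zero _ (map_zero f), Matrix.map_one _ (map_zero f) (map_one f)]
    congr 1
    ext a b
    rw [Matrix.map_apply, Matrix.neg_apply, Matrix.neg_apply, map_neg, Matrix.one_apply, Matrix.one_apply]
    split_ifs
    · rw [map_one]
    · rw [map_zero]
  rw [← h1, Matrix.map_apply]

private noncomputable def NS5P {K : Type} [Field K] {g : ℕ} (T : Matrix (Nx g) (Nx g) K) :
    MvPolynomial (Nx g) K :=
  ∑ i, ∑ j, MvPolynomial.C (T i j) *
    ((∑ l, MvPolynomial.C (JJ g K i l) * MvPolynomial.X l) * MvPolynomial.X j)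

private theorem NS5_aeval {K R : Type} [Field K] [CommRing R] [Algebra K R] {g : ℕ}
    (T : Matrix (Nx g) (Nx g) K) (x : Nx g → R) :
    MvPolynomial.aeval x (NS5P T) =
      ∑ i, ∑ j, algebraMap K R (T i j) * vecMulVec (JJ g R *ᵥ x) x i j := by
  rw [NS5P, map_sum]
  refine Finset.sum_congr rfl fun i _ => ?_
  rw [map_sum]
  refine Finset.sum_congr rfl fun j _ => ?_
  rw [map_mul, map_mul, MvPolynomial.aeval_C, MvPolynomial.aeval_X, map_sum, vecMulVec_apply,
    Matrix.mulVec, dotProduct]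
  congr 2
  refine Finset.sum_congr rfl fun l _ => ?_
  rw [map_mul, MvPolynomial.aeval_C, MvPolynomial.aeval_X, NS5_JJ]

/-- Proof. If `Nx g` is empty there is nothing to do (all sums are empty); otherwise `w ≠ 0` (linearly independent). `specialize`: `K'`, `v ≠ 0`. The left side of `hw` for `c` is
`aeval w P` for the polynomial `P = ∑ i j, C (T c i j) * (∑ l, C (J i l) X l) * X j`, so the same with `v` (over `K'`) vanishes. `lin_disj`: the field `F`; map `hw`
to `F` (`JJ` and `mulVec` commute with ring homomorphisms). `two_vectors` with the vector `algebraMap Ω F ∘ w`. -/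
theorem sp_gen {K Ω : Type} [Field K] [Field Ω] [Algebra K Ω] [CharZero K]
    (hac : ∀ x : Ω, IsAlgebraic K x → x ∈ (algebraMap K Ω).range) {g N : ℕ} (T : Fin N → Matrix (Nx g) (Nx g) K)
    (hlie : ∀ M M' : Matrix (Nx g) (Nx g) K, (∀ c, ∑ i, ∑ j, T c i j * M i j = 0) → (∀ c, ∑ i, ∑ j, T c i j * M' i j = 0) →
      ∀ c, ∑ i, ∑ j, T c i j * (M * M' - M' * M) i j = 0)
    (w : Nx g → Ω) (hli : LinearIndependent K w)
    (hw : ∀ c, ∑ i, ∑ j, algebraMap K Ω (T c i j) * vecMulVec (JJ g Ω *ᵥ w) w i j = 0) (b b' : Nx g → K) (c : Fin N) :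
    ∑ i, ∑ j, T c i j * tr b b' i j = 0 := by
  rcases isEmpty_or_nonempty (Nx g) with hN | ⟨⟨i₀⟩⟩
  · rw [Finset.univ_eq_empty, Finset.sum_empty]
  · have hw0 : w ≠ 0 := fun h => hli.ne_zero i₀ (congrFun h i₀)
    obtain ⟨K', _, _, _, v, hv0, hv⟩ := specialize (K := K) w hw0
    obtain ⟨F, _, _, _, _, _, _, hliF⟩ := lin_disj (K' := K') hac w hli
    refine two_vectors (K' := K') (F := F) T hlie v hv0 (fun c => ?_) (fun i => algebraMap Ω F (w i)) hliF
      (fun c => ?_) b b' c
    · rw [← NS5_aeval]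
      exact hv _ (by rw [NS5_aeval]; exact hw c)
    · rw [← NS5_aeval]
      have h1 := MvPolynomial.aeval_algebraMap_apply F w (NS5P (T c))
      rw [NS5_aeval (T c) w, hw c, map_zero] at h1
      exact h1

end MPadcOA
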