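import Pool.Agent.Lib.MP_adc574_ag_OA.N_K3

/-! LEAF NT0: forms which vanish at the generic isotropic frame are given by finitely many linear equations over the integers -/

set_option autoImplicit false

namespace MPadcOA

open Polynomial Matrix

private theorem NT0_gen {R S : Type} [CommRing R] [CommRing S] {g : ℕ} (f : R →+* S) (i : Fin g) (j : Nx g) :
    MvPolynomial.map f (genU g R i j) = genU g S i j := by
  unfold genU
  rcases j with j | j
  · rw [Matrix.fromCols_apply_inl, Matrix.fromCols_apply_inl]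
    unfold genA
    rw [MvPolynomial.map_X]
  · rw [Matrix.fromCols_apply_inr, Matrix.fromCols_apply_inr, Matrix.mul_apply, Matrix.mul_apply, map_sum]
    refine Finset.sum_congr rfl fun l _ => ?_
    unfold genA genY
    rw [map_mul, MvPolynomial.map_X, MvPolynomial.map_X]

private noncomputable def NT0_γ (g m : ℕ) (s : Kx g m) : GenR g ℤ := ∏ i, genU g ℤ (s i).1 (s i).2

private theorem NT0_prod (R : Type) [CommRing R] {g m : ℕ} (s : Kx g m) :
    ∏ i, genU g R (s i).1 (s i).2 = MvPolynomial.map (Int.castRingHom R) (NT0_γ g m s) := by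
  unfold NT0_γ
  rw [map_prod]
  exact Finset.prod_congr rfl fun i _ => (NT0_gen _ _ _).symm

private theorem NT0_coeff (R : Type) [CommRing R] {g m : ℕ} (φ : Kx g m → R) (μ : ((Fin g × Fin g) ⊕ Sym2 (Fin g)) →₀ ℕ) :
    MvPolynomial.coeff μ (ev (genU g R) (fun s => MvPolynomial.C (φ s))) =
      ∑ s, φ s * ((MvPolynomial.coeff μ (NT0_γ g m s) : ℤ) : R) := by
  unfold ev
  rw [MvPolynomial.coeff_sum]
  refine Finset.sum_congr rfl fun s _ => ?_
  rw [NT0_prod, MvPolynomial.coeff_C_mul, MvPolynomial.coeff_map]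
  rfl

/-- Proof. Let `γ s := ∏ i, genU g ℤ (s i).1 (s i).2 : GenR g ℤ`. Over `R`: `∏ i, genU g R (s i).1 (s i).2 = MvPolynomial.map (Int.castRingHom R) (γ s)`
(`map_prod`, and the entries of `genU` are variables and sums of products of variables). So `ev (genU g R) (C ∘ φ) = ∑ s, C (φ s) * map _ (γ s)` and its
coefficient at the monomial `μ` is `∑ s, φ s * ((γ s).coeff μ : R)` (`MvPolynomial.coeff_C_mul`, `coeff_map`). It vanishes iff all coefficients vanish
(`MvPolynomial.ext`), and only the `μ` in the finite set `univ.biUnion fun s => (γ s).support` matter; enumerate this set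
(`Finset.equivFin`). -/
theorem van_int (g m : ℕ) : ∃ (N : ℕ) (Γ : Fin N → Kx g m → ℤ), ∀ (R : Type) [CommRing R] (φ : Kx g m → R),
    Van φ ↔ ∀ i, ∑ s, φ s * (Γ i s : R) = 0 := by
  classical
  refine ⟨(Finset.univ.biUnion fun s : Kx g m => (NT0_γ g m s).support).card,
    fun i s => MvPolynomial.coeff ((Finset.univ.biUnion fun s : Kx g m => (NT0_γ g m s).support).equivFin.symm i).1 (NT0_γ g m s),
    fun R _ φ => ?_⟩
  constructor
  · intro h i
    have h1 := congrArg (MvPolynomial.coeff
      ((Finset.univ.biUnion fun s : Kx g m => (NT0_γ g m s).support).equivFin.symm i).1) h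
    rw [NT0_coeff, MvPolynomial.coeff_zero] at h1
    exact h1
  · intro h
    refine MvPolynomial.ext _ _ fun μ => ?_
    rw [NT0_coeff, MvPolynomial.coeff_zero]
    by_cases hμ : μ ∈ Finset.univ.biUnion fun s : Kx g m => (NT0_γ g m s).support
    · have h1 := h ((Finset.univ.biUnion fun s : Kx g m => (NT0_γ g m s).support).equivFin ⟨μ, hμ⟩)
      simp only [Equiv.symm_apply_apply] at h1
      exact h1
    · refine Finset.sum_eq_zero fun s _ => ?_
      have h1 : MvPolynomial.coeff μ (NT0_γ g m s) = 0 := by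
        rw [← MvPolynomial.notMem_support_iff]
        exact fun h2 => hμ (Finset.mem_biUnion.2 ⟨s, Finset.mem_univ s, h2⟩)
      rw [h1, Int.cast_zero, mul_zero]

theorem van_zero {R : Type} [CommRing R] {g m : ℕ} : Van (0 : Kx g m → R) := by
  obtain ⟨N, Γ, h⟩ := van_int g m
  rw [h]
  intro i
  refine Finset.sum_eq_zero fun s _ => ?_
  rw [Pi.zero_apply, zero_mul]

theorem van_add {R : Type} [CommRing R] {g m : ℕ} {φ ψ : Kx g m → R} (h : Van φ) (h' : Van ψ) : Van (φ + ψ) := by
  obtain ⟨N, Γ, hN⟩ := van_int g m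
  rw [hN] at h h' ⊢
  intro i
  have h1 : ∑ s, (φ + ψ) s * (Γ i s : R) = ∑ s, φ s * (Γ i s : R) + ∑ s, ψ s * (Γ i s : R) := by
    rw [← Finset.sum_add_distrib]
    exact Finset.sum_congr rfl fun s _ => by rw [Pi.add_apply, add_mul]
  rw [h1, h i, h' i, add_zero]

theorem van_smul {R : Type} [CommRing R] {g m : ℕ} (c : R) {φ : Kx g m → R} (h : Van φ) : Van (c • φ) := by
  obtain ⟨N, Γ, hN⟩ := van_int g m
  rw [hN] at h ⊢
  intro i
  have h1 : ∑ s, (c • φ) s * (Γ i s : R) = c * ∑ s, φ s * (Γ i s : R) := by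
    rw [Finset.mul_sum]
    exact Finset.sum_congr rfl fun s _ => by rw [Pi.smul_apply, smul_eq_mul, mul_assoc]
  rw [h1, h i, mul_zero]

/-- (a form over a domain, divide by a nonzero constant) -/
theorem van_of_smul {R : Type} [CommRing R] [IsDomain R] {g m : ℕ} {c : R} (hc : c ≠ 0) {φ : Kx g m → R} (h : Van (c • φ)) : Van φ := by
  obtain ⟨N, Γ, hN⟩ := van_int g m
  rw [hN] at h ⊢
  intro i
  have h1 : ∑ s, (c • φ) s * (Γ i s : R) = c * ∑ s, φ s * (Γ i s : R) := by
    rw [Finset.mul_sum]
    exact Finset.sum_congr rfl fun s _ => by rw [Pi.smul_apply, smul_eq_mul, mul_assoc]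
  have h2 := h i
  rw [h1] at h2
  exact (mul_eq_zero.1 h2).resolve_left hc

theorem van_map {R S : Type} [CommRing R] [CommRing S] {g m : ℕ} (f : R →+* S) {φ : Kx g m → R} (h : Van φ) :
    Van fun s => f (φ s) := by
  obtain ⟨N, Γ, hN⟩ := van_int g m
  rw [hN] at h ⊢
  intro i
  have h1 : ∑ s, f (φ s) * (Γ i s : S) = f (∑ s, φ s * (Γ i s : R)) := by
    rw [map_sum]
    exact Finset.sum_congr rfl fun s _ => by rw [map_mul, map_intCast]
  rw [h1, h i, map_zero]

theorem van_of_map {R S : Type} [CommRing R] [CommRing S] {g m : ℕ} (f : R →+* S) (hf : Function.Injective f) {φ : Kx g m → R}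
    (h : Van fun s => f (φ s)) : Van φ := by
  obtain ⟨N, Γ, hN⟩ := van_int g m
  rw [hN] at h ⊢
  intro i
  have h1 : ∑ s, f (φ s) * (Γ i s : S) = f (∑ s, φ s * (Γ i s : R)) := by
    rw [map_sum]
    exact Finset.sum_congr rfl fun s _ => by rw [map_mul, map_intCast]
  have h2 := h i
  rw [h1] at h2
  exact (map_eq_zero_iff f hf).1 h2

theorem van_derivative {R : Type} [CommRing R] {g m : ℕ} {φ : Kx g m → R[X]} (h : Van φ) : Van fun s => derivative (φ s) := by
  obtain ⟨N, Γ, hN⟩ := van_int g m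
  rw [hN] at h ⊢
  intro i
  have h1 : ∑ s, derivative (φ s) * (Γ i s : R[X]) = derivative (∑ s, φ s * (Γ i s : R[X])) := by
    rw [derivative_sum]
    exact Finset.sum_congr rfl fun s _ => by rw [derivative_mul, derivative_intCast, mul_zero, add_zero]
  rw [h1, h i, derivative_zero]

end MPadcOA
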