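import Pool.Agent.Lib.MP_adc574_ag_OA.N_Defs

/-! LEAF NT1: isotropic frames, first block -/

set_option autoImplicit false

namespace MPadcOA

open Matrix

private theorem NT1_diag {F : Type} [Field F] {g : ℕ} (b : Matrix (Fin g) (Fin g) F) (D : Fin g → F)
    (hs : ∀ i j, b i j * D j = D i * b j i)
    (hr : ∀ x : Fin g → F, x ᵥ* b = 0 → x ᵥ* diagonal D = 0 → x = 0) :
    ∃ S : Matrix (Fin g) (Fin g) F, Sᵀ = S ∧ (b + diagonal D * S).det ≠ 0 := by
  classical
  obtain ⟨S, hS⟩ : ∃ S : Matrix (Fin g) (Fin g) F, ∀ i j, S i j =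
      if D i ≠ 0 then ((if i = j then 1 else 0) - b i j) / D i
      else if D j ≠ 0 then - b j i / D j else 0 := ⟨fun i j => _, fun i j => rfl⟩
  have hM1 : ∀ i j, D i ≠ 0 → (b + diagonal D * S) i j = if i = j then 1 else 0 := by
    intro i j hi
    rw [Matrix.add_apply, Matrix.diagonal_mul, hS, if_pos hi]
    field_simp
    ring
  have hM0 : ∀ i j, D i = 0 → (b + diagonal D * S) i j = b i j := by
    intro i j hi
    rw [Matrix.add_apply, Matrix.diagonal_mul, hi, zero_mul, add_zero]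
  have hb0 : ∀ i j, D i = 0 → D j ≠ 0 → b i j = 0 := by
    intro i j hi hj
    have h := hs i j
    rw [hi, zero_mul] at h
    exact (mul_eq_zero.1 h).resolve_right hj
  refine ⟨S, ?_, ?_⟩
  · ext i j
    rw [Matrix.transpose_apply, hS, hS]
    by_cases hi : D i = 0
    · by_cases hj : D j = 0
      · rw [if_neg (not_not.2 hj), if_neg (not_not.2 hi), if_neg (not_not.2 hi), if_neg (not_not.2 hj)]
      · have hne : j ≠ i := fun h => hj (by rw [h]; exact hi)
        rw [if_pos hj, if_neg hne, if_neg (not_not.2 hi), if_pos hj, zero_sub]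
    · by_cases hj : D j = 0
      · have hne : i ≠ j := fun h => hi (by rw [h]; exact hj)
        rw [if_neg (not_not.2 hj), if_pos hi, if_pos hi, if_neg hne, zero_sub]
      · rw [if_pos hj, if_pos hi]
        by_cases hij : i = j
        · rw [hij]
        · rw [if_neg hij, if_neg (fun h => hij h.symm), zero_sub, zero_sub, div_eq_div_iff hj hi]
          linear_combination hs i j
  · intro hdet
    obtain ⟨x, hx0, hx⟩ := Matrix.exists_vecMul_eq_zero_iff.2 hdet
    have hxs : ∀ j, ∑ i, x i * (b + diagonal D * S) i j = 0 := fun j => congrFun hx j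
    have hxj : ∀ j, D j ≠ 0 → x j = 0 := by
      intro j hj
      have h := hxs j
      rw [Finset.sum_eq_single j] at h
      · rw [hM1 j j hj, if_pos rfl, mul_one] at h
        exact h
      · intro i _ hij
        by_cases hi : D i = 0
        · rw [hM0 i j hi, hb0 i j hi hj, mul_zero]
        · rw [hM1 i j hi, if_neg hij, mul_zero]
      · intro h'
        exact absurd (Finset.mem_univ j) h'
    refine hx0 (hr x ?_ ?_)
    · funext j
      show ∑ i, x i * b i j = 0
      rw [← hxs j]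
      refine Finset.sum_congr rfl fun i _ => ?_
      by_cases hi : D i = 0
      · rw [hM0 i j hi]
      · rw [hxj i hi, zero_mul, zero_mul]
    · funext j
      rw [Matrix.vecMul_diagonal]
      by_cases hj : D j = 0
      · rw [hj, mul_zero]
        rfl
      · rw [hxj j hj, zero_mul]
        rfl

/-- Proof. `c = L * diagonal D * L'` with `L`, `L'` invertible (`Matrix.Pivot.exists_list_transvec_mul_diagonal_mul_list_transvec`; products of transvections are
invertible). Replace `b` by `L⁻¹ b L'ᵀ` and `c` by `L⁻¹ c L'⁻¹ = diagonal D` (then `b cᵀ = c bᵀ` stays true, the rows of `(b | c)` stay linearly independent and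
a solution `S` for the new pair gives the solution `L'⁻¹ S L'⁻ᵀ`: `b + c S` is multiplied by invertible matrices). So let `c = diagonal D`; the hypothesis is
`b i j * D j = D i * b j i`. Put `S i j = (δ i j - b i j) / D i` if `D i ≠ 0`, `S i j = - b j i / D j` if `D i = 0`, `D j ≠ 0`, and `0` if both vanish: it is
symmetric (if `D i, D j ≠ 0`: `b i j / D i = b j i / D j`; if `D i ≠ 0 = D j` both sides are `- b i j / D i`). The row `i` of `b + c S` is the unit vector `e i` if
`D i ≠ 0`, and the row `b i` if `D i = 0`; in the latter case `b i j = 0` for all `j` with `D j ≠ 0`. If `x ᵥ* (b + c S) = 0` then for `D j ≠ 0` the coordinate `j` gives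
`x j = 0`; so `x ᵥ* b = 0` and `x ᵥ* c = 0`, so `x = 0` by `hr`. Hence `det ≠ 0` (`Matrix.exists_vecMul_eq_zero_iff`). -/
theorem exists_sym {F : Type} [Field F] {g : ℕ} (b c : Matrix (Fin g) (Fin g) F) (hs : b * cᵀ = c * bᵀ)
    (hr : LinearIndependent F fun i => (Matrix.fromCols b c) i) :
    ∃ S : Matrix (Fin g) (Fin g) F, Sᵀ = S ∧ (b + c * S).det ≠ 0 := by
  classical
  obtain ⟨L, L', D, hc⟩ := Matrix.Pivot.exists_list_transvec_mul_diagonal_mul_list_transvec c
  obtain ⟨P, hP⟩ : ∃ P : Matrix (Fin g) (Fin g) F, P = (L.map Matrix.TransvectionStruct.toMatrix).prod := ⟨_, rfl⟩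
  obtain ⟨Q, hQ⟩ : ∃ Q : Matrix (Fin g) (Fin g) F, Q = (L'.map Matrix.TransvectionStruct.toMatrix).prod := ⟨_, rfl⟩
  rw [← hP, ← hQ] at hc
  have hPd : P.det = 1 := by
    rw [hP]
    exact Matrix.TransvectionStruct.det_toMatrix_prod L
  have hQd : Q.det = 1 := by
    rw [hQ]
    exact Matrix.TransvectionStruct.det_toMatrix_prod L'
  have hPu : IsUnit P.det := by
    rw [hPd]
    exact isUnit_one
  have hQu : IsUnit Q.det := by
    rw [hQd]
    exact isUnit_one
  obtain ⟨P', hP1, hP2⟩ : ∃ P' : Matrix (Fin g) (Fin g) F, P * P' = 1 ∧ P' * P = 1 :=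
    ⟨P⁻¹, Matrix.mul_nonsing_inv P hPu, Matrix.nonsing_inv_mul P hPu⟩
  obtain ⟨Q', hQ1, hQ2⟩ : ∃ Q' : Matrix (Fin g) (Fin g) F, Q * Q' = 1 ∧ Q' * Q = 1 :=
    ⟨Q⁻¹, Matrix.mul_nonsing_inv Q hQu, Matrix.nonsing_inv_mul Q hQu⟩
  have hQ1t : Q'ᵀ * Qᵀ = 1 := by rw [← Matrix.transpose_mul, hQ1, Matrix.transpose_one]
  have hQ2t : Qᵀ * Q'ᵀ = 1 := by rw [← Matrix.transpose_mul, hQ2, Matrix.transpose_one]
  have hcD : P' * c * Q' = diagonal D := by
    rw [hc]
    calc P' * (P * diagonal D * Q) * Q' = (P' * P) * diagonal D * (Q * Q') := by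
          simp only [Matrix.mul_assoc]
      _ = diagonal D := by rw [hP2, hQ1, Matrix.one_mul, Matrix.mul_one]
  have hrow : ∀ x : Fin g → F, x ᵥ* b = 0 → x ᵥ* c = 0 → x = 0 := by
    intro x hb hc'
    rw [Fintype.linearIndependent_iff] at hr
    funext i
    refine hr x ?_ i
    funext j
    rw [Finset.sum_apply]
    rcases j with j | j
    · exact congrFun hb j
    · exact congrFun hc' j
  have hA : ∀ i j, (P' * b * Qᵀ) i j * D j = D i * (P' * b * Qᵀ) j i := by
    have h1 : (P' * b * Qᵀ) * diagonal D = diagonal D * (P' * b * Qᵀ)ᵀ := by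
      have h2 : (diagonal D)ᵀ = diagonal D := Matrix.diagonal_transpose D
      have h3 : (P' * b * Qᵀ) * (diagonal D)ᵀ = P' * (b * cᵀ) * P'ᵀ := by
        rw [← hcD, Matrix.transpose_mul, Matrix.transpose_mul]
        calc P' * b * Qᵀ * (Q'ᵀ * (cᵀ * P'ᵀ)) = P' * b * (Qᵀ * Q'ᵀ) * cᵀ * P'ᵀ := by
              simp only [Matrix.mul_assoc]
          _ = P' * (b * cᵀ) * P'ᵀ := by
              rw [hQ2t, Matrix.mul_one]
              simp only [Matrix.mul_assoc]
      have h4 : diagonal D * (P' * b * Qᵀ)ᵀ = P' * (c * bᵀ) * P'ᵀ := by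
        rw [← hcD, Matrix.transpose_mul, Matrix.transpose_mul, Matrix.transpose_transpose]
        calc P' * c * Q' * (Q * (bᵀ * P'ᵀ)) = P' * c * (Q' * Q) * bᵀ * P'ᵀ := by
              simp only [Matrix.mul_assoc]
          _ = P' * (c * bᵀ) * P'ᵀ := by
              rw [hQ2, Matrix.mul_one]
              simp only [Matrix.mul_assoc]
      rw [h4, ← hs, ← h3, h2]
    intro i j
    have h5 := congrFun (congrFun h1 i) j
    rw [Matrix.mul_diagonal, Matrix.diagonal_mul, Matrix.transpose_apply] at h5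
    exact h5
  have hB : ∀ x : Fin g → F, x ᵥ* (P' * b * Qᵀ) = 0 → x ᵥ* diagonal D = 0 → x = 0 := by
    intro x hxb hxc
    have h1 : (x ᵥ* P') ᵥ* b = 0 := by
      have h2 : ((x ᵥ* P') ᵥ* b) = ((x ᵥ* (P' * b * Qᵀ)) ᵥ* Q'ᵀ) := by
        rw [Matrix.vecMul_vecMul, Matrix.vecMul_vecMul, Matrix.mul_assoc (P' * b), hQ2t, Matrix.mul_one]
      rw [h2, hxb, Matrix.zero_vecMul]
    have h3 : (x ᵥ* P') ᵥ* c = 0 := by
      have h4 : ((x ᵥ* P') ᵥ* c) = ((x ᵥ* diagonal D) ᵥ* Q) := by
        rw [← hcD, Matrix.vecMul_vecMul, Matrix.vecMul_vecMul, Matrix.mul_assoc (P' * c), hQ2, Matrix.mul_one]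
      rw [h4, hxc, Matrix.zero_vecMul]
    have h5 := hrow _ h1 h3
    have h6 : x = (x ᵥ* P') ᵥ* P := by
      rw [Matrix.vecMul_vecMul, hP2, Matrix.vecMul_one]
    rw [h6, h5, Matrix.zero_vecMul]
  obtain ⟨S, hS, hdet⟩ := NT1_diag (P' * b * Qᵀ) D hA hB
  refine ⟨Q' * S * Q'ᵀ, ?_, ?_⟩
  · rw [Matrix.transpose_mul, Matrix.transpose_mul, Matrix.transpose_transpose, hS, Matrix.mul_assoc]
  · have h1 : b + c * (Q' * S * Q'ᵀ) = P * (P' * b * Qᵀ + diagonal D * S) * Q'ᵀ := by
      rw [← hcD, Matrix.mul_add, Matrix.add_mul]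
      congr 1
      · calc b = (P * P') * b * (Qᵀ * Q'ᵀ) := by rw [hP1, hQ2t, Matrix.one_mul, Matrix.mul_one]
          _ = _ := by simp only [Matrix.mul_assoc]
      · calc c * (Q' * S * Q'ᵀ) = (P * P') * c * (Q' * S * Q'ᵀ) := by rw [hP1, Matrix.one_mul]
          _ = _ := by simp only [Matrix.mul_assoc]
    rw [h1, Matrix.det_mul, Matrix.det_mul]
    refine mul_ne_zero (mul_ne_zero (by rw [hPd]; exact one_ne_zero) hdet) ?_
    intro h0
    have h2 := congrArg Matrix.det hQ1t
    rw [Matrix.det_mul, h0, zero_mul, Matrix.det_one] at h2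
    exact zero_ne_one h2

end MPadcOA
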