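import Pool.Agent.Lib.MP_adc574_ag_OA.N_T1
import Pool.Agent.Lib.MP_adc574_ag_OA.N_K3

/-! LEAF NT2: a form which vanishes at the generic isotropic frame vanishes at all isotropic frames of full rank -/

set_option autoImplicit false

namespace MPadcOA

open Matrix Polynomial

private theorem NT2_map {R S : Type*} {g : ℕ} (f : R → S) (a c : Matrix (Fin g) (Fin g) R) :
    (Matrix.fromCols a c).map f = Matrix.fromCols (a.map f) (c.map f) := by
  ext i j
  rcases j with j | j <;> rfl

private theorem NT2_iso {R : Type*} [CommRing R] {g : ℕ} (b c : Matrix (Fin g) (Fin g) R)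
    (hi : Matrix.fromCols b c * JJ g R * (Matrix.fromCols b c)ᵀ = 0) : b * cᵀ = c * bᵀ := by
  unfold JJ at hi
  rw [Matrix.fromCols_mul_fromBlocks, Matrix.transpose_fromCols, Matrix.fromCols_mul_fromRows,
    Matrix.mul_zero, Matrix.mul_zero, Matrix.mul_one, Matrix.mul_neg, Matrix.mul_one, zero_add,
    add_zero, Matrix.neg_mul] at hi
  exact (neg_add_eq_zero.1 hi).symm

/-- Proof. `a` is invertible, so `a y = c` for `y = a⁻¹ c`, which is symmetric by `hs` (multiply `a cᵀ = c aᵀ` by `a⁻¹` from the left and by `(aᵀ)⁻¹` from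
the right). The ring homomorphism `MvPolynomial.eval₂Hom f (Sum.elim (fun ij => a ij.1 ij.2) (Sym2.lift ⟨fun i j => y i j, symmetric⟩))` maps the entries of
`genU g R` to those of `(a | a y) = (a | c)` and `C r` to `f r`; apply it to `h` (`ev_map`). -/
theorem ev_of_van_inv {R F : Type} [CommRing R] [Field F] {g m : ℕ} (f : R →+* F) {φ : Kx g m → R} (h : Van φ)
    (a c : Matrix (Fin g) (Fin g) F) (hd : a.det ≠ 0) (hs : a * cᵀ = c * aᵀ) :
    ev (Matrix.fromCols a c) (fun s => f (φ s)) = 0 := by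
  have hu : IsUnit a.det := isUnit_iff_ne_zero.2 hd
  obtain ⟨y, hy⟩ : ∃ y : Matrix (Fin g) (Fin g) F, y = a⁻¹ * c := ⟨_, rfl⟩
  have hay : a * y = c := by
    rw [hy, ← Matrix.mul_assoc, Matrix.mul_nonsing_inv a hu, Matrix.one_mul]
  have hys : yᵀ = y := by
    have h1 : cᵀ = a⁻¹ * (c * aᵀ) := by
      rw [← hs, ← Matrix.mul_assoc, Matrix.nonsing_inv_mul a hu, Matrix.one_mul]
    rw [hy, Matrix.transpose_mul, h1, Matrix.transpose_nonsing_inv, Matrix.mul_assoc,
      Matrix.mul_assoc, Matrix.mul_nonsing_inv aᵀ (by rwa [Matrix.det_transpose]), Matrix.mul_one]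
  have hsym : ∀ i j, y i j = y j i := fun i j => congrFun (congrFun hys j) i
  obtain ⟨e, he⟩ : ∃ e : GenR g R →+* F, e = MvPolynomial.eval₂Hom f
      (Sum.elim (fun ij => a ij.1 ij.2) (Sym2.lift ⟨fun i j => y i j, hsym⟩)) := ⟨_, rfl⟩
  have heC : ∀ r, e (MvPolynomial.C r) = f r := fun r => by
    rw [he]
    exact MvPolynomial.eval₂Hom_C _ _ _
  have heA : ∀ i j, e (genA g R i j) = a i j := fun i j => by
    rw [he]
    exact MvPolynomial.eval₂Hom_X' _ _ _
  have heY : ∀ i j, e (genY g R i j) = y i j := fun i j => by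
    rw [he]
    exact MvPolynomial.eval₂Hom_X' _ _ _
  have hU : (genU g R).map e = Matrix.fromCols a c := by
    unfold genU
    rw [NT2_map]
    congr 1
    · ext i j
      exact heA i j
    · ext i j
      rw [Matrix.map_apply, Matrix.mul_apply, map_sum, ← hay, Matrix.mul_apply]
      exact Finset.sum_congr rfl fun k _ => by rw [map_mul, heA, heY]
  have h1 := congrArg e (show ev (genU g R) (fun s => MvPolynomial.C (φ s)) = 0 from h)
  rw [ev_map, map_zero, hU] at h1
  simp only [heC] at h1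
  exact h1

/-- Proof. Let `b`, `c` be the blocks of `U`: `hi` says `b cᵀ = c bᵀ` (block multiplication). `exists_sym` gives `S`. Over `F[X]` let
`V := (b + X c S | c)`; over `E := RatFunc F` (or `FractionRing F[X]`) its first block has a determinant different from zero, as its value at `X = 1` is
`det (b + c S) ≠ 0` (`RingHom.map_det`), and `(b + X c S) cᵀ = c (b + X c S)ᵀ`. `ev_of_van_inv` over `E` gives `ev V (..) = 0` in `E`, hence in `F[X]`
(injectivity, `ev_map`); evaluate at `X = 0`. -/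
theorem ev_of_van {R F : Type} [CommRing R] [Field F] {g m : ℕ} (f : R →+* F) {φ : Kx g m → R} (h : Van φ)
    (U : Matrix (Fin g) (Nx g) F) (hi : U * JJ g F * Uᵀ = 0) (hr : LinearIndependent F fun i => U i) :
    ev U (fun s => f (φ s)) = 0 := by
  obtain ⟨b, hb⟩ : ∃ b : Matrix (Fin g) (Fin g) F, b = U.toCols₁ := ⟨_, rfl⟩
  obtain ⟨c, hc⟩ : ∃ c : Matrix (Fin g) (Fin g) F, c = U.toCols₂ := ⟨_, rfl⟩
  have hU : U = Matrix.fromCols b c := by
    rw [hb, hc, Matrix.fromCols_toCols]
  rw [hU] at hi hr ⊢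
  have hbc := NT2_iso b c hi
  obtain ⟨S, hS, hdet⟩ := exists_sym b c hbc hr
  obtain ⟨bX, hbX⟩ : ∃ bX : Matrix (Fin g) (Fin g) F[X],
      bX = b.map C + (X : F[X]) • (c * S).map C := ⟨_, rfl⟩
  obtain ⟨cX, hcX⟩ : ∃ cX : Matrix (Fin g) (Fin g) F[X], cX = c.map C := ⟨_, rfl⟩
  have hmm : ∀ A B : Matrix (Fin g) (Fin g) F, (A * B).map C = A.map C * B.map (C : F →+* F[X]) :=
    fun A B => Matrix.map_mul
  have hTm : ∀ A : Matrix (Fin g) (Fin g) F, (A.map (C : F →+* F[X]))ᵀ = Aᵀ.map C := fun A => rfl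
  have hTE : ∀ A : Matrix (Fin g) (Fin g) F[X],
      (A.map (algebraMap F[X] (RatFunc F)))ᵀ = Aᵀ.map (algebraMap F[X] (RatFunc F)) := fun A => rfl
  have hsX : bX * cXᵀ = cX * bXᵀ := by
    rw [hbX, hcX, Matrix.add_mul, Matrix.transpose_add, Matrix.mul_add, Matrix.transpose_smul,
      Matrix.smul_mul, Matrix.mul_smul, hTm, hTm, hTm, ← hmm, ← hmm, ← hmm, ← hmm, hbc,
      Matrix.transpose_mul, hS, Matrix.mul_assoc]
  have he1 : bX.map (evalRingHom (1 : F)) = b + c * S := by
    rw [hbX]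
    generalize c * S = cS
    ext i j
    simp
  have he0 : bX.map (evalRingHom (0 : F)) = b := by
    rw [hbX]
    generalize c * S = cS
    ext i j
    simp
  have hc0 : cX.map (evalRingHom (0 : F)) = c := by
    rw [hcX]
    ext i j
    simp
  have hdX : bX.det ≠ 0 := by
    intro h0
    apply hdet
    have h1 := RingHom.map_det (evalRingHom (1 : F)) bX
    rw [h0, map_zero] at h1
    rw [← he1]
    exact h1.symm
  have hinj : Function.Injective (algebraMap F[X] (RatFunc F)) :=
    RatFunc.algebraMap_injective F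
  have hdE : (bX.map (algebraMap F[X] (RatFunc F))).det ≠ 0 := by
    have h1 := RingHom.map_det (algebraMap F[X] (RatFunc F)) bX
    intro h0
    have h2 : (algebraMap F[X] (RatFunc F)) bX.det = 0 := h1.trans h0
    exact hdX (hinj (h2.trans (map_zero _).symm))
  have hsE : bX.map (algebraMap F[X] (RatFunc F)) * (cX.map (algebraMap F[X] (RatFunc F)))ᵀ =
      cX.map (algebraMap F[X] (RatFunc F)) * (bX.map (algebraMap F[X] (RatFunc F)))ᵀ := by
    rw [hTE, hTE, ← Matrix.map_mul, ← Matrix.map_mul, hsX]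
  have h1 := ev_of_van_inv ((algebraMap F[X] (RatFunc F)).comp ((C : F →+* F[X]).comp f)) h
    (bX.map (algebraMap F[X] (RatFunc F))) (cX.map (algebraMap F[X] (RatFunc F))) hdE hsE
  have h2 : (algebraMap F[X] (RatFunc F)) (ev (Matrix.fromCols bX cX) fun s => C (f (φ s))) = 0 := by
    rw [ev_map, NT2_map]
    exact h1
  have h3 : (ev (Matrix.fromCols bX cX) fun s => C (f (φ s))) = 0 :=
    hinj (h2.trans (map_zero _).symm)
  have h4 := congrArg (evalRingHom (0 : F)) h3
  rw [ev_map, NT2_map, map_zero, he0, hc0] at h4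
  simp only [coe_evalRingHom, eval_C] at h4
  exact h4

end MPadcOA
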