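import Pool.Agent.Lib.MP_adc574_ag_OA.N_U0

/-! LEAF NU1: representatives of polynomials over an ultraproduct -/

set_option autoImplicit false

namespace MPadcOA

open Polynomial Matrix MPadcGM

variable {k : ℕ → Type} [∀ n, Field (k n)]

theorem cl_sg (x : LL k) : cl (sg x) = x := by
  exact Function.surjInv_eq (ultMk_surjective (Filter.hyperfilter ℕ) k) x

theorem cl_eq {x y : ∀ n, k n} : cl x = cl y ↔ ∀ᶠ n in HF, x n = y n := by
  exact ultMk_eq (Filter.hyperfilter ℕ) k

theorem clO_eq {x y : ∀ n, RatFunc (k n)} : clO x = clO y ↔ ∀ᶠ n in HF, x n = y n := by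
  exact ultMk_eq (Filter.hyperfilter ℕ) (fun n => RatFunc (k n))

theorem sg_cl (x : ∀ n, k n) : ∀ᶠ n in HF, sg (cl x) n = x n := by
  exact cl_eq.1 (cl_sg (cl x))

theorem rp_natDegree (P : (LL k)[X]) (n : ℕ) : (rp P n).natDegree ≤ P.natDegree := by
  unfold rp
  refine natDegree_sum_le_of_forall_le _ _ fun j hj => ?_
  refine (natDegree_C_mul_X_pow_le _ _).trans ?_
  exact Nat.lt_succ_iff.1 (Finset.mem_range.1 hj)

private theorem NU1_coeff_le (P : (LL k)[X]) {j : ℕ} (hj : j ≤ P.natDegree) (n : ℕ) :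
    (rp P n).coeff j = sg (P.coeff j) n := by
  unfold rp
  rw [finsetSum_coeff, Finset.sum_eq_single j]
  · rw [coeff_C_mul_X_pow, if_pos rfl]
  · intro b _ hb
    rw [coeff_C_mul_X_pow, if_neg (Ne.symm hb)]
  · intro h
    exact absurd (Finset.mem_range.2 (Nat.lt_succ_of_le hj)) h

private theorem NU1_zero : ∀ᶠ n in HF, sg (0 : LL k) n = 0 := by
  have h : cl (fun n => (0 : k n)) = (0 : LL k) := map_zero (ultMk (Filter.hyperfilter ℕ) k)
  have h2 := sg_cl (k := k) fun n => (0 : k n)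
  rw [h] at h2
  exact h2

private theorem NU1_cl_zero {x : ∀ n, k n} (h : ∀ᶠ n in HF, x n = 0) : cl x = 0 := by
  have h0 : cl (fun n => (0 : k n)) = (0 : LL k) := map_zero (ultMk (Filter.hyperfilter ℕ) k)
  rw [← h0]
  exact cl_eq.2 h

/-- Proof. For `j ≤ P.natDegree` it is an equality; for larger `j` the left side is zero and `sg 0` is eventually zero. -/
theorem rp_coeff (P : (LL k)[X]) (j : ℕ) : ∀ᶠ n in HF, (rp P n).coeff j = sg (P.coeff j) n := by
  by_cases hj : j ≤ P.natDegree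
  · exact Filter.Eventually.of_forall fun n => NU1_coeff_le P hj n
  · have hj' : P.natDegree < j := not_le.1 hj
    rw [coeff_eq_zero_of_natDegree_lt hj']
    filter_upwards [NU1_zero (k := k)] with n hn
    rw [hn]
    exact coeff_eq_zero_of_natDegree_lt (lt_of_le_of_lt (rp_natDegree P n) hj')

/-- Proof. Eventually both sides have degree `≤ max d P.natDegree`, and eventually the finitely many coefficients up to this bound are equal:
`(rp P n).coeff j = sg (P.coeff j) n = sg (cl (fun n => (q n).coeff j)) n = (q n).coeff j` (`rp_coeff`, `sg_cl`; `Filter.eventually_all_finset`). -/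
theorem rp_of_coeff (P : (LL k)[X]) (q : ∀ n, (k n)[X]) (d : ℕ) (hd : ∀ᶠ n in HF, (q n).natDegree ≤ d)
    (h : ∀ j, cl (fun n => (q n).coeff j) = P.coeff j) : ∀ᶠ n in HF, rp P n = q n := by
  have h1 : ∀ j, ∀ᶠ n in HF, (rp P n).coeff j = (q n).coeff j := by
    intro j
    have h2 := sg_cl (k := k) fun n => (q n).coeff j
    rw [h j] at h2
    filter_upwards [rp_coeff P j, h2] with n h3 h4
    rw [h3, h4]
  have h2 : ∀ᶠ n in HF, ∀ j ∈ Finset.range (max d P.natDegree + 1), (rp P n).coeff j = (q n).coeff j :=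
    (Filter.eventually_all_finset _).2 fun j _ => h1 j
  filter_upwards [hd, h2] with n h3 h4
  ext j
  by_cases hj : j ≤ max d P.natDegree
  · exact h4 j (Finset.mem_range.2 (Nat.lt_succ_of_le hj))
  · have hj' := not_le.1 hj
    rw [coeff_eq_zero_of_natDegree_lt (lt_of_le_of_lt ((rp_natDegree P n).trans (le_max_right _ _)) hj'),
      coeff_eq_zero_of_natDegree_lt (lt_of_le_of_lt (h3.trans (le_max_left _ _)) hj')]

/-- Proof. `P := ∑ j ∈ range (d + 1), C (cl (fun n => (q n).coeff j)) * X ^ j`, `rp_of_coeff` (for `j > d` the coefficients of `q n` are eventually zero, `cl` of a family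
which is eventually zero is zero). -/
theorem exists_rp (q : ∀ n, (k n)[X]) (d : ℕ) (hd : ∀ᶠ n in HF, (q n).natDegree ≤ d) :
    ∃ P : (LL k)[X], P.natDegree ≤ d ∧ ∀ᶠ n in HF, rp P n = q n := by
  let P : (LL k)[X] := ∑ j ∈ Finset.range (d + 1), C (cl fun n => (q n).coeff j) * X ^ j
  have hP : P.natDegree ≤ d := by
    refine natDegree_sum_le_of_forall_le _ _ fun j hj => ?_
    refine (natDegree_C_mul_X_pow_le _ _).trans ?_
    exact Nat.lt_succ_iff.1 (Finset.mem_range.1 hj)
  refine ⟨P, hP, rp_of_coeff P q d hd fun j => ?_⟩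
  by_cases hj : j ≤ d
  · change _ = (∑ j ∈ Finset.range (d + 1), C (cl fun n => (q n).coeff j) * X ^ j).coeff j
    rw [finsetSum_coeff, Finset.sum_eq_single j]
    · rw [coeff_C_mul_X_pow, if_pos rfl]
    · intro b _ hb
      rw [coeff_C_mul_X_pow, if_neg (Ne.symm hb)]
    · intro h
      exact absurd (Finset.mem_range.2 (Nat.lt_succ_of_le hj)) h
  · have hj' := not_le.1 hj
    rw [coeff_eq_zero_of_natDegree_lt (lt_of_le_of_lt hP hj')]
    apply NU1_cl_zero
    filter_upwards [hd] with n hn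
    exact coeff_eq_zero_of_natDegree_lt (lt_of_le_of_lt hn hj')

/-- Proof. The coefficients: `P.coeff j = cl (fun n => (rp P n).coeff j)` (`rp_coeff`, `cl_sg`, `cl_eq`). -/
theorem rp_ext {P Q : (LL k)[X]} (h : ∀ᶠ n in HF, rp P n = rp Q n) : P = Q := by
  ext j
  rw [← cl_sg (P.coeff j), ← cl_sg (Q.coeff j)]
  apply cl_eq.2
  filter_upwards [h, rp_coeff P j, rp_coeff Q j] with n h1 h2 h3
  rw [← h2, ← h3, h1]

end MPadcOA
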