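import Pool.Agent.Lib.MP_adc574_ag_OA.N_U1

/-!
LEAF NU2: the operations on representatives.

All by `rp_of_coeff`: `cl` is (the value of) a ring homomorphism, `cl (fun n => (rp P n).coeff j) = P.coeff j` (`rp_coeff`, `cl_eq`, `cl_sg`).
-/

set_option autoImplicit false

namespace MPadcOA

open Polynomial Matrix MPadcGM

variable {k : ℕ → Type} [∀ n, Field (k n)]

private theorem NU2_cf (P : (LL k)[X]) (j : ℕ) : cl (fun n => (rp P n).coeff j) = P.coeff j := by
  have h : cl (fun n => (rp P n).coeff j) = cl (sg (P.coeff j)) := cl_eq.2 (rp_coeff P j)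
  rw [h, cl_sg]

private theorem NU2_add (x y : ∀ n, k n) : cl (fun n => x n + y n) = cl x + cl y :=
  map_add (ultMk (Filter.hyperfilter ℕ) k) x y

private theorem NU2_sub (x y : ∀ n, k n) : cl (fun n => x n - y n) = cl x - cl y :=
  map_sub (ultMk (Filter.hyperfilter ℕ) k) x y

private theorem NU2_mul (x y : ∀ n, k n) : cl (fun n => x n * y n) = cl x * cl y :=
  map_mul (ultMk (Filter.hyperfilter ℕ) k) x y

private theorem NU2_pow (x : ∀ n, k n) (i : ℕ) : cl (fun n => x n ^ i) = cl x ^ i :=
  map_pow (ultMk (Filter.hyperfilter ℕ) k) x i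

private theorem NU2_zero : cl (fun n => (0 : k n)) = 0 :=
  map_zero (ultMk (Filter.hyperfilter ℕ) k)

private theorem NU2_one : cl (fun n => (1 : k n)) = 1 :=
  map_one (ultMk (Filter.hyperfilter ℕ) k)

private theorem NU2_int (z : ℤ) : cl (fun n => (z : k n)) = (z : LL k) :=
  map_intCast (ultMk (Filter.hyperfilter ℕ) k) z

private theorem NU2_nat (z : ℕ) : cl (fun n => (z : k n)) = (z : LL k) :=
  map_natCast (ultMk (Filter.hyperfilter ℕ) k) z

private theorem NU2_sum {ι : Type} (s : Finset ι) (f : ι → ∀ n, k n) :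
    cl (fun n => ∑ i ∈ s, f i n) = ∑ i ∈ s, cl (f i) := by
  have h := map_sum (ultMk (Filter.hyperfilter ℕ) k) f s
  have h1 : (∑ i ∈ s, f i) = fun n => ∑ i ∈ s, f i n := by
    funext n
    rw [Finset.sum_apply]
  rw [h1] at h
  exact h

theorem rp_add (P Q : (LL k)[X]) : ∀ᶠ n in HF, rp (P + Q) n = rp P n + rp Q n := by
  refine rp_of_coeff (P + Q) (fun n => rp P n + rp Q n) (max P.natDegree Q.natDegree) ?_ ?_
  · refine Filter.Eventually.of_forall fun n => ?_
    exact (natDegree_add_le _ _).trans (max_le_max (rp_natDegree P n) (rp_natDegree Q n))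
  · intro j
    simp only [coeff_add]
    rw [NU2_add, NU2_cf, NU2_cf]

theorem rp_mul (P Q : (LL k)[X]) : ∀ᶠ n in HF, rp (P * Q) n = rp P n * rp Q n := by
  refine rp_of_coeff (P * Q) (fun n => rp P n * rp Q n) (P.natDegree + Q.natDegree) ?_ ?_
  · refine Filter.Eventually.of_forall fun n => ?_
    exact natDegree_mul_le.trans (Nat.add_le_add (rp_natDegree P n) (rp_natDegree Q n))
  · intro j
    simp only [coeff_mul]
    rw [NU2_sum (Finset.HasAntidiagonal.antidiagonal j) (fun x n => (rp P n).coeff x.1 * (rp Q n).coeff x.2)]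
    refine Finset.sum_congr rfl fun x _ => ?_
    rw [NU2_mul, NU2_cf, NU2_cf]

theorem rp_zero : ∀ᶠ n in HF, rp (0 : (LL k)[X]) n = 0 := by
  refine rp_of_coeff 0 (fun n => 0) 0 ?_ ?_
  · exact Filter.Eventually.of_forall fun n => by rw [natDegree_zero]
  · intro j
    simp only [coeff_zero]
    exact NU2_zero

theorem rp_one : ∀ᶠ n in HF, rp (1 : (LL k)[X]) n = 1 := by
  refine rp_of_coeff 1 (fun n => 1) 0 ?_ ?_
  · exact Filter.Eventually.of_forall fun n => by rw [natDegree_one]
  · intro j
    simp only [coeff_one]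
    split_ifs
    · exact NU2_one
    · exact NU2_zero

theorem rp_sum {ι : Type} (s : Finset ι) (P : ι → (LL k)[X]) : ∀ᶠ n in HF, rp (∑ i ∈ s, P i) n = ∑ i ∈ s, rp (P i) n := by
  classical
  refine Finset.induction_on s ?_ ?_
  · filter_upwards [rp_zero (k := k)] with n hn
    rw [Finset.sum_empty, Finset.sum_empty, hn]
  · intro i s hi ih
    rw [Finset.sum_insert hi]
    filter_upwards [ih, rp_add (P i) (∑ i ∈ s, P i)] with n h1 h2
    rw [h2, h1, Finset.sum_insert hi]

theorem rp_prod {ι : Type} (s : Finset ι) (P : ι → (LL k)[X]) : ∀ᶠ n in HF, rp (∏ i ∈ s, P i) n = ∏ i ∈ s, rp (P i) n := by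
  classical
  refine Finset.induction_on s ?_ ?_
  · filter_upwards [rp_one (k := k)] with n hn
    rw [Finset.prod_empty, Finset.prod_empty, hn]
  · intro i s hi ih
    rw [Finset.prod_insert hi]
    filter_upwards [ih, rp_mul (P i) (∏ i ∈ s, P i)] with n h1 h2
    rw [h2, h1, Finset.prod_insert hi]

theorem rp_X_sub_C (x : ∀ n, k n) : ∀ᶠ n in HF, rp (X - C (cl x)) n = X - C (x n) := by
  refine rp_of_coeff (X - C (cl x)) (fun n => X - C (x n)) 1 ?_ ?_
  · exact Filter.Eventually.of_forall fun n => (natDegree_X_sub_C (x n)).le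
  · intro j
    simp only [coeff_sub, coeff_X, coeff_C]
    rw [NU2_sub (fun n => if 1 = j then (1 : k n) else 0) (fun n => if j = 0 then x n else 0)]
    congr 1
    · split_ifs
      · exact NU2_one
      · exact NU2_zero
    · split_ifs
      · rfl
      · exact NU2_zero

theorem rp_intCast (z : ℤ) : ∀ᶠ n in HF, rp ((z : (LL k)[X])) n = (z : (k n)[X]) := by
  refine rp_of_coeff (z : (LL k)[X]) (fun n => (z : (k n)[X])) 0 ?_ ?_
  · refine Filter.Eventually.of_forall fun n => ?_
    rw [← map_intCast (C : k n →+* (k n)[X]) z, natDegree_C]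
  · intro j
    rw [← map_intCast (C : LL k →+* (LL k)[X]) z]
    have h : ∀ n, ((z : (k n)[X])).coeff j = if j = 0 then (z : k n) else 0 := by
      intro n
      rw [← map_intCast (C : k n →+* (k n)[X]) z, coeff_C]
    simp only [h, coeff_C]
    split_ifs
    · exact NU2_int z
    · exact NU2_zero

theorem rp_derivative (P : (LL k)[X]) : ∀ᶠ n in HF, rp (derivative P) n = derivative (rp P n) := by
  refine rp_of_coeff (derivative P) (fun n => derivative (rp P n)) P.natDegree ?_ ?_
  · refine Filter.Eventually.of_forall fun n => ?_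
    exact (natDegree_derivative_le _).trans ((Nat.sub_le _ _).trans (rp_natDegree P n))
  · intro j
    simp only [coeff_derivative]
    rw [NU2_mul (fun n => (rp P n).coeff (j + 1)) (fun n => (j : k n) + 1), NU2_cf,
      NU2_add (fun n => (j : k n)) (fun n => 1), NU2_nat, NU2_one]

/-- Proof. The value is `∑ j ∈ range (natDegree + 1), coeff j * x ^ j` on both sides (`eval_eq_sum_range'` with the bound `P.natDegree + 1`, `rp_natDegree`). -/
theorem rp_eval (P : (LL k)[X]) (x : ∀ n, k n) : cl (fun n => (rp P n).eval (x n)) = P.eval (cl x) := by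
  have h1 : ∀ n, (rp P n).eval (x n) = ∑ i ∈ Finset.range (P.natDegree + 1), (rp P n).coeff i * x n ^ i :=
    fun n => eval_eq_sum_range' (Nat.lt_succ_of_le (rp_natDegree P n)) (x n)
  simp only [h1]
  rw [eval_eq_sum_range' (Nat.lt_succ_self P.natDegree) (cl x),
    NU2_sum (Finset.range (P.natDegree + 1)) (fun i n => (rp P n).coeff i * x n ^ i)]
  refine Finset.sum_congr rfl fun i _ => ?_
  rw [NU2_mul (fun n => (rp P n).coeff i) (fun n => x n ^ i), NU2_cf, NU2_pow]

theorem rp_ne_zero {P : (LL k)[X]} (h : P ≠ 0) : ∀ᶠ n in HF, rp P n ≠ 0 := by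
  rw [Ultrafilter.eventually_not]
  intro h1
  refine h (rp_ext ?_)
  filter_upwards [h1, rp_zero (k := k)] with n h2 h3
  rw [h2, h3]

end MPadcOA
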