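import Pool.Agent.Lib.MP_adc574_ag_OA.N_U2

/-! LEAF NU4: the field `LL k (X)` inside `OO k` -/

set_option autoImplicit false

namespace MPadcOA

open Polynomial Matrix MPadcGM

variable {k : ℕ → Type} [∀ n, Field (k n)]

/-- Proof. `th` is a ring homomorphism and `P` is a finite sum of `C (P.coeff j) * X ^ j`; `cst (cl x) = clO (fun n => algebraMap (k n) (RatFunc (k n)) (x n))` by definition
(`Ideal.Quotient.lift_mk`), with `x = sg (P.coeff j)`, `cl_sg`; `clO` is the value of the ring homomorphism `ultMk`; `algebraMap (k n)[X] (RatFunc (k n))` maps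
`C x` to `algebraMap (k n) _ x` and `X` to `RatFunc.X`. -/
theorem th_eq (P : (LL k)[X]) : th k P = clO fun n => algebraMap (k n)[X] (RatFunc (k n)) (rp P n) := by
  have hc : ∀ x : ∀ n, k n, cst k (cl x) = clO fun n => algebraMap (k n) (RatFunc (k n)) (x n) := fun x => rfl
  have h1 : ∀ j, cst k (P.coeff j) = clO fun n => algebraMap (k n) (RatFunc (k n)) (sg (P.coeff j) n) := by
    intro j
    rw [← hc, cl_sg]
  unfold th
  rw [coe_eval₂RingHom, eval₂_eq_sum_range]
  rw [Finset.sum_congr rfl (fun j _ => by rw [h1 j])]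
  unfold clO
  simp only [← map_pow, ← map_mul, ← map_sum]
  congr 1
  funext n
  rw [Finset.sum_apply]
  unfold rp
  rw [map_sum]
  refine Finset.sum_congr rfl fun j _ => ?_
  rw [Pi.mul_apply, Pi.pow_apply, map_mul, map_pow, RatFunc.algebraMap_X,
    IsScalarTower.algebraMap_apply (k n) (k n)[X] (RatFunc (k n)), Polynomial.algebraMap_eq]

/-- Proof. `th_eq`, `clO_eq`, injectivity of `(k n)[X] → RatFunc (k n)` and `rp_ext` (`rp_zero`). -/
theorem th_inj (k : ℕ → Type) [∀ n, Field (k n)] : Function.Injective (th k) := by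
  rw [injective_iff_map_eq_zero]
  intro P hP
  rw [th_eq] at hP
  have h0 : (0 : OO k) = clO fun _ => 0 := (map_zero (ultMk (Filter.hyperfilter ℕ) (fun n => RatFunc (k n)))).symm
  rw [h0, clO_eq] at hP
  apply rp_ext
  filter_upwards [hP, rp_zero (k := k)] with n hn h1
  rw [h1]
  exact (IsFractionRing.injective (k n)[X] (RatFunc (k n))) (by rw [hn, map_zero])

/-- The field `LL k (X)`. -/
abbrev KK (k : ℕ → Type) [∀ n, Field (k n)] : Type := FractionRing (LL k)[X]

/-- `OO k` is an extension of `LL k (X)`. -/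
noncomputable instance instAlgKO : Algebra (KK k) (OO k) :=
  (IsFractionRing.lift (th_inj k)).toAlgebra

theorem algK (P : (LL k)[X]) : algebraMap (KK k) (OO k) (algebraMap (LL k)[X] (KK k) P) = th k P := by
  exact IsFractionRing.lift_algebraMap (th_inj k) P

end MPadcOA
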