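import Mathlib

/-! LEAF NV2: divisibility by powers of `X - C a` -/

set_option autoImplicit false

namespace MPadcOA

open Polynomial

theorem pow_dvd_der {k : Type} [Field k] (a : k) (N : ℕ) (f : k[X]) (h : (X - C a) ^ N ∣ f) :
    (X - C a) ^ (N - 1) ∣ derivative f := by
  exact pow_sub_one_dvd_derivative_of_pow_dvd h

/-- Proof. If `h = 0` trivial; otherwise `rootMultiplicity a (f * h) = rootMultiplicity a f + rootMultiplicity a h` and `rootMultiplicity a f ≤ natDegree f`
(`Polynomial.le_rootMultiplicity_iff`; `(X - C a) ^ n ∣ f`, `f ≠ 0`, so `n ≤ natDegree f` by `natDegree_le_of_dvd`). -/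
theorem pow_dvd_of_mul {k : Type} [Field k] (a : k) (N d : ℕ) (f h : k[X]) (hf : f ≠ 0) (hd : f.natDegree ≤ d)
    (hdvd : (X - C a) ^ N ∣ f * h) : (X - C a) ^ (N - d) ∣ h := by
  by_cases hh : h = 0
  · rw [hh]
    exact dvd_zero _
  have hfh : f * h ≠ 0 := mul_ne_zero hf hh
  have h1 : N ≤ rootMultiplicity a (f * h) := (le_rootMultiplicity_iff hfh).2 hdvd
  rw [rootMultiplicity_mul hfh] at h1
  have h2 : rootMultiplicity a f ≤ f.natDegree := by
    have h3 : (X - C a) ^ rootMultiplicity a f ∣ f := pow_rootMultiplicity_dvd f a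
    have h4 := natDegree_le_of_dvd h3 hf
    rwa [natDegree_pow, natDegree_X_sub_C, mul_one] at h4
  exact (le_rootMultiplicity_iff hh).1 (by omega)

end MPadcOA
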