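import Pool.Agent.Lib.MP_adc574_ag_OA.N_K1
import Pool.Agent.Lib.MP_adc574_ag_OA.N_T6
import Pool.Agent.Lib.MP_adc574_ag_OA.N_U0

/-! LEAF NW: the modules `WA`, `WS` -/

set_option autoImplicit false

namespace MPadcOA

open Polynomial Matrix

theorem opD_add {R : Type} [CommRing R] {g m : ℕ} (Δ : R[X]) (G : Matrix (Nx g) (Nx g) R[X]) (φ ψ : Kx g m → R[X]) :
    opD Δ G (φ + ψ) = opD Δ G φ + opD Δ G ψ := by
  funext s
  show Δ * derivative (φ s + ψ s) + (KS G *ᵥ (φ + ψ)) s =
    (Δ * derivative (φ s) + (KS G *ᵥ φ) s) + (Δ * derivative (ψ s) + (KS G *ᵥ ψ) s)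
  rw [Matrix.mulVec_add, Pi.add_apply, derivative_add]
  ring

theorem opD_smul {R : Type} [CommRing R] {g m : ℕ} (Δ : R[X]) (G : Matrix (Nx g) (Nx g) R[X]) (a : R[X]) (φ : Kx g m → R[X]) :
    opD Δ G (a • φ) = (Δ * derivative a) • φ + a • opD Δ G φ := by
  funext s
  show Δ * derivative (a * φ s) + (KS G *ᵥ (a • φ)) s =
    Δ * derivative a * φ s + a * (Δ * derivative (φ s) + (KS G *ᵥ φ) s)
  rw [Matrix.mulVec_smul, Pi.smul_apply, smul_eq_mul, derivative_mul]
  ring

/-- Proof. `opD Δ G φ = Δ • (derivative ∘ φ) + KS G *ᵥ φ`: `van_derivative`, `van_smul`, `van_add`, and for `KS G *ᵥ φ`: `van_of_map` for the injection of `F[X]` into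
`FractionRing F[X]` (a field of characteristic zero), `KS_map`, `van_map` and `van_KS`. -/
theorem opD_van {F : Type} [Field F] [CharZero F] {g m : ℕ} (Δ : F[X]) (G : Matrix (Nx g) (Nx g) F[X])
    (hG : G * JJ g F[X] + JJ g F[X] * Gᵀ = 0) {φ : Kx g m → F[X]} (h : Van φ) : Van (opD Δ G φ) := by
  have hinj : Function.Injective (algebraMap F[X] (FractionRing F[X])) := IsFractionRing.injective F[X] (FractionRing F[X])
  have hc : CharZero (FractionRing F[X]) := charZero_of_injective_algebraMap hinj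
  have h1 : opD Δ G φ = Δ • (fun s => derivative (φ s)) + KS G *ᵥ φ := rfl
  rw [h1]
  refine van_add (van_smul Δ (van_derivative h)) (van_of_map (algebraMap F[X] (FractionRing F[X])) hinj ?_)
  have h2 : (fun s => algebraMap F[X] (FractionRing F[X]) ((KS G *ᵥ φ) s)) =
      KS (G.map (algebraMap F[X] (FractionRing F[X]))) *ᵥ fun s => algebraMap F[X] (FractionRing F[X]) (φ s) := by
    funext s
    rw [RingHom.map_mulVec, KS_map]
    rfl
  rw [h2]
  refine van_KS _ (van_map _ h) _ ?_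
  have h3 : (JJ g F[X]).map (algebraMap F[X] (FractionRing F[X])) = JJ g (FractionRing F[X]) := by
    unfold JJ
    have h5 : (-1 : Matrix (Fin g) (Fin g) F[X]).map (algebraMap F[X] (FractionRing F[X])) = -1 := by
      ext i j
      rw [Matrix.map_apply, Matrix.neg_apply, Matrix.neg_apply, map_neg, Matrix.one_apply, Matrix.one_apply]
      split_ifs
      · rw [map_one]
      · rw [map_zero]
    rw [Matrix.fromBlocks_map, Matrix.map_zero _ (map_zero _), Matrix.map_one _ (map_zero _) (map_one _), h5]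
  have h4 := congrArg (fun M : Matrix (Nx g) (Nx g) F[X] => M.map (algebraMap F[X] (FractionRing F[X]))) hG
  simp only [Matrix.map_add _ (map_add _), Matrix.map_mul, h3, Matrix.map_zero _ (map_zero _), Matrix.transpose_map] at h4
  exact h4

section

variable {F : Type} [Field F] {g m : ℕ} {Δ : F[X]} {G : Matrix (Nx g) (Nx g) F[X]} {Φ : Kx g m → F[X]}

/-- Proof. `d • x ∈ WA` gives `opD (d • x) ∈ WA` (the set of the `y ∈ WA` with `opD y ∈ WA` contains the generators `opD^[e] Φ` (`Function.iterate_succ_apply'`) and, by `opD_van`, `vanS`,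
and is a submodule by `opD_add`, `opD_smul`: `Submodule.span_induction`, `Submodule.mem_sup`). Then
`(d * d) • opD x = d • opD (d • x) - (Δ * derivative d) • (d • x) ∈ WA`. -/
theorem WS_opD [CharZero F] (hG : G * JJ g F[X] + JJ g F[X] * Gᵀ = 0) {x : Kx g m → F[X]} (hx : x ∈ WS Δ G Φ) :
    opD Δ G x ∈ WS Δ G Φ := by
  have h0 : opD Δ G (0 : Kx g m → F[X]) = 0 := by
    have h1 := opD_add Δ G (0 : Kx g m → F[X]) 0
    rw [add_zero] at h1
    exact left_eq_add.1 h1
  have hWA : ∀ y ∈ WA Δ G Φ, opD Δ G y ∈ WA Δ G Φ := by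
    intro y hy
    obtain ⟨y1, hy1, y2, hy2, rfl⟩ := Submodule.mem_sup.1 hy
    rw [opD_add]
    refine add_mem ?_ (Submodule.mem_sup_right (opD_van Δ G hG hy2))
    induction hy1 using Submodule.span_induction with
    | mem z hz =>
      obtain ⟨e, rfl⟩ := hz
      refine Submodule.mem_sup_left (Submodule.subset_span ⟨e + 1, ?_⟩)
      exact Function.iterate_succ_apply' _ _ _
    | zero =>
      rw [h0]
      exact zero_mem _
    | add z z' hz hz' ih ih' =>
      rw [opD_add]
      exact add_mem (ih (add_mem (Submodule.mem_sup_left hz) (Submodule.mem_sup_right hy2)))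
        (ih' (add_mem (Submodule.mem_sup_left hz') (Submodule.mem_sup_right hy2)))
    | smul a z hz ih =>
      rw [opD_smul]
      exact add_mem (Submodule.smul_mem _ _ (Submodule.mem_sup_left hz))
        (Submodule.smul_mem _ _ (ih (add_mem (Submodule.mem_sup_left hz) (Submodule.mem_sup_right hy2))))
  obtain ⟨d, hd, h⟩ := hx
  refine ⟨d * d, mul_ne_zero hd hd, ?_⟩
  have h1 : (d * d) • opD Δ G x = d • opD Δ G (d • x) - (Δ * derivative d) • (d • x) := by
    rw [opD_smul, smul_add, mul_smul, smul_comm d (Δ * derivative d) x, add_sub_cancel_left]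
  rw [h1]
  exact sub_mem (Submodule.smul_mem _ _ (hWA _ h)) (Submodule.smul_mem _ _ h)

theorem WS_sat (d : F[X]) (hd : d ≠ 0) (x : Kx g m → F[X]) (h : d • x ∈ WS Δ G Φ) : x ∈ WS Δ G Φ := by
  obtain ⟨d', hd', h'⟩ := h
  refine ⟨d' * d, mul_ne_zero hd' hd, ?_⟩
  rw [mul_smul]
  exact h'

theorem WS_self : Φ ∈ WS Δ G Φ := by
  refine ⟨1, one_ne_zero, ?_⟩
  rw [one_smul]
  exact Submodule.mem_sup_left (Submodule.subset_span ⟨0, rfl⟩)

theorem WS_van {x : Kx g m → F[X]} (h : Van x) : x ∈ WS Δ G Φ := by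
  refine ⟨1, one_ne_zero, ?_⟩
  rw [one_smul]
  exact Submodule.mem_sup_right h

/-- Proof. `d • x ∈ WA`, `d ≠ 0`: by `hdiv` it is enough to treat `WA`: `Submodule.mem_sup`, `Submodule.span_induction`, induction on `e` for `opD^[e] Φ`. -/
theorem WS_induction (Z : (Kx g m → F[X]) → Prop) (hΦ : Z Φ) (hv : ∀ x, Van x → Z x) (hadd : ∀ x y, Z x → Z y → Z (x + y))
    (hsmul : ∀ (a : F[X]) x, Z x → Z (a • x)) (hop : ∀ x, Z x → Z (opD Δ G x)) (hdiv : ∀ (d : F[X]) x, d ≠ 0 → Z (d • x) → Z x)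
    (x : Kx g m → F[X]) (hx : x ∈ WS Δ G Φ) : Z x := by
  obtain ⟨d, hd, h⟩ := hx
  refine hdiv d x hd ?_
  obtain ⟨y1, hy1, y2, hy2, hy⟩ := Submodule.mem_sup.1 h
  rw [← hy]
  refine hadd _ _ ?_ (hv _ hy2)
  clear hy hy2 h
  induction hy1 using Submodule.span_induction with
  | mem z hz =>
    obtain ⟨e, rfl⟩ := hz
    show Z ((opD Δ G)^[e] Φ)
    induction e with
    | zero => exact hΦ
    | succ e ih =>
      rw [Function.iterate_succ_apply']
      exact hop _ ih
  | zero => exact hv 0 van_zero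
  | add z z' _ _ ih ih' => exact hadd _ _ ih ih'
  | smul a z _ ih => exact hsmul a z ih

end

end MPadcOA
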