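import Pool.Agent.Lib.MP_adc574_ag_OA.N_K3
import Pool.Agent.Lib.MP_adc574_ag_OA.N_W
import Pool.Agent.Lib.MP_adc574_ag_OA.N_U3
import Pool.Agent.Lib.MP_adc574_ag_OA.N_V1
import Pool.Agent.Lib.MP_adc574_ag_OA.N_V2

/-! LEAF NV3: the forms in `WS` vanish at the frame `U` to high order -/

set_option autoImplicit false

namespace MPadcOA

open Polynomial Matrix MPadcGM

/-- Proof. `WS_induction` with `Z ξ := ∃ e, ∀ᶠ n in HF, (X - C (α n)) ^ (p n - e) ∣ ev (D n).U (fun s => rp (ξ s) n)`. `Φ'`: `e = 0` (`hΦ`, `hdvd`). `Van ξ`: `rp_van`, `ev_van_U`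
(`(hD n).isoU`, `(hD n).rkU`). Sum: `rp_add` for all `s` (`Filter.eventually_all`), `ev_add`, `e = max`, `pow_dvd_pow`. `a • ξ`: `rp_mul`, `ev_smul`. `opD`: `rp_opD`, `hΔ`, `hG`,
`ev_opD` with `(hD n).horU`: `ev U (opD Δ G φ) = Δ * derivative (ev U φ)`, `pow_dvd_der`, `e + 1`. Division by `d ≠ 0`: `rp (d * ξ s) n = rp d n * rp (ξ s) n`, `rp_ne_zero`,
`rp_natDegree`, `ev_smul`, `pow_dvd_of_mul` with `d.natDegree`: `e + d.natDegree`. -/
theorem vanish_ord {k : ℕ → Type} [∀ n, Field (k n)] {g m c : ℕ} (p : ℕ → ℕ) (D : ∀ n, Dat g (k n))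
    (hD : ∀ n, (D n).Ok (p n) c) (Φ : ∀ n, Kx g m → (k n)[X]) (α : ∀ n, k n) (hα : ∀ n, (D n).Δ.eval (α n) ≠ 0)
    (hdvd : ∀ n, (X - C (α n)) ^ p n ∣ ev (D n).U (Φ n)) (Δ' : (LL k)[X]) (G' : Matrix (Nx g) (Nx g) (LL k)[X])
    (Φ' : Kx g m → (LL k)[X]) (hΔ : ∀ᶠ n in HF, rp Δ' n = (D n).Δ) (hG : ∀ᶠ n in HF, mr G' n = (D n).G)
    (hΦ : ∀ᶠ n in HF, (fun s => rp (Φ' s) n) = Φ n) (ξ : Kx g m → (LL k)[X]) (hξ : ξ ∈ WS Δ' G' Φ') :
    ∃ e : ℕ, ∀ᶠ n in HF, (X - C (α n)) ^ (p n - e) ∣ ev (D n).U (fun s => rp (ξ s) n) := by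
  have key : ∀ ξ : Kx g m → (LL k)[X], ξ ∈ WS Δ' G' Φ' →
      (fun ξ : Kx g m → (LL k)[X] => ∃ e : ℕ, ∀ᶠ n in HF,
        (X - C (α n)) ^ (p n - e) ∣ ev (D n).U (fun s => rp (ξ s) n)) ξ := by
    apply WS_induction
    · refine ⟨0, ?_⟩
      filter_upwards [hΦ] with n hn
      rw [hn, Nat.sub_zero]
      exact hdvd n
    · intro x hx
      refine ⟨0, ?_⟩
      have h0 := rp_van hx
      filter_upwards [h0] with n hn
      rw [ev_van_U (D n).U (hD n).isoU (α n) ((hD n).rkU _ (hα n)) hn]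
      exact dvd_zero _
    · rintro x y ⟨e, h⟩ ⟨e', h'⟩
      refine ⟨max e e', ?_⟩
      have h0 : ∀ᶠ n in HF, ∀ s, rp (x s + y s) n = rp (x s) n + rp (y s) n :=
        Filter.eventually_all.2 fun s => rp_add (x s) (y s)
      filter_upwards [h, h', h0] with n h1 h2 h3
      have h4 : (fun s => rp ((x + y) s) n) = (fun s => rp (x s) n) + fun s => rp (y s) n :=
        funext h3
      rw [h4, ev_add]
      exact dvd_add ((pow_dvd_pow _ (Nat.sub_le_sub_left (le_max_left e e') _)).trans h1)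
        ((pow_dvd_pow _ (Nat.sub_le_sub_left (le_max_right e e') _)).trans h2)
    · rintro a x ⟨e, h⟩
      refine ⟨e, ?_⟩
      have h0 : ∀ᶠ n in HF, ∀ s, rp (a * x s) n = rp a n * rp (x s) n :=
        Filter.eventually_all.2 fun s => rp_mul a (x s)
      filter_upwards [h, h0] with n h1 h3
      have h4 : (fun s => rp ((a • x) s) n) = rp a n • fun s => rp (x s) n := by
        funext s
        exact h3 s
      rw [h4, ev_smul]
      exact dvd_mul_of_dvd_right h1 _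
    · rintro x ⟨e, h⟩
      refine ⟨e + 1, ?_⟩
      have h0 := rp_opD Δ' G' x
      filter_upwards [h, h0, hΔ, hG] with n h1 h2 h3 h4
      rw [h2, h3, h4, ← ev_opD (D n).Δ (D n).G (D n).U (hD n).horU, ← Nat.sub_sub]
      exact dvd_mul_of_dvd_right (pow_dvd_der (α n) _ _ h1) _
    · rintro d x hd ⟨e, h⟩
      refine ⟨e + d.natDegree, ?_⟩
      have h0 : ∀ᶠ n in HF, ∀ s, rp (d * x s) n = rp d n * rp (x s) n :=
        Filter.eventually_all.2 fun s => rp_mul d (x s)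
      have h0' : ∀ᶠ n in HF, rp d n ≠ 0 := rp_ne_zero hd
      filter_upwards [h, h0, h0'] with n h1 h3 h5
      have h4 : (fun s => rp ((d • x) s) n) = rp d n • fun s => rp (x s) n := by
        funext s
        exact h3 s
      rw [h4, ev_smul] at h1
      rw [← Nat.sub_sub]
      exact pow_dvd_of_mul (α n) (p n - e) d.natDegree (rp d n) _ h5 (rp_natDegree d n) h1
  exact key ξ hξ

end MPadcOA
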