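import Pool.Agent.Lib.MP_adc574_ag_OA.N_K4
import Pool.Agent.Lib.MP_adc574_ag_OA.N_S5
import Pool.Agent.Lib.MP_adc574_ag_OA.N_I1

/-! LEAF NZ1: the symplectic Lie algebra -/

set_option autoImplicit false

namespace MPadcOA

open Polynomial Matrix MPadcGM

private theorem NZ1_JJ {R S : Type*} [CommRing R] [CommRing S] (g : ℕ) (f : R →+* S) :
    (JJ g R).map f = JJ g S := by
  unfold JJ
  rw [Matrix.fromBlocks_map]
  have h0 : (0 : Matrix (Fin g) (Fin g) R).map f = 0 := Matrix.map_zero _ (map_zero f)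
  have h1 : (1 : Matrix (Fin g) (Fin g) R).map f = 1 := Matrix.map_one _ (map_zero f) (map_one f)
  have h2 : (-1 : Matrix (Fin g) (Fin g) R).map f = -1 := by
    ext i j
    rw [Matrix.map_apply, Matrix.neg_apply, map_neg, Matrix.neg_apply, ← h1, Matrix.map_apply]
  rw [h0, h1, h2]

private theorem NZ1_tr {R S : Type*} [CommRing R] [CommRing S] {g : ℕ} (f : R →+* S)
    (u v : Nx g → R) (a b : Nx g) :
    f (tr u v a b) = tr (fun l => f (u l)) (fun l => f (v l)) a b := by
  unfold tr
  rw [Matrix.add_apply, Matrix.add_apply, map_add, vecMulVec_apply, vecMulVec_apply,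
    vecMulVec_apply, vecMulVec_apply, map_mul, map_mul, RingHom.map_mulVec, RingHom.map_mulVec,
    NZ1_JJ]
  rfl

/-- Proof. `sp_gen` for `K = KK k`, `Ω = OO k` (`alg_closed`; `CharZero (KK k)` from `charZero_LL`), the index set `Fin (s * r)` of the equations identified with `Fin s × Fin r`
(`finProdFinEquiv`), `T` the image of `Tm P Q j i` under `algebraMap (LL k)[X] (KK k)`, which is `Tm` of the images of `P`, `Q` (`Tm_map`): `hlie` is `Tm_lie`; `w = wO D`, `w_indep`; `hw` is
`h` (`algK`). With `b = algebraMap _ _ ∘ C ∘ u`, `b' = algebraMap _ _ ∘ C ∘ v` (`tr`, `JJ` commute with ring homomorphisms) and the injectivity of `(LL k)[X] → KK k`. -/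
theorem sp_all {k : ℕ → Type} [∀ n, Field (k n)] {g m c : ℕ} (p : ℕ → ℕ) [∀ n, CharP (k n) (p n)] (hp : ∀ n, n ≤ p n)
    (D : ∀ n, Dat g (k n)) (hD : ∀ n, (D n).Ok (p n) c) {r s : ℕ} (P : Matrix (Kx g m) (Fin r ⊕ Fin s) (LL k)[X])
    (Q : Matrix (Fin r ⊕ Fin s) (Kx g m) (LL k)[X]) (hPQ : P * Q = 1)
    (h : ∀ j i, ∑ a, ∑ b, th k (Tm P Q j i a b) * vecMulVec (JJ g (OO k) *ᵥ wO D) (wO D) a b = 0) (u v : Nx g → LL k) (j : Fin s)
    (i : Fin r) : ∑ a, ∑ b, Tm P Q j i a b * tr (fun l => C (u l)) (fun l => C (v l)) a b = 0 := by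
  classical
  have hch : CharZero (LL k) := charZero_LL p hp
  have hinj : Function.Injective (algebraMap (LL k)[X] (KK k)) := IsFractionRing.injective _ _
  have hchX : CharZero (LL k)[X] := charZero_of_injective_algebraMap
    (R := LL k) (A := (LL k)[X]) (Polynomial.C_injective)
  have hchK : CharZero (KK k) := charZero_of_injective_algebraMap hinj
  let f : (LL k)[X] →+* KK k := algebraMap (LL k)[X] (KK k)
  have hPQ' : P.map f * Q.map f = 1 := by
    rw [← Matrix.map_mul, hPQ]
    exact Matrix.map_one _ (map_zero f) (map_one f)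
  have key := sp_gen (K := KK k) (Ω := OO k) alg_closed (g := g) (N := s * r)
    (fun c => (Tm P Q (finProdFinEquiv.symm c).1 (finProdFinEquiv.symm c).2).map f)
    (by
      intro M M' h1 h2 c
      simp only [Tm_map] at h1 h2 ⊢
      apply Tm_lie _ _ hPQ' M M'
      · intro j' i'
        have h3 := h1 (finProdFinEquiv (j', i'))
        rw [Equiv.symm_apply_apply] at h3
        exact h3
      · intro j' i'
        have h3 := h2 (finProdFinEquiv (j', i'))
        rw [Equiv.symm_apply_apply] at h3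
        exact h3)
    (wO D) (w_indep p hp D hD)
    (by
      intro c
      have h3 := h (finProdFinEquiv.symm c).1 (finProdFinEquiv.symm c).2
      rw [← h3]
      refine Finset.sum_congr rfl fun a _ => Finset.sum_congr rfl fun b _ => ?_
      rw [Matrix.map_apply]
      have h4 : algebraMap (KK k) (OO k) (f (Tm P Q (finProdFinEquiv.symm c).1
        (finProdFinEquiv.symm c).2 a b)) = th k (Tm P Q (finProdFinEquiv.symm c).1
        (finProdFinEquiv.symm c).2 a b) := algK _
      rw [h4])
    (fun l => f (C (u l))) (fun l => f (C (v l))) (finProdFinEquiv (j, i))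
  rw [Equiv.symm_apply_apply] at key
  apply hinj
  rw [map_zero, ← key, map_sum]
  refine Finset.sum_congr rfl fun a _ => ?_
  rw [map_sum]
  refine Finset.sum_congr rfl fun b _ => ?_
  rw [map_mul, Matrix.map_apply]
  have h5 := NZ1_tr f (fun l => C (u l)) (fun l => C (v l)) a b
  rw [← h5]

end MPadcOA
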