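import Pool.Agent.Lib.MP_adc574_ag_OA.N_P1
import Pool.Agent.Lib.MP_adc574_ag_OA.N_V3
import Pool.Agent.Lib.MP_adc574_ag_OA.N_V4
import Pool.Agent.Lib.MP_adc574_ag_OA.N_C5
import Pool.Agent.Lib.MP_adc574_ag_OA.N_Z0
import Pool.Agent.Lib.MP_adc574_ag_OA.N_Z1
import Pool.Agent.Lib.MP_adc574_ag_OA.N_Z2

/-! # Block N: the assembly -/

set_option autoImplicit false

namespace MPadcOA

open Polynomial Matrix MPadcGM

theorem nv_ult {k : ℕ → Type} [∀ n, Field (k n)] {g m A c : ℕ} (hg : 0 < g) (p : ℕ → ℕ) [∀ n, CharP (k n) (p n)]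
    (hpr : ∀ n, (p n).Prime) (hp : ∀ n, n ≤ p n) (D : ∀ n, Dat g (k n)) (hD : ∀ n, (D n).Ok (p n) c)
    (Φ : ∀ n, Kx g m → (k n)[X]) (hA : ∀ n s, (Φ n s).natDegree ≤ A) (α : ∀ n, k n) (hα : ∀ n, (D n).Δ.eval (α n) ≠ 0)
    (hdvd : ∀ n, (X - C (α n)) ^ p n ∣ ev (D n).U (Φ n)) : ∃ n, Van (Φ n) := by
  have : CharZero (LL k) := charZero_LL p hp
  obtain ⟨Δ', -, hΔ⟩ := exists_rp (k := k) (fun n => (D n).Δ) (2 * g) (Filter.Eventually.of_forall fun n => deg_Δ (D n))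
  obtain ⟨G', hG⟩ := exists_mr (fun n => (D n).G) c fun n => (hD n).degG
  have hs : G' * JJ g (LL k)[X] + JJ g (LL k)[X] * G'ᵀ = 0 := symp_lift (fun n => (D n).G) (fun n => (hD n).symp) G' hG
  have hex : ∀ s, ∃ P : (LL k)[X], P.natDegree ≤ A ∧ ∀ᶠ n in HF, rp P n = Φ n s := fun s =>
    exists_rp (fun n => Φ n s) A (Filter.Eventually.of_forall fun n => hA n s)
  choose Φ' _ hΦ' using hex
  have hΦ : ∀ᶠ n in HF, (fun s => rp (Φ' s) n) = Φ n := by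
    filter_upwards [Filter.eventually_all.2 hΦ'] with n hn
    exact funext hn
  obtain ⟨r, s, P, Q, hQP, hPQ, hW⟩ := adapted (WS Δ' G' Φ') fun d hd x hx => WS_sat d hd x hx
  have hc := c_step p hpr hp hg D hD Δ' G' hΔ hG (WS Δ' G' Φ') (fun x hx => WS_opD hs hx) P Q hQP hPQ hW
  have hsp := sp_all p hp D hD P Q hPQ hc
  have hall := all_van (WS Δ' G' Φ') (fun d hd x hx => WS_sat d hd x hx) (fun x hx => WS_van hx)
    (fun u v x hx => stab (WS Δ' G' Φ') P Q hPQ hW u v (fun j i => hsp u v j i) x hx) (cl α) (Ua D α) (iso_Ua p D hD α)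
    (li_Ua p D hD α hα)
    (fun x hx => ev_Ua p hp D hD α x (vanish_ord p D hD Φ α hα hdvd Δ' G' Φ' hΔ hG hΦ x hx))
  have hv : ∀ᶠ n in HF, Van fun s => rp (Φ' s) n := rp_van (hall Φ' WS_self)
  obtain ⟨n, h1, h2⟩ := (hv.and hΦ).exists
  exact ⟨n, h2 ▸ h1⟩

theorem nv (g m A c : ℕ) (hg : 0 < g) : ∃ p₀ : ℕ, ∀ p : ℕ, p.Prime → p₀ ≤ p →
    ∀ (k : Type) [Field k] [CharP k p] (D : Dat g k), D.Ok p c →
    ∀ Φ : Kx g m → k[X], (∀ s, (Φ s).natDegree ≤ A) → ∀ α : k, D.Δ.eval α ≠ 0 →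
      (X - C α) ^ p ∣ ev D.U Φ → Van Φ := by
  by_contra hcon
  push Not at hcon
  choose p hpr hp k ik ic D hD Φ hA α hα hdvd hnv using hcon
  obtain ⟨n, hn⟩ := @nv_ult k ik g m A c hg p ic hpr hp D hD Φ hA α hα hdvd
  exact hnv n hn

end MPadcOA
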