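import Pool.Agent.Lib.MP_adc574_ag_OA.Act
import Pool.Agent.Lib.MP_adc574_ag_OA.N_Z

/-!
# Theorem A (adc574), block N: the non-vanishing theorem

The theorem `MPadcOA.nv` is proved in `N_Z.lean`.
-/
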