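import Pool.Agent.Lib.MP_adc574_ag_OA.Dim

/-!
# Theorem A (adc574), leaf S4: the form `mulz φ`

`ev_mulz`: `ev U (mulz φ)` is the sum over the multi-indices `s` of length `m + g`; by the bijection `Fin.appendEquiv` (or
`Fin.addCases`, `Fintype.sum_equiv`, `Fin.prod_univ_add`) it is `(∑ s', φ s' * ∏ U (s' i)) * ∑ s'', (∑ σ, sign σ * ∏ i, [s'' i = (σ i, inl i)]) * ∏ i, U (s'' i)`
and the second factor is `∑ σ, sign σ * ∏ i, U (σ i) (inl i) = (fst U).det` (`Matrix.det_apply'`); exchange the sums, only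
`s'' = fun i => (σ i, Sum.inl i)` remains.

`mulz_C`: immediate from the definition (`map_mul`, `map_sum`, `map_prod`, `apply_ite`), for every ring homomorphism.
-/

set_option autoImplicit false

namespace MPadcOA

open Polynomial Matrix

theorem ev_mulz {R : Type*} [CommRing R] {g m : ℕ} (U : Matrix (Fin g) (Nx g) R) (φ : Kx g m → R) :
    ev U (mulz φ) = (fst U).det * ev U φ := by
  obtain ⟨F, hF⟩ : ∃ F : (Fin m → Fin g × Nx g) → R, F = fun a => φ a * ∏ i, U (a i).1 (a i).2 := ⟨_, rfl⟩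
  obtain ⟨H, hH⟩ : ∃ H : (Fin g → Fin g × Nx g) → R, H = fun b =>
      (∑ σ : Equiv.Perm (Fin g), ((Equiv.Perm.sign σ : ℤ) : R) *
        ∏ i, if b i = (σ i, Sum.inl i) then 1 else 0) * ∏ i, U (b i).1 (b i).2 := ⟨_, rfl⟩
  have h1 : ev U (mulz φ) = ∑ x : (Fin m → Fin g × Nx g) × (Fin g → Fin g × Nx g), F x.1 * H x.2 := by
    unfold ev
    rw [← (Fin.appendEquiv m g).sum_comp]
    refine Finset.sum_congr rfl fun x _ => ?_
    rw [Fin.prod_univ_add, hF, hH]
    simp only [mulz, Fin.appendEquiv, Equiv.coe_fn_mk, Fin.append_left, Fin.append_right]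
    ring
  have h2 : ∑ b : Fin g → Fin g × Nx g, H b = (fst U).det := by
    rw [hH, Matrix.det_apply']
    simp only [Finset.sum_mul]
    rw [Finset.sum_comm]
    refine Finset.sum_congr rfl fun σ _ => ?_
    have h3 : ∀ b : Fin g → Fin g × Nx g, ((Equiv.Perm.sign σ : ℤ) : R) *
        (∏ i, if b i = (σ i, Sum.inl i) then 1 else 0) * ∏ i, U (b i).1 (b i).2 =
        ((Equiv.Perm.sign σ : ℤ) : R) * ∏ i, ((if b i = (σ i, Sum.inl i) then 1 else 0) * U (b i).1 (b i).2) := by
      intro b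
      rw [Finset.prod_mul_distrib, mul_assoc]
    rw [Finset.sum_congr rfl fun b _ => h3 b, ← Finset.mul_sum]
    congr 1
    have h4 := Finset.prod_univ_sum (fun _ : Fin g => (Finset.univ : Finset (Fin g × Nx g)))
      (fun (i : Fin g) (x : Fin g × Nx g) => (if x = (σ i, Sum.inl i) then (1 : R) else 0) * U x.1 x.2)
    rw [Fintype.piFinset_univ] at h4
    rw [← h4]
    refine Finset.prod_congr rfl fun i _ => ?_
    rw [Finset.sum_eq_single (σ i, Sum.inl i)]
    · rw [if_pos rfl, one_mul]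
      rfl
    · intro b _ hb
      rw [if_neg hb, zero_mul]
    · intro hb
      exact absurd (Finset.mem_univ _) hb
  have h5 : ∑ a : Fin m → Fin g × Nx g, F a = ev U φ := by
    rw [hF]
    rfl
  rw [h1, Fintype.sum_prod_type, ← h2, ← h5, mul_comm]
  exact (Finset.sum_mul_sum Finset.univ Finset.univ F H).symm

theorem mulz_map {R S : Type*} [CommRing R] [CommRing S] {g m : ℕ} (f : R →+* S) (φ : Kx g m → R)
    (s : Kx g (m + g)) : f (mulz φ s) = mulz (fun s => f (φ s)) s := by
  simp only [mulz, map_mul, map_sum, map_prod, map_intCast, apply_ite f, map_one, map_zero]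

end MPadcOA
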