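import Pool.Agent.Lib.MP_adc574_ag_OA.S4

/-!
# Theorem A (adc574), leaf S5: the subspace `ZZ`

`det_genA_ne`: the determinant of the generic matrix is not zero: the homomorphism `X (inl (i, j)) ↦ if i = j then 1 else 0`,
`X (inr _) ↦ 0` maps it to `det 1 = 1` (`RingHom.map_det`); or `Matrix.det_mvPolynomialX_ne_zero` after a renaming.
`fst_genU`: `rfl` / `Matrix.fromCols_apply_inl`.
`ZZ_le`: `det a * evg φ = evg (mulz φ)` by `ev_mulz`, `mulz_map`.
`finrank_ZZ`: multiplication by `det a ≠ 0` is injective on the domain `GenR g k` (`LinearEquiv.finrank_eq`, `Submodule.equivMapOfInjective`).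
`sdim_zero`: for `m = 0` there is one multi-index and `evg φ = C (φ _)`: the range is the line of the constants.
-/

set_option autoImplicit false

namespace MPadcOA

open Polynomial Matrix

theorem fst_genU (g : ℕ) (R : Type*) [CommRing R] : fst (genU g R) = genA g R := by
  rfl

theorem det_genA_ne (g : ℕ) (R : Type*) [CommRing R] [Nontrivial R] : (genA g R).det ≠ 0 := by
  intro h
  have h1 := congrArg (MvPolynomial.eval (fun v : (Fin g × Fin g) ⊕ Sym2 (Fin g) =>
    Sum.elim (fun q : Fin g × Fin g => if q.1 = q.2 then (1 : R) else 0) (fun _ => 0) v)) h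
  rw [RingHom.map_det, map_zero] at h1
  have h2 : (MvPolynomial.eval (fun v : (Fin g × Fin g) ⊕ Sym2 (Fin g) =>
      Sum.elim (fun q : Fin g × Fin g => if q.1 = q.2 then (1 : R) else 0) (fun _ => 0) v)).mapMatrix
      (genA g R) = 1 := by
    ext i j
    rw [RingHom.mapMatrix_apply, Matrix.map_apply, genA, MvPolynomial.eval_X, Sum.elim_inl, Matrix.one_apply]
  rw [h2, Matrix.det_one] at h1
  exact one_ne_zero h1

theorem ZZ_le (g m : ℕ) (k : Type*) [Field k] : ZZ g m k ≤ SS g (m + g) k := by
  rintro _ ⟨_, ⟨φ, rfl⟩, rfl⟩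
  refine ⟨mulz φ, ?_⟩
  have h1 : (fun s => (MvPolynomial.C (mulz φ s) : GenR g k)) = mulz fun s => MvPolynomial.C (φ s) := by
    funext s
    exact mulz_map MvPolynomial.C φ s
  rw [evg_apply, h1, ev_mulz, fst_genU]
  rfl

theorem finrank_ZZ (g m : ℕ) (k : Type*) [Field k] : Module.finrank k (ZZ g m k) = sdim g m k := by
  have hinj : Function.Injective (LinearMap.mulLeft k (genA g k).det) := by
    intro x y h
    exact mul_left_cancel₀ (det_genA_ne g k) h
  exact (Submodule.equivMapOfInjective _ hinj (SS g m k)).finrank_eq.symm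

theorem sdim_zero (g : ℕ) (k : Type*) [Field k] : sdim g 0 k = 1 := by
  have h1 : ∀ φ : Kx g 0 → k, evg g 0 k φ = φ default • (1 : GenR g k) := by
    intro φ
    rw [evg_apply, ev, Fintype.sum_unique, Finset.univ_eq_empty, Finset.prod_empty, mul_one,
      MvPolynomial.smul_eq_C_mul, mul_one]
  have h2 : SS g 0 k = Submodule.span k {(1 : GenR g k)} := by
    apply le_antisymm
    · rintro _ ⟨φ, rfl⟩
      rw [h1]
      exact Submodule.smul_mem _ _ (Submodule.mem_span_singleton_self _)
    · rw [Submodule.span_singleton_le_iff_mem]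
      refine ⟨fun _ => 1, ?_⟩
      rw [h1, one_smul]
  rw [sdim, h2]
  exact finrank_span_singleton one_ne_zero

theorem sdim_le_succ (g m : ℕ) (k : Type*) [Field k] : sdim g m k ≤ sdim g (m + g) k := by
  have : Module.Finite k (SS g (m + g) k) := by
    unfold SS
    infer_instance
  rw [← finrank_ZZ]
  exact Submodule.finrank_mono (ZZ_le g m k)

end MPadcOA
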