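import Pool.Agent.Lib.MP_adc574_ag_OA.S5

/-!
# Theorem A (adc574), leaf S9: specialisation of the generic isotropic frame

`ev_of_evg_eq_zero`: let `K` be the fraction field of `R` and `a`, `b` the two blocks of `U` over `K` (`a = fst U`, `b` the last `g` columns),
`a` is invertible. `U * JJ * Uᵀ = a bᵀ - b aᵀ = 0` (`Matrix.fromBlocks` multiplication, or entrywise), so `y = a⁻¹ b` is symmetric:
multiply `a bᵀ = b aᵀ` by `a⁻¹` from the left and by `(a⁻¹)ᵀ` from the right. So there is a ring homomorphism `GenR g k → K` over `k` with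
`X (inl (i, j)) ↦ a i j`, `X (inr s(i, j)) ↦ y i j` (`MvPolynomial.aeval` with `Sum.elim`, `Sym2.lift`); it maps `genU` to `(a | a y) = (a | b) = U`
and `evg φ` to `ev U φ` over `K`; `R → K` is injective.

`ev_of_mem_ZZ`: `evg φ = det a * evg ψ = evg (mulz ψ)`, so `evg (φ - mulz ψ) = 0` and `ev U φ = ev U (mulz ψ) = det (fst U) * ev U ψ`.
-/

set_option autoImplicit false

namespace MPadcOA

open Polynomial Matrix

variable {k R : Type*} [Field k] [CommRing R] [IsDomain R] [Algebra k R] {g m : ℕ}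

omit [Field k] [IsDomain R] [Algebra k R] in
private theorem S9_sym (U : Matrix (Fin g) (Nx g) R) (hU : U * JJ g R * Uᵀ = 0) :
    fst U * (Matrix.of fun i j => U i (Sum.inr j))ᵀ =
      (Matrix.of fun i j => U i (Sum.inr j)) * (fst U)ᵀ := by
  have hb : U = Matrix.fromCols (fst U) (Matrix.of fun i j => U i (Sum.inr j)) := by
    ext i j
    rcases j with j | j <;> rfl
  generalize fst U = a at hb ⊢
  generalize (Matrix.of fun i j => U i (Sum.inr j)) = b at hb ⊢
  rw [hb, JJ, Matrix.fromCols_mul_fromBlocks, Matrix.transpose_fromCols,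
    Matrix.fromCols_mul_fromRows] at hU
  simp only [mul_zero, mul_one, mul_neg, zero_add, add_zero, neg_mul] at hU
  exact (neg_add_eq_zero.mp hU).symm

theorem ev_of_evg_eq_zero (U : Matrix (Fin g) (Nx g) R) (hU : U * JJ g R * Uᵀ = 0)
    (hd : (fst U).det ≠ 0) (φ : Kx g m → k) (h : evg g m k φ = 0) :
    ev U (fun s => algebraMap k R (φ s)) = 0 := by
  have hinj : Function.Injective (algebraMap R (FractionRing R)) := IsFractionRing.injective R _
  have hs := S9_sym U hU
  obtain ⟨b0, hb0⟩ : ∃ b0 : Matrix (Fin g) (Fin g) R,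
      b0 = Matrix.of fun i j => U i (Sum.inr j) := ⟨_, rfl⟩
  rw [← hb0] at hs
  obtain ⟨a, ha⟩ : ∃ a : Matrix (Fin g) (Fin g) (FractionRing R),
      a = (fst U).map (algebraMap R (FractionRing R)) := ⟨_, rfl⟩
  obtain ⟨b, hb⟩ : ∃ b : Matrix (Fin g) (Fin g) (FractionRing R),
      b = b0.map (algebraMap R (FractionRing R)) := ⟨_, rfl⟩
  have hab : a * bᵀ = b * aᵀ := by
    have h1 := congrArg (fun Z : Matrix (Fin g) (Fin g) R =>
      Z.map (algebraMap R (FractionRing R))) hs
    simp only [Matrix.map_mul, Matrix.transpose_map] at h1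
    rw [ha, hb]
    exact h1
  have hda : IsUnit a.det := by
    refine isUnit_iff_ne_zero.mpr fun h0 => hd ?_
    apply hinj
    rw [map_zero, ← h0, ha]
    exact RingHom.map_det _ _
  have hsym : (a⁻¹ * b)ᵀ = a⁻¹ * b := by
    have hda' : IsUnit aᵀ.det := by rwa [Matrix.det_transpose]
    rw [Matrix.transpose_mul, Matrix.transpose_nonsing_inv]
    have h1 : bᵀ = a⁻¹ * b * aᵀ := by
      rw [Matrix.mul_assoc, ← hab, ← Matrix.mul_assoc, Matrix.nonsing_inv_mul _ hda,
        Matrix.one_mul]
    rw [h1, Matrix.mul_assoc, Matrix.mul_nonsing_inv _ hda', Matrix.mul_one]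
  have hsym' : ∀ i j, (a⁻¹ * b) i j = (a⁻¹ * b) j i := fun i j =>
    (congrFun (congrFun hsym i) j).symm
  have hay : a * (a⁻¹ * b) = b := by
    rw [← Matrix.mul_assoc, Matrix.mul_nonsing_inv _ hda, Matrix.one_mul]
  generalize a⁻¹ * b = y at hsym' hay
  let F : GenR g k →+* FractionRing R :=
    MvPolynomial.eval₂Hom ((algebraMap R (FractionRing R)).comp (algebraMap k R))
      (Sum.elim (fun ij => a ij.1 ij.2) (Sym2.lift ⟨fun i j => y i j, hsym'⟩))
  have hFA : ∀ i j, F (genA g k i j) = a i j := by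
    intro i j
    show MvPolynomial.eval₂Hom _ _ (MvPolynomial.X _) = _
    rw [MvPolynomial.coe_eval₂Hom, MvPolynomial.eval₂_X]
    rfl
  have hFY : ∀ i j, F (genY g k i j) = y i j := by
    intro i j
    show MvPolynomial.eval₂Hom _ _ (MvPolynomial.X _) = _
    rw [MvPolynomial.coe_eval₂Hom, MvPolynomial.eval₂_X]
    rfl
  have hFU : ∀ i l, F (genU g k i l) = algebraMap R (FractionRing R) (U i l) := by
    intro i l
    rcases l with l | l
    · show F (genA g k i l) = _
      rw [hFA, ha]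
      rfl
    · show F ((genA g k * genY g k) i l) = _
      rw [Matrix.mul_apply, map_sum]
      have h1 : b i l = algebraMap R (FractionRing R) (U i (Sum.inr l)) := by
        rw [hb, hb0]
        rfl
      rw [← h1, ← hay, Matrix.mul_apply]
      refine Finset.sum_congr rfl fun j _ => ?_
      rw [map_mul, hFA, hFY]
  apply hinj
  rw [map_zero]
  have h2 := congrArg F h
  rw [map_zero, evg_apply] at h2
  rw [← h2]
  unfold ev
  rw [map_sum, map_sum]
  refine Finset.sum_congr rfl fun s _ => ?_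
  rw [map_mul, map_mul, map_prod, map_prod]
  congr 1
  · show _ = MvPolynomial.eval₂Hom _ _ (MvPolynomial.C _)
    rw [MvPolynomial.coe_eval₂Hom, MvPolynomial.eval₂_C]
    rfl
  · exact Finset.prod_congr rfl fun i _ => (hFU _ _).symm

theorem ev_of_mem_ZZ (U : Matrix (Fin g) (Nx g) R) (hU : U * JJ g R * Uᵀ = 0)
    (hd : (fst U).det ≠ 0) (φ : Kx g (m + g) → k) (h : evg g (m + g) k φ ∈ ZZ g m k) :
    ∃ r : R, ev U (fun s => algebraMap k R (φ s)) = (fst U).det * r := by
  obtain ⟨x, ⟨ψ, hψ⟩, hx⟩ := Submodule.mem_map.mp h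
  rw [LinearMap.mulLeft_apply] at hx
  have h1 : evg g (m + g) k (mulz ψ) = (genA g k).det * evg g m k ψ := by
    rw [evg_apply, evg_apply]
    have h2 : (fun s => (MvPolynomial.C (mulz ψ s) : GenR g k)) =
        mulz fun s => (MvPolynomial.C (ψ s) : GenR g k) := by
      funext s
      exact mulz_map MvPolynomial.C ψ s
    rw [h2, ev_mulz, fst_genU]
  have h3 : evg g (m + g) k (φ - mulz ψ) = 0 := by
    rw [map_sub, h1, hψ, hx, sub_self]
  have h4 := ev_of_evg_eq_zero U hU hd (φ - mulz ψ) h3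
  have h5 : ev U (fun s => algebraMap k R ((φ - mulz ψ) s)) =
      ev U (fun s => algebraMap k R (φ s)) - ev U (fun s => algebraMap k R (mulz ψ s)) := by
    unfold ev
    rw [← Finset.sum_sub_distrib]
    refine Finset.sum_congr rfl fun s _ => ?_
    show algebraMap k R (φ s - mulz ψ s) * _ = algebraMap k R (φ s) * _ -
      algebraMap k R (mulz ψ s) * _
    rw [map_sub, sub_mul]
  rw [h5, sub_eq_zero] at h4
  have h6 : (fun s => algebraMap k R (mulz ψ s)) = mulz fun s => algebraMap k R (ψ s) := by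
    funext s
    exact mulz_map (algebraMap k R) ψ s
  refine ⟨ev U fun s => algebraMap k R (ψ s), ?_⟩
  rw [h4, h6, ev_mulz]

end MPadcOA
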