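import Pool.Agent.Lib.MP_adc574_ag_OA.N_Defs

/-!
# Block V (effective non-vanishing): definitions

`Pk D m r s D₁ D₂ Φ d Lm`: the forms `Φ 0, …, Φ r`, `Φ (b + 1) = opD (Φ b)`, have degree at most `D₂`; `Lm` is a matrix of polynomials of degree at most
`D₁` such that `Lm *ᵥ x = 0` iff `x` is modulo the forms `Van` a linear combination of `Φ 0, …, Φ (r - 1)` (with the denominator `d`), and `Φ r` is one of
these `x`: the `x` with `Lm *ᵥ x = 0` are the smallest invariant space of the differential system which contains `Φ 0` and all forms `Van`.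
`SmR d x`: the rational function `x` is a quotient of polynomials of degree at most `d`. `SmO k δ x`: the element `x` of the ultraproduct of the `k n (X)` has a
representative whose component at `n` is a quotient of polynomials of degree at most `c * δ n`, `c` a constant.
-/

set_option autoImplicit false

namespace MPadcOA

open Polynomial Matrix MPadcGM

/-- The action of `w²` on the forms. -/
noncomputable def KW {g : ℕ} {k : Type} [Field k] (D : Dat g k) (m : ℕ) : Matrix (Kx g m) (Kx g m) k[X] :=
  KS (vecMulVec (JJ g k[X] *ᵥ D.w) D.w)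

/-- The package of the small equations. -/
structure Pk {g : ℕ} {k : Type} [Field k] (D : Dat g k) (m r s D₁ D₂ : ℕ) (Φ : ℕ → Kx g m → k[X]) (d : k[X])
    (Lm : Matrix (Fin s) (Kx g m) k[X]) : Prop where
  /-- the denominator -/
  d_ne : d ≠ 0
  /-- its degree -/
  deg_d : d.natDegree ≤ D₁
  /-- the degree of the equations -/
  deg_L : ∀ i t, (Lm i t).natDegree ≤ D₁
  /-- the degree of the forms -/
  deg_Φ : ∀ b ≤ r, ∀ t, (Φ b t).natDegree ≤ D₂
  /-- the differential operator -/
  step : ∀ b, Φ (b + 1) = opD D.Δ D.G (Φ b)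
  /-- the equations hold for the forms -/
  L_Φ : ∀ b ≤ r, Lm *ᵥ Φ b = 0
  /-- the equations hold for the forms which vanish -/
  L_van : ∀ (R : Type) [CommRing R] (f : k[X] →+* R) (x : Kx g m → R), Van x → Lm.map f *ᵥ x = 0
  /-- the solutions -/
  L_rep : ∀ (R : Type) [CommRing R] (f : k[X] →+* R) (x : Kx g m → R), Lm.map f *ᵥ x = 0 →
    ∃ (c : Fin r → R) (v : Kx g m → R), Van v ∧ f d • x = (∑ b : Fin r, c b • fun t => f (Φ b t)) + v

/-- A quotient of polynomials of degree at most `d`. -/
def SmR {k : Type} [Field k] (d : ℕ) (x : RatFunc k) : Prop :=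
  ∃ a b : k[X], b ≠ 0 ∧ a.natDegree ≤ d ∧ b.natDegree ≤ d ∧
    algebraMap k[X] (RatFunc k) b * x = algebraMap k[X] (RatFunc k) a

/-- The small elements of the ultraproduct. -/
def SmO (k : ℕ → Type) [∀ n, Field (k n)] (δ : ℕ → ℕ) (x : OO k) : Prop :=
  ∃ (c : ℕ) (y : ∀ n, RatFunc (k n)), (∀ n, SmR (c * δ n) (y n)) ∧ clO y = x

end MPadcOA
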