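import Pool.Agent.Lib.MP_adc574_ag_OA.N_T4

/-! LEAF V1: the symplectic Lie algebra over a field in which `2` is invertible -/

set_option autoImplicit false

namespace MPadcOA

open Matrix

private theorem V1_vm {R : Type*} [CommRing R] {g : ℕ} (a b : Nx g → R) (M : Matrix (Nx g) (Nx g) R) :
    vecMulVec a b * M = vecMulVec a (Mᵀ *ᵥ b) := by
  ext i l
  rw [Matrix.mul_apply, vecMulVec_apply, Matrix.mulVec, dotProduct, Finset.mul_sum]
  refine Finset.sum_congr rfl fun j _ => ?_
  rw [vecMulVec_apply, Matrix.transpose_apply]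
  ring

private theorem V1_mv {R : Type*} [CommRing R] {g : ℕ} (a b : Nx g → R) (M : Matrix (Nx g) (Nx g) R) :
    M * vecMulVec a b = vecMulVec (M *ᵥ a) b := by
  ext i l
  rw [Matrix.mul_apply, vecMulVec_apply, Matrix.mulVec, dotProduct, Finset.sum_mul]
  refine Finset.sum_congr rfl fun j _ => ?_
  rw [vecMulVec_apply]
  ring

private theorem V1_neg {R : Type*} [CommRing R] {g : ℕ} (a b : Nx g → R) :
    vecMulVec a (-b) = - vecMulVec a b := by
  ext i l
  rw [vecMulVec_apply, Matrix.neg_apply, vecMulVec_apply, Pi.neg_apply, mul_neg]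

private theorem V1_tp {R : Type*} [CommRing R] {g : ℕ} (a b : Nx g → R) :
    (vecMulVec a b)ᵀ = vecMulVec b a := by
  ext i l
  rw [Matrix.transpose_apply, vecMulVec_apply, vecMulVec_apply, mul_comm]

private theorem V1_sum {F : Type} [Field F] {g : ℕ} (T : Matrix (Nx g) (Nx g) F) :
    JJ g F * T = ∑ i, ∑ j, T i j • vecMulVec (JJ g F *ᵥ (Pi.single i (1 : F))) (Pi.single j (1 : F)) := by
  have hT : T = ∑ i, ∑ j, T i j • vecMulVec (Pi.single i (1 : F)) (Pi.single j (1 : F)) := by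
    ext a b
    rw [Matrix.sum_apply]
    simp_rw [Matrix.sum_apply, Matrix.smul_apply, vecMulVec_apply, smul_eq_mul]
    rw [Finset.sum_eq_single a, Finset.sum_eq_single b]
    · simp
    · intro j _ hj
      rw [Pi.single_eq_of_ne (Ne.symm hj), mul_zero, mul_zero]
    · intro h
      exact absurd (Finset.mem_univ _) h
    · intro i _ hi
      refine Finset.sum_eq_zero fun j _ => ?_
      rw [Pi.single_eq_of_ne (Ne.symm hi), zero_mul, mul_zero]
    · intro h
      exact absurd (Finset.mem_univ _) h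
  conv_lhs => rw [hT]
  rw [Finset.mul_sum]
  refine Finset.sum_congr rfl fun i _ => ?_
  rw [Finset.mul_sum]
  refine Finset.sum_congr rfl fun j _ => ?_
  rw [Matrix.mul_smul, V1_mv]

/-- Proof. `T := - J X` is symmetric (multiply `X J + J Xᵀ = 0` by `J` on both sides, `J² = -1`, `Jᵀ = -J`) and `X = J T`. `J T = ∑ i j, T i j (J e_i) e_jᵀ`
`= 2⁻¹ ∑ i j, T i j • tr e_i e_j` (`e_i = Pi.single i 1`, symmetrise the sum). -/
theorem symp_mem_e {F : Type} [Field F] (h2 : (2 : F) ≠ 0) {g : ℕ} (M : Matrix (Nx g) (Nx g) F) (hM : M * JJ g F + JJ g F * Mᵀ = 0) :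
    M ∈ Submodule.span F (Set.range fun uv : (Nx g → F) × (Nx g → F) => tr uv.1 uv.2) := by
  have hJJ := JJ_mul_JJ g F
  have h1 : JJ g F * M * JJ g F = Mᵀ := by
    have h2 : JJ g F * (M * JJ g F + JJ g F * Mᵀ) = 0 := by rw [hM, mul_zero]
    rw [mul_add, ← mul_assoc, ← mul_assoc, hJJ, neg_mul, one_mul] at h2
    exact add_neg_eq_zero.mp h2
  have hMT : JJ g F * (-(JJ g F * M)) = M := by
    rw [mul_neg, ← mul_assoc, hJJ, neg_mul, one_mul, neg_neg]
  have hsym : ∀ i j, (-(JJ g F * M)) j i = (-(JJ g F * M)) i j := by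
    intro i j
    have h3 : (-(JJ g F * M))ᵀ = -(JJ g F * M) := by
      rw [Matrix.transpose_neg, Matrix.transpose_mul, JJ_transpose, ← h1, mul_neg, mul_assoc, hJJ, neg_neg, mul_neg,
        mul_one]
    exact congrFun (congrFun h3 i) j
  generalize hT : -(JJ g F * M) = T at hMT hsym
  have h4 : (2 : F) • M = ∑ i, ∑ j, T i j • tr (Pi.single i (1 : F)) (Pi.single j (1 : F)) := by
    have h5 := V1_sum T
    rw [hMT] at h5
    have h6 : M = ∑ i, ∑ j, T i j • vecMulVec (JJ g F *ᵥ (Pi.single j (1 : F))) (Pi.single i (1 : F)) := by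
      rw [Finset.sum_comm]
      conv_lhs => rw [h5]
      refine Finset.sum_congr rfl fun i _ => Finset.sum_congr rfl fun j _ => ?_
      rw [hsym]
    rw [two_smul]
    conv_lhs => rw [h5]
    rw [← h5]
    conv_lhs =>
      congr
      · rw [h5]
      · rw [h6]
    rw [← Finset.sum_add_distrib]
    refine Finset.sum_congr rfl fun i _ => ?_
    rw [← Finset.sum_add_distrib]
    refine Finset.sum_congr rfl fun j _ => ?_
    unfold tr
    rw [smul_add]
  have h7 : M = (2 : F)⁻¹ • ((2 : F) • M) := by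
    rw [smul_smul, inv_mul_cancel₀ h2, one_smul]
  rw [h7, h4]
  refine Submodule.smul_mem _ _ (Submodule.sum_mem _ fun i _ => Submodule.sum_mem _ fun j _ =>
    Submodule.smul_mem _ _ (Submodule.subset_span ⟨(Pi.single i 1, Pi.single j 1), rfl⟩))

/-- (Polarization.) Proof. `tr u v = vecMulVec (J (u + v)) (u + v) - vecMulVec (J u) u - vecMulVec (J v) v`, and `symp_mem`. -/
theorem symp_mem_sq_e {F : Type} [Field F] (h2 : (2 : F) ≠ 0) {g : ℕ} (M : Matrix (Nx g) (Nx g) F) (hM : M * JJ g F + JJ g F * Mᵀ = 0) :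
    M ∈ Submodule.span F (Set.range fun v : Nx g → F => vecMulVec (JJ g F *ᵥ v) v) := by
  refine (Submodule.span_le.mpr ?_) (symp_mem_e h2 M hM)
  rintro _ ⟨⟨u, v⟩, rfl⟩
  have h : tr u v = vecMulVec (JJ g F *ᵥ (u + v)) (u + v) - vecMulVec (JJ g F *ᵥ u) u - vecMulVec (JJ g F *ᵥ v) v := by
    unfold tr
    rw [Matrix.mulVec_add]
    ext i l
    simp only [Matrix.add_apply, Matrix.sub_apply, vecMulVec_apply, Pi.add_apply]
    ring
  change tr u v ∈ Submodule.span F (Set.range fun v : Nx g → F => vecMulVec (JJ g F *ᵥ v) v)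
  rw [h]
  exact Submodule.sub_mem _ (Submodule.sub_mem _ (Submodule.subset_span ⟨u + v, rfl⟩)
    (Submodule.subset_span ⟨u, rfl⟩)) (Submodule.subset_span ⟨v, rfl⟩)

end MPadcOA
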