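import Pool.Agent.Lib.MP_adc574_ag_OA.V0
import Pool.Agent.Lib.MP_adc574_ag_OA.N_K2

/-! LEAF V10: the endomorphism `w²` -/

set_option autoImplicit false

namespace MPadcOA

open Matrix Polynomial

private theorem V10_JJ {R S : Type} [CommRing R] [CommRing S] (φ : R →+* S) (g : ℕ) :
    (JJ g R).map φ = JJ g S := by
  ext i j
  unfold JJ
  rw [Matrix.map_apply]
  rcases i with i | i <;> rcases j with j | j <;> by_cases h : i = j <;> simp [h]

private theorem V10_Jv {R S : Type} [CommRing R] [CommRing S] (φ : R →+* S) {g : ℕ} (v : Nx g → R) :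
    JJ g S *ᵥ (fun n => φ (v n)) = fun l => φ ((JJ g R *ᵥ v) l) := by
  rw [← V10_JJ φ g]
  funext i
  exact (RingHom.map_mulVec φ (JJ g R) v i).symm

private theorem V10_J {k : Type} [Field k] (g : ℕ) (l n : Nx g) : JJ g k[X] l n = C (JJ g k l n) := by
  rw [← V10_JJ (C : k →+* k[X]) g]
  rfl

private theorem V10_dJ {k : Type} [Field k] {g : ℕ} (w : Nx g → k[X]) (l : Nx g) :
    derivative ((JJ g k[X] *ᵥ w) l) = (JJ g k[X] *ᵥ fun n => derivative (w n)) l := by
  show derivative (∑ n, JJ g k[X] l n * w n) = ∑ n, JJ g k[X] l n * derivative (w n)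
  rw [derivative_sum]
  refine Finset.sum_congr rfl fun n _ => ?_
  rw [V10_J, derivative_mul, derivative_C, zero_mul, zero_add]

private theorem V10_R {g p c : ℕ} {k : Type} [Field k] (D : Dat g k) (hD : D.Ok p c) :
    D.Δ • (vecMulVec (JJ g k[X] *ᵥ D.w) D.w).map derivative =
      vecMulVec (JJ g k[X] *ᵥ D.w) D.w * D.G - D.G * vecMulVec (JJ g k[X] *ᵥ D.w) D.w := by
  have h1 : ∀ l, D.Δ * (JJ g k[X] *ᵥ fun n => derivative (D.w n)) l = -(D.G *ᵥ (JJ g k[X] *ᵥ D.w)) l := by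
    intro l
    have h2 : (fun n => D.Δ * derivative (D.w n)) = D.Gᵀ *ᵥ D.w := by
      funext n
      rw [hD.horw n, Matrix.mulVec_transpose]
    have h3 : D.Δ * (JJ g k[X] *ᵥ fun n => derivative (D.w n)) l =
        (JJ g k[X] *ᵥ fun n => D.Δ * derivative (D.w n)) l := by
      show D.Δ * ∑ n, JJ g k[X] l n * derivative (D.w n) = ∑ n, JJ g k[X] l n * (D.Δ * derivative (D.w n))
      rw [Finset.mul_sum]
      exact Finset.sum_congr rfl fun n _ => by ring
    rw [h3, h2, Matrix.mulVec_mulVec, Matrix.mulVec_mulVec, eq_neg_of_add_eq_zero_right hD.symp,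
      Matrix.neg_mulVec]
    rfl
  rw [Matrix.vecMulVec_mul, Matrix.mul_vecMulVec]
  ext1 l l'
  rw [Matrix.smul_apply, Matrix.map_apply, Matrix.sub_apply, Matrix.vecMulVec_apply, Matrix.vecMulVec_apply,
    Matrix.vecMulVec_apply, derivative_mul, V10_dJ, smul_eq_mul, ← hD.horw l']
  have h4 := h1 l
  linear_combination (D.w l') * h4

/-- (`KW D m = KS (vecMulVec (JJ *ᵥ w) w)` by definition.) Proof. Let `R₀ := vecMulVec (JJ *ᵥ w) w`. First `Δ • R₀.map derivative = R₀ * G - G * R₀`: by `horw`, `Δ * derivative (w l) = (w ᵥ* G) l = (Gᵀ *ᵥ w) l`, so `Δ * derivative ((J w) l) = (J Gᵀ w) l = - (G J w) l` (`symp`), and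
the product rule: `Δ * derivative ((J w) l * w l') = - (G J w) l * w l' + (J w) l * (w ᵥ* G) l'`, i.e. `- (G * R₀) l l' + (R₀ * G) l l'`. Then `KS` (`KS_derivative`, `KS_smul`, `KS_comm`):
`Δ • (KS R₀).map derivative = KS (R₀ * G - G * R₀) = KS R₀ * KS G - KS G * KS R₀`. -/
theorem hor_w {g p c : ℕ} (m : ℕ) {k : Type} [Field k] (D : Dat g k) (hD : D.Ok p c) (i j : Kx g m) :
    D.Δ * derivative (KW D m i j) = (KW D m * (KS D.G : Matrix (Kx g m) (Kx g m) k[X]) -
      (KS D.G : Matrix (Kx g m) (Kx g m) k[X]) * KW D m) i j := by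
  have h1 : D.Δ • (KW D m).map derivative = KW D m * (KS D.G : Matrix (Kx g m) (Kx g m) k[X]) -
      (KS D.G : Matrix (Kx g m) (Kx g m) k[X]) * KW D m := by
    unfold KW
    rw [KS_derivative, ← KS_smul, V10_R D hD, KS_comm]
  rw [← h1]
  rfl

/-- Proof. `KS_map` (for `evalRingHom (D.a j)`), `hD.nil` and `KS_nil`. -/
theorem nil_G {g p c : ℕ} (m : ℕ) {k : Type} [Field k] (D : Dat g k) (hD : D.Ok p c) (j : Fin (2 * g)) :
    IsNilpotent ((KS D.G : Matrix (Kx g m) (Kx g m) k[X]).map (eval (D.a j))) := by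
  have h1 : (KS D.G : Matrix (Kx g m) (Kx g m) k[X]).map (eval (D.a j)) = KS (D.G.map (eval (D.a j))) :=
    KS_map (evalRingHom (D.a j)) D.G
  rw [h1]
  exact KS_nil _ (hD.nil j)

/-- Proof. `hD.resw j` says `(vecMulVec (JJ *ᵥ w) w).map (eval (a j)) = s • D.G.map (eval (a j))` (`JJ *ᵥ` commutes with evaluation); `KS_map`, `KS_smul`. -/
theorem res_w {g p c : ℕ} (m : ℕ) {k : Type} [Field k] (D : Dat g k) (hD : D.Ok p c) (j : Fin (2 * g)) :
    ∃ s : k, (KW D m).map (eval (D.a j)) = s • (KS D.G : Matrix (Kx g m) (Kx g m) k[X]).map (eval (D.a j)) := by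
  obtain ⟨s, hs⟩ := hD.resw j
  refine ⟨s, ?_⟩
  have h1 : (KS D.G : Matrix (Kx g m) (Kx g m) k[X]).map (eval (D.a j)) = KS (D.G.map (eval (D.a j))) :=
    KS_map (evalRingHom (D.a j)) D.G
  have h2 : (KW D m).map (eval (D.a j)) =
      KS ((vecMulVec (JJ g k[X] *ᵥ D.w) D.w).map (eval (D.a j))) :=
    KS_map (evalRingHom (D.a j)) (vecMulVec (JJ g k[X] *ᵥ D.w) D.w)
  rw [h1, h2, ← KS_smul]
  congr 1
  ext1 l l'
  rw [Matrix.map_apply, Matrix.vecMulVec_apply, Matrix.smul_apply, Matrix.map_apply, smul_eq_mul, ← hs l l',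
    eval_mul]
  have h3 : (JJ g k *ᵥ fun n => (D.w n).eval (D.a j)) l = ((JJ g k[X] *ᵥ D.w) l).eval (D.a j) :=
    congrFun (V10_Jv (evalRingHom (D.a j)) D.w) l
  rw [h3]

/-- Proof. The entries of `KS M` are sums of entries of `M` and zeros; the entries of `JJ *ᵥ w` are `± w l`, so by `degw` an entry of `vecMulVec (JJ *ᵥ w) w` has degree at most
`natDegree (w l) + natDegree (w l') ≤ (2 g - 1) p + c` (each `2 * natDegree ≤ (2 g - 1) p + c`). -/
theorem deg_w {g p c : ℕ} (m : ℕ) {k : Type} [Field k] (D : Dat g k) (hD : D.Ok p c) (i j : Kx g m) :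
    (KW D m i j).natDegree ≤ (2 * g - 1) * p + c := by
  have h0 : ∀ n, (D.w n).natDegree ≤ ((2 * g - 1) * p + c) / 2 := fun n => by
    have := hD.degw n
    omega
  have h1 : ∀ l, ((JJ g k[X] *ᵥ D.w) l).natDegree ≤ ((2 * g - 1) * p + c) / 2 := by
    intro l
    show (∑ n, JJ g k[X] l n * D.w n).natDegree ≤ _
    refine natDegree_sum_le_of_forall_le _ _ fun n _ => ?_
    rw [V10_J]
    exact (natDegree_C_mul_le _ _).trans (h0 n)
  unfold KW KS
  refine natDegree_sum_le_of_forall_le _ _ fun x _ => ?_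
  split_ifs
  · rw [Matrix.vecMulVec_apply]
    refine natDegree_mul_le.trans ?_
    have h2 := h1 (i x).2
    have h3 := h0 (j x).2
    omega
  · rw [natDegree_zero]
    exact Nat.zero_le _

end MPadcOA
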