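import Pool.Agent.Lib.MP_adc574_ag_OA.V9
import Pool.Agent.Lib.MP_adc574_ag_OA.V10
import Pool.Agent.Lib.MP_adc574_ag_OA.N_P1

/-! LEAF V11: the endomorphism `w²` maps the invariant space to itself, modulo `Δ ^ p` -/

set_option autoImplicit false

namespace MPadcOA

open Matrix Polynomial

/-- Proof. Let `𝒲` be the submodule of the `x` with `Lm *ᵥ x = 0`; it is saturated (a domain). `adapted`: `r`, `s'`, `P`, `Q` with `x ∈ 𝒲 ↔ ∀ j, (Q *ᵥ x) (inr j) = 0`. The columns `P.col (inl i)` are in `𝒲` (`Q * P = 1`), so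
by `hst` the vectors `opD Δ G (P.col (inl i))` are in `𝒲`, i.e. `(Q * (Δ • P.map derivative + KS G * P)).toBlocks₂₁ = 0`. `tri_dvd` with `B = KS D.G`, `R = KW D m` (`hor_w`, `nil_G`, `res_w`; `D.Δ` is the product):
`Δ ^ p` divides the entries of `(Q * R * P).toBlocks₂₁`. Now `x = P *ᵥ (Q *ᵥ x)`, `(Q *ᵥ x) (inr j) = 0`; and `(Lm * P) i (inl j) = 0` as the columns are in `𝒲`. So
`(Lm *ᵥ (R *ᵥ x)) i = ∑ j j', (Lm * P) i (inr j) * (Q * R * P) (inr j) (inl j') * (Q *ᵥ x) (inl j')` (insert `P * Q = 1`), a multiple of `Δ ^ p`. -/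
theorem dvd_w {g m p c s : ℕ} {k : Type} [Field k] [CharP k p] (hp : p.Prime) (D : Dat g k) (hD : D.Ok p c)
    (Lm : Matrix (Fin s) (Kx g m) k[X]) (hst : ∀ x, Lm *ᵥ x = 0 → Lm *ᵥ opD D.Δ D.G x = 0) (x : Kx g m → k[X])
    (hx : Lm *ᵥ x = 0) (i : Fin s) :
    D.Δ ^ p ∣ (Lm *ᵥ (KW D m *ᵥ x)) i := by
  classical
  obtain ⟨W, hW⟩ : ∃ W : Submodule k[X] (Kx g m → k[X]), ∀ y, y ∈ W ↔ Lm *ᵥ y = 0 :=
    ⟨LinearMap.ker (Matrix.mulVecLin Lm), fun y => by rw [LinearMap.mem_ker, Matrix.mulVecLin_apply]⟩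
  obtain ⟨r, s', P, Q, hQP, hPQ, hWQ⟩ := adapted W (by
    intro d hd y hy
    rw [hW, Matrix.mulVec_smul] at hy
    rw [hW]
    exact (smul_eq_zero.1 hy).resolve_left hd)
  have hcol : ∀ j : Fin r, Lm *ᵥ (fun n => P n (Sum.inl j)) = 0 := by
    intro j
    rw [← hW, hWQ]
    intro j'
    have h1 : (Q *ᵥ fun n => P n (Sum.inl j)) (Sum.inr j') = (Q * P) (Sum.inr j') (Sum.inl j) := by
      rw [Matrix.mul_apply]
      rfl
    rw [h1, hQP]
    exact Matrix.one_apply_ne (by simp)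
  have htri : (Q * ((∏ l, (X - C (D.a l))) • P.map derivative +
      (KS D.G : Matrix (Kx g m) (Kx g m) k[X]) * P)).toBlocks₂₁ = 0 := by
    ext1 a b
    have h1 := hst _ (hcol b)
    rw [← hW, hWQ] at h1
    have h2 := h1 a
    rw [Matrix.zero_apply]
    refine Eq.trans ?_ h2
    rfl
  have hd := tri_dvd hp D.a hD.inj (KS D.G : Matrix (Kx g m) (Kx g m) k[X]) (KW D m) (hor_w m D hD) (nil_G m D hD)
    (res_w m D hD) P Q hQP hPQ htri
  have hx2 : ∀ j : Fin s', (Q *ᵥ x) (Sum.inr j) = 0 := (hWQ x).1 ((hW x).2 hx)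
  have hLP : ∀ j : Fin r, (Lm * P) i (Sum.inl j) = 0 := by
    intro j
    have h1 := congrFun (hcol j) i
    rw [Matrix.mul_apply]
    exact h1
  have e1 : Lm *ᵥ (KW D m *ᵥ x) = (Lm * P) *ᵥ ((Q * KW D m * P) *ᵥ (Q *ᵥ x)) := by
    rw [Matrix.mulVec_mulVec, Matrix.mulVec_mulVec, Matrix.mulVec_mulVec]
    congr 1
    calc Lm * KW D m = Lm * (P * Q) * KW D m * (P * Q) := by rw [hPQ, Matrix.mul_one, Matrix.mul_one]
      _ = Lm * P * (Q * KW D m * P) * Q := by simp only [Matrix.mul_assoc]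
  rw [e1]
  change D.Δ ^ p ∣ ∑ a, (Lm * P) i a * ((Q * KW D m * P) *ᵥ (Q *ᵥ x)) a
  rw [Fintype.sum_sum_type]
  refine dvd_add (Finset.dvd_sum fun a _ => ?_) (Finset.dvd_sum fun a _ => ?_)
  · rw [hLP, zero_mul]
    exact dvd_zero _
  · refine Dvd.dvd.mul_left ?_ _
    change D.Δ ^ p ∣ ∑ b, (Q * KW D m * P) (Sum.inr a) b * (Q *ᵥ x) b
    rw [Fintype.sum_sum_type]
    refine dvd_add (Finset.dvd_sum fun b _ => ?_) (Finset.dvd_sum fun b _ => ?_)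
    · exact Dvd.dvd.mul_right (hd a b) _
    · rw [hx2, mul_zero]
      exact dvd_zero _

end MPadcOA
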