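import Pool.Agent.Lib.MP_adc574_ag_OA.V11

/-! LEAF V12: the endomorphism `w²` maps the invariant space to itself -/

set_option autoImplicit false

namespace MPadcOA

open Matrix Polynomial

private theorem V12_mulVec {n m : Type} [Fintype m] {k : Type} [Field k] (A : Matrix n m k[X]) (x : m → k[X]) (D₁ D₂ : ℕ)
    (hA : ∀ i j, (A i j).natDegree ≤ D₁) (hx : ∀ j, (x j).natDegree ≤ D₂) (i : n) :
    ((A *ᵥ x) i).natDegree ≤ D₁ + D₂ := by
  unfold Matrix.mulVec dotProduct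
  refine natDegree_sum_le_of_forall_le _ _ fun j _ => ?_
  exact natDegree_mul_le.trans (Nat.add_le_add (hA i j) (hx j))

/-- Proof. By `dvd_w` the left side (component `i`) is divisible by `Δ ^ p`, of degree `2 g p` (`Δ` is monic of degree `2 g`: `natDegree_prod_of_monic`, `Monic.natDegree_pow`); by `hL`, `hx'` and `deg_w` its degree is at most
`D₁ + ((2 g - 1) p + c) + D₂ < 2 g p` (as `0 < g`): it is zero (`Polynomial.eq_zero_of_dvd_of_natDegree_lt`). -/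
theorem Lm_w {g m p c s : ℕ} (hg : 0 < g) {k : Type} [Field k] [CharP k p] (hp : p.Prime) (D : Dat g k) (hD : D.Ok p c)
    (Lm : Matrix (Fin s) (Kx g m) k[X]) (hst : ∀ x, Lm *ᵥ x = 0 → Lm *ᵥ opD D.Δ D.G x = 0) (D₁ D₂ : ℕ)
    (hL : ∀ i t, (Lm i t).natDegree ≤ D₁) (x : Kx g m → k[X]) (hx' : ∀ t, (x t).natDegree ≤ D₂)
    (hdeg : D₁ + D₂ + c < p) (hx : Lm *ᵥ x = 0) :
    Lm *ᵥ (KW D m *ᵥ x) = 0 := by
  funext i
  rw [Pi.zero_apply]
  have h1 := dvd_w hp D hD Lm hst x hx i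
  have h2 : D.Δ.Monic := monic_prod_of_monic _ _ fun j _ => monic_X_sub_C _
  have h3 : (D.Δ ^ p).natDegree = p * (2 * g) := by
    rw [h2.natDegree_pow]
    unfold Dat.Δ
    rw [natDegree_prod_of_monic _ _ fun j _ => monic_X_sub_C _]
    simp
  have h4 : ((Lm *ᵥ (KW D m *ᵥ x)) i).natDegree ≤ D₁ + (((2 * g - 1) * p + c) + D₂) :=
    V12_mulVec Lm _ D₁ _ hL (V12_mulVec (KW D m) x _ D₂ (deg_w m D hD) hx') i
  refine eq_zero_of_dvd_of_natDegree_lt h1 ?_
  rw [h3]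
  refine h4.trans_lt ?_
  obtain ⟨g', rfl⟩ : ∃ g', g = g' + 1 := ⟨g - 1, by omega⟩
  have h5 : p * (2 * (g' + 1)) = (2 * (g' + 1) - 1) * p + p := by
    have h6 : 2 * (g' + 1) - 1 = 2 * g' + 1 := by omega
    rw [h6]
    ring
  rw [h5]
  omega

end MPadcOA
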