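import Mathlib

/-! LEAF V13: a choice of few equations -/

set_option autoImplicit false

namespace MPadcOA

/-- Proof. Apply `exists_linearIndependent'` to the family `fun i a => f (T i a)` of vectors of `α → F`: `a : κ → ι` with `f ∘ T (a c)` linearly independent and with the same span. `κ` is finite with at most `card α` elements
(`LinearIndependent.fintype_card_le_finrank`, `Module.finrank_fintype_fun_eq_card`); embed it in `Fin (card α)` and put `T' c := T (a c)` on the image and `T' c := 0` outside. The condition `∑ a, f (x a) * M a = 0` is linear in
`f ∘ x`, so it holds on the span if it holds on generators (`Submodule.span_induction`). -/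
theorem exists_sel {A F : Type} [CommRing A] [Field F] (f : A →+* F) {α ι : Type} [Fintype α] (T : ι → α → A) :
    ∃ T' : Fin (Fintype.card α) → α → A, (∀ c, T' c = 0 ∨ ∃ i, T' c = T i) ∧
      ∀ M : α → F, (∀ i, ∑ a, f (T i a) * M a = 0) ↔ ∀ c, ∑ a, f (T' c a) * M a = 0 := by
  classical
  let v : ι → α → F := fun i a => f (T i a)
  obtain ⟨κ, a, -, hspan, hli⟩ := exists_linearIndependent' F v
  have hfin : Finite κ := hli.finite
  let _ : Fintype κ := Fintype.ofFinite κ
  have hcard : Fintype.card κ ≤ Fintype.card (Fin (Fintype.card α)) := by
    rw [Fintype.card_fin, ← Module.finrank_fintype_fun_eq_card F (η := α)]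
    exact hli.fintype_card_le_finrank
  obtain ⟨e⟩ := Function.Embedding.nonempty_of_card_le hcard
  refine ⟨fun c => if h : ∃ k, e k = c then T (a h.choose) else 0, fun c => ?_, fun M => ?_⟩
  · by_cases h : ∃ k, e k = c
    · exact Or.inr ⟨a h.choose, by simp only [dif_pos h]⟩
    · exact Or.inl (by simp only [dif_neg h])
  · constructor
    · intro hM c
      by_cases h : ∃ k, e k = c
      · simp only [dif_pos h]
        exact hM _
      · simp only [dif_neg h, Pi.zero_apply, map_zero, zero_mul, Finset.sum_const_zero]
    · intro hM i
      have hk : ∀ k, ∑ x, v (a k) x * M x = 0 := by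
        intro k
        have h1 := hM (e k)
        have h : ∃ k', e k' = e k := ⟨k, rfl⟩
        have h2 : h.choose = k := e.injective h.choose_spec
        simp only [dif_pos h, h2] at h1
        exact h1
      have hi : v i ∈ Submodule.span F (Set.range (v ∘ a)) := by
        rw [hspan]
        exact Submodule.subset_span ⟨i, rfl⟩
      have key : ∀ w ∈ Submodule.span F (Set.range (v ∘ a)), ∑ x, w x * M x = 0 := by
        intro w hw
        refine Submodule.span_induction ?_ ?_ ?_ ?_ hw
        · rintro _ ⟨k, rfl⟩
          exact hk k
        · simp
        · intro x y _ _ hx hy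
          simp only [Pi.add_apply, add_mul, Finset.sum_add_distrib, hx, hy, add_zero]
        · intro r x _ hx
          simp only [Pi.smul_apply, smul_eq_mul, mul_assoc, ← Finset.mul_sum, hx, mul_zero]
      exact key _ hi

end MPadcOA
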