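import Pool.Agent.Lib.MP_adc574_ag_OA.N_K1
import Pool.Agent.Lib.MP_adc574_ag_OA.V13

/-! LEAF V14: the equations of the Lie algebra of the invariant space -/

set_option autoImplicit false

namespace MPadcOA

open Matrix Polynomial

private theorem V14_JJ_deg {g : ℕ} {k : Type} [Field k] (l l' : Nx g) : (JJ g k[X] l l').natDegree = 0 := by
  unfold JJ
  rcases l with l | l <;> rcases l' with l' | l'
  · simp
  · rw [Matrix.fromBlocks_apply₁₂, Matrix.one_apply]
    split_ifs <;> simp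
  · rw [Matrix.fromBlocks_apply₂₁, Matrix.neg_apply, Matrix.one_apply]
    split_ifs <;> simp
  · simp

private theorem V14_JJ_map {g : ℕ} {R S : Type} [CommRing R] [CommRing S] (f : R →+* S) (l l' : Nx g) :
    f (JJ g R l l') = JJ g S l l' := by
  unfold JJ
  rcases l with l | l <;> rcases l' with l' | l'
  · simp
  · rw [Matrix.fromBlocks_apply₁₂, Matrix.fromBlocks_apply₁₂, Matrix.one_apply, Matrix.one_apply]
    split_ifs <;> simp
  · rw [Matrix.fromBlocks_apply₂₁, Matrix.fromBlocks_apply₂₁, Matrix.neg_apply, Matrix.neg_apply,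
      Matrix.one_apply, Matrix.one_apply]
    split_ifs <;> simp
  · simp

private theorem V14_KS_deg {g m : ℕ} {k : Type} [Field k] (l l' : Nx g) (s s' : Kx g m) :
    ((KS (Matrix.single l l' (1 : k[X])) : Matrix (Kx g m) (Kx g m) k[X]) s s').natDegree ≤ 0 := by
  unfold KS
  refine natDegree_sum_le_of_forall_le _ _ fun i _ => ?_
  split_ifs
  · rw [Matrix.single_apply]
    split_ifs <;> simp
  · simp

private theorem V14_mulVec_deg {ι κ : Type} [Fintype κ] {k : Type} [Field k] (L : Matrix ι κ k[X]) (v : κ → k[X])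
    (D D' : ℕ) (i : ι) (hL : ∀ t, (L i t).natDegree ≤ D) (hv : ∀ t, (v t).natDegree ≤ D') :
    ((L *ᵥ v) i).natDegree ≤ D + D' := by
  have h1 : (L *ᵥ v) i = ∑ t, L i t * v t := rfl
  rw [h1]
  exact natDegree_sum_le_of_forall_le _ _ fun t _ =>
    natDegree_mul_le.trans (Nat.add_le_add (hL t) (hv t))

private theorem V14_lin {g m s : ℕ} {F : Type} [Field F] (L : Matrix (Fin s) (Kx g m) F) (φ : Kx g m → F)
    (M : Matrix (Nx g) (Nx g) F) (i : Fin s) :
    (L *ᵥ ((KS M : Matrix (Kx g m) (Kx g m) F) *ᵥ φ)) i =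
      ∑ l, ∑ l', (L *ᵥ ((KS (Matrix.single l l' 1) : Matrix (Kx g m) (Kx g m) F) *ᵥ φ)) i * M l l' := by
  let Λ : Matrix (Nx g) (Nx g) F →ₗ[F] F :=
    { toFun := fun N => (L *ᵥ ((KS N : Matrix (Kx g m) (Kx g m) F) *ᵥ φ)) i
      map_add' := fun N N' => by
        rw [KS_add, Matrix.add_mulVec, Matrix.mulVec_add, Pi.add_apply]
      map_smul' := fun c N => by
        rw [KS_smul, Matrix.smul_mulVec, Matrix.mulVec_smul, Pi.smul_apply, RingHom.id_apply] }
  have h1 : Λ M = ∑ l, ∑ l', Λ (Matrix.single l l' 1) * M l l' := by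
    conv_lhs => rw [Matrix.matrix_eq_sum_single M]
    rw [map_sum]
    refine Finset.sum_congr rfl fun l _ => ?_
    rw [map_sum]
    refine Finset.sum_congr rfl fun l' _ => ?_
    have h2 : Matrix.single l l' (M l l') = M l l' • Matrix.single l l' (1 : F) := by
      rw [Matrix.smul_single, smul_eq_mul, mul_one]
    rw [h2, map_smul, smul_eq_mul, mul_comm]
  exact h1

private theorem V14_map {g m s : ℕ} {R F : Type} [CommRing R] [CommRing F] (f : R →+* F)
    (L : Matrix (Fin s) (Kx g m) R) (φ : Kx g m → R) (l l' : Nx g) (i : Fin s) :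
    f ((L *ᵥ ((KS (Matrix.single l l' 1) : Matrix (Kx g m) (Kx g m) R) *ᵥ φ)) i) =
      (L.map f *ᵥ ((KS (Matrix.single l l' 1) : Matrix (Kx g m) (Kx g m) F) *ᵥ fun t => f (φ t))) i := by
  rw [RingHom.map_mulVec]
  have h1 : (f ∘ ((KS (Matrix.single l l' 1) : Matrix (Kx g m) (Kx g m) R) *ᵥ φ)) =
      (KS (Matrix.single l l' 1) : Matrix (Kx g m) (Kx g m) F) *ᵥ fun t => f (φ t) := by
    funext t
    rw [Function.comp_apply, RingHom.map_mulVec, KS_map]
    have h2 : (Matrix.single l l' (1 : R)).map f = Matrix.single l l' (1 : F) := by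
      ext a b
      rw [Matrix.map_apply, Matrix.single_apply, Matrix.single_apply]
      split_ifs
      · exact map_one f
      · exact map_zero f
    rw [h2]
    rfl
  rw [h1]

private theorem V14_symp {g : ℕ} {R F : Type} [CommRing R] [CommRing F] (f : R →+* F)
    (M : Matrix (Nx g) (Nx g) F) (i j : Nx g) :
    ∑ l, ∑ l', f ((if l = i then JJ g R l' j else 0) + (if l = j then JJ g R i l' else 0)) * M l l' =
      (M * JJ g F + JJ g F * Mᵀ) i j := by
  have h1 : ∀ l l', f ((if l = i then JJ g R l' j else 0) + (if l = j then JJ g R i l' else 0)) * M l l' =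
      (if l = i then JJ g F l' j * M l l' else 0) + (if l = j then JJ g F i l' * M l l' else 0) := by
    intro l l'
    rw [map_add, add_mul]
    refine congrArg₂ (· + ·) ?_ ?_
    · split_ifs
      · rw [V14_JJ_map]
      · rw [map_zero, zero_mul]
    · split_ifs
      · rw [V14_JJ_map]
      · rw [map_zero, zero_mul]
  have h2 : ∀ l, ∑ l', f ((if l = i then JJ g R l' j else 0) + (if l = j then JJ g R i l' else 0)) * M l l' =
      (if l = i then ∑ l', JJ g F l' j * M l l' else 0) + (if l = j then ∑ l', JJ g F i l' * M l l' else 0) := by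
    intro l
    rw [Finset.sum_congr rfl fun l' _ => h1 l l', Finset.sum_add_distrib]
    refine congrArg₂ (· + ·) ?_ ?_
    · split_ifs
      · rfl
      · exact Finset.sum_const_zero
    · split_ifs
      · rfl
      · exact Finset.sum_const_zero
  rw [Finset.sum_congr rfl fun l _ => h2 l, Finset.sum_add_distrib, Finset.sum_ite_eq', Finset.sum_ite_eq',
    if_pos (Finset.mem_univ _), if_pos (Finset.mem_univ _), Matrix.add_apply, Matrix.mul_apply, Matrix.mul_apply]
  refine congrArg₂ (· + ·) (Finset.sum_congr rfl fun l' _ => mul_comm _ _) rfl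

/-- Proof. `exists_sel` for `f = algebraMap k[X] (RatFunc k)`, `α = Nx g × Nx g` and the following family of equations, indexed by `(Nx g × Nx g) ⊕ (Fin s × Fin r)`. (1) For `(l, l')` the entry `(l, l')` of
`M * JJ + JJ * Mᵀ`, i.e. the coefficient at `(i, j)` is `(if i = l then JJ j l' else 0) + (if i = l' then JJ l j else 0)` (degree `0`). (2) For `(i, b)` the coefficient at `(l, l')` is
`(Lm *ᵥ (KS (Matrix.single l l' 1) *ᵥ Φ b)) i`, of degree `≤ D₁ + D₂` (the entries of `KS (single l l' 1)` are natural numbers, degree `0`). As `M = ∑ l l', M l l' • single l l' 1` and `KS` is linear (`KS_add`, `KS_smul`, an induction over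
the sum, or `KS_mulVec`), `∑ l l', f (coefficient) * M l l' = (Lm.map f *ᵥ (KS M *ᵥ f ∘ Φ b)) i` (`KS_map`, `RingHom.map_mulVec`). Sums over `Nx g × Nx g`: `Fintype.sum_prod_type`. -/
theorem exists_T {g m s r : ℕ} {k : Type} [Field k] (Lm : Matrix (Fin s) (Kx g m) k[X]) (Φ : ℕ → Kx g m → k[X]) (D₁ D₂ : ℕ)
    (hL : ∀ i t, (Lm i t).natDegree ≤ D₁) (hΦ : ∀ b < r, ∀ t, (Φ b t).natDegree ≤ D₂) :
    ∃ T : Fin (Fintype.card (Nx g × Nx g)) → Matrix (Nx g) (Nx g) k[X], (∀ c i j, (T c i j).natDegree ≤ D₁ + D₂) ∧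
      ∀ M : Matrix (Nx g) (Nx g) (RatFunc k),
        (∀ c, ∑ i, ∑ j, algebraMap k[X] (RatFunc k) (T c i j) * M i j = 0) ↔
        (M * JJ g (RatFunc k) + JJ g (RatFunc k) * Mᵀ = 0 ∧
          ∀ b < r, Lm.map (algebraMap k[X] (RatFunc k)) *ᵥ
            ((KS M : Matrix (Kx g m) (Kx g m) (RatFunc k)) *ᵥ fun t => algebraMap k[X] (RatFunc k) (Φ b t)) = 0) := by
  classical
  obtain ⟨f, hf⟩ : ∃ f : k[X] →+* RatFunc k, f = algebraMap k[X] (RatFunc k) := ⟨_, rfl⟩
  obtain ⟨T1, hT1⟩ : ∃ T1 : (Nx g × Nx g) → (Nx g × Nx g) → k[X],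
      ∀ p a, T1 p a = (if a.1 = p.1 then JJ g k[X] a.2 p.2 else 0) +
        (if a.1 = p.2 then JJ g k[X] p.1 a.2 else 0) := ⟨_, fun _ _ => rfl⟩
  obtain ⟨T2, hT2⟩ : ∃ T2 : (Fin s × Fin r) → (Nx g × Nx g) → k[X],
      ∀ p a, T2 p a =
        (Lm *ᵥ ((KS (Matrix.single a.1 a.2 1) : Matrix (Kx g m) (Kx g m) k[X]) *ᵥ Φ p.2)) p.1 :=
    ⟨_, fun _ _ => rfl⟩
  obtain ⟨T, hT⟩ : ∃ T : (Nx g × Nx g) ⊕ (Fin s × Fin r) → (Nx g × Nx g) → k[X],
      (∀ p, T (Sum.inl p) = T1 p) ∧ ∀ p, T (Sum.inr p) = T2 p :=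
    ⟨Sum.elim T1 T2, fun p => Sum.elim_inl _ _ p, fun p => Sum.elim_inr _ _ p⟩
  have hdeg : ∀ q a, (T q a).natDegree ≤ D₁ + D₂ := by
    rintro (p | p) a
    · rw [hT.1, hT1]
      refine (natDegree_add_le _ _).trans (max_le ?_ ?_)
      · split_ifs
        · rw [V14_JJ_deg]
          exact Nat.zero_le _
        · rw [natDegree_zero]
          exact Nat.zero_le _
      · split_ifs
        · rw [V14_JJ_deg]
          exact Nat.zero_le _
        · rw [natDegree_zero]
          exact Nat.zero_le _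
    · rw [hT.2, hT2]
      refine V14_mulVec_deg _ _ D₁ D₂ _ (hL _) fun t => ?_
      have h1 := V14_mulVec_deg (KS (Matrix.single a.1 a.2 1) : Matrix (Kx g m) (Kx g m) k[X]) (Φ p.2) 0 D₂ t
        (fun t' => V14_KS_deg _ _ _ _) (hΦ p.2 p.2.2)
      rwa [Nat.zero_add] at h1
  obtain ⟨T', hs1, hs2⟩ := exists_sel f T
  refine ⟨fun c i j => T' c (i, j), fun c i j => ?_, fun M => ?_⟩
  · show (T' c (i, j)).natDegree ≤ D₁ + D₂
    rcases hs1 c with h | ⟨q, h⟩
    · rw [h, Pi.zero_apply, natDegree_zero]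
      exact Nat.zero_le _
    · rw [h]
      exact hdeg _ _
  · rw [← hf]
    have h1 := hs2 fun a => M a.1 a.2
    have h2 : (∀ c, ∑ i, ∑ j, f (T' c (i, j)) * M i j = 0) ↔
        ∀ c, ∑ a, f (T' c a) * M a.1 a.2 = 0 := by
      refine forall_congr' fun c => ?_
      rw [Fintype.sum_prod_type]
    rw [h2, ← h1, Sum.forall]
    refine and_congr ?_ ?_
    · constructor
      · intro h
        ext i j
        have h3 := h (i, j)
        simp only [hT.1, hT1] at h3
        rw [Fintype.sum_prod_type, V14_symp] at h3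
        exact h3
      · intro h p
        simp only [hT.1, hT1]
        rw [Fintype.sum_prod_type, V14_symp, h]
        rfl
    · have key : ∀ (b : Fin r) (i : Fin s), ∑ a, f (T (Sum.inr (i, b)) a) * M a.1 a.2 =
          (Lm.map f *ᵥ ((KS M : Matrix (Kx g m) (Kx g m) (RatFunc k)) *ᵥ fun t => f (Φ b t))) i := by
        intro b i
        simp only [hT.2, hT2]
        rw [V14_lin, Fintype.sum_prod_type]
        refine Finset.sum_congr rfl fun l _ => Finset.sum_congr rfl fun l' _ => ?_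
        rw [V14_map]
      constructor
      · intro h b hb
        funext i
        rw [Pi.zero_apply]
        exact (key ⟨b, hb⟩ i).symm.trans (h (i, ⟨b, hb⟩))
      · rintro h ⟨i, b⟩
        rw [key b i, h b b.2, Pi.zero_apply]

end MPadcOA
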