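import Pool.Agent.Lib.MP_adc574_ag_OA.V3

/-! LEAF V15: the Lie algebra of the invariant space -/

set_option autoImplicit false

namespace MPadcOA

open Matrix

/-- Proof. `h3`: `e • x = ∑ b, c b • φ b + v`; apply `KS M *ᵥ ·` and `L *ᵥ ·` (linear): the terms with `φ b` vanish by `hL`, and `L *ᵥ (KS M *ᵥ v) = 0` by `van_KS_e` and `h2`. So `e • (L *ᵥ (KS M *ᵥ x)) = 0`, `e ≠ 0`. -/
theorem lie_stab {F : Type} [Field F] [Infinite F] (h2F : (2 : F) ≠ 0) {g m s r : ℕ} (L : Matrix (Fin s) (Kx g m) F)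
    (φ : Fin r → Kx g m → F) (e : F) (he : e ≠ 0) (h2 : ∀ x, Van x → L *ᵥ x = 0)
    (h3 : ∀ x, L *ᵥ x = 0 → ∃ (c : Fin r → F) (v : Kx g m → F), Van v ∧ e • x = (∑ b, c b • φ b) + v)
    (M : Matrix (Nx g) (Nx g) F) (hM : M * JJ g F + JJ g F * Mᵀ = 0) (hL : ∀ b, L *ᵥ (KS M *ᵥ φ b) = 0)
    (x : Kx g m → F) (hx : L *ᵥ x = 0) : L *ᵥ (KS M *ᵥ x) = 0 := by
  obtain ⟨c, v, hv, hcv⟩ := h3 x hx
  have h1 : e • (L *ᵥ (KS M *ᵥ x)) = 0 := by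
    rw [← Matrix.mulVec_smul, ← Matrix.mulVec_smul, hcv, Matrix.mulVec_add, Matrix.mulVec_add,
      h2 _ (van_KS_e h2F v hv M hM), add_zero]
    have h4 : L *ᵥ (KS M *ᵥ ∑ b, c b • φ b) = ∑ b, c b • (L *ᵥ (KS M *ᵥ φ b)) := by
      rw [← Matrix.mulVecLin_apply (KS M), map_sum, ← Matrix.mulVecLin_apply L, map_sum]
      refine Finset.sum_congr rfl fun b _ => ?_
      rw [map_smul, map_smul, Matrix.mulVecLin_apply, Matrix.mulVecLin_apply]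
    rw [h4]
    refine Finset.sum_eq_zero fun b _ => ?_
    rw [hL, smul_zero]
  exact (smul_eq_zero.mp h1).resolve_left he

private theorem V15_mulJ {F : Type} [Field F] {g : ℕ} (M M' : Matrix (Nx g) (Nx g) F)
    (hM : M * JJ g F + JJ g F * Mᵀ = 0) (hM' : M' * JJ g F + JJ g F * M'ᵀ = 0) :
    M * M' * JJ g F = JJ g F * (M' * M)ᵀ := by
  have h1 : M' * JJ g F = - (JJ g F * M'ᵀ) := eq_neg_of_add_eq_zero_left hM'
  have h2 : M * JJ g F = - (JJ g F * Mᵀ) := eq_neg_of_add_eq_zero_left hM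
  rw [Matrix.mul_assoc, h1, Matrix.mul_neg, ← Matrix.mul_assoc, h2, Matrix.neg_mul, neg_neg, Matrix.transpose_mul,
    Matrix.mul_assoc]

/-- Proof. The first part: `M J = - J Mᵀ` etc. For the second, `KS (M M' - M' M) *ᵥ φ b = KS M *ᵥ (KS M' *ᵥ φ b) - KS M' *ᵥ (KS M *ᵥ φ b)` (`KS_comm`), and `lie_stab` for `M` (with `x = KS M' *ᵥ φ b`) and for `M'`. -/
theorem lie_closed {F : Type} [Field F] [Infinite F] (h2F : (2 : F) ≠ 0) {g m s r : ℕ} (L : Matrix (Fin s) (Kx g m) F)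
    (φ : Fin r → Kx g m → F) (e : F) (he : e ≠ 0) (h2 : ∀ x, Van x → L *ᵥ x = 0)
    (h3 : ∀ x, L *ᵥ x = 0 → ∃ (c : Fin r → F) (v : Kx g m → F), Van v ∧ e • x = (∑ b, c b • φ b) + v)
    (M M' : Matrix (Nx g) (Nx g) F) (hM : M * JJ g F + JJ g F * Mᵀ = 0) (hL : ∀ b, L *ᵥ (KS M *ᵥ φ b) = 0)
    (hM' : M' * JJ g F + JJ g F * M'ᵀ = 0) (hL' : ∀ b, L *ᵥ (KS M' *ᵥ φ b) = 0) :
    (M * M' - M' * M) * JJ g F + JJ g F * (M * M' - M' * M)ᵀ = 0 ∧ ∀ b, L *ᵥ (KS (M * M' - M' * M) *ᵥ φ b) = 0 := by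
  constructor
  · rw [Matrix.sub_mul, V15_mulJ M M' hM hM', V15_mulJ M' M hM' hM, Matrix.transpose_sub, Matrix.mul_sub]
    abel
  · intro b
    rw [← KS_comm, Matrix.sub_mulVec, Matrix.mulVec_sub, ← Matrix.mulVec_mulVec, ← Matrix.mulVec_mulVec,
      lie_stab h2F L φ e he h2 h3 M hM hL _ (hL' b), lie_stab h2F L φ e he h2 h3 M' hM' hL' _ (hL b), sub_zero]

end MPadcOA
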