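import Pool.Agent.Lib.MP_adc574_ag_OA.V0

/-! LEAF V16: the small elements of the ultraproduct are a field -/

set_option autoImplicit false

namespace MPadcOA

open Polynomial MPadcGM

private theorem V16_mul {k : Type} [Field k] {d d' : ℕ} {a a' : k[X]} (ha : a.natDegree ≤ d) (ha' : a'.natDegree ≤ d') :
    (a * a').natDegree ≤ d + d' :=
  natDegree_mul_le.trans (Nat.add_le_add ha ha')

/-- Proof. `b x = a`, `b' y = a'`: `b b' (x + y) = b' a + b a'`. -/
theorem SmR_add {k : Type} [Field k] {d d' : ℕ} {x y : RatFunc k} (hx : SmR d x) (hy : SmR d' y) : SmR (d + d') (x + y) := by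
  obtain ⟨a, b, hb, ha1, hb1, h1⟩ := hx
  obtain ⟨a', b', hb', ha2, hb2, h2⟩ := hy
  refine ⟨b' * a + b * a', b * b', mul_ne_zero hb hb', ?_, V16_mul hb1 hb2, ?_⟩
  · refine natDegree_add_le_of_degree_le ?_ (V16_mul hb1 ha2)
    rw [Nat.add_comm]
    exact V16_mul hb2 ha1
  · rw [map_mul, map_add, map_mul, map_mul, ← h1, ← h2]
    ring

theorem SmR_mul {k : Type} [Field k] {d d' : ℕ} {x y : RatFunc k} (hx : SmR d x) (hy : SmR d' y) : SmR (d + d') (x * y) := by
  obtain ⟨a, b, hb, ha1, hb1, h1⟩ := hx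
  obtain ⟨a', b', hb', ha2, hb2, h2⟩ := hy
  refine ⟨a * a', b * b', mul_ne_zero hb hb', V16_mul ha1 ha2, V16_mul hb1 hb2, ?_⟩
  rw [map_mul, map_mul, ← h1, ← h2]
  ring

theorem SmR_neg {k : Type} [Field k] {d : ℕ} {x : RatFunc k} (hx : SmR d x) : SmR d (-x) := by
  obtain ⟨a, b, hb, ha1, hb1, h1⟩ := hx
  refine ⟨-a, b, hb, by rwa [natDegree_neg], hb1, ?_⟩
  rw [map_neg, ← h1]
  ring

/-- Proof. For `x = 0` trivial; otherwise `a ≠ 0` and `a x⁻¹ = b`. -/
theorem SmR_inv {k : Type} [Field k] {d : ℕ} {x : RatFunc k} (hx : SmR d x) : SmR d x⁻¹ := by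
  by_cases hx0 : x = 0
  · rw [hx0, inv_zero, ← hx0]
    exact hx
  · obtain ⟨a, b, hb, ha1, hb1, h1⟩ := hx
    have ha : a ≠ 0 := by
      rintro rfl
      rw [map_zero] at h1
      rcases mul_eq_zero.1 h1 with h2 | h2
      · exact hb ((map_eq_zero_iff _ (RatFunc.algebraMap_injective k)).1 h2)
      · exact hx0 h2
    refine ⟨b, a, ha, hb1, ha1, ?_⟩
    rw [← h1, mul_assoc, mul_inv_cancel₀ hx0, mul_one]

private theorem V16_inv (k : ℕ → Type) [∀ n, Field (k n)] (y : ∀ n, RatFunc (k n)) :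
    (clO y)⁻¹ = clO fun n => (y n)⁻¹ := by
  by_cases h : clO y = 0
  · have h1 : ∀ᶠ n in (Filter.hyperfilter ℕ : Filter ℕ), y n = 0 := (ultMk_eq_zero _ _ _).1 h
    have h2 : (clO fun n => (y n)⁻¹) = 0 := by
      refine (ultMk_eq_zero _ _ _).2 ?_
      filter_upwards [h1] with n hn
      rw [hn, inv_zero]
    rw [h, h2, inv_zero]
  · have h1 : ∀ᶠ n in (Filter.hyperfilter ℕ : Filter ℕ), ¬ y n = 0 :=
      Ultrafilter.eventually_not.mpr fun h2 => h ((ultMk_eq_zero _ _ _).2 h2)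
    refine inv_eq_of_mul_eq_one_right ?_
    have h2 : ultMk (Filter.hyperfilter ℕ) (fun n => RatFunc (k n)) (y * fun n => (y n)⁻¹) =
        ultMk (Filter.hyperfilter ℕ) (fun n => RatFunc (k n)) 1 := by
      refine (ultMk_eq _ _).2 ?_
      filter_upwards [h1] with n hn
      rw [Pi.mul_apply, mul_inv_cancel₀ hn, Pi.one_apply]
    rw [map_mul, map_one] at h2
    exact h2

/-- Proof. The carrier is `{x | SmO k δ x}`; the closure properties follow from those of `SmR` (`c + c'` for sums and products, `clO` is the ring homomorphism `ultMk ..`; for the inverse: `clO y⁻¹ = (clO y)⁻¹`,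
if `clO y ≠ 0` as `y n * (y n)⁻¹ = 1` for almost all `n` (`ultMk_eq`), if `clO y = 0` as `y n = 0`, `(y n)⁻¹ = 0` for almost all `n`). -/
theorem exists_KK (k : ℕ → Type) [∀ n, Field (k n)] (δ : ℕ → ℕ) : ∃ K : Subfield (OO k), ∀ x, x ∈ K ↔ SmO k δ x := by
  refine ⟨{ carrier := {x | SmO k δ x}
            mul_mem' := ?_
            one_mem' := ?_
            add_mem' := ?_
            zero_mem' := ?_
            neg_mem' := ?_
            inv_mem' := ?_ }, fun x => Iff.rfl⟩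
  · rintro x y ⟨c, u, hu, rfl⟩ ⟨c', v, hv, rfl⟩
    refine ⟨c + c', fun n => u n * v n, fun n => ?_, ?_⟩
    · rw [add_mul]
      exact SmR_mul (hu n) (hv n)
    · exact map_mul (ultMk (Filter.hyperfilter ℕ) (fun n => RatFunc (k n))) u v
  · refine ⟨0, fun n => 1, fun n => ⟨1, 1, one_ne_zero, ?_, ?_, ?_⟩, ?_⟩
    · rw [natDegree_one]
      exact Nat.zero_le _
    · rw [natDegree_one]
      exact Nat.zero_le _
    · rw [map_one, one_mul]
    · exact map_one (ultMk (Filter.hyperfilter ℕ) (fun n => RatFunc (k n)))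
  · rintro x y ⟨c, u, hu, rfl⟩ ⟨c', v, hv, rfl⟩
    refine ⟨c + c', fun n => u n + v n, fun n => ?_, ?_⟩
    · rw [add_mul]
      exact SmR_add (hu n) (hv n)
    · exact map_add (ultMk (Filter.hyperfilter ℕ) (fun n => RatFunc (k n))) u v
  · refine ⟨0, fun n => 0, fun n => ⟨0, 1, one_ne_zero, ?_, ?_, ?_⟩, ?_⟩
    · rw [natDegree_zero]
      exact Nat.zero_le _
    · rw [natDegree_one]
      exact Nat.zero_le _
    · rw [map_zero, mul_zero]
    · exact map_zero (ultMk (Filter.hyperfilter ℕ) (fun n => RatFunc (k n)))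
  · rintro x ⟨c, u, hu, rfl⟩
    exact ⟨c, fun n => -u n, fun n => SmR_neg (hu n),
      map_neg (ultMk (Filter.hyperfilter ℕ) (fun n => RatFunc (k n))) u⟩
  · rintro x ⟨c, u, hu, rfl⟩
    exact ⟨c, fun n => (u n)⁻¹, fun n => SmR_inv (hu n), (V16_inv k u).symm⟩

end MPadcOA
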