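import Pool.Agent.Lib.MP_adc574_ag_OA.V16

/-! LEAF V17: the field of the small elements is algebraically closed in the ultraproduct -/

set_option autoImplicit false

namespace MPadcOA

open Polynomial MPadcGM

/-- The rational root theorem. Proof. `x = P / Q` with coprime `P`, `Q` (`RatFunc.num`, `RatFunc.denom`, `RatFunc.isCoprime_num_denom`). Multiply the equation by `Q ^ D`: `∑ i ≤ D, a i * P ^ i * Q ^ (D - i) = 0`, so `P ∣ a 0 * Q ^ D`, i.e.
`P ∣ a 0`, and `Q ∣ a D * P ^ D`, i.e. `Q ∣ a D`; both have degree at most `e`. (Mathlib: `num_dvd_of_is_root`, `den_dvd_of_is_root` for `IsFractionRing`, or directly.) -/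
theorem SmR_of_root {k : Type} [Field k] (e D : ℕ) (a : ℕ → k[X]) (ha : ∀ i, (a i).natDegree ≤ e) (h0 : a 0 ≠ 0) (hD : a D ≠ 0)
    (x : RatFunc k) (hx : ∑ i ∈ Finset.range (D + 1), algebraMap k[X] (RatFunc k) (a i) * x ^ i = 0) : SmR e x := by
  classical
  obtain ⟨f, hf⟩ : ∃ f : k[X][X], f = ∑ i ∈ Finset.range (D + 1), monomial i (a i) := ⟨_, rfl⟩
  have hc : ∀ i, f.coeff i = if i ∈ Finset.range (D + 1) then a i else 0 := by
    intro i
    rw [hf, finsetSum_coeff]
    simp only [coeff_monomial]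
    rw [Finset.sum_ite_eq']
  have hc0 : f.coeff 0 = a 0 := by
    rw [hc, if_pos (Finset.mem_range.2 (Nat.succ_pos D))]
  have hcD : f.coeff D = a D := by
    rw [hc, if_pos (Finset.mem_range.2 (Nat.lt_succ_self D))]
  have hdeg : f.natDegree = D := by
    refine le_antisymm ?_ (le_natDegree_of_ne_zero (by rw [hcD]; exact hD))
    rw [natDegree_le_iff_coeff_eq_zero]
    intro i hi
    rw [hc, if_neg fun h => absurd (Finset.mem_range.1 h) (by omega)]
  have hlead : f.leadingCoeff = a D := by rw [leadingCoeff, hdeg, hcD]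
  have hroot : aeval x f = 0 := by
    rw [hf, map_sum]
    simp only [aeval_monomial]
    exact hx
  have h1 := num_dvd_of_is_root hroot
  have h2 := den_dvd_of_is_root hroot
  rw [hc0] at h1
  rw [hlead] at h2
  refine ⟨IsFractionRing.num k[X] x, IsFractionRing.den k[X] x, nonZeroDivisors.ne_zero (IsFractionRing.den k[X] x).2,
    (natDegree_le_of_dvd h1 h0).trans (ha 0), (natDegree_le_of_dvd h2 hD).trans (ha D), ?_⟩
  have h3 := IsLocalization.mk'_spec' (RatFunc k) (IsFractionRing.num k[X] x) (IsFractionRing.den k[X] x)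
  rwa [IsFractionRing.mk'_num_den] at h3

/-- Proof. If `x = 0` then `x ∈ K`. Otherwise let `P` be the minimal polynomial of `x` over `K`, of degree `D`; its coefficients `κ i ∈ K`, `κ D = 1`, `κ 0 ≠ 0` (`minpoly.coeff_zero_ne_zero`). By `hK`: `κ i = clO (y i)`, `SmR (c i * δ n) (y i n)`; let `c` be the
sum of the `c i`, `i ≤ D`; so `b i n * y i n = a i n` with `b i n ≠ 0` and degrees `≤ c i * δ n`. Put `A i n := a i n * ∏ j ∈ range (D + 1) \ {i}, b j n`, of degree `≤ (D + 1) * c * δ n`. Let `x = clO ξ`. For almost all `n` the equation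
`∑ i, y i n * (ξ n) ^ i = 0` holds (`ultMk_eq_zero`), hence `∑ i, A i n * (ξ n) ^ i = 0` (multiply by `∏ b`), and `y 0 n ≠ 0`, `y D n ≠ 0`, so `A 0 n ≠ 0`, `A D n ≠ 0` (`Ultrafilter.eventually_not`). `SmR_of_root`: `SmR ((D + 1) * c * δ n) (ξ n)` for
almost all `n`; replace `ξ n` by `0` for the other `n`: `x ∈ K`. -/
theorem KK_closed {k : ℕ → Type} [∀ n, Field (k n)] {δ : ℕ → ℕ} (K : Subfield (OO k)) (hK : ∀ x, x ∈ K ↔ SmO k δ x)
    (x : OO k) (hx : IsAlgebraic K x) : x ∈ K := by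
  classical
  by_cases hx0 : x = 0
  · rw [hx0]
    exact zero_mem K
  have hint : IsIntegral K x := hx.isIntegral
  obtain ⟨P, hP⟩ : ∃ P : Polynomial K, P = minpoly K x := ⟨_, rfl⟩
  have hP0 : P.coeff 0 ≠ 0 := by
    rw [hP]
    exact minpoly.coeff_zero_ne_zero hint hx0
  have hPD : P.coeff P.natDegree ≠ 0 := by
    rw [hP]
    exact leadingCoeff_ne_zero.2 (minpoly.ne_zero hint)
  have hPx : aeval x P = 0 := by
    rw [hP]
    exact minpoly.aeval K x
  obtain ⟨D, hD⟩ : ∃ D, D = P.natDegree := ⟨_, rfl⟩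
  rw [← hD] at hPD
  have hsm : ∀ i, ∃ (c : ℕ) (y : ∀ n, RatFunc (k n)), (∀ n, SmR (c * δ n) (y n)) ∧ clO y = ((P.coeff i : K) : OO k) :=
    fun i => (hK _).1 (P.coeff i).2
  choose c y hy hcl using hsm
  have hab : ∀ i n, ∃ a b : (k n)[X], b ≠ 0 ∧ a.natDegree ≤ c i * δ n ∧ b.natDegree ≤ c i * δ n ∧
      algebraMap (k n)[X] (RatFunc (k n)) b * y i n = algebraMap (k n)[X] (RatFunc (k n)) a := fun i n => hy i n
  choose a b hb0 ha hb hab using hab
  obtain ⟨ξ, hξ⟩ : ∃ ξ : ∀ n, RatFunc (k n), clO ξ = x :=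
    ultMk_surjective (Filter.hyperfilter ℕ) (fun n => RatFunc (k n)) x
  have heq : ∀ᶠ n in (Filter.hyperfilter ℕ : Filter ℕ), ∑ i ∈ Finset.range (D + 1), y i n * ξ n ^ i = 0 := by
    have h1 : clO (∑ i ∈ Finset.range (D + 1), y i * ξ ^ i) = 0 := by
      rw [aeval_eq_sum_range, ← hD] at hPx
      have h2 : clO (∑ i ∈ Finset.range (D + 1), y i * ξ ^ i) =
          ∑ i ∈ Finset.range (D + 1), clO (y i) * clO ξ ^ i := by
        unfold clO
        rw [map_sum]
        refine Finset.sum_congr rfl fun i _ => ?_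
        rw [map_mul, map_pow]
      rw [h2, ← hPx]
      refine Finset.sum_congr rfl fun i _ => ?_
      rw [hcl, hξ]
      rfl
    have h3 := (ultMk_eq_zero (Filter.hyperfilter ℕ) (fun n => RatFunc (k n)) _).1 h1
    filter_upwards [h3] with n hn
    rw [← hn, Finset.sum_apply]
    rfl
  have hne : ∀ i, P.coeff i ≠ 0 → ∀ᶠ n in (Filter.hyperfilter ℕ : Filter ℕ), y i n ≠ 0 := by
    intro i hi
    rw [Ultrafilter.eventually_not]
    intro h1
    apply hi
    have h2 : clO (y i) = 0 := (ultMk_eq_zero (Filter.hyperfilter ℕ) (fun n => RatFunc (k n)) _).2 h1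
    rw [hcl] at h2
    exact Subtype.ext h2
  obtain ⟨e, he⟩ : ∃ e, e = ∑ i ∈ Finset.range (D + 1), c i := ⟨_, rfl⟩
  have hfin : ∀ᶠ n in (Filter.hyperfilter ℕ : Filter ℕ), SmR (e * δ n) (ξ n) := by
    filter_upwards [heq, hne 0 hP0, hne D hPD] with n h1 h2 h3
    obtain ⟨A, hA⟩ : ∃ A : ℕ → (k n)[X], A = fun i => if i ∈ Finset.range (D + 1) then
      a i n * ∏ j ∈ (Finset.range (D + 1)).erase i, b j n else 0 := ⟨_, rfl⟩
    have hB : ∏ j ∈ Finset.range (D + 1), algebraMap (k n)[X] (RatFunc (k n)) (b j n) ≠ 0 :=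
      Finset.prod_ne_zero_iff.2 fun j _ h => hb0 j n ((map_eq_zero_iff _ (IsFractionRing.injective (k n)[X] (RatFunc (k n)))).1 h)
    have hAy : ∀ i ∈ Finset.range (D + 1), algebraMap (k n)[X] (RatFunc (k n)) (A i) =
        (∏ j ∈ Finset.range (D + 1), algebraMap (k n)[X] (RatFunc (k n)) (b j n)) * y i n := by
      intro i hi
      rw [hA]
      show algebraMap (k n)[X] (RatFunc (k n)) (if i ∈ Finset.range (D + 1) then
        a i n * ∏ j ∈ (Finset.range (D + 1)).erase i, b j n else 0) = _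
      rw [if_pos hi, map_mul, map_prod, ← hab i n, ← Finset.mul_prod_erase _ _ hi]
      ring
    have hdeg : ∀ i, (A i).natDegree ≤ e * δ n := by
      intro i
      rw [hA]
      show (if i ∈ Finset.range (D + 1) then
        a i n * ∏ j ∈ (Finset.range (D + 1)).erase i, b j n else 0 : (k n)[X]).natDegree ≤ _
      by_cases hi : i ∈ Finset.range (D + 1)
      · rw [if_pos hi]
        refine natDegree_mul_le.trans ?_
        have h4 : (∏ j ∈ (Finset.range (D + 1)).erase i, b j n).natDegree ≤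
            ∑ j ∈ (Finset.range (D + 1)).erase i, c j * δ n :=
          (natDegree_prod_le _ _).trans (Finset.sum_le_sum fun j _ => hb j n)
        have h5 : e * δ n = c i * δ n + ∑ j ∈ (Finset.range (D + 1)).erase i, c j * δ n := by
          rw [he, Finset.sum_mul, ← Finset.add_sum_erase _ _ hi]
        rw [h5]
        exact add_le_add (ha i n) h4
      · rw [if_neg hi, natDegree_zero]
        exact Nat.zero_le _
    have hA0 : ∀ i ∈ Finset.range (D + 1), y i n ≠ 0 → A i ≠ 0 := by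
      intro i hi hyi h4
      have h5 := hAy i hi
      rw [h4, map_zero] at h5
      exact mul_ne_zero hB hyi h5.symm
    refine SmR_of_root (e * δ n) D A hdeg (hA0 0 (Finset.mem_range.2 (Nat.succ_pos D)) h2)
      (hA0 D (Finset.mem_range.2 (Nat.lt_succ_self D)) h3) (ξ n) ?_
    have h6 : ∑ i ∈ Finset.range (D + 1), algebraMap (k n)[X] (RatFunc (k n)) (A i) * ξ n ^ i =
        (∏ j ∈ Finset.range (D + 1), algebraMap (k n)[X] (RatFunc (k n)) (b j n)) *
          ∑ i ∈ Finset.range (D + 1), y i n * ξ n ^ i := by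
      rw [Finset.mul_sum]
      refine Finset.sum_congr rfl fun i hi => ?_
      rw [hAy i hi, mul_assoc]
    rw [h6, h1, mul_zero]
  refine (hK x).2 ⟨e, fun n => if SmR (e * δ n) (ξ n) then ξ n else 0, fun n => ?_, ?_⟩
  · show SmR (e * δ n) (if SmR (e * δ n) (ξ n) then ξ n else 0)
    by_cases h : SmR (e * δ n) (ξ n)
    · rw [if_pos h]
      exact h
    · rw [if_neg h]
      refine ⟨0, 1, one_ne_zero, ?_, ?_, ?_⟩
      · rw [natDegree_zero]
        exact Nat.zero_le _
      · rw [natDegree_one]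
        exact Nat.zero_le _
      · rw [mul_zero, map_zero]
  · rw [← hξ]
    refine (ultMk_eq (Filter.hyperfilter ℕ) (fun n => RatFunc (k n))).2 ?_
    filter_upwards [hfin] with n hn
    rw [if_pos hn]

end MPadcOA
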