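import Pool.Agent.Lib.MP_adc574_ag_OA.V17
import Pool.Agent.Lib.MP_adc574_ag_OA.N_S5

/-! LEAVES V18a, V18b, V18c: a Lie algebra given by equations of small degree which contains `w²` contains the symplectic Lie algebra -/

set_option autoImplicit false

namespace MPadcOA

open Matrix Polynomial MPadcGM

/-- LEAF V18a. Proof. Let `∑ l, κ l • W l = 0`, `κ l ∈ K` (`Fintype.linearIndependent_iff`), `κ l = clO (y l)`, `b l n * y l n = a l n`, degrees `≤ c l * δ n`. `β l n := a l n * ∏ l' ≠ l, b l' n` has degree `≤ (∑ l', c l') * δ n * card (Nx g)`,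
at most `n * δ n` for large `n` (these `n` are in the ultrafilter: `Filter.Eventually` for `atTop`/`cofinite` implies it for `hyperfilter`, `Filter.hyperfilter_le_atTop` or `Nat.hyperfilter_le_atTop`). For almost all `n`: `∑ l, y l n * w n l = 0`
in `RatFunc (k n)`, so `∑ l, w n l * β l n = 0` in `(k n)[X]` (`IsFractionRing.injective`/`RatFunc.algebraMap_injective`), so by `hw` all `β l n = 0`, `a l n = 0`, `y l n = 0`. So `κ l = 0`. -/
theorem li_of_irr {k : ℕ → Type} [∀ n, Field (k n)] {δ : ℕ → ℕ} {g : ℕ} (K : Subfield (OO k)) (hK : ∀ x, x ∈ K ↔ SmO k δ x)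
    (w : ∀ n, Nx g → (k n)[X])
    (hw : ∀ n, ∀ b : Nx g → (k n)[X], ∑ l, w n l * b l = 0 → (∀ l, (b l).natDegree ≤ n * δ n) → b = 0) :
    LinearIndependent K fun l => (clO fun n => algebraMap (k n)[X] (RatFunc (k n)) (w n l) : OO k) := by
  classical
  rw [Fintype.linearIndependent_iff]
  intro κ hκ
  have hsm : ∀ l, SmO k δ (κ l : OO k) := fun l => (hK (κ l : OO k)).1 (κ l).2
  choose c y hy hc using hsm
  choose a b hb ha hbd hab using hy
  obtain ⟨C, hC⟩ : ∃ C, C = ∑ l, c l := ⟨_, rfl⟩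
  -- the relation in the ultraproduct
  have hrel : ∀ᶠ n in (Filter.hyperfilter ℕ : Filter ℕ),
      ∑ l, y l n * algebraMap (k n)[X] (RatFunc (k n)) (w n l) = 0 := by
    have h1 : clO (∑ l, fun n => y l n * algebraMap (k n)[X] (RatFunc (k n)) (w n l)) = 0 := by
      rw [← hκ]
      unfold clO
      rw [map_sum]
      refine Finset.sum_congr rfl fun l _ => ?_
      have h2 : (fun n => y l n * algebraMap (k n)[X] (RatFunc (k n)) (w n l)) =
          (y l) * fun n => algebraMap (k n)[X] (RatFunc (k n)) (w n l) := rfl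
      have h3 : κ l • (ultMk (Filter.hyperfilter ℕ) (fun n => RatFunc (k n))
          fun n => algebraMap (k n)[X] (RatFunc (k n)) (w n l)) = (κ l : OO k) *
          (ultMk (Filter.hyperfilter ℕ) (fun n => RatFunc (k n))
            fun n => algebraMap (k n)[X] (RatFunc (k n)) (w n l)) := rfl
      rw [h2, map_mul, h3, ← hc l]
      rfl
    have h4 := (ultMk_eq_zero (Filter.hyperfilter ℕ) (fun n => RatFunc (k n)) _).1 h1
    filter_upwards [h4] with n hn
    rw [Finset.sum_apply] at hn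
    exact hn
  have hlarge : ∀ᶠ n in (Filter.hyperfilter ℕ : Filter ℕ), C ≤ n :=
    Nat.hyperfilter_le_atTop (Filter.eventually_ge_atTop C)
  have hall : ∀ᶠ n in (Filter.hyperfilter ℕ : Filter ℕ), ∀ l, y l n = 0 := by
    filter_upwards [hrel, hlarge] with n hn hCn
    obtain ⟨β, hβ⟩ : ∃ β : Nx g → (k n)[X],
        ∀ l, β l = a l n * ∏ l' ∈ Finset.univ.erase l, b l' n := ⟨_, fun _ => rfl⟩
    have hdeg : ∀ l, (β l).natDegree ≤ n * δ n := by
      intro l
      have h1 : (β l).natDegree ≤ c l * δ n + ∑ l' ∈ Finset.univ.erase l, c l' * δ n := by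
        rw [hβ]
        refine natDegree_mul_le.trans (add_le_add (ha l n) ?_)
        refine (natDegree_prod_le _ _).trans (Finset.sum_le_sum fun l' _ => hbd l' n)
      have h2 : c l * δ n + ∑ l' ∈ Finset.univ.erase l, c l' * δ n = C * δ n := by
        rw [hC, Finset.sum_mul]
        exact Finset.add_sum_erase Finset.univ (fun l' => c l' * δ n) (Finset.mem_univ l)
      exact (h1.trans h2.le).trans (Nat.mul_le_mul_right _ hCn)
    have hsum : ∑ l, w n l * β l = 0 := by
      refine RatFunc.algebraMap_injective (k n) ?_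
      rw [map_zero, map_sum]
      have h3 : ∀ l, algebraMap (k n)[X] (RatFunc (k n)) (w n l * β l) =
          (∏ l', algebraMap (k n)[X] (RatFunc (k n)) (b l' n)) *
            (y l n * algebraMap (k n)[X] (RatFunc (k n)) (w n l)) := by
        intro l
        rw [← Finset.mul_prod_erase Finset.univ
          (fun l' => algebraMap (k n)[X] (RatFunc (k n)) (b l' n)) (Finset.mem_univ l), hβ,
          map_mul, map_mul, map_prod, ← hab l n]
        ring
      rw [Finset.sum_congr rfl fun l _ => h3 l, ← Finset.mul_sum, hn, mul_zero]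
    have hzero := hw n β hsum hdeg
    intro l
    have h4 : a l n * ∏ l' ∈ Finset.univ.erase l, b l' n = 0 := by
      rw [← hβ, hzero, Pi.zero_apply]
    have h5 : ∏ l' ∈ Finset.univ.erase l, b l' n ≠ 0 :=
      Finset.prod_ne_zero_iff.2 fun l' _ => hb l' n
    have h6 : a l n = 0 := (mul_eq_zero.1 h4).resolve_right h5
    have h7 := hab l n
    rw [h6, map_zero] at h7
    refine (mul_eq_zero.1 h7).resolve_left fun h8 => hb l n ?_
    exact RatFunc.algebraMap_injective (k n) (by rw [h8, map_zero])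
  intro l
  have h9 : clO (y l) = 0 := by
    refine (ultMk_eq_zero (Filter.hyperfilter ℕ) (fun n => RatFunc (k n)) _).2 ?_
    filter_upwards [hall] with n hn
    exact hn l
  rw [hc l] at h9
  exact Subtype.ext h9

/-- LEAF V18b. Proof. If `(a : OO k) = 0` for a natural number `a ≠ 0` (`charZero_of_inj_zero` or `CharZero` via `Nat.cast_injective`), then for almost all `n`, `(a : RatFunc (k n)) = 0`, so `(a : k n) = 0`
(`map_natCast`, injectivity), `p n ∣ a`, `p n ≤ a`, but `n ≤ p n` and almost all `n` are `> a`. -/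
theorem charZero_OO {k : ℕ → Type} [∀ n, Field (k n)] (p : ℕ → ℕ) [∀ n, CharP (k n) (p n)] (hp : ∀ n, n ≤ p n) :
    CharZero (OO k) := by
  refine charZero_of_inj_zero fun a ha => ?_
  by_contra h0
  have h1 : ultMk (Filter.hyperfilter ℕ) (fun n => RatFunc (k n)) (a : ∀ n, RatFunc (k n)) = 0 := by
    rw [map_natCast]
    exact ha
  rw [ultMk_eq_zero] at h1
  have h2 : ∀ᶠ n in (Filter.hyperfilter ℕ : Filter ℕ), a < n := Nat.hyperfilter_le_atTop (Filter.eventually_gt_atTop a)
  obtain ⟨n, hn1, hn2⟩ := (h1.and h2).exists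
  rw [Pi.natCast_apply] at hn1
  have h3 : (a : k n) = 0 := by
    have h4 : algebraMap (k n) (RatFunc (k n)) (a : k n) = 0 := by
      rw [map_natCast]
      exact hn1
    exact (map_eq_zero_iff _ (algebraMap (k n) (RatFunc (k n))).injective).mp h4
  have h5 := Nat.le_of_dvd (Nat.pos_of_ne_zero h0) ((CharP.cast_eq_zero_iff (k n) (p n) a).mp h3)
  have h6 := hp n
  omega

private theorem V18c_JJ {R S : Type*} [CommRing R] [CommRing S] (f : R →+* S) (g : ℕ) (i l : Nx g) :
    f (JJ g R i l) = JJ g S i l := by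
  have h1 : (JJ g R).map f = JJ g S := by
    unfold JJ
    rw [Matrix.fromBlocks_map, Matrix.map_zero _ (map_zero f), Matrix.map_one _ (map_zero f) (map_one f)]
    congr 1
    ext a b
    rw [Matrix.map_apply, Matrix.neg_apply, Matrix.neg_apply, map_neg, Matrix.one_apply, Matrix.one_apply]
    split_ifs
    · rw [map_one]
    · rw [map_zero]
  rw [← h1, Matrix.map_apply]

private theorem V18c_single {R S : Type*} [CommRing R] [CommRing S] (f : R →+* S) {g : ℕ} (u i : Nx g) :
    f ((Pi.single u 1 : Nx g → R) i) = (Pi.single u 1 : Nx g → S) i := by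
  by_cases h : i = u
  · rw [h, Pi.single_eq_same, Pi.single_eq_same, map_one]
  · rw [Pi.single_eq_of_ne h, Pi.single_eq_of_ne h, map_zero]

private theorem V18c_mv {R S : Type*} [CommRing R] [CommRing S] (f : R →+* S) {g : ℕ} (x : Nx g → R) (y : Nx g → S)
    (h : ∀ i, f (x i) = y i) (i : Nx g) : f ((JJ g R *ᵥ x) i) = (JJ g S *ᵥ y) i := by
  rw [Matrix.mulVec, Matrix.mulVec, dotProduct, dotProduct, map_sum]
  refine Finset.sum_congr rfl fun l _ => ?_
  rw [map_mul, V18c_JJ, h]

private theorem V18c_vv {R S : Type*} [CommRing R] [CommRing S] (f : R →+* S) {g : ℕ} (x x' : Nx g → R)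
    (y y' : Nx g → S) (h : ∀ i, f (x i) = y i) (h' : ∀ i, f (x' i) = y' i) (i j : Nx g) :
    f (vecMulVec (JJ g R *ᵥ x) x' i j) = vecMulVec (JJ g S *ᵥ y) y' i j := by
  rw [vecMulVec_apply, vecMulVec_apply, map_mul, V18c_mv f x y h, h']

private theorem V18c_tr {R S : Type*} [CommRing R] [CommRing S] (f : R →+* S) {g : ℕ} (u v i j : Nx g) :
    f (tr (Pi.single u (1 : R)) (Pi.single v (1 : R)) i j) =
      tr (Pi.single u (1 : S)) (Pi.single v (1 : S)) i j := by
  unfold tr
  rw [Matrix.add_apply, Matrix.add_apply, map_add,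
    V18c_vv f _ _ _ _ (V18c_single f u) (V18c_single f v), V18c_vv f _ _ _ _ (V18c_single f v) (V18c_single f u)]

private theorem V18c_sum {R S : Type*} [CommRing R] [CommRing S] (f : R →+* S) {g : ℕ}
    (T A : Matrix (Nx g) (Nx g) R) (T' A' : Matrix (Nx g) (Nx g) S) (hT : ∀ i j, f (T i j) = T' i j)
    (hA : ∀ i j, f (A i j) = A' i j) :
    f (∑ i, ∑ j, T i j * A i j) = ∑ i, ∑ j, T' i j * A' i j := by
  rw [map_sum]
  refine Finset.sum_congr rfl fun i _ => ?_
  rw [map_sum]
  refine Finset.sum_congr rfl fun j _ => ?_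
  rw [map_mul, hT, hA]

private theorem V18c_lie {R S : Type*} [CommRing R] [CommRing S] (f : R →+* S) {g : ℕ}
    (A B : Matrix (Nx g) (Nx g) R) (A' B' : Matrix (Nx g) (Nx g) S)
    (hA : ∀ i j, f (A i j) = A' i j) (hB : ∀ i j, f (B i j) = B' i j) (i j : Nx g) :
    f ((A * B - B * A) i j) = (A' * B' - B' * A') i j := by
  simp only [Matrix.sub_apply, Matrix.mul_apply, map_sub, map_sum, map_mul, hA, hB]

private theorem V18c_main (g N : ℕ) {k : ℕ → Type} [∀ n, Field (k n)] (p δ : ℕ → ℕ) [∀ n, CharP (k n) (p n)]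
    (hδ : ∀ n, 0 < δ n) (hp : ∀ n, n * δ n ≤ p n) (T : ∀ n, Fin N → Matrix (Nx g) (Nx g) (k n)[X])
    (hT : ∀ n c i j, (T n c i j).natDegree ≤ δ n)
    (hlie : ∀ n, ∀ M M' : Matrix (Nx g) (Nx g) (RatFunc (k n)),
      (∀ c, ∑ i, ∑ j, algebraMap (k n)[X] (RatFunc (k n)) (T n c i j) * M i j = 0) →
      (∀ c, ∑ i, ∑ j, algebraMap (k n)[X] (RatFunc (k n)) (T n c i j) * M' i j = 0) →
      ∀ c, ∑ i, ∑ j, algebraMap (k n)[X] (RatFunc (k n)) (T n c i j) * (M * M' - M' * M) i j = 0)
    (w : ∀ n, Nx g → (k n)[X])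
    (hirr : ∀ n, ∀ b : Nx g → (k n)[X], ∑ l, w n l * b l = 0 → (∀ l, (b l).natDegree ≤ n * δ n) → b = 0)
    (hw : ∀ n c, ∑ i, ∑ j, T n c i j * vecMulVec (JJ g (k n)[X] *ᵥ w n) (w n) i j = 0)
    (u v : ℕ → Nx g) (c : ℕ → Fin N)
    (hne : ∀ n, ∑ i, ∑ j, T n (c n) i j *
      tr (Pi.single (u n) (1 : (k n)[X])) (Pi.single (v n) (1 : (k n)[X])) i j ≠ 0) : False := by
  classical
  obtain ⟨K, hK⟩ := exists_KK k δ
  have hch : CharZero (OO k) := charZero_OO p fun n => (Nat.le_mul_of_pos_right n (hδ n)).trans (hp n)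
  have hchK : CharZero K := (algebraMap K (OO k)).charZero
  -- the two homomorphisms
  let φ : (∀ n, RatFunc (k n)) →+* OO k := ultMk (Filter.hyperfilter ℕ) (fun n => RatFunc (k n))
  let ρ : (∀ n, (k n)[X]) →+* ∀ n, RatFunc (k n) :=
    RingHom.pi fun n => (algebraMap (k n)[X] (RatFunc (k n))).comp (Pi.evalRingHom (fun n => (k n)[X]) n)
  have hφ : ∀ x : ∀ n, RatFunc (k n), φ x = 0 ↔ ∀ᶠ n in (Filter.hyperfilter ℕ : Filter ℕ), x n = 0 :=
    fun x => ultMk_eq_zero _ _ x
  let TT : Fin N → Matrix (Nx g) (Nx g) (∀ n, (k n)[X]) := fun c i j n => T n c i j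
  let T' : Fin N → Matrix (Nx g) (Nx g) K := fun c i j =>
    ⟨φ (ρ (TT c i j)), (hK _).2 ⟨1, ρ (TT c i j), fun n => ⟨T n c i j, 1, one_ne_zero,
      (hT n c i j).trans (by rw [one_mul]), by rw [natDegree_one]; exact Nat.zero_le _,
      by rw [map_one, one_mul]; rfl⟩, rfl⟩⟩
  have hT' : ∀ c i j, (algebraMap K (OO k)) (T' c i j) = φ (ρ (TT c i j)) := fun c i j => rfl
  have hinj : Function.Injective (algebraMap K (OO k)) := (algebraMap K (OO k)).injective
  have hrep : ∀ M : Matrix (Nx g) (Nx g) K, ∃ A : Matrix (Nx g) (Nx g) (∀ n, RatFunc (k n)),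
      ∀ i j, φ (A i j) = algebraMap K (OO k) (M i j) := by
    intro M
    have h1 : ∀ i j, ∃ x : ∀ n, RatFunc (k n), φ x = algebraMap K (OO k) (M i j) := fun i j =>
      ultMk_surjective _ _ _
    choose A hA using h1
    exact ⟨A, hA⟩
  have hpi : ∀ (n : ℕ) (c : Fin N) (A : Matrix (Nx g) (Nx g) (∀ n, RatFunc (k n))),
      (∑ i, ∑ j, ρ (TT c i j) * A i j) n =
        ∑ i, ∑ j, algebraMap (k n)[X] (RatFunc (k n)) (T n c i j) * A i j n := by
    intro n c A
    exact V18c_sum (Pi.evalRingHom (fun n => RatFunc (k n)) n) (Matrix.of fun i j => ρ (TT c i j)) A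
      (Matrix.of fun i j => algebraMap (k n)[X] (RatFunc (k n)) (T n c i j)) (Matrix.of fun i j => A i j n)
      (fun i j => rfl) fun i j => rfl
  have hev : ∀ (M : Matrix (Nx g) (Nx g) K) (A : Matrix (Nx g) (Nx g) (∀ n, RatFunc (k n))),
      (∀ i j, φ (A i j) = algebraMap K (OO k) (M i j)) → ∀ c, (∑ i, ∑ j, T' c i j * M i j = 0 ↔
        ∀ᶠ n in (Filter.hyperfilter ℕ : Filter ℕ),
          ∑ i, ∑ j, algebraMap (k n)[X] (RatFunc (k n)) (T n c i j) * A i j n = 0) := by
    intro M A hA c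
    have h1 : algebraMap K (OO k) (∑ i, ∑ j, T' c i j * M i j) = φ (∑ i, ∑ j, ρ (TT c i j) * A i j) := by
      exact (V18c_sum (algebraMap K (OO k)) (T' c) M (Matrix.of fun i j => φ (ρ (TT c i j)))
        (Matrix.of fun i j => φ (A i j)) (fun i j => rfl) fun i j => (hA i j).symm).trans
        (V18c_sum φ (Matrix.of fun i j => ρ (TT c i j)) A (Matrix.of fun i j => φ (ρ (TT c i j)))
        (Matrix.of fun i j => φ (A i j)) (fun i j => rfl) fun i j => rfl).symm
    rw [← map_eq_zero_iff (algebraMap K (OO k)) hinj, h1, hφ]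
    simp only [hpi]
  have hlie' : ∀ M M' : Matrix (Nx g) (Nx g) K, (∀ c, ∑ i, ∑ j, T' c i j * M i j = 0) →
      (∀ c, ∑ i, ∑ j, T' c i j * M' i j = 0) → ∀ c, ∑ i, ∑ j, T' c i j * (M * M' - M' * M) i j = 0 := by
    intro M M' hM hM' c
    obtain ⟨A, hA⟩ := hrep M
    obtain ⟨A', hA'⟩ := hrep M'
    have h1 : ∀ i j, φ ((A * A' - A' * A) i j) = algebraMap K (OO k) ((M * M' - M' * M) i j) := by
      intro i j
      rw [V18c_lie φ A A' (Matrix.of fun i j => φ (A i j)) (Matrix.of fun i j => φ (A' i j)) (fun i j => rfl)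
        (fun i j => rfl), V18c_lie (algebraMap K (OO k)) M M' (Matrix.of fun i j => φ (A i j))
        (Matrix.of fun i j => φ (A' i j)) (fun i j => (hA i j).symm) (fun i j => (hA' i j).symm)]
    rw [hev _ _ h1 c]
    have h2 : ∀ᶠ n in (Filter.hyperfilter ℕ : Filter ℕ), ∀ c,
        ∑ i, ∑ j, algebraMap (k n)[X] (RatFunc (k n)) (T n c i j) * A i j n = 0 :=
      Filter.eventually_all.2 fun c => (hev M A hA c).1 (hM c)
    have h3 : ∀ᶠ n in (Filter.hyperfilter ℕ : Filter ℕ), ∀ c,
        ∑ i, ∑ j, algebraMap (k n)[X] (RatFunc (k n)) (T n c i j) * A' i j n = 0 :=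
      Filter.eventually_all.2 fun c => (hev M' A' hA' c).1 (hM' c)
    filter_upwards [h2, h3] with n hn hn'
    have h4 := hlie n (Matrix.of fun i j => A i j n) (Matrix.of fun i j => A' i j n) hn hn' c
    refine Eq.trans (Finset.sum_congr rfl fun i _ => Finset.sum_congr rfl fun j _ => ?_) h4
    have h5 := V18c_lie (Pi.evalRingHom (fun n => RatFunc (k n)) n) A A' (Matrix.of fun i j => A i j n)
      (Matrix.of fun i j => A' i j n) (fun i j => rfl) (fun i j => rfl) i j
    rw [← h5]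
    rfl
  have hli := li_of_irr K hK w hirr
  have hw' : ∀ c, ∑ i, ∑ j, algebraMap K (OO k) (T' c i j) *
      vecMulVec (JJ g (OO k) *ᵥ fun l => (clO fun n => algebraMap (k n)[X] (RatFunc (k n)) (w n l) : OO k))
        (fun l => (clO fun n => algebraMap (k n)[X] (RatFunc (k n)) (w n l) : OO k)) i j = 0 := by
    intro c
    have h1 : (∑ i, ∑ j, TT c i j * vecMulVec (JJ g (∀ n, (k n)[X]) *ᵥ fun l n => w n l) (fun l n => w n l) i j :
        ∀ n, (k n)[X]) = 0 := by
      funext n
      have h2 := V18c_sum (Pi.evalRingHom (fun n => (k n)[X]) n) (TT c)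
        (vecMulVec (JJ g (∀ n, (k n)[X]) *ᵥ fun l n => w n l) (fun l n => w n l)) (T n c)
        (vecMulVec (JJ g (k n)[X] *ᵥ w n) (w n)) (fun i j => rfl)
        (V18c_vv (Pi.evalRingHom (fun n => (k n)[X]) n) _ _ _ _ (fun i => rfl) (fun i => rfl))
      rw [hw n c] at h2
      exact h2
    have h3 := congrArg (φ.comp ρ) h1
    rw [map_zero, V18c_sum (φ.comp ρ) (TT c) _ (Matrix.of fun i j => algebraMap K (OO k) (T' c i j)) _
      (fun i j => rfl) (V18c_vv (φ.comp ρ) _ _
        (fun l => (clO fun n => algebraMap (k n)[X] (RatFunc (k n)) (w n l) : OO k))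
        (fun l => (clO fun n => algebraMap (k n)[X] (RatFunc (k n)) (w n l) : OO k)) (fun i => rfl)
        (fun i => rfl))] at h3
    exact h3
  have hac : ∀ x : OO k, IsAlgebraic K x → x ∈ (algebraMap K (OO k)).range :=
    fun x hx => ⟨⟨x, KK_closed K hK x hx⟩, rfl⟩
  have hfin : ∀ (u v : Nx g) (c : Fin N), ∀ᶠ n in (Filter.hyperfilter ℕ : Filter ℕ),
      ∑ i, ∑ j, T n c i j * tr (Pi.single u (1 : (k n)[X])) (Pi.single v (1 : (k n)[X])) i j = 0 := by
    intro u v c
    have h1 := sp_gen hac T' hlie' _ hli hw' (Pi.single u 1) (Pi.single v 1) c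
    have h2 : ∀ i j, φ ((Matrix.of fun i j => (fun n => algebraMap (k n)[X] (RatFunc (k n))
        (tr (Pi.single u (1 : (k n)[X])) (Pi.single v (1 : (k n)[X])) i j)) :
          Matrix (Nx g) (Nx g) (∀ n, RatFunc (k n))) i j) =
        algebraMap K (OO k) (tr (Pi.single u (1 : K)) (Pi.single v (1 : K)) i j) := by
      intro i j
      rw [V18c_tr (algebraMap K (OO k)), ← V18c_tr (φ.comp ρ) u v i j]
      have h3 : (tr (Pi.single u (1 : ∀ n, (k n)[X])) (Pi.single v (1 : ∀ n, (k n)[X])) i j) =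
          fun n => tr (Pi.single u (1 : (k n)[X])) (Pi.single v (1 : (k n)[X])) i j := by
        funext n
        exact V18c_tr (Pi.evalRingHom (fun n => (k n)[X]) n) u v i j
      rw [h3]
      rfl
    have h4 := (hev _ _ h2 c).1 h1
    filter_upwards [h4] with n hn
    have h5 : algebraMap (k n)[X] (RatFunc (k n)) (∑ i, ∑ j, T n c i j *
        tr (Pi.single u (1 : (k n)[X])) (Pi.single v (1 : (k n)[X])) i j) = 0 := by
      rw [V18c_sum (algebraMap (k n)[X] (RatFunc (k n))) (T n c) _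
        (Matrix.of fun i j => algebraMap (k n)[X] (RatFunc (k n)) (T n c i j))
        (Matrix.of fun i j => algebraMap (k n)[X] (RatFunc (k n))
          (tr (Pi.single u (1 : (k n)[X])) (Pi.single v (1 : (k n)[X])) i j)) (fun i j => rfl) fun i j => rfl]
      exact hn
    exact (map_eq_zero_iff _ (IsFractionRing.injective (k n)[X] (RatFunc (k n)))).1 h5
  have hall : ∀ᶠ n in (Filter.hyperfilter ℕ : Filter ℕ), ∀ (u v : Nx g) (c : Fin N),
      ∑ i, ∑ j, T n c i j * tr (Pi.single u (1 : (k n)[X])) (Pi.single v (1 : (k n)[X])) i j = 0 :=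
    Filter.eventually_all.2 fun u => Filter.eventually_all.2 fun v => Filter.eventually_all.2 fun c => hfin u v c
  obtain ⟨n, hn⟩ := hall.exists
  exact hne n (hn (u n) (v n) (c n))

/-- LEAF V18c. Proof. Suppose not; for every `C = n` there are `p n`, `k n`, `δ n`, `T n`, `w n` with `0 < δ n`, `n * δ n ≤ p n`, the other hypotheses, and `u n`, `v n : Nx g`, `c n : Fin N` with `∑ i j, T n (c n) i j * tr .. i j ≠ 0` (`by_contra`, `push Not`/`push_neg`,
`choose`; the instances by `choose` too, or bundle them: `Σ'`/a structure). `exists_KK`: `K`. `CharZero K` (`charZero_OO`, `n ≤ n * δ n ≤ p n`; a subfield of a field of characteristic zero). `KK_closed` gives `hac` of `sp_gen` for `Ω = OO k`. The matrices `T' c i j := clO (fun n => algebraMap _ _ (T n c i j))` are in `K` (`SmO` with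
`c = 1`, denominator `1`). `hlie` for `K`: for `M`, `M'` over `K` choose representatives; for almost all `n` all the equations (finitely many `c`) hold at `n` (`ultMk_eq_zero`, `Filter.eventually_all`), so the conclusion holds at `n`. `hli`: `li_of_irr`. `hw`: the equations at all `n`, mapped
to `RatFunc` and to the ultraproduct (`JJ` and finite sums and products commute with ring homomorphisms). `sp_gen` for `b = Pi.single u 1`, `b' = Pi.single v 1`, all `u`, `v`, `c` (finitely many): for almost all `n` (`ultMk_eq_zero`, injectivity of `(k n)[X] → RatFunc (k n)`) all the sums `∑ i j, T n c i j * tr (Pi.single u 1) (Pi.single v 1) i j`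
vanish, a contradiction for `u = u n` etc. -/
theorem sp_small (g N : ℕ) : ∃ C : ℕ, ∀ (p : ℕ) (k : Type) [Field k] [CharP k p] (δ : ℕ), 0 < δ → C * δ ≤ p →
    ∀ T : Fin N → Matrix (Nx g) (Nx g) k[X], (∀ c i j, (T c i j).natDegree ≤ δ) →
    (∀ M M' : Matrix (Nx g) (Nx g) (RatFunc k),
      (∀ c, ∑ i, ∑ j, algebraMap k[X] (RatFunc k) (T c i j) * M i j = 0) →
      (∀ c, ∑ i, ∑ j, algebraMap k[X] (RatFunc k) (T c i j) * M' i j = 0) →
      ∀ c, ∑ i, ∑ j, algebraMap k[X] (RatFunc k) (T c i j) * (M * M' - M' * M) i j = 0) →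
    ∀ w : Nx g → k[X],
    (∀ b : Nx g → k[X], ∑ l, w l * b l = 0 → (∀ l, (b l).natDegree ≤ C * δ) → b = 0) →
    (∀ c, ∑ i, ∑ j, T c i j * vecMulVec (JJ g k[X] *ᵥ w) w i j = 0) →
    ∀ (u v : Nx g) (c : Fin N), ∑ i, ∑ j, T c i j * tr (Pi.single u (1 : k[X])) (Pi.single v (1 : k[X])) i j = 0 := by
  by_contra hcon
  push Not at hcon
  choose p k ik icp δ hδ hp T hT hlie w hirr hw u v c hne using hcon
  exact V18c_main g N p δ hδ hp T hT hlie w hirr hw u v c hne

end MPadcOA
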