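import Pool.Agent.Lib.MP_adc574_ag_OA.V8
import Pool.Agent.Lib.MP_adc574_ag_OA.V12
import Pool.Agent.Lib.MP_adc574_ag_OA.V14
import Pool.Agent.Lib.MP_adc574_ag_OA.V15
import Pool.Agent.Lib.MP_adc574_ag_OA.V18

/-! LEAF V19: the invariant space is stable under the symplectic Lie algebra -/

set_option autoImplicit false

namespace MPadcOA

open Matrix Polynomial

private theorem V19_map {k : Type} [Field k] {g m s : ℕ} (Lm : Matrix (Fin s) (Kx g m) k[X])
    (M : Matrix (Nx g) (Nx g) k[X]) (x : Kx g m → k[X]) (i : Fin s) :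
    (Lm.map (algebraMap k[X] (RatFunc k)) *ᵥ ((KS (M.map (algebraMap k[X] (RatFunc k))) :
      Matrix (Kx g m) (Kx g m) (RatFunc k)) *ᵥ fun t => algebraMap k[X] (RatFunc k) (x t))) i =
    algebraMap k[X] (RatFunc k) ((Lm *ᵥ ((KS M : Matrix (Kx g m) (Kx g m) k[X]) *ᵥ x)) i) := by
  rw [RingHom.map_mulVec]
  have h : (⇑(algebraMap k[X] (RatFunc k)) ∘ ((KS M : Matrix (Kx g m) (Kx g m) k[X]) *ᵥ x)) =
      (KS (M.map (algebraMap k[X] (RatFunc k))) : Matrix (Kx g m) (Kx g m) (RatFunc k)) *ᵥ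
        fun t => algebraMap k[X] (RatFunc k) (x t) := by
    funext t
    rw [Function.comp_apply, RingHom.map_mulVec, KS_map]
    rfl
  rw [h]

private theorem V19_sum {k : Type} [Field k] {g : ℕ} (T M : Matrix (Nx g) (Nx g) k[X]) :
    ∑ i, ∑ j, algebraMap k[X] (RatFunc k) (T i j) * (M.map (algebraMap k[X] (RatFunc k))) i j =
      algebraMap k[X] (RatFunc k) (∑ i, ∑ j, T i j * M i j) := by
  rw [map_sum]
  refine Finset.sum_congr rfl fun i _ => ?_
  rw [map_sum]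
  refine Finset.sum_congr rfl fun j _ => ?_
  rw [map_mul, Matrix.map_apply]

private theorem V19_symp {F : Type} [Field F] (h2F : (2 : F) ≠ 0) {g : ℕ} (w : Nx g → F) :
    vecMulVec (JJ g F *ᵥ w) w * JJ g F + JJ g F * (vecMulVec (JJ g F *ᵥ w) w)ᵀ = 0 := by
  have h := tr_symp w w
  unfold tr at h
  rw [Matrix.transpose_add, add_mul, mul_add] at h
  have h1 : (2 : F) • (vecMulVec (JJ g F *ᵥ w) w * JJ g F + JJ g F * (vecMulVec (JJ g F *ᵥ w) w)ᵀ) = 0 := by
    rw [two_smul, ← h]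
    abel
  exact (smul_eq_zero.1 h1).resolve_left h2F

private theorem V19_w {k : Type} [Field k] {g : ℕ} (w : Nx g → k[X]) :
    (vecMulVec (JJ g k[X] *ᵥ w) w).map (algebraMap k[X] (RatFunc k)) =
      vecMulVec (JJ g (RatFunc k) *ᵥ fun l => algebraMap k[X] (RatFunc k) (w l))
        (fun l => algebraMap k[X] (RatFunc k) (w l)) := by
  have hJ : (JJ g k[X]).map (algebraMap k[X] (RatFunc k)) = JJ g (RatFunc k) := by
    have h1 : (-1 : Matrix (Fin g) (Fin g) k[X]).map (algebraMap k[X] (RatFunc k)) = -1 := by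
      ext i j
      rw [Matrix.map_apply, Matrix.neg_apply, map_neg, Matrix.neg_apply, Matrix.one_apply, Matrix.one_apply]
      split_ifs
      · rw [map_one]
      · rw [map_zero]
    unfold JJ
    rw [Matrix.fromBlocks_map, h1]
    simp
  ext i j
  rw [Matrix.map_apply, vecMulVec_apply, vecMulVec_apply, map_mul, RingHom.map_mulVec, hJ]
  rfl

/-- Proof. Let `C₀` be the constant of `sp_small g (card (Nx g × Nx g))` and `C := 2 * C₀ + c + 3`; put `F := RatFunc k` (infinite, `2 ≠ 0` as `p > 2`), `ι := algebraMap k[X] F`, `δ := D₁ + D₂ + 1`. `exists_T`: `T`. Its Lie property: by `exists_T` and `lie_closed` for `L = Lm.map ι`, `φ b = ι ∘ Φ b`, `e = ι d` (`L_van`,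
`L_rep` for `R = F`, `f = ι`; the `φ b` are indexed by `Fin r`). `Lm_w` for `x = Φ b`, `b < r` (`hst` is `Lm_opD`, `hD.symp`; `D₁ + D₂ + c < p`): `Lm *ᵥ (KW D m *ᵥ Φ b) = 0`; and `M₀ := (vecMulVec (JJ *ᵥ w) w).map ι` is symplectic (`M₀ J + J M₀ᵀ = 0`: `2 M₀ = tr w w`, `tr_symp`, or directly), so by `exists_T` (mapped
to `F`, `KS_map`) `T` vanishes at `M₀`, hence over `k[X]` (injectivity of `ι`). `irr`: `2 * natDegree (b l) + c ≤ 2 * C₀ * δ + c < p`. `sp_small`: `T` vanishes at `tr e_u e_v`; by `exists_T` in the other direction, mapped to `F`, `Lm.map ι *ᵥ (KS (..) *ᵥ ι ∘ Φ b) = 0`, and `ι` is injective. -/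
theorem all_tr (g c : ℕ) (hg : 0 < g) : ∃ C : ℕ, ∀ (m p r s D₁ D₂ : ℕ) (k : Type) [Field k] [CharP k p], p.Prime →
    C * (D₁ + D₂ + 1) ≤ p → ∀ (D : Dat g k), D.Ok p c → ∀ (Φ : ℕ → Kx g m → k[X]) (d : k[X]) (Lm : Matrix (Fin s) (Kx g m) k[X]),
    Pk D m r s D₁ D₂ Φ d Lm → ∀ (u v : Nx g) (b : ℕ), b < r →
    Lm *ᵥ ((KS (tr (Pi.single u (1 : k[X])) (Pi.single v (1 : k[X]))) : Matrix (Kx g m) (Kx g m) k[X]) *ᵥ Φ b) = 0 := by
  obtain ⟨C₀, hC₀⟩ := sp_small g (Fintype.card (Nx g × Nx g))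
  refine ⟨2 * C₀ + c + 3, ?_⟩
  intro m p r s D₁ D₂ k _ _ hp hC D hD Φ d Lm hP u v b hb
  have e1 : (2 * C₀ + c + 3) * (D₁ + D₂ + 1) =
      2 * (C₀ * (D₁ + D₂ + 1)) + c * (D₁ + D₂) + c + 3 * (D₁ + D₂ + 1) := by ring
  have e2 : 2 * (C₀ * (D₁ + D₂ + 1)) + c * (D₁ + D₂) + c + 3 * (D₁ + D₂ + 1) ≤ p := e1 ▸ hC
  have e3 : 0 ≤ c * (D₁ + D₂) := Nat.zero_le _
  have h2 : (2 : k) ≠ 0 := by
    intro h
    have h' : ((2 : ℕ) : k) = 0 := by rw [Nat.cast_ofNat]; exact h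
    have h3 := Nat.le_of_dvd (by norm_num) ((CharP.cast_eq_zero_iff k p 2).1 h')
    omega
  have hι : Function.Injective (algebraMap k[X] (RatFunc k)) := RatFunc.algebraMap_injective k
  have h2F : (2 : RatFunc k) ≠ 0 := by
    intro h
    refine h2 ?_
    have h3 : algebraMap k[X] (RatFunc k) (C (2 : k)) = 0 := by
      rw [map_ofNat, map_ofNat]
      exact h
    exact C_eq_zero.1 (hι (by rw [h3, map_zero]))
  have hinf : Infinite (RatFunc k) := Infinite.of_injective _ hι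
  obtain ⟨T, hTd, hT⟩ := exists_T Lm Φ D₁ D₂ hP.deg_L (fun b hb t => hP.deg_Φ b hb.le t)
  have hL2 := hP.L_van (RatFunc k) (algebraMap k[X] (RatFunc k))
  have hL3 := hP.L_rep (RatFunc k) (algebraMap k[X] (RatFunc k))
  have hd0 : algebraMap k[X] (RatFunc k) d ≠ 0 := by
    intro h
    exact hP.d_ne (hι (by rw [h, map_zero]))
  have key := hC₀ p k (D₁ + D₂ + 1) (Nat.succ_pos _) (by omega) T
    (fun c i j => (hTd c i j).trans (Nat.le_succ _)) ?_ D.w ?_ ?_ u v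
  · have h3 := (hT ((tr (Pi.single u (1 : k[X])) (Pi.single v (1 : k[X]))).map
      (algebraMap k[X] (RatFunc k)))).1 fun c => by
        rw [V19_sum, key c, map_zero]
    funext i
    have h4 := congrFun (h3.2 b hb) i
    rw [V19_map] at h4
    exact hι (h4.trans (map_zero _).symm)
  · intro M M' hM hM'
    obtain ⟨hM1, hM2⟩ := (hT M).1 hM
    obtain ⟨hM1', hM2'⟩ := (hT M').1 hM'
    have h3 := lie_closed h2F (Lm.map (algebraMap k[X] (RatFunc k)))
      (fun (b : Fin r) t => algebraMap k[X] (RatFunc k) (Φ b t)) _ hd0 hL2 hL3 M M' hM1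
      (fun b => hM2 b b.2) hM1' (fun b => hM2' b b.2)
    exact (hT _).2 ⟨h3.1, fun b hb => h3.2 ⟨b, hb⟩⟩
  · intro b hb1 hb2
    refine hD.irr b hb1 fun l => ?_
    have := hb2 l
    omega
  · intro c'
    have h3 := (hT ((vecMulVec (JJ g k[X] *ᵥ D.w) D.w).map (algebraMap k[X] (RatFunc k)))).2
      ⟨by rw [V19_w]; exact V19_symp h2F _, fun b hb => by
        funext i
        rw [V19_map]
        have h4 := Lm_w hg hp D hD Lm (fun x hx => Lm_opD h2 hP hD.symp x hx) D₁ D₂ hP.deg_L (Φ b)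
          (hP.deg_Φ b hb.le) (by omega) (hP.L_Φ b hb.le)
        have h5 := congrFun h4 i
        unfold KW at h5
        rw [h5]
        exact map_zero _⟩ c'
    rw [V19_sum] at h3
    exact hι (h3.trans (map_zero _).symm)

end MPadcOA
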