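import Pool.Agent.Lib.MP_adc574_ag_OA.N_T5
import Pool.Agent.Lib.MP_adc574_ag_OA.S8

/-! LEAF V2: the action of `1 + M` for `M ^ 2 = 0` -/

set_option autoImplicit false

namespace MPadcOA

open Matrix Polynomial

private theorem V2_V {F : Type} [Field F] {g : ℕ} (M : Matrix (Nx g) (Nx g) F)
    (U : Matrix (Fin g) (Nx g) F) :
    U.map C * (1 + (X : F[X]) • M.map C) = U.map C + (X : F[X]) • (U * M).map C := by
  rw [Matrix.mul_add, Matrix.mul_one, Matrix.mul_smul, ← Matrix.map_mul]

private theorem V2_eval {F : Type} [Field F] {g : ℕ} (M : Matrix (Nx g) (Nx g) F)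
    (U : Matrix (Fin g) (Nx g) F) (a : F) :
    (U.map C * (1 + (X : F[X]) • M.map C)).map (evalRingHom a) = U + a • (U * M) := by
  rw [V2_V]
  ext i j
  rw [Matrix.map_apply, Matrix.add_apply, Matrix.add_apply, Matrix.smul_apply, Matrix.smul_apply,
    Matrix.map_apply, Matrix.map_apply, map_add, smul_eq_mul, smul_eq_mul, map_mul, coe_evalRingHom,
    eval_C, eval_C, eval_X]

/-- The action of `1 + M`, `M ^ 2 = 0`, in a field in which `1, …, m` are invertible. -/
theorem move_e {F : Type} [Field F] {g m : ℕ} (hF : ∀ n : ℕ, n < m → ((n + 1 : ℕ) : F) ≠ 0) (W : Submodule F (Kx g m → F)) (M : Matrix (Nx g) (Nx g) F)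
    (hM : M * M = 0) (hW : ∀ φ ∈ W, KS M *ᵥ φ ∈ W) (U : Matrix (Fin g) (Nx g) F) (h0 : ∀ φ ∈ W, ev U φ = 0) :
    ∀ φ ∈ W, ev (U * (1 + M)) φ = 0 := by
  have hev : ∀ (a : F) (φ : Kx g m → F),
      (ev (U.map C * (1 + (X : F[X]) • M.map C)) fun s => C (φ s)).eval a = ev (U + a • (U * M)) φ := by
    intro a φ
    have h1 := ev_map (evalRingHom a) (U.map C * (1 + (X : F[X]) • M.map C)) (fun s => C (φ s))
    rw [V2_eval] at h1
    rw [coe_evalRingHom] at h1
    rw [h1]
    refine congrArg _ (funext fun s => ?_)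
    exact eval_C
  have hcoeff : ∀ (n : ℕ) (φ : Kx g m → F), φ ∈ W →
      (ev (U.map C * (1 + (X : F[X]) • M.map C)) fun s => C (φ s)).coeff n = 0 := by
    intro n
    induction n with
    | zero =>
      intro φ hφ
      rw [coeff_zero_eq_eval_zero, hev, zero_smul, add_zero]
      exact h0 φ hφ
    | succ n ih =>
      intro φ hφ
      have h1 := ih _ (hW φ hφ)
      rw [← derivative_ev_exp M hM U φ, coeff_derivative] at h1
      by_cases hn : n < m
      · refine (mul_eq_zero.1 h1).resolve_right ?_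
        have h2 := hF n hn
        rwa [Nat.cast_add, Nat.cast_one] at h2
      · refine coeff_eq_zero_of_natDegree_lt (lt_of_le_of_lt (natDegree_ev _ 1 0 (fun i l => ?_) _ fun s => ?_) ?_)
        · rw [V2_V, Matrix.add_apply, Matrix.smul_apply, Matrix.map_apply, Matrix.map_apply, smul_eq_mul]
          refine (natDegree_add_le _ _).trans (max_le ?_ ?_)
          · rw [natDegree_C]
            exact Nat.zero_le _
          · refine natDegree_mul_le.trans ?_
            rw [natDegree_C, natDegree_X]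
        · rw [natDegree_C]
        · omega
  intro φ hφ
  have hz : (ev (U.map C * (1 + (X : F[X]) • M.map C)) fun s => C (φ s)) = 0 :=
    Polynomial.ext fun n => by rw [hcoeff n φ hφ, coeff_zero]
  have h3 := hev 1 φ
  rw [hz, eval_zero, one_smul] at h3
  rw [Matrix.mul_add, Matrix.mul_one]
  exact h3.symm

end MPadcOA
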