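import Pool.Agent.Lib.MP_adc574_ag_OA.V0
import Pool.Agent.Lib.MP_adc574_ag_OA.N_K3
import Pool.Agent.Lib.MP_adc574_ag_OA.N_T2

/-! LEAF V20: the frame `U(α)` -/

set_option autoImplicit false

namespace MPadcOA

open Matrix Polynomial

private theorem V20_JJ {R S : Type} [CommRing R] [CommRing S] (φ : R →+* S) (g : ℕ) :
    (JJ g R).map φ = JJ g S := by
  unfold JJ
  rw [Matrix.fromBlocks_map, Matrix.map_zero _ (map_zero φ), Matrix.map_one _ (map_zero φ) (map_one φ)]
  congr 1
  ext i j
  rw [Matrix.map_apply, Matrix.neg_apply, Matrix.neg_apply, map_neg]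
  by_cases h : i = j
  · rw [h, Matrix.one_apply_eq, Matrix.one_apply_eq, map_one]
  · rw [Matrix.one_apply_ne h, Matrix.one_apply_ne h, map_zero]

private theorem V20_inv {F : Type} [Field F] {g : ℕ} (A : Matrix (Fin g) (Nx g) F)
    (h : LinearIndependent F fun i l => A i l) : ∃ B : Matrix (Nx g) (Fin g) F, A * B = 1 := by
  rw [← Matrix.mulVec_surjective_iff_exists_right_inverse]
  have h1 : A.rank = Fintype.card (Fin g) := LinearIndependent.rank_matrix (M := A) h
  have h2 : LinearMap.range A.mulVecLin = ⊤ := by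
    refine Submodule.eq_top_of_finrank_eq ?_
    rw [Module.finrank_fintype_fun_eq_card]
    exact h1
  intro y
  obtain ⟨x, hx⟩ := LinearMap.range_eq_top.1 h2 y
  exact ⟨x, hx⟩

private theorem V20_ind {g : ℕ} {k : Type} [Field k] (U : Matrix (Fin g) (Nx g) k[X]) (α : k)
    (h : LinearIndependent k fun i l => (U i l).eval α) :
    LinearIndependent (RatFunc k) fun i => (U.map (algebraMap k[X] (RatFunc k))) i := by
  obtain ⟨B, hB⟩ := V20_inv (U.map (evalRingHom α)) h
  have hdet : (U * B.map C).det ≠ 0 := by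
    intro h0
    have h1 := RingHom.map_det (evalRingHom α) (U * B.map C)
    rw [h0, map_zero] at h1
    have h2 : (evalRingHom α).mapMatrix (U * B.map C) = 1 := by
      rw [RingHom.mapMatrix_apply, Matrix.map_mul, ← hB]
      congr 1
      ext i j
      rw [Matrix.map_apply, Matrix.map_apply, coe_evalRingHom, eval_C]
    rw [h2, Matrix.det_one] at h1
    exact zero_ne_one h1
  have hinj : Function.Injective (algebraMap k[X] (RatFunc k)) := RatFunc.algebraMap_injective k
  have hdet2 : (U.map (algebraMap k[X] (RatFunc k)) * (B.map C).map (algebraMap k[X] (RatFunc k))).det ≠ 0 := by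
    rw [← Matrix.map_mul]
    intro h0
    have h1 := RingHom.map_det (algebraMap k[X] (RatFunc k)) (U * B.map C)
    exact hdet (hinj ((h1.trans h0).trans (map_zero _).symm))
  rw [Fintype.linearIndependent_iff]
  intro c hc i
  have h1 : c ᵥ* U.map (algebraMap k[X] (RatFunc k)) = 0 := by
    funext l
    have h2 := congrFun hc l
    rw [Finset.sum_apply] at h2
    exact h2
  have h2 : c ᵥ* (U.map (algebraMap k[X] (RatFunc k)) * (B.map C).map (algebraMap k[X] (RatFunc k))) = 0 := by
    rw [← Matrix.vecMul_vecMul, h1, Matrix.zero_vecMul]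
  exact congrFun (Matrix.eq_zero_of_vecMul_eq_zero hdet2 h2) i

private theorem V20_sum {R : Type} [CommRing R] {g m r : ℕ} (U : Matrix (Fin g) (Nx g) R) (c : Fin r → R)
    (φ : Fin r → Kx g m → R) : ev U (∑ b, c b • φ b) = ∑ b, c b * ev U (φ b) := by
  classical
  have h : ∀ S : Finset (Fin r), ev U (∑ b ∈ S, c b • φ b) = ∑ b ∈ S, c b * ev U (φ b) := by
    intro S
    induction S using Finset.induction_on with
    | empty =>
      rw [Finset.sum_empty, Finset.sum_empty]
      unfold ev
      exact Finset.sum_eq_zero fun s _ => zero_mul _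
    | insert b S hb ih => rw [Finset.sum_insert hb, Finset.sum_insert hb, ev_add, ev_smul, ih]
  exact h Finset.univ

/-- Proof. Induction on `b`: `Δ * derivative (ev U (Φ b)) = ev U (Φ (b + 1))` (`ev_opD`, `horU`, `hstep`); if `(X - C α) ^ (n + 1)` divides `P` then `(X - C α) ^ n` divides `derivative P`. -/
theorem dvd_ev {g m p c : ℕ} {k : Type} [Field k] {D : Dat g k} (hD : D.Ok p c) (α : k) (Φ : ℕ → Kx g m → k[X])
    (hstep : ∀ b, Φ (b + 1) = opD D.Δ D.G (Φ b)) (h0 : (X - C α) ^ p ∣ ev D.U (Φ 0)) (b : ℕ) (hb : b ≤ p) :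
    (X - C α) ^ (p - b) ∣ ev D.U (Φ b) := by
  induction b with
  | zero => exact h0
  | succ b ih =>
    rw [hstep b, ← ev_opD D.Δ D.G D.U hD.horU]
    have h1 := pow_sub_one_dvd_derivative_of_pow_dvd (ih (by omega))
    rw [Nat.sub_sub] at h1
    exact h1.mul_left _

/-- Proof. Over the field `RatFunc k` the rows of `U.map ι` are linearly independent (`rkU` at `α`: a `g × g` minor of `U(α)` is not zero, hence the same minor of `U`; or: clear denominators in a linear relation, divide the coefficients by the highest common power of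
`X - C α` and evaluate at `α`), and `U.map ι` is isotropic (`isoU`); `ev_of_van` for the form `fun s => ι (v s)` (`van_map`) or `f = ι`, and `ι` is injective (`ev_map`). -/
theorem ev_van {g m p c : ℕ} {k : Type} [Field k] {D : Dat g k} (hD : D.Ok p c) (α : k) (hα : D.Δ.eval α ≠ 0)
    (v : Kx g m → k[X]) (hv : Van v) : ev D.U v = 0 := by
  have hinj : Function.Injective (algebraMap k[X] (RatFunc k)) := RatFunc.algebraMap_injective k
  have hi : D.U.map (algebraMap k[X] (RatFunc k)) * JJ g (RatFunc k) *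
      (D.U.map (algebraMap k[X] (RatFunc k)))ᵀ = 0 := by
    have h1 := congrArg (fun M => Matrix.map M (algebraMap k[X] (RatFunc k))) hD.isoU
    simp only [Matrix.map_mul] at h1
    rw [V20_JJ, Matrix.map_zero _ (map_zero _)] at h1
    exact h1
  have h2 := ev_of_van (algebraMap k[X] (RatFunc k)) hv (D.U.map (algebraMap k[X] (RatFunc k))) hi
    (V20_ind D.U α (hD.rkU α hα))
  rw [← ev_map] at h2
  exact hinj (h2.trans (map_zero _).symm)

/-- Proof. `L_rep` (`f = RingHom.id`): `d • x = ∑ b, c b • Φ b + v`; `ev U` is linear (`ev_add`, `ev_smul`), `ev U v = 0` (`ev_van`), and `(X - C α) ^ (p - r + 1)` divides all `ev U (Φ b)`, `b < r` (`dvd_ev`, `r ≤ p`): it divides `d * ev U x`. If `X - C α` did not divide `ev U x`, the power would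
divide `d` (coprime: `IsCoprime.pow_left`, `Irreducible`/`Prime` of `X - C α`), but `d ≠ 0` has degree `≤ D₁ < p - r + 1`. So `(ev U x).eval α = 0`; `ev_map` with `evalRingHom α`. -/
theorem ev_red {g m p c r s D₁ D₂ : ℕ} {k : Type} [Field k] {D : Dat g k} (hD : D.Ok p c) (α : k) (hα : D.Δ.eval α ≠ 0)
    {Φ : ℕ → Kx g m → k[X]} {d : k[X]} {Lm : Matrix (Fin s) (Kx g m) k[X]} (hP : Pk D m r s D₁ D₂ Φ d Lm)
    (h0 : (X - C α) ^ p ∣ ev D.U (Φ 0)) (hr : D₁ + r < p) (x : Kx g m → k[X]) (hx : Lm *ᵥ x = 0) :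
    ev (D.U.map (eval α)) (fun t => (x t).eval α) = 0 := by
  have hx' : Lm.map (RingHom.id k[X]) *ᵥ x = 0 := by
    rw [← hx]
    rfl
  obtain ⟨c', v, hv, he⟩ := hP.L_rep k[X] (RingHom.id k[X]) x hx'
  have h1 : d * ev D.U x = ∑ b : Fin r, c' b * ev D.U (Φ b) := by
    have h2 := congrArg (ev D.U) he
    have h3 : (∑ b : Fin r, c' b • fun t => (RingHom.id k[X]) (Φ b t)) = ∑ b : Fin r, c' b • Φ b := rfl
    rw [h3, ev_add, V20_sum, ev_van hD α hα v hv, add_zero] at h2
    rw [← h2]
    exact (ev_smul D.U d x).symm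
  have h2 : (X - C α) ^ (p - r + 1) ∣ d * ev D.U x := by
    rw [h1]
    refine Finset.dvd_sum fun b _ => Dvd.dvd.mul_left ?_ _
    have h3 := dvd_ev hD α Φ hP.step h0 b (by omega)
    exact (pow_dvd_pow _ (by omega)).trans h3
  have h3 : (X - C α) ∣ ev D.U x := by
    by_contra hn
    have hirr : Irreducible (X - C α) := irreducible_X_sub_C α
    have hco : IsCoprime ((X - C α) ^ (p - r + 1)) (ev D.U x) :=
      (hirr.coprime_iff_not_dvd.2 hn).pow_left
    have h4 : (X - C α) ^ (p - r + 1) ∣ d := hco.dvd_of_dvd_mul_right h2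
    have h5 := natDegree_le_of_dvd h4 hP.d_ne
    rw [natDegree_pow, natDegree_X_sub_C, mul_one] at h5
    have h6 := hP.deg_d
    omega
  have h4 : (ev D.U x).eval α = 0 := by
    obtain ⟨y, hy⟩ := h3
    rw [hy, eval_mul, eval_sub, eval_X, eval_C, sub_self, zero_mul]
  have h5 := ev_map (evalRingHom α) D.U x
  rw [coe_evalRingHom, h4] at h5
  exact h5.symm

end MPadcOA
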