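import Pool.Agent.Lib.MP_adc574_ag_OA.N_T0
import Pool.Agent.Lib.MP_adc574_ag_OA.N_T2
import Pool.Agent.Lib.MP_adc574_ag_OA.N_T3
import Pool.Agent.Lib.MP_adc574_ag_OA.V1
import Pool.Agent.Lib.MP_adc574_ag_OA.N_T5

/-! LEAF V3: `Van` is stable under the symplectic Lie algebra, in any infinite field in which 2 is invertible -/

set_option autoImplicit false

namespace MPadcOA

open Matrix Polynomial

private theorem V3_map {F : Type} [Field F] {g : ℕ} (M : Matrix (Nx g) (Nx g) F) (U : Matrix (Fin g) (Nx g) F) (t : F) :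
    (U.map C * (1 + (X : F[X]) • M.map C)).map (evalRingHom t) = U * (1 + t • M) := by
  have h1 : (1 + (X : F[X]) • M.map C).map (evalRingHom t) = 1 + t • M := by
    ext i j
    rw [Matrix.map_apply, Matrix.add_apply, Matrix.add_apply, map_add, Matrix.smul_apply, Matrix.smul_apply,
      Matrix.map_apply, smul_eq_mul, smul_eq_mul, map_mul, coe_evalRingHom, eval_X, eval_C]
    congr 1
    by_cases hij : i = j
    · subst hij
      rw [Matrix.one_apply_eq, Matrix.one_apply_eq, eval_one]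
    · rw [Matrix.one_apply_ne hij, Matrix.one_apply_ne hij, eval_zero]
  have h2 : (U.map C).map (evalRingHom t) = U := by
    ext i j
    rw [Matrix.map_apply, Matrix.map_apply, coe_evalRingHom, eval_C]
  rw [Matrix.map_mul, h1, h2]

private theorem V3_eval {F : Type} [Field F] {g m : ℕ} (M : Matrix (Nx g) (Nx g) F) (U : Matrix (Fin g) (Nx g) F)
    (φ : Kx g m → F) (t : F) :
    (ev (U.map C * (1 + (X : F[X]) • M.map C)) fun s => C (φ s)).eval t = ev (U * (1 + t • M)) φ := by
  have h1 := ev_map (evalRingHom t) (U.map C * (1 + (X : F[X]) • M.map C)) (fun s => C (φ s))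
  rw [coe_evalRingHom] at h1
  rw [h1, ← coe_evalRingHom, V3_map]
  simp only [coe_evalRingHom, eval_C]

private theorem V3_iso0 {F : Type} [Field F] {g : ℕ} (a y : Matrix (Fin g) (Fin g) F) (hy : yᵀ = y) :
    Matrix.fromCols a (a * y) * JJ g F * (Matrix.fromCols a (a * y))ᵀ = 0 := by
  unfold JJ
  rw [Matrix.fromCols_mul_fromBlocks, Matrix.transpose_fromCols, Matrix.fromCols_mul_fromRows, Matrix.transpose_mul, hy]
  simp only [Matrix.mul_zero, Matrix.mul_neg, Matrix.mul_one, zero_add, add_zero, Matrix.neg_mul, Matrix.mul_assoc,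
    neg_add_cancel]

private theorem V3_iso {F : Type} [Field F] {g : ℕ} (M : Matrix (Nx g) (Nx g) F) (hM2 : M * M = 0)
    (hM : M * JJ g F + JJ g F * Mᵀ = 0) (U : Matrix (Fin g) (Nx g) F) (hU : U * JJ g F * Uᵀ = 0) (t : F) :
    (U * (1 + t • M)) * JJ g F * (U * (1 + t • M))ᵀ = 0 := by
  have h1 : JJ g F * Mᵀ = - (M * JJ g F) := by
    rw [add_comm] at hM
    exact eq_neg_of_add_eq_zero_left hM
  have h2 : (1 + t • M) * JJ g F * (1 + t • M)ᵀ = JJ g F := by
    rw [Matrix.transpose_add, Matrix.transpose_one, Matrix.transpose_smul, Matrix.mul_add, Matrix.mul_one, Matrix.mul_smul,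
      Matrix.mul_assoc (1 + t • M), h1, Matrix.add_mul, Matrix.one_mul, Matrix.smul_mul, Matrix.mul_neg, Matrix.add_mul,
      Matrix.one_mul, Matrix.smul_mul, ← Matrix.mul_assoc M M, hM2, Matrix.zero_mul, smul_zero, add_zero, smul_neg,
      add_neg_cancel_right]
  calc (U * (1 + t • M)) * JJ g F * (U * (1 + t • M))ᵀ = U * ((1 + t • M) * JJ g F * (1 + t • M)ᵀ) * Uᵀ := by
        rw [Matrix.transpose_mul]
        simp only [Matrix.mul_assoc]
    _ = 0 := by rw [h2, hU]

private theorem V3_li {F : Type} [Field F] {g : ℕ} (M : Matrix (Nx g) (Nx g) F) (hM2 : M * M = 0)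
    (U : Matrix (Fin g) (Nx g) F) (hU : ∀ x : Fin g → F, x ᵥ* U = 0 → x = 0) (t : F) (V : Matrix (Fin g) (Nx g) F)
    (hV : V = U * (1 + t • M)) : LinearIndependent F fun i => V i := by
  rw [Fintype.linearIndependent_iff]
  intro x hx
  have h1 : x ᵥ* (U * (1 + t • M)) = 0 := by
    rw [← hx, ← hV]
    funext j
    simp only [Matrix.vecMul, dotProduct, Finset.sum_apply, Pi.smul_apply, smul_eq_mul]
  have h2 : (1 + t • M) * (1 - t • M) = 1 := by
    rw [Matrix.mul_sub, Matrix.mul_one, Matrix.add_mul, Matrix.one_mul, Matrix.smul_mul, Matrix.mul_smul, hM2, smul_zero,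
      smul_zero, add_zero, add_sub_cancel_right]
  have h3 : x ᵥ* U = 0 := by
    have h4 : x ᵥ* (U * (1 + t • M)) ᵥ* (1 - t • M) = 0 := by
      rw [h1, Matrix.zero_vecMul]
    rwa [Matrix.vecMul_vecMul, Matrix.mul_assoc, h2, Matrix.mul_one] at h4
  intro i
  rw [hU x h3]
  rfl

private theorem V3_inj {F : Type} [Field F] {g : ℕ} (a y : Matrix (Fin g) (Fin g) F) (ha : a.det ≠ 0) (x : Fin g → F)
    (hx : x ᵥ* (Matrix.fromCols a (a * y)) = 0) : x = 0 := by
  have h5 : x ᵥ* a = 0 := by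
    funext j
    have h6 := congrFun hx (Sum.inl j)
    rw [Matrix.vecMul_fromCols, Sum.elim_inl] at h6
    exact h6
  exact Matrix.eq_zero_of_vecMul_eq_zero ha h5

private theorem V3_one {F : Type} [Field F] [Infinite F] (h2F : (2 : F) ≠ 0) {g m : ℕ} (φ : Kx g m → F) (h : Van φ) (M : Matrix (Nx g) (Nx g) F)
    (hM2 : M * M = 0) (hM : M * JJ g F + JJ g F * Mᵀ = 0) : Van (KS M *ᵥ φ) := by
  refine van_of_eval _ fun a y ha hy => ?_
  have hP : (ev ((Matrix.fromCols a (a * y)).map C * (1 + (X : F[X]) • M.map C)) fun s => C (φ s)) = 0 := by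
    refine Polynomial.funext fun t => ?_
    rw [V3_eval, eval_zero]
    have h1 := ev_of_van (RingHom.id F) h (Matrix.fromCols a (a * y) * (1 + t • M))
      (V3_iso M hM2 hM _ (V3_iso0 a y hy) t) (V3_li M hM2 _ (V3_inj a y ha) t _ rfl)
    simpa using h1
  have hd := derivative_ev_exp M hM2 (Matrix.fromCols a (a * y)) φ
  rw [hP, derivative_zero] at hd
  have h2 := V3_eval M (Matrix.fromCols a (a * y)) (KS M *ᵥ φ) 0
  rw [← hd, eval_zero, zero_smul, add_zero, Matrix.mul_one] at h2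
  exact h2.symm

/-- Proof. `KS` is linear (`KS_add`, `KS_smul`), `Van` is a subspace (`van_add`, `van_smul`, `van_zero`), so by `symp_mem_sq` (`Submodule.span_induction`) we may take
`M = vecMulVec (J v) v`, `M * M = 0` (`sq_zero`), `M J + J Mᵀ = 0` (`tr_symp` for `u = v`: `tr v v = 2 • M`). By `van_of_eval` we need `ev U (KS M *ᵥ φ) = 0` for
`U = (a | a y)`, `det a ≠ 0`, `y` symmetric. Let `P := ev (U.map C * (1 + X • M.map C)) (C ∘ φ)` in `F[X]`. For `t` in `F` its value is `ev (U * (1 + t • M)) φ`, and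
`U * (1 + t • M)` is isotropic (`(1 + tM) J (1 + tM)ᵀ = J` since `J Mᵀ = - M J`, `M * M = 0`) with linearly independent rows (`(1 + tM)(1 - tM) = 1`, and the rows of
`(a | a y)` are linearly independent as `det a ≠ 0`): `ev_of_van` (with `f = RingHom.id F`) shows that it is zero. So `P = 0` (`Polynomial.funext`, `F` infinite), its derivative is
zero, and by `derivative_ev_exp` at `X = 0`: `ev U (KS M *ᵥ φ) = 0`. -/
theorem van_KS_e {F : Type} [Field F] [Infinite F] (h2F : (2 : F) ≠ 0) {g m : ℕ} (φ : Kx g m → F) (h : Van φ) (M : Matrix (Nx g) (Nx g) F)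
    (hM : M * JJ g F + JJ g F * Mᵀ = 0) : Van (KS M *ᵥ φ) := by
  have h1 := symp_mem_sq_e h2F M hM
  refine Submodule.span_induction (p := fun N _ => Van (KS N *ᵥ φ)) ?_ ?_ ?_ ?_ h1
  · rintro _ ⟨v, rfl⟩
    have h2 := tr_symp v v
    have h3 : tr v v = (2 : F) • vecMulVec (JJ g F *ᵥ v) v := by
      unfold tr
      rw [two_smul]
    rw [h3, Matrix.transpose_smul, Matrix.smul_mul, Matrix.mul_smul, ← smul_add] at h2
    exact V3_one h2F φ h _ (sq_zero v) ((smul_eq_zero.mp h2).resolve_left h2F)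
  · have h2 : (KS (0 : Matrix (Nx g) (Nx g) F) : Matrix (Kx g m) (Kx g m) F) = 0 := by
      have h3 := KS_smul (m := m) (0 : F) (0 : Matrix (Nx g) (Nx g) F)
      rwa [zero_smul, zero_smul] at h3
    rw [h2, Matrix.zero_mulVec]
    exact van_zero
  · intro N N' _ _ hN hN'
    rw [KS_add, Matrix.add_mulVec]
    exact van_add hN hN'
  · intro c N _ hN
    rw [KS_smul, Matrix.smul_mulVec]
    exact van_smul c hN

end MPadcOA
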