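import Pool.Agent.Lib.MP_adc574_ag_OA.V0
import Pool.Agent.Lib.MP_adc574_ag_OA.V3

/-! LEAF V8: the space of the solutions is invariant under the differential operator -/

set_option autoImplicit false

namespace MPadcOA

open Matrix Polynomial

private theorem V8_JJ {R S : Type} [CommRing R] [CommRing S] (g : ℕ) (f : R →+* S) : (JJ g R).map f = JJ g S := by
  unfold JJ
  rw [Matrix.fromBlocks_map, Matrix.map_zero f (map_zero f), Matrix.map_one f (map_zero f) (map_one f)]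
  congr 1
  ext i j
  rw [Matrix.map_apply, Matrix.neg_apply, Matrix.neg_apply, map_neg]
  by_cases hij : i = j
  · subst hij
    rw [Matrix.one_apply_eq, Matrix.one_apply_eq, map_one]
  · rw [Matrix.one_apply_ne hij, Matrix.one_apply_ne hij, map_zero]

private theorem V8_opD_add {g m : ℕ} {k : Type} [Field k] (Δ : k[X]) (G : Matrix (Nx g) (Nx g) k[X]) (x y : Kx g m → k[X]) :
    opD Δ G (x + y) = opD Δ G x + opD Δ G y := by
  funext s
  show Δ * derivative ((x + y) s) + (KS G *ᵥ (x + y)) s = (Δ * derivative (x s) + (KS G *ᵥ x) s) + (Δ * derivative (y s) + (KS G *ᵥ y) s)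
  rw [Matrix.mulVec_add, Pi.add_apply, Pi.add_apply, derivative_add]
  ring

private theorem V8_opD_smul {g m : ℕ} {k : Type} [Field k] (Δ : k[X]) (G : Matrix (Nx g) (Nx g) k[X]) (h : k[X]) (x : Kx g m → k[X]) :
    opD Δ G (h • x) = (Δ * derivative h) • x + h • opD Δ G x := by
  funext s
  show Δ * derivative ((h • x) s) + (KS G *ᵥ (h • x)) s = (Δ * derivative h) * x s + h * (Δ * derivative (x s) + (KS G *ᵥ x) s)
  rw [Matrix.mulVec_smul, Pi.smul_apply, Pi.smul_apply, smul_eq_mul, smul_eq_mul, derivative_mul]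
  ring

private theorem V8_opD_sum {g m : ℕ} {k : Type} [Field k] (Δ : k[X]) (G : Matrix (Nx g) (Nx g) k[X]) {ι : Type} (s : Finset ι)
    (x : ι → Kx g m → k[X]) : opD Δ G (∑ b ∈ s, x b) = ∑ b ∈ s, opD Δ G (x b) := by
  classical
  refine Finset.induction_on s ?_ ?_
  · rw [Finset.sum_empty, Finset.sum_empty]
    have h1 := V8_opD_smul Δ G 0 (0 : Kx g m → k[X])
    rw [derivative_zero, mul_zero, zero_smul, zero_smul, add_zero] at h1
    exact h1
  · intro b s hb ih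
    rw [Finset.sum_insert hb, Finset.sum_insert hb, V8_opD_add, ih]

/-- Proof. Map to the field `RatFunc k` (infinite, `2 ≠ 0`): `van_map`, `van_KS_e` (`KS_map`, `RingHom.map_mulVec`; `JJ` is mapped to `JJ`), and `van_of_map` (the map `algebraMap k[X] (RatFunc k)` is injective). -/
theorem van_KS_poly {g m : ℕ} {k : Type} [Field k] (h2 : (2 : k) ≠ 0) (φ : Kx g m → k[X]) (h : Van φ)
    (M : Matrix (Nx g) (Nx g) k[X]) (hM : M * JJ g k[X] + JJ g k[X] * Mᵀ = 0) : Van (KS M *ᵥ φ) := by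
  have hf : Function.Injective (algebraMap k[X] (RatFunc k)) := RatFunc.algebraMap_injective k
  have hinf : Infinite (RatFunc k) := Infinite.of_injective _ hf
  refine van_of_map (algebraMap k[X] (RatFunc k)) hf ?_
  have h1 := van_map (algebraMap k[X] (RatFunc k)) h
  have hM' : (M.map (algebraMap k[X] (RatFunc k))) * JJ g (RatFunc k) +
      JJ g (RatFunc k) * (M.map (algebraMap k[X] (RatFunc k)))ᵀ = 0 := by
    have h3 : (M * JJ g k[X] + JJ g k[X] * Mᵀ).map (algebraMap k[X] (RatFunc k)) =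
        (0 : Matrix (Nx g) (Nx g) k[X]).map (algebraMap k[X] (RatFunc k)) := by rw [hM]
    rw [Matrix.map_add _ (fun a b => map_add _ a b), Matrix.map_mul, Matrix.map_mul, V8_JJ,
      Matrix.map_zero _ (map_zero _)] at h3
    exact h3
  have h4 : (2 : RatFunc k) ≠ 0 := by
    intro h5
    apply h2
    have h6 : algebraMap k[X] (RatFunc k) (C 2) = algebraMap k[X] (RatFunc k) 0 := by
      rw [map_zero, ← h5, C_ofNat, map_ofNat]
    have h7 := hf h6
    rwa [C_eq_zero] at h7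
  have h3 := van_KS_e h4 _ h1 _ hM'
  have h5 : ((KS (M.map (algebraMap k[X] (RatFunc k))) : Matrix (Kx g m) (Kx g m) (RatFunc k)) *ᵥ
      fun s => algebraMap k[X] (RatFunc k) (φ s)) =
      fun s => algebraMap k[X] (RatFunc k) ((KS M *ᵥ φ) s) := by
    funext s
    rw [RingHom.map_mulVec, KS_map]
    rfl
  rw [h5] at h3
  exact h3

/-- Proof. `van_derivative`, `van_smul` (`Δ • fun s => derivative (φ s)`), `van_add` and `van_KS_poly`. -/
theorem van_opD {g m : ℕ} {k : Type} [Field k] (h2 : (2 : k) ≠ 0) (φ : Kx g m → k[X]) (h : Van φ) (Δ : k[X])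
    (G : Matrix (Nx g) (Nx g) k[X]) (hG : G * JJ g k[X] + JJ g k[X] * Gᵀ = 0) : Van (opD Δ G φ) := by
  have h1 : Van (Δ • fun s => derivative (φ s)) := van_smul Δ (van_derivative h)
  exact van_add h1 (van_KS_poly h2 φ h G hG)

/-- Proof. By `L_rep` (`R = k[X]`, `f = RingHom.id _`): `d • x = ∑ b : Fin r, c b • Φ b + v`, `Van v`. Apply `opD` (additive, `opD (h • φ) = (Δ * derivative h) • φ + h • opD φ`):
`(Δ * derivative d) • x + d • opD x = ∑ b, ((Δ * derivative (c b)) • Φ b + c b • Φ (b + 1)) + opD v`. Apply `Lm *ᵥ ·`: the terms with `x`, `Φ b`, `Φ (b + 1)` (`b + 1 ≤ r`) vanish (`hx`, `L_Φ`), and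
`Lm *ᵥ opD v = 0` by `van_opD` and `L_van`. So `d • (Lm *ᵥ opD x) = 0` and `d ≠ 0`. -/
theorem Lm_opD {g m r s D₁ D₂ : ℕ} {k : Type} [Field k] (h2 : (2 : k) ≠ 0) {D : Dat g k} {Φ : ℕ → Kx g m → k[X]} {d : k[X]}
    {Lm : Matrix (Fin s) (Kx g m) k[X]} (hP : Pk D m r s D₁ D₂ Φ d Lm) (hG : D.G * JJ g k[X] + JJ g k[X] * D.Gᵀ = 0)
    (x : Kx g m → k[X]) (hx : Lm *ᵥ x = 0) : Lm *ᵥ opD D.Δ D.G x = 0 := by
  classical
  obtain ⟨c, v, hv, hx'⟩ := hP.L_rep k[X] (RingHom.id _) x (by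
    rw [RingHom.coe_id, Matrix.map_id]
    exact hx)
  have h1 : d • x = (∑ b : Fin r, c b • Φ b) + v := hx'
  have h3 : Lm *ᵥ opD D.Δ D.G (d • x) = Lm *ᵥ opD D.Δ D.G ((∑ b : Fin r, c b • Φ b) + v) := by rw [h1]
  rw [V8_opD_smul, V8_opD_add, V8_opD_sum, Matrix.mulVec_add, Matrix.mulVec_smul, Matrix.mulVec_smul, hx, smul_zero, zero_add,
    Matrix.mulVec_add, Matrix.mulVec_sum] at h3
  have h4 : ∑ b : Fin r, Lm *ᵥ opD D.Δ D.G (c b • Φ b) = 0 := by
    refine Finset.sum_eq_zero fun b _ => ?_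
    rw [V8_opD_smul, Matrix.mulVec_add, Matrix.mulVec_smul, Matrix.mulVec_smul, hP.L_Φ b b.2.le, ← hP.step b,
      hP.L_Φ (b + 1) b.2, smul_zero, smul_zero, add_zero]
  have h5 : Lm *ᵥ opD D.Δ D.G v = 0 := by
    have h6 := hP.L_van k[X] (RingHom.id _) (opD D.Δ D.G v) (van_opD h2 v hv D.Δ D.G hG)
    rw [RingHom.coe_id, Matrix.map_id] at h6
    exact h6
  rw [h4, h5, add_zero] at h3
  exact (smul_eq_zero.1 h3).resolve_left hP.d_ne

end MPadcOA
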