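import Pool.Agent.Lib.MP_adc574_ag_OA.V4
import Pool.Agent.Lib.MP_adc574_ag_OA.V8
import Pool.Agent.Lib.MP_adc574_ag_OA.N_T0

/-! LEAF V21: the end of the proof of the effective non-vanishing theorem -/

set_option autoImplicit false

namespace MPadcOA

open Matrix Polynomial

private theorem V21_tr {R : Type} [CommRing R] {g : ℕ} (u v : Nx g → R) :
    tr u v = ∑ a, ∑ b, (u a * v b) • tr (Pi.single a (1 : R)) (Pi.single b (1 : R)) := by
  have h1 : ∀ (x y : Nx g → R) (i j : Nx g), tr x y i j =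
      (∑ l, JJ g R i l * x l) * y j + (∑ l, JJ g R i l * y l) * x j := fun x y i j => rfl
  have h2 : ∀ (a i : Nx g), ∑ l, JJ g R i l * (Pi.single a (1 : R) : Nx g → R) l = JJ g R i a := by
    intro a i
    rw [Finset.sum_eq_single a]
    · rw [Pi.single_eq_same, mul_one]
    · intro l _ hl
      rw [Pi.single_eq_of_ne hl, mul_zero]
    · exact fun h => absurd (Finset.mem_univ a) h
  have h3 : ∀ (w : Nx g → R) (j : Nx g), ∑ b, w b * (Pi.single b (1 : R) : Nx g → R) j = w j := by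
    intro w j
    rw [Finset.sum_eq_single j]
    · rw [Pi.single_eq_same, mul_one]
    · intro l _ hl
      rw [Pi.single_eq_of_ne hl.symm, mul_zero]
    · exact fun h => absurd (Finset.mem_univ j) h
  ext i j
  have h4 : ((∑ a, ∑ b, (u a * v b) • tr (Pi.single a (1 : R)) (Pi.single b (1 : R)) :
      Matrix (Nx g) (Nx g) R)) i j =
      ∑ a, ∑ b, (u a * v b) * (tr (Pi.single a (1 : R)) (Pi.single b (1 : R)) : Matrix (Nx g) (Nx g) R) i j := by
    rw [Matrix.sum_apply]
    refine Finset.sum_congr rfl fun a _ => ?_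
    rw [Matrix.sum_apply]
    rfl
  rw [h4, h1]
  have h5 : ∀ a b, (u a * v b) * (tr (Pi.single a (1 : R)) (Pi.single b (1 : R)) : Matrix (Nx g) (Nx g) R) i j =
      (JJ g R i a * u a) * (v b * (Pi.single b (1 : R) : Nx g → R) j) +
      (u a * (Pi.single a (1 : R) : Nx g → R) j) * (JJ g R i b * v b) := by
    intro a b
    rw [h1, h2, h2]
    ring
  have h6 : ∑ a, ∑ b, (u a * v b) * (tr (Pi.single a (1 : R)) (Pi.single b (1 : R)) : Matrix (Nx g) (Nx g) R) i j =
      ∑ a, ((JJ g R i a * u a) * v j + (u a * (Pi.single a (1 : R) : Nx g → R) j) * ∑ b, JJ g R i b * v b) := by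
    refine Finset.sum_congr rfl fun a _ => ?_
    rw [Finset.sum_congr rfl fun b _ => h5 a b, Finset.sum_add_distrib, ← Finset.mul_sum, ← Finset.mul_sum, h3]
  rw [h6, Finset.sum_add_distrib, ← Finset.sum_mul, ← Finset.sum_mul, h3]
  ring

/-- the linear map -/
private def V21_L {R : Type} [CommRing R] {g m s : ℕ} (Lm : Matrix (Fin s) (Kx g m) R) (x : Kx g m → R) :
    Matrix (Nx g) (Nx g) R →ₗ[R] (Fin s → R) where
  toFun M := Lm *ᵥ ((KS M : Matrix (Kx g m) (Kx g m) R) *ᵥ x)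
  map_add' M N := by
    rw [KS_add, Matrix.add_mulVec, Matrix.mulVec_add]
  map_smul' c M := by
    rw [KS_smul, Matrix.smul_mulVec, Matrix.mulVec_smul]
    rfl

private theorem V21_one {R : Type} [CommRing R] {g m s : ℕ} (Lm : Matrix (Fin s) (Kx g m) R) :
    Lm.map (RingHom.id R) = Lm := by
  ext i j
  rfl

/-- Proof. For standard vectors: `L_rep` (`f = RingHom.id`): `d • x = ∑ b, c b • Φ b + v`, apply `KS (tr e_u e_v) *ᵥ ·` and `Lm *ᵥ ·`: the terms with `Φ b` vanish by `htr`, that with `v` by `van_KS_poly` (`tr_symp`) and `L_van`; `d ≠ 0`. In general `tr (C ∘ y) (C ∘ z) = ∑ u v, C (y u) * C (z v) • tr e_u e_v` (bilinear), `KS` is linear. -/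
theorem Lm_tr {g m r s D₁ D₂ : ℕ} {k : Type} [Field k] (h2 : (2 : k) ≠ 0) {D : Dat g k} {Φ : ℕ → Kx g m → k[X]} {d : k[X]}
    {Lm : Matrix (Fin s) (Kx g m) k[X]} (hP : Pk D m r s D₁ D₂ Φ d Lm)
    (htr : ∀ (u v : Nx g) (b : ℕ), b < r →
      Lm *ᵥ ((KS (tr (Pi.single u (1 : k[X])) (Pi.single v (1 : k[X]))) : Matrix (Kx g m) (Kx g m) k[X]) *ᵥ Φ b) = 0)
    (y z : Nx g → k) (x : Kx g m → k[X]) (hx : Lm *ᵥ x = 0) :
    Lm *ᵥ ((KS (tr (fun i => C (y i)) (fun i => C (z i))) : Matrix (Kx g m) (Kx g m) k[X]) *ᵥ x) = 0 := by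
  obtain ⟨c, v, hv, he⟩ := hP.L_rep k[X] (RingHom.id _) x (by rw [V21_one]; exact hx)
  have key : ∀ a b : Nx g, Lm *ᵥ ((KS (tr (Pi.single a (1 : k[X])) (Pi.single b (1 : k[X]))) :
      Matrix (Kx g m) (Kx g m) k[X]) *ᵥ x) = 0 := by
    intro a b
    have h3 := hP.L_van k[X] (RingHom.id _) _ (van_KS_poly h2 v hv _
      (tr_symp (Pi.single a (1 : k[X])) (Pi.single b (1 : k[X]))))
    rw [V21_one] at h3
    have h4 : d • (Lm *ᵥ ((KS (tr (Pi.single a (1 : k[X])) (Pi.single b (1 : k[X]))) :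
      Matrix (Kx g m) (Kx g m) k[X]) *ᵥ x)) = 0 := by
      rw [← Matrix.mulVec_smul, ← Matrix.mulVec_smul]
      have he' : d • x = (∑ b : Fin r, c b • Φ b) + v := he
      rw [he', Matrix.mulVec_add, Matrix.mulVec_add, h3, add_zero]
      have h5 : ∀ (B : Finset (Fin r)), Lm *ᵥ ((KS (tr (Pi.single a (1 : k[X])) (Pi.single b (1 : k[X]))) :
          Matrix (Kx g m) (Kx g m) k[X]) *ᵥ (∑ b ∈ B, c b • Φ b)) = 0 := by
        intro B
        classical
        induction B using Finset.induction_on with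
        | empty => rw [Finset.sum_empty, Matrix.mulVec_zero, Matrix.mulVec_zero]
        | insert i B hi ih =>
          rw [Finset.sum_insert hi, Matrix.mulVec_add, Matrix.mulVec_add, ih, add_zero,
            Matrix.mulVec_smul, Matrix.mulVec_smul, htr a b i i.2, smul_zero]
      exact h5 _
    exact (smul_eq_zero.1 h4).resolve_left hP.d_ne
  have h1 : V21_L Lm x (tr (fun i => C (y i)) (fun i => C (z i))) = 0 := by
    rw [V21_tr, map_sum]
    refine Finset.sum_eq_zero fun a _ => ?_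
    rw [map_sum]
    refine Finset.sum_eq_zero fun b _ => ?_
    rw [map_smul]
    have h6 : V21_L Lm x (tr (Pi.single a (1 : k[X])) (Pi.single b (1 : k[X]))) = 0 := key a b
    rw [h6, smul_zero]
  exact h1

private theorem V21_JJ {R S : Type} [CommRing R] [CommRing S] (g : ℕ) (f : R →+* S) : (JJ g R).map f = JJ g S := by
  unfold JJ
  rw [Matrix.fromBlocks_map, Matrix.map_zero _ (map_zero f), Matrix.map_one _ (map_zero f) (map_one f)]
  congr 1
  ext i j
  rw [Matrix.map_apply, Matrix.neg_apply, map_neg, Matrix.neg_apply]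
  by_cases h : i = j
  · rw [h, Matrix.one_apply_eq, Matrix.one_apply_eq, map_one]
  · rw [Matrix.one_apply_ne h, Matrix.one_apply_ne h, map_zero]

private theorem V21_trm {R S : Type} [CommRing R] [CommRing S] {g : ℕ} (f : R →+* S) (u v : Nx g → R) :
    (tr u v).map f = tr (fun i => f (u i)) (fun i => f (v i)) := by
  have h1 : ∀ i l, f (JJ g R i l) = JJ g S i l := fun i l => congrFun (congrFun (V21_JJ g f) i) l
  have h2 : ∀ (x : Nx g → R) (i : Nx g), f ((JJ g R *ᵥ x) i) = (JJ g S *ᵥ fun j => f (x j)) i := by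
    intro x i
    show f (∑ l, JJ g R i l * x l) = ∑ l, JJ g S i l * f (x l)
    rw [map_sum]
    exact Finset.sum_congr rfl fun l _ => by rw [map_mul, h1]
  ext i j
  show f ((JJ g R *ᵥ u) i * v j + (JJ g R *ᵥ v) i * u j) = (JJ g S *ᵥ fun i => f (u i)) i * f (v j) +
    (JJ g S *ᵥ fun i => f (v i)) i * f (u j)
  rw [map_add, map_mul, map_mul, h2, h2]

/-- Proof. The set of the `fun t => (x t).eval α`, `Lm *ᵥ x = 0`, is a `k`-submodule `W` of `Kx g m → k` (image of a submodule under a linear map; `c • x` with `C c`), stable under `KS (tr y z)` by `Lm_tr` (`KS_map` with `evalRingHom α`; the evaluation of `tr (C ∘ y) (C ∘ z)` is `tr y z`). The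
frame `D.U.map (eval α)` is isotropic (`isoU` evaluated) with linearly independent rows (`rkU`). `van_of_stable_e`. -/
theorem van_red {g m p c r s D₁ D₂ : ℕ} {k : Type} [Field k] [Infinite k] (h2 : (2 : k) ≠ 0)
    (hF : ∀ n : ℕ, n < m → ((n + 1 : ℕ) : k) ≠ 0) {D : Dat g k} (hD : D.Ok p c) (α : k) (hα : D.Δ.eval α ≠ 0)
    {Φ : ℕ → Kx g m → k[X]} {d : k[X]} {Lm : Matrix (Fin s) (Kx g m) k[X]} (hP : Pk D m r s D₁ D₂ Φ d Lm)
    (htr : ∀ (u v : Nx g) (b : ℕ), b < r →
      Lm *ᵥ ((KS (tr (Pi.single u (1 : k[X])) (Pi.single v (1 : k[X]))) : Matrix (Kx g m) (Kx g m) k[X]) *ᵥ Φ b) = 0)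
    (hev : ∀ x : Kx g m → k[X], Lm *ᵥ x = 0 → ev (D.U.map (eval α)) (fun t => (x t).eval α) = 0)
    (x : Kx g m → k[X]) (hx : Lm *ᵥ x = 0) : Van fun t => (x t).eval α := by
  let W : Submodule k (Kx g m → k) :=
    { carrier := {φ | ∃ x : Kx g m → k[X], Lm *ᵥ x = 0 ∧ φ = fun t => (x t).eval α}
      add_mem' := by
        rintro _ _ ⟨x, hx, rfl⟩ ⟨y, hy, rfl⟩
        refine ⟨x + y, by rw [Matrix.mulVec_add, hx, hy, add_zero], ?_⟩
        funext t
        show (x t).eval α + (y t).eval α = (x t + y t).eval α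
        rw [eval_add]
      zero_mem' := by
        refine ⟨0, Matrix.mulVec_zero _, ?_⟩
        funext t
        show (0 : k) = (0 : k[X]).eval α
        rw [eval_zero]
      smul_mem' := by
        rintro c _ ⟨x, hx, rfl⟩
        refine ⟨C c • x, by rw [Matrix.mulVec_smul, hx, smul_zero], ?_⟩
        funext t
        show c * (x t).eval α = (C c * x t).eval α
        rw [eval_mul, eval_C] }
  have hW : ∀ (u v : Nx g → k), ∀ φ ∈ W, KS (tr u v) *ᵥ φ ∈ W := by
    rintro u v _ ⟨x, hx, rfl⟩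
    refine ⟨_, Lm_tr h2 hP htr u v x hx, ?_⟩
    funext t
    have h3 := RingHom.map_mulVec (evalRingHom α)
      (KS (tr (fun i => C (u i)) (fun i => C (v i))) : Matrix (Kx g m) (Kx g m) k[X]) x t
    rw [coe_evalRingHom] at h3
    rw [h3]
    have h4 : (KS (tr (fun i => C (u i)) (fun i => C (v i))) : Matrix (Kx g m) (Kx g m) k[X]).map
        (evalRingHom α) = KS (tr u v) := by
      rw [KS_map, V21_trm]
      have h5 : ∀ w : Nx g → k, (fun i => evalRingHom α (C (w i))) = w := fun w => funext fun i => by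
        rw [coe_evalRingHom, eval_C]
      rw [h5, h5]
    have h6 : (KS (tr (fun i => C (u i)) (fun i => C (v i))) : Matrix (Kx g m) (Kx g m) k[X]).map
        (eval α) = KS (tr u v) := h4
    rw [h6]
    rfl
  have hi : (D.U.map (eval α)) * JJ g k * (D.U.map (eval α))ᵀ = 0 := by
    have h3 := congrArg (fun M : Matrix (Fin g) (Fin g) k[X] => M.map (evalRingHom α)) hD.isoU
    simp only [Matrix.map_mul, V21_JJ] at h3
    have h4 : (0 : Matrix (Fin g) (Fin g) k[X]).map (evalRingHom α) = 0 := Matrix.map_zero _ (map_zero _)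
    rw [h4] at h3
    exact h3
  exact van_of_stable_e h2 hF W hW (D.U.map (eval α)) hi (hD.rkU α hα)
    (by
      rintro _ ⟨y, hy, rfl⟩
      exact hev y hy) _ ⟨x, hx, rfl⟩

/-- Proof. By induction on `n` there are `x`, `v` with `Lm *ᵥ x = 0`, `Van v` and `Φ 0 = (X - C α) ^ n • x + v`: `n = 0`: `x = Φ 0` (`L_Φ`). Step: `Van (x(α))` by `hred`, so `Van (C ∘ x(α))` (`van_map`); `x t - C ((x t).eval α) = (X - C α) * x' t` (`mul_divByMonic_eq_iff_isRoot`, `dvd_iff_isRoot`); `(X - C α) • (Lm *ᵥ x') =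
Lm *ᵥ x - Lm *ᵥ (C ∘ x(α)) = 0` (`L_van`), so `Lm *ᵥ x' = 0`, and `Φ 0 = (X - C α) ^ (n + 1) • x' + ((X - C α) ^ n • (C ∘ x(α)) + v)`. Now take the integer equations `Γ` of `van_int`: `∑ t, Φ 0 t * Γ i t` is divisible by `(X - C α) ^ n` for all `n`, so it is zero (degree): `Van (Φ 0)`. -/
theorem van_of_red {g m r s D₁ D₂ : ℕ} {k : Type} [Field k] {D : Dat g k} (α : k) {Φ : ℕ → Kx g m → k[X]} {d : k[X]}
    {Lm : Matrix (Fin s) (Kx g m) k[X]} (hP : Pk D m r s D₁ D₂ Φ d Lm)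
    (hred : ∀ x : Kx g m → k[X], Lm *ᵥ x = 0 → Van fun t => (x t).eval α) : Van (Φ 0) := by
  have hX : (X - C α : k[X]) ≠ 0 := X_sub_C_ne_zero α
  have key : ∀ n : ℕ, ∃ x v : Kx g m → k[X], Lm *ᵥ x = 0 ∧ Van v ∧ Φ 0 = (X - C α) ^ n • x + v := by
    intro n
    induction n with
    | zero => exact ⟨Φ 0, 0, hP.L_Φ 0 (Nat.zero_le r), van_zero, by rw [pow_zero, one_smul, add_zero]⟩
    | succ n ih =>
      obtain ⟨x, v, hx, hv, he⟩ := ih
      have h1 : Van fun t => C ((x t).eval α) := van_map C (hred x hx)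
      have h2 : x = (X - C α) • (fun t => x t /ₘ (X - C α)) + fun t => C ((x t).eval α) := by
        funext t
        show x t = (X - C α) * (x t /ₘ (X - C α)) + C ((x t).eval α)
        have h3 := modByMonic_add_div (x t) (X - C α)
        rw [modByMonic_X_sub_C_eq_C_eval] at h3
        rw [add_comm]
        exact h3.symm
      have h4 := hP.L_van k[X] (RingHom.id _) _ h1
      rw [V21_one] at h4
      have h5 : Lm *ᵥ (fun t => x t /ₘ (X - C α)) = 0 := by
        have h6 := hx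
        rw [h2, Matrix.mulVec_add, h4, add_zero, Matrix.mulVec_smul] at h6
        exact (smul_eq_zero.1 h6).resolve_left hX
      refine ⟨fun t => x t /ₘ (X - C α), (X - C α) ^ n • (fun t => C ((x t).eval α)) + v, h5,
        van_add (van_smul _ h1) hv, ?_⟩
      rw [he, pow_succ, mul_smul, ← add_assoc, ← smul_add, ← h2]
  obtain ⟨N, Γ, hN⟩ := van_int g m
  rw [hN]
  intro i
  by_contra h0
  obtain ⟨x, v, _, hv, he⟩ := key ((∑ s, Φ 0 s * (Γ i s : k[X])).natDegree + 1)
  have h1 : (∑ s, Φ 0 s * (Γ i s : k[X])) =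
      (X - C α) ^ ((∑ s, Φ 0 s * (Γ i s : k[X])).natDegree + 1) * ∑ s, x s * (Γ i s : k[X]) := by
    conv_lhs => rw [he]
    have h2 : ∀ s, ((X - C α) ^ ((∑ s, Φ 0 s * (Γ i s : k[X])).natDegree + 1) • x + v) s * (Γ i s : k[X]) =
        (X - C α) ^ ((∑ s, Φ 0 s * (Γ i s : k[X])).natDegree + 1) * (x s * (Γ i s : k[X])) +
          v s * (Γ i s : k[X]) := by
      intro s
      rw [Pi.add_apply, Pi.smul_apply, smul_eq_mul]
      ring
    rw [Finset.sum_congr rfl fun s _ => h2 s, Finset.sum_add_distrib, (hN _ _).1 hv i, add_zero,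
      ← Finset.mul_sum]
  have h3 := natDegree_le_of_dvd (Dvd.intro _ h1.symm) h0
  rw [natDegree_pow, natDegree_X_sub_C] at h3
  omega

end MPadcOA
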