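import Mathlib

/-! LEAF V6: a minor which is not zero -/

set_option autoImplicit false

namespace MPadcOA

open Matrix

/-- Proof. Pass to the fraction field `F` of `A`: the vectors `y b` stay linearly independent (`LinearIndependent.map'`/`LinearIndependent.localization` or clear denominators), so the matrix
`Y i b = y b i` (`s × r`) over `F` has rank `r` (`LinearIndependent` of the columns), so its rows span an `r`-dimensional space (`Matrix.rank_eq_finrank_span_row`) and there are `r` linearly
independent rows (`exists_linearIndependent'`, reindex by `Fin r`): the `r × r` matrix of these rows has linearly independent rows, so its determinant is not zero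
(`Matrix.linearIndependent_rows_iff_isUnit`); go back to `A` (`RingHom.map_det`, injectivity). -/
theorem exists_minor {A : Type} [CommRing A] [IsDomain A] {r s : ℕ} (y : Fin r → Fin s → A) (hy : LinearIndependent A y) :
    ∃ J : Fin r → Fin s, (Matrix.of fun a b : Fin r => y b (J a)).det ≠ 0 := by
  classical
  have hinj : Function.Injective (algebraMap A (FractionRing A)) := IsFractionRing.injective A _
  let L : (Fin s → A) →ₗ[A] (Fin s → FractionRing A) := (Algebra.linearMap A (FractionRing A)).compLeft (Fin s)
  have hL : LinearMap.ker L = ⊥ := LinearMap.ker_eq_bot.2 fun u v h => funext fun i => hinj (congrFun h i)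
  have h1 : LinearIndependent A (fun b => L (y b)) := hy.map' L hL
  have h2 : LinearIndependent (FractionRing A) (fun b => L (y b)) :=
    LinearIndependent.localization (FractionRing A) (nonZeroDivisors A) h1
  let N : Matrix (Fin r) (Fin s) (FractionRing A) := Matrix.of fun b i => algebraMap A (FractionRing A) (y b i)
  have h3 : N.rank = r := by
    have h := LinearIndependent.rank_matrix (M := N) h2
    rwa [Fintype.card_fin] at h
  obtain ⟨κ, a, ha, hsp, hli⟩ := exists_linearIndependent' (FractionRing A) N.col
  have hF : Fintype κ := Fintype.ofInjective a ha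
  have hcard : Fintype.card κ = r := by
    rw [← finrank_span_eq_card hli, hsp, ← Matrix.rank_eq_finrank_span_cols, h3]
  let e : Fin r ≃ κ := (Fintype.equivFinOfCardEq hcard).symm
  refine ⟨fun i => a (e i), fun h0 => ?_⟩
  have h4 : LinearIndependent (FractionRing A) (fun i : Fin r => N.col (a (e i))) := hli.comp e e.injective
  have h5 : IsUnit (Matrix.of fun i b : Fin r => N b (a (e i))) := Matrix.linearIndependent_rows_iff_isUnit.1 h4
  rw [Matrix.isUnit_iff_isUnit_det] at h5
  have h6 : (Matrix.of fun i b : Fin r => N b (a (e i))).det =
      algebraMap A (FractionRing A) (Matrix.of fun i b : Fin r => y b (a (e i))).det := by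
    rw [RingHom.map_det]
    rfl
  rw [h6, h0, map_zero] at h5
  exact not_isUnit_zero h5

/-- Proof. `Matrix.det_apply`: a sum over the permutations of products of `r` entries (`natDegree_sum_le_of_forall_le`, `natDegree_prod_le`, the sign has degree `0`). -/
theorem natDegree_det_e {k : Type} [Field k] {r : ℕ} (M : Matrix (Fin r) (Fin r) (Polynomial k)) (d : ℕ)
    (hM : ∀ i j, (M i j).natDegree ≤ d) : M.det.natDegree ≤ r * d := by
  rw [Matrix.det_apply]
  refine Polynomial.natDegree_sum_le_of_forall_le _ _ fun σ _ => ?_
  have h1 : (∏ i, M (σ i) i).natDegree ≤ r * d := by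
    refine (Polynomial.natDegree_prod_le _ _).trans ((Finset.sum_le_sum fun i _ => hM (σ i) i).trans ?_)
    rw [Finset.sum_const, Finset.card_univ, Fintype.card_fin, smul_eq_mul]
  rcases Int.units_eq_one_or (Equiv.Perm.sign σ) with h | h
  · rw [h, one_smul]
    exact h1
  · rw [h, Units.neg_smul, one_smul, Polynomial.natDegree_neg]
    exact h1

/-- Proof. `Matrix.adjugate_apply`: an entry of the adjugate is the determinant of `M` with one row replaced by a row of entries `0` and `1` (degree `0 ≤ d`), and `natDegree_det_e`. -/
theorem natDegree_adjugate_e {k : Type} [Field k] {r : ℕ} (M : Matrix (Fin r) (Fin r) (Polynomial k)) (d : ℕ)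
    (hM : ∀ i j, (M i j).natDegree ≤ d) (i j : Fin r) : (M.adjugate i j).natDegree ≤ r * d := by
  rw [Matrix.adjugate_apply]
  refine natDegree_det_e _ d fun i' j' => ?_
  rw [Matrix.updateRow_apply]
  by_cases h : i' = j
  · rw [if_pos h]
    by_cases h' : j' = i
    · rw [h', Pi.single_eq_same, Polynomial.natDegree_one]
      exact Nat.zero_le _
    · rw [Pi.single_eq_of_ne h', Polynomial.natDegree_zero]
      exact Nat.zero_le _
  · rw [if_neg h]
    exact hM i' j'

end MPadcOA
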