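import Pool.Agent.Lib.MP_adc574_ag_OA.V0
import Pool.Agent.Lib.MP_adc574_ag_OA.V6

/-! LEAF V7: the small equations of the invariant space generated by a form -/

set_option autoImplicit false

namespace MPadcOA

open Matrix Polynomial

private theorem V7_first {k : Type} [Field k] {s : ℕ} (y : ℕ → Fin s → k[X]) :
    ∃ r ≤ s, LinearIndependent k[X] (fun b : Fin r => y b) ∧
      ∃ (e : Fin r → k[X]) (e0 : k[X]), e0 ≠ 0 ∧ ∑ b : Fin r, e b • y b + e0 • y r = 0 := by
  classical
  have hex : ∃ n, ¬ LinearIndependent k[X] (fun b : Fin n => y b) := by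
    refine ⟨s + 1, fun h => ?_⟩
    have h1 := h.fintype_card_le_finrank
    rw [Fintype.card_fin, Module.finrank_fin_fun] at h1
    omega
  obtain ⟨n, hn⟩ : ∃ n, n = Nat.find hex := ⟨_, rfl⟩
  have h1 : ¬ LinearIndependent k[X] (fun b : Fin n => y b) := by
    rw [hn]
    exact Nat.find_spec hex
  have h2 : ∀ m < n, LinearIndependent k[X] (fun b : Fin m => y b) := fun m hm => by
    rw [hn] at hm
    exact not_not.1 (Nat.find_min hex hm)
  have h3 : n ≤ s + 1 := by
    rw [hn]
    refine Nat.find_min' hex fun h => ?_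
    have h1 := h.fintype_card_le_finrank
    rw [Fintype.card_fin, Module.finrank_fin_fun] at h1
    omega
  rcases n with _ | r
  · exact absurd linearIndependent_empty_type h1
  · refine ⟨r, by omega, h2 r (by omega), ?_⟩
    rw [Fintype.not_linearIndependent_iff] at h1
    obtain ⟨c, hc, i, hi⟩ := h1
    rw [Fin.sum_univ_castSucc] at hc
    refine ⟨fun b => c b.castSucc, c (Fin.last r), fun h0 => ?_, hc⟩
    rw [h0, zero_smul, add_zero] at hc
    have h4 := Fintype.linearIndependent_iff.1 (h2 r (by omega)) (fun b => c b.castSucc) hc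
    rcases Fin.eq_castSucc_or_eq_last i with ⟨j, rfl⟩ | rfl
    · exact hi (h4 j)
    · exact hi h0

private theorem V7_mulVec_map {R S : Type} [CommRing R] [CommRing S] {α β : Type} [Fintype β]
    (f : R →+* S) (M : Matrix α β R) (v : β → R) (i : α) :
    f ((M *ᵥ v) i) = (M.map f *ᵥ fun j => f (v j)) i := by
  unfold Matrix.mulVec dotProduct
  rw [map_sum]
  exact Finset.sum_congr rfl fun j _ => map_mul _ _ _

/-- Proof. Let `γ x i := ∑ t, C (Γ i t) * x t` for `x : Kx g m → k[X]` (linear), `y b := γ (Φ b) : Fin s → k[X]`. Let `r ≤ s` be maximal such that `fun b : Fin r => y b` is linearly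
independent over `k[X]` (`Nat.findGreatest`; `r = 0` is possible, the empty family is independent). Then there are `e : ℕ → k[X]` with `∑ b ∈ range (r + 1), e b • y b = 0` and `e r ≠ 0`: the family
`y 0, …, y r` is dependent (maximality if `r < s`; if `r = s` as `s + 1` vectors of `k[X] ^ s` are dependent: `LinearIndependent.fintype_card_le_finrank` or similar) and `e r = 0` would contradict
the independence of the first `r`. `exists_minor`: `J`; put `Y := Matrix.of fun a b : Fin r => y b (J a)`, `d := Y.det`,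
`Lm i t := d * C (Γ i t) - ∑ b : Fin r, ∑ a : Fin r, y b i * Y.adjugate b a * C (Γ (J a) t)`.
Degrees: `y b i` has degree `≤ D₀` for `b ≤ s`, so `d` and the entries of the adjugate have degree `≤ r D₀` (`natDegree_det_e`, `natDegree_adjugate_e`) and `Lm i t` has degree `≤ (r + 1) D₀`.
For every ring `R`, `f : k[X] →+* R`, `x : Kx g m → R`, with `γ' i := ∑ t, f (C (Γ i t)) * x t`: `(Lm.map f *ᵥ x) i = f d * γ' i - ∑ b, ∑ a, f (y b i) * f (Y.adjugate b a) * γ' (J a)` (∗).
`L_van`: `Van x` implies `γ' = 0` (`hΓ` for `f.comp C`). `L_Φ` for `b < r`: `∑ a, Y.adjugate b' a * y b (J a) = (Y.adjugate * Y) b' b = d * δ` (`Matrix.adjugate_mul`), so (∗) with `f = id`, `x = Φ b` is zero. `L_Φ` for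
`b = r`: multiply by `e r` and use the relation (`Lm *ᵥ x` only depends on `γ x` linearly). `L_rep`: `c b := ∑ a, f (Y.adjugate b a) * γ' (J a)`; by (∗) and `Lm.map f *ᵥ x = 0`: `f d * γ' i = ∑ b, c b * f (y b i)`, so
`v := f d • x - ∑ b, c b • (f ∘ Φ b)` has `∑ t, f (C (Γ i t)) * v t = 0` for all `i`, hence `Van v` (`hΓ`). -/
theorem exists_pk {g m : ℕ} {k : Type} [Field k] (D : Dat g k) (s D₀ : ℕ) (Γ : Fin s → Kx g m → k)
    (hΓ : ∀ (R : Type) [CommRing R] (f : k →+* R) (φ : Kx g m → R), Van φ ↔ ∀ i, ∑ t, f (Γ i t) * φ t = 0)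
    (Φ : ℕ → Kx g m → k[X]) (hstep : ∀ b, Φ (b + 1) = opD D.Δ D.G (Φ b)) (hΦ : ∀ b ≤ s, ∀ t, (Φ b t).natDegree ≤ D₀) :
    ∃ (r : ℕ) (d : k[X]) (Lm : Matrix (Fin s) (Kx g m) k[X]), r ≤ s ∧ Pk D m r s ((s + 1) * D₀) D₀ Φ d Lm := by
  classical
  obtain ⟨GC, hGC⟩ : ∃ GC : Matrix (Fin s) (Kx g m) k[X], GC = Matrix.of fun i t => C (Γ i t) := ⟨_, rfl⟩
  obtain ⟨y, hy⟩ : ∃ y : ℕ → Fin s → k[X], y = fun b => GC *ᵥ Φ b := ⟨_, rfl⟩
  have hyb : ∀ b, GC *ᵥ Φ b = y b := fun b => by rw [hy]
  obtain ⟨r, hr, hli, e, e0, he0, hrel⟩ := V7_first y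
  obtain ⟨J, hJ⟩ := exists_minor _ hli
  obtain ⟨Y, hY⟩ : ∃ Y : Matrix (Fin r) (Fin r) k[X], Y = Matrix.of fun a b : Fin r => y b (J a) := ⟨_, rfl⟩
  rw [← hY] at hJ
  obtain ⟨B, hB⟩ : ∃ B : Matrix (Fin s) (Fin r) k[X], B = Matrix.of fun i (b : Fin r) => y b i := ⟨_, rfl⟩
  obtain ⟨S, hS⟩ : ∃ S : Matrix (Fin r) (Fin s) k[X], S = Matrix.of fun a i => if i = J a then 1 else 0 := ⟨_, rfl⟩
  obtain ⟨TM, hTM⟩ : ∃ TM : Matrix (Fin s) (Fin s) k[X],
    TM = Y.det • (1 : Matrix (Fin s) (Fin s) k[X]) - B * (Y.adjugate * S) := ⟨_, rfl⟩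
  have hvan : ∀ (R : Type) [CommRing R] (f : k[X] →+* R) (x : Kx g m → R), Van x ↔ GC.map f *ᵥ x = 0 := by
    intro R _ f x
    rw [hΓ R (f.comp C) x]
    constructor
    · intro h
      funext i
      have h1 := h i
      rw [hGC]
      exact h1
    · intro h i
      have h1 := congrFun h i
      rw [hGC] at h1
      exact h1
  have hT : ∀ (R : Type) [CommRing R] (f : k[X] →+* R) (z : Fin s → R),
      TM.map f *ᵥ z = f Y.det • z - B.map f *ᵥ (Y.adjugate.map f *ᵥ (S.map f *ᵥ z)) := by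
    intro R _ f z
    have h1 : TM.map f = f Y.det • (1 : Matrix (Fin s) (Fin s) R) - B.map f * (Y.adjugate.map f * S.map f) := by
      rw [hTM, Matrix.map_sub _ (map_sub f), Matrix.map_mul, Matrix.map_mul]
      congr 1
      ext i j
      rw [Matrix.map_apply, Matrix.smul_apply, Matrix.smul_apply, smul_eq_mul, smul_eq_mul, map_mul,
        Matrix.one_apply, Matrix.one_apply]
      split_ifs
      · rw [map_one]
      · rw [map_zero]
    rw [h1, Matrix.sub_mulVec, Matrix.smul_mulVec, Matrix.one_mulVec, ← Matrix.mulVec_mulVec, ← Matrix.mulVec_mulVec]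
  have hyd : ∀ b ≤ s, ∀ i, (y b i).natDegree ≤ D₀ := by
    intro b hb i
    rw [hy, hGC]
    refine natDegree_sum_le_of_forall_le _ _ fun t _ => ?_
    exact (natDegree_C_mul_le _ _).trans (hΦ b hb t)
  have hYd : ∀ i j, (Y i j).natDegree ≤ D₀ := by
    intro i j
    rw [hY]
    exact hyd j (by have := j.2; omega) (J i)
  have hdd : Y.det.natDegree ≤ r * D₀ := natDegree_det_e Y D₀ hYd
  have hrs : r * D₀ ≤ s * D₀ := Nat.mul_le_mul_right _ hr
  have hTd : ∀ i j, (TM i j).natDegree ≤ (s + 1) * D₀ := by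
    intro i j
    rw [hTM, Matrix.sub_apply]
    refine (natDegree_sub_le _ _).trans (max_le ?_ ?_)
    · rw [Matrix.smul_apply, smul_eq_mul, Matrix.one_apply]
      split_ifs
      · rw [mul_one]
        nlinarith
      · rw [mul_zero, natDegree_zero]
        exact Nat.zero_le _
    · rw [Matrix.mul_apply]
      refine natDegree_sum_le_of_forall_le _ _ fun b _ => ?_
      refine natDegree_mul_le.trans ?_
      have h1 : (B i b).natDegree ≤ D₀ := by
        rw [hB]
        exact hyd b (by have := b.2; omega) i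
      have h2 : ((Y.adjugate * S) b j).natDegree ≤ r * D₀ := by
        rw [Matrix.mul_apply]
        refine natDegree_sum_le_of_forall_le _ _ fun a _ => ?_
        rw [hS]
        show (Y.adjugate b a * (if j = J a then 1 else 0)).natDegree ≤ _
        split_ifs
        · rw [mul_one]
          exact natDegree_adjugate_e Y D₀ hYd b a
        · rw [mul_zero, natDegree_zero]
          exact Nat.zero_le _
      calc (B i b).natDegree + ((Y.adjugate * S) b j).natDegree ≤ D₀ + s * D₀ := by omega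
        _ = (s + 1) * D₀ := by ring
  have hTy : ∀ b : Fin r, TM *ᵥ y b = 0 := by
    intro b
    have h1 := hT k[X] (RingHom.id _) (y b)
    have h2 : ∀ {α β : Type} (M : Matrix α β k[X]), M.map (RingHom.id k[X]) = M := fun M => by
      ext i j
      rfl
    rw [h2, h2, h2, h2, RingHom.id_apply] at h1
    have h3 : S *ᵥ y b = Y *ᵥ Pi.single b 1 := by
      funext a
      rw [Matrix.mulVec_single_one, hS, hY]
      show ∑ i, (if i = J a then (1 : k[X]) else 0) * y b i = y b (J a)
      simp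
    have h4 : Y.adjugate *ᵥ (S *ᵥ y b) = Y.det • Pi.single b 1 := by
      rw [h3, Matrix.mulVec_mulVec, Matrix.adjugate_mul, Matrix.smul_mulVec, Matrix.one_mulVec]
    rw [h4, Matrix.mulVec_smul, Matrix.mulVec_single_one] at h1
    rw [h1, hB]
    funext i
    exact sub_self _
  have hTr : TM *ᵥ y r = 0 := by
    have h1 : e0 • (TM *ᵥ y r) = 0 := by
      rw [← Matrix.mulVec_smul, eq_neg_of_add_eq_zero_right hrel, Matrix.mulVec_neg, Matrix.mulVec_sum]
      rw [Finset.sum_eq_zero, neg_zero]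
      intro b _
      rw [Matrix.mulVec_smul, hTy b, smul_zero]
    exact (smul_eq_zero.1 h1).resolve_left he0
  refine ⟨r, Y.det, TM * GC, hr, ⟨hJ, ?_, ?_, fun b hb t => hΦ b (hb.trans hr) t, hstep, ?_, ?_, ?_⟩⟩
  · calc Y.det.natDegree ≤ s * D₀ := hdd.trans hrs
      _ ≤ (s + 1) * D₀ := Nat.mul_le_mul_right _ (by omega)
  · intro i t
    rw [Matrix.mul_apply]
    refine natDegree_sum_le_of_forall_le _ _ fun j _ => ?_
    rw [hGC]
    exact (natDegree_mul_C_le _ _).trans (hTd i j)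
  · intro b hb
    rw [← Matrix.mulVec_mulVec, hyb]
    rcases Nat.lt_or_ge b r with h | h
    · exact hTy ⟨b, h⟩
    · have h1 : b = r := le_antisymm hb h
      rw [h1]
      exact hTr
  · intro R _ f x hx
    rw [Matrix.map_mul, ← Matrix.mulVec_mulVec, (hvan R f x).1 hx, Matrix.mulVec_zero]
  · intro R _ f x hx
    rw [Matrix.map_mul, ← Matrix.mulVec_mulVec, hT] at hx
    obtain ⟨c, hc⟩ : ∃ c : Fin r → R, c = Y.adjugate.map f *ᵥ (S.map f *ᵥ (GC.map f *ᵥ x)) := ⟨_, rfl⟩
    rw [← hc] at hx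
    refine ⟨c, f Y.det • x - ∑ b : Fin r, c b • fun t => f (Φ b t), ?_, ?_⟩
    · rw [hvan R f, Matrix.mulVec_sub, Matrix.mulVec_smul, Matrix.mulVec_sum]
      rw [sub_eq_zero] at hx ⊢
      rw [hx]
      funext i
      rw [Finset.sum_apply]
      unfold Matrix.mulVec dotProduct
      refine Finset.sum_congr rfl fun b _ => ?_
      have h1 : f (y b i) = (GC.map f *ᵥ fun t => f (Φ b t)) i := by
        rw [← hyb]
        exact V7_mulVec_map f GC (Φ b) i
      show B.map f i b * c b = (GC.map f *ᵥ (c b • fun t => f (Φ b t))) i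
      rw [Matrix.mulVec_smul, Pi.smul_apply, ← h1, hB, smul_eq_mul, mul_comm]
      rfl
    · abel

end MPadcOA
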