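import Pool.Agent.Lib.MP_adc574_ag_OA.V5
import Pool.Agent.Lib.MP_adc574_ag_OA.V7
import Pool.Agent.Lib.MP_adc574_ag_OA.V19
import Pool.Agent.Lib.MP_adc574_ag_OA.V20
import Pool.Agent.Lib.MP_adc574_ag_OA.V21

/-! LEAF V22: the effective non-vanishing theorem -/

set_option autoImplicit false

namespace MPadcOA

open Matrix Polynomial

private theorem V22_natDegree_Δ {g : ℕ} {k : Type} [Field k] (D : Dat g k) : D.Δ.natDegree = 2 * g := by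
  rw [Dat.Δ, natDegree_prod_of_monic _ _ fun j _ => monic_X_sub_C _]
  simp

private theorem V22_deg_op {g m p c : ℕ} {k : Type} [Field k] (D : Dat g k) (hD : D.Ok p c)
    (φ : Kx g m → k[X]) (n : ℕ) (hφ : ∀ s, (φ s).natDegree ≤ n) (s : Kx g m) :
    (opD D.Δ D.G φ s).natDegree ≤ n + (c + 2 * g) := by
  unfold opD
  refine (natDegree_add_le _ _).trans (max_le ?_ ?_)
  · refine natDegree_mul_le.trans ?_
    rw [V22_natDegree_Δ D]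
    have h1 := natDegree_derivative_le (φ s)
    have h2 := hφ s
    omega
  · rw [KS_mulVec]
    refine natDegree_sum_le_of_forall_le _ _ fun i _ => ?_
    refine natDegree_sum_le_of_forall_le _ _ fun l _ => ?_
    refine natDegree_mul_le.trans ?_
    have h1 := hD.degG (s i).2 l
    have h2 := hφ (Function.update s i ((s i).1, l))
    omega

private theorem V22_deg_iter {g m p c : ℕ} {k : Type} [Field k] (D : Dat g k) (hD : D.Ok p c)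
    (Φ : Kx g m → k[X]) (A : ℕ) (hΦ : ∀ s, (Φ s).natDegree ≤ A) (b : ℕ) :
    ∀ t, (((opD D.Δ D.G)^[b] Φ) t).natDegree ≤ A + b * (c + 2 * g) := by
  induction b with
  | zero =>
    intro t
    rw [Function.iterate_zero, id, zero_mul, add_zero]
    exact hΦ t
  | succ b ih =>
    intro t
    rw [Function.iterate_succ_apply']
    refine (V22_deg_op D hD _ _ ih t).trans ?_
    rw [add_mul, one_mul]
    omega

private theorem V22_lin (C₀ Z W y y2 u D₀ p r m : ℕ) (hmain : C₀ * (3 * Z) + 12 * Z ≤ p) (h1 : u ≤ Z + W)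
    (hD : D₀ ≤ W) (hW : 2 * W ≤ Z) (hy : y ≤ W) (hy2 : y2 ≤ Z) (h4 : 4 ≤ y2) (hr : r ≤ y) (hm : m + 2 ≤ y + 2) :
    C₀ * (u + D₀ + 1) ≤ p ∧ u + r < p ∧ m + 2 < p := by
  refine ⟨?_, by omega, by omega⟩
  calc C₀ * (u + D₀ + 1) ≤ C₀ * (3 * Z) := Nat.mul_le_mul_left _ (by omega)
    _ ≤ p := by omega

private theorem V22_arith (C₀ K ν m A p s r : ℕ)
    (hp : (3 * (C₀ + 4) * (1 + K) * 2 ^ (2 * ν + 2) + (2 * ν + 2)) *
      (m + A + 1) ^ (3 * (C₀ + 4) * (1 + K) * 2 ^ (2 * ν + 2) + (2 * ν + 2)) ≤ p)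
    (hs : s ≤ (2 * m + 1) ^ ν) (hr : r ≤ s) :
    C₀ * ((s + 1) * (A + s * K) + (A + s * K) + 1) ≤ p ∧ (s + 1) * (A + s * K) + r < p ∧ m + 2 < p := by
  obtain ⟨x, hx⟩ : ∃ x, x = m + A + 1 := ⟨_, rfl⟩
  obtain ⟨y, hy⟩ : ∃ y, y = (2 * x) ^ (ν + 1) := ⟨_, rfl⟩
  have hx1 : 1 ≤ x := by omega
  have hxy : 2 * x ≤ y := by
    rw [hy, pow_succ]
    exact Nat.le_mul_of_pos_left _ (Nat.pos_of_ne_zero (pow_ne_zero _ (by omega)))
  have hsy : s ≤ y := by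
    refine hs.trans ?_
    rw [hy]
    calc (2 * m + 1) ^ ν ≤ (2 * x) ^ ν := Nat.pow_le_pow_left (by omega) _
      _ ≤ (2 * x) ^ (ν + 1) := Nat.pow_le_pow_right (by omega) (by omega)
  have hy2 : 2 ≤ y := by omega
  have hAy : A ≤ y := by omega
  have hmain : 3 * (C₀ + 4) * (1 + K) * y ^ 2 ≤ p := by
    refine le_trans ?_ hp
    rw [← hx]
    have e1 : y ^ 2 = 2 ^ (2 * ν + 2) * x ^ (2 * ν + 2) := by
      rw [hy, ← mul_pow, ← pow_mul]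
      congr 1
      ring
    rw [e1]
    calc 3 * (C₀ + 4) * (1 + K) * (2 ^ (2 * ν + 2) * x ^ (2 * ν + 2))
        = (3 * (C₀ + 4) * (1 + K) * 2 ^ (2 * ν + 2)) * x ^ (2 * ν + 2) := by ring
      _ ≤ (3 * (C₀ + 4) * (1 + K) * 2 ^ (2 * ν + 2) + (2 * ν + 2)) *
        x ^ (3 * (C₀ + 4) * (1 + K) * 2 ^ (2 * ν + 2) + (2 * ν + 2)) :=
          Nat.mul_le_mul (Nat.le_add_right _ _) (Nat.pow_le_pow_right hx1 (Nat.le_add_left _ _))
  have hD : A + s * K ≤ (1 + K) * y := by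
    have := Nat.mul_le_mul_right K hsy
    nlinarith
  have hyy : 2 * y ≤ y ^ 2 := by nlinarith
  have h1 : (s + 1) * (A + s * K) ≤ (y + 1) * ((1 + K) * y) := Nat.mul_le_mul (by omega) hD
  have hKy : (1 + K) * y ≤ (1 + K) * y ^ 2 := Nat.mul_le_mul_left _ (by omega)
  have hy3 : y ≤ (1 + K) * y := Nat.le_mul_of_pos_left _ (by omega)
  have hK1 : y ^ 2 ≤ (1 + K) * y ^ 2 := Nat.le_mul_of_pos_left _ (by omega)
  have hKy2 : (1 + K) * (2 * y) ≤ (1 + K) * y ^ 2 := Nat.mul_le_mul_left _ hyy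
  have e2 : (y + 1) * ((1 + K) * y) = (1 + K) * y ^ 2 + (1 + K) * y := by ring
  have e3 : (1 + K) * (2 * y) = 2 * ((1 + K) * y) := by ring
  have e4 : 3 * (C₀ + 4) * (1 + K) * y ^ 2 = C₀ * (3 * ((1 + K) * y ^ 2)) + 12 * ((1 + K) * y ^ 2) := by ring
  rw [e4] at hmain
  rw [e3] at hKy2
  rw [e2] at h1
  have h4 : 4 ≤ y ^ 2 := by nlinarith
  exact V22_lin C₀ _ _ y (y ^ 2) _ _ p r m hmain h1 hD hKy2 hy3 hK1 (by omega) (hr.trans hsy) (by omega)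

/-- Proof. `Φ' b := (opD D.Δ D.G)^[b] Φ`, `natDegree (Φ' b t) ≤ A + b * (c + 2 g)` (`Δ` has degree `2 g`; `natDegree (KS G ..) ≤ c + ..`). `exists_eqs`: `s ≤ (2 m + 1) ^ ν`, `ν = card ((Fin g × Fin g) ⊕ Sym2 (Fin g))`. `D₀ := A + s * (c + 2 g)`; `exists_pk`: `r ≤ s`, `d`, `Lm`, `Pk D m r s ((s + 1) * D₀) D₀ Φ' d Lm`. If
`C₀` is the constant of `all_tr g c hg` then `all_tr` applies if `C₀ * ((s + 2) * D₀ + 1) ≤ p`, `ev_red` if `(s + 1) * D₀ + s < p`, and `2 ≠ 0`, `n + 1 ≠ 0` for `n < m` in `k` if `m + 2 < p` (`CharP.cast_eq_zero_iff`); then `van_red` and `van_of_red` give `Van (Φ' 0)`. All these bounds are at most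
`C * (m + A + 1) ^ C` for a constant `C` which depends on `g` and `c`: with `x = m + A + 1`: `s ≤ (2 x) ^ ν`, `D₀ ≤ (1 + c + 2 g) * (2 x) ^ (ν + 1)`, `(s + 2) * D₀ + 1 ≤ 4 * (1 + c + 2 g) * (2 x) ^ (2 ν + 1)` etc.; take for instance
`C = (C₀ + 4) * 4 * (1 + c + 2 g) * 2 ^ (2 ν + 1) + 2 ν + 1` (and `x ^ n ≤ x ^ C` for `n ≤ C`, `1 ≤ x`). -/
theorem nve (g c : ℕ) (hg : 0 < g) : ∃ C : ℕ, ∀ (p m A : ℕ), p.Prime → C * (m + A + 1) ^ C ≤ p →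
    ∀ (k : Type) [Field k] [CharP k p] [Infinite k] (D : Dat g k), D.Ok p c →
    ∀ Φ : Kx g m → k[X], (∀ s, (Φ s).natDegree ≤ A) → ∀ α : k, D.Δ.eval α ≠ 0 →
      (X - Polynomial.C α) ^ p ∣ ev D.U Φ → Van Φ := by
  obtain ⟨C₀, hC₀⟩ := all_tr g c hg
  obtain ⟨ν, hν⟩ : ∃ ν, ν = Fintype.card ((Fin g × Fin g) ⊕ Sym2 (Fin g)) := ⟨_, rfl⟩
  obtain ⟨C, hC⟩ : ∃ C, C = 3 * (C₀ + 4) * (1 + (c + 2 * g)) * 2 ^ (2 * ν + 2) + (2 * ν + 2) := ⟨_, rfl⟩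
  refine ⟨C, ?_⟩
  intro p m A hp hbig k _ _ _ D hD Φ hΦ α hα hdvd
  obtain ⟨s, Γ, hs, hΓ⟩ := exists_eqs g m k
  rw [← hν] at hs
  obtain ⟨Ψ, hΨ⟩ : ∃ Ψ : ℕ → Kx g m → k[X], Ψ = fun b => (opD D.Δ D.G)^[b] Φ := ⟨_, rfl⟩
  have hΨ0 : Ψ 0 = Φ := by rw [hΨ]; rfl
  have hstep : ∀ b, Ψ (b + 1) = opD D.Δ D.G (Ψ b) := by
    intro b
    rw [hΨ]
    exact Function.iterate_succ_apply' _ _ _
  have hdeg : ∀ b ≤ s, ∀ t, (Ψ b t).natDegree ≤ A + s * (c + 2 * g) := by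
    intro b hb t
    rw [hΨ]
    refine (V22_deg_iter D hD Φ A hΦ b t).trans ?_
    exact Nat.add_le_add_left (Nat.mul_le_mul_right _ hb) _
  obtain ⟨r, d, Lm, hr, hP⟩ := exists_pk D s (A + s * (c + 2 * g)) Γ hΓ Ψ hstep hdeg
  rw [hC] at hbig
  obtain ⟨ha, hb, hc⟩ := V22_arith C₀ (c + 2 * g) ν m A p s r hbig hs hr
  clear hbig hC
  have hcast : ∀ n : ℕ, 0 < n → n < p → (n : k) ≠ 0 := by
    intro n hn hnp h0
    rw [CharP.cast_eq_zero_iff k p] at h0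
    have := Nat.le_of_dvd hn h0
    omega
  have h2 : (2 : k) ≠ 0 := by
    have := hcast 2 (by norm_num) (by omega)
    exact_mod_cast this
  have hF : ∀ n : ℕ, n < m → ((n + 1 : ℕ) : k) ≠ 0 := fun n hn => hcast (n + 1) (by omega) (by omega)
  have htr := hC₀ m p r s ((s + 1) * (A + s * (c + 2 * g))) (A + s * (c + 2 * g)) k hp ha D hD Ψ d Lm hP
  have h0 : (X - Polynomial.C α) ^ p ∣ ev D.U (Ψ 0) := by
    rw [hΨ0]
    exact hdvd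
  have hfin := van_of_red α hP (van_red h2 hF hD α hα hP htr (ev_red hD α hα hP h0 hb))
  rw [hΨ0] at hfin
  exact hfin

end MPadcOA
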