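import Mathlib

/-! LEAF V23: a sequence of polynomial growth has small relative increments (effective) -/

set_option autoImplicit false

namespace MPadcOA

private theorem V23_large (g N : ℕ) : ∃ C : ℕ, ∀ L : ℕ, C ≤ L →
    ((2 * ((g : ℝ) * ((L : ℝ) ^ 2)) + 1) ^ N : ℝ) < (2 : ℝ) ^ L := by
  have h1 := tendsto_pow_const_div_const_pow_of_one_lt (2 * N) (one_lt_two : (1 : ℝ) < 2)
  have hc : (0 : ℝ) < 1 / ((2 * (g : ℝ) + 1) ^ N) := by positivity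
  have h2 := h1.eventually (gt_mem_nhds hc)
  obtain ⟨C, hC⟩ := Filter.eventually_atTop.1 (h2.and (Filter.eventually_ge_atTop 1))
  refine ⟨C, fun L hL => ?_⟩
  obtain ⟨hJ, hJ1⟩ := hC L hL
  have hr0 : (0 : ℝ) < 2 ^ L := pow_pos (by norm_num) L
  have hJ2 : (1 : ℝ) ≤ L := by exact_mod_cast hJ1
  have hg : (0 : ℝ) ≤ g := Nat.cast_nonneg g
  rw [div_lt_div_iff₀ hr0 (by positivity), one_mul] at hJ
  refine lt_of_le_of_lt ?_ hJ
  rw [pow_mul, ← mul_pow]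
  refine pow_le_pow_left₀ (by positivity) ?_ N
  nlinarith [mul_nonneg hg (by positivity : (0 : ℝ) ≤ (L : ℝ) ^ 2)]

/-- Proof. Suppose that for all `j < L ^ 2`: `σ j < (1 - 1 / L) σ (j + 1)`, `L ≥ 2`. Then `(1 + 1 / L) σ j ≤ σ (j + 1)` (as `(1 + 1 / L) (1 - 1 / L) ≤ 1`), so `σ (L ^ 2) ≥ (1 + 1 / L) ^ (L ^ 2) = ((1 + 1 / L) ^ L) ^ L ≥ 2 ^ L` (Bernoulli: `one_add_mul_le_pow`), while
`σ (L ^ 2) ≤ (2 g L ^ 2 + 1) ^ N`, which is smaller than `2 ^ L` for large `L` (`tendsto_pow_const_div_const_pow_of_one_lt`, or as in `S7_large` of S7.lean). -/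
theorem exists_inc_e (g N : ℕ) : ∃ C : ℕ, ∀ L : ℕ, C ≤ L → ∀ σ : ℕ → ℕ, 0 < σ 0 →
    (∀ j, σ j ≤ (2 * (g * j) + 1) ^ N) →
    ∃ j, j < L ^ 2 ∧ (σ (j + 1) : ℝ) - σ j ≤ 1 / (L : ℝ) * σ (j + 1) := by
  obtain ⟨C, hC⟩ := V23_large g N
  refine ⟨max C 1, fun L hL σ h0 hσ => ?_⟩
  have hL1 : 1 ≤ L := le_trans (le_max_right _ _) hL
  have hLr : (0 : ℝ) < L := by exact_mod_cast hL1
  by_contra hcon
  push Not at hcon
  have hind : ∀ j, j ≤ L ^ 2 → (1 + 1 / (L : ℝ)) ^ j ≤ (σ j : ℝ) := by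
    intro j
    induction j with
    | zero =>
      intro _
      rw [pow_zero]
      exact_mod_cast h0
    | succ j ih =>
      intro hj
      have h1 := ih (by omega)
      have h2 := hcon j (by omega)
      have h3 : (0 : ℝ) ≤ (σ (j + 1) : ℝ) := Nat.cast_nonneg _
      have h4 : (σ j : ℝ) ≤ (1 - 1 / (L : ℝ)) * σ (j + 1) := by linarith
      have h5 : (0 : ℝ) ≤ 1 / (L : ℝ) := by positivity
      rw [pow_succ]
      calc (1 + 1 / (L : ℝ)) ^ j * (1 + 1 / (L : ℝ)) ≤ (σ j : ℝ) * (1 + 1 / (L : ℝ)) :=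
            mul_le_mul_of_nonneg_right h1 (by positivity)
        _ ≤ ((1 - 1 / (L : ℝ)) * σ (j + 1)) * (1 + 1 / (L : ℝ)) :=
            mul_le_mul_of_nonneg_right h4 (by positivity)
        _ = (1 - (1 / (L : ℝ)) ^ 2) * (σ (j + 1) : ℝ) := by ring
        _ ≤ 1 * (σ (j + 1) : ℝ) := mul_le_mul_of_nonneg_right (by nlinarith) h3
        _ = (σ (j + 1) : ℝ) := one_mul _
  have h5 := hind (L ^ 2) le_rfl
  have hB : (2 : ℝ) ≤ (1 + 1 / (L : ℝ)) ^ L := by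
    have := one_add_mul_le_pow (a := 1 / (L : ℝ)) (by have : (0 : ℝ) ≤ 1 / (L : ℝ) := by positivity
                                                      linarith) L
    have h6 : (L : ℝ) * (1 / (L : ℝ)) = 1 := by field_simp
    linarith
  have h7 : (2 : ℝ) ^ L ≤ (1 + 1 / (L : ℝ)) ^ (L ^ 2) := by
    rw [pow_two, pow_mul]
    exact pow_le_pow_left₀ (by norm_num) hB L
  have h6 : (σ (L ^ 2) : ℝ) ≤ ((2 * ((g : ℝ) * ((L : ℝ) ^ 2)) + 1) ^ N : ℝ) := by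
    have := hσ (L ^ 2)
    exact_mod_cast this
  have h8 := hC L (le_trans (le_max_left _ _) hL)
  linarith

end MPadcOA
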