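import Pool.Agent.Lib.MP_adc574_ag_OA.N_T0
import Pool.Agent.Lib.MP_adc574_ag_OA.S6

/-! LEAF V5: few equations for the forms which vanish at the generic isotropic frame -/

set_option autoImplicit false

namespace MPadcOA

open Matrix Polynomial

/-- Proof. `van_int g m` gives `N` and integer rows `Γ₀ i`; let `ρ i t := (Γ₀ i t : k)`. `exists_linearIndependent'` (for `ρ : Fin N → (Kx g m → k)`) gives an injective
`a : κ → Fin N` with `ρ ∘ a` linearly independent and `span (range (ρ ∘ a)) = span (range ρ)`; `κ` is finite; reindex it by `Fin s`, `Γ := ρ ∘ a`. For a ring `R` and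
`f : k →+* R`: `(Γ₀ i t : R) = f (ρ i t)` (`map_intCast`), and every `ρ i` is a linear combination of the `Γ j`, so `∑ t, f (Γ j t) * φ t = 0` for all `j` implies the same for all `ρ i`
(`Submodule.span_induction` for the property `∑ t, f (x t) * φ t = 0` of `x : Kx g m → k`). The bound: `s = finrank` of the span of the rows of the matrix `ρ`, i.e. its rank
(`Matrix.rank_eq_finrank_span_row`, `finrank_span_eq_card`), i.e. the dimension of the range of `φ ↦ ρ *ᵥ φ`; the kernel of this map is the kernel of `evg g m k`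
(`Van φ` is `evg g m k φ = 0` by definition, and `van_int` for `R = k`), so by `LinearMap.finrank_range_add_finrank_ker` twice `s = sdim g m k`, and `sdim_le`. -/
theorem exists_eqs (g m : ℕ) (k : Type) [Field k] : ∃ (s : ℕ) (Γ : Fin s → Kx g m → k),
    s ≤ (2 * m + 1) ^ Fintype.card ((Fin g × Fin g) ⊕ Sym2 (Fin g)) ∧
    ∀ (R : Type) [CommRing R] (f : k →+* R) (φ : Kx g m → R), Van φ ↔ ∀ i, ∑ t, f (Γ i t) * φ t = 0 := by
  classical
  obtain ⟨N, Γ₀, hN⟩ := van_int g m
  let ρ : Matrix (Fin N) (Kx g m) k := fun i t => ((Γ₀ i t : ℤ) : k)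
  let W : Submodule k (Kx g m → k) := Submodule.span k (Set.range ρ)
  let b := Module.finBasis k W
  refine ⟨Module.finrank k W, fun i => (b i : Kx g m → k), ?_, ?_⟩
  · have h1 : Module.finrank k W = ρ.rank := (Matrix.rank_eq_finrank_span_row ρ).symm
    have h2 : ρ.rank = Module.finrank k (LinearMap.range ρ.mulVecLin) := rfl
    have h3 : LinearMap.ker ρ.mulVecLin = LinearMap.ker (evg g m k) := by
      ext φ
      rw [LinearMap.mem_ker, LinearMap.mem_ker]
      have h4 : Van φ ↔ evg g m k φ = 0 := Iff.rfl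
      rw [← h4, hN k φ, Matrix.mulVecLin_apply, funext_iff]
      refine forall_congr' fun i => ?_
      rw [Matrix.mulVec, dotProduct, Pi.zero_apply]
      have h5 : ∑ t, ρ i t * φ t = ∑ s, φ s * ((Γ₀ i s : ℤ) : k) :=
        Finset.sum_congr rfl fun t _ => mul_comm _ _
      rw [h5]
    have h4 := LinearMap.finrank_range_add_finrank_ker ρ.mulVecLin
    have h5 := LinearMap.finrank_range_add_finrank_ker (evg g m k)
    rw [h3] at h4
    have h6 : Module.finrank k W = sdim g m k := by
      have h7 : sdim g m k = Module.finrank k (LinearMap.range (evg g m k)) := rfl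
      rw [h1, h2, h7]
      omega
    rw [h6]
    exact sdim_le g m k
  · intro R _ f φ
    have hlin : ∀ (ι : Type) (_ : Fintype ι) (c : ι → k) (v : ι → Kx g m → k),
        (∀ i, ∑ t, f (v i t) * φ t = 0) → ∑ t, f ((∑ i, c i • v i) t) * φ t = 0 := by
      intro ι _ c v hv
      have h1 : ∀ t, f ((∑ i, c i • v i) t) * φ t = ∑ i, f (c i) * (f (v i t) * φ t) := by
        intro t
        rw [Finset.sum_apply, map_sum, Finset.sum_mul]
        refine Finset.sum_congr rfl fun i _ => ?_
        rw [Pi.smul_apply, smul_eq_mul, map_mul, mul_assoc]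
      rw [Finset.sum_congr rfl fun t _ => h1 t, Finset.sum_comm]
      refine Finset.sum_eq_zero fun i _ => ?_
      rw [← Finset.mul_sum, hv i, mul_zero]
    have hcoe : ∀ i, ∑ t, f (ρ i t) * φ t = ∑ s, φ s * ((Γ₀ i s : ℤ) : R) := fun i =>
      Finset.sum_congr rfl fun t _ => by
        show f ((Γ₀ i t : ℤ) : k) * φ t = _
        rw [map_intCast, mul_comm]
    rw [hN R φ]
    constructor
    · intro h i
      have h1 : ((b i : W) : Kx g m → k) ∈ Submodule.span k (Set.range ρ) := (b i).2
      obtain ⟨c, hc⟩ := (Submodule.mem_span_range_iff_exists_fun k).1 h1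
      have h2 := hlin (Fin N) inferInstance c ρ (fun i => by rw [hcoe i]; exact h i)
      rw [hc] at h2
      exact h2
    · intro h i
      rw [← hcoe i]
      have h1 : ρ i ∈ W := Submodule.subset_span ⟨i, rfl⟩
      have h2 := congrArg (fun w : W => (w : Kx g m → k)) (b.sum_repr ⟨ρ i, h1⟩)
      simp only [Submodule.coe_sum, Submodule.coe_smul] at h2
      have h3 := hlin _ inferInstance (fun j => b.repr ⟨ρ i, h1⟩ j) (fun j => ((b j : W) : Kx g m → k)) h
      rw [h2] at h3
      exact h3

end MPadcOA
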